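import Pool.Agent.Lib_helper80.OPF.Defs

/-!
# OPN, block L1: extension of a real valuation to an algebraic extension
-/

namespace Pool.Agent.OPT.L1

section base

variable {F : Type} [Field F] (v : AddValuation F (WithTop ℝ))

theorem ne_top {a : F} (ha : a ≠ 0) : v a ≠ ⊤ := by
  intro h
  have h1 : v a + v a⁻¹ = 0 := by rw [← v.map_mul, mul_inv_cancel₀ ha, v.map_one]
  rw [h] at h1
  simp at h1

/-- the real value -/
noncomputable def rv (a : F) : ℝ := (v a).untopD 0

theorem rv_coe {a : F} (ha : a ≠ 0) : ((rv v a : ℝ) : WithTop ℝ) = v a := by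
  obtain ⟨r, hr⟩ := WithTop.ne_top_iff_exists.1 (ne_top v ha)
  unfold rv
  rw [← hr]
  rfl

theorem rv_mul {a b : F} (ha : a ≠ 0) (hb : b ≠ 0) : rv v (a * b) = rv v a + rv v b := by
  have h : ((rv v (a * b) : ℝ) : WithTop ℝ) = ((rv v a + rv v b : ℝ) : WithTop ℝ) := by
    rw [rv_coe v (mul_ne_zero ha hb), v.map_mul, WithTop.coe_add, rv_coe v ha, rv_coe v hb]
  exact_mod_cast h

theorem rv_one : rv v (1 : F) = 0 := by
  unfold rv
  rw [v.map_one]
  rfl

theorem rv_inv {a : F} (ha : a ≠ 0) : rv v a⁻¹ = - rv v a := by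
  have h := rv_mul v ha (inv_ne_zero ha)
  rw [mul_inv_cancel₀ ha, rv_one] at h
  linarith

theorem rv_pow {a : F} (ha : a ≠ 0) (n : ℕ) : rv v (a ^ n) = n * rv v a := by
  induction n with
  | zero => simp [rv_one]
  | succ n ih =>
    rw [pow_succ, rv_mul v (pow_ne_zero n ha) ha, ih]
    push_cast
    ring

theorem nonneg_iff {a : F} (ha : a ≠ 0) : 0 ≤ v a ↔ 0 ≤ rv v a := by
  rw [← rv_coe v ha]
  exact_mod_cast Iff.rfl

/-- the valuation ring -/
noncomputable def AV : ValuationSubring F where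
  carrier := {a | 0 ≤ v a}
  mul_mem' := by
    intro a b ha hb
    simp only [Set.mem_ofPred_eq] at ha hb ⊢
    rw [v.map_mul]
    exact add_nonneg ha hb
  one_mem' := by
    simp only [Set.mem_ofPred_eq]
    rw [v.map_one]
  add_mem' := by
    intro a b ha hb
    simp only [Set.mem_ofPred_eq] at ha hb ⊢
    exact le_trans (le_min ha hb) (v.map_add a b)
  zero_mem' := by
    simp only [Set.mem_ofPred_eq]
    rw [v.map_zero]
    exact le_top
  neg_mem' := by
    intro a ha
    simp only [Set.mem_ofPred_eq] at ha ⊢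
    rw [v.map_neg]
    exact ha
  mem_or_inv_mem' := by
    intro a
    simp only [Set.mem_ofPred_eq]
    by_cases ha : a = 0
    · left
      rw [ha, v.map_zero]
      exact le_top
    · rw [nonneg_iff v ha, nonneg_iff v (inv_ne_zero ha), rv_inv v ha]
      rcases le_total 0 (rv v a) with h | h
      · left; exact h
      · right; linarith

theorem mem_AV (a : F) : a ∈ AV v ↔ 0 ≤ v a := Iff.rfl

end base

section ext

variable {F E : Type} [Field F] [Field E] [Algebra F E]

/-- a valuation ring of `E` lying over the valuation ring of `v` -/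
theorem exists_over (v : AddValuation F (WithTop ℝ)) :
    ∃ O : ValuationSubring E, ∀ a : F, algebraMap F E a ∈ O ↔ 0 ≤ v a := by
  obtain ⟨O, hO, hloc⟩ := IsLocalRing.exists_factor_valuationRing
    ((algebraMap F E).comp (AV v).subtype)
  refine ⟨O, fun a => ⟨fun ha => ?_, fun ha => hO ⟨a, (mem_AV v a).2 ha⟩⟩⟩
  by_contra hc
  have ha0 : a ≠ 0 := by
    rintro rfl
    rw [v.map_zero] at hc
    exact hc le_top
  have h1 : 0 ≤ v a⁻¹ := by
    rw [nonneg_iff v (inv_ne_zero ha0), rv_inv v ha0]
    rw [nonneg_iff v ha0] at hc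
    linarith
  have hu : IsUnit ((((algebraMap F E).comp (AV v).subtype).codRestrict O.toSubring hO)
      (⟨a⁻¹, (mem_AV v _).2 h1⟩ : AV v)) := by
    refine IsUnit.of_mul_eq_one (⟨algebraMap F E a, ha⟩ : O.toSubring) ?_
    apply Subtype.ext
    change algebraMap F E a⁻¹ * algebraMap F E a = 1
    rw [← map_mul, inv_mul_cancel₀ ha0, map_one]
  have hu2 := hloc.map_nonunit _ hu
  obtain ⟨b, hb⟩ := hu2.exists_right_inv
  have hb2 : a⁻¹ * (b : F) = 1 := congrArg Subtype.val hb
  have hb3 : (b : F) = a := by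
    field_simp at hb2
    exact hb2
  have hb4 : 0 ≤ v (b : F) := (mem_AV v _).1 b.2
  rw [hb3] at hb4
  exact hc hb4

variable (v : AddValuation F (WithTop ℝ)) (O : ValuationSubring E)

/-- `e ^ n` and `a` have the same value -/
def Rel (e : E) (n : ℕ) (a : F) : Prop :=
  1 ≤ n ∧ a ≠ 0 ∧ O.valuation (e ^ n) = O.valuation (algebraMap F E a)

theorem exists_rel [Algebra.IsAlgebraic F E] (e : E) (he : e ≠ 0) :
    ∃ (n : ℕ) (a : F), Rel O e n a := by
  classical
  obtain ⟨P, hP0, hPe⟩ := (Algebra.IsAlgebraic.isAlgebraic (R := F) e)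
  -- the terms
  set t : ℕ → E := fun i => algebraMap F E (P.coeff i) * e ^ i with ht
  have hsum : ∑ i ∈ P.support, t i = 0 := by
    have h := hPe
    rw [Polynomial.aeval_def, Polynomial.eval₂_eq_sum, Polynomial.sum_def] at h
    exact h
  have hne : P.support.Nonempty := by
    rw [Polynomial.support_nonempty]
    exact hP0
  obtain ⟨j, hj, hmax⟩ := P.support.exists_max_image (fun i => O.valuation (t i)) hne
  have htne : ∀ i ∈ P.support, t i ≠ 0 := by
    intro i hi
    refine mul_ne_zero ?_ (pow_ne_zero _ he)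
    rw [Ne, map_eq_zero_iff _ (algebraMap F E).injective]
    exact Polynomial.mem_support_iff.1 hi
  have hex : ∃ i ∈ P.support, i ≠ j ∧ O.valuation (t i) = O.valuation (t j) := by
    by_contra hcon
    push Not at hcon
    have h1 : O.valuation (∑ i ∈ P.support, t i) = O.valuation (t j) := by
      apply Valuation.map_sum_eq_of_lt O.valuation hj
      intro i hi
      rw [Finset.mem_sdiff, Finset.mem_singleton] at hi
      exact lt_of_le_of_ne (hmax i hi.1) (hcon i hi.1 hi.2)
    rw [hsum, map_zero] at h1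
    exact (Valuation.ne_zero_iff _).2 (htne j hj) h1.symm
  -- reduce to i < j
  have key : ∀ i j : ℕ, i ∈ P.support → j ∈ P.support → i < j →
      O.valuation (t i) = O.valuation (t j) → ∃ (n : ℕ) (a : F), Rel O e n a := by
    intro i j hi hj hij h
    have hci : P.coeff i ≠ 0 := Polynomial.mem_support_iff.1 hi
    have hcj : P.coeff j ≠ 0 := Polynomial.mem_support_iff.1 hj
    refine ⟨j - i, P.coeff i / P.coeff j, by omega, div_ne_zero hci hcj, ?_⟩
    rw [map_div₀, map_div₀]
    have hvj : O.valuation (algebraMap F E (P.coeff j)) ≠ 0 := by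
      rw [Valuation.ne_zero_iff, Ne, map_eq_zero_iff _ (algebraMap F E).injective]
      exact hcj
    rw [eq_div_iff hvj]
    have hve : O.valuation (e ^ i) ≠ 0 := (Valuation.ne_zero_iff _).2 (pow_ne_zero _ he)
    apply mul_right_cancel₀ hve
    have h2 : O.valuation (t i) = O.valuation (algebraMap F E (P.coeff i)) * O.valuation (e ^ i) := by
      rw [ht]; exact map_mul _ _ _
    have h3 : O.valuation (t j) = O.valuation (algebraMap F E (P.coeff j)) * O.valuation (e ^ j) := by
      rw [ht]; exact map_mul _ _ _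
    rw [← h2, h, h3]
    have h4 : e ^ j = e ^ (j - i) * e ^ i := by
      rw [← pow_add]; congr 1; omega
    rw [h4, map_mul, mul_comm (O.valuation (e ^ (j - i))), mul_assoc,
      mul_comm (O.valuation (e ^ (j - i))), ← mul_assoc]
  obtain ⟨i, hi, hij, h⟩ := hex
  rcases lt_or_gt_of_ne hij with h1 | h1
  · exact key i j hi hj h1 h
  · exact key j i hj hi h1 h.symm

variable {O} {v}

theorem one_le_of_val (hO : ∀ a : F, algebraMap F E a ∈ O ↔ 0 ≤ v a) {a : F} (ha : a ≠ 0) :
    O.valuation (algebraMap F E a) ≤ 1 ↔ 0 ≤ rv v a := by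
  rw [ValuationSubring.valuation_le_one_iff, hO, nonneg_iff v ha]

theorem val_le_iff (hO : ∀ a : F, algebraMap F E a ∈ O ↔ 0 ≤ v a) {a b : F} (ha : a ≠ 0)
    (hb : b ≠ 0) :
    O.valuation (algebraMap F E a) ≤ O.valuation (algebraMap F E b) ↔ rv v b ≤ rv v a := by
  have h := one_le_of_val hO (div_ne_zero ha hb)
  have hvb : O.valuation (algebraMap F E b) ≠ 0 := by
    rw [Valuation.ne_zero_iff, Ne, map_eq_zero_iff _ (algebraMap F E).injective]
    exact hb
  rw [map_div₀, map_div₀, div_le_one₀ (zero_lt_iff.2 hvb), div_eq_mul_inv,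
    rv_mul v ha (inv_ne_zero hb), rv_inv v hb] at h
  rw [h]
  constructor <;> intro h <;> linarith

theorem rel_unique (hO : ∀ a : F, algebraMap F E a ∈ O ↔ 0 ≤ v a) {e : E} {n m : ℕ} {a b : F}
    (h1 : Rel O e n a) (h2 : Rel O e m b) : rv v a / n = rv v b / m := by
  obtain ⟨hn, ha, h1⟩ := h1
  obtain ⟨hm, hb, h2⟩ := h2
  have h3 : O.valuation (algebraMap F E (a ^ m)) = O.valuation (algebraMap F E (b ^ n)) := by
    rw [map_pow, map_pow, map_pow, map_pow, ← h1, ← h2, map_pow, map_pow, ← pow_mul, ← pow_mul,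
      mul_comm]
  have h4 := (val_le_iff hO (pow_ne_zero m ha) (pow_ne_zero n hb)).1 h3.le
  have h5 := (val_le_iff hO (pow_ne_zero n hb) (pow_ne_zero m ha)).1 h3.ge
  rw [rv_pow v ha, rv_pow v hb] at h4 h5
  have hn' : (0 : ℝ) < n := by exact_mod_cast hn
  have hm' : (0 : ℝ) < m := by exact_mod_cast hm
  rw [div_eq_div_iff hn'.ne' hm'.ne']
  linarith

end ext

/-- block L1 -/
theorem val_ext_pr {F E : Type} [Field F] [Field E] [Algebra F E] [Algebra.IsAlgebraic F E]
    (v : AddValuation F (WithTop ℝ)) :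
    ∃ v' : AddValuation E (WithTop ℝ), ∀ a, v' (algebraMap F E a) = v a := by
  classical
  obtain ⟨O, hO⟩ := exists_over (E := E) v
  choose n a hR using fun e : {e : E // e ≠ 0} => exists_rel (F := F) O e.1 e.2
  let r : E → ℝ := fun e => if he : e ≠ 0 then rv v (a ⟨e, he⟩) / n ⟨e, he⟩ else 0
  have hr : ∀ (e : E) (_ : e ≠ 0) (m : ℕ) (b : F), Rel O e m b → r e = rv v b / m := by
    intro e he m b hb
    simp only [r, dif_pos he]
    exact rel_unique hO (hR ⟨e, he⟩) hb
  have hrel : ∀ (e : E) (_ : e ≠ 0), ∃ (m : ℕ) (b : F), Rel O e m b := fun e he =>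
    exists_rel O e he
  -- multiplicativity
  have hmul : ∀ e f : E, e ≠ 0 → f ≠ 0 → r (e * f) = r e + r f := by
    intro e f he hf
    obtain ⟨m, b, hb⟩ := hrel e he
    obtain ⟨l, c, hc⟩ := hrel f hf
    rw [hr e he m b hb, hr f hf l c hc]
    have hm' : (0 : ℝ) < m := by exact_mod_cast hb.1
    have hl' : (0 : ℝ) < l := by exact_mod_cast hc.1
    have hbc : Rel O (e * f) (m * l) (b ^ l * c ^ m) := by
      refine ⟨Nat.mul_pos hb.1 hc.1, mul_ne_zero (pow_ne_zero _ hb.2.1) (pow_ne_zero _ hc.2.1), ?_⟩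
      have h1 : O.valuation ((e * f) ^ (m * l)) =
          O.valuation (e ^ m) ^ l * O.valuation (f ^ l) ^ m := by
        rw [← map_pow, ← map_pow, ← map_mul]
        congr 1
        rw [mul_pow, pow_mul, mul_comm m l, pow_mul]
      rw [h1, hb.2.2, hc.2.2, map_mul (algebraMap F E), map_pow (algebraMap F E),
        map_pow (algebraMap F E), map_mul O.valuation, map_pow O.valuation, map_pow O.valuation]
    rw [hr (e * f) (mul_ne_zero he hf) _ _ hbc,
      rv_mul v (pow_ne_zero _ hb.2.1) (pow_ne_zero _ hc.2.1), rv_pow v hb.2.1, rv_pow v hc.2.1]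
    push_cast
    field_simp
  -- nonnegative values
  have hnn : ∀ e : E, e ≠ 0 → (0 ≤ r e ↔ e ∈ O) := by
    intro e he
    obtain ⟨m, b, hb⟩ := hrel e he
    rw [hr e he m b hb]
    have hm' : (0 : ℝ) < m := by exact_mod_cast hb.1
    rw [← ValuationSubring.valuation_le_one_iff]
    have h1 : 0 ≤ rv v b / m ↔ 0 ≤ rv v b := by
      constructor
      · intro h
        have := mul_nonneg h hm'.le
        rwa [div_mul_cancel₀ _ hm'.ne'] at this
      · intro h
        exact div_nonneg h hm'.le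
    rw [h1, ← one_le_of_val hO hb.2.1, ← hb.2.2, map_pow]
    constructor
    · intro h
      by_contra hc
      push Not at hc
      exact absurd h (not_le.2 (one_lt_pow₀ hc (by have := hb.1; omega)))
    · intro h
      exact pow_le_one₀ (zero_le) h
  have hone : r 1 = 0 := by
    have := hmul 1 1 one_ne_zero one_ne_zero
    rw [mul_one] at this
    linarith
  let w : E → WithTop ℝ := fun e => if e = 0 then ⊤ else ((r e : ℝ) : WithTop ℝ)
  have hw0 : w 0 = ⊤ := by simp [w]
  have hw : ∀ e : E, e ≠ 0 → w e = ((r e : ℝ) : WithTop ℝ) := fun e he => by simp [w, he]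
  have hwmul : ∀ e f, w (e * f) = w e + w f := by
    intro e f
    by_cases he : e = 0
    · rw [he, zero_mul, hw0, top_add]
    by_cases hf : f = 0
    · rw [hf, mul_zero, hw0, add_top]
    rw [hw _ (mul_ne_zero he hf), hw e he, hw f hf, hmul e f he hf]
    push_cast
    rfl
  have hwadd1 : ∀ e f, w e ≤ w f → w e ≤ w (e + f) := by
    intro e f hef
    by_cases he : e = 0
    · have : w f = ⊤ := by
        rw [he, hw0] at hef
        exact top_le_iff.1 hef
      have hf : f = 0 := by
        by_contra hf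
        rw [hw f hf] at this
        exact WithTop.coe_ne_top this
      rw [he, hf, add_zero]
    by_cases hs : e + f = 0
    · rw [hs, hw0]; exact le_top
    by_cases hf : f = 0
    · rw [hf, add_zero]
    have h1 : r e ≤ r f := by
      rw [hw e he, hw f hf] at hef
      exact_mod_cast hef
    have h2 : r (e⁻¹ * f) = r f - r e := by
      have h3 := hmul e (e⁻¹ * f) he (mul_ne_zero (inv_ne_zero he) hf)
      rw [← mul_assoc, mul_inv_cancel₀ he, one_mul] at h3
      linarith
    have h4 : e⁻¹ * f ∈ O := by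
      rw [← hnn _ (mul_ne_zero (inv_ne_zero he) hf), h2]
      linarith
    have h5 : 1 + e⁻¹ * f ∈ O := O.add_mem _ _ O.one_mem h4
    have h6 : e + f = e * (1 + e⁻¹ * f) := by
      rw [mul_add, mul_one, ← mul_assoc, mul_inv_cancel₀ he, one_mul]
    have h7 : 1 + e⁻¹ * f ≠ 0 := by
      intro h
      rw [h6, h, mul_zero] at hs
      exact hs rfl
    have h8 := (hnn _ h7).2 h5
    rw [hw e he, hw _ hs]
    have h9 : r (e + f) = r e + r (1 + e⁻¹ * f) := by
      rw [h6]
      exact hmul _ _ he h7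
    rw [h9]
    exact_mod_cast (by linarith : r e ≤ r e + r (1 + e⁻¹ * f))
  have hwadd : ∀ e f, min (w e) (w f) ≤ w (e + f) := by
    intro e f
    rcases le_total (w e) (w f) with h | h
    · rw [min_eq_left h]; exact hwadd1 e f h
    · rw [min_eq_right h, add_comm]; exact hwadd1 f e h
  refine ⟨AddValuation.of w hw0 (by rw [hw 1 one_ne_zero, hone]; rfl) hwadd hwmul, fun b => ?_⟩
  rw [AddValuation.of_apply]
  by_cases hb : b = 0
  · rw [hb, map_zero, hw0, v.map_zero]
  · have hb' : algebraMap F E b ≠ 0 := by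
      rw [Ne, map_eq_zero_iff _ (algebraMap F E).injective]
      exact hb
    rw [hw _ hb', hr _ hb' 1 b ⟨le_refl _, hb, by rw [pow_one]⟩]
    rw [Nat.cast_one, div_one, rv_coe v hb]

end Pool.Agent.OPT.L1

namespace Pool.Agent.OPT

alias val_ext := L1.val_ext_pr

end Pool.Agent.OPT
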