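import Pool.Agent.Lib_helper80.OPF.Defs

/-!
# OPN, block L10: rational approximation of finitely many reals
-/

set_option autoImplicit false

namespace Pool.Agent.OPT.L10

/-- L10 -/
theorem approx_hom_pr (G : Finset ℝ) (δ : ℝ) (hδ : 0 < δ) (M0 : ℕ) :
    ∃ (h : ℝ →ₗ[ℚ] ℚ) (M : ℕ), 1 ≤ M ∧ M0 ≤ M ∧ ∀ g ∈ G, (∃ m : ℤ, h g = m) ∧
      |((h g : ℚ) : ℝ) - M * g| ≤ δ * M := by
  classical
  let W : Submodule ℚ ℝ := Submodule.span ℚ (G : Set ℝ)
  have : FiniteDimensional ℚ W := FiniteDimensional.span_of_finite ℚ G.finite_toSet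
  let b := Module.finBasis ℚ W
  have hmem : ∀ g ∈ G, g ∈ W := fun g hg => Submodule.subset_span hg
  let cf : ℝ → Fin (Module.finrank ℚ W) → ℚ := fun g a =>
    if hg : g ∈ W then b.repr ⟨g, hg⟩ a else 0
  set B : ℝ := ∑ g ∈ G, ∑ a, |((cf g a : ℚ) : ℝ)| + 1 with hB
  have hB0 : 0 < B := by
    have : 0 ≤ ∑ g ∈ G, ∑ a, |((cf g a : ℚ) : ℝ)| :=
      Finset.sum_nonneg fun g _ => Finset.sum_nonneg fun a _ => abs_nonneg _
    linarith
  have hq : ∀ a, ∃ q : ℚ, |((q : ℚ) : ℝ) - ((b a : W) : ℝ)| < δ / B := by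
    intro a
    obtain ⟨q, hq1, hq2⟩ := exists_rat_btwn (show ((b a : W) : ℝ) < (b a : W) + δ / B by
      have : 0 < δ / B := by positivity
      linarith)
    refine ⟨q, ?_⟩
    rw [abs_lt]
    constructor <;> linarith
  choose q hq using hq
  let h0 : W →ₗ[ℚ] ℚ := b.constr ℚ q
  obtain ⟨h1, hh1⟩ := LinearMap.exists_extend h0
  have hval : ∀ g ∈ G, h1 g = ∑ a, cf g a * q a := by
    intro g hg
    have hgW := hmem g hg
    have e1 : h1 g = h0 ⟨g, hgW⟩ := by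
      have := LinearMap.congr_fun hh1 ⟨g, hgW⟩
      simpa using this
    rw [e1]
    show (b.constr ℚ q) ⟨g, hgW⟩ = _
    rw [Module.Basis.constr_apply_fintype]
    refine Finset.sum_congr rfl fun a _ => ?_
    show (b.equivFun ⟨g, hgW⟩ a) • q a = cf g a * q a
    rw [Module.Basis.equivFun_apply, smul_eq_mul]
    show _ = (if hg : g ∈ W then b.repr ⟨g, hg⟩ a else 0) * q a
    rw [dif_pos hgW]
  have hexp : ∀ g ∈ G, g = ∑ a, ((cf g a : ℚ) : ℝ) * ((b a : W) : ℝ) := by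
    intro g hg
    have hgW := hmem g hg
    have e2 : ((∑ a, b.repr ⟨g, hgW⟩ a • b a : W) : ℝ) = g := by rw [b.sum_repr]
    rw [Submodule.coe_sum] at e2
    conv_lhs => rw [← e2]
    refine Finset.sum_congr rfl fun a _ => ?_
    show _ = (((if hg : g ∈ W then b.repr ⟨g, hg⟩ a else 0 : ℚ)) : ℝ) * _
    rw [dif_pos hgW, Submodule.coe_smul, Rat.smul_def]
  have happ : ∀ g ∈ G, |((h1 g : ℚ) : ℝ) - g| ≤ δ := by
    intro g hg
    have e1 : ((h1 g : ℚ) : ℝ) - g =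
        ∑ a, ((cf g a : ℚ) : ℝ) * (((q a : ℚ) : ℝ) - ((b a : W) : ℝ)) := by
      simp only [mul_sub, Finset.sum_sub_distrib]
      rw [← hexp g hg, hval g hg]
      push_cast
      rfl
    rw [e1]
    refine (Finset.abs_sum_le_sum_abs _ _).trans ?_
    have e2 : ∑ a, |((cf g a : ℚ) : ℝ) * (((q a : ℚ) : ℝ) - ((b a : W) : ℝ))| ≤
        ∑ a, |((cf g a : ℚ) : ℝ)| * (δ / B) := by
      refine Finset.sum_le_sum fun a _ => ?_
      rw [abs_mul]
      exact mul_le_mul_of_nonneg_left (hq a).le (abs_nonneg _)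
    refine e2.trans ?_
    rw [← Finset.sum_mul]
    have e3 : ∑ a, |((cf g a : ℚ) : ℝ)| ≤ B := by
      have := Finset.single_le_sum (f := fun g => ∑ a, |((cf g a : ℚ) : ℝ)|)
        (fun g _ => Finset.sum_nonneg fun a _ => abs_nonneg _) hg
      linarith
    calc (∑ a, |((cf g a : ℚ) : ℝ)|) * (δ / B) ≤ B * (δ / B) :=
          mul_le_mul_of_nonneg_right e3 (by positivity)
      _ = δ := by field_simp
  let M' : ℕ := ∏ g ∈ G, (h1 g).den
  have hM' : 1 ≤ M' := Nat.one_le_iff_ne_zero.2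
    (Finset.prod_ne_zero_iff.2 fun g _ => (h1 g).den_nz)
  let M : ℕ := M' * (M0 + 1)
  refine ⟨(M : ℚ) • h1, M, Nat.one_le_iff_ne_zero.2 (Nat.mul_ne_zero (by omega) (by omega)), ?_,
    fun g hg => ⟨?_, ?_⟩⟩
  · show M0 ≤ M' * (M0 + 1)
    nlinarith
  · have hd : (h1 g).den ∣ M := (Finset.dvd_prod_of_mem _ hg).trans (Nat.dvd_mul_right _ _)
    obtain ⟨k, hk⟩ := hd
    refine ⟨(h1 g).num * k, ?_⟩
    rw [LinearMap.smul_apply, smul_eq_mul, hk]
    push_cast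
    have h2 : ((h1 g).den : ℚ) * h1 g = (h1 g).num := by
      rw [mul_comm]; exact Rat.mul_den_eq_num _
    calc ((h1 g).den : ℚ) * k * h1 g = ((h1 g).den * h1 g) * k := by ring
      _ = _ := by rw [h2]
  · rw [LinearMap.smul_apply, smul_eq_mul]
    push_cast
    rw [← mul_sub, abs_mul, Nat.abs_cast, mul_comm δ]
    exact mul_le_mul_of_nonneg_left (happ g hg) (Nat.cast_nonneg _)

end Pool.Agent.OPT.L10

namespace Pool.Agent.OPT

alias approx_hom := L10.approx_hom_pr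

end Pool.Agent.OPT
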