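import Pool.Agent.Lib_helper80.OPF.Defs

/-!
# OPN, block L0: relative algebraic closures
-/

set_option autoImplicit false

namespace Pool.Agent.OPT.L0

open Pool.Agent.KSS Pool.Agent.OPT

variable {K E : Type} [Field K] [Field E] [Algebra K E]

theorem mem_acl_pr {s : Set E} {a : E} :
    a ∈ acl K s ↔ IsAlgebraic (IntermediateField.adjoin K s) a := by
  unfold acl
  rw [IntermediateField.mem_restrictScalars, mem_algebraicClosure_iff]

theorem subset_acl_pr (s : Set E) : s ⊆ acl K s := by
  intro a ha
  have h : a ∈ acl K s := by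
    rw [mem_acl_pr]
    exact isAlgebraic_algebraMap
      (⟨a, IntermediateField.subset_adjoin K s ha⟩ : IntermediateField.adjoin K s)
  exact h

/-- `acl K s` is relatively algebraically closed -/
theorem acl_closed_pr (s : Set E) (a : E) (ha : IsAlgebraic (acl K s) a) : a ∈ acl K s := by
  rw [mem_acl_pr]
  have h : IsAlgebraic (algebraicClosure (IntermediateField.adjoin K s) E) a := ha
  exact h.restrictScalars (IntermediateField.adjoin K s)

theorem l0_of_le {F F' : IntermediateField K E} (h : F ≤ F') {a : E} (ha : IsAlgebraic F a) :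
    IsAlgebraic F' a := by
  obtain ⟨p, hp, hpa⟩ := ha
  refine ⟨p.map (IntermediateField.inclusion h).toRingHom, ?_, ?_⟩
  · intro h0
    apply hp
    rwa [Polynomial.map_eq_zero_iff] at h0
    exact (IntermediateField.inclusion h).injective
  · rw [Polynomial.aeval_def, Polynomial.eval₂_map]
    rw [Polynomial.aeval_def] at hpa
    exact hpa

/-- transitivity -/
theorem acl_le_pr {s t : Set E} (h : s ⊆ (acl K t : Set E)) : acl K s ≤ acl K t := by
  intro a ha
  rw [mem_acl_pr] at ha
  apply acl_closed_pr
  refine l0_of_le ?_ ha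
  rw [IntermediateField.adjoin_le_iff]
  exact h

theorem acl_mono_pr {s t : Set E} (h : s ⊆ t) : acl K s ≤ acl K t :=
  acl_le_pr (h.trans (subset_acl_pr t))

theorem acl_isAlgClosed_pr [IsAlgClosed E] (s : Set E) : IsAlgClosed (acl K s) := by
  have h := (algebraicClosure.isAlgClosure (IntermediateField.adjoin K s) E).isAlgClosed
  exact h

/-- for an algebraically closed field of constants `Ω_0 = K` -/
theorem acl_empty_pr [IsAlgClosed K] : acl K (∅ : Set E) = ⊥ := by
  rw [eq_bot_iff]
  intro a ha
  rw [mem_acl_pr, IntermediateField.adjoin_empty] at ha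
  have h1 : IsAlgebraic K a := ha.restrictScalars K
  have h2 := IsAlgClosed.degree_eq_one_of_irreducible K (minpoly.irreducible h1.isIntegral)
  have h3 := minpoly.mem_range_of_degree_eq_one K a h2
  rw [IntermediateField.mem_bot]
  exact h3

/-- relation with `tau`: if all `z j`, `j ∉ S`, lie in `acl K {z i : i ∈ S}` then
`tau K z ≤ |S|` -/
theorem tau_le_of_acl_pr {J : Type} [Fintype J] (z : J → E) (S : Finset J)
    (h : ∀ j, z j ∈ acl K (z '' (S : Set J))) : tau K z ≤ S.card := by
  classical
  unfold tau
  refine csSup_le' ?_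
  rintro n ⟨T, rfl, hT⟩
  set M := AlgebraicIndependent.matroid K E
  have hclos : ∀ j, z j ∈ M.closure (z '' (S : Set J)) := by
    intro j
    have h1 := h j
    rw [mem_acl_pr] at h1
    have h2 : IsAlgebraic (Algebra.adjoin K (z '' (S : Set J))) (z j) := by
      open IntermediateField.algebraAdjoinAdjoin in
      exact (IsFractionRing.isAlgebraic_iff (Algebra.adjoin K (z '' (S : Set J)))
        (IntermediateField.adjoin K (z '' (S : Set J))) E).2 h1
    rw [AlgebraicIndependent.matroid_closure_eq]
    exact h2
  have hinj : Function.Injective (fun s : T => z s) := hT.injective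
  have hind : M.Indep (z '' (T : Set J)) := by
    rw [AlgebraicIndependent.matroid_indep_iff]
    have h1 := hT.to_subtype_range
    have h2 : Set.range (fun s : T => z s) = z '' (T : Set J) := by
      ext x
      simp
    rw [h2] at h1
    exact h1
  have h1 := hind.encard_le_eRk_of_subset (X := M.closure (z '' (S : Set J))) (by
    rintro _ ⟨j, -, rfl⟩
    exact hclos j)
  rw [Matroid.eRk_closure_eq] at h1
  have h2 := h1.trans (M.eRk_le_encard _)
  have h3 : (z '' (S : Set J)).encard ≤ (S.card : ℕ∞) := by
    refine (Set.encard_image_le _ _).trans ?_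
    rw [Set.encard_coe_eq_coe_finsetCard]
  have h4 : (z '' (T : Set J)).encard = (T.card : ℕ∞) := by
    have hio : Set.InjOn z (T : Set J) := by
      intro a ha b hb hab
      have := @hinj ⟨a, ha⟩ ⟨b, hb⟩ hab
      exact congrArg Subtype.val this
    rw [hio.encard_image, Set.encard_coe_eq_coe_finsetCard]
  rw [h4] at h2
  exact_mod_cast h2.trans h3

end Pool.Agent.OPT.L0

namespace Pool.Agent.OPT

alias mem_acl := L0.mem_acl_pr
alias subset_acl := L0.subset_acl_pr
alias acl_mono := L0.acl_mono_pr
alias acl_closed := L0.acl_closed_pr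
alias acl_le := L0.acl_le_pr
alias acl_isAlgClosed := L0.acl_isAlgClosed_pr
alias acl_empty := L0.acl_empty_pr
alias tau_le_of_acl := L0.tau_le_of_acl_pr

end Pool.Agent.OPT
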