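import Pool.Agent.Lib_helper80.OPF.Defs
import Pool.Agent.Lib_helper80.OPF.L0

/-!
# OPN, block L11: transcendence degree of the generic jets
-/

namespace Pool.Agent.OPT.L11

open MvPolynomial Pool.Agent.KSS Pool.Agent.KSX Pool.Agent.OPT

theorem tau_bdd (k : Type) {κ J : Type} [Field k] [Field κ] [Algebra k κ] [Fintype J]
    (x : J → κ) :
    BddAbove {n | ∃ S : Finset J, S.card = n ∧ AlgebraicIndependent k (fun s : S => x s)} := by
  refine ⟨Fintype.card J, ?_⟩
  rintro n ⟨S, rfl, -⟩
  exact Finset.card_le_univ S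

theorem card_le_tau {k κ J : Type} [Field k] [Field κ] [Algebra k κ] [Fintype J]
    (x : J → κ) (S : Finset J) (h : AlgebraicIndependent k (fun s : S => x s)) :
    S.card ≤ tau k x := le_csSup (tau_bdd k x) ⟨S, rfl, h⟩

/-- shifting algebraically independent elements by elements of the base -/
theorem shift {S A ι : Type} [CommRing S] [CommRing A] [Algebra S A] {y : ι → A}
    (hy : AlgebraicIndependent S y) (c : ι → S) :
    AlgebraicIndependent S (fun i => algebraMap S A (c i) + y i) := by
  set σ : MvPolynomial ι S →ₐ[S] MvPolynomial ι S := aeval fun i => C (c i) + X i with hσ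
  set τ : MvPolynomial ι S →ₐ[S] MvPolynomial ι S := aeval fun i => - C (c i) + X i with hτ
  have hinv : τ.comp σ = AlgHom.id S _ := by
    ext i
    simp [hσ, hτ]
  have hinj : Function.Injective σ := by
    intro P Q h
    have h1 := congrArg τ h
    have h2 : ∀ R, τ (σ R) = R := fun R => congrArg (fun g : MvPolynomial ι S →ₐ[S] _ => g R) hinv
    rwa [h2, h2] at h1
  have hcomp : (aeval fun i => algebraMap S A (c i) + y i : MvPolynomial ι S →ₐ[S] A) =
      (aeval y).comp σ := by
    ext i
    simp [hσ]
  unfold AlgebraicIndependent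
  rw [hcomp, AlgHom.coe_comp]
  exact Function.Injective.comp (show Function.Injective (aeval y : MvPolynomial ι S →ₐ[S] A) from hy)
    hinj

section main

variable {K : Type} [Field K] {D : ℕ} (T : Target K D)

theorem eps_mem (j : ℕ) (i : Fin D) (r : ℕ) (h : (i : ℕ) < j) : T.ε i r ∈ T.kc j :=
  subset_acl _ ⟨i, r, h, rfl⟩

theorem kc_mono {i j : ℕ} (h : i ≤ j) : T.kc i ≤ T.kc j := by
  refine acl_mono ?_
  rintro e ⟨i', r, h', rfl⟩
  exact ⟨i', r, h'.trans_le h, rfl⟩

/-- the elements `ε j r`, `r ∈ ℕ`, are independent over `kc j` -/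
theorem eps_ind (j : Fin D) : AlgebraicIndependent (T.kc j) (fun r : ℕ => T.ε j r) := by
  set s : Set (Fin D × ℕ) := {q | (q.1 : ℕ) < j} with hs
  set t : Set (Fin D × ℕ) := {q | q.1 = j} with ht
  have hd : Disjoint s t := by
    rw [Set.disjoint_left]
    intro q h1 h2
    rw [ht, Set.mem_ofPred_eq] at h2
    rw [hs, Set.mem_ofPred_eq, h2] at h1
    exact lt_irrefl _ h1
  have h1 := T.ind.adjoin_of_disjoint hd
  have h2 : AlgebraicIndependent (Algebra.adjoin K ((fun q : Fin D × ℕ => T.ε q.1 q.2) '' s))
      (fun r : ℕ => T.ε j r) := by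
    have h3 := h1.comp (fun r : ℕ => (⟨(j, r), rfl⟩ : t)) (by
      intro r r' h
      have h4 := congrArg (fun q : t => q.1.2) h
      exact h4)
    exact h3
  have hset : ((fun q : Fin D × ℕ => T.ε q.1 q.2) '' s) =
      {e | ∃ (i : Fin D) (r : ℕ), (i : ℕ) < j ∧ e = T.ε i r} := by
    ext e
    constructor
    · rintro ⟨q, hq, rfl⟩
      exact ⟨q.1, q.2, hq, rfl⟩
    · rintro ⟨i, r, hi, rfl⟩
      exact ⟨(i, r), hi, rfl⟩
  rw [hset] at h2
  have h3 := (IntermediateField.algebraicIndependent_adjoin_iff (F := K)).2 h2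
  exact h3.algebraicClosure

/-- the shifted elements -/
theorem u_ind (c : Fin D → ℕ → T.κ) (hc : ∀ (i : Fin D) (r : ℕ), c i r ∈ T.kc i) :
    AlgebraicIndependent K (fun q : Fin D × ℕ => c q.1 q.2 + T.ε q.1 q.2) := by
  have key : ∀ j : ℕ, j ≤ D → AlgebraicIndependent K
      (fun q : {q : Fin D × ℕ // (q.1 : ℕ) < j} => c q.1.1 q.1.2 + T.ε q.1.1 q.1.2) := by
    intro j
    induction j with
    | zero =>
      intro _
      have : IsEmpty {q : Fin D × ℕ // (q.1 : ℕ) < 0} := ⟨fun q => by
        have := q.2
        omega⟩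
      exact (algebraicIndependent_empty_type_iff).2 (FaithfulSMul.algebraMap_injective K T.κ)
    | succ j ih =>
      intro hj
      have ih' := ih (by omega)
      set jj : Fin D := ⟨j, by omega⟩ with hjj
      have h1 : AlgebraicIndependent (T.kc jj) (fun r : ℕ =>
          algebraMap (T.kc jj) T.κ ⟨c jj r, hc jj r⟩ + T.ε jj r) :=
        shift (eps_ind T jj) fun r => ⟨c jj r, hc jj r⟩
      have h2 := ih'.sumElim_of_tower (S := T.kc jj) (by
        rintro _ ⟨q, rfl⟩
        refine ⟨⟨c q.1.1 q.1.2 + T.ε q.1.1 q.1.2, ?_⟩, rfl⟩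
        exact (T.kc jj).add_mem (kc_mono T (le_of_lt q.2) (hc _ _)) (eps_mem T _ _ _ q.2)) h1
      classical
      let e : {q : Fin D × ℕ // (q.1 : ℕ) < j + 1} → ℕ ⊕ {q : Fin D × ℕ // (q.1 : ℕ) < j} :=
        fun q => if h : (q.1.1 : ℕ) < j then Sum.inr ⟨q.1, h⟩ else Sum.inl q.1.2
      have he : Function.Injective e := by
        intro q q' h
        simp only [e] at h
        have hq := q.2
        have hq' := q'.2
        split_ifs at h with h1 h2 h2
        · have h3 := Sum.inr_injective h
          have h4 := congrArg (fun w : {q : Fin D × ℕ // (q.1 : ℕ) < j} => (w : Fin D × ℕ)) h3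
          exact Subtype.ext h4
        · have h3 := Sum.inl_injective h
          refine Subtype.ext (Prod.ext (Fin.ext ?_) h3)
          omega
      have h3 := h2.comp e he
      convert h3 using 1
      funext q
      simp only [Function.comp, e]
      split_ifs with h
      · rfl
      · have hq : q.1.1 = jj := Fin.ext (by
          have := q.2
          simp only [hjj]
          omega)
        simp only [Sum.elim_inl, hq]
        rfl
  have h := key D le_rfl
  have h1 := h.comp (fun q : Fin D × ℕ => (⟨q, q.1.2⟩ : {q : Fin D × ℕ // (q.1 : ℕ) < D}))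
    (by
      intro q q' hq
      exact congrArg Subtype.val hq)
  exact h1

end main

theorem tau_generic_pr {K : Type} [Field K] {D : ℕ} (T : Target K D) (m : Fin D → ℕ)
    (β : Fin D → PowerSeries T.κ) (hβ : ∀ (i : Fin D) (n : ℕ), (β i).coeff n ∈ T.kc i) (Λ : ℕ) :
    D * Λ ≤ tauJ K (trunc Λ fun i => β i + PowerSeries.X ^ m i * PowerSeries.mk (T.ε i)) +
      ∑ i, m i := by
  classical
  set S : Finset (Fin D × Fin Λ) := Finset.univ.filter fun p => m p.1 ≤ (p.2 : ℕ) with hS
  have hind := u_ind T (fun i r => (β i).coeff (m i + r)) (fun i r => hβ i _)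
  have hSind : AlgebraicIndependent K (fun s : S => (trunc Λ fun i => β i +
      PowerSeries.X ^ m i * PowerSeries.mk (T.ε i)) s.1.1 s.1.2) := by
    have h1 := hind.comp (fun s : S => (s.1.1, (s.1.2 : ℕ) - m s.1.1)) (by
      intro s s' h
      have hs := (Finset.mem_filter.1 s.2).2
      have hs' := (Finset.mem_filter.1 s'.2).2
      have e1 := congrArg Prod.fst h
      have e2 := congrArg Prod.snd h
      simp only at e1 e2
      rw [e1] at hs e2
      exact Subtype.ext (Prod.ext e1 (Fin.ext (by omega))))
    convert h1 using 1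
    funext s
    have hs := (Finset.mem_filter.1 s.2).2
    simp only [Function.comp, trunc, map_add, PowerSeries.coeff_X_pow_mul', if_pos hs,
      PowerSeries.coeff_mk]
    rw [Nat.add_sub_cancel' hs]
  have hcard : D * Λ ≤ S.card + ∑ i, m i := by
    have h1 : ∑ i : Fin D, (Λ - m i) ≤ S.card := by
      have h2 : S.card = ∑ i : Fin D, (Finset.univ.filter fun r : Fin Λ => m i ≤ (r : ℕ)).card := by
        rw [hS, Finset.card_filter, Fintype.sum_prod_type]
        refine Finset.sum_congr rfl fun i _ => ?_
        rw [Finset.card_filter]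
      rw [h2]
      refine Finset.sum_le_sum fun i _ => ?_
      have h3 : (Finset.univ.image fun r : Fin (Λ - m i) => (⟨m i + r, by
          have := r.2
          omega⟩ : Fin Λ)).card = Λ - m i := by
        rw [Finset.card_image_of_injective]
        · simp
        · intro r r' h
          have h4 := congrArg Fin.val h
          simp only at h4
          exact Fin.ext (by omega)
      rw [← h3]
      refine Finset.card_le_card ?_
      intro r hr
      obtain ⟨r', -, rfl⟩ := Finset.mem_image.1 hr
      exact Finset.mem_filter.2 ⟨Finset.mem_univ _, Nat.le_add_right _ _⟩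
    calc D * Λ = ∑ _i : Fin D, Λ := by simp
      _ ≤ ∑ i : Fin D, (Λ - m i + m i) := Finset.sum_le_sum fun i _ => by omega
      _ = ∑ i : Fin D, (Λ - m i) + ∑ i, m i := Finset.sum_add_distrib
      _ ≤ _ := Nat.add_le_add_right h1 _
  refine hcard.trans (Nat.add_le_add_right ?_ _)
  exact card_le_tau _ S hSind

end Pool.Agent.OPT.L11

namespace Pool.Agent.OPT

alias tau_generic := L11.tau_generic_pr

end Pool.Agent.OPT
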