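import Pool.Agent.Lib_helper80.OPF.Defs

/-!
# OPN block L4: Laurent series with coefficients in a subfield
-/

namespace Pool.Agent.OPT.L4

open MvPolynomial Pool.Agent.KSS Pool.Agent.KSX

section aux

variable {κ : Type} [Field κ] (k0 : Subfield κ)

/-- power series with coefficients in a subfield -/
theorem co_map {b : PowerSeries κ} (hb : ∀ n, b.coeff n ∈ k0) :
    ∃ b' : PowerSeries k0, b'.map k0.subtype = b := by
  refine ⟨PowerSeries.mk fun n => ⟨b.coeff n, hb n⟩, ?_⟩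
  ext n
  simp [PowerSeries.coeff_map, PowerSeries.coeff_mk]

theorem map_co (b' : PowerSeries k0) (n : ℕ) : (b'.map k0.subtype).coeff n ∈ k0 := by
  rw [PowerSeries.coeff_map]
  exact (b'.coeff n).2

theorem co_add {a b : PowerSeries κ} (ha : ∀ n, a.coeff n ∈ k0) (hb : ∀ n, b.coeff n ∈ k0) :
    ∀ n, (a + b).coeff n ∈ k0 := by
  intro n
  rw [map_add]
  exact k0.add_mem (ha n) (hb n)

theorem co_mul {a b : PowerSeries κ} (ha : ∀ n, a.coeff n ∈ k0) (hb : ∀ n, b.coeff n ∈ k0) :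
    ∀ n, (a * b).coeff n ∈ k0 := by
  obtain ⟨a', rfl⟩ := co_map k0 ha
  obtain ⟨b', rfl⟩ := co_map k0 hb
  intro n
  rw [← map_mul]
  exact map_co k0 _ n

theorem co_neg {a : PowerSeries κ} (ha : ∀ n, a.coeff n ∈ k0) :
    ∀ n, (-a).coeff n ∈ k0 := by
  intro n
  rw [map_neg]
  exact k0.neg_mem (ha n)

theorem co_Xpow (N : ℕ) : ∀ n, ((PowerSeries.X : PowerSeries κ) ^ N).coeff n ∈ k0 := by
  intro n
  rw [PowerSeries.coeff_X_pow]
  split_ifs
  · exact k0.one_mem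
  · exact k0.zero_mem

theorem co_unit {u : PowerSeries κ} (hu : ∀ n, u.coeff n ∈ k0)
    (h0 : PowerSeries.constantCoeff u ≠ 0) :
    ∃ u' : PowerSeries κ, (∀ n, u'.coeff n ∈ k0) ∧ u * u' = 1 := by
  obtain ⟨c, rfl⟩ := co_map k0 hu
  have hc : PowerSeries.constantCoeff c ≠ 0 := by
    intro h
    apply h0
    have h1 : PowerSeries.constantCoeff (c.map k0.subtype)
        = k0.subtype (PowerSeries.constantCoeff c) := by
      rw [← PowerSeries.coeff_zero_eq_constantCoeff_apply, PowerSeries.coeff_map,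
        PowerSeries.coeff_zero_eq_constantCoeff_apply]
    rw [h1, h, map_zero]
  refine ⟨c⁻¹.map k0.subtype, map_co k0 _, ?_⟩
  rw [← map_mul, PowerSeries.mul_inv_cancel c hc, map_one]

end aux

section L4

variable {κ E : Type} [Field κ] [Field E] (ι : PowerSeries κ →+* E)
  (w : AddValuation E (WithTop ℝ)) (hw : ∀ a, w (ι a) = oR a) (k0 : Subfield κ)

theorem oR_nat {b : PowerSeries κ} (hb : b ≠ 0) :
    ∃ m : ℕ, b.order = (m : ℕ∞) ∧ oR b = ((m : ℝ) : WithTop ℝ) := by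
  have h1 : b.order ≠ ⊤ := by
    intro h
    exact hb (PowerSeries.order_eq_top.1 h)
  obtain ⟨m, hm⟩ := ENat.ne_top_iff_exists.1 h1
  refine ⟨m, hm.symm, ?_⟩
  unfold oR
  rw [← hm]
  rfl

include hw

theorem iota_ne {b : PowerSeries κ} (hb : b ≠ 0) : ι b ≠ 0 := by
  intro h
  obtain ⟨m, _, h2⟩ := oR_nat hb
  rw [← hw, h, AddValuation.map_zero] at h2
  exact WithTop.top_ne_coe h2

theorem iota_Xpow_ne (N : ℕ) : ι PowerSeries.X ^ N ≠ 0 :=
  pow_ne_zero N (iota_ne ι w hw PowerSeries.X_ne_zero)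

theorem w_Xpow (N : ℕ) : w (ι PowerSeries.X ^ N) = ((N : ℝ) : WithTop ℝ) := by
  rw [← map_pow, hw]
  unfold oR
  rw [PowerSeries.order_X_pow]
  rfl

theorem isSer_add_pr {a b : E} (ha : IsSer ι k0 a) (hb : IsSer ι k0 b) : IsSer ι k0 (a + b) := by
  obtain ⟨N, s, hs, h1⟩ := ha
  obtain ⟨M, t, ht, h2⟩ := hb
  refine ⟨N + M, PowerSeries.X ^ M * s + PowerSeries.X ^ N * t,
    co_add k0 (co_mul k0 (co_Xpow k0 M) hs) (co_mul k0 (co_Xpow k0 N) ht), ?_⟩
  rw [map_add, map_mul, map_mul, map_pow, map_pow, ← h1, ← h2, pow_add]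
  ring

theorem isSer_mul_pr {a b : E} (ha : IsSer ι k0 a) (hb : IsSer ι k0 b) : IsSer ι k0 (a * b) := by
  obtain ⟨N, s, hs, h1⟩ := ha
  obtain ⟨M, t, ht, h2⟩ := hb
  refine ⟨N + M, s * t, co_mul k0 hs ht, ?_⟩
  rw [map_mul, ← h1, ← h2, pow_add]
  ring

theorem isSer_neg_pr {a : E} (ha : IsSer ι k0 a) : IsSer ι k0 (-a) := by
  obtain ⟨N, s, hs, h1⟩ := ha
  refine ⟨N, -s, co_neg k0 hs, ?_⟩
  rw [map_neg, ← h1]
  ring

theorem isSer_inv_pr {a : E} (ha : IsSer ι k0 a) : IsSer ι k0 a⁻¹ := by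
  by_cases h0 : a = 0
  · rw [h0, inv_zero]
    refine ⟨0, 0, fun n => ?_, ?_⟩
    · rw [map_zero]
      exact k0.zero_mem
    · rw [map_zero, mul_zero]
  obtain ⟨N, b, hb, h1⟩ := ha
  have hb0 : b ≠ 0 := by
    intro h
    rw [h, map_zero] at h1
    rcases mul_eq_zero.1 h1 with h | h
    · exact iota_Xpow_ne ι w hw N h
    · exact h0 h
  obtain ⟨m, hm, _⟩ := oR_nat hb0
  have hdvd : (PowerSeries.X : PowerSeries κ) ^ m ∣ b := by
    rw [PowerSeries.X_pow_dvd_iff]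
    intro i hi
    apply PowerSeries.coeff_of_lt_order
    rw [hm]
    exact_mod_cast hi
  obtain ⟨u, hu⟩ := hdvd
  have hcu : ∀ n, u.coeff n ∈ k0 := by
    intro n
    have h2 : b.coeff (n + m) = u.coeff n := by
      rw [hu, PowerSeries.coeff_X_pow_mul]
    rw [← h2]
    exact hb _
  have hu0 : PowerSeries.constantCoeff u ≠ 0 := by
    rw [← PowerSeries.coeff_zero_eq_constantCoeff_apply]
    have h2 : b.coeff m = u.coeff 0 := by
      have := PowerSeries.coeff_X_pow_mul u m 0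
      rw [zero_add] at this
      rw [hu, this]
    rw [← h2]
    have h3 := PowerSeries.coeff_order (φ := b) (by
      intro h
      exact hb0 h)
    rw [hm] at h3
    exact h3
  obtain ⟨u', hu', huu⟩ := co_unit k0 hcu hu0
  refine ⟨m, PowerSeries.X ^ N * u', co_mul k0 (co_Xpow k0 N) hu', ?_⟩
  rw [map_mul, map_pow]
  have h4 : ι u * ι u' = 1 := by rw [← map_mul, huu, map_one]
  have h5 : ι PowerSeries.X ^ N * a = ι PowerSeries.X ^ m * ι u := by
    rw [h1, hu, map_mul, map_pow]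
  field_simp
  have h6 : ι PowerSeries.X ^ m = ι PowerSeries.X ^ m * (ι u * ι u') := by
    rw [h4, mul_one]
  rw [h6, ← mul_assoc, ← h5]
  ring

theorem isSer_iota_pr {b : PowerSeries κ} (hb : ∀ n, b.coeff n ∈ k0) : IsSer ι k0 (ι b) :=
  ⟨0, b, hb, by rw [pow_zero, one_mul]⟩

/-- values of Laurent series are integers -/
theorem isSer_val_pr {a : E} (ha : IsSer ι k0 a) (h0 : a ≠ 0) :
    ∃ m : ℤ, w a = ((m : ℝ) : WithTop ℝ) := by
  obtain ⟨N, b, _, h1⟩ := ha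
  have hb0 : b ≠ 0 := by
    intro h
    rw [h, map_zero] at h1
    rcases mul_eq_zero.1 h1 with h | h
    · exact iota_Xpow_ne ι w hw N h
    · exact h0 h
  obtain ⟨m, _, hm⟩ := oR_nat hb0
  have h2 : ((N : ℝ) : WithTop ℝ) + w a = ((m : ℝ) : WithTop ℝ) := by
    rw [← w_Xpow ι w hw N, ← AddValuation.map_mul, h1, hw, hm]
  have h3 : w a ≠ ⊤ := by
    intro h
    rw [h, WithTop.add_top] at h2
    exact WithTop.top_ne_coe h2
  obtain ⟨r, hr⟩ := WithTop.ne_top_iff_exists.1 h3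
  rw [← hr] at h2 ⊢
  have h4 : (N : ℝ) + r = m := by exact_mod_cast h2
  refine ⟨(m : ℤ) - N, ?_⟩
  congr 1
  push_cast
  linarith

/-- a Laurent series of value `≥ 0` is a power series -/
theorem isSer_nonneg_pr {a : E} (ha : IsSer ι k0 a) (h0 : 0 ≤ w a) :
    ∃ b : PowerSeries κ, (∀ n, b.coeff n ∈ k0) ∧ a = ι b := by
  by_cases ha0 : a = 0
  · refine ⟨0, fun n => ?_, ?_⟩
    · rw [map_zero]
      exact k0.zero_mem
    · rw [ha0, map_zero]
  obtain ⟨N, b, hb, h1⟩ := ha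
  have hb0 : b ≠ 0 := by
    intro h
    rw [h, map_zero] at h1
    rcases mul_eq_zero.1 h1 with h | h
    · exact iota_Xpow_ne ι w hw N h
    · exact ha0 h
  obtain ⟨m, hmo, hm⟩ := oR_nat hb0
  have h2 : ((N : ℝ) : WithTop ℝ) + w a = ((m : ℝ) : WithTop ℝ) := by
    rw [← w_Xpow ι w hw N, ← AddValuation.map_mul, h1, hw, hm]
  have hNm : N ≤ m := by
    have h3 : ((N : ℝ) : WithTop ℝ) ≤ ((m : ℝ) : WithTop ℝ) := by
      rw [← h2]
      exact le_add_of_nonneg_right h0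
    exact_mod_cast h3
  have hdvd : (PowerSeries.X : PowerSeries κ) ^ N ∣ b := by
    rw [PowerSeries.X_pow_dvd_iff]
    intro i hi
    apply PowerSeries.coeff_of_lt_order
    rw [hmo]
    exact_mod_cast lt_of_lt_of_le hi hNm
  obtain ⟨u, hu⟩ := hdvd
  refine ⟨u, fun n => ?_, ?_⟩
  · have h3 : b.coeff (n + N) = u.coeff n := by
      rw [hu, PowerSeries.coeff_X_pow_mul]
    rw [← h3]
    exact hb _
  · apply mul_left_cancel₀ (iota_Xpow_ne ι w hw N)
    rw [h1, hu, map_mul, map_pow]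

end L4

end Pool.Agent.OPT.L4

namespace Pool.Agent.OPT

alias isSer_add := L4.isSer_add_pr
alias isSer_mul := L4.isSer_mul_pr
alias isSer_neg := L4.isSer_neg_pr
alias isSer_inv := L4.isSer_inv_pr
alias isSer_iota := L4.isSer_iota_pr
alias isSer_val := L4.isSer_val_pr
alias isSer_nonneg := L4.isSer_nonneg_pr

end Pool.Agent.OPT
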