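import Pool.Agent.Lib_helper80.OPF.Defs
import Pool.Agent.Lib_helper80.OPF.L1

/-!
# OPN, block L8: existence of targets (helper47)
-/

namespace Pool.Agent.OPT.L8

open MvPolynomial Pool.Agent.KSS Pool.Agent.KSX

theorem l8_orderTop {κ : Type} [Field κ] (f : PowerSeries κ) :
    (HahnSeries.ofPowerSeries ℤ κ f).orderTop =
      WithTop.map (fun n : ℕ => (n : ℤ)) (f.order : WithTop ℕ) := by
  by_cases hf : f = 0
  · subst hf
    rw [map_zero, HahnSeries.orderTop_zero]
    rw [PowerSeries.order_zero]
    rfl
  · obtain ⟨n, hn⟩ := ENat.ne_top_iff_exists.1 (PowerSeries.order_eq_top.not.2 hf)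
    rw [← hn]
    have hn' := PowerSeries.order_eq_nat.1 hn.symm
    have h1 : WithTop.map (fun n : ℕ => (n : ℤ)) ((n : ℕ∞) : WithTop ℕ) =
        ((n : ℤ) : WithTop ℤ) := rfl
    rw [h1]
    apply HahnSeries.orderTop_eq_of_le
    · rw [HahnSeries.mem_support, HahnSeries.ofPowerSeries_apply_coeff]
      exact hn'.1
    · intro g hg
      by_contra hlt
      push Not at hlt
      rw [HahnSeries.mem_support] at hg
      apply hg
      change (f : LaurentSeries κ).coeff g = 0
      rw [PowerSeries.coeff_coe]
      split_ifs with h0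
      · rfl
      · apply hn'.2
        omega

theorem l8_val (κ : Type) [Field κ] :
    ∃ v : AddValuation (LaurentSeries κ) (WithTop ℝ),
      ∀ f : PowerSeries κ, v (HahnSeries.ofPowerSeries ℤ κ f) = oR f := by
  let g : WithTop ℤ →+ WithTop ℝ := AddMonoidHom.withTopMap (Int.castAddHom ℝ)
  have hg : ∀ x, g x = WithTop.map (fun n : ℤ => (n : ℝ)) x := fun x => rfl
  have hmono : Monotone g := by
    intro a b hab
    rw [hg, hg]
    exact WithTop.monotone_map_iff.2 (fun x y h => by exact_mod_cast h) hab
  refine ⟨(HahnSeries.addVal ℤ κ).map g rfl hmono, fun f => ?_⟩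
  rw [AddValuation.map_apply, HahnSeries.addVal_apply, l8_orderTop, hg, WithTop.map_map]
  rfl

theorem arc_field_pr (κ : Type) [Field κ] : ∃ (Ω : Type) (_ : Field Ω) (_ : IsAlgClosed Ω)
    (ι : PowerSeries κ →+* Ω) (w : AddValuation Ω (WithTop ℝ)), ∀ f, w (ι f) = oR f := by
  obtain ⟨v, hv⟩ := l8_val κ
  obtain ⟨w, hw⟩ := val_ext (E := AlgebraicClosure (LaurentSeries κ)) v
  exact ⟨AlgebraicClosure (LaurentSeries κ), inferInstance, inferInstance,
    (algebraMap (LaurentSeries κ) (AlgebraicClosure (LaurentSeries κ))).comp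
      (HahnSeries.ofPowerSeries ℤ κ), w, fun f => by
        rw [RingHom.comp_apply, hw, hv]⟩


theorem l8_closure (K R : Type) [Field K] [CharZero K] [CommRing R] [IsDomain R] [Algebra K R] :
    ∃ (κ : Type) (_ : Field κ) (_ : IsAlgClosed κ) (_ : CharZero κ) (_ : Algebra K κ)
      (f : R →ₐ[K] κ), Function.Injective f := by
  have hinj : Function.Injective (IsScalarTower.toAlgHom K R (AlgebraicClosure (FractionRing R))) := by
    have h3 : Function.Injective (algebraMap R (AlgebraicClosure (FractionRing R))) := by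
      rw [IsScalarTower.algebraMap_eq R (FractionRing R) (AlgebraicClosure (FractionRing R))]
      exact (algebraMap (FractionRing R) (AlgebraicClosure (FractionRing R))).injective.comp
        (IsFractionRing.injective R (FractionRing R))
    exact h3
  exact ⟨AlgebraicClosure (FractionRing R), inferInstance, inferInstance,
    charZero_of_injective_algebraMap
      (algebraMap K (AlgebraicClosure (FractionRing R))).injective, inferInstance,
    IsScalarTower.toAlgHom K R (AlgebraicClosure (FractionRing R)), hinj⟩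

theorem target_exists_pr (K : Type) [Field K] [CharZero K] (D : ℕ) : Nonempty (Target K D) := by
  obtain ⟨κ, _, _, _, _, f, hf⟩ := l8_closure K (MvPolynomial (Fin D × ℕ) K)
  obtain ⟨Ω, _, _, ι, w, hw⟩ := arc_field_pr κ
  have h1 : AlgebraicIndependent K fun q : Fin D × ℕ => f (X q) :=
    (MvPolynomial.algebraicIndependent_X (Fin D × ℕ) K).map' hf
  exact ⟨{ κ := κ, E := Ω, ι := ι, w := w, hw := hw, ε := fun i r => f (X (i, r)), ind := h1 }⟩


end Pool.Agent.OPT.L8

namespace Pool.Agent.OPT

alias target_exists := L8.target_exists_pr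

end Pool.Agent.OPT
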