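import Pool.Agent.Lib_helper80.OPF.Defs

/-! # OPN block L3: matching values on a rational function field -/

namespace Pool.Agent.OPT.L3

open MvPolynomial Pool.Agent.KSS Pool.Agent.KSX

section vm

variable {A B : Type} [Field A] [Field B] {v : AddValuation A (WithTop ℝ)}
  {w : AddValuation B (WithTop ℝ)} {h : ℝ →ₗ[ℚ] ℚ}

theorem l3_one : VM v w h (1 : A) (1 : B) := ⟨0, by simp, by simp⟩

theorem l3_mul {a a' : A} {b b' : B} (h1 : VM v w h a b) (h2 : VM v w h a' b') :
    VM v w h (a * a') (b * b') := by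
  obtain ⟨g, h1, h3⟩ := h1
  obtain ⟨g', h2, h4⟩ := h2
  refine ⟨g + g', ?_, ?_⟩
  · rw [AddValuation.map_mul, h1, h2, WithTop.coe_add]
  · rw [AddValuation.map_mul, h3, h4, ← WithTop.coe_add, map_add]
    push_cast
    rfl

theorem l3_ne {a : A} {b : B} (h1 : VM v w h a b) : a ≠ 0 ∧ b ≠ 0 := by
  obtain ⟨g, h1, h3⟩ := h1
  constructor
  · rintro rfl
    rw [AddValuation.map_zero] at h1
    exact WithTop.top_ne_coe h1
  · rintro rfl
    rw [AddValuation.map_zero] at h3
    exact WithTop.top_ne_coe h3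

/-- the quotient of two elements with finite values -/
theorem l3_quot {F : Type} [Field F] (u : AddValuation F (WithTop ℝ)) {a b : F} {g g' : ℝ}
    (ha : u a = (g : WithTop ℝ)) (hb : u b = (g' : WithTop ℝ)) :
    u (a / b) = ((g - g' : ℝ) : WithTop ℝ) := by
  have hb0 : b ≠ 0 := by
    rintro rfl
    rw [AddValuation.map_zero] at hb
    exact WithTop.top_ne_coe hb
  have h1 : u (a / b) + u b = u a := by
    rw [← AddValuation.map_mul, div_mul_cancel₀ _ hb0]
  rw [ha, hb] at h1
  cases hq : u (a / b) with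
  | top =>
    rw [hq, WithTop.top_add] at h1
    exact absurd h1 WithTop.top_ne_coe
  | coe r =>
    rw [hq, ← WithTop.coe_add, WithTop.coe_inj] at h1
    rw [WithTop.coe_inj]
    linarith

theorem l3_div {a a' : A} {b b' : B} (h1 : VM v w h a b) (h2 : VM v w h a' b') :
    VM v w h (a / a') (b / b') := by
  obtain ⟨g, h1, h3⟩ := h1
  obtain ⟨g', h2, h4⟩ := h2
  refine ⟨g - g', l3_quot v h1 h2, ?_⟩
  rw [l3_quot w h3 h4, map_sub]
  push_cast
  rfl

theorem l3_prod {ι : Type} (f : ι → A) (f' : ι → B) (s : Multiset ι)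
    (hs : ∀ i ∈ s, VM v w h (f i) (f' i)) : VM v w h (s.map f).prod (s.map f').prod := by
  induction s using Multiset.induction_on with
  | empty => simpa using l3_one
  | cons i s ih =>
    rw [Multiset.map_cons, Multiset.map_cons, Multiset.prod_cons, Multiset.prod_cons]
    exact l3_mul (hs i (Multiset.mem_cons_self i s))
      (ih fun j hj => hs j (Multiset.mem_cons_of_mem hj))

end vm

/-- the values of a polynomial which splits -/
theorem l3_eval {F A : Type} [Field F] [IsAlgClosed F] [Field A] (σ : F →+* A) (z : A)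
    (P : Polynomial F) :
    Polynomial.eval₂ σ z P = σ P.leadingCoeff * (P.roots.map fun r => z - σ r).prod := by
  conv_lhs => rw [(IsAlgClosed.splits P).eq_prod_roots]
  rw [Polynomial.eval₂_mul, Polynomial.eval₂_C, Polynomial.eval₂_multiset_prod, Multiset.map_map]
  congr 2
  apply Multiset.map_congr rfl
  intro r _
  simp

theorem rat_match_pr {Ω' Ω : Type} [Field Ω'] [IsAlgClosed Ω'] [Field Ω] [Algebra Ω' Ω]
    (v : AddValuation Ω (WithTop ℝ)) (x : Ω) (hx : Transcendental Ω' x)
    (C : Finset Ω) (hC : ∀ c ∈ C, c ≠ 0 ∧ c ∈ IntermediateField.adjoin Ω' {x}) :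
    ∃ (a : Ω') (S' : Finset Ω') (Φ : Finset ℝ), (∀ s ∈ S', s ≠ 0) ∧ (∀ φ ∈ Φ, 0 < φ) ∧
      v x ≤ v (x - algebraMap Ω' Ω a) ∧
      ∀ h : ℝ →ₗ[ℚ] ℚ, (∀ φ ∈ Φ, 0 < h φ) →
      ∀ (E : Type) [Field E] (w : AddValuation E (WithTop ℝ)) (θ' : Ω' →+* E) (e : E),
        (∀ s ∈ S', VM v w h (algebraMap Ω' Ω s) (θ' s)) →
        VM v w h (x - algebraMap Ω' Ω a) e →
        (∀ c : Ω', w (θ' c + e) = min (w (θ' c)) (w e)) →
        ∃ θ0 : IntermediateField.adjoin Ω' {x} →+* E,
          (∀ c, θ0 (algebraMap Ω' _ c) = θ' c) ∧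
          θ0 ⟨x, IntermediateField.mem_adjoin_simple_self Ω' x⟩ = θ' a + e ∧
          ∀ (c : Ω) (hc : c ∈ C), VM v w h c (θ0 ⟨c, (hC c hc).2⟩) := by
  classical
  have hx1 : ∀ c ∈ C, ∃ PQ : Polynomial Ω' × Polynomial Ω',
      c = Polynomial.aeval x PQ.1 / Polynomial.aeval x PQ.2 := by
    intro c hc
    obtain ⟨P, Q, h⟩ := (IntermediateField.mem_adjoin_simple_iff Ω' c).1 (hC c hc).2
    exact ⟨(P, Q), h⟩
  choose! PQ hPQ using hx1
  -- the roots
  set R : Finset Ω' := insert 0 (C.biUnion fun c => (PQ c).1.roots.toFinset ∪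
    (PQ c).2.roots.toFinset) with hR
  obtain ⟨a, haR, hmax⟩ := Finset.exists_max_image R (fun b => v (x - algebraMap Ω' Ω b))
    ⟨0, Finset.mem_insert_self _ _⟩
  have hxb : ∀ b : Ω', x - algebraMap Ω' Ω b ≠ 0 := by
    intro b hb
    apply hx
    rw [sub_eq_zero] at hb
    rw [hb]
    exact isAlgebraic_algebraMap b
  have hPQ0 : ∀ c ∈ C, (PQ c).1 ≠ 0 ∧ (PQ c).2 ≠ 0 := by
    intro c hc
    have h0 := (hC c hc).1
    constructor
    · intro h
      apply h0
      rw [hPQ c hc, h, map_zero, zero_div]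
    · intro h
      apply h0
      rw [hPQ c hc, h, map_zero, div_zero]
  set L : Finset Ω' := C.biUnion fun c => {(PQ c).1.leadingCoeff, (PQ c).2.leadingCoeff} with hL
  set D : Finset Ω' := (R.erase a).image fun b => a - b with hD
  -- real values
  have hval : ∀ y : Ω, y ≠ 0 → ∃ g : ℝ, v y = (g : WithTop ℝ) := by
    intro y hy
    have := (v.ne_top_iff).2 hy
    obtain ⟨g, hg⟩ := WithTop.ne_top_iff_exists.1 this
    exact ⟨g, hg.symm⟩
  choose! vr hvr using hval
  set β : ℝ := vr (x - algebraMap Ω' Ω a) with hβ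
  have hβv : v (x - algebraMap Ω' Ω a) = (β : WithTop ℝ) := hvr _ (hxb a)
  set T : Finset ℝ := D.image fun d => vr (algebraMap Ω' Ω d) with hT
  refine ⟨a, L ∪ D, (T.image (fun t => t - β) ∪ T.image (fun t => β - t)).filter (fun t => 0 < t),
    ?_, ?_, ?_, ?_⟩
  · intro s hs
    rw [Finset.mem_union] at hs
    rcases hs with hs | hs
    · rw [hL, Finset.mem_biUnion] at hs
      obtain ⟨c, hc, hs⟩ := hs
      rw [Finset.mem_insert, Finset.mem_singleton] at hs
      rcases hs with rfl | rfl
      · exact Polynomial.leadingCoeff_ne_zero.2 (hPQ0 c hc).1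
      · exact Polynomial.leadingCoeff_ne_zero.2 (hPQ0 c hc).2
    · rw [hD, Finset.mem_image] at hs
      obtain ⟨b, hb, rfl⟩ := hs
      exact sub_ne_zero.2 (Finset.ne_of_mem_erase hb).symm
  · intro φ hφ
    exact (Finset.mem_filter.1 hφ).2
  · have := hmax 0 (Finset.mem_insert_self _ _)
    simpa using this
  · intro h hΦ E _ w θ' e hS' he hgen
    obtain ⟨g0, hg0, hwe⟩ := he
    rw [hβv, WithTop.coe_inj] at hg0
    rw [← hg0] at hwe
    clear hg0 g0
    set y : E := θ' a + e with hy
    -- the values of `y - θ' b`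
    have hroot : ∀ b ∈ R, VM v w h (x - algebraMap Ω' Ω b) (y - θ' b) := by
      intro b hb
      by_cases hba : b = a
      · subst hba
        exact ⟨β, hβv, by rw [hy, add_sub_cancel_left, hwe]⟩
      · have hbD : a - b ∈ D := Finset.mem_image.2 ⟨b, Finset.mem_erase.2 ⟨hba, hb⟩, rfl⟩
        obtain ⟨α, hα, hwα⟩ := hS' (a - b) (Finset.mem_union_right _ hbD)
        have hαvr : vr (algebraMap Ω' Ω (a - b)) = α := by
          have hne : algebraMap Ω' Ω (a - b) ≠ 0 := by
            rw [Ne, map_eq_zero_iff _ (algebraMap Ω' Ω).injective]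
            exact sub_ne_zero.2 (Ne.symm hba)
          have := hvr _ hne
          rw [hα, WithTop.coe_inj] at this
          exact this.symm
        have hαT : α ∈ T := Finset.mem_image.2 ⟨a - b, hbD, hαvr⟩
        have e1 : x - algebraMap Ω' Ω b = (x - algebraMap Ω' Ω a) + algebraMap Ω' Ω (a - b) := by
          rw [map_sub]; ring
        have e2 : y - θ' b = θ' (a - b) + e := by rw [hy, map_sub]; ring
        have hle := hmax b hb
        rw [hβv] at hle
        have hw : w (y - θ' b) = min (((h α : ℚ) : ℝ) : WithTop ℝ) (((h β : ℚ) : ℝ) : WithTop ℝ) := by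
          rw [e2, hgen, hwα, hwe]
        rcases lt_trichotomy α β with hlt | heq | hgt
        · refine ⟨α, ?_, ?_⟩
          · rw [e1, AddValuation.map_add_eq_of_lt_right, hα]
            rw [hβv, hα]
            exact WithTop.coe_lt_coe.2 hlt
          · have h2 : 0 < h (β - α) := hΦ _ (Finset.mem_filter.2 ⟨Finset.mem_union_right _
              (Finset.mem_image.2 ⟨α, hαT, rfl⟩), by linarith⟩)
            rw [map_sub] at h2
            rw [hw, min_eq_left]
            exact WithTop.coe_le_coe.2 (by exact_mod_cast (sub_pos.1 h2).le)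
        · rw [heq] at hα hw
          refine ⟨β, ?_, ?_⟩
          · apply le_antisymm hle
            rw [e1]
            refine le_trans ?_ (AddValuation.map_add v _ _)
            rw [hβv, hα, min_self]
          · rw [hw, min_self]
        · refine ⟨β, ?_, ?_⟩
          · rw [e1, AddValuation.map_add_eq_of_lt_left, hβv]
            rw [hβv, hα]
            exact WithTop.coe_lt_coe.2 hgt
          · have h2 : 0 < h (α - β) := hΦ _ (Finset.mem_filter.2 ⟨Finset.mem_union_left _
              (Finset.mem_image.2 ⟨α, hαT, rfl⟩), by linarith⟩)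
            rw [map_sub] at h2
            rw [hw, min_eq_right]
            exact WithTop.coe_le_coe.2 (by exact_mod_cast (sub_pos.1 h2).le)
    -- `y` is transcendental
    have hyb : ∀ b : Ω', y - θ' b ≠ 0 := by
      intro b hb
      have e2 : y - θ' b = θ' (a - b) + e := by rw [hy, map_sub]; ring
      have h1 := hgen (a - b)
      rw [← e2, hb, AddValuation.map_zero, hwe] at h1
      have h2 : min (w (θ' (a - b))) (((h β : ℚ) : ℝ) : WithTop ℝ) ≤
        (((h β : ℚ) : ℝ) : WithTop ℝ) := min_le_right _ _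
      rw [← h1, top_le_iff] at h2
      exact WithTop.coe_ne_top h2
    have hinj : ∀ P : Polynomial Ω', P ≠ 0 → Polynomial.eval₂ θ' y P ≠ 0 := by
      intro P hP
      rw [l3_eval]
      refine mul_ne_zero ?_ ?_
      · rw [Ne, map_eq_zero_iff _ θ'.injective]
        exact Polynomial.leadingCoeff_ne_zero.2 hP
      · rw [Ne, Multiset.prod_eq_zero_iff, Multiset.mem_map]
        rintro ⟨b, -, hb⟩
        exact hyb b hb
    have hφ : nonZeroDivisors (Polynomial Ω') ≤
        (nonZeroDivisors E).comap (Polynomial.eval₂RingHom θ' y) := by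
      intro P hP
      rw [Submonoid.mem_comap, mem_nonZeroDivisors_iff_ne_zero]
      exact hinj P (nonZeroDivisors.ne_zero hP)
    set ψ : IntermediateField.adjoin Ω' {x} →+* RatFunc Ω' :=
      ((RatFunc.algEquivOfTranscendental x hx).symm : IntermediateField.adjoin Ω' {x} →+* RatFunc Ω')
      with hψ
    have hψa : ∀ P : Polynomial Ω', ψ (Polynomial.aeval (IntermediateField.AdjoinSimple.gen Ω' x) P) =
        algebraMap _ _ P := fun P => RatFunc.algEquivOfTranscendental_symm_aeval x hx P
    set θ0 : IntermediateField.adjoin Ω' {x} →+* E :=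
      (RatFunc.liftRingHom (Polynomial.eval₂RingHom θ' y) hφ).comp ψ with hθ0
    have hθ : ∀ P : Polynomial Ω',
        θ0 (Polynomial.aeval (IntermediateField.AdjoinSimple.gen Ω' x) P) =
          Polynomial.eval₂ θ' y P := by
      intro P
      rw [hθ0, RingHom.comp_apply, hψa, RatFunc.liftRingHom_algebraMap]
      rfl
    refine ⟨θ0, ?_, ?_, ?_⟩
    · intro c
      have := hθ (Polynomial.C c)
      rwa [Polynomial.aeval_C, Polynomial.eval₂_C] at this
    · have := hθ Polynomial.X
      rwa [Polynomial.aeval_X, Polynomial.eval₂_X] at this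
    · intro c hc
      have hpoly : ∀ P : Polynomial Ω', P ≠ 0 → P.leadingCoeff ∈ L → (∀ b ∈ P.roots, b ∈ R) →
          VM v w h (Polynomial.aeval x P) (Polynomial.eval₂ θ' y P) := by
        intro P hP hlc hr
        rw [Polynomial.aeval_def, l3_eval, l3_eval]
        exact l3_mul (hS' _ (Finset.mem_union_left _ hlc)) (l3_prod _ _ _ fun b hb =>
          hroot b (hr b hb))
      have h1 : VM v w h (Polynomial.aeval x (PQ c).1) (Polynomial.eval₂ θ' y (PQ c).1) := by
        refine hpoly _ (hPQ0 c hc).1 ?_ ?_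
        · exact Finset.mem_biUnion.2 ⟨c, hc, by simp⟩
        · intro b hb
          exact Finset.mem_insert_of_mem (Finset.mem_biUnion.2 ⟨c, hc, Finset.mem_union_left _
            (Multiset.mem_toFinset.2 hb)⟩)
      have h2 : VM v w h (Polynomial.aeval x (PQ c).2) (Polynomial.eval₂ θ' y (PQ c).2) := by
        refine hpoly _ (hPQ0 c hc).2 ?_ ?_
        · exact Finset.mem_biUnion.2 ⟨c, hc, by simp⟩
        · intro b hb
          exact Finset.mem_insert_of_mem (Finset.mem_biUnion.2 ⟨c, hc, Finset.mem_union_right _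
            (Multiset.mem_toFinset.2 hb)⟩)
      have h3 : (⟨c, (hC c hc).2⟩ : IntermediateField.adjoin Ω' {x}) =
          Polynomial.aeval (IntermediateField.AdjoinSimple.gen Ω' x) (PQ c).1 /
          Polynomial.aeval (IntermediateField.AdjoinSimple.gen Ω' x) (PQ c).2 := by
        apply (algebraMap (IntermediateField.adjoin Ω' {x}) Ω).injective
        rw [map_div₀, ← Polynomial.aeval_algebraMap_apply, ← Polynomial.aeval_algebraMap_apply]
        exact hPQ c hc
      rw [h3, map_div₀, hθ, hθ]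
      have h4 := l3_div h1 h2
      rwa [← hPQ c hc] at h4


end Pool.Agent.OPT.L3

namespace Pool.Agent.OPT

alias rat_match := L3.rat_match_pr

end Pool.Agent.OPT
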