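import Pool.Agent.Lib_helper80.OPF.Defs
import Pool.Agent.Lib_helper80.OPF.L4

/-!
# OPN, block L7: generic series
-/

namespace Pool.Agent.OPT.L7

open MvPolynomial Pool.Agent.KSS Pool.Agent.KSX Pool.Agent.OPT

variable {κ E : Type} [Field κ] [Field E]

theorem l7_oR_nonneg (a : PowerSeries κ) : 0 ≤ oR a := by
  unfold oR
  rcases h : (a.order : WithTop ℕ) with _ | n
  · exact le_top
  · show (0 : WithTop ℝ) ≤ ((n : ℝ) : WithTop ℝ)
    exact_mod_cast Nat.cast_nonneg n

theorem l7_oR_zero {a : PowerSeries κ} (h : a.coeff 0 ≠ 0) : oR a = 0 := by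
  have h1 : a.order = ((0 : ℕ) : ℕ∞) := by
    rw [PowerSeries.order_eq_nat]
    exact ⟨h, fun i hi => absurd hi (Nat.not_lt_zero i)⟩
  unfold oR
  rw [h1]
  show (((0 : ℕ) : ℝ) : WithTop ℝ) = 0
  simp

theorem l7_coeff_ne {a : PowerSeries κ} (h : oR a = 0) : a.coeff 0 ≠ 0 := by
  intro h0
  have h1 : (1 : ℕ∞) ≤ a.order := by
    apply PowerSeries.le_order
    intro i hi
    have : i = 0 := by
      have : i < 1 := by exact_mod_cast hi
      omega
    rw [this]
    exact h0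
  unfold oR at h
  rcases h2 : (a.order : WithTop ℕ) with _ | n
  · rw [h2] at h
    have h3 : (⊤ : WithTop ℝ) = 0 := h
    simp at h3
  · rw [h2] at h
    have h3 : (n : ℝ) = 0 := by
      have h4 : (((n : ℝ)) : WithTop ℝ) = ((0 : ℝ) : WithTop ℝ) := h
      exact_mod_cast h4
    have h5 : n = 0 := by exact_mod_cast h3
    have h6 : a.order = ((n : ℕ) : ℕ∞) := h2
    rw [h6, h5] at h1
    exact absurd h1 (by simp)

theorem l7_oR_X : oR (PowerSeries.X : PowerSeries κ) = ((1 : ℝ) : WithTop ℝ) := by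
  unfold oR
  rw [PowerSeries.order_X]
  show (((1 : ℕ) : ℝ) : WithTop ℝ) = ((1 : ℝ) : WithTop ℝ)
  simp

section v

variable (ι : PowerSeries κ →+* E) (w : AddValuation E (WithTop ℝ))

theorem l7_ne_zero (hw : ∀ a, w (ι a) = oR a) : ι PowerSeries.X ≠ 0 := by
  intro h
  have h1 := hw PowerSeries.X
  rw [h, AddValuation.map_zero, l7_oR_X] at h1
  exact WithTop.coe_ne_top h1.symm

theorem l7_nat (hw : ∀ a, w (ι a) = oR a) (n : ℕ) :
    w (ι PowerSeries.X ^ n) = ((n : ℝ) : WithTop ℝ) := by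
  induction n with
  | zero => simp
  | succ n ih =>
    rw [pow_succ, AddValuation.map_mul, ih, hw, l7_oR_X]
    push_cast
    rfl

theorem l7_int (hw : ∀ a, w (ι a) = oR a) (m : ℤ) :
    w (ι PowerSeries.X ^ m) = ((m : ℝ) : WithTop ℝ) := by
  have h0 := l7_ne_zero ι w hw
  obtain ⟨n, rfl | rfl⟩ := m.eq_nat_or_neg
  · rw [zpow_natCast, l7_nat ι w hw]
    push_cast
    rfl
  · have h1 : ι PowerSeries.X ^ (-(n : ℤ)) * ι PowerSeries.X ^ n = 1 := by
      rw [zpow_neg, zpow_natCast, inv_mul_cancel₀ (pow_ne_zero n h0)]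
    have h2 := congrArg w h1
    rw [AddValuation.map_mul, AddValuation.map_one, l7_nat ι w hw] at h2
    rcases h3 : w (ι PowerSeries.X ^ (-(n : ℤ))) with _ | r
    · rw [h3] at h2
      have h4 : (⊤ : WithTop ℝ) + ((n : ℝ) : WithTop ℝ) = 0 := h2
      rw [top_add] at h4
      simp at h4
    · rw [h3] at h2
      have h4 : (((r + n : ℝ)) : WithTop ℝ) = ((0 : ℝ) : WithTop ℝ) := h2
      have h5 : r + n = 0 := by exact_mod_cast h4
      have h6 : r = -(n : ℝ) := by linarith
      rw [h6]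
      push_cast
      rfl

variable (k0 : Subfield κ)

theorem l7_ser_X (hw : ∀ a, w (ι a) = oR a) : IsSer ι k0 (ι PowerSeries.X) := by
  apply isSer_iota ι w hw k0
  intro n
  rw [PowerSeries.coeff_X]
  split_ifs
  · exact k0.one_mem
  · exact k0.zero_mem

theorem l7_ser_one (hw : ∀ a, w (ι a) = oR a) : IsSer ι k0 (1 : E) := by
  have h := isSer_iota ι w hw k0 (b := 1) (by
    intro n
    rw [PowerSeries.coeff_one]
    split_ifs
    · exact k0.one_mem
    · exact k0.zero_mem)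
  rwa [map_one] at h

theorem l7_ser_pow (hw : ∀ a, w (ι a) = oR a) {a : E} (ha : IsSer ι k0 a) (n : ℕ) :
    IsSer ι k0 (a ^ n) := by
  induction n with
  | zero =>
    rw [pow_zero]
    exact l7_ser_one ι w k0 hw
  | succ n ih =>
    rw [pow_succ]
    exact isSer_mul ι w hw k0 ih ha

theorem l7_ser_zpow (hw : ∀ a, w (ι a) = oR a) (m : ℤ) :
    IsSer ι k0 (ι PowerSeries.X ^ m) := by
  obtain ⟨n, rfl | rfl⟩ := m.eq_nat_or_neg
  · rw [zpow_natCast]
    exact l7_ser_pow ι w k0 hw (l7_ser_X ι w k0 hw) n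
  · rw [zpow_neg, zpow_natCast]
    exact isSer_inv ι w hw k0 (l7_ser_pow ι w k0 hw (l7_ser_X ι w k0 hw) n)

end v

/-- an element of value `≥ 0` which is a root cannot be congruent to a generic series -/
theorem l7_main (ι : PowerSeries κ →+* E) (w : AddValuation E (WithTop ℝ))
    (hw : ∀ a, w (ι a) = oR a) (k0 : Subfield κ) (hk0 : ∀ a : κ, IsAlgebraic k0 a → a ∈ k0)
    (e : PowerSeries κ) (he : e.coeff 0 ∉ k0) (b : E) (hb : 0 ≤ w b) (N : ℕ)
    (γ : ℕ → PowerSeries κ) (hγ : ∀ n i, (γ n).coeff i ∈ k0) (n0 : ℕ) (hn0 : n0 < N)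
    (hn1 : (γ n0).coeff 0 ≠ 0) (hsum : ∑ n ∈ Finset.range N, ι (γ n) * b ^ n = 0) :
    ¬ 0 < w (ι e - b) := by
  intro hpos
  -- the value of the polynomial at `ι e` is zero
  have h1 : ∑ n ∈ Finset.range N, (γ n).coeff 0 * e.coeff 0 ^ n ≠ 0 := by
    intro h0
    apply he
    apply hk0
    refine ⟨∑ n ∈ Finset.range N, Polynomial.monomial n (⟨(γ n).coeff 0, hγ n 0⟩ : k0), ?_, ?_⟩
    · intro hz
      have h2 := congrArg (fun p => Polynomial.coeff p n0) hz
      simp only [Polynomial.finset_sum_coeff, Polynomial.coeff_monomial,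
        Polynomial.coeff_zero] at h2
      rw [Finset.sum_eq_single n0] at h2
      · rw [if_pos rfl] at h2
        exact hn1 (congrArg Subtype.val h2)
      · intro j _ hj
        rw [if_neg hj]
      · intro h
        exact absurd (Finset.mem_range.2 hn0) h
    · rw [map_sum]
      simp only [Polynomial.aeval_monomial]
      exact h0
  have h2 : w (∑ n ∈ Finset.range N, ι (γ n) * ι e ^ n) = 0 := by
    have h3 : ∑ n ∈ Finset.range N, ι (γ n) * ι e ^ n =
        ι (∑ n ∈ Finset.range N, γ n * e ^ n) := by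
      rw [map_sum]
      simp only [map_mul, map_pow]
    rw [h3, hw]
    apply l7_oR_zero
    rw [map_sum]
    intro h0
    apply h1
    rw [← h0]
    apply Finset.sum_congr rfl
    intro n _
    simp only [PowerSeries.coeff_zero_eq_constantCoeff_apply, map_mul, map_pow]
  -- the difference is divisible by `ι e - b`
  have h4 : (0 : WithTop ℝ) < w (∑ n ∈ Finset.range N, ι (γ n) * ι e ^ n) := by
    have h5 : ∑ n ∈ Finset.range N, ι (γ n) * ι e ^ n =
        ∑ n ∈ Finset.range N, ι (γ n) * (ι e ^ n - b ^ n) := by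
      have : ∑ n ∈ Finset.range N, ι (γ n) * (ι e ^ n - b ^ n) =
          ∑ n ∈ Finset.range N, ι (γ n) * ι e ^ n - ∑ n ∈ Finset.range N, ι (γ n) * b ^ n := by
        rw [← Finset.sum_sub_distrib]
        apply Finset.sum_congr rfl
        intro n _
        ring
      rw [this, hsum, sub_zero]
    rw [h5]
    apply AddValuation.map_lt_sum'
    · simp
    intro n _
    rw [← Commute.geom_sum₂_mul (Commute.all _ _), AddValuation.map_mul, AddValuation.map_mul]
    have h6 : 0 ≤ w (ι (γ n)) := by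
      rw [hw]
      exact l7_oR_nonneg _
    have h7 : 0 ≤ w (∑ i ∈ Finset.range n, ι e ^ i * b ^ (n - 1 - i)) := by
      apply AddValuation.map_le_sum
      intro i _
      rw [AddValuation.map_mul, AddValuation.map_pow, AddValuation.map_pow]
      have h8 : 0 ≤ w (ι e) := by
        rw [hw]
        exact l7_oR_nonneg _
      exact add_nonneg (nsmul_nonneg h8 _) (nsmul_nonneg hb _)
    calc (0 : WithTop ℝ) < w (ι e - b) := hpos
      _ ≤ w (ι (γ n)) + (w (∑ i ∈ Finset.range n, ι e ^ i * b ^ (n - 1 - i)) + w (ι e - b)) := by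
        have h9 : w (ι e - b) ≤
            w (∑ i ∈ Finset.range n, ι e ^ i * b ^ (n - 1 - i)) + w (ι e - b) :=
          le_add_of_nonneg_left h7
        exact h9.trans (le_add_of_nonneg_left h6)
  rw [h2] at h4
  exact lt_irrefl _ h4

theorem gen_min_pr {κ E : Type} [Field κ] [Field E]
    (ι : PowerSeries κ →+* E) (w : AddValuation E (WithTop ℝ)) (hw : ∀ a, w (ι a) = oR a)
    (k0 : Subfield κ) (hk0 : ∀ a : κ, IsAlgebraic k0 a → a ∈ k0)
    (e : PowerSeries κ) (he : e.coeff 0 ∉ k0) (c : E)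
    (hc : ∃ P : Polynomial E, P ≠ 0 ∧ (∀ n, IsSer ι k0 (P.coeff n)) ∧ P.eval c = 0) (m : ℤ) :
    w (c + ι PowerSeries.X ^ m * ι e) = min (w c) ((m : ℝ) : WithTop ℝ) := by
  classical
  obtain ⟨P, hP0, hPs, hPc⟩ := hc
  have hX0 := l7_ne_zero ι w hw
  have he0 : e.coeff 0 ≠ 0 := fun h => he (by rw [h]; exact k0.zero_mem)
  have hwe : w (ι e) = 0 := by
    rw [hw]
    exact l7_oR_zero he0
  have hd : w (ι PowerSeries.X ^ m * ι e) = ((m : ℝ) : WithTop ℝ) := by
    rw [AddValuation.map_mul, l7_int ι w hw, hwe, add_zero]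
  by_cases hcm : w c = ((m : ℝ) : WithTop ℝ)
  swap
  · rw [← hd]
    exact w.map_add_of_distinct_val (by rw [hd]; exact hcm)
  rw [hcm, min_self]
  apply le_antisymm
  swap
  · exact w.map_le_add hcm.ge hd.ge
  by_contra hlt
  push Not at hlt
  set x := ι PowerSeries.X with hx
  set b : E := -c * x ^ (-m) with hb
  have hwb : w b = 0 := by
    rw [hb, AddValuation.map_mul, AddValuation.map_neg, hcm, hx, l7_int ι w hw]
    have : (((m : ℝ)) : WithTop ℝ) + ((((-m : ℤ)) : ℝ) : WithTop ℝ) = (((m : ℝ) + ((-m : ℤ) : ℝ) : ℝ) : WithTop ℝ) :=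
      rfl
    rw [this]
    push_cast
    simp
  have hxx : x ^ m * x ^ (-m) = 1 := by
    rw [zpow_neg, mul_inv_cancel₀ (zpow_ne_zero m hX0)]
  have hpos : 0 < w (ι e - b) := by
    have h1 : ι e - b = (c + x ^ m * ι e) * x ^ (-m) := by
      rw [hb, add_mul]
      have h2 : x ^ m * ι e * x ^ (-m) = ι e := by
        rw [mul_right_comm, hxx, one_mul]
      rw [h2]
      ring
    rw [h1, AddValuation.map_mul, hx, l7_int ι w hw, ← hx]
    rcases h2 : w (c + x ^ m * ι e) with _ | r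
    · have h3 : (⊤ : WithTop ℝ) + ((((-m : ℤ)) : ℝ) : WithTop ℝ) = ⊤ := top_add _
      show (0 : WithTop ℝ) < (⊤ : WithTop ℝ) + ((((-m : ℤ)) : ℝ) : WithTop ℝ)
      rw [h3]
      simp
    · rw [h2] at hlt
      have h3 : (m : ℝ) < r := by
        have h4 : (((m : ℝ)) : WithTop ℝ) < ((r : ℝ) : WithTop ℝ) := hlt
        exact_mod_cast h4
      show (((0 : ℝ)) : WithTop ℝ) < ((r + ((-m : ℤ) : ℝ) : ℝ) : WithTop ℝ)
      have h5 : (0 : ℝ) < r + ((-m : ℤ) : ℝ) := by
        push_cast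
        linarith
      exact_mod_cast h5
  -- normalisation
  set N := P.natDegree + 1 with hN
  set q : ℕ → E := fun n => P.coeff n * (-(x ^ m)) ^ n with hq
  have hqs : ∀ n, IsSer ι k0 (q n) := by
    intro n
    apply isSer_mul ι w hw k0 (hPs n)
    exact l7_ser_pow ι w k0 hw (isSer_neg ι w hw k0 (l7_ser_zpow ι w k0 hw m)) n
  have hq0 : ∀ n, P.coeff n ≠ 0 → q n ≠ 0 := by
    intro n hn
    exact mul_ne_zero hn (pow_ne_zero n (neg_ne_zero.2 (zpow_ne_zero m hX0)))
  set S := (Finset.range N).filter (fun n => P.coeff n ≠ 0) with hS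
  have hSne : S.Nonempty := by
    refine ⟨P.natDegree, ?_⟩
    rw [hS, Finset.mem_filter, Finset.mem_range]
    refine ⟨Nat.lt_succ_self _, ?_⟩
    exact Polynomial.leadingCoeff_ne_zero.2 hP0
  obtain ⟨n0, hn0, hmin⟩ := S.exists_min_image (fun n => w (q n)) hSne
  rw [hS, Finset.mem_filter, Finset.mem_range] at hn0
  obtain ⟨μ, hμ⟩ := isSer_val ι w hw k0 (hqs n0) (hq0 n0 hn0.2)
  set p : ℕ → E := fun n => q n * x ^ (-μ) with hp
  have hps : ∀ n, IsSer ι k0 (p n) := fun n =>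
    isSer_mul ι w hw k0 (hqs n) (l7_ser_zpow ι w k0 hw (-μ))
  have hp0 : ∀ n, n < N → 0 ≤ w (p n) := by
    intro n hn
    by_cases hz : P.coeff n = 0
    · have : p n = 0 := by
        simp only [hp, hq, hz, zero_mul]
      rw [this, AddValuation.map_zero]
      exact le_top
    · have h1 := hmin n (by
        rw [hS, Finset.mem_filter, Finset.mem_range]
        exact ⟨hn, hz⟩)
      have h1' : w (q n0) ≤ w (q n) := h1
      rw [hμ] at h1'
      simp only [hp]
      rw [AddValuation.map_mul, hx, l7_int ι w hw]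
      have h3 : (((μ : ℝ)) : WithTop ℝ) + ((((-μ : ℤ)) : ℝ) : WithTop ℝ) = 0 := by
        have : (((μ : ℝ)) : WithTop ℝ) + ((((-μ : ℤ)) : ℝ) : WithTop ℝ) = (((μ : ℝ) + ((-μ : ℤ) : ℝ) : ℝ) : WithTop ℝ) := rfl
        rw [this]
        push_cast
        simp
      rw [← h3]
      exact add_le_add h1' le_rfl
  have hpn0 : w (p n0) = 0 := by
    simp only [hp]
    rw [AddValuation.map_mul, hμ, hx, l7_int ι w hw]
    have : (((μ : ℝ)) : WithTop ℝ) + ((((-μ : ℤ)) : ℝ) : WithTop ℝ) = (((μ : ℝ) + ((-μ : ℤ) : ℝ) : ℝ) : WithTop ℝ) := rfl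
    rw [this]
    push_cast
    simp
  have hex : ∀ n, ∃ g : PowerSeries κ, (∀ i, g.coeff i ∈ k0) ∧ (n < N → p n = ι g) := by
    intro n
    by_cases hn : n < N
    · obtain ⟨g, hg, hpg⟩ := isSer_nonneg ι w hw k0 (hps n) (hp0 n hn)
      exact ⟨g, hg, fun _ => hpg⟩
    · exact ⟨0, fun i => by rw [map_zero]; exact k0.zero_mem, fun h => absurd h hn⟩
  choose γ hγ hγp using hex
  refine l7_main ι w hw k0 hk0 e he b hwb.ge N γ hγ n0 hn0.1 ?_ ?_ hpos
  · apply l7_coeff_ne
    rw [← hw, ← hγp n0 hn0.1]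
    exact hpn0
  · have h1 : ∑ n ∈ Finset.range N, ι (γ n) * b ^ n = x ^ (-μ) * P.eval c := by
      rw [Polynomial.eval_eq_sum_range, Finset.mul_sum]
      apply Finset.sum_congr rfl
      intro n hn
      rw [← hγp n (Finset.mem_range.1 hn)]
      have h2 : (-(x ^ m)) ^ n * b ^ n = c ^ n := by
        rw [← mul_pow]
        congr 1
        rw [hb]
        calc -(x ^ m) * (-c * x ^ (-m)) = (x ^ m * x ^ (-m)) * c := by ring
          _ = c := by rw [hxx, one_mul]
      simp only [hp, hq]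
      calc P.coeff n * (-(x ^ m)) ^ n * x ^ (-μ) * b ^ n =
          x ^ (-μ) * (P.coeff n * ((-(x ^ m)) ^ n * b ^ n)) := by ring
        _ = _ := by rw [h2]
    rw [h1, hPc, mul_zero]


end Pool.Agent.OPT.L7

namespace Pool.Agent.OPT

alias gen_min := L7.gen_min_pr

end Pool.Agent.OPT
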