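import Pool.Agent.Lib_helper80.OPF.Defs
import Pool.Agent.Lib_helper80.OPF.L0
import Pool.Agent.Lib_helper80.OPF.L4

/-! OPN block L9a: elements algebraic over Laurent series -/

namespace Pool.Agent.OPT.L9a

open MvPolynomial Pool.Agent.KSS Pool.Agent.KSX Pool.Agent.OPT

theorem om_alg_pr {K L : Type} [Field K] [Field L] [Algebra K L] {D : ℕ} (x : Fin D → L) (j : ℕ)
    {κ E : Type} [Field κ] [Algebra K κ] [Field E] (ι : PowerSeries κ →+* E)
    (w : AddValuation E (WithTop ℝ)) (hw : ∀ a, w (ι a) = oR a) (k0 : Subfield κ)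
    (hK : ∀ c : K, algebraMap K κ c ∈ k0) (θ : Om K x j →+* E)
    (hθ : ∀ c : K, θ (algebraMap K _ c) = ι (PowerSeries.C (algebraMap K κ c)))
    (hx : ∀ (i : Fin D) (_ : (i : ℕ) < j) (hi : x i ∈ Om K x j), IsSer ι k0 (θ ⟨x i, hi⟩))
    (c : Om K x j) :
    ∃ P : Polynomial E, P ≠ 0 ∧ (∀ n, IsSer ι k0 (P.coeff n)) ∧ P.eval (θ c) = 0 := by
  set s : Set L := x '' {i | (i : ℕ) < j} with hs
  set F0 : IntermediateField K L := IntermediateField.adjoin K s with hF0
  have hsub : ∀ a : L, a ∈ F0 → a ∈ Om K x j := by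
    intro a ha
    show a ∈ acl K s
    rw [mem_acl]
    exact isAlgebraic_algebraMap (⟨a, ha⟩ : F0)
  have key : ∀ (a : L) (ha : a ∈ F0), IsSer ι k0 (θ ⟨a, hsub a ha⟩) := by
    intro a ha
    induction ha using IntermediateField.adjoin_induction with
    | mem y hy =>
      obtain ⟨i, hi, rfl⟩ := hy
      exact hx i hi _
    | algebraMap y =>
      have h1 : (⟨algebraMap K L y, hsub _ (IntermediateField.algebraMap_mem _ _)⟩ : Om K x j) =
          algebraMap K _ y := rfl
      rw [h1, hθ]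
      refine isSer_iota ι w hw k0 (fun n => ?_)
      rw [PowerSeries.coeff_C]
      split_ifs
      · exact hK y
      · exact k0.zero_mem
    | add y z hy hz h1 h2 =>
      have h3 : (⟨y + z, hsub _ (add_mem hy hz)⟩ : Om K x j) =
          ⟨y, hsub y hy⟩ + ⟨z, hsub z hz⟩ := rfl
      rw [h3, map_add]
      exact isSer_add ι w hw k0 h1 h2
    | inv y hy h1 =>
      have h3 : (⟨y⁻¹, hsub _ (inv_mem hy)⟩ : Om K x j) = (⟨y, hsub y hy⟩)⁻¹ := rfl
      rw [h3, map_inv₀]
      exact isSer_inv ι w hw k0 h1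
    | mul y z hy hz h1 h2 =>
      have h3 : (⟨y * z, hsub _ (mul_mem hy hz)⟩ : Om K x j) =
          ⟨y, hsub y hy⟩ * ⟨z, hsub z hz⟩ := rfl
      rw [h3, map_mul]
      exact isSer_mul ι w hw k0 h1 h2
  have hle : F0 ≤ Om K x j := fun a ha => hsub a ha
  set inc : F0 →+* Om K x j := (IntermediateField.inclusion hle).toRingHom with hinc
  have hc : IsAlgebraic F0 (c : L) := by
    have h1 : (c : L) ∈ acl K s := c.2
    rw [mem_acl] at h1
    exact h1
  obtain ⟨p, hp0, hp⟩ := hc
  refine ⟨p.map (θ.comp inc), ?_, ?_, ?_⟩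
  · rw [Ne, Polynomial.map_eq_zero]
    exact hp0
  · intro n
    rw [Polynomial.coeff_map]
    exact key (p.coeff n : L) (p.coeff n).2
  · rw [Polynomial.eval_map, ← Polynomial.hom_eval₂]
    have h2 : Polynomial.eval₂ inc c p = 0 := by
      apply Subtype.ext
      have h3 := Polynomial.hom_eval₂ p inc (algebraMap (Om K x j) L) c
      have h4 : (algebraMap (Om K x j) L) (Polynomial.eval₂ inc c p) = 0 := by
        rw [h3]
        exact hp
      exact h4
    rw [h2, map_zero]

end Pool.Agent.OPT.L9a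

namespace Pool.Agent.OPT

alias om_alg := L9a.om_alg_pr

end Pool.Agent.OPT
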