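import Pool.Agent.Lib_helper80.OPF.Defs

/-!
# OPN, block L2: matching values on an algebraic extension
-/

set_option autoImplicit false

namespace Pool.Agent.OPT.L2

open Polynomial

/-- Vandermonde -/
theorem l2_vdm {E : Type} [Field E] (w : AddValuation E (WithTop ℝ)) (n : ℕ) :
    ∀ (p : E[X]) (_ : p.natDegree < n) (T : Finset E) (_ : n ≤ T.card)
      (_ : ∀ a ∈ T, 0 ≤ w a) (_ : ∀ a ∈ T, ∀ b ∈ T, a ≠ b → w (a - b) = 0)
      (_ : ∀ a ∈ T, 0 ≤ w (p.eval a)), ∀ i, 0 ≤ w (p.coeff i) := by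
  classical
  induction n with
  | zero => intro p hp; exact absurd hp (Nat.not_lt_zero _)
  | succ n ih =>
    intro p hp T hT h0 hd hv i
    obtain ⟨a, ha⟩ : T.Nonempty := by
      rw [← Finset.card_pos]
      omega
    by_cases hdeg : p.natDegree = 0
    · have h1 := hv a ha
      obtain ⟨c, rfl⟩ := Polynomial.natDegree_eq_zero.1 hdeg
      rw [Polynomial.eval_C] at h1
      rw [Polynomial.coeff_C]
      split_ifs
      · exact h1
      · rw [AddValuation.map_zero]
        exact le_top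
    · obtain ⟨q, hq⟩ := Polynomial.X_sub_C_dvd_sub_C_eval (a := a) (p := p)
      have hq0 : q ≠ 0 := by
        rintro rfl
        rw [mul_zero, sub_eq_zero] at hq
        rw [hq, Polynomial.natDegree_C] at hdeg
        exact hdeg rfl
      have hqd : q.natDegree < n := by
        have h1 := congrArg Polynomial.natDegree hq
        rw [Polynomial.natDegree_sub_C, Polynomial.natDegree_mul (Polynomial.X_sub_C_ne_zero a) hq0,
          Polynomial.natDegree_X_sub_C] at h1
        omega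
      have hc := ih q hqd (T.erase a) (by rw [Finset.card_erase_of_mem ha]; omega)
        (fun b hb => h0 b (Finset.mem_of_mem_erase hb))
        (fun b hb b' hb' => hd b (Finset.mem_of_mem_erase hb) b' (Finset.mem_of_mem_erase hb'))
        (fun b hb => by
          have h1 := congrArg (Polynomial.eval b) hq
          rw [Polynomial.eval_sub, Polynomial.eval_C, Polynomial.eval_mul, Polynomial.eval_sub,
            Polynomial.eval_X, Polynomial.eval_C] at h1
          have h2 := hd b (Finset.mem_of_mem_erase hb) a ha (Finset.ne_of_mem_erase hb)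
          have h3 : w (q.eval b) = w (p.eval b - p.eval a) := by
            rw [h1, AddValuation.map_mul, h2, zero_add]
          rw [h3]
          exact AddValuation.map_le_sub w (hv b (Finset.mem_of_mem_erase hb)) (hv a ha))
      have hp2 : p = q * (X - C a) + C (p.eval a) := by
        rw [mul_comm q, ← hq]
        ring
      have ha0 : 0 ≤ w ((C (p.eval a)).coeff i) := by
        rw [Polynomial.coeff_C]
        split_ifs
        · exact hv a ha
        · rw [AddValuation.map_zero]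
          exact le_top
      rw [hp2, Polynomial.coeff_add]
      refine AddValuation.map_le_add w ?_ ha0
      cases i with
      | zero =>
        rw [Polynomial.mul_coeff_zero, Polynomial.coeff_sub, Polynomial.coeff_X_zero,
          Polynomial.coeff_C_zero, zero_sub, AddValuation.map_mul, AddValuation.map_neg]
        exact add_nonneg (hc 0) (h0 a ha)
      | succ i =>
        rw [Polynomial.coeff_mul_X_sub_C]
        refine AddValuation.map_le_sub w (hc i) ?_
        rw [AddValuation.map_mul]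
        exact add_nonneg (hc _) (h0 a ha)

/-- polynomials all of whose roots have negative values -/
theorem l2_newton {E : Type} [Field E] (w : AddValuation E (WithTop ℝ)) (s : Multiset E)
    (hs : ∀ ρ ∈ s, w ρ < 0) :
    w ((s.map fun ρ => X - C ρ).prod.coeff 0) ≠ ⊤ ∧ ∀ i, 1 ≤ i →
      w ((s.map fun ρ => X - C ρ).prod.coeff 0) < w ((s.map fun ρ => X - C ρ).prod.coeff i) := by
  induction s using Multiset.induction_on with
  | empty =>
    refine ⟨by simp, fun i hi => ?_⟩
    have : (1 : E[X]).coeff i = 0 := by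
      rw [Polynomial.coeff_one, if_neg (by omega)]
    simp [this]
  | cons ρ s ih =>
    obtain ⟨h1, h2⟩ := ih fun ρ hρ => hs ρ (Multiset.mem_cons_of_mem hρ)
    have hρ := hs ρ (Multiset.mem_cons_self ρ s)
    have hρt : w ρ ≠ ⊤ := ne_top_of_lt hρ
    rw [Multiset.map_cons, Multiset.prod_cons, mul_comm]
    set Q := (s.map fun ρ => X - C ρ).prod
    have h3 : w ((Q * (X - C ρ)).coeff 0) = w (Q.coeff 0) + w ρ := by
      rw [Polynomial.mul_coeff_zero, Polynomial.coeff_sub, Polynomial.coeff_X_zero,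
        Polynomial.coeff_C_zero, zero_sub, AddValuation.map_mul, AddValuation.map_neg]
    have h4 : w (Q.coeff 0) + w ρ < w (Q.coeff 0) := by
      have := WithTop.add_lt_add_left h1 hρ
      simpa using this
    refine ⟨?_, fun i hi => ?_⟩
    · rw [h3]
      exact WithTop.add_ne_top.2 ⟨h1, hρt⟩
    · obtain ⟨j, rfl⟩ : ∃ j, i = j + 1 := ⟨i - 1, by omega⟩
      rw [h3, Polynomial.coeff_mul_X_sub_C, sub_eq_add_neg]
      refine AddValuation.map_lt_add w ?_ ?_
      · refine h4.trans_le ?_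
        rcases Nat.eq_zero_or_pos j with rfl | hj
        · exact le_rfl
        · exact (h2 j hj).le
      · rw [AddValuation.map_neg, AddValuation.map_mul]
        exact WithTop.add_lt_add_right hρt (h2 (j + 1) (by omega))

theorem l2_pair {B Ω : Type} [Field B] [Field Ω] [Algebra B Ω] (v : AddValuation Ω (WithTop ℝ))
    {s : Ω} (hs : s ≠ 0) {a b : B} (ha : a ≠ 0) (hb : b ≠ 0) {i j : ℕ} (hij : i < j)
    (h : v (algebraMap B Ω a * s ^ i) = v (algebraMap B Ω b * s ^ j)) :
    ∃ (e : ℕ) (c : B), 1 ≤ e ∧ c ≠ 0 ∧ v (s ^ e) = v (algebraMap B Ω c) := by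
  refine ⟨j - i, a / b, by omega, div_ne_zero ha hb, ?_⟩
  have hb' : algebraMap B Ω b ≠ 0 := by simpa using hb
  have h1 : algebraMap B Ω b * s ^ j = s ^ (j - i) * (algebraMap B Ω b * s ^ i) := by
    have : s ^ j = s ^ (j - i) * s ^ i := by rw [← pow_add]; congr 1; omega
    rw [this]
    ring
  have h2 : algebraMap B Ω a * s ^ i = algebraMap B Ω (a / b) * (algebraMap B Ω b * s ^ i) := by
    rw [map_div₀]
    field_simp
  rw [h1, h2, AddValuation.map_mul, AddValuation.map_mul v (s ^ (j - i))] at h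
  have h3 : v (algebraMap B Ω b * s ^ i) ≠ ⊤ :=
    (AddValuation.ne_top_iff v).2 (mul_ne_zero hb' (pow_ne_zero _ hs))
  exact ((WithTop.add_right_inj h3).1 h).symm

theorem l2_alg {B Ω : Type} [Field B] [Field Ω] [Algebra B Ω] (v : AddValuation Ω (WithTop ℝ))
    {s : Ω} (hs : s ≠ 0) (hi : IsIntegral B s) :
    ∃ (e : ℕ) (c : B), 1 ≤ e ∧ c ≠ 0 ∧ v (s ^ e) = v (algebraMap B Ω c) := by
  classical
  set p := minpoly B s with hp
  have hp0 : p ≠ 0 := minpoly.ne_zero hi
  have h1 : ∑ i ∈ p.support, algebraMap B Ω (p.coeff i) * s ^ i = 0 := by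
    have := minpoly.aeval B s
    rwa [Polynomial.aeval_def, Polynomial.eval₂_eq_sum, Polynomial.sum] at this
  have hne : ∀ i ∈ p.support, algebraMap B Ω (p.coeff i) * s ^ i ≠ 0 := by
    intro i hi
    refine mul_ne_zero ?_ (pow_ne_zero _ hs)
    simpa using hi
  obtain ⟨i0, hi0, hmin⟩ := Finset.exists_min_image p.support
    (fun i => v (algebraMap B Ω (p.coeff i) * s ^ i)) (Polynomial.nonempty_support_iff.2 hp0)
  by_cases hex : ∃ j ∈ p.support, j ≠ i0 ∧ v (algebraMap B Ω (p.coeff j) * s ^ j) =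
      v (algebraMap B Ω (p.coeff i0) * s ^ i0)
  · obtain ⟨j, hj, hne', heq⟩ := hex
    have ha : p.coeff j ≠ 0 := Polynomial.mem_support_iff.1 hj
    have hb : p.coeff i0 ≠ 0 := Polynomial.mem_support_iff.1 hi0
    rcases lt_or_gt_of_ne hne' with h | h
    · exact l2_pair v hs ha hb h heq
    · exact l2_pair v hs hb ha h heq.symm
  · exfalso
    push Not at hex
    rw [← Finset.add_sum_erase _ _ hi0] at h1
    have h2 : v (algebraMap B Ω (p.coeff i0) * s ^ i0) <
        v (∑ i ∈ p.support.erase i0, algebraMap B Ω (p.coeff i) * s ^ i) := by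
      refine AddValuation.map_lt_sum v ((AddValuation.ne_top_iff v).2 (hne i0 hi0)) ?_
      intro j hj
      have hj2 := Finset.mem_of_mem_erase hj
      exact lt_of_le_of_ne (hmin j hj2) (hex j hj2 (Finset.ne_of_mem_erase hj)).symm
    rw [eq_neg_of_add_eq_zero_right h1, AddValuation.map_neg] at h2
    exact lt_irrefl _ h2

theorem l2_cast {E : Type} [Field E] (w : AddValuation E (WithTop ℝ))
    (hwn : ∀ n : ℕ, n ≠ 0 → w (n : E) = 0) {a b : ℕ} (h : a ≠ b) : w ((a : E) - b) = 0 := by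
  rcases lt_or_gt_of_ne h with h1 | h1
  · rw [AddValuation.map_sub_swap, ← Nat.cast_sub h1.le]
    exact hwn _ (by omega)
  · rw [← Nat.cast_sub h1.le]
    exact hwn _ (by omega)

theorem l2_bad {E : Type} [Field E] (w : AddValuation E (WithTop ℝ))
    (hwn : ∀ n : ℕ, n ≠ 0 → w (n : E) = 0) {R : ℕ} (t : Fin R → E) (k : Fin R) (hk : w (t k) < 0)
    (N : ℕ) : ((Finset.range N).filter fun l : ℕ =>
      0 ≤ w (∑ k : Fin R, (l : E) ^ (k : ℕ) * t k)).card < R := by
  classical
  by_contra hge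
  push Not at hge
  have hinj : Function.Injective (Nat.cast : ℕ → E) := by
    intro a b hab
    by_contra hne
    have h1 := l2_cast w hwn hne
    rw [hab, sub_self, AddValuation.map_zero] at h1
    exact WithTop.top_ne_zero h1
  set p : E[X] := ∑ k : Fin R, C (t k) * X ^ (k : ℕ) with hp
  have hdeg : p.natDegree < R := by
    have h1 := Polynomial.degree_sum_fin_lt t
    have h2 : 0 < R := (Nat.zero_le _).trans_lt k.2
    by_cases hp0 : p = 0
    · rw [hp0, Polynomial.natDegree_zero]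
      exact h2
    · rw [Polynomial.natDegree_lt_iff_degree_lt hp0]
      exact h1
  have h3 := l2_vdm w R p hdeg ((((Finset.range N).filter fun l : ℕ =>
      0 ≤ w (∑ k : Fin R, (l : E) ^ (k : ℕ) * t k))).image (Nat.cast : ℕ → E))
    (by rw [Finset.card_image_of_injective _ hinj]; exact hge)
    (by
      intro a ha
      obtain ⟨l, _, rfl⟩ := Finset.mem_image.1 ha
      rcases Nat.eq_zero_or_pos l with rfl | hl
      · rw [Nat.cast_zero, AddValuation.map_zero]
        exact le_top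
      · rw [hwn l hl.ne'])
    (by
      intro a ha b hb hab
      obtain ⟨l, _, rfl⟩ := Finset.mem_image.1 ha
      obtain ⟨l', _, rfl⟩ := Finset.mem_image.1 hb
      exact l2_cast w hwn fun h => hab (by rw [h]))
    (by
      intro a ha
      obtain ⟨l, hl, rfl⟩ := Finset.mem_image.1 ha
      have h4 := (Finset.mem_filter.1 hl).2
      have h6 : p.eval (l : E) = ∑ k : Fin R, (l : E) ^ (k : ℕ) * t k := by
        rw [hp, Polynomial.eval_finsetSum]
        apply Finset.sum_congr rfl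
        intro j _
        rw [Polynomial.eval_mul, Polynomial.eval_C, Polynomial.eval_pow, Polynomial.eval_X,
          mul_comm]
      rw [h6]
      exact h4) k
  have h5 : p.coeff k = t k := by
    rw [hp, Polynomial.finsetSum_coeff, Finset.sum_eq_single k]
    · rw [Polynomial.coeff_C_mul_X_pow, if_pos rfl]
    · intro j _ hj
      rw [Polynomial.coeff_C_mul_X_pow, if_neg]
      intro h
      exact hj (Fin.ext h.symm)
    · intro h
      exact (h (Finset.mem_univ k)).elim
  rw [h5] at h3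
  exact absurd hk (not_lt.2 h3)

theorem l2_core {B Ω : Type} [Field B] [Field Ω] [IsAlgClosed Ω] [Algebra B Ω]
    [Algebra.IsAlgebraic B Ω] (v : AddValuation Ω (WithTop ℝ)) {R : ℕ} (y : Fin R → Ω)
    (hy : ∀ k, 0 ≤ v (y k)) (hvn : ∀ n : ℕ, 0 ≤ v (n : Ω)) :
    ∃ C : Finset B, (∀ c ∈ C, c ≠ 0) ∧
      ∀ (E : Type) [Field E] (w : AddValuation E (WithTop ℝ)) (θ : Ω →+* E),
      (∀ n : ℕ, n ≠ 0 → w (n : E) = 0) →
      (∀ c ∈ C, ∀ c' ∈ C, v (algebraMap B Ω c) ≤ v (algebraMap B Ω c') →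
        w (θ (algebraMap B Ω c)) ≤ w (θ (algebraMap B Ω c'))) →
      ∃ σ : Ω ≃ₐ[B] Ω, ∀ k, 0 ≤ w (θ (σ (y k))) := by
  classical
  have hclos : IsAlgClosure B Ω := ⟨inferInstance, inferInstance⟩
  have hint : ∀ x : Ω, IsIntegral B x := fun x => Algebra.IsIntegral.isIntegral x
  have hT : (Set.range (fun σ : Ω ≃ₐ[B] Ω => fun k => σ (y k))).Finite := by
    refine Set.Finite.subset (Set.Finite.pi' (t := fun k => ((minpoly B (y k)).rootSet Ω))
      fun k => Polynomial.rootSet_finite _ _) ?_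
    rintro _ ⟨σ, rfl⟩ k
    rw [Polynomial.mem_rootSet]
    refine ⟨minpoly.ne_zero (hint _), ?_⟩
    show aeval ((σ : Ω →ₐ[B] Ω) (y k)) (minpoly B (y k)) = 0
    rw [Polynomial.aeval_algHom_apply, minpoly.aeval, map_zero]
  set N := hT.toFinset.card * R + 1 with hN
  set Y : ℕ → Ω := fun l => ∑ k : Fin R, (l : Ω) ^ (k : ℕ) * y k with hY
  refine ⟨(Finset.range N).biUnion fun l => ((Finset.range ((minpoly B (Y l)).natDegree + 1)).image
    (minpoly B (Y l)).coeff).filter (· ≠ 0), ?_, ?_⟩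
  · intro c hc
    obtain ⟨l, _, h1⟩ := Finset.mem_biUnion.1 hc
    exact (Finset.mem_filter.1 h1).2
  intro E _ w θ hwn hmono
  by_contra hcon
  push Not at hcon
  -- a good value of `l`
  obtain ⟨l, hl, hgood⟩ : ∃ l ∈ Finset.range N, ∀ σ : Ω ≃ₐ[B] Ω, w (θ (σ (Y l))) < 0 := by
    have h1 : ((hT.toFinset.biUnion fun t => (Finset.range N).filter fun l : ℕ =>
        0 ≤ w (∑ k : Fin R, (l : E) ^ (k : ℕ) * θ (t k)))).card < (Finset.range N).card := by
      refine (Finset.card_biUnion_le_card_mul _ _ R ?_).trans_lt ?_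
      · intro t ht
        rw [Set.Finite.mem_toFinset] at ht
        obtain ⟨σ, rfl⟩ := ht
        obtain ⟨k, hk⟩ := hcon σ
        exact (l2_bad w hwn (fun k => θ (σ (y k))) k hk N).le
      · rw [Finset.card_range, hN]
        exact Nat.lt_succ_self _
    obtain ⟨l, hl, h2⟩ := Finset.exists_mem_notMem_of_card_lt_card h1
    refine ⟨l, hl, fun σ => ?_⟩
    by_contra h3
    push Not at h3
    apply h2
    rw [Finset.mem_biUnion]
    refine ⟨fun k => σ (y k), ?_, ?_⟩
    · rw [Set.Finite.mem_toFinset]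
      exact ⟨σ, rfl⟩
    · rw [Finset.mem_filter]
      refine ⟨hl, ?_⟩
      have h4 : θ (σ (Y l)) = ∑ k : Fin R, (l : E) ^ (k : ℕ) * θ (σ (y k)) := by
        rw [hY]
        simp only [map_sum, map_mul, map_pow, map_natCast]
      rw [← h4]
      exact h3
  set m := minpoly B (Y l) with hm
  have hmon : m.Monic := minpoly.monic (hint _)
  have hroots : ∀ ρ ∈ (m.aroots Ω).map θ, w ρ < 0 := by
    intro ρ hρ
    obtain ⟨r, hr, rfl⟩ := Multiset.mem_map.1 hρ
    have h1 := (isConjRoot_iff_mem_minpoly_aroots (hint (Y l))).2 hr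
    obtain ⟨σ, hσ⟩ := isConjRoot_iff_exists_algEquiv.1 h1.symm
    rw [← hσ]
    exact hgood σ
  obtain ⟨hn1, hn2⟩ := l2_newton w _ hroots
  have hprod : (((m.aroots Ω).map θ).map fun ρ => X - C ρ).prod =
      (m.map (algebraMap B Ω)).map θ := by
    have h1 : m.map (algebraMap B Ω) = ((m.aroots Ω).map fun ρ => X - C ρ).prod :=
      (IsAlgClosed.splits _).eq_prod_roots_of_monic (hmon.map _)
    rw [h1, Polynomial.map_multiset_prod, Multiset.map_map, Multiset.map_map]
    congr 1
    apply Multiset.map_congr rfl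
    intro r _
    simp
  have hcoef : ∀ i, (((m.aroots Ω).map θ).map fun ρ => X - C ρ).prod.coeff i =
      θ (algebraMap B Ω (m.coeff i)) := by
    intro i
    rw [hprod, Polynomial.coeff_map, Polynomial.coeff_map]
  simp only [hcoef] at hn1 hn2
  have hpos : 0 < m.natDegree := minpoly.natDegree_pos (hint _)
  have hYl : 0 ≤ v (Y l) := by
    rw [hY]
    refine AddValuation.map_le_sum v fun k _ => ?_
    rw [AddValuation.map_mul, AddValuation.map_pow]
    exact add_nonneg (nsmul_nonneg (hvn l) _) (hy k)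
  obtain ⟨i, hi1, hi2, hi3⟩ : ∃ i, 1 ≤ i ∧ i ≤ m.natDegree ∧
      v (algebraMap B Ω (m.coeff i)) ≤ v (algebraMap B Ω (m.coeff 0)) := by
    by_contra hno
    push Not at hno
    have h1 : ∑ i ∈ Finset.range (m.natDegree + 1), algebraMap B Ω (m.coeff i) * (Y l) ^ i = 0 := by
      have h2 := minpoly.aeval B (Y l)
      rw [Polynomial.aeval_eq_sum_range] at h2
      simpa only [Algebra.smul_def] using h2
    rw [Finset.sum_range_succ', pow_zero, mul_one] at h1
    have h3 : v (algebraMap B Ω (m.coeff 0)) <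
        v (∑ i ∈ Finset.range m.natDegree, algebraMap B Ω (m.coeff (i + 1)) * (Y l) ^ (i + 1)) := by
      refine AddValuation.map_lt_sum v (ne_top_of_lt (hno 1 le_rfl hpos)) ?_
      intro i hi
      rw [Finset.mem_range] at hi
      refine (hno (i + 1) (by omega) (by omega)).trans_le ?_
      rw [AddValuation.map_mul, AddValuation.map_pow]
      exact le_add_of_nonneg_right (nsmul_nonneg hYl _)
    rw [eq_neg_of_add_eq_zero_left h1, AddValuation.map_neg] at h3
    exact lt_irrefl _ h3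
  have hc0 : m.coeff 0 ≠ 0 := by
    intro h
    rw [h, map_zero, map_zero, AddValuation.map_zero] at hn1
    exact hn1 rfl
  have hci : m.coeff i ≠ 0 := by
    intro h
    rw [h, map_zero, AddValuation.map_zero, top_le_iff, AddValuation.top_iff] at hi3
    exact hc0 (by simpa using hi3)
  have hmem : ∀ j, j ≤ m.natDegree → m.coeff j ≠ 0 →
      m.coeff j ∈ ((Finset.range N).biUnion fun l =>
        ((Finset.range ((minpoly B (Y l)).natDegree + 1)).image
        (minpoly B (Y l)).coeff).filter (· ≠ 0)) := by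
    intro j hj hj0
    rw [Finset.mem_biUnion]
    refine ⟨l, hl, ?_⟩
    rw [Finset.mem_filter, Finset.mem_image]
    exact ⟨⟨j, Finset.mem_range.2 (Nat.lt_succ_of_le hj), rfl⟩, hj0⟩
  have h5 := hmono _ (hmem i hi2 hci) _ (hmem 0 (Nat.zero_le _) hc0) hi3
  exact absurd (hn2 i hi1) (not_lt.2 h5)

theorem l2_smul_inj {e : ℕ} (he : 1 ≤ e) {a : WithTop ℝ} {r : ℝ}
    (h : e • a = ((e • r : ℝ) : WithTop ℝ)) : a = (r : WithTop ℝ) := by
  have he0 : (e : ℝ) ≠ 0 := by
    have : e ≠ 0 := by omega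
    exact_mod_cast this
  have ha : a ≠ ⊤ := by
    rintro rfl
    have h1 : e • (⊤ : WithTop ℝ) = ⊤ := by
      obtain ⟨n, rfl⟩ : ∃ n, e = n + 1 := ⟨e - 1, by omega⟩
      rw [succ_nsmul, WithTop.add_top]
    rw [h1] at h
    exact WithTop.top_ne_coe h
  obtain ⟨x, rfl⟩ := WithTop.ne_top_iff_exists.1 ha
  rw [← WithTop.coe_nsmul, WithTop.coe_inj] at h
  rw [nsmul_eq_mul, nsmul_eq_mul] at h
  rw [mul_left_cancel₀ he0 h]

theorem ext_match_pr {K B Ω : Type} [Field K] [CharZero K] [Field B] [Algebra K B] [Field Ω]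
    [IsAlgClosed Ω] [Algebra B Ω] [Algebra.IsAlgebraic B Ω]
    (v : AddValuation Ω (WithTop ℝ))
    (hv : ∀ c : K, c ≠ 0 → v (algebraMap B Ω (algebraMap K B c)) = 0)
    (S : Finset Ω) (hS : ∀ s ∈ S, s ≠ 0) :
    ∃ (C : Finset B) (Φ : Finset ℝ), (∀ c ∈ C, c ≠ 0) ∧ (∀ φ ∈ Φ, 0 < φ) ∧
      ∀ h : ℝ →ₗ[ℚ] ℚ, (∀ φ ∈ Φ, 0 < h φ) →
      ∀ (E : Type) [Field E] [IsAlgClosed E] (w : AddValuation E (WithTop ℝ)) (θ0 : B →+* E),
        (∀ c : K, c ≠ 0 → w (θ0 (algebraMap K B c)) = 0) →
        (∀ c ∈ C, VM v w h (algebraMap B Ω c) (θ0 c)) →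
        ∃ θ : Ω →+* E, (∀ b, θ (algebraMap B Ω b) = θ0 b) ∧ ∀ s ∈ S, VM v w h s (θ s) := by
  classical
  have hint : ∀ x : Ω, IsIntegral B x := fun x => Algebra.IsIntegral.isIntegral x
  have h1 : ∀ s : S, ∃ (e : ℕ) (c : B), 1 ≤ e ∧ c ≠ 0 ∧
      v ((s : Ω) ^ e) = v (algebraMap B Ω c) := fun s => l2_alg v (hS s s.2) (hint s)
  choose e c he hc hec using h1
  have hvn : ∀ n : ℕ, 0 ≤ v (n : Ω) := by
    intro n
    rcases Nat.eq_zero_or_pos n with rfl | hn
    · rw [Nat.cast_zero, AddValuation.map_zero]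
      exact le_top
    · have h2 := hv (n : K) (by exact_mod_cast hn.ne')
      rw [map_natCast, map_natCast] at h2
      rw [h2]
  set y1 : S → Ω := fun s => (s : Ω) ^ e s / algebraMap B Ω (c s) with hy1
  have hcΩ : ∀ s, algebraMap B Ω (c s) ≠ 0 := fun s => by simpa using hc s
  have hy1n : ∀ s, y1 s ≠ 0 := fun s => div_ne_zero (pow_ne_zero _ (hS s s.2)) (hcΩ s)
  have hmul : ∀ s, y1 s * algebraMap B Ω (c s) = (s : Ω) ^ e s := fun s => by
    rw [hy1]
    exact div_mul_cancel₀ _ (hcΩ s)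
  have hvy1 : ∀ s, v (y1 s) = 0 := by
    intro s
    have h2 := congrArg v (hmul s)
    rw [AddValuation.map_mul, hec s] at h2
    have h3 : v (algebraMap B Ω (c s)) ≠ ⊤ := (AddValuation.ne_top_iff v).2 (hcΩ s)
    refine (WithTop.add_right_inj h3).1 ?_
    rw [h2, zero_add]
  have hinv : ∀ (F : Type) [Field F] (u : AddValuation F (WithTop ℝ)) (x : F), x ≠ 0 →
      0 ≤ u x → 0 ≤ u x⁻¹ → u x = 0 := by
    intro F _ u x hx h2 h3
    have h4 : u x + u x⁻¹ = 0 := by
      rw [← AddValuation.map_mul, mul_inv_cancel₀ hx, AddValuation.map_one]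
    exact (add_eq_zero_iff_of_nonneg h2 h3).1 h4 |>.1
  have hvy2 : ∀ s, v (y1 s)⁻¹ = 0 := by
    intro s
    have h4 : v (y1 s) + v (y1 s)⁻¹ = 0 := by
      rw [← AddValuation.map_mul, mul_inv_cancel₀ (hy1n s), AddValuation.map_one]
    rwa [hvy1, zero_add] at h4
  let eqv := Fintype.equivFin (S × Bool)
  let y : Fin (Fintype.card (S × Bool)) → Ω := fun k =>
    if (eqv.symm k).2 then y1 (eqv.symm k).1 else (y1 (eqv.symm k).1)⁻¹
  have hy : ∀ k, 0 ≤ v (y k) := by
    intro k
    show 0 ≤ v (if (eqv.symm k).2 then y1 (eqv.symm k).1 else (y1 (eqv.symm k).1)⁻¹)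
    split_ifs
    · rw [hvy1]
    · rw [hvy2]
  obtain ⟨C, hC, hcore⟩ := l2_core (B := B) v y hy hvn
  set C' : Finset B := C ∪ Finset.univ.image c with hC'
  have hC'0 : ∀ b ∈ C', b ≠ 0 := by
    intro b hb
    rw [hC', Finset.mem_union] at hb
    rcases hb with hb | hb
    · exact hC b hb
    · obtain ⟨s, _, rfl⟩ := Finset.mem_image.1 hb
      exact hc s
  set val : B → ℝ := fun b => (v (algebraMap B Ω b)).untopD 0 with hval
  refine ⟨C', ((C' ×ˢ C').image fun q => val q.2 - val q.1).filter (0 < ·), hC'0,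
    fun φ hφ => (Finset.mem_filter.1 hφ).2, ?_⟩
  intro h hh E _ _ w θ0 hw hVM
  let _ : Algebra B E := θ0.toAlgebra
  let θ : Ω →ₐ[B] E := IsAlgClosed.lift (R := B) (S := Ω) (M := E)
  have hθ : ∀ b, θ (algebraMap B Ω b) = θ0 b := θ.commutes
  have hwn : ∀ n : ℕ, n ≠ 0 → w (n : E) = 0 := by
    intro n hn
    have h2 := hw (n : K) (by exact_mod_cast hn)
    rwa [map_natCast, map_natCast] at h2
  have hmono : ∀ b ∈ C, ∀ b' ∈ C, v (algebraMap B Ω b) ≤ v (algebraMap B Ω b') →
      w ((θ : Ω →+* E) (algebraMap B Ω b)) ≤ w ((θ : Ω →+* E) (algebraMap B Ω b')) := by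
    intro b hb b' hb' hle
    have hbC : b ∈ C' := Finset.mem_union_left _ hb
    have hbC' : b' ∈ C' := Finset.mem_union_left _ hb'
    obtain ⟨g, hg1, hg2⟩ := hVM b hbC
    obtain ⟨g', hg1', hg2'⟩ := hVM b' hbC'
    have e1 : (θ : Ω →+* E) (algebraMap B Ω b) = θ0 b := hθ b
    have e2 : (θ : Ω →+* E) (algebraMap B Ω b') = θ0 b' := hθ b'
    rw [e1, e2, hg2, hg2']
    rw [hg1, hg1', WithTop.coe_le_coe] at hle
    rw [WithTop.coe_le_coe]
    rcases hle.eq_or_lt with h3 | h3
    · rw [h3]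
    · have h4 : g' - g ∈ ((C' ×ˢ C').image fun q => val q.2 - val q.1).filter (0 < ·) := by
        rw [Finset.mem_filter, Finset.mem_image]
        refine ⟨⟨(b, b'), Finset.mem_product.2 ⟨hbC, hbC'⟩, ?_⟩, sub_pos.2 h3⟩
        show val b' - val b = g' - g
        rw [hval]
        simp only [hg1, hg1', WithTop.untopD_coe]
      have h5 := hh _ h4
      rw [map_sub, sub_pos] at h5
      exact_mod_cast h5.le
  obtain ⟨σ, hσ⟩ := hcore E w (θ : Ω →+* E) hwn hmono
  refine ⟨(θ : Ω →+* E).comp (σ : Ω →+* Ω), fun b => ?_, fun s hs => ?_⟩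
  · show θ (σ (algebraMap B Ω b)) = θ0 b
    rw [σ.commutes, hθ]
  · set s' : S := ⟨s, hs⟩ with hs'
    have h2 : 0 ≤ w (θ (σ (y1 s'))) := by
      have h3 := hσ (eqv (s', true))
      have h4 : y (eqv (s', true)) = y1 s' := by
        show (if (eqv.symm (eqv (s', true))).2 then _ else _) = _
        rw [Equiv.symm_apply_apply]
        simp
      rw [h4] at h3
      exact h3
    have h3 : 0 ≤ w (θ (σ (y1 s')))⁻¹ := by
      have h3 := hσ (eqv (s', false))
      have h4 : y (eqv (s', false)) = (y1 s')⁻¹ := by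
        show (if (eqv.symm (eqv (s', false))).2 then _ else _) = _
        rw [Equiv.symm_apply_apply]
        simp
      rw [h4, map_inv₀] at h3
      have h5 : (θ : Ω →+* E) (σ (y1 s'))⁻¹ = (θ (σ (y1 s')))⁻¹ := map_inv₀ θ _
      rw [h5] at h3
      exact h3
    have h4 : θ (σ (y1 s')) ≠ 0 := by
      rw [Ne, map_eq_zero, map_eq_zero]
      exact hy1n s'
    have h5 : w (θ (σ (y1 s'))) = 0 := hinv E w _ h4 h2 h3
    have h6 : (θ (σ s)) ^ e s' = θ (σ (y1 s')) * θ0 (c s') := by
      rw [← map_pow, ← map_pow, ← hθ, ← σ.commutes, ← map_mul, ← map_mul, hmul]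
    have h7 := congrArg w h6
    rw [AddValuation.map_pow, AddValuation.map_mul, h5, zero_add] at h7
    obtain ⟨g, hg1, hg2⟩ := hVM (c s') (Finset.mem_union_right _
      (Finset.mem_image_of_mem c (Finset.mem_univ s')))
    have h8 := hec s'
    rw [AddValuation.map_pow, hg1] at h8
    have hst : v s ≠ ⊤ := (AddValuation.ne_top_iff v).2 (hS s hs)
    obtain ⟨r, hr⟩ := WithTop.ne_top_iff_exists.1 hst
    have h9 : (e s') • r = g := by
      have h10 : (e s') • v s = (g : WithTop ℝ) := h8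
      rw [← hr, ← WithTop.coe_nsmul, WithTop.coe_inj] at h10
      exact h10
    refine ⟨r, hr.symm, ?_⟩
    show w (θ (σ s)) = _
    refine l2_smul_inj (he s') ?_
    rw [h7, hg2, ← h9, map_nsmul]
    congr 1
    rw [nsmul_eq_mul, nsmul_eq_mul]
    push_cast
    ring

end Pool.Agent.OPT.L2

namespace Pool.Agent.OPT

alias ext_match := L2.ext_match_pr

end Pool.Agent.OPT
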