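import Pool.Agent.Lib_helper80.OPF.Defs

/-! # OPN block L5: factorisation form of Hensel's lemma for power series -/

namespace Pool.Agent.OPT.L5

open Polynomial

variable {κ : Type} [Field κ]

/-- the Bezout step -/
theorem solve {g0 h0 : Polynomial κ} (hg0 : g0.Monic) (hh0 : h0.Monic) (hco : IsCoprime g0 h0)
    {c : Polynomial κ} (hc : c.degree < (g0 * h0).degree) :
    ∃ G H : Polynomial κ, g0 * H + G * h0 = c ∧ G.degree < g0.degree ∧ H.degree < h0.degree := by
  obtain ⟨u, v, huv⟩ := hco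
  set G' := c * v with hG'
  set H' := c * u with hH'
  set G := G' %ₘ g0 with hG
  set q := G' /ₘ g0 with hq
  have h1 : G + g0 * q = G' := modByMonic_add_div G' g0
  have hGd : G.degree < g0.degree := degree_modByMonic_lt _ hg0
  have h2 : g0 * (H' + h0 * q) + G * h0 = c := by
    calc g0 * (H' + h0 * q) + G * h0 = g0 * H' + (G + g0 * q) * h0 := by ring
      _ = c * (u * g0 + v * h0) := by rw [h1, hG', hH']; ring
      _ = c := by rw [huv, mul_one]
  refine ⟨G, H' + h0 * q, h2, hGd, ?_⟩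
  have h3 : (g0 * (H' + h0 * q)).degree < (g0 * h0).degree := by
    have h4 : g0 * (H' + h0 * q) = c - G * h0 := by rw [← h2]; ring
    rw [h4]
    refine lt_of_le_of_lt (degree_sub_le _ _) (max_lt hc ?_)
    rw [degree_mul, degree_mul]
    exact WithBot.add_lt_add_right (degree_ne_bot.mpr hh0.ne_zero) hGd
  rw [degree_mul, degree_mul] at h3
  exact lt_of_add_lt_add_left h3

/-- a solution, or junk -/
noncomputable def sol (g0 h0 c : Polynomial κ) : Polynomial κ × Polynomial κ :=
  open Classical in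
  if h : ∃ p : Polynomial κ × Polynomial κ, g0 * p.2 + p.1 * h0 = c ∧ p.1.degree < g0.degree ∧
    p.2.degree < h0.degree then h.choose else 0

theorem sol_spec {g0 h0 : Polynomial κ} (hg0 : g0.Monic) (hh0 : h0.Monic)
    (hco : IsCoprime g0 h0) {c : Polynomial κ} (hc : c.degree < (g0 * h0).degree) :
    g0 * (sol g0 h0 c).2 + (sol g0 h0 c).1 * h0 = c ∧ (sol g0 h0 c).1.degree < g0.degree ∧
      (sol g0 h0 c).2.degree < h0.degree := by
  have h : ∃ p : Polynomial κ × Polynomial κ, g0 * p.2 + p.1 * h0 = c ∧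
      p.1.degree < g0.degree ∧ p.2.degree < h0.degree := by
    obtain ⟨G, H, h1⟩ := solve hg0 hh0 hco hc
    exact ⟨(G, H), h1⟩
  unfold sol
  rw [dif_pos h]
  exact h.choose_spec

/-- the coefficient polynomials of the factors -/
noncomputable def GH (g0 h0 : Polynomial κ) (Pn : ℕ → Polynomial κ) :
    ℕ → Polynomial κ × Polynomial κ
  | 0 => (g0, h0)
  | (n + 1) => sol g0 h0 (Pn (n + 1) - ∑ i : Fin n,
      (GH g0 h0 Pn (i.1 + 1)).1 * (GH g0 h0 Pn (n - i.1)).2)
  termination_by n => n
  decreasing_by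
    · have := i.2; omega
    · have := i.2; omega

theorem GH_zero (g0 h0 : Polynomial κ) (Pn : ℕ → Polynomial κ) : GH g0 h0 Pn 0 = (g0, h0) := by
  rw [GH]

theorem GH_succ (g0 h0 : Polynomial κ) (Pn : ℕ → Polynomial κ) (n : ℕ) :
    GH g0 h0 Pn (n + 1) = sol g0 h0 (Pn (n + 1) - ∑ i ∈ Finset.range n,
      (GH g0 h0 Pn (i + 1)).1 * (GH g0 h0 Pn (n - i)).2) := by
  rw [GH]
  congr 2
  exact (Finset.sum_range (fun i => (GH g0 h0 Pn (i + 1)).1 * (GH g0 h0 Pn (n - i)).2)).symm

theorem GH_spec {g0 h0 : Polynomial κ} (hg0 : g0.Monic) (hh0 : h0.Monic)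
    (hco : IsCoprime g0 h0) {Pn : ℕ → Polynomial κ}
    (hP : ∀ n, 1 ≤ n → (Pn n).degree < (g0 * h0).degree) (n : ℕ) :
    1 ≤ n → (∑ p ∈ Finset.HasAntidiagonal.antidiagonal n, (GH g0 h0 Pn p.1).1 * (GH g0 h0 Pn p.2).2 = Pn n ∧
      (GH g0 h0 Pn n).1.degree < g0.degree ∧ (GH g0 h0 Pn n).2.degree < h0.degree) := by
  induction n using Nat.strong_induction_on with
  | _ n ih =>
    intro hn
    obtain ⟨m, rfl⟩ : ∃ m, n = m + 1 := ⟨n - 1, by omega⟩
    set c := Pn (m + 1) - ∑ i ∈ Finset.range m,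
      (GH g0 h0 Pn (i + 1)).1 * (GH g0 h0 Pn (m - i)).2 with hc
    have hcd : c.degree < (g0 * h0).degree := by
      rw [hc]
      refine lt_of_le_of_lt (degree_sub_le _ _) (max_lt (hP _ hn) ?_)
      refine lt_of_le_of_lt (degree_sum_le _ _) ?_
      rw [Finset.sup_lt_iff (bot_lt_iff_ne_bot.mpr
        (degree_ne_bot.mpr (hg0.mul hh0).ne_zero))]
      intro i hi
      rw [Finset.mem_range] at hi
      have h1 := (ih (i + 1) (by omega) (by omega)).2.1
      have h2 := (ih (m - i) (by omega) (by omega)).2.2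
      rw [degree_mul, degree_mul]
      exact lt_of_le_of_lt (add_le_add le_rfl h2.le)
        (WithBot.add_lt_add_right (degree_ne_bot.mpr hh0.ne_zero) h1)
    obtain ⟨s1, s2, s3⟩ := sol_spec hg0 hh0 hco hcd
    rw [← GH_succ] at s2 s3
    refine ⟨?_, s2, s3⟩
    rw [Finset.Nat.sum_antidiagonal_eq_sum_range_succ
      (fun a b => (GH g0 h0 Pn a).1 * (GH g0 h0 Pn b).2), Finset.sum_range_succ,
      Finset.sum_range_succ']
    have h3 : ∀ i ∈ Finset.range m, (GH g0 h0 Pn (i + 1)).1 * (GH g0 h0 Pn (m + 1 - (i + 1))).2 =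
        (GH g0 h0 Pn (i + 1)).1 * (GH g0 h0 Pn (m - i)).2 := by
      intro i _
      rw [show m + 1 - (i + 1) = m - i by omega]
    rw [Finset.sum_congr rfl h3, Nat.sub_zero, Nat.sub_self, GH_zero]
    rw [← GH_succ] at s1
    have h4 : Pn (m + 1) = c + ∑ i ∈ Finset.range m,
      (GH g0 h0 Pn (i + 1)).1 * (GH g0 h0 Pn (m - i)).2 := by rw [hc]; ring
    rw [h4, ← s1]
    ring

/-- the polynomial over power series with given coefficient polynomials of bounded degree -/
noncomputable def mkP (d : ℕ) (G : ℕ → Polynomial κ) : Polynomial (PowerSeries κ) :=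
  ∑ i ∈ Finset.range (d + 1), monomial i (PowerSeries.mk fun n => (G n).coeff i)

theorem mkP_coeff {d : ℕ} {G : ℕ → Polynomial κ} (hG : ∀ n, (G n).natDegree ≤ d) (i n : ℕ) :
    PowerSeries.coeff n ((mkP d G).coeff i) = (G n).coeff i := by
  unfold mkP
  rw [finsetSum_coeff]
  simp only [coeff_monomial]
  by_cases hi : i ∈ Finset.range (d + 1)
  · rw [Finset.sum_eq_single i]
    · rw [if_pos rfl, PowerSeries.coeff_mk]
    · intro j _ hj
      rw [if_neg hj]
    · intro h; exact (h hi).elim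
  · rw [Finset.sum_eq_zero, map_zero]
    · rw [Finset.mem_range] at hi
      rw [coeff_eq_zero_of_natDegree_lt]
      have := hG n
      omega
    · intro j hj
      rw [if_neg]
      rintro rfl
      exact hi hj

theorem hensel_factor_pr (P : Polynomial (PowerSeries κ)) (hP : P.Monic)
    (g0 h0 : Polynomial κ) (hg0 : g0.Monic) (hh0 : h0.Monic) (hco : IsCoprime g0 h0)
    (hmod : P.map PowerSeries.constantCoeff = g0 * h0) :
    ∃ g h : Polynomial (PowerSeries κ), g.Monic ∧ h.Monic ∧ P = g * h ∧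
      g.map PowerSeries.constantCoeff = g0 ∧ h.map PowerSeries.constantCoeff = h0 := by
  set Pn : ℕ → Polynomial κ := fun n => ∑ i ∈ Finset.range (P.natDegree + 1),
    monomial i (PowerSeries.coeff n (P.coeff i)) with hPn
  have hPnc : ∀ n i, (Pn n).coeff i = PowerSeries.coeff n (P.coeff i) := by
    intro n i
    rw [hPn]
    simp only [finsetSum_coeff, coeff_monomial]
    by_cases hi : i ∈ Finset.range (P.natDegree + 1)
    · rw [Finset.sum_eq_single i]
      · rw [if_pos rfl]
      · intro j _ hj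
        rw [if_neg hj]
      · intro h; exact (h hi).elim
    · rw [Finset.sum_eq_zero]
      · rw [Finset.mem_range] at hi
        rw [coeff_eq_zero_of_natDegree_lt (by omega), map_zero]
      · intro j hj
        rw [if_neg]
        rintro rfl
        exact hi hj
  have hdeg : P.natDegree = (g0 * h0).natDegree := by
    rw [← hmod, hP.natDegree_map]
  have hlt : ∀ n, 1 ≤ n → (Pn n).degree < (g0 * h0).degree := by
    intro n hn
    rw [degree_eq_natDegree (hg0.mul hh0).ne_zero, degree_lt_iff_coeff_zero]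
    intro i hi
    rw [hPnc, ← hdeg] at *
    rcases eq_or_lt_of_le hi with h | h
    · rw [← h, hP.coeff_natDegree, PowerSeries.coeff_one, if_neg (by omega)]
    · rw [coeff_eq_zero_of_natDegree_lt h, map_zero]
  have hzero : Pn 0 = g0 * h0 := by
    rw [← hmod]
    ext i
    rw [hPnc, coeff_map, PowerSeries.coeff_zero_eq_constantCoeff]
  set G : ℕ → Polynomial κ := fun n => (GH g0 h0 Pn n).1 with hG
  set H : ℕ → Polynomial κ := fun n => (GH g0 h0 Pn n).2 with hH
  have hG0 : G 0 = g0 := by simp only [hG, GH_zero]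
  have hH0 : H 0 = h0 := by simp only [hH, GH_zero]
  have hsp := fun n => GH_spec hg0 hh0 hco hlt n
  have hGd : ∀ n, (G n).natDegree ≤ g0.natDegree := by
    intro n
    rcases Nat.eq_zero_or_pos n with rfl | hn
    · rw [hG0]
    · exact natDegree_le_natDegree (hsp n hn).2.1.le
  have hHd : ∀ n, (H n).natDegree ≤ h0.natDegree := by
    intro n
    rcases Nat.eq_zero_or_pos n with rfl | hn
    · rw [hH0]
    · exact natDegree_le_natDegree (hsp n hn).2.2.le
  have hsum : ∀ n, ∑ p ∈ Finset.HasAntidiagonal.antidiagonal n, G p.1 * H p.2 = Pn n := by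
    intro n
    rcases Nat.eq_zero_or_pos n with rfl | hn
    · have h1 : (Finset.HasAntidiagonal.antidiagonal 0 : Finset (ℕ × ℕ)) = {(0, 0)} := rfl
      rw [h1, Finset.sum_singleton, hG0, hH0, hzero]
    · exact (hsp n hn).1
  have hmon : ∀ (g0 : Polynomial κ) (G : ℕ → Polynomial κ), g0.Monic → G 0 = g0 →
      (∀ n, (G n).natDegree ≤ g0.natDegree) → (∀ n, 1 ≤ n → (G n).degree < g0.degree) →
      (mkP g0.natDegree G).Monic ∧ (mkP g0.natDegree G).map PowerSeries.constantCoeff = g0 := by
    intro g0 G hg0 hG0 hGd hGl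
    constructor
    · refine monic_of_natDegree_le_of_coeff_eq_one g0.natDegree ?_ ?_
      · rw [natDegree_le_iff_coeff_eq_zero]
        intro i hi
        ext n
        rw [mkP_coeff hGd, map_zero, coeff_eq_zero_of_natDegree_lt]
        have := hGd n
        omega
      · ext n
        rw [mkP_coeff hGd, PowerSeries.coeff_one]
        rcases Nat.eq_zero_or_pos n with rfl | hn
        · rw [hG0, hg0.coeff_natDegree, if_pos rfl]
        · rw [if_neg (by omega)]
          have := hGl n hn
          rw [degree_eq_natDegree hg0.ne_zero, degree_lt_iff_coeff_zero] at this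
          exact this _ le_rfl
    · ext i
      rw [coeff_map, ← PowerSeries.coeff_zero_eq_constantCoeff_apply, mkP_coeff hGd, hG0]
  obtain ⟨m1, m2⟩ := hmon g0 G hg0 hG0 hGd (fun n hn => (hsp n hn).2.1)
  obtain ⟨m3, m4⟩ := hmon h0 H hh0 hH0 hHd (fun n hn => (hsp n hn).2.2)
  refine ⟨mkP g0.natDegree G, mkP h0.natDegree H, m1, m3, ?_, m2, m4⟩
  ext i n
  rw [coeff_mul, map_sum]
  simp only [PowerSeries.coeff_mul, mkP_coeff hGd, mkP_coeff hHd]
  rw [Finset.sum_comm, ← hPnc, ← hsum, finsetSum_coeff]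
  refine Finset.sum_congr rfl fun p _ => ?_
  rw [coeff_mul]


end Pool.Agent.OPT.L5

namespace Pool.Agent.OPT

alias hensel_factor := L5.hensel_factor_pr

end Pool.Agent.OPT
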