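import Pool.Agent.Lib_helper80.OPF.Defs
import Pool.Agent.Lib_helper80.OPF.L4
import Pool.Agent.Lib_helper80.OPF.L5

/-!
# OPN block L6: splitting lemma
-/

namespace Pool.Agent.OPT.L6

open Polynomial

section

variable {κ E : Type} [Field κ] [Field E] (ι : PowerSeries κ →+* E)
  (w : AddValuation E (WithTop ℝ)) (hw : ∀ a, w (ι a) = oR a) (k0 : Subfield κ)

/-- the field of Laurent series over `k0` -/
def serF : Subfield E where
  carrier := {e | IsSer ι k0 e}
  mul_mem' := fun ha hb => isSer_mul ι w hw k0 ha hb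
  one_mem' := by
    have h := isSer_iota ι w hw k0 (b := 1) (fun n => by
      rw [PowerSeries.coeff_one]
      split_ifs
      exacts [one_mem _, zero_mem _])
    rwa [map_one] at h
  add_mem' := fun ha hb => isSer_add ι w hw k0 ha hb
  zero_mem' := by
    have h := isSer_iota ι w hw k0 (b := 0) (fun n => by simp)
    rwa [map_zero] at h
  neg_mem' := fun ha => isSer_neg ι w hw k0 ha
  inv_mem' := fun a ha => isSer_inv ι w hw k0 ha

lemma mem_serF {e : E} : e ∈ serF ι w hw k0 ↔ IsSer ι k0 e := Iff.rfl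

lemma oR_nonneg (a : PowerSeries κ) : 0 ≤ oR a := by
  unfold oR
  obtain ⟨t, ht⟩ : ∃ t : WithTop ℕ, t = a.order := ⟨_, rfl⟩
  rw [← ht]
  induction t using WithTop.recTopCoe with
  | top => exact le_top
  | coe n =>
    rw [WithTop.map_coe]
    exact_mod_cast Nat.cast_nonneg n

include hw

lemma w_iota_nonneg (a : PowerSeries κ) : 0 ≤ w (ι a) := by
  rw [hw]
  exact oR_nonneg a

lemma w_X : w (ι PowerSeries.X) = ((1 : ℝ) : WithTop ℝ) := by
  rw [hw, oR, PowerSeries.order_X]
  have : WithTop.map (fun n : ℕ => (n : ℝ)) (WithTop.some 1) = ((1 : ℝ) : WithTop ℝ) := by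
    rw [WithTop.map_coe]
    simp
  exact this

lemma iota_X_ne : ι PowerSeries.X ≠ 0 := by
  intro h
  have h1 := w_X ι w hw
  rw [h, w.map_zero] at h1
  exact WithTop.top_ne_coe h1

lemma w_zpow (m : ℤ) : w (ι PowerSeries.X ^ m) = ((m : ℝ) : WithTop ℝ) := by
  have hX := iota_X_ne ι w hw
  have h0 : ∀ n : ℕ, w (ι PowerSeries.X ^ n) = ((n : ℝ) : WithTop ℝ) := by
    intro n
    rw [w.map_pow, w_X ι w hw, ← WithTop.coe_nsmul]
    simp
  cases m with
  | ofNat n =>
    rw [Int.ofNat_eq_natCast, zpow_natCast, h0]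
    simp
  | negSucc n =>
    rw [zpow_negSucc]
    have h1 : w ((ι PowerSeries.X ^ (n + 1))⁻¹) + w (ι PowerSeries.X ^ (n + 1)) = 0 := by
      rw [← w.map_mul, inv_mul_cancel₀ (pow_ne_zero _ hX), w.map_one]
    rw [h0] at h1
    generalize w ((ι PowerSeries.X ^ (n + 1))⁻¹) = t at h1 ⊢
    induction t using WithTop.recTopCoe with
    | top => simp at h1
    | coe x =>
      rw [← WithTop.coe_add, ← WithTop.coe_zero, WithTop.coe_inj] at h1
      rw [WithTop.coe_inj]
      push_cast at h1 ⊢
      linarith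

lemma w_natCast [CharZero κ] {n : ℕ} (hn : n ≠ 0) : w (n : E) = 0 := by
  have h1 : (n : E) * ι (PowerSeries.C ((n : κ)⁻¹)) = 1 := by
    have e1 : (n : E) = ι (PowerSeries.C (n : κ)) := by simp
    rw [e1, ← map_mul, ← map_mul, mul_inv_cancel₀ (Nat.cast_ne_zero.2 hn), map_one, map_one]
  have h2 : 0 ≤ w (n : E) := by
    have e1 : (n : E) = ι (n : PowerSeries κ) := by simp
    rw [e1]
    exact w_iota_nonneg ι w hw _
  have h3 : w (n : E) + w (ι (PowerSeries.C ((n : κ)⁻¹))) = 0 := by
    rw [← w.map_mul, h1, w.map_one]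
  exact ((add_eq_zero_iff_of_nonneg h2 (w_iota_nonneg ι w hw _)).1 h3).1

end

section

variable {E : Type} [Field E] (w : AddValuation E (WithTop ℝ))

/-- the valuation ring -/
def vR : Subring E where
  carrier := {e | 0 ≤ w e}
  mul_mem' := by
    intro a b ha hb
    simp only [Set.mem_ofPred_eq] at *
    rw [w.map_mul]
    exact add_nonneg ha hb
  one_mem' := by
    simp only [Set.mem_ofPred_eq]
    rw [w.map_one]
  add_mem' := by
    intro a b ha hb
    simp only [Set.mem_ofPred_eq] at *
    exact le_trans (le_min ha hb) (w.map_add a b)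
  zero_mem' := by
    simp only [Set.mem_ofPred_eq]
    rw [w.map_zero]
    exact le_top
  neg_mem' := by
    intro a ha
    simp only [Set.mem_ofPred_eq] at *
    rwa [w.map_neg]

lemma mem_vR {e : E} : e ∈ vR w ↔ 0 ≤ w e := Iff.rfl

lemma prod_coeff {s : Multiset E} (hs : ∀ a ∈ s, 0 ≤ w a) (n : ℕ) :
    0 ≤ w ((s.map fun a => X - C a).prod.coeff n) := by
  have h1 : (s.map fun a => X - C a).prod ∈ Polynomial.lifts (vR w).subtype := by
    apply Subsemiring.multiset_prod_mem
    intro p hp
    obtain ⟨a, ha, rfl⟩ := Multiset.mem_map.1 hp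
    refine ⟨X - C ⟨a, hs a ha⟩, ?_⟩
    simp
  rw [Polynomial.lifts_iff_coeff_lifts] at h1
  obtain ⟨x, hx⟩ := h1 n
  rw [← hx]
  exact x.2

lemma sum_ge {s : Multiset E} {g : WithTop ℝ} (hs : ∀ a ∈ s, g ≤ w a) : g ≤ w s.sum := by
  induction s using Multiset.induction with
  | empty =>
    rw [Multiset.sum_zero, w.map_zero]
    exact le_top
  | cons a s ih =>
    rw [Multiset.sum_cons]
    exact le_trans (le_min (hs a (Multiset.mem_cons_self a s))
      (ih fun b hb => hs b (Multiset.mem_cons_of_mem hb))) (w.map_add _ _)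

end

/-- shifting and scaling the roots -/
lemma scale {E : Type} [Field E] (F0 : Subfield E) {P : Polynomial E}
    (hc : ∀ n, P.coeff n ∈ F0) (hP : P = (P.roots.map fun a => X - C a).prod)
    {r u ui : E} (hr : r ∈ F0) (hu : u ∈ F0) (hui : ui ∈ F0) (huu : u * ui = 1) (n : ℕ) :
    ((P.roots.map fun a => X - C ((a - r) * u)).prod).coeff n ∈ F0 := by
  have h1 : P.comp (C ui * X + C r) =
      C (ui ^ Multiset.card P.roots) * (P.roots.map fun a => X - C ((a - r) * u)).prod := by
    conv_lhs => rw [hP]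
    generalize P.roots = s
    induction s using Multiset.induction with
    | empty => simp
    | cons a s ih =>
      rw [Multiset.map_cons, Multiset.prod_cons, mul_comp, ih, Multiset.map_cons,
        Multiset.prod_cons, Multiset.card_cons, pow_succ, C_mul, sub_comp, X_comp, C_comp]
      have e1 : C ui * X + C r - C a = C ui * (X - C ((a - r) * u)) := by
        have e2 : C ui * C ((a - r) * u) = C (a - r) := by
          rw [← C_mul]
          congr 1
          linear_combination (a - r) * huu
        rw [mul_sub, e2, C_sub]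
        ring
      rw [e1]
      ring
  have h2 : (P.roots.map fun a => X - C ((a - r) * u)).prod =
      C (u ^ Multiset.card P.roots) * P.comp (C ui * X + C r) := by
    rw [h1, ← mul_assoc, ← C_mul, ← mul_pow, huu, one_pow, C_1, one_mul]
  have h3 : P ∈ Polynomial.lifts F0.subtype := by
    rw [Polynomial.lifts_iff_coeff_lifts]
    intro n
    exact ⟨⟨_, hc n⟩, rfl⟩
  obtain ⟨P', hP'⟩ := h3
  have h4 : C (u ^ Multiset.card P.roots) * P.comp (C ui * X + C r) =
      (C ((⟨u, hu⟩ : F0) ^ Multiset.card P.roots) *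
        P'.comp (C ⟨ui, hui⟩ * X + C ⟨r, hr⟩)).map F0.subtype := by
    rw [Polynomial.map_mul, Polynomial.map_comp, Polynomial.map_add, Polynomial.map_mul,
      map_C, map_C, map_C, map_X]
    have : P'.map F0.subtype = P := hP'
    rw [this]
    simp
  rw [h2, h4, coeff_map]
  exact Subtype.property _

/-- the reduction step -/
lemma red {κ E : Type} [Field κ] [Field E]
    (ι : PowerSeries κ →+* E) (w : AddValuation E (WithTop ℝ)) (hw : ∀ a, w (ι a) = oR a)
    (k0 : Subfield κ) {S : Polynomial E} (hS : S.Monic)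
    (hc : ∀ n, IsSer ι k0 (S.coeff n)) (h0 : ∀ n, 0 ≤ w (S.coeff n)) :
    ∃ S' : Polynomial (PowerSeries k0), S'.Monic ∧ S'.natDegree = S.natDegree ∧
      S'.map (ι.comp (PowerSeries.map k0.subtype)) = S := by
  have h1 : S ∈ Polynomial.lifts (ι.comp (PowerSeries.map k0.subtype)) := by
    rw [Polynomial.lifts_iff_coeff_lifts]
    intro n
    obtain ⟨b, hb, hb2⟩ := isSer_nonneg ι w hw k0 (hc n) (h0 n)
    refine ⟨PowerSeries.mk fun m => ⟨b.coeff m, hb m⟩, ?_⟩
    rw [hb2, RingHom.comp_apply]
    congr 1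
    ext m
    rw [PowerSeries.coeff_map, PowerSeries.coeff_mk]
    rfl
  obtain ⟨S', hS1, hS2, hS3⟩ := Polynomial.lifts_and_natDegree_eq_and_monic h1 hS
  exact ⟨S', hS3, hS2, hS1⟩

lemma w_const_pos {κ E : Type} [Field κ] [Field E]
    (ι : PowerSeries κ →+* E) (w : AddValuation E (WithTop ℝ)) (hw : ∀ a, w (ι a) = oR a)
    (k0 : Subfield κ) (b : PowerSeries k0) (hb : PowerSeries.constantCoeff b = 0) :
    0 < w (ι.comp (PowerSeries.map k0.subtype) b) := by
  rw [← PowerSeries.X_dvd_iff] at hb
  obtain ⟨b', rfl⟩ := hb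
  rw [map_mul, w.map_mul, RingHom.comp_apply, PowerSeries.map_X, w_X ι w hw]
  have h1 : 0 ≤ w (ι.comp (PowerSeries.map k0.subtype) b') := w_iota_nonneg ι w hw _
  calc (0 : WithTop ℝ) < ((1 : ℝ) : WithTop ℝ) := by exact_mod_cast one_pos
    _ = ((1 : ℝ) : WithTop ℝ) + 0 := by rw [add_zero]
    _ ≤ _ := by gcongr

/-- if the reduction is a power of a linear form all roots are congruent -/
lemma all_cong {κ E : Type} [Field κ] [Field E]
    (ι : PowerSeries κ →+* E) (w : AddValuation E (WithTop ℝ)) (hw : ∀ a, w (ι a) = oR a)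
    (k0 : Subfield κ) {S' : Polynomial (PowerSeries k0)} {c : k0} {n : ℕ}
    (hred : S'.map PowerSeries.constantCoeff = (X - C c) ^ n) {z : E} (hz : 0 ≤ w z)
    (hr : (S'.map (ι.comp (PowerSeries.map k0.subtype))).eval z = 0) :
    0 < w (z - ι.comp (PowerSeries.map k0.subtype) (PowerSeries.C c)) := by
  set ι0 := ι.comp (PowerSeries.map k0.subtype) with hι0
  obtain ⟨D, hD⟩ : ∃ D, D = S' - (X - C (PowerSeries.C c)) ^ n := ⟨_, rfl⟩
  have hD0 : ∀ m, PowerSeries.constantCoeff (D.coeff m) = 0 := by
    intro m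
    have h1 : D.map PowerSeries.constantCoeff = 0 := by
      rw [hD, Polynomial.map_sub, hred, Polynomial.map_pow, Polynomial.map_sub, map_X, map_C]
      simp
    rw [← coeff_map, h1, coeff_zero]
  have hDz : (D.map ι0).eval z = -(z - ι0 (PowerSeries.C c)) ^ n := by
    rw [hD, Polynomial.map_sub, eval_sub, hr, Polynomial.map_pow, Polynomial.map_sub, map_X, map_C]
    simp
  have hpos : 0 < w ((D.map ι0).eval z) := by
    rw [eval_map, eval₂_eq_sum_range]
    apply w.map_lt_sum (by simp)
    intro m _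
    rw [w.map_mul, w.map_pow]
    have h1 := w_const_pos ι w hw k0 _ (hD0 m)
    exact lt_of_lt_of_le h1 (le_add_of_nonneg_right (nsmul_nonneg hz m))
  rw [hDz, w.map_neg, w.map_pow] at hpos
  by_contra hcon
  push Not at hcon
  exact absurd hpos (not_lt.2 (nsmul_nonpos hcon n))

theorem split_lemma_pr {κ E : Type} [Field κ] [CharZero κ] [Field E] [IsAlgClosed E]
    (ι : PowerSeries κ →+* E) (w : AddValuation E (WithTop ℝ)) (hw : ∀ a, w (ι a) = oR a)
    (k0 : Subfield κ) (hk0 : IsAlgClosed k0) (P : Polynomial E) (hP : P.Monic)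
    (hc : ∀ n, IsSer ι k0 (P.coeff n))
    (hint : ∀ a ∈ P.roots, ∀ b ∈ P.roots, a ≠ b → ∃ m : ℤ, w (a - b) = ((m : ℝ) : WithTop ℝ)) :
    ∀ a ∈ P.roots, IsSer ι k0 a := by
  induction hn : P.natDegree using Nat.strong_induction_on generalizing P with
  | _ n IH =>
  have hE : CharZero E := charZero_of_injective_ringHom
    (f := ι.comp PowerSeries.C) (RingHom.injective _)
  have hsp := IsAlgClosed.splits P
  have hcard : Multiset.card P.roots = n := by
    rw [← hn]
    exact hsp.natDegree_eq_card_roots.symm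
  have hprod : P = (P.roots.map fun a => X - C a).prod := by
    exact hsp.eq_prod_roots_of_monic hP
  intro a ha
  have hn0 : n ≠ 0 := by
    rintro rfl
    rw [Multiset.card_eq_zero] at hcard
    rw [hcard] at ha
    simp at ha
  have hnE : (n : E) ≠ 0 := Nat.cast_ne_zero.2 hn0
  -- the mean
  have hsum : P.roots.sum ∈ serF ι w hw k0 := by
    have h1 : P.nextCoeff = -P.roots.sum := by
      exact hsp.nextCoeff_eq_neg_sum_roots_of_monic hP
    have h2 : P.roots.sum = -P.nextCoeff := by rw [h1, neg_neg]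
    rw [h2]
    apply neg_mem
    rw [nextCoeff, if_neg (by rw [hn]; exact hn0)]
    exact hc _
  obtain ⟨r, hr⟩ : ∃ r : E, r = P.roots.sum / n := ⟨_, rfl⟩
  have hrF : r ∈ serF ι w hw k0 := by
    rw [hr]
    exact div_mem hsum (natCast_mem _ n)
  have hnr : ∀ a : E, (n : E) * (a - r) = (P.roots.map fun b => a - b).sum := by
    intro a
    rw [Multiset.sum_map_sub, Multiset.map_const', Multiset.sum_replicate, hcard, Multiset.map_id',
      hr, nsmul_eq_mul]
    field_simp
  by_cases hall : ∀ a ∈ P.roots, ∀ b ∈ P.roots, a = b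
  · -- all roots equal
    have h1 : (n : E) * (a - r) = 0 := by
      rw [hnr]
      apply Multiset.sum_eq_zero
      intro x hx
      obtain ⟨b, hb, rfl⟩ := Multiset.mem_map.1 hx
      rw [hall a ha b hb, sub_self]
    have h2 : a = r := by
      rcases mul_eq_zero.1 h1 with h | h
      · exact absurd h hnE
      · exact sub_eq_zero.1 h
    rw [h2]
    exact hrF
  · push Not at hall
    obtain ⟨x1, hx1, x2, hx2, hx12⟩ := hall
    classical
    obtain ⟨⟨a0, b0⟩, hab, hmin⟩ := Finset.exists_min_image
      (P.roots.toFinset ×ˢ P.roots.toFinset) (fun q => w (q.1 - q.2))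
      ⟨(x1, x2), by simp only [Finset.mem_product, Multiset.mem_toFinset]; exact ⟨hx1, hx2⟩⟩
    simp only [Finset.mem_product, Multiset.mem_toFinset] at hab
    have hmin' : ∀ a ∈ P.roots, ∀ b ∈ P.roots, w (a0 - b0) ≤ w (a - b) := by
      intro a ha b hb
      exact hmin (a, b) (by simp only [Finset.mem_product, Multiset.mem_toFinset]; exact ⟨ha, hb⟩)
    have hab0 : a0 ≠ b0 := by
      rintro rfl
      have h1 := hmin' x1 hx1 x2 hx2
      rw [sub_self, w.map_zero, top_le_iff, w.top_iff] at h1
      exact hx12 (sub_eq_zero.1 h1)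
    obtain ⟨m0, hm0⟩ := hint a0 hab.1 b0 hab.2 hab0
    have hge : ∀ a ∈ P.roots, ((m0 : ℝ) : WithTop ℝ) ≤ w (a - r) := by
      intro a ha
      have h1 : w ((n : E) * (a - r)) = w (a - r) := by
        rw [w.map_mul, w_natCast ι w hw hn0, zero_add]
      rw [← h1, hnr]
      apply sum_ge
      intro x hx
      obtain ⟨b, hb, rfl⟩ := Multiset.mem_map.1 hx
      rw [← hm0]
      exact hmin' a ha b hb
    have hX := iota_X_ne ι w hw
    obtain ⟨u, hu⟩ : ∃ u : E, u = ι PowerSeries.X ^ (-m0) := ⟨_, rfl⟩
    obtain ⟨ui, hui⟩ : ∃ ui : E, ui = ι PowerSeries.X ^ m0 := ⟨_, rfl⟩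
    have huu : u * ui = 1 := by
      rw [hu, hui, ← zpow_add₀ hX, neg_add_cancel, zpow_zero]
    have hXF : ι PowerSeries.X ∈ serF ι w hw k0 := by
      apply isSer_iota ι w hw k0
      intro n
      rw [PowerSeries.coeff_X]
      split_ifs
      exacts [one_mem _, zero_mem _]
    have huF : u ∈ serF ι w hw k0 := by rw [hu]; exact zpow_mem hXF _
    have huiF : ui ∈ serF ι w hw k0 := by rw [hui]; exact zpow_mem hXF _
    have hwu : w u = (((-m0 : ℤ) : ℝ) : WithTop ℝ) := by rw [hu]; exact w_zpow ι w hw _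
    have hu0 : u ≠ 0 := by
      intro h
      rw [h, zero_mul] at huu
      exact zero_ne_one huu
    obtain ⟨S, hS⟩ : ∃ S : Polynomial E,
      S = (P.roots.map fun a => X - C ((a - r) * u)).prod := ⟨_, rfl⟩
    have hS' : S = ((P.roots.map fun a => (a - r) * u).map fun z => X - C z).prod := by
      rw [hS, Multiset.map_map]
      rfl
    have hSm : S.Monic := by
      rw [hS']
      exact monic_multisetProd_X_sub_C _
    have hSr : S.roots = P.roots.map fun a => (a - r) * u := by
      rw [hS']
      exact roots_multiset_prod_X_sub_C _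
    have hSd : S.natDegree = n := by
      rw [(IsAlgClosed.splits S).natDegree_eq_card_roots, hSr, Multiset.card_map, hcard]
    have hSc : ∀ m, IsSer ι k0 (S.coeff m) := by
      intro m
      rw [hS]
      exact scale (serF ι w hw k0) hc hprod hrF huF huiF huu m
    have hzw : ∀ a ∈ P.roots, 0 ≤ w ((a - r) * u) := by
      intro a ha
      rw [w.map_mul, hwu]
      calc (0 : WithTop ℝ) = ((m0 : ℝ) : WithTop ℝ) + (((-m0 : ℤ) : ℝ) : WithTop ℝ) := by
            rw [← WithTop.coe_add]
            push_cast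
            simp
        _ ≤ _ := by
            gcongr
            exact hge a ha
    have hSw : ∀ m, 0 ≤ w (S.coeff m) := by
      intro m
      rw [hS']
      apply prod_coeff
      intro z hz
      obtain ⟨a, ha, rfl⟩ := Multiset.mem_map.1 hz
      exact hzw a ha
    obtain ⟨T, hTm, hTd, hT⟩ := red ι w hw k0 hSm hSc hSw
    obtain ⟨ι0, hι0⟩ : ∃ ι0 : PowerSeries k0 →+* E, ι0 = ι.comp (PowerSeries.map k0.subtype) :=
      ⟨_, rfl⟩
    rw [← hι0] at hT
    -- reduction
    obtain ⟨Q, hQ⟩ : ∃ Q : Polynomial k0, Q = T.map PowerSeries.constantCoeff := ⟨_, rfl⟩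
    have hQm : Q.Monic := by rw [hQ]; exact hTm.map _
    have hQd : Q.natDegree = n := by rw [hQ, hTm.natDegree_map, hTd, hSd]
    obtain ⟨c, hcr⟩ := IsAlgClosed.exists_root Q (by
      rw [degree_eq_natDegree hQm.ne_zero, hQd]
      exact_mod_cast hn0)
    obtain ⟨h0, hh0, hh1⟩ := exists_eq_pow_rootMultiplicity_mul_and_not_dvd Q hQm.ne_zero c
    obtain ⟨m, hm⟩ : ∃ m : ℕ, m = rootMultiplicity c Q := ⟨_, rfl⟩
    rw [← hm] at hh0
    have hm1 : 0 < m := by rw [hm]; exact (rootMultiplicity_pos hQm.ne_zero).2 hcr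
    have hg0m : ((X - C c) ^ m).Monic := (monic_X_sub_C c).pow m
    have hh0m : h0.Monic := by
      apply hg0m.of_mul_monic_left
      rw [← hh0]
      exact hQm
    have hdeg : m + h0.natDegree = n := by
      rw [← hQd, hh0, hg0m.natDegree_mul hh0m, natDegree_pow, natDegree_X_sub_C, mul_one]
    have hco : IsCoprime ((X - C c) ^ m) h0 := by
      apply IsCoprime.pow_left
      exact ((irreducible_X_sub_C c).coprime_iff_not_dvd).2 hh1
    by_cases hd0 : h0.natDegree = 0
    · -- impossible
      exfalso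
      have h1 : h0 = 1 := Polynomial.eq_one_of_monic_natDegree_zero hh0m hd0
      rw [h1, mul_one] at hh0
      have hcg : ∀ a ∈ P.roots, 0 < w ((a - r) * u - ι0 (PowerSeries.C c)) := by
        intro a ha
        rw [hι0]
        apply all_cong ι w hw k0 (S' := T) (n := m)
        · rw [← hQ, hh0]
        · exact hzw a ha
        · rw [← hι0, hT]
          have h2 : (a - r) * u ∈ S.roots := by
            rw [hSr]
            exact Multiset.mem_map_of_mem _ ha
          exact (mem_roots hSm.ne_zero).1 h2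
      have h2 : w (a0 * u - b0 * u) = 0 := by
        rw [← sub_mul, w.map_mul, hm0, hwu, ← WithTop.coe_add]
        push_cast
        simp
      have h3 : a0 * u - b0 * u = ((a0 - r) * u - ι0 (PowerSeries.C c)) -
          ((b0 - r) * u - ι0 (PowerSeries.C c)) := by ring
      have h4 : 0 < w (a0 * u - b0 * u) := by
        rw [h3]
        exact lt_of_lt_of_le (lt_min (hcg a0 hab.1) (hcg b0 hab.2)) (w.map_sub _ _)
      exact absurd h2 h4.ne'
    · obtain ⟨g, h, hgm, hhm, hgh, hgr, hhr⟩ := hensel_factor T hTm _ h0 hg0m hh0m hco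
        (by rw [← hQ]; exact hh0)
      have hgd : g.natDegree = m := by
        rw [← hgm.natDegree_map PowerSeries.constantCoeff, hgr, natDegree_pow, natDegree_X_sub_C,
          mul_one]
      have hhd : h.natDegree = h0.natDegree := by
        rw [← hhm.natDegree_map PowerSeries.constantCoeff, hhr]
      have hSgh : S = g.map ι0 * h.map ι0 := by
        rw [← hT, hgh, Polynomial.map_mul]
      have hSr2 : S.roots = (g.map ι0).roots + (h.map ι0).roots := by
        rw [hSgh]
        apply roots_mul
        rw [← hSgh]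
        exact hSm.ne_zero
      have hser : ∀ b : PowerSeries k0, IsSer ι k0 (ι0 b) := by
        intro b
        rw [hι0, RingHom.comp_apply]
        apply isSer_iota ι w hw k0
        intro n
        rw [PowerSeries.coeff_map]
        exact Subtype.property _
      have hintS : ∀ a ∈ S.roots, ∀ b ∈ S.roots, a ≠ b →
          ∃ m : ℤ, w (a - b) = ((m : ℝ) : WithTop ℝ) := by
        intro a ha b hb hab
        rw [hSr] at ha hb
        obtain ⟨a', ha', rfl⟩ := Multiset.mem_map.1 ha
        obtain ⟨b', hb', rfl⟩ := Multiset.mem_map.1 hb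
        have hne : a' ≠ b' := by
          rintro rfl
          exact hab rfl
        obtain ⟨m1, hm1⟩ := hint a' ha' b' hb' hne
        refine ⟨m1 - m0, ?_⟩
        have e1 : (a' - r) * u - (b' - r) * u = (a' - b') * u := by ring
        rw [e1, w.map_mul, hm1, hwu, ← WithTop.coe_add]
        push_cast
        rfl
      have hz : (a - r) * u ∈ S.roots := by
        rw [hSr]
        exact Multiset.mem_map_of_mem _ ha
      have hzF : (a - r) * u ∈ serF ι w hw k0 := by
        rw [hSr2, Multiset.mem_add] at hz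
        rcases hz with hz | hz
        · apply IH m (by omega) (g.map ι0) (hgm.map _)
          · intro j
            rw [coeff_map]
            exact hser _
          · intro x hx y hy hxy
            exact hintS x (by rw [hSr2, Multiset.mem_add]; exact Or.inl hx) y
              (by rw [hSr2, Multiset.mem_add]; exact Or.inl hy) hxy
          · rw [hgm.natDegree_map, hgd]
          · exact hz
        · apply IH h0.natDegree (by omega) (h.map ι0) (hhm.map _)
          · intro j
            rw [coeff_map]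
            exact hser _
          · intro x hx y hy hxy
            exact hintS x (by rw [hSr2, Multiset.mem_add]; exact Or.inr hx) y
              (by rw [hSr2, Multiset.mem_add]; exact Or.inr hy) hxy
          · rw [hhm.natDegree_map, hhd]
          · exact hz
      have e1 : a = (a - r) * u * ui + r := by
        linear_combination (-(a - r)) * huu
      rw [e1]
      exact add_mem (mul_mem hzF huiF) hrF

end Pool.Agent.OPT.L6

namespace Pool.Agent.OPT

alias split_lemma := L6.split_lemma_pr

end Pool.Agent.OPT
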