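import Pool.Agent.Lib_helper80.OPF.Defs
import Pool.Agent.Lib_helper80.OPF.L2
import Pool.Agent.Lib_helper80.OPF.L6

/-!
# OPN, block L9b: matching values and series on an algebraic extension
-/

namespace Pool.Agent.OPT.L9b

open MvPolynomial Pool.Agent.KSS Pool.Agent.KSX Pool.Agent.OPT

theorem l9b_zero {κ E : Type} [Field κ] [Field E] (ι : PowerSeries κ →+* E) (k0 : Subfield κ) :
    IsSer ι k0 (0 : E) :=
  ⟨0, 0, fun n => by rw [map_zero]; exact k0.zero_mem, by rw [mul_zero, map_zero]⟩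

theorem ext_ser_pr {K B Ω : Type} [Field K] [CharZero K] [Field B] [Algebra K B] [Field Ω]
    [IsAlgClosed Ω] [Algebra B Ω] [Algebra.IsAlgebraic B Ω]
    (v : AddValuation Ω (WithTop ℝ))
    (hv : ∀ c : K, c ≠ 0 → v (algebraMap B Ω (algebraMap K B c)) = 0)
    (S : Finset Ω) (hS : ∀ s ∈ S, s ≠ 0) :
    ∃ (C Q : Finset B) (Φ Ψ : Finset ℝ), (∀ c ∈ C, c ≠ 0) ∧ (∀ φ ∈ Φ, 0 < φ) ∧
      ∀ h : ℝ →ₗ[ℚ] ℚ, (∀ φ ∈ Φ, 0 < h φ) → (∀ ψ ∈ Ψ, ∃ m : ℤ, h ψ = m) →
      ∀ (κ E : Type) [Field κ] [CharZero κ] [Field E] [IsAlgClosed E] (ι : PowerSeries κ →+* E)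
        (w : AddValuation E (WithTop ℝ)) (_ : ∀ a, w (ι a) = oR a)
        (k0 : Subfield κ) (_ : IsAlgClosed k0) (θ0 : B →+* E),
        (∀ c : K, c ≠ 0 → w (θ0 (algebraMap K B c)) = 0) →
        (∀ c ∈ C, VM v w h (algebraMap B Ω c) (θ0 c)) →
        (∀ q ∈ Q, IsSer ι k0 (θ0 q)) →
        ∃ θ : Ω →+* E, (∀ b, θ (algebraMap B Ω b) = θ0 b) ∧
          ∀ s ∈ S, VM v w h s (θ s) ∧ IsSer ι k0 (θ s) := by
  classical
  set R : Ω → Finset Ω := fun s => ((minpoly B s).map (algebraMap B Ω)).roots.toFinset with hR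
  set D : Finset Ω := S.biUnion (fun s => ((R s) ×ˢ (R s)).image (fun p => p.1 - p.2)) with hD
  set S2 : Finset Ω := (S ∪ D).filter (fun d => d ≠ 0) with hS2
  obtain ⟨C, Φ, hC, hΦ, hmain⟩ := ext_match v hv S2 (fun s hs => (Finset.mem_filter.1 hs).2)
  set Q : Finset B := S.biUnion (fun s => (Finset.range ((minpoly B s).natDegree + 1)).image
    (fun n => (minpoly B s).coeff n)) with hQ
  set Ψ : Finset ℝ := S2.image (fun d => (v d).untopD 0) with hΨ
  refine ⟨C, Q, Φ, Ψ, hC, hΦ, ?_⟩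
  intro h hhΦ hhΨ κ E _ _ _ _ ι w hw k0 hk0 θ0 hθ0 hVM hser
  obtain ⟨θ, hθ, hθS⟩ := hmain h hhΦ E w θ0 hθ0 hVM
  refine ⟨θ, hθ, ?_⟩
  intro s hs
  have hsS2 : s ∈ S2 := by
    rw [hS2, Finset.mem_filter, Finset.mem_union]
    exact ⟨Or.inl hs, hS s hs⟩
  refine ⟨hθS s hsS2, ?_⟩
  have hint : IsIntegral B s := Algebra.IsIntegral.isIntegral s
  have hmon : (minpoly B s).Monic := minpoly.monic hint
  set P : Polynomial E := (minpoly B s).map θ0 with hP
  have hPm : P.Monic := hmon.map θ0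
  have hcomp : θ.comp (algebraMap B Ω) = θ0 := RingHom.ext hθ
  have hPeq : P = ((minpoly B s).map (algebraMap B Ω)).map θ := by
    rw [Polynomial.map_map, hcomp]
  have hroots : P.roots = ((minpoly B s).map (algebraMap B Ω)).roots.map θ := by
    rw [hPeq]
    exact Polynomial.Splits.roots_map (IsAlgClosed.splits _) θ
  refine split_lemma ι w hw k0 hk0 P hPm ?_ ?_ (θ s) ?_
  · intro n
    rw [hP, Polynomial.coeff_map]
    by_cases hn : n ≤ (minpoly B s).natDegree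
    · apply hser
      rw [hQ, Finset.mem_biUnion]
      exact ⟨s, hs, Finset.mem_image.2 ⟨n, Finset.mem_range.2 (by omega), rfl⟩⟩
    · rw [Polynomial.coeff_eq_zero_of_natDegree_lt (by omega), map_zero]
      exact l9b_zero ι k0
  · intro a ha b hb hab
    rw [hroots, Multiset.mem_map] at ha hb
    obtain ⟨a', ha', rfl⟩ := ha
    obtain ⟨b', hb', rfl⟩ := hb
    have hne : a' - b' ≠ 0 := by
      intro h0
      exact hab (by rw [sub_eq_zero.1 h0])
    have hdS2 : a' - b' ∈ S2 := by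
      rw [hS2, Finset.mem_filter, Finset.mem_union]
      refine ⟨Or.inr ?_, hne⟩
      rw [hD, Finset.mem_biUnion]
      refine ⟨s, hs, Finset.mem_image.2 ⟨(a', b'), ?_, rfl⟩⟩
      rw [Finset.mem_product]
      exact ⟨Multiset.mem_toFinset.2 ha', Multiset.mem_toFinset.2 hb'⟩
    obtain ⟨g, hg1, hg2⟩ := hθS _ hdS2
    have hgΨ : g ∈ Ψ := by
      rw [hΨ, Finset.mem_image]
      refine ⟨a' - b', hdS2, ?_⟩
      rw [hg1]
      rfl
    obtain ⟨m, hm⟩ := hhΨ g hgΨ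
    refine ⟨m, ?_⟩
    rw [← map_sub, hg2, hm]
    push_cast
    rfl
  · rw [hroots, Multiset.mem_map]
    refine ⟨s, ?_, rfl⟩
    rw [Polynomial.mem_roots (hmon.map _).ne_zero, Polynomial.IsRoot.def, Polynomial.eval_map,
      ← Polynomial.aeval_def]
    exact minpoly.aeval B s


end Pool.Agent.OPT.L9b

namespace Pool.Agent.OPT

alias ext_ser := L9b.ext_ser_pr

end Pool.Agent.OPT
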