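import Pool.Agent.Lib_helper80.OPF.Defs
import Pool.Agent.Lib_helper80.OPF.L4

/-! # OPN, block L9c: Laurent series on a rational function field -/

namespace Pool.Agent.OPT.L9c

open Pool.Agent.OPT

section

variable {κ E : Type} [Field κ] [Field E] (ι : PowerSeries κ →+* E)
  (w : AddValuation E (WithTop ℝ)) (hw : ∀ a, w (ι a) = oR a) (k0 : Subfield κ)

include hw

theorem l9c_zero : IsSer ι k0 (0 : E) := by
  have h := isSer_iota ι w hw k0 (b := 0) (fun n => by simp [k0.zero_mem])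
  rwa [map_zero] at h

theorem l9c_one : IsSer ι k0 (1 : E) := by
  have h := isSer_iota ι w hw k0 (b := 1) (fun n => by
    rw [PowerSeries.coeff_one]
    split_ifs
    · exact k0.one_mem
    · exact k0.zero_mem)
  rwa [map_one] at h

theorem l9c_pow {a : E} (ha : IsSer ι k0 a) (n : ℕ) : IsSer ι k0 (a ^ n) := by
  induction n with
  | zero => rw [pow_zero]; exact l9c_one ι w hw k0
  | succ n ih => rw [pow_succ]; exact isSer_mul ι w hw k0 ih ha

theorem l9c_sum (s : Finset ℕ) (f : ℕ → E) (h : ∀ i ∈ s, IsSer ι k0 (f i)) :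
    IsSer ι k0 (∑ i ∈ s, f i) :=
  Finset.sum_induction f (IsSer ι k0) (fun _ _ ha hb => isSer_add ι w hw k0 ha hb)
    (l9c_zero ι w hw k0) h

theorem l9c_poly {F B : Type} [Field F] [Field B] [Algebra F B] (θ0 : B →+* E) (y : B)
    (hy : IsSer ι k0 (θ0 y)) (p : Polynomial F)
    (hp : ∀ c ∈ p.coeffs, IsSer ι k0 (θ0 (algebraMap F B c))) :
    IsSer ι k0 (θ0 (Polynomial.aeval y p)) := by
  rw [Polynomial.aeval_eq_sum_range, map_sum]
  refine l9c_sum ι w hw k0 _ _ fun i _ => ?_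
  rw [Algebra.smul_def, map_mul, map_pow]
  rcases eq_or_ne (p.coeff i) 0 with h0 | h0
  · rw [h0, map_zero, map_zero, zero_mul]
    exact l9c_zero ι w hw k0
  · exact isSer_mul ι w hw k0 (hp _ (Polynomial.coeff_mem_coeffs h0)) (l9c_pow ι w hw k0 hy i)

end

theorem rat_ser_pr {Ω' Ω : Type} [Field Ω'] [Field Ω] [Algebra Ω' Ω] (x : Ω)
    (Q : Finset (IntermediateField.adjoin Ω' {x})) :
    ∃ S' : Finset Ω', (∀ s ∈ S', s ≠ 0) ∧
      ∀ (κ E : Type) [Field κ] [Field E] (ι : PowerSeries κ →+* E)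
        (w : AddValuation E (WithTop ℝ)) (_ : ∀ a, w (ι a) = oR a)
        (k0 : Subfield κ) (θ0 : IntermediateField.adjoin Ω' {x} →+* E),
        (∀ s ∈ S', IsSer ι k0 (θ0 (algebraMap Ω' _ s))) →
        IsSer ι k0 (θ0 ⟨x, IntermediateField.mem_adjoin_simple_self Ω' x⟩) →
        ∀ q ∈ Q, IsSer ι k0 (θ0 q) := by
  classical
  have hrep : ∀ q : IntermediateField.adjoin Ω' {x}, ∃ r s : Polynomial Ω',
      q = Polynomial.aeval (⟨x, IntermediateField.mem_adjoin_simple_self Ω' x⟩ :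
        IntermediateField.adjoin Ω' {x}) r /
        Polynomial.aeval (⟨x, IntermediateField.mem_adjoin_simple_self Ω' x⟩ :
        IntermediateField.adjoin Ω' {x}) s := by
    intro q
    obtain ⟨r, s, h⟩ := (IntermediateField.mem_adjoin_simple_iff Ω' (q : Ω)).mp q.2
    refine ⟨r, s, Subtype.ext ?_⟩
    have e : ∀ t : Polynomial Ω', ((Polynomial.aeval
        (⟨x, IntermediateField.mem_adjoin_simple_self Ω' x⟩ :
        IntermediateField.adjoin Ω' {x}) t : IntermediateField.adjoin Ω' {x}) : Ω) =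
        Polynomial.aeval x t := fun t =>
      (Polynomial.aeval_algHom_apply (IntermediateField.adjoin Ω' {x}).val
        (⟨x, IntermediateField.mem_adjoin_simple_self Ω' x⟩ :
        IntermediateField.adjoin Ω' {x}) t).symm
    rw [IntermediateField.coe_div, e, e]
    exact h
  choose r s hrs using hrep
  refine ⟨Q.biUnion fun q => (r q).coeffs ∪ (s q).coeffs, fun c hc => ?_, ?_⟩
  · rw [Finset.mem_biUnion] at hc
    obtain ⟨q, -, hc⟩ := hc
    rw [Finset.mem_union] at hc
    rcases hc with hc | hc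
    all_goals
      obtain ⟨n, hn, rfl⟩ := Polynomial.mem_coeffs_iff.mp hc
      exact Polynomial.mem_support_iff.mp hn
  · intro κ E _ _ ι w hw k0 θ0 hS hx q hq
    rw [hrs q, map_div₀, div_eq_mul_inv]
    refine isSer_mul ι w hw k0 (l9c_poly ι w hw k0 θ0 _ hx (r q) fun c hc => hS c ?_)
      (isSer_inv ι w hw k0 (l9c_poly ι w hw k0 θ0 _ hx (s q) fun c hc => hS c ?_))
    · exact Finset.mem_biUnion.mpr ⟨q, hq, Finset.mem_union_left _ hc⟩
    · exact Finset.mem_biUnion.mpr ⟨q, hq, Finset.mem_union_right _ hc⟩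


end Pool.Agent.OPT.L9c

namespace Pool.Agent.OPT

alias rat_ser := L9c.rat_ser_pr

end Pool.Agent.OPT
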