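import Pool.Agent.Lib_helper80.OPF.Defs
import Pool.Agent.Lib_helper80.OPF.L0
import Pool.Agent.Lib_helper80.OPF.L3
import Pool.Agent.Lib_helper80.OPF.L4
import Pool.Agent.Lib_helper80.OPF.L7
import Pool.Agent.Lib_helper80.OPF.L9a
import Pool.Agent.Lib_helper80.OPF.L9b
import Pool.Agent.Lib_helper80.OPF.L9c

/-! # OPN, block L9: the induction -/

namespace Pool.Agent.OPT.L9

open MvPolynomial Pool.Agent.KSS Pool.Agent.KSX Pool.Agent.OPT

theorem not_mem_acl {K E ι : Type} [Field K] [Field E] [Algebra K E] {x : ι → E}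
    (hx : AlgebraicIndependent K x) {s : Set ι} {i : ι} (hi : i ∉ s) : x i ∉ acl K (x '' s) := by
  intro h
  rw [mem_acl, IntermediateField.isAlgebraic_adjoin_iff] at h
  exact hx.transcendental_adjoin hi h

theorem om_mono {K L : Type} [Field K] [Field L] [Algebra K L] {D : ℕ} (x : Fin D → L) {i j : ℕ}
    (h : i ≤ j) : Om K x i ≤ Om K x j := by
  refine acl_mono (Set.image_mono ?_)
  intro a ha
  exact lt_of_lt_of_le ha h

theorem kc_mono {K : Type} [Field K] {D : ℕ} (T : Target K D) {i j : ℕ} (h : i ≤ j) :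
    T.kc i ≤ T.kc j := by
  refine acl_mono ?_
  rintro _ ⟨a, r, ha, rfl⟩
  exact ⟨a, r, lt_of_lt_of_le ha h, rfl⟩

theorem eps_mem {K : Type} [Field K] {D : ℕ} (T : Target K D) (i : Fin D) (r : ℕ) {j : ℕ}
    (h : (i : ℕ) < j) : T.ε i r ∈ T.kc j := subset_acl _ ⟨i, r, h, rfl⟩

theorem eps_not_mem {K : Type} [Field K] {D : ℕ} (T : Target K D) (i : Fin D) (r : ℕ) {j : ℕ}
    (h : j ≤ (i : ℕ)) : T.ε i r ∉ T.kc j := by
  have h1 : {e | ∃ (i : Fin D) (r : ℕ), (i : ℕ) < j ∧ e = T.ε i r} =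
      (fun q : Fin D × ℕ => T.ε q.1 q.2) '' {q | (q.1 : ℕ) < j} := by
    ext e
    constructor
    · rintro ⟨i, r, h, rfl⟩
      exact ⟨(i, r), h, rfl⟩
    · rintro ⟨⟨i, r⟩, h, rfl⟩
      exact ⟨i, r, h, rfl⟩
  unfold Target.kc
  rw [h1]
  exact not_mem_acl T.ind (i := (i, r)) (by simpa using h)

theorem isSer_mono {κ E : Type} [Field κ] [Field E] {ι : PowerSeries κ →+* E} {k0 k1 : Subfield κ}
    (h : ∀ a ∈ k0, a ∈ k1) {e : E} (he : IsSer ι k0 e) : IsSer ι k1 e := by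
  obtain ⟨N, b, hb, h1⟩ := he
  exact ⟨N, b, fun n => h _ (hb n), h1⟩

theorem oR_X_pow {κ : Type} [Field κ] (m : ℕ) :
    oR ((PowerSeries.X : PowerSeries κ) ^ m) = ((m : ℝ) : WithTop ℝ) := by
  unfold oR
  rw [PowerSeries.order_X_pow]
  rfl

theorem oR_unit {κ : Type} [Field κ] {a : PowerSeries κ} (h : a.coeff 0 ≠ 0) :
    oR a = (0 : WithTop ℝ) := by
  have h1 : a.order = ((0 : ℕ) : ℕ∞) :=
    PowerSeries.order_eq_nat.mpr ⟨h, fun i hi => absurd hi (Nat.not_lt_zero _)⟩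
  unfold oR
  rw [h1]
  have h2 : WithTop.map (fun n : ℕ => (n : ℝ)) (((0 : ℕ) : ℕ∞) : WithTop ℕ) =
      ((((0 : ℕ) : ℝ)) : WithTop ℝ) := rfl
  rw [h2, Nat.cast_zero]
  rfl

theorem kc_alg {K : Type} [Field K] {D : ℕ} (T : Target K D) (j : ℕ) (c : K) :
    algebraMap K T.κ c ∈ (T.kc j).toSubfield := (T.kc j).algebraMap_mem c

theorem kc_closed {K : Type} [Field K] {D : ℕ} (T : Target K D) (j : ℕ) (a : T.κ)
    (ha : IsAlgebraic (T.kc j).toSubfield a) : a ∈ (T.kc j).toSubfield := by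
  have h : IsAlgebraic (T.kc j) a := ha
  exact acl_closed _ a h

theorem kc_isAlgClosed {K : Type} [Field K] {D : ℕ} (T : Target K D) (j : ℕ) :
    IsAlgClosed (T.kc j).toSubfield := by
  have h : IsAlgClosed (T.kc j) := acl_isAlgClosed _
  exact h

/-- the new term `t^m ∑ ε_r t^r` -/
theorem e_val {K : Type} [Field K] {D : ℕ} (T : Target K D) (i : Fin D) (m : ℕ) :
    T.w (T.ι (PowerSeries.X ^ m * PowerSeries.mk (T.ε i))) = ((m : ℝ) : WithTop ℝ) := by
  have h0 : T.ε i 0 ≠ 0 := by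
    intro h
    have h1 := eps_not_mem T i 0 (j := 0) (Nat.zero_le _)
    rw [h] at h1
    exact h1 (T.kc 0).zero_mem
  rw [map_mul, AddValuation.map_mul, T.hw, T.hw, oR_X_pow, oR_unit, add_zero]
  rw [PowerSeries.coeff_mk]
  exact h0

theorem e_ser {K : Type} [Field K] {D : ℕ} (T : Target K D) (i : Fin D) (m : ℕ) {j : ℕ}
    (h : (i : ℕ) < j) :
    IsSer T.ι (T.kc j).toSubfield (T.ι (PowerSeries.X ^ m * PowerSeries.mk (T.ε i))) := by
  refine isSer_iota T.ι T.w T.hw _ ?_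
  intro n
  rw [PowerSeries.coeff_X_pow_mul']
  split_ifs
  · rw [PowerSeries.coeff_mk]
    exact eps_mem T i _ h
  · exact (T.kc j).zero_mem

theorem c_val {K : Type} [Field K] {D : ℕ} (T : Target K D) {c : K} (hc : c ≠ 0) :
    T.w (T.ι (PowerSeries.C (algebraMap K T.κ c))) = 0 := by
  rw [T.hw, oR_unit]
  rw [PowerSeries.coeff_zero_C]
  exact (map_ne_zero _).mpr hc

theorem c_ser {K : Type} [Field K] {D : ℕ} (T : Target K D) (j : ℕ) (c : K) :
    IsSer T.ι (T.kc j).toSubfield (T.ι (PowerSeries.C (algebraMap K T.κ c))) := by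
  refine isSer_iota T.ι T.w T.hw _ ?_
  intro n
  rw [PowerSeries.coeff_C]
  split_ifs
  · exact kc_alg T j c
  · exact (T.kc j).zero_mem


/-- the conclusion of the induction -/
def Concl {K L : Type} [Field K] [Field L] [Algebra K L] (v : AddValuation L (WithTop ℝ))
    {D : ℕ} (x : Fin D → L) (j : ℕ) (S : Finset L) : Prop :=
    ∃ (Φ Ψ : Finset ℝ) (a : Fin D → L), (∀ φ ∈ Φ, 0 < φ) ∧
      (∀ i : Fin D, (i : ℕ) < j → a i ∈ Om K x i) ∧
      ∀ (T : Target K D) (h : ℝ →ₗ[ℚ] ℚ), (∀ φ ∈ Φ, 0 < h φ) →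
        (∀ ψ ∈ Ψ, ∃ m : ℤ, h ψ = m) →
        ∃ θ : Om K x j →+* T.E,
          (∀ c : K, θ (algebraMap K _ c) = T.ι (PowerSeries.C (algebraMap K T.κ c))) ∧
          (∀ (s : L) (hs : s ∈ Om K x j), s ∈ S →
            VM v T.w h s (θ ⟨s, hs⟩) ∧ IsSer T.ι (T.kc j).toSubfield (θ ⟨s, hs⟩)) ∧
          ∀ (i : Fin D) (_ : (i : ℕ) < j) (hi : x i ∈ Om K x j),
            ∃ (g : ℝ) (m : ℕ) (β : PowerSeries T.κ),
              v (x i - a i) = (g : WithTop ℝ) ∧ h g = m ∧ (∀ n, β.coeff n ∈ T.kc i) ∧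
              θ ⟨x i, hi⟩ = T.ι (β + PowerSeries.X ^ m * PowerSeries.mk (T.ε i))

theorem base {K L : Type} [Field K] [IsAlgClosed K] [Field L]
    [Algebra K L] (v : AddValuation L (WithTop ℝ))
    (hv : ∀ c : K, c ≠ 0 → v (algebraMap K L c) = 0) {D : ℕ} (x : Fin D → L)
    (S : Finset L) (hS : ∀ s ∈ S, s ∈ Om K x 0 ∧ s ≠ 0) : Concl (K := K) v x 0 S := by
  have h0 : Om K x 0 = ⊥ := by
    unfold Om
    have h1 : x '' {i : Fin D | (i : ℕ) < 0} = ∅ := by
      rw [Set.image_eq_empty, Set.eq_empty_iff_forall_notMem]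
      intro i hi
      exact absurd hi (Nat.not_lt_zero _)
    rw [h1, acl_empty]
  refine ⟨∅, ∅, fun _ => 0, by simp, fun i hi => absurd hi (Nat.not_lt_zero _), ?_⟩
  intro T h _ _
  let φ : Om K x 0 →ₐ[K] K :=
    (IntermediateField.botEquiv K L).toAlgHom.comp (IntermediateField.equivOfEq h0).toAlgHom
  let θ : Om K x 0 →+* T.E :=
    (T.ι.comp ((PowerSeries.C (R := T.κ)).comp (algebraMap K T.κ))).comp φ.toRingHom
  have hθ : ∀ c : K, θ (algebraMap K _ c) = T.ι (PowerSeries.C (algebraMap K T.κ c)) := by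
    intro c
    show T.ι (PowerSeries.C (algebraMap K T.κ (φ (algebraMap K _ c)))) = _
    rw [φ.commutes]
    rfl
  refine ⟨θ, hθ, ?_, fun i hi => absurd hi (Nat.not_lt_zero _)⟩
  intro s hs hsS
  have h1 : s ∈ (⊥ : IntermediateField K L) := by rw [← h0]; exact hs
  obtain ⟨c, hc⟩ := IntermediateField.mem_bot.mp h1
  have h2 : (⟨s, hs⟩ : Om K x 0) = algebraMap K _ c := Subtype.ext hc.symm
  have hc0 : c ≠ 0 := by
    rintro rfl
    exact (hS s hsS).2 (by rw [← hc, map_zero])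
  rw [h2, hθ c]
  refine ⟨⟨0, ?_, ?_⟩, c_ser T 0 c⟩
  · rw [← hc, hv c hc0]
    rfl
  · rw [c_val T hc0, map_zero]
    simp


set_option synthInstance.maxHeartbeats 400000 in
theorem step {K L : Type} [Field K] [CharZero K] [Field L] [IsAlgClosed L]
    [Algebra K L] (v : AddValuation L (WithTop ℝ))
    (hv : ∀ c : K, c ≠ 0 → v (algebraMap K L c) = 0) {D : ℕ} (x : Fin D → L)
    (hx : AlgebraicIndependent K x) (hx0 : ∀ i, 0 ≤ v (x i)) (j : ℕ) (hj : j + 1 ≤ D)
    (ih : ∀ S : Finset L, (∀ s ∈ S, s ∈ Om K x j ∧ s ≠ 0) → Concl (K := K) v x j S)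
    (S : Finset L) (hS : ∀ s ∈ S, s ∈ Om K x (j + 1) ∧ s ≠ 0) :
    Concl (K := K) v x (j + 1) S := by
  classical
  let i0 : Fin D := ⟨j, hj⟩
  have hac : IsAlgClosed (Om K x j) := acl_isAlgClosed _
  have hnm : x i0 ∉ Om K x j :=
    not_mem_acl hx (s := {i : Fin D | (i : ℕ) < j}) (i := i0) (by simp [i0])
  have htr : Transcendental (Om K x j) (x i0) := fun h => hnm (acl_closed _ _ h)
  let B := IntermediateField.adjoin (Om K x j) {x i0}
  have hxB : x i0 ∈ B := IntermediateField.mem_adjoin_simple_self _ _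
  let Ω := algebraicClosure B L
  have hΩc : IsAlgClosed Ω := by
    have h0 : IsAlgClosure B Ω := algebraicClosure.isAlgClosure B L
    exact h0.isAlgClosed
  have hle : ∀ s ∈ Om K x (j + 1), s ∈ Ω := by
    intro s hs
    rw [mem_algebraicClosure_iff]
    have h1 : IsAlgebraic (IntermediateField.adjoin K (x '' {i : Fin D | (i : ℕ) < j + 1})) s :=
      mem_acl.mp hs
    have h2 : IntermediateField.adjoin K (x '' {i : Fin D | (i : ℕ) < j + 1}) ≤
        B.restrictScalars K := by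
      rw [IntermediateField.adjoin_le_iff]
      rintro _ ⟨i, hi, rfl⟩
      by_cases h : (i : ℕ) < j
      · exact B.algebraMap_mem ⟨x i, subset_acl _ ⟨i, h, rfl⟩⟩
      · have h3 : i = i0 := by
          apply Fin.ext
          have h4 : (i : ℕ) < j + 1 := hi
          show (i : ℕ) = j
          omega
        rw [h3]
        exact hxB
    let φ : IntermediateField.adjoin K (x '' {i : Fin D | (i : ℕ) < j + 1}) →+* B :=
      (IntermediateField.inclusion h2).toRingHom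
    exact h1.ringHom_of_comp_eq φ (RingHom.id L) φ.injective rfl
  let v' : AddValuation Ω (WithTop ℝ) := v.comap (algebraMap Ω L)
  have hv' : ∀ c : K, c ≠ 0 → v' (algebraMap B Ω (algebraMap K B c)) = 0 := fun c hc => hv c hc
  let S1 : Finset Ω := S.attach.image fun s => (⟨s.1, hle s.1 (hS s.1 s.2).1⟩ : Ω)
  have hS1 : ∀ s ∈ S1, s ≠ 0 := by
    intro s hs
    obtain ⟨t, _, rfl⟩ := Finset.mem_image.mp hs
    intro h
    exact (hS t.1 t.2).2 (congrArg Subtype.val h)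
  obtain ⟨C, Q, Φ1, Ψ1, hC0, hΦ1, hext⟩ := ext_ser (K := K) (B := B) (Ω := Ω) v' hv' S1 hS1
  let C' : Finset L := C.image fun c : B => (c : L)
  have hC' : ∀ c ∈ C', c ≠ 0 ∧ c ∈ IntermediateField.adjoin (Om K x j) {x i0} := by
    intro c hc
    obtain ⟨b, hb, rfl⟩ := Finset.mem_image.mp hc
    exact ⟨fun h => hC0 b hb (Subtype.ext h), b.2⟩
  obtain ⟨a, S', Φ2, hS'0, hΦ2, hva, hrat⟩ := rat_match v (x i0) htr C' hC'
  obtain ⟨S3, hS30, hratser⟩ := rat_ser (Ω' := Om K x j) (Ω := L) (x i0) Q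
  let S'' : Finset L := (S' ∪ S3 ∪ (if a = 0 then ∅ else {a})).image fun s : Om K x j => (s : L)
  have hS'' : ∀ s ∈ S'', s ∈ Om K x j ∧ s ≠ 0 := by
    intro s hs
    obtain ⟨t, ht, rfl⟩ := Finset.mem_image.mp hs
    refine ⟨t.2, fun h => ?_⟩
    have h0 : t = 0 := Subtype.ext h
    rw [Finset.mem_union, Finset.mem_union] at ht
    rcases ht with (ht | ht) | ht
    · exact hS'0 t ht h0
    · exact hS30 t ht h0
    · by_cases ha : a = 0
      · simp [ha] at ht
      · rw [if_neg ha, Finset.mem_singleton] at ht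
        exact ha (ht.symm.trans h0)
  obtain ⟨Φ3, Ψ3, a3, hΦ3, ha3, hih⟩ := ih S'' hS''
  have hne : x i0 - algebraMap (Om K x j) L a ≠ 0 := by
    intro h
    apply hnm
    rw [sub_eq_zero.mp h]
    exact a.2
  obtain ⟨g0, hg0⟩ : ∃ g0 : ℝ, (g0 : WithTop ℝ) = v (x i0 - algebraMap (Om K x j) L a) := by
    rw [← WithTop.ne_top_iff_exists]
    intro h
    exact hne ((AddValuation.top_iff v).mp h)
  have hg0nn : 0 ≤ g0 := by
    have h1 := (hx0 i0).trans hva
    rw [← hg0] at h1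
    exact_mod_cast h1
  have hva0 : 0 ≤ v (algebraMap (Om K x j) L a) := by
    have h1 := AddValuation.map_sub v (x i0) (x i0 - algebraMap (Om K x j) L a)
    rw [sub_sub_cancel] at h1
    exact (le_min (hx0 i0) ((hx0 i0).trans hva)).trans h1
  refine ⟨Φ1 ∪ Φ2 ∪ Φ3 ∪
      (({g0, (v (algebraMap (Om K x j) L a)).untopD 0} : Finset ℝ).filter (0 < ·)),
    Ψ1 ∪ Ψ3 ∪ {g0}, fun i => if i = i0 then algebraMap (Om K x j) L a else a3 i, ?_, ?_, ?_⟩
  · intro φ hφ
    simp only [Finset.mem_union, Finset.mem_filter] at hφ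
    rcases hφ with ((hφ | hφ) | hφ) | hφ
    · exact hΦ1 φ hφ
    · exact hΦ2 φ hφ
    · exact hΦ3 φ hφ
    · exact hφ.2
  · intro i hi
    by_cases h : i = i0
    · simp only [if_pos h]
      rw [h]
      exact a.2
    · simp only [if_neg h]
      refine ha3 i ?_
      have h1 : (i : ℕ) ≠ j := fun h2 => h (Fin.ext h2)
      omega
  · intro T h hΦ hΨ
    have hΦ1' : ∀ φ ∈ Φ1, 0 < h φ := fun φ hφ => hΦ φ (by simp [hφ])
    have hΦ2' : ∀ φ ∈ Φ2, 0 < h φ := fun φ hφ => hΦ φ (by simp [hφ])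
    have hΦ3' : ∀ φ ∈ Φ3, 0 < h φ := fun φ hφ => hΦ φ (by simp [hφ])
    have hΨ1' : ∀ φ ∈ Ψ1, ∃ m : ℤ, h φ = m := fun φ hφ => hΨ φ (by simp [hφ])
    have hΨ3' : ∀ φ ∈ Ψ3, ∃ m : ℤ, h φ = m := fun φ hφ => hΨ φ (by simp [hφ])
    obtain ⟨θ', hθ'1, hθ'2, hθ'3⟩ := hih T h hΦ3' hΨ3'
    -- the exponent
    obtain ⟨m, hm⟩ : ∃ m : ℕ, h g0 = m := by
      obtain ⟨mz, hmz⟩ := hΨ g0 (by simp)
      have h1 : 0 ≤ h g0 := by
        rcases hg0nn.eq_or_lt with h2 | h2
        · rw [← h2, map_zero]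
        · exact (hΦ g0 (by simp [h2])).le
      have h2 : 0 ≤ mz := by
        rw [hmz] at h1
        exact_mod_cast h1
      refine ⟨mz.toNat, ?_⟩
      rw [hmz]
      have h3 : ((mz.toNat : ℤ) : ℚ) = (mz : ℚ) := by rw [Int.toNat_of_nonneg h2]
      rw [← h3]
      norm_cast
    set e : T.E := T.ι (PowerSeries.X ^ m * PowerSeries.mk (T.ε i0)) with he
    have hev : T.w e = ((m : ℝ) : WithTop ℝ) := e_val T i0 m
    have hVMe : VM v T.w h (x i0 - algebraMap (Om K x j) L a) e := by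
      refine ⟨g0, hg0.symm, ?_⟩
      rw [hev, hm]
      norm_cast
    -- values on the new generators
    have hser0 : IsSer T.ι (T.kc j).toSubfield (0 : T.E) := by
      have h1 := isSer_iota T.ι T.w T.hw (T.kc j).toSubfield (b := 0) (fun n => by
        rw [map_zero]
        exact (T.kc j).zero_mem)
      rwa [map_zero] at h1
    have hmem : ∀ s : Om K x j, s ∈ S' ∪ S3 ∪ (if a = 0 then ∅ else {a}) →
        VM v T.w h (s : L) (θ' s) ∧ IsSer T.ι (T.kc j).toSubfield (θ' s) := by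
      intro s hs
      exact hθ'2 (s : L) s.2 (Finset.mem_image_of_mem _ hs)
    have haser : IsSer T.ι (T.kc j).toSubfield (θ' a) := by
      by_cases ha : a = 0
      · rw [ha, map_zero]
        exact hser0
      · exact (hmem a (by simp [ha])).2
    have hx' : ∀ (i : Fin D) (_ : (i : ℕ) < j) (hi : x i ∈ Om K x j),
        IsSer T.ι (T.kc j).toSubfield (θ' ⟨x i, hi⟩) := by
      intro i hlt hi
      obtain ⟨g, m', β, _, _, hβ, hth⟩ := hθ'3 i hlt hi
      rw [hth, map_add]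
      exact isSer_add T.ι T.w T.hw _ (isSer_iota T.ι T.w T.hw _ fun n =>
        kc_mono T hlt.le (hβ n)) (e_ser T i m' hlt)
    have hgen : ∀ c : Om K x j, T.w (θ' c + e) = min (T.w (θ' c)) (T.w e) := by
      intro c
      have h1 := gen_min T.ι T.w T.hw (T.kc j).toSubfield (kc_closed T j)
        (PowerSeries.mk (T.ε i0)) (by
          rw [PowerSeries.coeff_mk]
          exact eps_not_mem T i0 0 le_rfl) (θ' c)
        (om_alg x j T.ι T.w T.hw (T.kc j).toSubfield (kc_alg T j) θ' hθ'1 hx' c) (m : ℤ)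
      rw [zpow_natCast, ← map_pow, ← map_mul] at h1
      rw [hev, he, h1]
      norm_cast
    have hS'VM : ∀ s ∈ S', VM v T.w h (algebraMap (Om K x j) L s) (θ' s) := fun s hs =>
      (hmem s (by simp [hs])).1
    obtain ⟨θ0, hθ0a, hθ0x, hθ0C⟩ := hrat h hΦ2' T.E T.w θ' e hS'VM hVMe hgen
    have hmono : ∀ a ∈ (T.kc j).toSubfield, a ∈ (T.kc (j + 1)).toSubfield := fun a ha =>
      kc_mono T (Nat.le_succ j) ha
    have hQser : ∀ q ∈ Q, IsSer T.ι (T.kc (j + 1)).toSubfield (θ0 q) := by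
      refine hratser T.κ T.E T.ι T.w T.hw (T.kc (j + 1)).toSubfield θ0 ?_ ?_
      · intro s hs
        rw [hθ0a]
        exact isSer_mono hmono (hmem s (by simp [hs])).2
      · rw [hθ0x]
        exact isSer_add T.ι T.w T.hw _ (isSer_mono hmono haser)
          (e_ser T i0 m (Nat.lt_succ_self j))
    have hθ0K : ∀ c : K, θ0 (algebraMap K B c) =
        T.ι (PowerSeries.C (algebraMap K T.κ c)) := by
      intro c
      have h1 : (algebraMap K B c) = algebraMap (Om K x j) B (algebraMap K (Om K x j) c) := rfl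
      rw [h1, hθ0a, hθ'1]
    obtain ⟨θΩ, hθΩB, hθΩS⟩ := hext h hΦ1' hΨ1' T.κ T.E T.ι T.w T.hw (T.kc (j + 1)).toSubfield
      (kc_isAlgClosed T (j + 1)) θ0 (fun c hc => by rw [hθ0K]; exact c_val T hc)
      (fun c hc => hθ0C (c : L) (Finset.mem_image_of_mem _ hc)) hQser
    let incl : Om K x (j + 1) →+* Ω :=
      (algebraMap (Om K x (j + 1)) L).codRestrict Ω (fun s => hle s s.2)
    refine ⟨θΩ.comp incl, ?_, ?_, ?_⟩
    · intro c
      have h1 : incl (algebraMap K _ c) = algebraMap B Ω (algebraMap K B c) := rfl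
      rw [RingHom.comp_apply, h1, hθΩB, hθ0K]
    · intro s hs hsS
      have h1 : incl ⟨s, hs⟩ ∈ S1 :=
        Finset.mem_image.mpr ⟨⟨s, hsS⟩, Finset.mem_attach _ _, rfl⟩
      exact hθΩS _ h1
    · intro i hi hxi
      by_cases hii : i = i0
      · subst hii
        have hw0 : 0 ≤ T.w (θ' a) := by
          by_cases ha : a = 0
          · rw [ha, map_zero, AddValuation.map_zero]
            exact le_top
          · obtain ⟨ga, hga, hga'⟩ := (hmem a (by simp [ha])).1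
            rw [hga']
            have h1 : (0 : WithTop ℝ) ≤ (ga : WithTop ℝ) := by rw [← hga]; exact hva0
            have h2 : 0 ≤ ga := by exact_mod_cast h1
            have h3 : 0 ≤ h ga := by
              rcases h2.eq_or_lt with h4 | h4
              · rw [← h4, map_zero]
              · refine (hΦ ga ?_).le
                have h5 : (v (algebraMap (Om K x j) L a)).untopD 0 = ga := by
                  have h6 : v (algebraMap (Om K x j) L a) = (ga : WithTop ℝ) := hga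
                  rw [h6]
                  rfl
                rw [Finset.mem_union]
                right
                rw [Finset.mem_filter]
                refine ⟨?_, h4⟩
                rw [Finset.mem_insert, Finset.mem_singleton]
                right
                exact h5.symm
            exact_mod_cast h3
        obtain ⟨β, hβ1, hβ2⟩ := isSer_nonneg T.ι T.w T.hw _ haser hw0
        refine ⟨g0, m, β, ?_, hm, hβ1, ?_⟩
        · simp only [if_true]
          exact hg0.symm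
        · have h1 : incl ⟨x i0, hxi⟩ = algebraMap B Ω ⟨x i0, hxB⟩ := rfl
          rw [RingHom.comp_apply, h1, hθΩB, hθ0x, hβ2, he, map_add]
      · have hlt : (i : ℕ) < j := by
          have h1 : (i : ℕ) ≠ j := fun h2 => hii (Fin.ext h2)
          omega
        have hi' : x i ∈ Om K x j := subset_acl _ ⟨i, hlt, rfl⟩
        obtain ⟨g, m', β, h1, h2, h3, h4⟩ := hθ'3 i hlt hi'
        refine ⟨g, m', β, ?_, h2, h3, ?_⟩
        · simp only [if_neg hii]
          exact h1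
        · have h5 : incl ⟨x i, hxi⟩ = algebraMap B Ω (algebraMap (Om K x j) B ⟨x i, hi'⟩) := rfl
          rw [RingHom.comp_apply, h5, hθΩB, hθ0a, h4]

/-- (L9) -/
theorem lift_ind_pr {K L : Type} [Field K] [IsAlgClosed K] [CharZero K] [Field L] [IsAlgClosed L]
    [Algebra K L] (v : AddValuation L (WithTop ℝ))
    (hv : ∀ c : K, c ≠ 0 → v (algebraMap K L c) = 0) {D : ℕ} (x : Fin D → L)
    (hx : AlgebraicIndependent K x) (hx0 : ∀ i, 0 ≤ v (x i)) (j : ℕ) (hj : j ≤ D)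
    (S : Finset L) (hS : ∀ s ∈ S, s ∈ Om K x j ∧ s ≠ 0) :
    ∃ (Φ Ψ : Finset ℝ) (a : Fin D → L), (∀ φ ∈ Φ, 0 < φ) ∧
      (∀ i : Fin D, (i : ℕ) < j → a i ∈ Om K x i) ∧
      ∀ (T : Target K D) (h : ℝ →ₗ[ℚ] ℚ), (∀ φ ∈ Φ, 0 < h φ) →
        (∀ ψ ∈ Ψ, ∃ m : ℤ, h ψ = m) →
        ∃ θ : Om K x j →+* T.E,
          (∀ c : K, θ (algebraMap K _ c) = T.ι (PowerSeries.C (algebraMap K T.κ c))) ∧
          (∀ (s : L) (hs : s ∈ Om K x j), s ∈ S →
            VM v T.w h s (θ ⟨s, hs⟩) ∧ IsSer T.ι (T.kc j).toSubfield (θ ⟨s, hs⟩)) ∧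
          ∀ (i : Fin D) (_ : (i : ℕ) < j) (hi : x i ∈ Om K x j),
            ∃ (g : ℝ) (m : ℕ) (β : PowerSeries T.κ),
              v (x i - a i) = (g : WithTop ℝ) ∧ h g = m ∧ (∀ n, β.coeff n ∈ T.kc i) ∧
              θ ⟨x i, hi⟩ = T.ι (β + PowerSeries.X ^ m * PowerSeries.mk (T.ε i)) := by
  have main : ∀ j : ℕ, j ≤ D → ∀ S : Finset L, (∀ s ∈ S, s ∈ Om K x j ∧ s ≠ 0) →
      Concl (K := K) v x j S := by
    intro j
    induction j with
    | zero => exact fun _ S hS => base v hv x S hS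
    | succ j ih =>
      intro hj S hS
      exact step v hv x hx hx0 j hj (ih (by omega)) S hS
  exact main j hj S hS

end Pool.Agent.OPT.L9

namespace Pool.Agent.OPT

alias lift_ind := L9.lift_ind_pr

end Pool.Agent.OPT
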