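import Pool.Agent.Lib_helper80.OPF.Defs
import Pool.Agent.Lib_helper80.OPF.L10
import Pool.Agent.Lib_helper80.OPF.L11
import Pool.Agent.Lib_helper80.OPF.L4
import Pool.Agent.Lib_helper80.OPF.L8
import Pool.Agent.Lib_helper80.OPF.L9
import Pool.Agent.Lib_helper56.KSS.J1

/-!
# OPN, block L12: the lifting theorem
-/

namespace Pool.Agent.OPT.L12

open MvPolynomial Pool.Agent.KSS Pool.Agent.KSX Pool.Agent.OPT

/-- a small positive number -/
theorem l12_delta (F : Finset ℝ) (η : ℝ) (hη : 0 < η) :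
    ∃ δ : ℝ, 0 < δ ∧ δ ≤ η ∧ ∀ φ ∈ F, 0 < φ → δ < φ := by
  classical
  induction F using Finset.induction_on with
  | empty => exact ⟨η, hη, le_rfl, by simp⟩
  | insert a F _ ih =>
    obtain ⟨δ, h1, h2, h3⟩ := ih
    by_cases ha : 0 < a
    · refine ⟨min δ (a / 2), lt_min h1 (by positivity), (min_le_left _ _).trans h2, ?_⟩
      intro φ hφ h0
      rcases Finset.mem_insert.1 hφ with rfl | h
      · exact (min_le_right _ _).trans_lt (by linarith)
      · exact (min_le_left _ _).trans_lt (h3 φ h h0)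
    · refine ⟨δ, h1, h2, ?_⟩
      intro φ hφ h0
      rcases Finset.mem_insert.1 hφ with rfl | h
      · exact absurd h0 ha
      · exact h3 φ h h0

theorem l12_tau {k κ I J : Type} [Field k] [Field κ] [Algebra k κ] [Fintype I] [Fintype J]
    (x : J → κ) (f : I → J) : tau k (fun i => x (f i)) ≤ tau k x := by
  rw [Pool.Agent.Lib_helper56.KSS.tau_eq, Pool.Agent.Lib_helper56.KSS.tau_eq]
  exact Pool.Agent.Lib_helper56.KSS.tau_comp_le x f

theorem l12_arc {κ : Type} [Field κ] {N Λ : ℕ} (z : Fin N → PowerSeries κ) (a : Fin N) :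
    (PowerSeries.X : PowerSeries κ) ^ Λ ∣ arc (trunc Λ z a) - z a := by
  rw [PowerSeries.X_pow_dvd_iff]
  intro m hm
  rw [map_sub]
  unfold arc trunc
  rw [PowerSeries.coeff_mk, dif_pos hm, sub_self]

theorem l12_ev {k κ : Type} [Field k] [Field κ] [Algebra k κ] {N Λ : ℕ}
    (z : Fin N → PowerSeries κ) (G : MvPolynomial (Fin N) k) :
    (PowerSeries.X : PowerSeries κ) ^ Λ ∣ ev (trunc Λ z) G - aeval z G := by
  rw [← Ideal.mem_span_singleton, ← Ideal.Quotient.eq]
  unfold ev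
  have h : ∀ u : Fin N → PowerSeries κ,
      Ideal.Quotient.mk (Ideal.span {(PowerSeries.X : PowerSeries κ) ^ Λ}) (aeval u G) =
        aeval (fun a => Ideal.Quotient.mkₐ k
          (Ideal.span {(PowerSeries.X : PowerSeries κ) ^ Λ}) (u a)) G := by
    intro u
    have := MvPolynomial.comp_aeval_apply (R := k) (f := u)
      (Ideal.Quotient.mkₐ k (Ideal.span {(PowerSeries.X : PowerSeries κ) ^ Λ})) G
    exact this
  rw [h, h]
  congr 2
  funext a
  show Ideal.Quotient.mk _ _ = Ideal.Quotient.mk _ _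
  rw [Ideal.Quotient.eq, Ideal.mem_span_singleton]
  exact l12_arc z a

theorem l12_dvd {k κ : Type} [Field k] [Field κ] [Algebra k κ] {N Λ l : ℕ} (hl : l ≤ Λ)
    (z : Fin N → PowerSeries κ) (G : MvPolynomial (Fin N) k)
    (h : (PowerSeries.X : PowerSeries κ) ^ l ∣ aeval z G) :
    (PowerSeries.X : PowerSeries κ) ^ l ∣ ev (trunc Λ z) G := by
  have h1 := (pow_dvd_pow (PowerSeries.X : PowerSeries κ) hl).trans (l12_ev (Λ := Λ) z G)
  have h2 := dvd_add h1 h
  rwa [sub_add_cancel] at h2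

theorem l12_oR_top {κ : Type} [Field κ] {a : PowerSeries κ} (h : a.order = ⊤) : oR a = ⊤ := by
  unfold oR
  rw [h]
  rfl

theorem l12_oR_coe {κ : Type} [Field κ] {a : PowerSeries κ} {n : ℕ} (h : a.order = (n : ℕ∞)) :
    oR a = ((n : ℝ) : WithTop ℝ) := by
  unfold oR
  rw [h]
  rfl

theorem l12_ex {κ : Type} [Field κ] {a : PowerSeries κ} {q : ℝ} (h : oR a = (q : WithTop ℝ)) :
    ∃ n : ℕ, a.order = (n : ℕ∞) ∧ (n : ℝ) = q := by
  by_cases ht : a.order = ⊤
  · rw [l12_oR_top ht] at h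
    exact absurd h WithTop.top_ne_coe
  · obtain ⟨n, hn⟩ := ENat.ne_top_iff_exists.1 ht
    refine ⟨n, hn.symm, ?_⟩
    rw [l12_oR_coe hn.symm] at h
    exact WithTop.coe_injective h

theorem l12_order {κ : Type} [Field κ] (a : PowerSeries κ) (q : ℝ) (l : ℕ)
    (h : oR a = (q : WithTop ℝ)) (hl : (l : ℝ) ≤ q) : (PowerSeries.X : PowerSeries κ) ^ l ∣ a := by
  obtain ⟨n, hn, rfl⟩ := l12_ex h
  rw [PowerSeries.X_pow_dvd_iff]
  intro m hm
  apply PowerSeries.coeff_of_lt_order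
  rw [hn]
  have h2 : l ≤ n := by exact_mod_cast hl
  exact_mod_cast hm.trans_le h2

theorem l12_iota_inj {κ E : Type} [Field κ] [Field E] (ι : PowerSeries κ →+* E)
    (w : AddValuation E (WithTop ℝ)) (hw : ∀ a, w (ι a) = oR a) : Function.Injective ι := by
  rw [injective_iff_map_eq_zero]
  intro a ha
  have h := hw a
  rw [ha, AddValuation.map_zero] at h
  by_contra h0
  have ht : a.order ≠ ⊤ := fun h1 => h0 (PowerSeries.order_eq_top.1 h1)
  obtain ⟨n, hn⟩ := ENat.ne_top_iff_exists.1 ht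
  rw [l12_oR_coe hn.symm] at h
  exact absurd h WithTop.top_ne_coe

theorem lift_jets_pr {K L : Type} [Field K] [IsAlgClosed K] [CharZero K] [Field L] [IsAlgClosed L]
    [Algebra K L] (v : AddValuation L (WithTop ℝ))
    (hv : ∀ c : K, c ≠ 0 → v (algebraMap K L c) = 0) {N D : ℕ} (X : Fin N → L)
    (hX0 : ∀ a, 0 ≤ v (X a)) (e : Fin D → Fin N) (he : Function.Injective e)
    (hind : AlgebraicIndependent K (X ∘ e))
    (halg : ∀ a, X a ∈ Om K (X ∘ e) D) (Γ : ℝ)
    (hΓ : ∀ a : Fin D → L, (∀ j : Fin D, a j ∈ Om K (X ∘ e) j) →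
      ∑ j, v (X (e j) - a j) ≤ (Γ : WithTop ℝ))
    (P : Finset (MvPolynomial (Fin N) K)) (η : ℝ) (hη : 0 < η) (M0 : ℕ) :
    ∃ M : ℕ, 1 ≤ M ∧ M0 ≤ M ∧ ∀ Λ : ℕ, ∃ (κ : Type) (_ : Field κ) (_ : Algebra K κ) (y : Fin N → Fin Λ → κ),
      (∀ G : MvPolynomial (Fin N) K, aeval X G = 0 → (PowerSeries.X : PowerSeries κ) ^ Λ ∣ ev y G) ∧
      (D : ℝ) * Λ ≤ tauJ K y + M * (Γ + η) ∧
      (∀ G ∈ P, ∀ (c : ℝ) (l : ℕ), (c : WithTop ℝ) ≤ v (aeval X G) → l ≤ Λ →
        (l : ℝ) ≤ M * (c - η) → (PowerSeries.X : PowerSeries κ) ^ l ∣ ev y G) ∧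
      ∀ a, v (X a) = 0 → 1 ≤ Λ → c0J y = 0 := by
  classical
  -- the finite set `S`
  have hmemP : ∀ G : MvPolynomial (Fin N) K, aeval X G ∈ Om K (X ∘ e) D := by
    intro G
    induction G using MvPolynomial.induction_on with
    | C c => 
      rw [aeval_C]
      exact IntermediateField.algebraMap_mem _ c
    | add p q hp hq => rw [map_add]; exact add_mem hp hq
    | mul_X p a hp => rw [map_mul, aeval_X]; exact mul_mem hp (halg a)
  let S : Finset L := ((Finset.univ.image X) ∪ (P.image fun G => aeval X G)).filter (· ≠ 0)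
  have hS : ∀ s ∈ S, s ∈ Om K (X ∘ e) D ∧ s ≠ 0 := by
    intro s hs
    rw [Finset.mem_filter] at hs
    refine ⟨?_, hs.2⟩
    rcases Finset.mem_union.1 hs.1 with h | h
    · obtain ⟨a, -, rfl⟩ := Finset.mem_image.1 h
      exact halg a
    · obtain ⟨G, -, rfl⟩ := Finset.mem_image.1 h
      exact hmemP G
  have hSX : ∀ a, X a ≠ 0 → X a ∈ S := fun a ha => by
    rw [Finset.mem_filter]
    exact ⟨Finset.mem_union_left _ (Finset.mem_image_of_mem _ (Finset.mem_univ a)), ha⟩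
  have hSP : ∀ G ∈ P, aeval X G ≠ 0 → aeval X G ∈ S := fun G hG ha => by
    rw [Finset.mem_filter]
    exact ⟨Finset.mem_union_right _ (Finset.mem_image_of_mem (fun G => aeval X G) hG), ha⟩
  obtain ⟨Φ, Ψ, a, hΦ, ha, hT⟩ := lift_ind v hv (X ∘ e) hind (fun i => hX0 (e i)) D le_rfl S hS
  -- the real numbers
  let G0 : Finset ℝ := Φ ∪ Ψ ∪ (S.image fun s => (v s).untopD 0) ∪
    (Finset.univ.image fun i => (v (X (e i) - a i)).untopD 0)
  have hG1 : ∀ φ ∈ Φ, φ ∈ G0 := fun φ h => by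
    simp only [G0, Finset.mem_union]; exact Or.inl (Or.inl (Or.inl h))
  have hG2 : ∀ φ ∈ Ψ, φ ∈ G0 := fun φ h => by
    simp only [G0, Finset.mem_union]; exact Or.inl (Or.inl (Or.inr h))
  have hG3 : ∀ s ∈ S, ∀ g : ℝ, v s = (g : WithTop ℝ) → g ∈ G0 := fun s h g hg => by
    simp only [G0, Finset.mem_union]
    refine Or.inl (Or.inr (Finset.mem_image.2 ⟨s, h, ?_⟩))
    rw [hg, WithTop.untopD_coe]
  have hG4 : ∀ i, ∀ g : ℝ, v (X (e i) - a i) = (g : WithTop ℝ) → g ∈ G0 := fun i g hg => by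
    simp only [G0, Finset.mem_union]
    refine Or.inr (Finset.mem_image.2 ⟨i, Finset.mem_univ _, ?_⟩)
    rw [hg, WithTop.untopD_coe]
  obtain ⟨δ, hδ0, hδ1, hδ2⟩ := l12_delta G0 (η / (D + 1)) (by positivity)
  have hδη : δ ≤ η := hδ1.trans (div_le_self hη.le (by linarith [(Nat.cast_nonneg D : (0:ℝ) ≤ D)]))
  have hDδ : (D : ℝ) * δ ≤ η := by
    have h1 : (D : ℝ) * δ ≤ D * (η / (D + 1)) := mul_le_mul_of_nonneg_left hδ1 (Nat.cast_nonneg D)
    have h2 : (D : ℝ) * (η / (D + 1)) ≤ η := by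
      rw [mul_div_assoc', div_le_iff₀ (by positivity)]
      nlinarith [(Nat.cast_nonneg D : (0:ℝ) ≤ D)]
    exact h1.trans h2
  obtain ⟨h, M, hM1, hM0, hh⟩ := approx_hom G0 δ hδ0 M0
  have hMpos : (0 : ℝ) < M := by exact_mod_cast hM1
  have hlow : ∀ g ∈ G0, (M : ℝ) * (g - δ) ≤ ((h g : ℚ) : ℝ) := by
    intro g hg
    have := (abs_le.1 (hh g hg).2).1
    linarith
  have hup : ∀ g ∈ G0, ((h g : ℚ) : ℝ) ≤ (M : ℝ) * (g + δ) := by
    intro g hg
    have := (abs_le.1 (hh g hg).2).2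
    linarith
  have hposR : ∀ g ∈ G0, 0 < g → (0 : ℝ) < ((h g : ℚ) : ℝ) := by
    intro g hg h0
    exact lt_of_lt_of_le (mul_pos hMpos (sub_pos.2 (hδ2 g hg h0))) (hlow g hg)
  have hnonneg : ∀ g ∈ G0, 0 ≤ g → (0 : ℝ) ≤ ((h g : ℚ) : ℝ) := by
    intro g hg h0
    rcases h0.eq_or_lt with h1 | h1
    · rw [← h1, map_zero]
      simp
    · exact (hposR g hg h1).le
  refine ⟨M, hM1, hM0, ?_⟩
  intro Λ
  obtain ⟨T⟩ := target_exists K D
  obtain ⟨θ, hθK, hθS, hθx⟩ := hT T h (fun φ hφ => by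
    have := hposR φ (hG1 φ hφ) (hΦ φ hφ)
    exact_mod_cast this) (fun ψ hψ => (hh ψ (hG2 ψ hψ)).1)
  -- the power series
  have hz : ∀ b : Fin N, ∃ z : PowerSeries T.κ, θ ⟨X b, halg b⟩ = T.ι z := by
    intro b
    by_cases hb : X b = 0
    · refine ⟨0, ?_⟩
      rw [map_zero]
      have : (⟨X b, halg b⟩ : Om K (X ∘ e) D) = 0 := Subtype.ext hb
      rw [this, map_zero]
    · obtain ⟨⟨g, hg1, hg2⟩, hser⟩ := hθS (X b) (halg b) (hSX b hb)
      have h0 : 0 ≤ T.w (θ ⟨X b, halg b⟩) := by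
        rw [hg2]
        have h1 := hX0 b
        rw [hg1] at h1
        have h2 : (0 : ℝ) ≤ g := by exact_mod_cast h1
        have h3 := hnonneg g (hG3 _ (hSX b hb) g hg1) h2
        exact_mod_cast h3
      obtain ⟨z, -, hz⟩ := isSer_nonneg T.ι T.w T.hw _ hser h0
      exact ⟨z, hz⟩
  choose z hz using hz
  have hiota := l12_iota_inj T.ι T.w T.hw
  have hev : ∀ G : MvPolynomial (Fin N) K, T.ι (aeval z G) = θ ⟨aeval X G, hmemP G⟩ := by
    intro G
    let φ1 : MvPolynomial (Fin N) K →+* T.E :=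
      T.ι.comp (aeval z : MvPolynomial (Fin N) K →ₐ[K] PowerSeries T.κ).toRingHom
    let φ2 : MvPolynomial (Fin N) K →+* T.E :=
      θ.comp (aeval (fun b => (⟨X b, halg b⟩ : Om K (X ∘ e) D)) :
        MvPolynomial (Fin N) K →ₐ[K] Om K (X ∘ e) D).toRingHom
    have h12 : φ1 = φ2 := by
      apply MvPolynomial.ringHom_ext
      · intro c
        show T.ι (aeval z (C c)) = θ (aeval _ (C c))
        rw [aeval_C, aeval_C, hθK, PowerSeries.algebraMap_apply]
      · intro b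
        show T.ι (aeval z (MvPolynomial.X b)) = θ (aeval _ (MvPolynomial.X b))
        rw [aeval_X, aeval_X, hz]
    have h3 : T.ι (aeval z G) = θ (aeval (fun b => (⟨X b, halg b⟩ : Om K (X ∘ e) D)) G) :=
      congrArg (fun f => f G) h12
    rw [h3]
    congr 1
    apply Subtype.ext
    have h4 := MvPolynomial.comp_aeval_apply (R := K)
      (f := fun b => (⟨X b, halg b⟩ : Om K (X ∘ e) D)) (Om K (X ∘ e) D).val G
    exact h4
  have hvan : ∀ G : MvPolynomial (Fin N) K, aeval X G = 0 → aeval z G = 0 := by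
    intro G hG
    apply hiota
    rw [hev, map_zero]
    have : (⟨aeval X G, hmemP G⟩ : Om K (X ∘ e) D) = 0 := Subtype.ext hG
    rw [this, map_zero]
  refine ⟨T.κ, inferInstance, inferInstance, trunc Λ z, ?_, ?_, ?_, ?_⟩
  · intro G hG
    exact l12_dvd le_rfl z G (by rw [hvan G hG]; exact dvd_zero _)
  · -- transcendence degree
    have hx' : ∀ i : Fin D, ∃ (g : ℝ) (m : ℕ) (β : PowerSeries T.κ),
        v (X (e i) - a i) = (g : WithTop ℝ) ∧ h g = m ∧ (∀ n, β.coeff n ∈ T.kc i) ∧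
        z (e i) = β + PowerSeries.X ^ m * PowerSeries.mk (T.ε i) := by
      intro i
      obtain ⟨g, m, β, h1, h2, h3, h4⟩ := hθx i i.2 (halg (e i))
      refine ⟨g, m, β, h1, h2, h3, ?_⟩
      apply hiota
      rw [← h4, ← hz (e i)]
      rfl
    choose g m β h1 h2 h3 h4 using hx'
    have h5 := tau_generic T m β h3 Λ
    have h6 : tauJ K (trunc Λ fun i => β i + PowerSeries.X ^ m i * PowerSeries.mk (T.ε i)) ≤
        tauJ K (trunc Λ z) := by
      have h7 : (trunc Λ fun i => β i + PowerSeries.X ^ m i * PowerSeries.mk (T.ε i)) =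
          fun i => trunc Λ z (e i) := by
        funext i μ
        show (PowerSeries.coeff (μ : ℕ)) _ = (PowerSeries.coeff (μ : ℕ)) (z (e i))
        rw [h4]
      rw [h7]
      unfold tauJ
      exact l12_tau (fun p : Fin N × Fin Λ => trunc Λ z p.1 p.2)
        (fun q : Fin D × Fin Λ => (e q.1, q.2))
    have h8 : ∑ i, g i ≤ Γ := by
      have h9 := hΓ a (fun j => ha j j.2)
      have h10 : ∑ j, v (X (e j) - a j) = ((∑ j, g j : ℝ) : WithTop ℝ) := by
        rw [WithTop.coe_sum]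
        exact Finset.sum_congr rfl fun j _ => h1 j
      rw [h10] at h9
      exact_mod_cast h9
    have h11 : ∀ i, (m i : ℝ) ≤ M * (g i + δ) := by
      intro i
      have := hup (g i) (hG4 i (g i) (h1 i))
      rw [h2 i] at this
      exact_mod_cast this
    have h12 : ((∑ i, m i : ℕ) : ℝ) ≤ M * (Γ + η) := by
      rw [Nat.cast_sum]
      calc ∑ i, (m i : ℝ) ≤ ∑ i, (M : ℝ) * (g i + δ) := Finset.sum_le_sum fun i _ => h11 i
        _ = M * (∑ i, g i + D * δ) := by
          rw [← Finset.mul_sum, Finset.sum_add_distrib, Finset.sum_const, Finset.card_univ,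
            Fintype.card_fin, nsmul_eq_mul]
        _ ≤ M * (Γ + η) := mul_le_mul_of_nonneg_left (add_le_add h8 hDδ) hMpos.le
    have h13 : ((D * Λ : ℕ) : ℝ) ≤
        ((tauJ K (trunc Λ z) + ∑ i, m i : ℕ) : ℝ) := by
      exact_mod_cast h5.trans (Nat.add_le_add_right h6 _)
    push_cast at h13 h12
    linarith
  · -- orders
    intro G hG c l hc hl hlM
    apply l12_dvd hl z G
    by_cases h0 : aeval X G = 0
    · rw [hvan G h0]
      exact dvd_zero _
    · obtain ⟨⟨g, hg1, hg2⟩, -⟩ := hθS (aeval X G) (hmemP G) (hSP G hG h0)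
      rw [← hev, T.hw] at hg2
      refine l12_order _ _ l hg2 ?_
      have h1 := hlow g (hG3 _ (hSP G hG h0) g hg1)
      rw [hg1] at hc
      have h2 : c ≤ g := by exact_mod_cast hc
      have h3 : (M : ℝ) * (c - η) ≤ M * (g - δ) :=
        mul_le_mul_of_nonneg_left (by linarith) hMpos.le
      linarith
  · -- order at the vertex
    intro b hb hΛ
    have hb0 : X b ≠ 0 := by
      intro h0
      rw [h0, AddValuation.map_zero] at hb
      exact absurd hb (by simp)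
    obtain ⟨⟨g, hg1, hg2⟩, -⟩ := hθS (X b) (halg b) (hSX b hb0)
    have hg0 : g = 0 := by
      rw [hb] at hg1
      exact_mod_cast hg1.symm
    rw [hz, T.hw, hg0, map_zero] at hg2
    have hord : (z b).order = 0 := by
      obtain ⟨n, hn, h1⟩ := l12_ex hg2
      have h2 : n = 0 := by
        have : ((n : ℕ) : ℝ) = 0 := by rw [h1]; simp
        exact_mod_cast this
      rw [hn, h2]
      rfl
    have hc0 : (PowerSeries.coeff 0) (z b) ≠ 0 := by
      have h1 := PowerSeries.order_eq_nat (φ := z b) (n := 0)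
      exact (h1.1 (by rw [hord]; rfl)).1
    have hord2 : (arc (trunc Λ z b)).order = 0 := by
      have h1 := PowerSeries.order_eq_nat (φ := arc (trunc Λ z b)) (n := 0)
      have h2 := h1.2 ⟨by
        unfold arc trunc
        rw [PowerSeries.coeff_mk, dif_pos (by omega)]
        exact hc0, fun i hi => absurd hi (Nat.not_lt_zero i)⟩
      rw [h2]
      rfl
    unfold c0J
    have h1 : ordL Λ (arc (trunc Λ z b)) = 0 := by
      unfold ordL
      rw [hord2]
      have : min ((Λ : ℕ) : ℕ∞) 0 = 0 := min_eq_right bot_le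
      rw [this]
      rfl
    have h2 : ⨅ i, ordL Λ (arc (trunc Λ z i)) ≤ ordL Λ (arc (trunc Λ z b)) :=
      ciInf_le (OrderBot.bddBelow _) b
    rw [h1] at h2
    exact Nat.le_zero.1 h2


end Pool.Agent.OPT.L12

namespace Pool.Agent.OPT

alias lift_jets := L12.lift_jets_pr

end Pool.Agent.OPT
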