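import Pool.Agent.Lib_helper80.KSX.Defs
import Pool.Agent.Lib_helper77.KSZ.KStab

/-!
# Openness of uniform K-stability for Fano complete intersections (MP_2c2240_ag): definitions
-/

namespace Pool.Agent.OPT

open MvPolynomial Pool.Agent.KSS Pool.Agent.KSX

/-! ### coefficients, Jacobian minors, good forms -/

/-- index set of the coefficients of `k` forms of degrees `d i` in `v` variables -/
abbrev CI {k : ℕ} (d : Fin k → ℕ) (v : ℕ) : Type :=
  Σ i : Fin k, {α : Fin v →₀ ℕ // α.degree = d i}

/-- the coefficients of the forms `f i` -/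
noncomputable def cv {k v : ℕ} (d : Fin k → ℕ) {F : Type} [CommSemiring F]
    (f : Fin k → MvPolynomial (Fin v) F) : CI d v → F := fun c => (f c.1).coeff c.2.1

/-- the Jacobian minor of `f` with respect to the variables `z j` -/
noncomputable def jac {k v : ℕ} {F : Type} [CommRing F] (f : Fin k → MvPolynomial (Fin v) F)
    (z : Fin k → Fin v) : MvPolynomial (Fin v) F :=
  Matrix.det (Matrix.of fun i j => pderiv (z j) (f i))

/-- degree of the Jacobian minors -/
def jdeg {k : ℕ} (d : Fin k → ℕ) : ℕ := ∑ i, (d i - 1)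

/-- the ideal `(f_1, …, f_k)` -/
noncomputable abbrev II {k v : ℕ} {F : Type} [CommRing F] (f : Fin k → MvPolynomial (Fin v) F) :
    Ideal (MvPolynomial (Fin v) F) := Ideal.span (Set.range f)

/-- the finitely many algebraic conditions on forms `f i` of degree `d i` used in the proof -/
structure Good {k v : ℕ} (d : Fin k → ℕ) {F : Type} [Field F]
    (f : Fin k → MvPolynomial (Fin v) F) : Prop where
  hom : ∀ i, (f i).IsHomogeneous (d i)
  hilb : ∀ m, (Module.finrank F (IM (Set.range f) m) : ℤ) = NN d v ∅ m - NN d v Finset.univ m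
  nzX : ∀ (a : Fin v) (s : MvPolynomial (Fin v) F), X a * s ∈ II f → s ∈ II f
  nzJ : ∀ z : Fin k → Fin v, Function.Injective z → ∀ s : MvPolynomial (Fin v) F,
    jac f z * s ∈ II f → s ∈ II f
  smooth : ∀ (κ : Type) [Field κ] [Algebra F κ] (x : Fin v → κ), x ≠ 0 →
    (∀ i, aeval x (f i) = 0) →
    ∃ z : Fin k → Fin v, Function.Injective z ∧ aeval x (jac f z) ≠ 0

/-! ### relative algebraic closures, valuations -/

/-- relative algebraic closure of `K(s)` in `E` -/
noncomputable def acl (K : Type) {E : Type} [Field K] [Field E] [Algebra K E] (s : Set E) :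
    IntermediateField K E :=
  (algebraicClosure (IntermediateField.adjoin K s) E).restrictScalars K

/-- `Ω_j`: the relative algebraic closure of `K(x_0, …, x_{j-1})` -/
noncomputable def Om (K : Type) {L : Type} [Field K] [Field L] [Algebra K L] {D : ℕ}
    (x : Fin D → L) (j : ℕ) : IntermediateField K L := acl K (x '' {i | (i : ℕ) < j})

/-- the value of `b` is the image under `h` of the value of `a` (both finite) -/
def VM {A B : Type} [Ring A] [Ring B] (v : AddValuation A (WithTop ℝ))
    (w : AddValuation B (WithTop ℝ)) (h : ℝ →ₗ[ℚ] ℚ) (a : A) (b : B) : Prop :=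
  ∃ g : ℝ, v a = (g : WithTop ℝ) ∧ w b = (((h g : ℚ) : ℝ) : WithTop ℝ)

/-- order of a power series with values in `ℝ ∪ {∞}` -/
noncomputable def oR {κ : Type} [Semiring κ] (a : PowerSeries κ) : WithTop ℝ :=
  WithTop.map (fun n : ℕ => (n : ℝ)) (a.order : WithTop ℕ)

/-- `e` is a Laurent series (with respect to `ι`) with coefficients in `k0` -/
def IsSer {κ E : Type} [Field κ] [Field E] (ι : PowerSeries κ →+* E) (k0 : Subfield κ)
    (e : E) : Prop :=
  ∃ (N : ℕ) (b : PowerSeries κ), (∀ n, b.coeff n ∈ k0) ∧ ι PowerSeries.X ^ N * e = ι b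

/-- all coefficients of index `< c` vanish -/
def ordGe {κ : Type} [Semiring κ] (z : PowerSeries κ) (c : ℝ) : Prop :=
  ∀ n : ℕ, (n : ℝ) < c → z.coeff n = 0

/-- the target of the lifting construction: an algebraically closed field `κ ⊇ K` with generic
elements `ε i r`, and an algebraically closed valued field `E ⊇ κ[[t]]` -/
structure Target (K : Type) [Field K] (D : ℕ) where
  κ : Type
  [fκ : Field κ]
  [aκ : IsAlgClosed κ]
  [cκ : CharZero κ]
  [algκ : Algebra K κ]
  E : Type
  [fE : Field E]
  [aE : IsAlgClosed E]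
  ι : PowerSeries κ →+* E
  w : AddValuation E (WithTop ℝ)
  hw : ∀ a : PowerSeries κ, w (ι a) = oR a
  ε : Fin D → ℕ → κ
  ind : AlgebraicIndependent K (fun q : Fin D × ℕ => ε q.1 q.2)

attribute [instance] Target.fκ Target.aκ Target.cκ Target.algκ Target.fE Target.aE

/-- the algebraically closed field generated by `K` and `ε i r`, `i < j` -/
noncomputable def Target.kc {K : Type} [Field K] {D : ℕ} (T : Target K D) (j : ℕ) :
    IntermediateField K T.κ := acl K {e | ∃ (i : Fin D) (r : ℕ), (i : ℕ) < j ∧ e = T.ε i r}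

/-- truncation of power series to a jet -/
noncomputable def trunc {κ : Type} [Semiring κ] {v : ℕ} (L : ℕ) (x : Fin v → PowerSeries κ) :
    Fin v → Fin L → κ := fun a μ => (x a).coeff (μ : ℕ)

/-! ### characteristic `p` -/

/-- `p`-th root -/
noncomputable def croot (p : ℕ) {F : Type} [Field F] [ExpChar F p] [PerfectRing F p] (c : F) : F :=
  (frobeniusEquiv F p).symm c

/-- the Cartier operator: `c X^β ↦ c^(1/p) X^((β - (p-1))/p)` if all `β_a ≡ -1 mod p`,
`0` otherwise -/
noncomputable def trp (p : ℕ) {F : Type} [Field F] [ExpChar F p] [PerfectRing F p] {v : ℕ}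
    (g : MvPolynomial (Fin v) F) : MvPolynomial (Fin v) F :=
  ∑ β ∈ g.support, if ∀ a, β a % p = p - 1 then
    monomial (β.mapRange (fun n => n / p) (Nat.zero_div p)) (croot p (g.coeff β)) else 0

/-- the partial trace: `c X^β ↦ c X^(β - (p-1) (variables z))` if `β_(z j) ≡ -1 mod p` for all
`j`, `0` otherwise -/
noncomputable def tz (p : ℕ) {k v : ℕ} (z : Fin k → Fin v) {F : Type} [Field F]
    (g : MvPolynomial (Fin v) F) : MvPolynomial (Fin v) F :=
  ∑ β ∈ g.support, if ∀ j, β (z j) % p = p - 1 then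
    monomial (β - ∑ j, Finsupp.single (z j) (p - 1)) (g.coeff β) else 0

/-- index set of the operators: exponents `< p`, zero on the variables `z j` -/
abbrev AI (p : ℕ) {k v : ℕ} (z : Fin k → Fin v) : Type :=
  {α : Fin v → Fin p // ∀ j, (α (z j) : ℕ) = 0}

/-- `Y^(p-1-α)`, a monomial in the variables different from the `z j` -/
noncomputable def yco (p : ℕ) {k v : ℕ} (z : Fin k → Fin v) {F : Type} [Field F] (α : AI p z) :
    MvPolynomial (Fin v) F :=
  open Classical in ∏ a, if a ∈ Set.range z then 1 else X a ^ (p - 1 - (α.1 a : ℕ))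

/-- `Y^α` -/
noncomputable def ymo (p : ℕ) {k v : ℕ} (z : Fin k → Fin v) {F : Type} [Field F] (α : AI p z) :
    MvPolynomial (Fin v) F := ∏ a, X a ^ (α.1 a : ℕ)

/-- the operators `Ψ_α(s) = Tr((f_1 ⋯ f_k)^(p-1) s J Y^(p-1-α))` -/
noncomputable def Psi (p : ℕ) {F : Type} [Field F] [ExpChar F p] [PerfectRing F p] {k v : ℕ}
    (f : Fin k → MvPolynomial (Fin v) F) (z : Fin k → Fin v) (α : AI p z)
    (s : MvPolynomial (Fin v) F) : MvPolynomial (Fin v) F :=
  trp p ((∏ i, f i) ^ (p - 1) * s * jac f z * yco p z α)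

/-- the derivation `J ∂/∂y` of the ring modulo `(f_1, …, f_k)`, lifted to polynomials:
`D_a g = J ∂_a g - ∑_{j,i} (∂_{z j} g) adj(M)_{j i} ∂_a f_i`, `M_{i j} = ∂_{z j} f_i` -/
noncomputable def DD {F : Type} [Field F] {k v : ℕ} (f : Fin k → MvPolynomial (Fin v) F)
    (z : Fin k → Fin v) (a : Fin v) (g : MvPolynomial (Fin v) F) : MvPolynomial (Fin v) F :=
  jac f z * pderiv a g - ∑ j, ∑ i, pderiv (z j) g *
    (Matrix.adjugate (Matrix.of fun i j => pderiv (z j) (f i)) j i) * pderiv a (f i)

/-- the shift `X_a ↦ X_a + ∑_{z j = a} ζ_j`, `ζ_j` the variables of the outer polynomial ring -/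
noncomputable def shz {k v : ℕ} (z : Fin k → Fin v) {F : Type} [Field F] :
    MvPolynomial (Fin v) F →ₐ[F] MvPolynomial (Fin k) (MvPolynomial (Fin v) F) :=
  open Classical in aeval fun a => C (X a) + ∑ j, if z j = a then X j else 0

/-- `h ↦ J^(p-1) D_a h` -/
noncomputable def dE (p : ℕ) {F : Type} [Field F] {k v : ℕ} (f : Fin k → MvPolynomial (Fin v) F)
    (z : Fin k → Fin v) (a : Fin v) (h : MvPolynomial (Fin v) F) : MvPolynomial (Fin v) F :=
  jac f z ^ (p - 1) * DD f z a h

/-- composition of the `(J^(p-1) D_a)^(p-1)` over the variables `a ∉ range z` -/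
noncomputable def Theta (p : ℕ) {F : Type} [Field F] {k v : ℕ}
    (f : Fin k → MvPolynomial (Fin v) F) (z : Fin k → Fin v) (h : MvPolynomial (Fin v) F) :
    MvPolynomial (Fin v) F :=
  open Classical in
  ((Finset.univ.filter fun a => a ∉ Set.range z).toList).foldr
    (fun a g => (dE p f z a)^[p - 1] g) h

end Pool.Agent.OPT
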