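import Pool.Agent.Lib_helper80.OPF.Defs
import Pool.Agent.Lib_helper77.KSZ.Main

/-!
# OPN, block G1: the first special point
-/

namespace Pool.Agent.OPT.G1

open MvPolynomial Pool.Agent.KSS Pool.Agent.KSX Pool.Agent.OPT

theorem special_one_pr {k v : ℕ} (d : Fin k → ℕ) (hd : ∀ i, 1 ≤ d i)
    (z : Fin k → Fin v) (hz : Function.Injective z) (m : ℕ) :
    (Module.finrank ℚ (IM (Set.range (fun i => (X (z i) : MvPolynomial (Fin v) ℚ) ^ d i) ∪
      {g | ∃ a, a ∉ Set.range z ∧ g = X a}) m) : ℤ) = NN d v ∅ m - NN d k Finset.univ m := by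
  classical
  set G : Set (Fin v →₀ ℕ) := Set.range (fun i => Finsupp.single (z i) (d i)) ∪
    {β | ∃ a, a ∉ Set.range z ∧ β = Finsupp.single a 1} with hG
  have hgen : (Set.range (fun i => (X (z i) : MvPolynomial (Fin v) ℚ) ^ d i) ∪
      {g | ∃ a, a ∉ Set.range z ∧ g = X a}) = (fun s => monomial s (1 : ℚ)) '' G := by
    rw [hG, Set.image_union]
    congr 1
    · rw [← Set.range_comp]
      congr 1
      funext i
      simp only [Function.comp_apply, X, monomial_pow, one_pow]
      congr 1
      rw [Finsupp.smul_single, smul_eq_mul, mul_one]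
    · ext g
      constructor
      · rintro ⟨a, ha, rfl⟩
        exact ⟨_, ⟨a, ha, rfl⟩, rfl⟩
      · rintro ⟨β, ⟨a, ha, rfl⟩, rfl⟩
        exact ⟨a, ha, rfl⟩
  set A : Finset (Fin v →₀ ℕ) := (Finset.univ : Finset (Fin v)).finsuppAntidiag m with hA
  set N : Finset (Fin v →₀ ℕ) := A.filter
    (fun β => (∀ a, a ∉ Set.range z → β a = 0) ∧ ∀ i, β (z i) < d i) with hN
  have hAm : ∀ β : Fin v →₀ ℕ, β ∈ A ↔ β.degree = m := by
    intro β
    rw [hA, Finset.mem_finsuppAntidiag]
    simp only [Finset.subset_univ, and_true]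
    rw [Finsupp.degree_eq_sum]
  have hIM : IM (Set.range (fun i => (X (z i) : MvPolynomial (Fin v) ℚ) ^ d i) ∪
      {g | ∃ a, a ∉ Set.range z ∧ g = X a}) m =
      restrictSupport ℚ ((A \ N : Finset (Fin v →₀ ℕ)) : Set (Fin v →₀ ℕ)) := by
    rw [hgen]
    ext p
    unfold IM
    rw [Submodule.mem_inf, Submodule.restrictScalars_mem, mem_ideal_span_monomial_image,
      mem_homogeneousSubmodule, mem_restrictSupport_iff]
    constructor
    · rintro ⟨h1, h2⟩ β hβ
      rw [Finset.mem_coe, Finset.mem_sdiff]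
      have h3 : β.degree = m := by
        by_contra h
        exact (mem_support_iff.1 hβ) (h2.coeff_eq_zero h)
      refine ⟨(hAm β).2 h3, fun h4 => ?_⟩
      obtain ⟨γ, hγ, hle⟩ := h1 β hβ
      rw [hN, Finset.mem_filter] at h4
      rcases hγ with ⟨i, rfl⟩ | ⟨a, ha, rfl⟩
      · have h5 := hle (z i)
        rw [Finsupp.single_eq_same] at h5
        have := h4.2.2 i
        omega
      · have h5 := hle a
        rw [Finsupp.single_eq_same, h4.2.1 a ha] at h5
        omega
    · intro h
      constructor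
      · intro β hβ
        have h1 := h hβ
        rw [Finset.mem_coe, Finset.mem_sdiff, hN, Finset.mem_filter] at h1
        have h2 : ¬ ((∀ a, a ∉ Set.range z → β a = 0) ∧ ∀ i, β (z i) < d i) :=
          fun h3 => h1.2 ⟨h1.1, h3⟩
        rw [not_and_or] at h2
        rcases h2 with h2 | h2
        · push Not at h2
          obtain ⟨a, ha, hb⟩ := h2
          refine ⟨_, Or.inr ⟨a, ha, rfl⟩, ?_⟩
          rw [Finsupp.single_le_iff]
          omega
        · push Not at h2
          obtain ⟨i, hi⟩ := h2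
          refine ⟨_, Or.inl ⟨i, rfl⟩, ?_⟩
          rw [Finsupp.single_le_iff]
          exact hi
      · intro β hβ
        have h1 := h (mem_support_iff.2 hβ)
        rw [Finset.mem_coe, Finset.mem_sdiff, hAm] at h1
        rw [← h1.1, Finsupp.degree_eq_weight_one]
        rfl
  have hNA : N ⊆ A := Finset.filter_subset _ _
  have hfin : (Module.finrank ℚ (restrictSupport ℚ
      ((A \ N : Finset (Fin v →₀ ℕ)) : Set (Fin v →₀ ℕ))) : ℤ) = A.card - N.card := by
    rw [Module.finrank_eq_card_basis (basisRestrictSupport ℚ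
      ((A \ N : Finset (Fin v →₀ ℕ)) : Set (Fin v →₀ ℕ)))]
    rw [← Nat.cast_sub (Finset.card_le_card hNA), ← Finset.card_sdiff_of_subset hNA]
    congr 1
    exact Fintype.card_coe (A \ N)
  have hAc : (A.card : ℤ) = NN d v ∅ m := by
    rw [← ha_count_pr d v ∅ z (by simp) m]
    simp [hA]
  have hNc : (N.card : ℤ) = NN d k Finset.univ m := by
    rw [← ha_count_pr d k Finset.univ id (fun _ _ _ _ h => h) m]
    congr 1
    symm
    refine Finset.card_bij (fun β _ => Finsupp.embDomain ⟨z, hz⟩ β) ?_ ?_ ?_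
    · intro β hβ
      rw [Finset.mem_filter, Finset.mem_finsuppAntidiag] at hβ
      rw [hN, Finset.mem_filter, hAm]
      refine ⟨?_, ?_, ?_⟩
      · rw [← hβ.1.1, Finsupp.degree_apply, Finsupp.support_embDomain, Finset.sum_map,
          ← Finset.sum_subset (Finset.subset_univ β.support) (fun a _ ha => by simpa using ha)]
        exact Finset.sum_congr rfl fun a _ => Finsupp.embDomain_apply_self _ _ _
      · intro a ha
        exact Finsupp.embDomain_of_notMem_range _ _ _ ha
      · intro i
        rw [show z i = (⟨z, hz⟩ : Fin k ↪ Fin v) i from rfl, Finsupp.embDomain_apply_self]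
        exact hβ.2 i (Finset.mem_univ i)
    · intro β _ γ _ h
      exact Finsupp.embDomain_injective _ h
    · intro β hβ
      rw [hN, Finset.mem_filter, hAm] at hβ
      refine ⟨Finsupp.comapDomain z β hz.injOn, ?_, ?_⟩
      · rw [Finset.mem_filter, Finset.mem_finsuppAntidiag]
        refine ⟨⟨?_, Finset.subset_univ _⟩, fun i _ => hβ.2.2 i⟩
        rw [← hβ.1, Finsupp.degree_eq_sum]
        have h1 : ∑ a, β a = ∑ a ∈ Finset.univ.map ⟨z, hz⟩, β a := by
          symm
          refine Finset.sum_subset (Finset.subset_univ _) fun a _ ha => hβ.2.1 a ?_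
          rintro ⟨i, rfl⟩
          exact ha (Finset.mem_map.2 ⟨i, Finset.mem_univ i, rfl⟩)
        rw [h1, Finset.sum_map]
        rfl
      · ext a
        by_cases ha : a ∈ Set.range z
        · obtain ⟨i, rfl⟩ := ha
          rw [show z i = (⟨z, hz⟩ : Fin k ↪ Fin v) i from rfl, Finsupp.embDomain_apply_self]
          rfl
        · rw [hβ.2.1 a ha]
          exact Finsupp.embDomain_of_notMem_range _ _ _ ha
  rw [hIM, hfin, hAc, hNc]


end Pool.Agent.OPT.G1

namespace Pool.Agent.OPT

alias special_one := G1.special_one_pr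

end Pool.Agent.OPT
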