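import Pool.Agent.Lib_helper80.OPF.Defs
import Pool.Agent.Lib_helper77.KSSP.Hilb

/-!
# OPN, block G2: second special point
-/

namespace Pool.Agent.OPT.G2

open MvPolynomial Pool.Agent.KSS Pool.Agent.KSX
open scoped ENNReal

/-! ### counting -/

/-- `1 + X + ⋯ + X^(e-1)` -/
noncomputable def geo (e : ℕ) : PowerSeries ℤ := PowerSeries.mk fun a => if a < e then (1 : ℤ) else 0

theorem geo_mul (e : ℕ) : geo e * (1 - PowerSeries.X) = 1 - PowerSeries.X ^ e := ha_geom e

/-- nonnegative nondecreasing coefficients -/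
def Mon (F : PowerSeries ℤ) : Prop :=
  0 ≤ PowerSeries.coeff 0 F ∧ Monotone fun m => PowerSeries.coeff m F

theorem Mon.nonneg {F : PowerSeries ℤ} (h : Mon F) (m : ℕ) : 0 ≤ PowerSeries.coeff m F :=
  h.1.trans (h.2 (Nat.zero_le m))

theorem geo_coeff (e : ℕ) (F : PowerSeries ℤ) (m : ℕ) :
    PowerSeries.coeff m (geo e * F) =
      ∑ a ∈ Finset.range (m + 1), (if a < e then (1 : ℤ) else 0) * PowerSeries.coeff (m - a) F := by
  rw [PowerSeries.coeff_mul, Finset.Nat.sum_antidiagonal_eq_sum_range_succ_mk]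
  refine Finset.sum_congr rfl fun a _ => ?_
  rw [geo, PowerSeries.coeff_mk]

theorem geo_mon {F : PowerSeries ℤ} (h : Mon F) (e : ℕ) : Mon (geo e * F) := by
  constructor
  · rw [geo_coeff]
    refine Finset.sum_nonneg fun a _ => mul_nonneg ?_ (h.nonneg _)
    split_ifs <;> norm_num
  · refine monotone_nat_of_le_succ fun m => ?_
    show PowerSeries.coeff m (geo e * F) ≤ PowerSeries.coeff (m + 1) (geo e * F)
    rw [geo_coeff, geo_coeff, Finset.sum_range_succ _ (m + 1)]
    have h1 : 0 ≤ (if m + 1 < e then (1 : ℤ) else 0) * PowerSeries.coeff (m + 1 - (m + 1)) F := by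
      refine mul_nonneg ?_ (h.nonneg _)
      split_ifs <;> norm_num
    have h2 : ∑ a ∈ Finset.range (m + 1), (if a < e then (1 : ℤ) else 0) *
        PowerSeries.coeff (m - a) F ≤ ∑ a ∈ Finset.range (m + 1), (if a < e then (1 : ℤ) else 0) *
        PowerSeries.coeff (m + 1 - a) F := by
      refine Finset.sum_le_sum fun a _ => mul_le_mul_of_nonneg_left (h.2 (by omega)) ?_
      split_ifs <;> norm_num
    linarith

theorem geo_le {F : PowerSeries ℤ} (h : Mon F) (e m : ℕ) :
    PowerSeries.coeff m (geo e * F) ≤ e * PowerSeries.coeff m F := by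
  rw [geo_coeff]
  have h1 : ∑ a ∈ Finset.range (m + 1), (if a < e then (1 : ℤ) else 0) *
        PowerSeries.coeff (m - a) F ≤
      ∑ a ∈ Finset.range (m + 1), (if a < e then (1 : ℤ) else 0) * PowerSeries.coeff m F := by
    refine Finset.sum_le_sum fun a _ => mul_le_mul_of_nonneg_left (h.2 (by omega)) ?_
    split_ifs <;> norm_num
  refine h1.trans ?_
  rw [← Finset.sum_mul]
  refine mul_le_mul_of_nonneg_right ?_ (h.nonneg m)
  rw [Finset.sum_ite, Finset.sum_const_zero, add_zero, Finset.sum_const, nsmul_eq_mul, mul_one]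
  have h2 : ((Finset.range (m + 1)).filter fun a => a < e).card ≤ (Finset.range e).card := by
    refine Finset.card_le_card fun a ha => ?_
    rw [Finset.mem_filter] at ha
    exact Finset.mem_range.2 ha.2
  rw [Finset.card_range] at h2
  exact_mod_cast h2

theorem prod_geo {p : ℕ} (d : Fin p → ℕ) {F : PowerSeries ℤ} (h : Mon F) (B : Finset (Fin p)) :
    Mon ((∏ i ∈ B, geo (d i)) * F) ∧ ∀ m, PowerSeries.coeff m ((∏ i ∈ B, geo (d i)) * F) ≤
      (∏ i ∈ B, (d i : ℤ)) * PowerSeries.coeff m F := by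
  classical
  induction B using Finset.induction_on with
  | empty => simpa using h
  | insert j B hj ih =>
    obtain ⟨ih1, ih2⟩ := ih
    rw [Finset.prod_insert hj, Finset.prod_insert hj, mul_assoc]
    refine ⟨geo_mon ih1 _, fun m => (geo_le ih1 (d j) m).trans ?_⟩
    rw [mul_assoc]
    exact mul_le_mul_of_nonneg_left (ih2 m) (by positivity)

/-- the power series `1 / (1 - X)^v` -/
noncomputable abbrev I (v : ℕ) : PowerSeries ℤ := (PowerSeries.invOneSubPow ℤ v : (PowerSeries ℤ)ˣ)

theorem I_add (a b : ℕ) : I (a + b) = I a * I b := by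
  have := congrArg Units.val (PowerSeries.invOneSubPow_add ℤ a b)
  rw [Units.val_mul] at this
  exact this

theorem I_coeff (u m : ℕ) : PowerSeries.coeff m (I (u + 1)) = ((u + m).choose u : ℤ) := by
  rw [I, PowerSeries.invOneSubPow_val_succ_eq_mk_add_choose, PowerSeries.coeff_mk]

theorem I_mon (u : ℕ) : Mon (I (u + 1)) := by
  constructor
  · rw [I_coeff]
    positivity
  · intro a b hab
    show PowerSeries.coeff a (I (u + 1)) ≤ PowerSeries.coeff b (I (u + 1))
    rw [I_coeff, I_coeff]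
    exact_mod_cast Nat.choose_le_choose u (by omega)

theorem HS_eq {p : ℕ} (d : Fin p → ℕ) (u : ℕ) :
    HS d (p + u) Finset.univ = (∏ i, geo (d i)) * I u := by
  have h1 : (1 - PowerSeries.X : PowerSeries ℤ) ^ p * I p = 1 := by
    rw [I, ← PowerSeries.invOneSubPow_inv_eq_one_sub_pow]
    exact (PowerSeries.invOneSubPow ℤ p).inv_val
  have h2 : ∏ i, (1 - (PowerSeries.X : PowerSeries ℤ) ^ (d i)) =
      (∏ i, geo (d i)) * (1 - PowerSeries.X) ^ p := by
    have e1 : ((1 - PowerSeries.X : PowerSeries ℤ)) ^ p =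
        ∏ _j : Fin p, (1 - PowerSeries.X : PowerSeries ℤ) := by
      rw [Finset.prod_const, Finset.card_univ, Fintype.card_fin]
    rw [e1, ← Finset.prod_mul_distrib]
    exact Finset.prod_congr rfl fun i _ => (geo_mul (d i)).symm
  have h3 : HS d (p + u) Finset.univ =
      (∏ i, (1 - (PowerSeries.X : PowerSeries ℤ) ^ (d i))) * I (p + u) := rfl
  rw [h3, h2, I_add]
  calc (∏ i, geo (d i)) * (1 - PowerSeries.X) ^ p * (I p * I u)
      = (∏ i, geo (d i)) * ((1 - PowerSeries.X) ^ p * I p) * I u := by ring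
    _ = _ := by rw [h1, mul_one]

/-- multiplication by `1 / (1 - X)` is summation -/
theorem sum_coeff (F : PowerSeries ℤ) (M : ℕ) :
    PowerSeries.coeff M (F * I 1) = ∑ m ∈ Finset.range (M + 1), PowerSeries.coeff m F := by
  rw [PowerSeries.coeff_mul, Finset.Nat.sum_antidiagonal_eq_sum_range_succ_mk]
  refine Finset.sum_congr rfl fun a _ => ?_
  rw [show (1 : ℕ) = 0 + 1 from rfl, I_coeff]
  simp

theorem exists_deg {p : ℕ} (d : Fin p → ℕ) (u : ℕ) :
    ∃ m, PowerSeries.coeff m (HS d (p + u) Finset.univ) < PowerSeries.coeff m (I (u + 1)) := by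
  by_contra hcon
  push Not at hcon
  set D : ℕ := ∏ i, d i with hD
  set M : ℕ := D * (u + 1) with hM
  have h1 : PowerSeries.coeff M (I (u + 1) * I 1) ≤
      PowerSeries.coeff M (HS d (p + u) Finset.univ * I 1) := by
    rw [sum_coeff, sum_coeff]
    exact Finset.sum_le_sum fun m _ => hcon m
  rw [HS_eq, mul_assoc, ← I_add, ← I_add] at h1
  have h2 := (prod_geo d (I_mon u) Finset.univ).2 M
  have h3 := h1.trans h2
  rw [I_coeff, I_coeff] at h3
  have h4 : ((u + 1 + M).choose (u + 1)) ≤ D * (u + M).choose u := by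
    have e : (∏ i, (d i : ℤ)) = ((D : ℕ) : ℤ) := by rw [hD]; push_cast; rfl
    rw [e] at h3
    exact_mod_cast h3
  have h5 := Nat.add_one_mul_choose_eq (u + M) u
  have h6 : 0 < (u + M).choose u := Nat.choose_pos (by omega)
  have h7 : (u + M + 1) * (u + M).choose u ≤ (D * (u + 1)) * (u + M).choose u := by
    rw [h5]
    calc (u + M + 1).choose (u + 1) * (u + 1) = (u + 1 + M).choose (u + 1) * (u + 1) := by
          rw [show u + M + 1 = u + 1 + M by ring]
      _ ≤ D * (u + M).choose u * (u + 1) := Nat.mul_le_mul_right _ h4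
      _ = _ := by ring
  have h8 := Nat.le_of_mul_le_mul_right h7 h6
  omega

/-! ### the ideal -/

section

variable {k v : ℕ} (d : Fin k → ℕ) (z : Fin k → Fin v) (b : Fin v)

/-- the special forms -/
noncomputable def ff (i : Fin k) : MvPolynomial (Fin v) ℚ := X (z i) ^ d i - X b ^ d i

/-- the generators of the ideal -/
noncomputable def SS2 : Set (MvPolynomial (Fin v) ℚ) :=
  insert (jac (fun i => (X (z i) : MvPolynomial (Fin v) ℚ) ^ d i - X b ^ d i) z)
    (Set.range (fun i => (X (z i) : MvPolynomial (Fin v) ℚ) ^ d i - X b ^ d i))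

theorem jac_eq (hz : Function.Injective z) (hb : b ∉ Set.range z) :
    jac (fun i => (X (z i) : MvPolynomial (Fin v) ℚ) ^ d i - X b ^ d i) z =
      ∏ i, ((d i : MvPolynomial (Fin v) ℚ) * X (z i) ^ (d i - 1)) := by
  rw [jac]
  have h1 : (Matrix.of fun i j => pderiv (z j)
      ((X (z i) : MvPolynomial (Fin v) ℚ) ^ d i - X b ^ d i)) =
      Matrix.diagonal fun i => ((d i : MvPolynomial (Fin v) ℚ) * X (z i) ^ (d i - 1)) := by
    ext1 i j
    rw [Matrix.of_apply, map_sub, Derivation.leibniz_pow, Derivation.leibniz_pow,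
      pderiv_X_of_ne (R := ℚ) (i := z j) (j := b) (fun h => hb ⟨j, h.symm⟩)]
    simp only [smul_zero, sub_zero]
    by_cases hij : i = j
    · subst hij
      rw [pderiv_X_self, Matrix.diagonal_apply_eq, smul_eq_mul, mul_one, nsmul_eq_mul]
    · rw [pderiv_X_of_ne (fun h => hij (hz h)), Matrix.diagonal_apply_ne _ hij]
      simp
  rw [h1, Matrix.det_diagonal]

theorem Xb_mem (hd : ∀ i, 1 ≤ d i) (hz : Function.Injective z) (hb : b ∉ Set.range z) :
    (X b : MvPolynomial (Fin v) ℚ) ^ (∑ i, d i) ∈ Ideal.span (SS2 d z b) := by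
  have h1 : jac (fun i => (X (z i) : MvPolynomial (Fin v) ℚ) ^ d i - X b ^ d i) z ∈
      Ideal.span (SS2 d z b) := Ideal.subset_span (Set.mem_insert _ _)
  have h2 : ∀ i, Ideal.Quotient.mk (Ideal.span (SS2 d z b))
      ((X (z i) : MvPolynomial (Fin v) ℚ) ^ d i) =
      Ideal.Quotient.mk (Ideal.span (SS2 d z b)) (X b ^ d i) := by
    intro i
    refine (Ideal.Quotient.mk_eq_mk_iff_sub_mem _ _).2 (Ideal.subset_span ?_)
    exact Set.mem_insert_of_mem _ ⟨i, rfl⟩
  have h3 : (C (∏ i, (d i : ℚ)) : MvPolynomial (Fin v) ℚ) * X b ^ (∑ i, d i) ∈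
      Ideal.span (SS2 d z b) := by
    rw [← Ideal.Quotient.eq_zero_iff_mem]
    have h4 := Ideal.Quotient.eq_zero_iff_mem.2
      (Ideal.mul_mem_left _ (∏ i, (X (z i) : MvPolynomial (Fin v) ℚ)) h1)
    rw [jac_eq d z b hz hb, ← Finset.prod_mul_distrib] at h4
    have h5 : ∀ i, (X (z i) : MvPolynomial (Fin v) ℚ) * ((d i : MvPolynomial (Fin v) ℚ) *
        X (z i) ^ (d i - 1)) = C (d i : ℚ) * X (z i) ^ d i := by
      intro i
      have h6 : d i = (d i - 1) + 1 := by have := hd i; omega
      have h7 : (C (d i : ℚ) : MvPolynomial (Fin v) ℚ) = (d i : MvPolynomial (Fin v) ℚ) :=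
        map_natCast C (d i)
      rw [h7]
      conv_rhs => rw [h6, pow_succ]
      rw [← h6]
      ring
    rw [Finset.prod_congr rfl fun i _ => h5 i, Finset.prod_mul_distrib, map_mul, map_prod _
      (fun i => (X (z i) : MvPolynomial (Fin v) ℚ) ^ d i), Finset.prod_congr rfl fun i _ => h2 i,
      ← map_prod, ← map_prod, ← map_mul, Finset.prod_pow_eq_pow_sum] at h4
    exact h4
  have h4 := Ideal.mul_mem_left _ (C (∏ i, (d i : ℚ))⁻¹) h3
  have h5 : (∏ i, (d i : ℚ)) ≠ 0 := Finset.prod_ne_zero_iff.2 fun i _ => by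
    have := hd i
    positivity
  rwa [← mul_assoc, ← C_mul, inv_mul_cancel₀ h5, C_1, one_mul] at h4

/-- the standard monomials -/
noncomputable def std (m : ℕ) : Finset (Fin v →₀ ℕ) :=
  open Classical in
  ((Finset.univ : Finset (Fin v)).finsuppAntidiag m).filter fun β =>
    ∀ i ∈ (Finset.univ : Finset (Fin (k + 1))), β ((Fin.cons b z : Fin (k + 1) → Fin v) i) <
      (Fin.cons (∑ i, d i) d : Fin (k + 1) → ℕ) i

theorem mem_std {m : ℕ} {β : Fin v →₀ ℕ} (h1 : β.degree = m) (h2 : β b < ∑ i, d i)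
    (h3 : ∀ i, β (z i) < d i) : β ∈ std d z b m := by
  classical
  rw [std, Finset.mem_filter, Finset.mem_finsuppAntidiag]
  refine ⟨⟨?_, by simp⟩, ?_⟩
  · rw [← h1, Finsupp.degree]
    symm
    apply Finset.sum_subset (by simp)
    intro i _ hi
    simpa using hi
  · intro i _
    refine Fin.cases ?_ (fun j => ?_) i
    · exact h2
    · exact h3 j

theorem mon_mem_IM {m : ℕ} {S : Set (MvPolynomial (Fin v) ℚ)} {p : MvPolynomial (Fin v) ℚ}
    (hp : p ∈ Ideal.span S) (hm : p.IsHomogeneous m) : p ∈ IM S m := ⟨hp, hm⟩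

theorem reduce (hd : ∀ i, 1 ≤ d i) (hz : Function.Injective z) (hb : b ∉ Set.range z) (m : ℕ)
    (n : ℕ) : ∀ β : Fin v →₀ ℕ, β.degree = m → ∑ j, β (z j) = n →
      (monomial β (1 : ℚ)) ∈ IM (SS2 d z b) m ⊔
        Submodule.span ℚ (((std d z b m).image fun β => monomial β (1 : ℚ) :
          Finset (MvPolynomial (Fin v) ℚ)) : Set (MvPolynomial (Fin v) ℚ)) := by
  classical
  induction n using Nat.strong_induction_on with
  | _ n ih =>
  intro β hβ hn
  by_cases h : ∃ i, d i ≤ β (z i)
  · obtain ⟨i, hi⟩ := h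
    have e : β = (β - Finsupp.single (z i) (d i)) + Finsupp.single (z i) (d i) :=
      (tsub_add_cancel_of_le (Finsupp.single_le_iff.2 hi)).symm
    set β0 := β - Finsupp.single (z i) (d i) with hβ0
    have hdeg : (β0 + Finsupp.single b (d i)).degree = m := by
      rw [← hβ, e, map_add, map_add, Finsupp.degree_single, Finsupp.degree_single]
    have hsum : ∑ j, (β0 + Finsupp.single b (d i)) (z j) < n := by
      rw [← hn]
      refine Finset.sum_lt_sum (fun j _ => ?_) ⟨i, Finset.mem_univ i, ?_⟩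
      · rw [Finsupp.add_apply, Finsupp.single_eq_of_ne (fun h' => hb ⟨j, h'⟩), add_zero, hβ0,
          Finsupp.tsub_apply]
        exact Nat.sub_le _ _
      · rw [Finsupp.add_apply, Finsupp.single_eq_of_ne (fun h' => hb ⟨i, h'⟩), add_zero, hβ0,
          Finsupp.tsub_apply, Finsupp.single_eq_same]
        have := hd i
        omega
    have h1 := ih _ hsum _ hdeg rfl
    have h2 : monomial β (1 : ℚ) - monomial (β0 + Finsupp.single b (d i)) (1 : ℚ) ∈
        IM (SS2 d z b) m := by
      refine ⟨?_, ?_⟩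
      · have h3 : monomial β (1 : ℚ) - monomial (β0 + Finsupp.single b (d i)) (1 : ℚ) =
            monomial β0 (1 : ℚ) * (X (z i) ^ d i - X b ^ d i) := by
          rw [mul_sub, X_pow_eq_monomial, X_pow_eq_monomial, monomial_mul, monomial_mul, mul_one]
          conv_lhs => rw [e]
        rw [h3]
        exact Ideal.mul_mem_left _ _ (Ideal.subset_span (Set.mem_insert_of_mem _ ⟨i, rfl⟩))
      · exact (homogeneousSubmodule (Fin v) ℚ m).sub_mem (isHomogeneous_monomial _ hβ)
          (isHomogeneous_monomial _ hdeg)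
    have h3 : (monomial β (1 : ℚ)) = (monomial β (1 : ℚ) -
        monomial (β0 + Finsupp.single b (d i)) (1 : ℚ)) +
        monomial (β0 + Finsupp.single b (d i)) (1 : ℚ) := by ring
    rw [h3]
    exact Submodule.add_mem _ (Submodule.mem_sup_left h2) h1
  · push Not at h
    by_cases hbb : β b < ∑ i, d i
    · refine Submodule.mem_sup_right (Submodule.subset_span ?_)
      rw [Finset.mem_coe]
      exact Finset.mem_image_of_mem _ (mem_std d z b hβ hbb h)
    · push Not at hbb
      refine Submodule.mem_sup_left ⟨?_, isHomogeneous_monomial _ hβ⟩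
      have e : β = (β - Finsupp.single b (∑ i, d i)) + Finsupp.single b (∑ i, d i) :=
        (tsub_add_cancel_of_le (Finsupp.single_le_iff.2 hbb)).symm
      have h3 : monomial β (1 : ℚ) = monomial (β - Finsupp.single b (∑ i, d i)) (1 : ℚ) *
          X b ^ (∑ i, d i) := by
        rw [X_pow_eq_monomial, monomial_mul, mul_one, ← e]
      rw [h3]
      exact Ideal.mul_mem_left _ _ (Xb_mem d z b hd hz hb)

theorem hom_le (hd : ∀ i, 1 ≤ d i) (hz : Function.Injective z) (hb : b ∉ Set.range z) (m : ℕ) :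
    Module.finrank ℚ (homogeneousSubmodule (Fin v) ℚ m) ≤
      Module.finrank ℚ (IM (SS2 d z b) m) + (std d z b m).card := by
  classical
  set T : Submodule ℚ (MvPolynomial (Fin v) ℚ) :=
    Submodule.span ℚ (((std d z b m).image fun β => monomial β (1 : ℚ) :
          Finset (MvPolynomial (Fin v) ℚ)) : Set (MvPolynomial (Fin v) ℚ)) with hT
  have hle : homogeneousSubmodule (Fin v) ℚ m ≤ IM (SS2 d z b) m ⊔ T := by
    intro p hp
    rw [← support_sum_monomial_coeff p]
    refine Submodule.sum_mem _ fun β hβ => ?_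
    have h1 : monomial β (coeff β p) = coeff β p • monomial β (1 : ℚ) := by
      rw [smul_monomial, smul_eq_mul, mul_one]
    rw [h1]
    refine Submodule.smul_mem _ _ (reduce d z b hd hz hb m _ β ?_ rfl)
    have h2 : p.IsHomogeneous m := hp
    have h3 := h2 (mem_support_iff.1 hβ)
    rw [Finsupp.degree_eq_weight_one]
    exact h3
  have hfT : FiniteDimensional ℚ T := FiniteDimensional.span_finset ℚ _
  have h1 := Submodule.finrank_mono hle
  have h2 := Submodule.finrank_add_le_finrank_add_finrank (IM (SS2 d z b) m) T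
  have h3 : Module.finrank ℚ T ≤ (std d z b m).card :=
    (finrank_span_finset_le_card _).trans Finset.card_image_le
  omega

end

theorem special_two_pr {k v : ℕ} (d : Fin k → ℕ) (hd : ∀ i, 1 ≤ d i)
    (z : Fin k → Fin v) (hz : Function.Injective z) (b : Fin v) (hb : b ∉ Set.range z) :
    ∃ m : ℕ, NN d v ∅ m - NN d (v - k) ∅ m <
      (Module.finrank ℚ (IM (insert
        (jac (fun i => (X (z i) : MvPolynomial (Fin v) ℚ) ^ d i - X b ^ d i) z)
        (Set.range (fun i => (X (z i) : MvPolynomial (Fin v) ℚ) ^ d i - X b ^ d i))) m) : ℤ) := by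
  classical
  have hinj : Function.Injective (Fin.cons b z : Fin (k + 1) → Fin v) :=
    Fin.cons_injective_iff.2 ⟨hb, hz⟩
  have hkv : k + 1 ≤ v := by
    have := Fintype.card_le_of_injective _ hinj
    simpa using this
  obtain ⟨u, rfl⟩ : ∃ u, v = k + 1 + u := ⟨v - (k + 1), by omega⟩
  obtain ⟨m, hm⟩ := exists_deg (Fin.cons (∑ i, d i) d : Fin (k + 1) → ℕ) u
  refine ⟨m, ?_⟩
  have h1 := hom_le d z b hd hz hb m
  have h2 := finrank_hom_pr ℚ d (k + 1 + u) m
  have h3 : ((std d z b m).card : ℤ) =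
      NN (Fin.cons (∑ i, d i) d : Fin (k + 1) → ℕ) (k + 1 + u) Finset.univ m := by
    rw [← ha_count_pr (Fin.cons (∑ i, d i) d : Fin (k + 1) → ℕ) (k + 1 + u) Finset.univ
      (Fin.cons b z) hinj.injOn m, std]
  have h4 : NN d (k + 1 + u - k) ∅ m = PowerSeries.coeff m (I (u + 1)) := by
    have e : k + 1 + u - k = u + 1 := by omega
    rw [e, NN, HS, Finset.prod_empty, one_mul]
  have h5 : NN (Fin.cons (∑ i, d i) d : Fin (k + 1) → ℕ) (k + 1 + u) Finset.univ m <
      PowerSeries.coeff m (I (u + 1)) := hm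
  have h6 : ((Module.finrank ℚ (homogeneousSubmodule (Fin (k + 1 + u)) ℚ m) : ℕ) : ℤ) ≤
      (Module.finrank ℚ (IM (SS2 d z b) m) : ℤ) + ((std d z b m).card : ℤ) := by
    exact_mod_cast h1
  rw [h4]
  have h7 : NN d (k + 1 + u) ∅ m - PowerSeries.coeff m (I (u + 1)) <
      (Module.finrank ℚ (IM (SS2 d z b) m) : ℤ) := by
    rw [← h2]
    linarith
  exact h7

end Pool.Agent.OPT.G2

namespace Pool.Agent.OPT

alias special_two := G2.special_two_pr

end Pool.Agent.OPT
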