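import Pool.Agent.Lib_helper80.OPF.Defs
import Pool.Agent.Lib_helper77.KSSP.Hilb

/-!
# OPN, block GJ: the Jacobian minor is a nonzerodivisor (helper47)
-/

namespace Pool.Agent.OPT.GJ

open MvPolynomial Pool.Agent.KSS Pool.Agent.KSX
open scoped ENNReal

theorem nzJ_of_rank_pr {k v : ℕ} (d : Fin k → ℕ) (hkv : k ≤ v) {F : Type} [Field F]
    (f : Fin k → MvPolynomial (Fin v) F) (hf : ∀ i, (f i).IsHomogeneous (d i))
    (z : Fin k → Fin v) (hz : Function.Injective z) (m : ℕ)
    (hm : NN d v ∅ m - NN d (v - k) ∅ m <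
      (Module.finrank F (IM (insert (jac f z) (Set.range f)) m) : ℤ))
    (htf : ∀ (g : MvPolynomial (Fin v) F) (e : ℕ), g.IsHomogeneous e → g ≠ 0 →
      (∀ β ∈ g.support, ∀ j, β (z j) = 0) → ∀ s, g * s ∈ II f → s ∈ II f)
    (s : MvPolynomial (Fin v) F) (hs : jac f z * s ∈ II f) : s ∈ II f := by
  classical
  have hC : (Finset.univ \ Finset.univ.image z : Finset (Fin v)).card = v - k := by
    rw [Finset.card_sdiff_of_subset (Finset.subset_univ _), Finset.card_univ, Fintype.card_fin,
      Finset.card_image_of_injective _ hz, Finset.card_univ, Fintype.card_fin]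
  set ρ : Fin (v - k) → Fin v :=
    fun i => (Finset.univ \ Finset.univ.image z : Finset (Fin v)).orderEmbOfFin hC i with hρdef
  have hρi : Function.Injective ρ :=
    ((Finset.univ \ Finset.univ.image z : Finset (Fin v)).orderEmbOfFin hC).injective
  have hρ : ∀ i j, ρ i ≠ z j := by
    intro i j h
    have h1 := Finset.orderEmbOfFin_mem (Finset.univ \ Finset.univ.image z : Finset (Fin v)) hC i
    rw [Finset.mem_sdiff] at h1
    exact h1.2 (Finset.mem_image.2 ⟨j, Finset.mem_univ j, h.symm⟩)
  have hinj : Function.Injective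
      (rename ρ : MvPolynomial (Fin (v - k)) F →ₐ[F] MvPolynomial (Fin v) F).toLinearMap :=
    rename_injective ρ hρi
  have hfd1 : Module.Finite F (homogeneousSubmodule (Fin v) F m) :=
    Module.Finite.iff_fg.2 (homogeneousSubmodule_fg (Fin v) F m)
  have hfd2 : Module.Finite F (homogeneousSubmodule (Fin (v - k)) F m) :=
    Module.Finite.iff_fg.2 (homogeneousSubmodule_fg (Fin (v - k)) F m)
  set W : Submodule F (MvPolynomial (Fin v) F) :=
    (homogeneousSubmodule (Fin (v - k)) F m).map
      (rename ρ : MvPolynomial (Fin (v - k)) F →ₐ[F] MvPolynomial (Fin v) F).toLinearMap with hW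
  have hWr : (Module.finrank F W : ℤ) = NN d (v - k) ∅ m := by
    rw [← finrank_hom_pr F d (v - k) m]
    have h2 := (Submodule.equivMapOfInjective _ hinj
      (homogeneousSubmodule (Fin (v - k)) F m)).finrank_eq
    rw [hW]
    exact_mod_cast h2.symm
  have hWle : W ≤ homogeneousSubmodule (Fin v) F m := by
    rw [hW]
    rintro _ ⟨g, hg, rfl⟩
    rw [mem_homogeneousSubmodule]
    exact IsHomogeneous.rename_isHomogeneous hg
  set V : Submodule F (MvPolynomial (Fin v) F) := IM (insert (jac f z) (Set.range f)) m with hV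
  have hVle : V ≤ homogeneousSubmodule (Fin v) F m := inf_le_right
  have hWfd : FiniteDimensional F W := Submodule.finiteDimensional_of_le hWle
  have hVfd : FiniteDimensional F V := Submodule.finiteDimensional_of_le hVle
  have h3 := Submodule.finrank_sup_add_finrank_inf_eq W V
  have h4 : Module.finrank F (W ⊔ V : Submodule F (MvPolynomial (Fin v) F)) ≤
      Module.finrank F (homogeneousSubmodule (Fin v) F m) :=
    Submodule.finrank_mono (sup_le hWle hVle)
  have h5 := finrank_hom_pr F d v m
  have h6 : 0 < Module.finrank F (W ⊓ V : Submodule F (MvPolynomial (Fin v) F)) := by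
    omega
  have h7 : (W ⊓ V : Submodule F (MvPolynomial (Fin v) F)) ≠ ⊥ := by
    intro h
    rw [h, finrank_bot] at h6
    omega
  obtain ⟨g, hg, hg0⟩ := Submodule.exists_mem_ne_zero_of_ne_bot h7
  obtain ⟨hgW, hgV⟩ := hg
  have hgh : g.IsHomogeneous m := hWle hgW
  have hsupp : ∀ β ∈ g.support, ∀ j, β (z j) = 0 := by
    rw [hW] at hgW
    obtain ⟨h, -, rfl⟩ := hgW
    intro β hβ j
    have h8 : β ∈ (rename ρ h).support := hβ
    rw [support_rename_of_injective hρi, Finset.mem_image] at h8
    obtain ⟨γ, -, rfl⟩ := h8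
    apply Finsupp.mapDomain_of_notMem_range
    rintro ⟨i, hi⟩
    exact hρ i j hi
  have hgI : g ∈ Ideal.span (insert (jac f z) (Set.range f)) := hgV.1
  rw [Ideal.mem_span_insert] at hgI
  obtain ⟨a, i, hi, hgi⟩ := hgI
  refine htf g m hgh hg0 hsupp s ?_
  rw [hgi, add_mul]
  refine Ideal.add_mem _ ?_ (Ideal.mul_mem_right _ _ hi)
  rw [mul_assoc]
  exact Ideal.mul_mem_left _ _ hs


end Pool.Agent.OPT.GJ

namespace Pool.Agent.OPT

alias nzJ_of_rank := GJ.nzJ_of_rank_pr

end Pool.Agent.OPT
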