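import Pool.Agent.Lib_helper80.OPF.Defs

/-!
# OPN, block GR: openness of rank conditions (MP_2c2240_ag)
-/

namespace Pool.Agent.OPT.GR

open MvPolynomial Pool.Agent.KSS Pool.Agent.KSX Pool.Agent.OPT
open scoped ENNReal

/-- a nonzero minor of independent vectors -/
theorem gr_minor {F κ I : Type} [Field F] [Fintype κ] [DecidableEq κ] (u : κ → I → F)
    (hu : LinearIndependent F u) : ∃ γ : κ → I, (Matrix.of fun i j => u i (γ j)).det ≠ 0 := by
  set w : I → κ → F := fun γ i => u i γ with hw
  have h1 : Submodule.span F (Set.range w) = ⊤ := by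
    by_contra hne
    obtain ⟨f, hf0, hf⟩ := Submodule.exists_le_ker_of_lt_top _ (lt_top_iff_ne_top.mpr hne)
    apply hf0
    have h2 : ∀ y : κ → F, f y = ∑ i, y i * f (Pi.single i 1) := by
      intro y
      conv_lhs => rw [← Finset.univ_sum_single y]
      rw [map_sum]
      refine Finset.sum_congr rfl fun i _ => ?_
      have : (Pi.single i (y i) : κ → F) = y i • Pi.single i 1 := by
        rw [← Pi.single_smul, smul_eq_mul, mul_one]
      rw [this, map_smul, smul_eq_mul]
    have h3 : ∑ i, f (Pi.single i 1) • u i = 0 := by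
      funext γ
      have h4 : f (w γ) = 0 := hf (Submodule.subset_span ⟨γ, rfl⟩)
      rw [h2] at h4
      rw [Finset.sum_apply, Pi.zero_apply, ← h4]
      refine Finset.sum_congr rfl fun i _ => ?_
      rw [Pi.smul_apply, smul_eq_mul, mul_comm]
    have h5 := Fintype.linearIndependent_iff.mp hu _ h3
    ext i
    exact h5 i
  obtain ⟨κ', a, ha, hsp, hli⟩ := exists_linearIndependent' F w
  rw [h1] at hsp
  have b := Module.Basis.mk hli hsp.ge
  have : Fintype κ' := FiniteDimensional.fintypeBasisIndex b
  have hcard : Fintype.card κ = Fintype.card κ' := by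
    rw [← Module.finrank_eq_card_basis b, Module.finrank_fintype_fun_eq_card]
  obtain ⟨ε⟩ := Fintype.card_eq.mp hcard
  refine ⟨a ∘ ε, ?_⟩
  have h6 : LinearIndependent F (Matrix.of fun i j => u i ((a ∘ ε) j)).col :=
    hli.comp ε ε.injective
  rw [Matrix.linearIndependent_cols_iff_isUnit, Matrix.isUnit_iff_isUnit_det] at h6
  exact h6.ne_zero

/-- the products `X^β g_b` of degree `m` -/
abbrev TT {v : ℕ} {B : Type} (e : B → ℕ) (m : ℕ) : Type :=
  Σ b : B, {β : Fin v →₀ ℕ // β.degree + e b = m}

theorem gr_fin {v : ℕ} {B : Type} [Fintype B] (e : B → ℕ) (m : ℕ) :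
    Finite (TT (v := v) e m) := by
  have : ∀ b, Finite {β : Fin v →₀ ℕ // β.degree + e b = m} := by
    intro b
    refine ((Finsupp.finite_of_degree_le (σ := Fin v) m).subset ?_).to_subtype
    intro β hβ
    have h1 : β.degree + e b = m := hβ
    show β.degree ≤ m
    omega
  infer_instance

/-- the degree `m` part of an ideal -/
theorem gr_span {F : Type} [Field F] {v : ℕ} {B : Type} [Fintype B]
    (g : B → MvPolynomial (Fin v) F) (e : B → ℕ) (hg : ∀ b, (g b).IsHomogeneous (e b)) (m : ℕ) :
    IM (Set.range g) m =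
      Submodule.span F (Set.range fun t : TT e m => monomial t.2.1 (1 : F) * g t.1) := by
  classical
  set W := Submodule.span F (Set.range fun t : TT e m => monomial t.2.1 (1 : F) * g t.1) with hW
  apply le_antisymm
  · rintro s ⟨hs1, hs2⟩
    have hs1' : s ∈ Submodule.span (MvPolynomial (Fin v) F) (Set.range g) := hs1
    obtain ⟨a, ha⟩ := (Submodule.mem_span_range_iff_exists_fun _).mp hs1'
    have h1 : homogeneousComponent m s = s := by
      rw [homogeneousComponent_of_mem hs2, if_pos rfl]
    rw [← h1, ← ha, map_sum]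
    refine Submodule.sum_mem _ fun b _ => ?_
    rw [smul_eq_mul, (a b).as_sum, Finset.sum_mul, map_sum]
    refine Submodule.sum_mem _ fun β _ => ?_
    have h2 : (monomial β (coeff β (a b)) * g b).IsHomogeneous (β.degree + e b) :=
      (isHomogeneous_monomial _ rfl).mul (hg b)
    rw [homogeneousComponent_of_mem h2]
    split_ifs with h3
    · have h4 : monomial β (coeff β (a b)) * g b =
          coeff β (a b) • (monomial β (1 : F) * g b) := by
        rw [← smul_mul_assoc, smul_monomial, smul_eq_mul, mul_one]
      rw [h4]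
      exact W.smul_mem _ (Submodule.subset_span ⟨⟨b, β, h3.symm⟩, rfl⟩)
    · exact W.zero_mem
  · rw [hW, Submodule.span_le]
    rintro _ ⟨⟨b, β, hβ⟩, rfl⟩
    refine ⟨?_, ?_⟩
    · exact Ideal.mul_mem_left _ _ (Ideal.subset_span ⟨b, rfl⟩)
    · have h2 := (isHomogeneous_monomial (σ := Fin v) (1 : F) (rfl : β.degree = β.degree)).mul
        (hg b)
      rw [hβ] at h2
      exact h2

/-- the coefficients of the universal products -/
theorem gr_coeff {k v : ℕ} {d : Fin k → ℕ} {F : Type} [Field F] (c : CI d v → F)
    (g : MvPolynomial (Fin v) (MvPolynomial (CI d v) ℤ)) (β γ : Fin v →₀ ℕ) :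
    coeff γ (monomial β (1 : F) * MvPolynomial.map (aeval c).toRingHom g) =
      aeval c (coeff γ (monomial β 1 * g)) := by
  have h1 : monomial β (1 : F) * MvPolynomial.map (aeval c).toRingHom g =
      MvPolynomial.map (aeval c).toRingHom (monomial β 1 * g) := by
    rw [map_mul, map_monomial, RingHom.map_one]
  rw [h1, coeff_map]
  rfl

theorem rank_open_pr {k v : ℕ} (d : Fin k → ℕ) {B : Type} [Fintype B]
    (h : B → MvPolynomial (Fin v) (MvPolynomial (CI d v) ℤ)) (e : B → ℕ)
    (he : ∀ b, (h b).IsHomogeneous (e b)) (m : ℕ) {F0 : Type} [Field F0] (c0 : CI d v → F0) :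
    ∃ H : MvPolynomial (CI d v) ℤ, aeval c0 H ≠ 0 ∧
      ∀ (F : Type) [Field F] (c : CI d v → F), aeval c H ≠ 0 →
        Module.finrank F0 (IM (Set.range fun b => MvPolynomial.map (aeval c0).toRingHom (h b)) m) ≤
        Module.finrank F (IM (Set.range fun b => MvPolynomial.map (aeval c).toRingHom (h b)) m) := by
  classical
  have hT : Finite (TT (v := v) e m) := gr_fin e m
  obtain ⟨κ, a, ha, hsp, hli⟩ := exists_linearIndependent' F0 (fun t : TT (v := v) e m =>
    monomial t.2.1 (1 : F0) * MvPolynomial.map (aeval c0).toRingHom (h t.1))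
  have hκ : Finite κ := Finite.of_injective a ha
  have : Fintype κ := Fintype.ofFinite κ
  have h1 : Module.finrank F0
      (IM (Set.range fun b => MvPolynomial.map (aeval c0).toRingHom (h b)) m) =
      Fintype.card κ := by
    rw [gr_span _ e (fun b => (he b).map _) m, ← hsp, finrank_span_eq_card hli]
  have h2 : LinearIndependent F0 (fun (i : κ) (γ : Fin v →₀ ℕ) =>
      coeff γ (monomial (a i).2.1 (1 : F0) *
        MvPolynomial.map (aeval c0).toRingHom (h (a i).1))) := by
    rw [Fintype.linearIndependent_iff] at hli ⊢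
    intro x hx
    refine hli x ?_
    ext γ
    have h3 := congrFun hx γ
    rw [coeff_sum, coeff_zero]
    rw [Finset.sum_apply, Pi.zero_apply] at h3
    rw [← h3]
    refine Finset.sum_congr rfl fun i _ => ?_
    rw [coeff_smul]
    rfl
  obtain ⟨γ, hγ⟩ := gr_minor _ h2
  have hdet : ∀ (F : Type) [Field F] (c : CI d v → F),
      aeval c (Matrix.det (Matrix.of fun i j : κ =>
        coeff (γ j) (monomial (a i).2.1 1 * h (a i).1))) =
      Matrix.det (Matrix.of fun i j : κ => coeff (γ j) (monomial (a i).2.1 (1 : F) *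
        MvPolynomial.map (aeval c).toRingHom (h (a i).1))) := by
    intro F _ c
    rw [AlgHom.map_det]
    congr 1
    ext i j
    rw [Matrix.of_apply, gr_coeff]
    rfl
  refine ⟨Matrix.det (Matrix.of fun i j : κ =>
        coeff (γ j) (monomial (a i).2.1 1 * h (a i).1)), ?_, ?_⟩
  · rw [hdet]
    exact hγ
  · intro F _ c hc
    rw [hdet] at hc
    rw [h1]
    have h4 : LinearIndependent F (fun i : κ => monomial (a i).2.1 (1 : F) *
        MvPolynomial.map (aeval c).toRingHom (h (a i).1)) := by
      rw [Fintype.linearIndependent_iff]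
      intro x hx
      have h5 : Matrix.vecMul x (Matrix.of fun i j : κ => coeff (γ j)
          (monomial (a i).2.1 (1 : F) *
            MvPolynomial.map (aeval c).toRingHom (h (a i).1))) = 0 := by
        funext j
        have h6 := congrArg (coeff (γ j)) hx
        rw [coeff_sum, coeff_zero] at h6
        rw [Pi.zero_apply, ← h6]
        refine Finset.sum_congr rfl fun i _ => ?_
        rw [coeff_smul]
        rfl
      have h7 := Matrix.eq_zero_of_vecMul_eq_zero hc h5
      intro i
      exact congrFun h7 i
    have hfin : FiniteDimensional F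
        (IM (Set.range fun b => MvPolynomial.map (aeval c).toRingHom (h b)) m) := by
      have i1 : Module.Finite F (homogeneousSubmodule (Fin v) F m) :=
        Module.Finite.iff_fg.2 (homogeneousSubmodule_fg (Fin v) F m)
      exact Submodule.finiteDimensional_of_le inf_le_right
    rw [← finrank_span_eq_card h4]
    refine Submodule.finrank_mono ?_
    rw [gr_span _ e (fun b => (he b).map _) m]
    refine Submodule.span_mono ?_
    rintro _ ⟨i, rfl⟩
    exact ⟨a i, rfl⟩

end Pool.Agent.OPT.GR

namespace Pool.Agent.OPT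

alias rank_open := GR.rank_open_pr

end Pool.Agent.OPT
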