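import Pool.Agent.Lib_helper80.OPF.Defs
import Pool.Agent.Lib_helper77.KSZ.Main
import Pool.Agent.Lib_helper77.KSSP.SM

/-! OPN block GS: smoothness as a rank condition -/

namespace Pool.Agent.OPT.GS

open MvPolynomial Pool.Agent.KSS Pool.Agent.KSX Pool.Agent.OPT
open scoped ENNReal

theorem gs_minor {k v : ℕ} (A : Matrix (Fin k) (Fin v) ℂ) (h : LinearIndependent ℂ A.row) :
    ∃ z : Fin k → Fin v, Function.Injective z ∧ (A.submatrix id z).det ≠ 0 := by
  classical
  have hrank : A.rank = k := by
    rw [h.rank_matrix, Fintype.card_fin]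
  have htop : Submodule.span ℂ (Set.range A.col) = ⊤ := by
    apply Submodule.eq_top_of_finrank_eq
    rw [← Matrix.rank_eq_finrank_span_cols, hrank]
    simp
  obtain ⟨κ, a, ha, hsp, hli⟩ := exists_linearIndependent' ℂ A.col
  have hfin : Finite κ := Finite.of_injective a ha
  have := Fintype.ofFinite κ
  rw [htop] at hsp
  let b := Module.Basis.mk hli hsp.ge
  have hcard : Fintype.card κ = k := by
    rw [← Module.finrank_eq_card_basis b]
    simp
  let e : Fin k ≃ κ := (Fintype.equivFinOfCardEq hcard).symm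
  refine ⟨a ∘ e, ha.comp e.injective, ?_⟩
  have h1 : LinearIndependent ℂ (A.submatrix id (a ∘ e)).col := by
    have h2 := hli.comp e e.injective
    exact h2
  rw [Matrix.linearIndependent_cols_iff_isUnit, Matrix.isUnit_iff_isUnit_det] at h1
  exact h1.ne_zero

theorem gs_fin {F : Type} [Field F] (N m : ℕ) :
    Module.Finite F (homogeneousSubmodule (Fin N) F m) := by
  have hfin : Set.Finite {d : Fin N →₀ ℕ | d.degree = m} := by
    apply Set.Finite.subset (Finset.finite_toSet (Finset.Iic
      (Finsupp.equivFunOnFinite.symm (fun _ : Fin N => m))))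
    intro d hd
    rw [Finset.mem_coe, Finset.mem_Iic]
    intro i
    have h1 : d.degree = m := hd
    have h2 : d i ≤ d.degree := Finsupp.le_degree i d
    rw [h1] at h2
    simpa using h2
  have hfin2 : Finite {d : Fin N →₀ ℕ | d.degree = m} := hfin
  let g : homogeneousSubmodule (Fin N) F m →ₗ[F] ({d : Fin N →₀ ℕ | d.degree = m} → F) :=
    { toFun := fun s d => coeff d.1 (s : MvPolynomial (Fin N) F)
      map_add' := by intro a b; funext d; simp
      map_smul' := by intro c a; funext d; simp }
  have hg : Function.Injective g := by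
    rw [injective_iff_map_eq_zero]
    intro s hs
    apply Subtype.ext
    ext d
    by_cases hd : d.degree = m
    · have h1 := congrFun hs ⟨d, hd⟩
      simpa [g] using h1
    · have h2 := (mem_homogeneousSubmodule m (s : MvPolynomial (Fin N) F)).mp s.2
      have h3 := h2.coeff_eq_zero (d := d) hd
      simpa using h3
  exact Module.Finite.of_injective g hg

theorem gs_eval_jac {k v : ℕ} {F κ : Type} [Field F] [Field κ] [Algebra F κ]
    (f : Fin k → MvPolynomial (Fin v) F) (z : Fin k → Fin v) (x : Fin v → κ) :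
    aeval x (jac f z) = (Matrix.of fun i j => aeval x (pderiv (z j) (f i)) :
      Matrix (Fin k) (Fin k) κ).det := by
  unfold jac
  rw [AlgHom.map_det]
  congr 1

theorem smooth_rank_pr {k v : ℕ} (d : Fin k → ℕ) (hd : ∀ i, 1 ≤ d i)
    (f : Fin k → MvPolynomial (Fin v) ℂ) (hf : Gen d f) :
    ∃ M : ℕ, 1 ≤ M ∧ (Module.finrank ℂ (IM (Set.range f ∪ {g | ∃ z : Fin k → Fin v,
      Function.Injective z ∧ g = jac f z}) M) : ℤ) = NN d v ∅ M := by
  classical
  set S : Set (MvPolynomial (Fin v) ℂ) := Set.range f ∪ {g | ∃ z : Fin k → Fin v,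
      Function.Injective z ∧ g = jac f z} with hS
  set J : Ideal (MvPolynomial (Fin v) ℂ) := Ideal.span S with hJ
  have hzero : ∀ x ∈ zeroLocus ℂ J, x = 0 := by
    intro x hx
    by_contra hx0
    have h0 : ∀ i, eval x (f i) = 0 := by
      intro i
      have := hx (f i) (Ideal.subset_span (Or.inl ⟨i, rfl⟩))
      rwa [aeval_eq_eval] at this
    have hli := sm_smooth_pr d hd f hf x hx0 h0
    obtain ⟨z, hz, hdet⟩ := gs_minor (Matrix.of fun i l => eval x (pderiv l (f i))) hli
    apply hdet
    have h1 := hx (jac f z) (Ideal.subset_span (Or.inr ⟨z, hz, rfl⟩))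
    rw [gs_eval_jac] at h1
    rw [← h1]
    congr 1
  have hrad : ∀ a : Fin v, (X a : MvPolynomial (Fin v) ℂ) ∈ J.radical := by
    intro a
    rw [← vanishingIdeal_zeroLocus_eq_radical (K := ℂ)]
    intro x hx
    rw [hzero x hx]
    simp
  choose n hn using fun a => (hrad a)
  set N : ℕ := ∑ a, n a + 1 with hN
  have hnN : ∀ a, n a ≤ N := fun a =>
    (Finset.single_le_sum (fun _ _ => Nat.zero_le _) (Finset.mem_univ a)).trans (Nat.le_succ _)
  have hXN : ∀ a, (X a : MvPolynomial (Fin v) ℂ) ^ N ∈ J := fun a =>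
    Ideal.pow_mem_of_pow_mem _ (hn a) (hnN a)
  refine ⟨v * N + 1, by omega, ?_⟩
  have hle : homogeneousSubmodule (Fin v) ℂ (v * N + 1) ≤ J.restrictScalars ℂ := by
    intro F hF
    rw [mem_homogeneousSubmodule] at hF
    rw [Submodule.restrictScalars_mem, F.as_sum]
    refine Ideal.sum_mem _ fun β hβ => ?_
    have hdeg : β.degree = v * N + 1 := by
      have h3 := hF (mem_support_iff.mp hβ)
      rw [Finsupp.degree_eq_weight_one]
      exact h3
    obtain ⟨a, ha⟩ : ∃ a, N ≤ β a := by
      by_contra hcon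
      push Not at hcon
      have h4 : β.degree ≤ v * N := by
        rw [Finsupp.degree_eq_sum]
        calc ∑ a, β a ≤ ∑ _a : Fin v, N := Finset.sum_le_sum fun a _ => (hcon a).le
          _ = v * N := by simp
      omega
    have h5 : β = Finsupp.single a N + (β - Finsupp.single a N) := by
      rw [add_comm, tsub_add_cancel_of_le]
      rw [Finsupp.single_le_iff]
      exact ha
    have h6 : monomial β (F.coeff β) =
        (X a : MvPolynomial (Fin v) ℂ) ^ N * monomial (β - Finsupp.single a N) (F.coeff β) := by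
      rw [X_pow_eq_monomial, monomial_mul, one_mul, ← h5]
    rw [h6]
    exact Ideal.mul_mem_right _ _ (hXN a)
  have hIM : IM S (v * N + 1) = homogeneousSubmodule (Fin v) ℂ (v * N + 1) := by
    unfold IM
    exact inf_eq_right.mpr hle
  rw [hIM]
  exact finrank_hom_pr ℂ d v _

theorem smooth_of_rank_pr {k v : ℕ} (d : Fin k → ℕ) {F : Type} [Field F]
    (f : Fin k → MvPolynomial (Fin v) F) (M : ℕ)
    (hM : (Module.finrank F (IM (Set.range f ∪ {g | ∃ z : Fin k → Fin v,
      Function.Injective z ∧ g = jac f z}) M) : ℤ) = NN d v ∅ M)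
    (κ : Type) [Field κ] [Algebra F κ] (x : Fin v → κ) (hx : x ≠ 0)
    (h0 : ∀ i, aeval x (f i) = 0) :
    ∃ z : Fin k → Fin v, Function.Injective z ∧ aeval x (jac f z) ≠ 0 := by
  by_contra hcon
  push Not at hcon
  set S : Set (MvPolynomial (Fin v) F) := Set.range f ∪ {g | ∃ z : Fin k → Fin v,
      Function.Injective z ∧ g = jac f z} with hS
  obtain ⟨a, ha⟩ : ∃ a, x a ≠ 0 := by
    by_contra h
    push Not at h
    exact hx (funext h)
  have hfin := gs_fin (F := F) v M
  have heq : IM S M = homogeneousSubmodule (Fin v) F M := by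
    refine Submodule.eq_of_le_of_finrank_eq inf_le_right ?_
    have h1 := finrank_hom_pr F d v M
    rw [← hM] at h1
    exact_mod_cast h1.symm
  have h2 : (X a : MvPolynomial (Fin v) F) ^ M ∈ IM S M := by
    rw [heq, mem_homogeneousSubmodule]
    have := (isHomogeneous_X F a).pow M
    rwa [one_mul] at this
  have h3 : (X a : MvPolynomial (Fin v) F) ^ M ∈ Ideal.span S := h2.1
  have h4 : Ideal.span S ≤ RingHom.ker (aeval x : MvPolynomial (Fin v) F →ₐ[F] κ).toRingHom := by
    rw [Ideal.span_le]
    rintro g (⟨i, rfl⟩ | ⟨z, hz, rfl⟩)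
    · exact h0 i
    · exact hcon z hz
  have h5 : aeval x ((X a : MvPolynomial (Fin v) F) ^ M) = 0 := h4 h3
  rw [map_pow, aeval_X] at h5
  exact pow_ne_zero M ha h5

end Pool.Agent.OPT.GS

namespace Pool.Agent.OPT

alias smooth_rank := GS.smooth_rank_pr
alias smooth_of_rank := GS.smooth_of_rank_pr

end Pool.Agent.OPT
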