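import Pool.Agent.Lib_helper80.OPF.Defs
import Pool.Agent.Lib_helper77.KSZ.Main

/-! # OPN, block GU: universal forms -/

namespace Pool.Agent.OPT.GU

open MvPolynomial Pool.Agent.KSS Pool.Agent.KSX Pool.Agent.OPT
open scoped ENNReal

/-- universal forms -/
theorem univ_forms_pr {k v : ℕ} (d : Fin k → ℕ) :
    ∃ u : Fin k → MvPolynomial (Fin v) (MvPolynomial (CI d v) ℤ),
      (∀ i, (u i).IsHomogeneous (d i)) ∧
      ∀ (F : Type) [Field F] (f : Fin k → MvPolynomial (Fin v) F),
        (∀ i, (f i).IsHomogeneous (d i)) →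
        ∀ i, MvPolynomial.map (aeval (cv d f)).toRingHom (u i) = f i := by
  classical
  have hfin : ∀ i : Fin k, {α : Fin v →₀ ℕ | α.degree = d i}.Finite := fun i =>
    Finsupp.finite_of_degree_eq (d i)
  set g : (i : Fin k) → (Fin v →₀ ℕ) → MvPolynomial (CI d v) ℤ := fun i α =>
    if h : α.degree = d i then X ⟨i, ⟨α, h⟩⟩ else 0 with hg
  refine ⟨fun i => ∑ α ∈ (hfin i).toFinset, monomial α (g i α), ?_, ?_⟩
  · intro i
    refine IsHomogeneous.sum _ _ _ fun α hα => ?_
    have hα' : α.degree = d i := by simpa using hα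
    exact isHomogeneous_monomial _ hα'
  · intro F _ f hf i
    rw [map_sum]
    ext β
    rw [coeff_sum]
    simp only [map_monomial, coeff_monomial]
    by_cases hβ : β.degree = d i
    · rw [Finset.sum_eq_single β]
      · rw [if_pos rfl, hg]
        simp only
        rw [dif_pos hβ]
        simp [cv]
      · intro α _ hα
        rw [if_neg hα]
      · intro h
        exact absurd ((hfin i).mem_toFinset.2 hβ) h
    · rw [Finset.sum_eq_zero]
      · exact ((hf i).coeff_eq_zero hβ).symm
      · intro α hα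
        have hα' : α.degree = d i := by simpa using hα
        rw [if_neg]
        rintro rfl
        exact hβ hα'

/-- Jacobian minors commute with change of coefficients -/
theorem map_jac_pr {k v : ℕ} {R F : Type} [CommRing R] [CommRing F] (φ : R →+* F)
    (f : Fin k → MvPolynomial (Fin v) R) (z : Fin k → Fin v) :
    MvPolynomial.map φ (jac f z) = jac (fun i => MvPolynomial.map φ (f i)) z := by
  unfold jac
  rw [RingHom.map_det]
  congr 1
  ext i j : 2
  simp only [RingHom.mapMatrix_apply, Matrix.map_apply, Matrix.of_apply]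
  rw [pderiv_map]

/-- degree of the Jacobian minors -/
theorem jac_hom_pr {k v : ℕ} {R : Type} [CommRing R] (d : Fin k → ℕ) (hd : ∀ i, 1 ≤ d i)
    (f : Fin k → MvPolynomial (Fin v) R) (hf : ∀ i, (f i).IsHomogeneous (d i))
    (z : Fin k → Fin v) : (jac f z).IsHomogeneous (jdeg d) := by
  unfold jac jdeg
  rw [Matrix.det_apply]
  refine IsHomogeneous.sum _ _ _ fun σ _ => ?_
  have h1 : (∏ i, Matrix.of (fun i j => pderiv (z j) (f i)) (σ i) i).IsHomogeneous
      (∑ i, (d (σ i) - 1)) := by
    refine IsHomogeneous.prod _ _ _ fun i _ => ?_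
    rw [Matrix.of_apply]
    exact (hf (σ i)).pderiv
  have h2 : ∑ i, (d (σ i) - 1) = ∑ i, (d i - 1) :=
    Equiv.sum_comp σ (fun i => d i - 1)
  rw [h2] at h1
  rcases Int.units_eq_one_or (Equiv.Perm.sign σ) with h | h
  · rw [h, one_smul]
    exact h1
  · rw [h]
    simp only [Units.neg_smul, one_smul]
    exact h1.neg

end Pool.Agent.OPT.GU

namespace Pool.Agent.OPT

alias univ_forms := GU.univ_forms_pr
alias map_jac := GU.map_jac_pr
alias jac_hom := GU.jac_hom_pr

end Pool.Agent.OPT
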