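import Pool.Agent.Lib_helper80.OPF.Defs
import Pool.Agent.Lib_helper77.KSZ.Main
import Pool.Agent.Lib_helper80.OPF.GR
import Pool.Agent.Lib_helper80.OPF.GU

/-!
# OPN, block GL (helper35): upper bound for the dimension of the ideal
-/

namespace Pool.Agent.OPT.GL

open MvPolynomial Pool.Agent.KSS Pool.Agent.KSX Pool.Agent.OPT

/-- generic points avoid every hypersurface -/
theorem gen_ne {k v : ℕ} (d : Fin k → ℕ) (g : Fin k → MvPolynomial (Fin v) ℂ) (hg : Gen d g)
    (H : MvPolynomial (CI d v) ℤ) (hH : H ≠ 0) : aeval (cv d g) H ≠ 0 := by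
  have hinj : Function.Injective (aeval (cv d g) : MvPolynomial (CI d v) ℚ →ₐ[ℚ] ℂ) := hg.2
  have e : aeval (cv d g) H =
      (aeval (cv d g) : MvPolynomial (CI d v) ℚ →ₐ[ℚ] ℂ) (MvPolynomial.map (Int.castRingHom ℚ) H) := by
    rw [aeval_def, aeval_def, eval₂_map]
    congr 1
  rw [e]
  intro h0
  have h1 : MvPolynomial.map (Int.castRingHom ℚ) H = 0 := hinj (by rw [h0, map_zero])
  apply hH
  apply MvPolynomial.map_injective (Int.castRingHom ℚ) Int.cast_injective
  rw [h1, map_zero]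

/-- (GL) for all forms (all fields): `dim I_m ≤` the generic value -/
theorem ideal_le_pr {k v : ℕ} (d : Fin k → ℕ) (hd : ∀ i, 1 ≤ d i) (hkv : k ≤ v) {F : Type} [Field F]
    (f : Fin k → MvPolynomial (Fin v) F) (hf : ∀ i, (f i).IsHomogeneous (d i)) (m : ℕ) :
    (Module.finrank F (IM (Set.range f) m) : ℤ) ≤ NN d v ∅ m - NN d v Finset.univ m := by
  obtain ⟨u, hu, huf⟩ := univ_forms (v := v) d
  obtain ⟨H, hH, hr⟩ := rank_open d u d hu m (cv d f)
  obtain ⟨g, hg⟩ := KSS.vg_exists_pr (N := v) d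
  have hH0 : H ≠ 0 := by
    rintro rfl
    exact hH (map_zero _)
  have h1 := hr ℂ (cv d g) (gen_ne d g hg H hH0)
  have e1 : (fun b => MvPolynomial.map (aeval (cv d f)).toRingHom (u b)) = f :=
    funext fun i => huf F f hf i
  have e2 : (fun b => MvPolynomial.map (aeval (cv d g)).toRingHom (u b)) = g :=
    funext fun i => huf ℂ g hg.1 i
  rw [e1, e2] at h1
  have h2 := hilb_pr d hd v Finset.univ (by simpa using hkv) ℂ g hg m
  rw [Finset.coe_univ, Set.image_univ] at h2
  rw [← h2]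
  exact_mod_cast h1

end Pool.Agent.OPT.GL

namespace Pool.Agent.OPT

alias ideal_le := GL.ideal_le_pr

end Pool.Agent.OPT
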