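import Pool.Agent.Lib_helper80.OPF.Defs
import Pool.Agent.Lib_helper77.KSZ.Main
import Pool.Agent.Lib_helper80.OPF.GL

/-! # OPN, block GT: freeness over the polynomial ring of the complementary variables -/

namespace Pool.Agent.OPT.GT

open MvPolynomial Pool.Agent.KSS Pool.Agent.KSX Pool.Agent.OPT
open scoped ENNReal

/-! ### power series -/

theorem inv_mul (k : ℕ) : ((PowerSeries.invOneSubPow ℤ k : (PowerSeries ℤ)ˣ) : PowerSeries ℤ) *
    (1 - PowerSeries.X) ^ k = 1 := by
  have h := (PowerSeries.invOneSubPow ℤ k).val_inv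
  rw [PowerSeries.invOneSubPow_inv_eq_one_sub_pow] at h
  exact h

theorem hs_mul {k : ℕ} (d : Fin k → ℕ) (v : ℕ) :
    HS d k Finset.univ * HS (fun _ : Fin k => 1) v Finset.univ = HS d v Finset.univ := by
  unfold HS
  simp only [pow_one, Finset.prod_const, Finset.card_univ, Fintype.card_fin]
  calc _ = (∏ i, (1 - (PowerSeries.X : PowerSeries ℤ) ^ (d i))) *
        ((((PowerSeries.invOneSubPow ℤ k : (PowerSeries ℤ)ˣ) : PowerSeries ℤ) *
          (1 - PowerSeries.X) ^ k)) *
        ((PowerSeries.invOneSubPow ℤ v : (PowerSeries ℤ)ˣ) : PowerSeries ℤ) := by ring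
    _ = _ := by rw [inv_mul, mul_one]

theorem nn_conv {k : ℕ} (d : Fin k → ℕ) (v m : ℕ) :
    NN d v Finset.univ m = ∑ j ∈ Finset.range (m + 1),
      NN d k Finset.univ j * NN (fun _ : Fin k => 1) v Finset.univ (m - j) := by
  unfold NN
  rw [← hs_mul d v, PowerSeries.coeff_mul, Finset.Nat.sum_antidiagonal_eq_sum_range_succ_mk]

/-! ### the polynomials in the complementary variables -/

variable {k v : ℕ} {F : Type} [Field F]

/-- the exponents of degree `n` supported outside `range z` -/
def ex (z : Fin k → Fin v) (n : ℕ) : Set (Fin v →₀ ℕ) :=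
  {β | β.degree = n ∧ ∀ j, β (z j) = 0}

/-- forms of degree `n` in the variables outside `range z` -/
noncomputable def PY (F : Type) [Field F] (z : Fin k → Fin v) (n : ℕ) :
    Submodule F (MvPolynomial (Fin v) F) := restrictSupport F (ex z n)

theorem mem_PY {z : Fin k → Fin v} {n : ℕ} {g : MvPolynomial (Fin v) F} :
    g ∈ PY F z n ↔ g.IsHomogeneous n ∧ ∀ β ∈ g.support, ∀ j, β (z j) = 0 := by
  unfold PY
  rw [mem_restrictSupport_iff]
  constructor
  · intro h
    refine ⟨?_, fun β hβ => (h hβ).2⟩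
    intro β hβ
    have h1 := (h (mem_support_iff.mpr hβ)).1
    rw [← h1, Finsupp.degree_eq_weight_one]
    rfl
  · rintro ⟨h1, h2⟩ β hβ
    refine ⟨?_, h2 β hβ⟩
    have h3 := h1 (mem_support_iff.mp hβ)
    rw [← h3, Finsupp.degree_eq_weight_one]
    rfl

theorem PY_mul {z : Fin k → Fin v} {n m : ℕ} {g h : MvPolynomial (Fin v) F}
    (hg : g ∈ PY F z n) (hh : h ∈ PY F z m) : g * h ∈ PY F z (n + m) := by
  classical
  rw [mem_PY] at hg hh ⊢
  refine ⟨hg.1.mul hh.1, fun β hβ j => ?_⟩
  have h1 := support_mul g h hβ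
  rw [Finset.mem_add] at h1
  obtain ⟨a, ha, b, hb, rfl⟩ := h1
  rw [Finsupp.add_apply, hg.2 a ha j, hh.2 b hb j]

theorem PY_X {z : Fin k → Fin v} {a : Fin v} (ha : a ∉ Set.range z) :
    (X a : MvPolynomial (Fin v) F) ∈ PY F z 1 := by
  classical
  rw [mem_PY]
  refine ⟨isHomogeneous_X _ _, fun β hβ j => ?_⟩
  rw [support_X, Finset.mem_singleton] at hβ
  rw [hβ, Finsupp.single_apply, if_neg]
  intro h
  exact ha ⟨j, h.symm⟩

theorem PY_C {z : Fin k → Fin v} (c : F) : (C c : MvPolynomial (Fin v) F) ∈ PY F z 0 := by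
  classical
  rw [mem_PY]
  refine ⟨isHomogeneous_C _ _, fun β hβ j => ?_⟩
  have h1 := mem_support_iff.mp hβ
  rw [coeff_C] at h1
  have h2 : 0 = β := by
    by_contra h
    exact h1 (if_neg h)
  rw [← h2]
  rfl

theorem ex_eq (z : Fin k → Fin v) (n : ℕ) :
    ex z n = ((((Finset.univ : Finset (Fin v)).finsuppAntidiag n).filter
      (fun β => ∀ i ∈ (Finset.univ : Finset (Fin k)), β (z i) < 1) : Finset (Fin v →₀ ℕ)) :
        Set (Fin v →₀ ℕ)) := by
  classical
  ext β
  simp only [ex, Set.mem_ofPred_eq, Finset.coe_filter, Finset.mem_finsuppAntidiag, Finset.mem_univ,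
    true_implies, Nat.lt_one_iff, Finset.subset_univ, and_true]
  have h : β.degree = ∑ i, β i := by
    rw [Finsupp.degree]
    apply Finset.sum_subset (Finset.subset_univ _)
    intro i _ hi
    simpa using hi
  rw [h]

theorem PY_fd (z : Fin k → Fin v) (n : ℕ) : FiniteDimensional F (PY F z n) := by
  refine Submodule.finiteDimensional_of_le
    (S₂ := homogeneousSubmodule (Fin v) F n) ?_
  intro g hg
  exact (mem_PY.mp hg).1

theorem PY_finrank (z : Fin k → Fin v) (hz : Function.Injective z) (n : ℕ) :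
    (Module.finrank F (PY F z n) : ℤ) = NN (fun _ : Fin k => 1) v Finset.univ n := by
  classical
  have h1 := ha_count_pr (fun _ : Fin k => 1) v Finset.univ z hz.injOn n
  rw [← h1]
  have e := basisRestrictSupport F (ex z n)
  have h3 := Module.finrank_eq_nat_card_basis e
  unfold PY
  rw [h3, ex_eq, Nat.card_coe_set_eq, Set.ncard_coe_finset]


theorem PY_zero_mul {z : Fin k → Fin v} {n : ℕ} (g : MvPolynomial (Fin v) F) (h : g ∈ PY F z n)
    (m : ℕ) (s : MvPolynomial (Fin v) F) (hs : s.IsHomogeneous m) :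
    (g * s).IsHomogeneous (n + m) := (mem_PY.mp h).1.mul hs

/-! ### lifting a basis of a quotient -/

theorem basis_lift {M : Type} [AddCommGroup M] [Module F M] (A S : Submodule F M)
    (hfd : FiniteDimensional F S) (hAS : A ≤ S) :
    ∃ b : Fin (Module.finrank F S - Module.finrank F A) → M, (∀ i, b i ∈ S) ∧
      ∀ s ∈ S, ∃ c : Fin (Module.finrank F S - Module.finrank F A) → F,
        s - ∑ i, c i • b i ∈ A := by
  have h1 := Submodule.finrank_quotient_add_finrank (A.submoduleOf S)
  rw [(Submodule.submoduleOfEquivOfLe hAS).finrank_eq] at h1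
  have h2 : Module.finrank F (S ⧸ A.submoduleOf S) =
      Module.finrank F S - Module.finrank F A := by omega
  let B := Module.finBasisOfFinrankEq F (S ⧸ A.submoduleOf S) h2
  have hB : ∀ i, ∃ x : S, (A.submoduleOf S).mkQ x = B i := fun i =>
    Submodule.mkQ_surjective _ (B i)
  choose x hx using hB
  refine ⟨fun i => (x i : M), fun i => (x i).2, ?_⟩
  intro s hs
  refine ⟨fun i => B.repr ((A.submoduleOf S).mkQ ⟨s, hs⟩) i, ?_⟩
  have h3 : (A.submoduleOf S).mkQ (⟨s, hs⟩ -
      ∑ i, B.repr ((A.submoduleOf S).mkQ ⟨s, hs⟩) i • x i) = 0 := by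
    rw [map_sub, map_sum]
    simp only [map_smul, hx]
    rw [B.sum_repr, sub_self]
  rw [Submodule.mkQ_apply, Submodule.Quotient.mk_eq_zero] at h3
  have h4 : ((⟨s, hs⟩ - ∑ i, B.repr ((A.submoduleOf S).mkQ ⟨s, hs⟩) i • x i : S) : M) ∈ A := h3
  have h5 : ((⟨s, hs⟩ - ∑ i, B.repr ((A.submoduleOf S).mkQ ⟨s, hs⟩) i • x i : S) : M) =
      s - ∑ i, B.repr ((A.submoduleOf S).mkQ ⟨s, hs⟩) i • (x i : M) := by
    push_cast
    rfl
  rw [h5] at h4
  exact h4

/-! ### the ideal `(f, Y)` -/

/-- the variables outside `range z` -/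
def YS (F : Type) [Field F] (z : Fin k → Fin v) : Set (MvPolynomial (Fin v) F) :=
  {g | ∃ a, a ∉ Set.range z ∧ g = X a}

theorem decompA {d : Fin k → ℕ} {f : Fin k → MvPolynomial (Fin v) F}
    (hf : ∀ i, (f i).IsHomogeneous (d i)) (z : Fin k → Fin v) {m : ℕ}
    {g : MvPolynomial (Fin v) F} (hg : g ∈ IM (Set.range f ∪ YS F z) m) :
    ∃ i ∈ II f, ∃ h : Fin v → MvPolynomial (Fin v) F,
      (∀ a, (h a).IsHomogeneous (m - 1)) ∧ (∀ a ∈ Set.range z, h a = 0) ∧
      (m = 0 → ∀ a, h a = 0) ∧ g = i + ∑ a, X a * h a := by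
  classical
  obtain ⟨hg1, hg2⟩ := hg
  have hg1' : g ∈ Ideal.span (Set.range f ∪ YS F z) := hg1
  have hg2' : g.IsHomogeneous m := hg2
  rw [Ideal.span_union, Submodule.mem_sup] at hg1'
  obtain ⟨i, hi, y, hy, rfl⟩ := hg1'
  have h1 : Ideal.span (YS F z) ≤ Ideal.span (Set.range
      (fun a : Fin v => if a ∈ Set.range z then (0 : MvPolynomial (Fin v) F) else X a)) := by
    rw [Ideal.span_le]
    rintro _ ⟨a, ha, rfl⟩
    refine Ideal.subset_span ⟨a, ?_⟩
    simp only [if_neg ha]
  obtain ⟨c, hc⟩ := Ideal.mem_span_range_iff_exists_fun.mp (h1 hy)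
  refine ⟨homogeneousComponent m i, hc_hom (Set.range f) ?_ i hi m,
    fun a => if a ∈ Set.range z then 0 else if 1 ≤ m then homogeneousComponent (m - 1) (c a) else 0,
    ?_, ?_, ?_, ?_⟩
  · rintro _ ⟨j, rfl⟩
    exact ⟨d j, hf j⟩
  · intro a
    dsimp only
    split_ifs
    · exact isHomogeneous_zero _ _ _
    · exact homogeneousComponent_isHomogeneous _ _
    · exact isHomogeneous_zero _ _ _
  · intro a ha
    simp only [if_pos ha]
  · intro hm a
    simp [hm]
  · have h2 : homogeneousComponent m (i + y) = i + y := homogeneousComponent_eq_self hg2'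
    rw [← h2, map_add, ← hc, map_sum]
    congr 1
    refine Finset.sum_congr rfl fun a _ => ?_
    by_cases ha : a ∈ Set.range z
    · simp only [if_pos ha, mul_zero, map_zero]
    · simp only [if_neg ha]
      rw [hc_comp (isHomogeneous_X F a) m (c a)]
      split_ifs
      · rw [mul_comm]
      · rw [mul_zero]

theorem top_deg {A : Ideal (MvPolynomial (Fin v) F)} {n : ℕ}
    (h : ∀ s : MvPolynomial (Fin v) F, s.IsHomogeneous n → s ∈ A) (m : ℕ) (hm : n ≤ m) :
    ∀ s : MvPolynomial (Fin v) F, s.IsHomogeneous m → s ∈ A := by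
  classical
  induction m, hm using Nat.le_induction with
  | base => exact h
  | succ m hm ih =>
    intro s hs
    rw [s.as_sum]
    refine Ideal.sum_mem _ fun β hβ => ?_
    have h1 : Finsupp.weight 1 β = m + 1 := hs (mem_support_iff.mp hβ)
    have h2 : β.degree = m + 1 := by
      rw [← h1, Finsupp.degree_eq_weight_one]
      rfl
    have h3 : β ≠ 0 := by
      rintro rfl
      simp at h2
    obtain ⟨a, ha⟩ : ∃ a, β a ≠ 0 := by
      by_contra hcon
      push Not at hcon
      exact h3 (Finsupp.ext hcon)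
    have h4 : Finsupp.single a 1 ≤ β := by
      rw [Finsupp.single_le_iff]
      omega
    have h5 : β = (β - Finsupp.single a 1) + Finsupp.single a 1 := (tsub_add_cancel_of_le h4).symm
    have h6 : monomial β (s.coeff β) = monomial (β - Finsupp.single a 1) (s.coeff β) * X a := by
      rw [X, monomial_mul, mul_one, ← h5]
    rw [h6]
    refine Ideal.mul_mem_right _ _ (ih _ ?_)
    refine isHomogeneous_monomial _ ?_
    have h7 := congrArg Finsupp.degree h5
    rw [map_add, Finsupp.degree_single, h2] at h7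
    omega


/-! ### generation -/

/-- coefficients of the generator number `j` in degree `m` -/
noncomputable def W (F : Type) [Field F] (z : Fin k → Fin v) (m j : ℕ) :
    Submodule F (MvPolynomial (Fin v) F) := if j ≤ m then PY F z (m - j) else ⊥

theorem W_X {z : Fin k → Fin v} {m j : ℕ} {a : Fin v} (ha : a ∉ Set.range z)
    {g : MvPolynomial (Fin v) F} (hg : g ∈ W F z m j) : X a * g ∈ W F z (m + 1) j := by
  unfold W at hg ⊢
  by_cases h : j ≤ m
  · rw [if_pos h] at hg
    rw [if_pos (by omega)]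
    have h1 := PY_mul (PY_X (F := F) ha) hg
    have h2 : 1 + (m - j) = m + 1 - j := by omega
    rwa [h2] at h1
  · rw [if_neg h, Submodule.mem_bot] at hg
    rw [hg, mul_zero]
    exact Submodule.zero_mem _

theorem W_hom {z : Fin k → Fin v} {m j : ℕ} {g b : MvPolynomial (Fin v) F}
    (hg : g ∈ W F z m j) (hb : b.IsHomogeneous j) : (g * b).IsHomogeneous m := by
  unfold W at hg
  by_cases h : j ≤ m
  · rw [if_pos h] at hg
    have h1 := PY_zero_mul g hg j b hb
    rwa [Nat.sub_add_cancel h] at h1
  · rw [if_neg h, Submodule.mem_bot] at hg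
    rw [hg, zero_mul]
    exact isHomogeneous_zero _ _ _

theorem W_mul {z : Fin k → Fin v} {m j e : ℕ} {g p : MvPolynomial (Fin v) F}
    (hg : g ∈ PY F z e) (hp : p ∈ W F z m j) : g * p ∈ W F z (e + m) j := by
  unfold W at hp ⊢
  by_cases h : j ≤ m
  · rw [if_pos h] at hp
    rw [if_pos (by omega)]
    have h1 := PY_mul hg hp
    have h2 : e + (m - j) = e + m - j := by omega
    rwa [h2] at h1
  · rw [if_neg h, Submodule.mem_bot] at hp
    rw [hp, mul_zero]
    exact Submodule.zero_mem _

theorem W_fd (z : Fin k → Fin v) (m j : ℕ) : FiniteDimensional F (W F z m j) := by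
  by_cases h : j ≤ m
  · have h1 : W F z m j = PY F z (m - j) := if_pos h
    rw [h1]
    exact PY_fd z _
  · have h1 : W F z m j = ⊥ := if_neg h
    rw [h1]
    infer_instance

theorem gen_main {d : Fin k → ℕ} {f : Fin k → MvPolynomial (Fin v) F}
    (hf : ∀ i, (f i).IsHomogeneous (d i)) (z : Fin k → Fin v) {ι : Type} [Fintype ι]
    (dg : ι → ℕ) (b : ι → MvPolynomial (Fin v) F)
    (hgen : ∀ m, ∀ s : MvPolynomial (Fin v) F, s.IsHomogeneous m →
      ∃ c : ι → F, (∀ a, dg a ≠ m → c a = 0) ∧
        s - ∑ a, c a • b a ∈ IM (Set.range f ∪ YS F z) m) (m : ℕ) :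
    ∀ s : MvPolynomial (Fin v) F, s.IsHomogeneous m →
      ∃ p : ι → MvPolynomial (Fin v) F, (∀ a, p a ∈ W F z m (dg a)) ∧
        s - ∑ a, p a * b a ∈ II f := by
  classical
  have hC : ∀ (m : ℕ) (c : ι → F), (∀ a, dg a ≠ m → c a = 0) →
      ∀ a, (C (c a) : MvPolynomial (Fin v) F) ∈ W F z m (dg a) := by
    intro m c hc a
    by_cases h : dg a = m
    · unfold W
      rw [if_pos h.le, h, Nat.sub_self]
      exact PY_C _
    · rw [hc a h, C_0]
      exact Submodule.zero_mem _
  induction m with
  | zero =>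
    intro s hs
    obtain ⟨c, hc0, hc⟩ := hgen 0 s hs
    obtain ⟨i, hi, h, hh1, hh2, hh3, hg⟩ := decompA hf z hc
    refine ⟨fun a => C (c a), hC 0 c hc0, ?_⟩
    have h1 : ∑ a, X a * h a = 0 := Finset.sum_eq_zero fun a _ => by rw [hh3 rfl a, mul_zero]
    rw [h1, add_zero] at hg
    have h2 : s - ∑ a, C (c a) * b a = i := by
      rw [← hg]
      simp only [smul_eq_C_mul]
    rw [h2]
    exact hi
  | succ m ih =>
    intro s hs
    obtain ⟨c, hc0, hc⟩ := hgen (m + 1) s hs
    obtain ⟨i, hi, h, hh1, hh2, hh3, hg⟩ := decompA hf z hc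
    have h1 : ∀ a, ∃ p : ι → MvPolynomial (Fin v) F, (∀ q, p q ∈ W F z m (dg q)) ∧
        h a - ∑ q, p q * b q ∈ II f := fun a => ih (h a) (hh1 a)
    choose p hp1 hp2 using h1
    refine ⟨fun q => C (c q) + ∑ a, (if a ∈ Set.range z then 0 else X a * p a q), ?_, ?_⟩
    · intro q
      refine Submodule.add_mem _ (hC (m + 1) c hc0 q) (Submodule.sum_mem _ fun a _ => ?_)
      split_ifs with ha
      · exact Submodule.zero_mem _
      · exact W_X ha (hp1 a q)
    · have e1 : ∑ q, (C (c q) + ∑ a, (if a ∈ Set.range z then 0 else X a * p a q)) * b q =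
          ∑ q, c q • b q + ∑ a, (if a ∈ Set.range z then 0 else X a * ∑ q, p a q * b q) := by
        simp only [add_mul, Finset.sum_add_distrib, smul_eq_C_mul]
        congr 1
        simp only [Finset.sum_mul]
        rw [Finset.sum_comm]
        refine Finset.sum_congr rfl fun a _ => ?_
        split_ifs
        · simp
        · rw [Finset.mul_sum]
          refine Finset.sum_congr rfl fun q _ => ?_
          ring
      have e2 : s = ∑ q, c q • b q + (i + ∑ a, X a * h a) := by
        rw [← hg]
        ring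
      have e3 : s - ∑ q, (C (c q) + ∑ a, (if a ∈ Set.range z then 0 else X a * p a q)) * b q =
          i + ∑ a, (if a ∈ Set.range z then 0 else X a * (h a - ∑ q, p a q * b q)) := by
        rw [e1]
        nth_rewrite 1 [e2]
        have e4 : ∑ a, X a * h a = ∑ a, (if a ∈ Set.range z then 0 else X a * h a) := by
          refine Finset.sum_congr rfl fun a _ => ?_
          split_ifs with ha
          · rw [hh2 a ha, mul_zero]
          · rfl
        have e5 : ∑ a, (if a ∈ Set.range z then 0 else X a * (h a - ∑ q, p a q * b q)) =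
            ∑ a, (if a ∈ Set.range z then 0 else X a * h a) -
              ∑ a, (if a ∈ Set.range z then 0 else X a * ∑ q, p a q * b q) := by
          rw [← Finset.sum_sub_distrib]
          refine Finset.sum_congr rfl fun a _ => ?_
          split_ifs
          · rw [sub_zero]
          · rw [mul_sub]
        rw [e4, e5]
        ring
      rw [e3]
      refine Ideal.add_mem _ hi (Ideal.sum_mem _ fun a _ => ?_)
      split_ifs
      · exact Ideal.zero_mem _
      · exact Ideal.mul_mem_left _ _ (hp2 a)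

/-! ### the dimension count -/

theorem nn_nonneg (d : Fin k → ℕ) (m : ℕ) : 0 ≤ NN d k Finset.univ m := by
  rw [← ha_count_pr d k Finset.univ id (Function.injective_id.injOn) m]
  exact Int.natCast_nonneg _

theorem nn_top (d : Fin k → ℕ) : NN d k Finset.univ (∑ i, d i + 1) = 0 := by
  classical
  rw [← ha_count_pr d k Finset.univ id (Function.injective_id.injOn) _]
  norm_cast
  rw [Finset.card_eq_zero, Finset.filter_eq_empty_iff]
  intro β hβ hcon
  rw [Finset.mem_finsuppAntidiag] at hβ
  have h1 : ∑ i, β i ≤ ∑ i, d i := Finset.sum_le_sum fun i _ => (hcon i (Finset.mem_univ i)).le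
  have h2 : ∑ i, β i = ∑ i, d i + 1 := hβ.1
  omega

/-- `(p_a) ↦ ∑ p_a b_a` -/
noncomputable def Phi (z : Fin k → Fin v) {ι : Type} [Fintype ι] (dg : ι → ℕ)
    (b : ι → MvPolynomial (Fin v) F) (m : ℕ) :
    ((a : ι) → W F z m (dg a)) →ₗ[F] MvPolynomial (Fin v) F :=
  ∑ a, (LinearMap.mulRight F (b a)).comp ((W F z m (dg a)).subtype.comp (LinearMap.proj a))

theorem Phi_apply (z : Fin k → Fin v) {ι : Type} [Fintype ι] (dg : ι → ℕ)
    (b : ι → MvPolynomial (Fin v) F) (m : ℕ) (p : (a : ι) → W F z m (dg a)) :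
    Phi z dg b m p = ∑ a, (p a : MvPolynomial (Fin v) F) * b a := by
  unfold Phi
  rw [LinearMap.sum_apply]
  rfl

theorem count {d : Fin k → ℕ} {f : Fin k → MvPolynomial (Fin v) F}
    (z : Fin k → Fin v) {ι : Type} [Fintype ι] (dg : ι → ℕ)
    (b : ι → MvPolynomial (Fin v) F) (hb : ∀ a, (b a).IsHomogeneous (dg a)) (m : ℕ)
    (hg : ∀ s : MvPolynomial (Fin v) F, s.IsHomogeneous m →
      ∃ p : ι → MvPolynomial (Fin v) F, (∀ a, p a ∈ W F z m (dg a)) ∧
        s - ∑ a, p a * b a ∈ II f)
    (hlow : NN d v Finset.univ m ≤ NN d v ∅ m - (Module.finrank F (IM (Set.range f) m) : ℤ))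
    (hup : ((∑ a, Module.finrank F (W F z m (dg a)) : ℕ) : ℤ) ≤ NN d v Finset.univ m) :
    NN d v Finset.univ m = NN d v ∅ m - (Module.finrank F (IM (Set.range f) m) : ℤ) ∧
    ∀ p : ι → MvPolynomial (Fin v) F, (∀ a, p a ∈ W F z m (dg a)) →
      ∑ a, p a * b a ∈ II f → ∀ a, p a = 0 := by
  classical
  have hWfd : ∀ a, FiniteDimensional F (W F z m (dg a)) := fun a => W_fd z m _
  have hWfd2 : ∀ a, Module.Finite F (W F z m (dg a)) := hWfd
  let I' : Submodule F (MvPolynomial (Fin v) F) := (II f).restrictScalars F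
  let S : Submodule F (MvPolynomial (Fin v) F) := homogeneousSubmodule (Fin v) F m
  let Q := I'.mkQ.comp (Phi z dg b m)
  let T := I'.mkQ.comp S.subtype
  have hSfd : FiniteDimensional F S := hc_fd v F m
  -- ranges
  have hrange : LinearMap.range Q = LinearMap.range T := by
    apply le_antisymm
    · rintro _ ⟨p, rfl⟩
      refine ⟨⟨Phi z dg b m p, ?_⟩, rfl⟩
      rw [Phi_apply]
      exact Submodule.sum_mem _ fun a _ => W_hom (p a).2 (hb a)
    · rintro _ ⟨⟨s, hs⟩, rfl⟩
      obtain ⟨p, hp1, hp2⟩ := hg s hs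
      refine ⟨fun a => ⟨p a, hp1 a⟩, ?_⟩
      show I'.mkQ (Phi z dg b m fun a => ⟨p a, hp1 a⟩) = I'.mkQ s
      rw [Phi_apply]
      rw [← sub_eq_zero, ← map_sub, ← neg_eq_zero, ← map_neg, neg_sub, Submodule.mkQ_apply,
        Submodule.Quotient.mk_eq_zero]
      exact hp2
  -- dimension of the range of T
  have hT : Module.finrank F (LinearMap.range T) + Module.finrank F (IM (Set.range f) m) =
      Module.finrank F S := by
    have h1 := LinearMap.finrank_range_add_finrank_ker T
    have h2 : LinearMap.ker T = (IM (Set.range f) m).submoduleOf S := by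
      ext x
      rw [LinearMap.mem_ker]
      show I'.mkQ (x : MvPolynomial (Fin v) F) = 0 ↔ (x : MvPolynomial (Fin v) F) ∈ IM (Set.range f) m
      rw [Submodule.mkQ_apply, Submodule.Quotient.mk_eq_zero]
      constructor
      · intro h
        exact ⟨h, x.2⟩
      · intro h
        exact h.1
    have h4 := (Submodule.submoduleOfEquivOfLe (p := IM (Set.range f) m) (q := S)
      inf_le_right).finrank_eq
    rw [h2, h4] at h1
    exact h1
  have hS := finrank_hom_pr F d v m
  have hQ := LinearMap.finrank_range_add_finrank_ker Q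
  rw [Module.finrank_pi_fintype, hrange] at hQ
  have h3 : Module.finrank F (LinearMap.ker Q) = 0 ∧
      NN d v Finset.univ m = NN d v ∅ m - (Module.finrank F (IM (Set.range f) m) : ℤ) := by
    have hS' : (Module.finrank F S : ℤ) = NN d v ∅ m := hS
    zify at hT hQ
    push_cast at hup
    constructor
    · have : (Module.finrank F (LinearMap.ker Q) : ℤ) = 0 := by
        have h0 : (0 : ℤ) ≤ Module.finrank F (LinearMap.ker Q) := Int.natCast_nonneg _
        linarith
      exact_mod_cast this
    · have h0 : (0 : ℤ) ≤ Module.finrank F (LinearMap.ker Q) := Int.natCast_nonneg _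
      linarith
  refine ⟨h3.2, fun p hp hI a => ?_⟩
  have h4 : LinearMap.ker Q = ⊥ := Submodule.finrank_eq_zero.mp h3.1
  have h5 : (fun a => ⟨p a, hp a⟩ : (a : ι) → W F z m (dg a)) ∈ LinearMap.ker Q := by
    rw [LinearMap.mem_ker]
    show I'.mkQ (Phi z dg b m fun a => ⟨p a, hp a⟩) = 0
    rw [Phi_apply, Submodule.mkQ_apply, Submodule.Quotient.mk_eq_zero]
    exact hI
  rw [h4, Submodule.mem_bot] at h5
  have h6 := congrFun h5 a
  exact congrArg Subtype.val h6


/-- (GT) -/
theorem tf_main_pr {k v : ℕ} (d : Fin k → ℕ) (hd : ∀ i, 1 ≤ d i) (hkv : k ≤ v) {F : Type} [Field F]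
    (f : Fin k → MvPolynomial (Fin v) F) (hf : ∀ i, (f i).IsHomogeneous (d i))
    (z : Fin k → Fin v) (hz : Function.Injective z)
    (hC : ∀ m ≤ ∑ i, d i + 1, NN d v ∅ m - NN d k Finset.univ m ≤
      (Module.finrank F (IM (Set.range f ∪ {g | ∃ a, a ∉ Set.range z ∧ g = X a}) m) : ℤ)) :
    (∀ m, (Module.finrank F (IM (Set.range f) m) : ℤ) = NN d v ∅ m - NN d v Finset.univ m) ∧
    ∀ (g : MvPolynomial (Fin v) F) (e : ℕ), g.IsHomogeneous e → g ≠ 0 →
      (∀ β ∈ g.support, ∀ j, β (z j) = 0) → ∀ s, g * s ∈ II f → s ∈ II f := by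
  classical
  have hC' : ∀ m ≤ ∑ i, d i + 1, NN d v ∅ m - NN d k Finset.univ m ≤
      (Module.finrank F (IM (Set.range f ∪ YS F z) m) : ℤ) := hC
  set D := ∑ i, d i with hD
  -- everything in degree > D
  have htop : ∀ m, D + 1 ≤ m → ∀ s : MvPolynomial (Fin v) F, s.IsHomogeneous m →
      s ∈ IM (Set.range f ∪ YS F z) m := by
    have h1 : IM (Set.range f ∪ YS F z) (D + 1) = homogeneousSubmodule (Fin v) F (D + 1) := by
      have hfd : FiniteDimensional F (homogeneousSubmodule (Fin v) F (D + 1)) := hc_fd v F _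
      refine Submodule.eq_of_le_of_finrank_le inf_le_right ?_
      have h2 := hC' (D + 1) le_rfl
      have h3 := finrank_hom_pr F d v (D + 1)
      have h4 := nn_top d
      rw [← hD] at h4
      zify
      linarith
    intro m hm s hs
    refine ⟨?_, hs⟩
    refine top_deg (A := Ideal.span (Set.range f ∪ YS F z)) ?_ m hm s hs
    intro s hs
    have h2 : s ∈ homogeneousSubmodule (Fin v) F (D + 1) := hs
    rw [← h1] at h2
    exact h2.1
  -- the generators
  have hbl := fun j : ℕ => basis_lift (IM (Set.range f ∪ YS F z) j)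
    (homogeneousSubmodule (Fin v) F j) (hc_fd v F j) inf_le_right
  choose b0 hb0 hb1 using hbl
  set e' : ℕ → ℕ := fun j => Module.finrank F (homogeneousSubmodule (Fin v) F j) -
    Module.finrank F (IM (Set.range f ∪ YS F z) j) with he'
  let ι := Σ j : Fin (D + 1), Fin (e' j)
  let dg : ι → ℕ := fun a => (a.1 : ℕ)
  let b : ι → MvPolynomial (Fin v) F := fun a => b0 a.1 a.2
  have hb : ∀ a, (b a).IsHomogeneous (dg a) := fun a => hb0 a.1 a.2
  have hgen : ∀ m, ∀ s : MvPolynomial (Fin v) F, s.IsHomogeneous m →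
      ∃ c : ι → F, (∀ a, dg a ≠ m → c a = 0) ∧
        s - ∑ a, c a • b a ∈ IM (Set.range f ∪ YS F z) m := by
    intro m s hs
    by_cases hm : D + 1 ≤ m
    · refine ⟨fun _ => 0, fun _ _ => rfl, ?_⟩
      simp only [zero_smul, Finset.sum_const_zero, sub_zero]
      exact htop m hm s hs
    · obtain ⟨c, hc⟩ := hb1 m s hs
      have hm' : m < D + 1 := by omega
      refine ⟨fun a => if h : (a.1 : ℕ) = m then c (Fin.cast (by rw [← h]) a.2) else 0, ?_, ?_⟩
      · intro a ha
        exact dif_neg ha
      · have h1 : ∑ a : ι, (if h : (a.1 : ℕ) = m then c (Fin.cast (by rw [← h]) a.2) else 0) • b a =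
            ∑ i, c i • b0 m i := by
          rw [Fintype.sum_sigma, Finset.sum_eq_single (⟨m, hm'⟩ : Fin (D + 1))]
          · refine Finset.sum_congr rfl fun i _ => ?_
            simp only [dif_pos]
            rfl
          · intro j _ hj
            refine Finset.sum_eq_zero fun i _ => ?_
            rw [dif_neg, zero_smul]
            intro h
            exact hj (Fin.ext h)
          · intro h
            exact absurd (Finset.mem_univ _) h
        rw [h1]
        exact hc
  have hlow : ∀ m, NN d v Finset.univ m ≤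
      NN d v ∅ m - (Module.finrank F (IM (Set.range f) m) : ℤ) := by
    intro m
    have := ideal_le d hd hkv f hf m
    linarith
  have he : ∀ j ≤ D, (e' j : ℤ) ≤ NN d k Finset.univ j := by
    intro j hj
    have h2 := hC' j (by omega)
    have h3 := finrank_hom_pr F d v j
    have h4 : Module.finrank F (IM (Set.range f ∪ YS F z) j) ≤
        Module.finrank F (homogeneousSubmodule (Fin v) F j) := by
      have hfd : FiniteDimensional F (homogeneousSubmodule (Fin v) F j) := hc_fd v F _
      exact Submodule.finrank_mono inf_le_right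
    rw [he']
    simp only
    rw [Nat.cast_sub h4]
    linarith
  have hup : ∀ m, ((∑ a, Module.finrank F (W F z m (dg a)) : ℕ) : ℤ) ≤
      NN d v Finset.univ m := by
    intro m
    have hN : ∀ n, (0 : ℤ) ≤ NN (fun _ : Fin k => 1) v Finset.univ n := by
      intro n
      rw [← PY_finrank (F := F) z hz n]
      exact Int.natCast_nonneg _
    have h1 : ∀ j, (Module.finrank F (W F z m j) : ℤ) =
        if j ≤ m then NN (fun _ : Fin k => 1) v Finset.univ (m - j) else 0 := by
      intro j
      by_cases h : j ≤ m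
      · have h2 : W F z m j = PY F z (m - j) := if_pos h
        rw [h2, PY_finrank z hz, if_pos h]
      · have h2 : W F z m j = ⊥ := if_neg h
        rw [h2, if_neg h]
        simp
    rw [Fintype.sum_sigma]
    push_cast
    have h2 : ∀ j : Fin (D + 1), ∑ i : Fin (e' j), (Module.finrank F (W F z m (dg ⟨j, i⟩)) : ℤ) =
        (e' j : ℤ) * (if (j : ℕ) ≤ m then NN (fun _ : Fin k => 1) v Finset.univ (m - j) else 0) := by
      intro j
      simp only [dg, h1]
      rw [Finset.sum_const, Finset.card_univ, Fintype.card_fin, nsmul_eq_mul]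
    rw [Finset.sum_congr rfl fun j _ => h2 j,
      Fin.sum_univ_eq_sum_range (fun j => (e' j : ℤ) *
        (if j ≤ m then NN (fun _ : Fin k => 1) v Finset.univ (m - j) else 0)) (D + 1),
      nn_conv d v m]
    have h3 : ∀ j, (0 : ℤ) ≤ (e' j : ℤ) *
        (if j ≤ m then NN (fun _ : Fin k => 1) v Finset.univ (m - j) else 0) := by
      intro j
      refine mul_nonneg (Int.natCast_nonneg _) ?_
      split_ifs
      · exact hN _
      · exact le_rfl
    have h4 : ∑ j ∈ Finset.range (D + 1), (e' j : ℤ) *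
        (if j ≤ m then NN (fun _ : Fin k => 1) v Finset.univ (m - j) else 0) =
        ∑ j ∈ Finset.range (m + 1), (if j ≤ D then (e' j : ℤ) else 0) *
          NN (fun _ : Fin k => 1) v Finset.univ (m - j) := by
      have h5 : ∀ n, ∑ j ∈ Finset.range (n + 1), (0 : ℤ) = 0 := fun n => by simp
      have h6 : ∑ j ∈ Finset.range (D + 1), (e' j : ℤ) *
          (if j ≤ m then NN (fun _ : Fin k => 1) v Finset.univ (m - j) else 0) =
          ∑ j ∈ Finset.range (D + m + 1), (if j ≤ D then (if j ≤ m then (e' j : ℤ) *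
            NN (fun _ : Fin k => 1) v Finset.univ (m - j) else 0) else 0) := by
        rw [← Finset.sum_filter]
        have h7 : (Finset.range (D + m + 1)).filter (fun j => j ≤ D) = Finset.range (D + 1) := by
          ext j
          simp only [Finset.mem_filter, Finset.mem_range]
          omega
        rw [h7]
        refine Finset.sum_congr rfl fun j _ => ?_
        split_ifs <;> simp
      have h8 : ∑ j ∈ Finset.range (m + 1), (if j ≤ D then (e' j : ℤ) else 0) *
          NN (fun _ : Fin k => 1) v Finset.univ (m - j) =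
          ∑ j ∈ Finset.range (D + m + 1), (if j ≤ D then (if j ≤ m then (e' j : ℤ) *
            NN (fun _ : Fin k => 1) v Finset.univ (m - j) else 0) else 0) := by
        have h9 : ∀ j, (if j ≤ D then (if j ≤ m then (e' j : ℤ) *
            NN (fun _ : Fin k => 1) v Finset.univ (m - j) else 0) else 0) =
            if j ≤ m then (if j ≤ D then (e' j : ℤ) else 0) *
              NN (fun _ : Fin k => 1) v Finset.univ (m - j) else 0 := by
          intro j
          split_ifs <;> simp
        simp only [h9]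
        rw [← Finset.sum_filter]
        have h7 : (Finset.range (D + m + 1)).filter (fun j => j ≤ m) = Finset.range (m + 1) := by
          ext j
          simp only [Finset.mem_filter, Finset.mem_range]
          omega
        rw [h7]
      rw [h6, h8]
    rw [h4]
    refine Finset.sum_le_sum fun j _ => mul_le_mul_of_nonneg_right ?_ (hN _)
    split_ifs with h
    · exact he j h
    · exact nn_nonneg d j
  have hcount := fun m => count z dg b hb m (gen_main hf z dg b hgen m) (hlow m) (hup m)
  refine ⟨fun m => ?_, ?_⟩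
  · have := (hcount m).1
    linarith
  · intro g e hg hg0 hgs s hs
    have hgP : g ∈ PY F z e := mem_PY.mpr ⟨hg, hgs⟩
    have hhom : ∀ G ∈ Set.range f, ∃ e, G.IsHomogeneous e := by
      rintro _ ⟨i, rfl⟩
      exact ⟨d i, hf i⟩
    have hcomp : ∀ m, homogeneousComponent m s ∈ II f := by
      intro m
      have h1 : g * homogeneousComponent m s ∈ II f := by
        have h2 := hc_hom (Set.range f) hhom (g * s) hs (m + e)
        rw [mul_comm g s, hc_comp hg, if_pos (by omega), Nat.add_sub_cancel, mul_comm] at h2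
        exact h2
      obtain ⟨p, hp1, hp2⟩ := gen_main hf z dg b hgen m (homogeneousComponent m s)
        (homogeneousComponent_isHomogeneous m s)
      have h3 : ∑ a, (g * p a) * b a ∈ II f := by
        have h4 : ∑ a, (g * p a) * b a = g * homogeneousComponent m s -
            g * (homogeneousComponent m s - ∑ a, p a * b a) := by
          rw [← mul_sub, sub_sub_cancel, Finset.mul_sum]
          refine Finset.sum_congr rfl fun a _ => ?_
          ring
        rw [h4]
        exact Ideal.sub_mem _ h1 (Ideal.mul_mem_left _ _ hp2)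
      have h5 := (hcount (e + m)).2 (fun a => g * p a) (fun a => W_mul hgP (hp1 a)) h3
      have h6 : ∀ a, p a = 0 := fun a => (mul_eq_zero.mp (h5 a)).resolve_left hg0
      simp only [h6, zero_mul, Finset.sum_const_zero, sub_zero] at hp2
      exact hp2
    rw [← sum_homogeneousComponent s]
    exact Ideal.sum_mem _ fun m _ => hcomp m

end Pool.Agent.OPT.GT

namespace Pool.Agent.OPT

alias tf_main := GT.tf_main_pr

end Pool.Agent.OPT
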