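import Pool.Agent.Lib_helper80.OPF.Defs
import Pool.Agent.Lib_helper77.KSZ.Main
import Pool.Agent.Lib_helper80.OPF.G1
import Pool.Agent.Lib_helper80.OPF.G2
import Pool.Agent.Lib_helper80.OPF.GJ
import Pool.Agent.Lib_helper80.OPF.GR
import Pool.Agent.Lib_helper80.OPF.GS
import Pool.Agent.Lib_helper80.OPF.GT
import Pool.Agent.Lib_helper80.OPF.GU

/-! # OPN, block GM: general forms are good -/

namespace Pool.Agent.OPT.GM

open MvPolynomial Pool.Agent.KSS Pool.Agent.KSX Pool.Agent.OPT
open scoped ENNReal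

theorem gm_ne {J F : Type} [Field F] (c : J → F) {H : MvPolynomial J ℤ}
    (h : aeval c H ≠ 0) : H ≠ 0 := by
  rintro rfl
  exact h (map_zero _)

/-- the ranges of the families of special forms -/
theorem gm_range1 {k v : ℕ} {R F : Type} [CommRing R] [Field F] (φ : R →+* F)
    (u : Fin k → MvPolynomial (Fin v) R) (f : Fin k → MvPolynomial (Fin v) F)
    (hu : ∀ i, MvPolynomial.map φ (u i) = f i) (z : Fin k → Fin v) :
    (Set.range fun b : Fin k ⊕ {a : Fin v // a ∉ Set.range z} => MvPolynomial.map φ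
      (Sum.elim u (fun a : {a : Fin v // a ∉ Set.range z} =>
        (X a.1 : MvPolynomial (Fin v) R)) b)) =
      Set.range f ∪ {g | ∃ a, a ∉ Set.range z ∧ g = X a} := by
  ext g
  constructor
  · rintro ⟨b | b, rfl⟩
    · left
      exact ⟨b, (hu b).symm⟩
    · right
      refine ⟨b.1, b.2, ?_⟩
      simp
  · rintro (⟨i, rfl⟩ | ⟨a, ha, rfl⟩)
    · exact ⟨Sum.inl i, hu i⟩
    · exact ⟨Sum.inr ⟨a, ha⟩, by simp⟩

theorem gm_range2 {k v : ℕ} {R F : Type} [CommRing R] [Field F] (φ : R →+* F)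
    (u : Fin k → MvPolynomial (Fin v) R) (f : Fin k → MvPolynomial (Fin v) F)
    (hu : ∀ i, MvPolynomial.map φ (u i) = f i) (z : Fin k → Fin v) :
    (Set.range fun b : Option (Fin k) => MvPolynomial.map φ
      (Option.elim b (jac u z) u)) = insert (jac f z) (Set.range f) := by
  have hj : MvPolynomial.map φ (jac u z) = jac f z := by
    rw [map_jac]
    congr 1
    funext i
    exact hu i
  ext g
  constructor
  · rintro ⟨b, rfl⟩
    cases b with
    | none => left; exact hj
    | some i => right; exact ⟨i, (hu i).symm⟩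
  · rintro (rfl | ⟨i, rfl⟩)
    · exact ⟨none, hj⟩
    · exact ⟨some i, hu i⟩

theorem gm_range3 {k v : ℕ} {R F : Type} [CommRing R] [Field F] (φ : R →+* F)
    (u : Fin k → MvPolynomial (Fin v) R) (f : Fin k → MvPolynomial (Fin v) F)
    (hu : ∀ i, MvPolynomial.map φ (u i) = f i) :
    (Set.range fun b : Fin k ⊕ {z : Fin k → Fin v // Function.Injective z} =>
      MvPolynomial.map φ (Sum.elim u (fun z : {z : Fin k → Fin v // Function.Injective z} =>
        jac u z.1) b)) =
      Set.range f ∪ {g | ∃ z : Fin k → Fin v, Function.Injective z ∧ g = jac f z} := by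
  have hj : ∀ z, MvPolynomial.map φ (jac u z) = jac f z := by
    intro z
    rw [map_jac]
    congr 1
    funext i
    exact hu i
  ext g
  constructor
  · rintro ⟨b | b, rfl⟩
    · left
      exact ⟨b, (hu b).symm⟩
    · right
      exact ⟨b.1, b.2, hj b.1⟩
  · rintro (⟨i, rfl⟩ | ⟨z, hz, rfl⟩)
    · exact ⟨Sum.inl i, hu i⟩
    · exact ⟨Sum.inr ⟨z, hz⟩, hj z⟩

/-- part A: the first special point -/
theorem gm_A {k v : ℕ} (d : Fin k → ℕ) (hd : ∀ i, 1 ≤ d i)
    (u : Fin k → MvPolynomial (Fin v) (MvPolynomial (CI d v) ℤ))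
    (hu : ∀ i, (u i).IsHomogeneous (d i))
    (hu' : ∀ (F : Type) [Field F] (f : Fin k → MvPolynomial (Fin v) F),
        (∀ i, (f i).IsHomogeneous (d i)) →
        ∀ i, MvPolynomial.map (aeval (cv d f)).toRingHom (u i) = f i)
    (z : Fin k → Fin v) (hz : Function.Injective z) (m : ℕ) :
    ∃ H : MvPolynomial (CI d v) ℤ, H ≠ 0 ∧
      ∀ (F : Type) [Field F] (f : Fin k → MvPolynomial (Fin v) F),
        (∀ i, (f i).IsHomogeneous (d i)) → aeval (cv d f) H ≠ 0 →
        NN d v ∅ m - NN d k Finset.univ m ≤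
          (Module.finrank F (IM (Set.range f ∪ {g | ∃ a, a ∉ Set.range z ∧ g = X a}) m) : ℤ) := by
  classical
  set f0 : Fin k → MvPolynomial (Fin v) ℚ := fun i => X (z i) ^ d i with hf0
  have hf0h : ∀ i, (f0 i).IsHomogeneous (d i) := fun i => by
    have := (isHomogeneous_X ℚ (z i)).pow (d i)
    rwa [one_mul] at this
  obtain ⟨H, h1, h2⟩ := rank_open (B := Fin k ⊕ {a : Fin v // a ∉ Set.range z}) d
    (Sum.elim u (fun a => X a.1)) (Sum.elim d (fun _ => 1)) (by
      rintro (b | b)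
      · exact hu b
      · exact isHomogeneous_X _ _) m (cv d f0)
  refine ⟨H, gm_ne _ h1, fun F _ f hf hH => ?_⟩
  have h3 := h2 F (cv d f) hH
  have e1 := gm_range1 _ u f0 (hu' ℚ f0 hf0h) z
  have e2 := gm_range1 _ u f (hu' F f hf) z
  have h4 := special_one d hd z hz m
  rw [e1, e2] at h3
  rw [← h4]
  exact_mod_cast h3

/-- part B: the second special point -/
theorem gm_B {k v : ℕ} (d : Fin k → ℕ) (hd : ∀ i, 1 ≤ d i) (hkv : k < v)
    (u : Fin k → MvPolynomial (Fin v) (MvPolynomial (CI d v) ℤ))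
    (hu : ∀ i, (u i).IsHomogeneous (d i))
    (hu' : ∀ (F : Type) [Field F] (f : Fin k → MvPolynomial (Fin v) F),
        (∀ i, (f i).IsHomogeneous (d i)) →
        ∀ i, MvPolynomial.map (aeval (cv d f)).toRingHom (u i) = f i)
    (z : Fin k → Fin v) (hz : Function.Injective z) :
    ∃ (m : ℕ) (H : MvPolynomial (CI d v) ℤ), H ≠ 0 ∧
      ∀ (F : Type) [Field F] (f : Fin k → MvPolynomial (Fin v) F),
        (∀ i, (f i).IsHomogeneous (d i)) → aeval (cv d f) H ≠ 0 →
        NN d v ∅ m - NN d (v - k) ∅ m <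
      (Module.finrank F (IM (insert (jac f z) (Set.range f)) m) : ℤ) := by
  classical
  obtain ⟨b, hb⟩ : ∃ b, b ∉ Set.range z := by
    by_contra hcon
    push Not at hcon
    have hs : Function.Surjective z := fun b => hcon b
    have := Fintype.card_le_of_surjective z hs
    simp only [Fintype.card_fin] at this
    omega
  obtain ⟨m, hm⟩ := special_two d hd z hz b hb
  set f0 : Fin k → MvPolynomial (Fin v) ℚ := fun i => X (z i) ^ d i - X b ^ d i with hf0
  have hf0h : ∀ i, (f0 i).IsHomogeneous (d i) := fun i => by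
    have h1 := (isHomogeneous_X ℚ (z i)).pow (d i)
    have h2 := (isHomogeneous_X ℚ b).pow (d i)
    rw [one_mul] at h1 h2
    exact h1.sub h2
  obtain ⟨H, h1, h2⟩ := rank_open (B := Option (Fin k)) d
    (fun b => Option.elim b (jac u z) u) (fun b => Option.elim b (jdeg d) d) (by
      intro b
      cases b with
      | none => exact jac_hom d hd u hu z
      | some i => exact hu i) m (cv d f0)
  refine ⟨m, H, gm_ne _ h1, fun F _ f hf hH => ?_⟩
  have h3 := h2 F (cv d f) hH
  have e1 := gm_range2 _ u f0 (hu' ℚ f0 hf0h) z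
  have e2 := gm_range2 _ u f (hu' F f hf) z
  rw [e1, e2] at h3
  refine lt_of_lt_of_le hm ?_
  exact_mod_cast h3

/-- part C: smoothness -/
theorem gm_C {k v : ℕ} (d : Fin k → ℕ) (hd : ∀ i, 1 ≤ d i)
    (u : Fin k → MvPolynomial (Fin v) (MvPolynomial (CI d v) ℤ))
    (hu : ∀ i, (u i).IsHomogeneous (d i))
    (hu' : ∀ (F : Type) [Field F] (f : Fin k → MvPolynomial (Fin v) F),
        (∀ i, (f i).IsHomogeneous (d i)) →
        ∀ i, MvPolynomial.map (aeval (cv d f)).toRingHom (u i) = f i) :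
    ∃ (H : MvPolynomial (CI d v) ℤ), H ≠ 0 ∧
      ∀ (F : Type) [Field F] (f : Fin k → MvPolynomial (Fin v) F),
        (∀ i, (f i).IsHomogeneous (d i)) → aeval (cv d f) H ≠ 0 →
        ∀ (κ : Type) [Field κ] [Algebra F κ] (x : Fin v → κ), x ≠ 0 →
          (∀ i, aeval x (f i) = 0) →
          ∃ z : Fin k → Fin v, Function.Injective z ∧ aeval x (jac f z) ≠ 0 := by
  classical
  obtain ⟨f0, hf0⟩ := vg_exists (N := v) d
  obtain ⟨M, -, hM⟩ := smooth_rank d hd f0 hf0
  obtain ⟨H, h1, h2⟩ := rank_open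
    (B := Fin k ⊕ {z : Fin k → Fin v // Function.Injective z}) d
    (Sum.elim u (fun z => jac u z.1)) (Sum.elim d (fun _ => jdeg d)) (by
      rintro (b | b)
      · exact hu b
      · exact jac_hom d hd u hu b.1) M (cv d f0)
  refine ⟨H, gm_ne _ h1, fun F _ f hf hH κ _ _ x hx h0 => ?_⟩
  have h3 := h2 F (cv d f) hH
  have e1 := gm_range3 _ u f0 (hu' ℂ f0 hf0.1)
  have e2 := gm_range3 _ u f (hu' F f hf)
  rw [e1, e2] at h3
  refine smooth_of_rank d f M (le_antisymm ?_ ?_) κ x hx h0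
  · rw [← finrank_hom_pr F d v M]
    have h4 : Module.finrank F (IM (Set.range f ∪ {g | ∃ z : Fin k → Fin v,
        Function.Injective z ∧ g = jac f z}) M) ≤
        Module.finrank F (homogeneousSubmodule (Fin v) F M) := by
      have hfin : Module.Finite F (homogeneousSubmodule (Fin v) F M) := by
        infer_instance
      exact Submodule.finrank_mono (inf_le_right)
    exact_mod_cast h4
  · rw [← hM]
    exact_mod_cast h3

/-- (GM) general forms are good -/
theorem good_open_pr {k v : ℕ} (d : Fin k → ℕ) (hd : ∀ i, 1 ≤ d i) (hkv : k < v) :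
    ∃ H : MvPolynomial (CI d v) ℤ, H ≠ 0 ∧
      ∀ (F : Type) [Field F] (f : Fin k → MvPolynomial (Fin v) F),
        (∀ i, (f i).IsHomogeneous (d i)) → aeval (cv d f) H ≠ 0 → Good d f := by
  classical
  obtain ⟨u, hu, hu'⟩ := univ_forms (v := v) d
  have hA := fun (z : {z : Fin k → Fin v // Function.Injective z}) (m : ℕ) =>
    gm_A d hd u hu hu' z.1 z.2 m
  choose HA hA0 hA1 using hA
  have hB := fun (z : {z : Fin k → Fin v // Function.Injective z}) =>
    gm_B d hd hkv u hu hu' z.1 z.2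
  choose mB HB hB0 hB1 using hB
  obtain ⟨HC, hC0, hC1⟩ := gm_C d hd u hu hu'
  refine ⟨(∏ z : {z : Fin k → Fin v // Function.Injective z},
    ((∏ m ∈ Finset.range (∑ i, d i + 2), HA z m) * HB z)) * HC, ?_, ?_⟩
  · refine mul_ne_zero (Finset.prod_ne_zero_iff.mpr fun z _ => mul_ne_zero
      (Finset.prod_ne_zero_iff.mpr fun m _ => hA0 z m) (hB0 z)) hC0
  · intro F _ f hf hH
    rw [map_mul, map_prod] at hH
    obtain ⟨hH1, hH2⟩ := mul_ne_zero_iff.mp hH
    have hz1 : ∀ z : {z : Fin k → Fin v // Function.Injective z},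
        (∀ m ≤ ∑ i, d i + 1, aeval (cv d f) (HA z m) ≠ 0) ∧ aeval (cv d f) (HB z) ≠ 0 := by
      intro z
      have h1 := Finset.prod_ne_zero_iff.mp hH1 z (Finset.mem_univ z)
      rw [map_mul, map_prod] at h1
      obtain ⟨h2, h3⟩ := mul_ne_zero_iff.mp h1
      exact ⟨fun m hm => Finset.prod_ne_zero_iff.mp h2 m (Finset.mem_range.mpr (by omega)), h3⟩
    have htf := fun z : {z : Fin k → Fin v // Function.Injective z} =>
      tf_main d hd hkv.le f hf z.1 z.2 (fun m hm => hA1 z m F f hf ((hz1 z).1 m hm))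
    have hex : ∀ a : Fin v, ∃ z : {z : Fin k → Fin v // Function.Injective z},
        ∀ j, z.1 j ≠ a := by
      intro a
      have hc : Fintype.card (Fin k) ≤ Fintype.card {b : Fin v // b ≠ a} := by
        rw [Fintype.card_fin, Fintype.card_subtype_compl (fun b => b = a)]
        simp only [Fintype.card_fin, Fintype.card_unique]
        omega
      obtain ⟨e⟩ := Function.Embedding.nonempty_of_card_le hc
      exact ⟨⟨fun j => (e j).1, fun i j hij => e.injective (Subtype.ext hij)⟩,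
        fun j => (e j).2⟩
    refine ⟨hf, ?_, ?_, ?_, ?_⟩
    · obtain ⟨z, -⟩ := hex ⟨0, by omega⟩
      exact (htf z).1
    · intro a s hs
      obtain ⟨z, hz⟩ := hex a
      refine (htf z).2 (X a) 1 (isHomogeneous_X F a) (X_ne_zero a) ?_ s hs
      intro β hβ j
      rw [support_X, Finset.mem_singleton] at hβ
      rw [hβ, Finsupp.single_apply, if_neg (fun h => hz j h.symm)]
    · intro z hz s hs
      exact nzJ_of_rank d hkv.le f hf z hz (mB ⟨z, hz⟩)
        (hB1 ⟨z, hz⟩ F f hf (hz1 ⟨z, hz⟩).2) (htf ⟨z, hz⟩).2 s hs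
    · intro κ _ _ x hx h0
      exact hC1 F f hf hH2 κ x hx h0

end Pool.Agent.OPT.GM

namespace Pool.Agent.OPT

alias good_open := GM.good_open_pr

end Pool.Agent.OPT
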