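import Pool.Agent.Lib_helper80.OPF.T1
import Pool.Agent.Lib_helper77.OPF.Defs

/-!
# OPN: theorem T1 in the form of the interface
-/

namespace Pool.Agent.OPN

open MvPolynomial Pool.Agent.KSS Pool.Agent.KSX Filter Topology
open scoped ENNReal

theorem sm_of_good {a v : ℕ} (d : Fin a → ℕ) {F : Type} [Field F]
    (f : Fin a → MvPolynomial (Fin v) F) (hf : OPT.Good d f) : Sm f := by
  intro κ _ _ pt hpt h0
  obtain ⟨z, _, hJ⟩ := hf.smooth κ pt hpt h0
  rw [Fintype.linearIndependent_iff]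
  intro c hc
  set M : Matrix (Fin a) (Fin a) κ := Matrix.of fun i j => aeval pt (pderiv (z j) (f i)) with hM
  have hdet : M.det ≠ 0 := by
    have h1 : aeval pt (OPT.jac f z) = M.det := by
      unfold OPT.jac
      rw [← AlgHom.coe_toRingHom, RingHom.map_det]
      rfl
    rw [← h1]
    exact hJ
  have h2 : c = 0 := by
    apply Matrix.eq_zero_of_vecMul_eq_zero hdet
    funext j
    have h3 := congrFun hc (z j)
    rw [Finset.sum_apply] at h3
    rw [Matrix.vecMul, dotProduct]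
    exact h3
  intro i
  exact congrFun h2 i

theorem t1_main_pr (n k : ℕ) (d : Fin k → ℕ) (hd : ∀ i, 1 ≤ d i) (hF : ∑ i, d i ≤ n + k) :
    ∃ g : ℕ → ℝ, (∀ m, 0 ≤ g m) ∧ Tendsto (fun m : ℕ => g m / (m : ℝ) ^ (n + 1)) atTop
        (𝓝 ((∏ i, d i : ℕ) / (n.factorial * (n + k + 1 - ∑ i, d i : ℕ)))) ∧
      ∃ H0 : MvPolynomial (CI d (n + k + 1)) ℤ, H0 ≠ 0 ∧
        ∀ f : Fin k → MvPolynomial (Fin (n + k + 1)) ℂ, (∀ i, (f i).IsHomogeneous (d i)) →
          Hv (d := d) H0 f ≠ 0 → ∀ (E : DivisorOver f n) (ε : ℝ), 0 < ε →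
            (E.A : ℝ≥0∞) < ENNReal.ofReal (1 + ε) * ExpVan d E →
              ∀ (H : MvPolynomial (CI d (n + k + 1)) ℤ), Hv (d := d) H f ≠ 0 → ∀ M T : ℕ,
                ∃ V : Viol n k, V.Ok d g M T ε ∧ Hv (d := d) H V.f ≠ 0 := by
  obtain ⟨g, hg0, hg, H0, hH0, h⟩ := OPT.t1_raw n k d hd hF
  refine ⟨g, hg0, hg, H0, hH0, fun f hf hfH E ε hε hE H hH M T => ?_⟩
  obtain ⟨-, h'⟩ := h f hf hfH
  obtain ⟨p, hp, F, iF, iA, iC, κ, iκ, iAlg, g', A, L, y, h1, h2, h3, h4, h5, h6, h7, h8, h9⟩ :=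
    h' E ε hε hE H hH M T
  refine ⟨{ p := p, F := F, κ := κ, f := g', A := A, L := L, x := y }, ?_, h3⟩
  exact
    { hom := h2.hom
      sm := sm_of_good d g' h2
      A1 := h6
      L_ge := h7
      p_ge := h1
      c0 := h5
      van := h4
      cod := h8
      lev := h9 }

alias t1_main := t1_main_pr

end Pool.Agent.OPN
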