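import Pool.Agent.Lib_helper80.OPF.Defs
import Mathlib

/-! # OPN block M1b: the residue field of a valuation ring of an algebraically closed field -/

namespace Pool.Agent.OPT.M1b

/-- (M1b) the residue field of a valuation ring of an algebraically closed field is
algebraically closed (lift a monic polynomial, its root is integral). -/
theorem resid_closed_pr {K : Type} [Field K] [IsAlgClosed K] (O : ValuationSubring K) :
    IsAlgClosed (IsLocalRing.ResidueField O) := by
  apply IsAlgClosed.of_exists_root
  intro p hp hirr
  obtain ⟨q, hq, hdeg, hqm⟩ : ∃ q : Polynomial O, q.map (IsLocalRing.residue O) = p ∧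
      q.degree = p.degree ∧ q.Monic :=
    Polynomial.lifts_and_degree_eq_and_monic
      ((Polynomial.mem_lifts _).2 (Polynomial.map_surjective (IsLocalRing.residue O)
          IsLocalRing.residue_surjective p)) hp
  have hd : (q.map (algebraMap O K)).degree ≠ 0 := by
    rw [Polynomial.degree_map_eq_of_injective (IsFractionRing.injective O K), hdeg]
    exact (Polynomial.degree_pos_of_irreducible hirr).ne'
  obtain ⟨x, hx⟩ := IsAlgClosed.exists_root _ hd
  have hx' : Polynomial.eval₂ (algebraMap O K) x q = 0 := by
    rw [← Polynomial.eval_map]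
    exact hx
  have hxi : IsIntegral O x := ⟨q, hqm, hx'⟩
  obtain ⟨y, hy⟩ := IsIntegrallyClosed.isIntegral_iff.1 hxi
  refine ⟨IsLocalRing.residue O y, ?_⟩
  have h1 : Polynomial.eval y q = 0 := by
    apply IsFractionRing.injective O K
    rw [map_zero, ← Polynomial.eval₂_at_apply, hy]
    exact hx'
  rw [← hq, Polynomial.eval_map, Polynomial.eval₂_at_apply, h1, map_zero]

end Pool.Agent.OPT.M1b

namespace Pool.Agent.OPT

alias resid_closed := M1b.resid_closed_pr

end Pool.Agent.OPT
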