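import Pool.Agent.Lib_helper80.OPF.Defs

/-! # OPN, block CP: number of operators -/

namespace Pool.Agent.OPT.CP

open MvPolynomial Pool.Agent.KSS Pool.Agent.KSX

/-- the number of variables outside `range z` and different from `b` -/
theorem card_W {k v : ℕ} (z : Fin k → Fin v) (hz : Function.Injective z) (b : Fin v)
    (hb : b ∉ Set.range z) :
    Nat.card {a : Fin v // a ∉ Set.range z ∧ a ≠ b} = v - k - 1 := by
  classical
  rw [Nat.card_eq_fintype_card, Fintype.card_subtype]
  have h1 : (Finset.univ.filter fun a : Fin v => a ∉ Set.range z ∧ a ≠ b) =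
      ((Finset.univ \ Finset.univ.image z).erase b) := by
    ext a
    simp only [Finset.mem_filter, Finset.mem_univ, true_and, Finset.mem_erase, Finset.mem_sdiff,
      Finset.mem_image, Set.mem_range]
    tauto
  rw [h1, Finset.card_erase_of_mem, Finset.card_sdiff_of_subset (Finset.subset_univ _),
    Finset.card_image_of_injective _ hz, Finset.card_univ, Finset.card_univ, Fintype.card_fin,
    Fintype.card_fin]
  simp only [Finset.mem_sdiff, Finset.mem_univ, true_and, Finset.mem_image]
  exact fun h => hb h

/-- number of exponents `α` with `p ∣ |α|` (`v > k`): `p^(v-k-1)`. -/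
theorem card_AI_pr (p : ℕ) [Fact p.Prime] {k v : ℕ} (z : Fin k → Fin v)
    (hz : Function.Injective z) (hkv : k < v) :
    Nat.card {α : AI p z // p ∣ ∑ a, (α.1 a : ℕ)} = p ^ (v - k - 1) := by
  classical
  have hp : p.Prime := Fact.out
  have hp0 : 0 < p := hp.pos
  obtain ⟨b, hb⟩ : ∃ b : Fin v, b ∉ Set.range z := by
    by_contra h
    push Not at h
    have hs : Function.Surjective z := h
    have := Fintype.card_le_of_surjective z hs
    rw [Fintype.card_fin, Fintype.card_fin] at this
    omega
  let f : {α : AI p z // p ∣ ∑ a, (α.1 a : ℕ)} →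
      ({a : Fin v // a ∉ Set.range z ∧ a ≠ b} → Fin p) := fun α w => α.1.1 w.1
  have hsum : ∀ α : Fin v → Fin p, ∑ a, (α a : ℕ) =
      (α b : ℕ) + ∑ a ∈ Finset.univ.erase b, (α a : ℕ) := by
    intro α
    rw [Finset.add_sum_erase _ (fun a => (α a : ℕ)) (Finset.mem_univ b)]
  have hf : Function.Bijective f := by
    constructor
    · intro α β h
      have h1 : ∀ a, a ≠ b → α.1.1 a = β.1.1 a := by
        intro a hab
        by_cases ha : a ∈ Set.range z
        · obtain ⟨j, rfl⟩ := ha
          exact Fin.ext ((α.1.2 j).trans (β.1.2 j).symm)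
        · exact congrFun h ⟨a, ha, hab⟩
      have h2 : ∑ a ∈ Finset.univ.erase b, (α.1.1 a : ℕ) =
          ∑ a ∈ Finset.univ.erase b, (β.1.1 a : ℕ) := by
        refine Finset.sum_congr rfl fun a ha => ?_
        rw [h1 a (Finset.ne_of_mem_erase ha)]
      have h3 := α.2
      have h4 := β.2
      rw [hsum α.1.1] at h3
      rw [hsum β.1.1, ← h2] at h4
      have h5 : α.1.1 b = β.1.1 b := by
        apply Fin.ext
        have h6 : ((α.1.1 b : ℕ) : ZMod p) = ((β.1.1 b : ℕ) : ZMod p) := by
          have e1 := (ZMod.natCast_eq_zero_iff _ _).mpr h3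
          have e2 := (ZMod.natCast_eq_zero_iff _ _).mpr h4
          rw [Nat.cast_add] at e1 e2
          exact add_right_cancel (e1.trans e2.symm)
        rw [ZMod.natCast_eq_natCast_iff', Nat.mod_eq_of_lt (α.1.1 b).2,
          Nat.mod_eq_of_lt (β.1.1 b).2] at h6
        exact h6
      apply Subtype.ext
      apply Subtype.ext
      funext a
      by_cases hab : a = b
      · rw [hab]
        exact h5
      · exact h1 a hab
    · intro β
      set γ : Fin v → Fin p := fun a =>
        if h : a ∉ Set.range z ∧ a ≠ b then β ⟨a, h⟩ else ⟨0, hp0⟩ with hγ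
      set s : ℕ := ∑ a ∈ Finset.univ.erase b, (γ a : ℕ) with hs
      set c : Fin p := ⟨(p - s % p) % p, Nat.mod_lt _ hp0⟩ with hc
      have h1 : ∀ a, a ≠ b → Function.update γ b c a = γ a := fun a ha =>
        Function.update_of_ne ha _ _
      have h2 : ∀ j, ((Function.update γ b c (z j)) : ℕ) = 0 := by
        intro j
        have hj : z j ≠ b := fun h => hb ⟨j, h⟩
        rw [h1 _ hj, hγ]
        have h3 : ¬ (z j ∉ Set.range z ∧ z j ≠ b) := fun h => h.1 ⟨j, rfl⟩
        simp only [dif_neg h3]
      have h3 : p ∣ ∑ a, ((Function.update γ b c a) : ℕ) := by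
        rw [hsum, Function.update_self]
        have h4 : ∑ a ∈ Finset.univ.erase b, ((Function.update γ b c a) : ℕ) = s := by
          rw [hs]
          refine Finset.sum_congr rfl fun a ha => ?_
          rw [h1 a (Finset.ne_of_mem_erase ha)]
        rw [h4, hc]
        show p ∣ (p - s % p) % p + s
        have h5 : (p - s % p) % p + s ≡ 0 [MOD p] := by
          have h6 : (p - s % p) % p ≡ p - s % p [MOD p] := Nat.mod_modEq _ _
          have h7 : s ≡ s % p [MOD p] := (Nat.mod_modEq _ _).symm
          have h8 : (p - s % p) + s % p = p := Nat.sub_add_cancel (Nat.mod_lt s hp0).le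
          calc (p - s % p) % p + s ≡ (p - s % p) + s % p [MOD p] := h6.add h7
            _ = p := h8
            _ ≡ 0 [MOD p] := by
              rw [Nat.modEq_zero_iff_dvd]
        exact (Nat.modEq_zero_iff_dvd).mp h5
      refine ⟨⟨⟨Function.update γ b c, h2⟩, h3⟩, ?_⟩
      funext w
      show Function.update γ b c w.1 = β w
      rw [h1 _ w.2.2, hγ]
      simp only [dif_pos w.2]
  rw [Nat.card_congr (Equiv.ofBijective f hf), Nat.card_fun, Nat.card_fin, card_W z hz b hb]

end Pool.Agent.OPT.CP

namespace Pool.Agent.OPT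

alias card_AI := CP.card_AI_pr

end Pool.Agent.OPT
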