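import Pool.Agent.Lib_helper80.OPF.Defs

/-!
# OPN, block DI: the coefficient of `∏ X_j^(p-1)` in `∏_i (∑_j a_ij X_j)^(p-1)`
-/

namespace Pool.Agent.OPT.DI

open MvPolynomial

/-- the exponent -/
noncomputable def T (p k : ℕ) : Fin k →₀ ℕ := Finsupp.equivFunOnFinite.symm fun _ : Fin k => p - 1

theorem T_apply (p k : ℕ) (j : Fin k) : T p k j = p - 1 := rfl

theorem coeff_pow_mul (p : ℕ) [Fact p.Prime] {F : Type} [Field F] {k : ℕ}
    (j : Fin k) (q : MvPolynomial (Fin k) F) : coeff (T p k) (X j ^ p * q) = 0 := by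
  rw [X_pow_eq_monomial, coeff_monomial_mul', if_neg]
  intro h
  have h1 := h j
  rw [Finsupp.single_eq_same, T_apply] at h1
  have := (Fact.out : p.Prime).pos
  omega

/-- the linear forms of a matrix -/
noncomputable def lin {F : Type} [Field F] {k : ℕ} (b : Matrix (Fin k) (Fin k) F) (i : Fin k) :
    MvPolynomial (Fin k) F := ∑ j, C (b i j) * X j

/-- the coefficient -/
noncomputable def N (p : ℕ) {F : Type} [Field F] {k : ℕ} (b : Matrix (Fin k) (Fin k) F) : F :=
  coeff (T p k) (∏ i, lin b i ^ (p - 1))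

/-- the substitution -/
noncomputable def phi {F : Type} [Field F] {k : ℕ} (b : Matrix (Fin k) (Fin k) F) :
    MvPolynomial (Fin k) F →ₐ[F] MvPolynomial (Fin k) F := aeval (lin b)

theorem phi_X {F : Type} [Field F] {k : ℕ} (b : Matrix (Fin k) (Fin k) F) (j : Fin k) :
    phi b (X j) = lin b j := aeval_X _ _

theorem phi_lin {F : Type} [Field F] {k : ℕ} (a b : Matrix (Fin k) (Fin k) F) (i : Fin k) :
    phi b (lin a i) = lin (a * b) i := by
  have h1 : phi b (lin a i) = ∑ j, C (a i j) * lin b j := by
    rw [lin, map_sum]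
    refine Finset.sum_congr rfl fun j _ => ?_
    rw [map_mul, phi_X]
    congr 1
    exact aeval_C _ _
  rw [h1]
  unfold lin
  simp_rw [Finset.mul_sum, Matrix.mul_apply, map_sum, Finset.sum_mul, map_mul, mul_assoc]
  rw [Finset.sum_comm]

theorem coeff_phi_pow (p : ℕ) [Fact p.Prime] {F : Type} [Field F] [CharP F p] {k : ℕ}
    (b : Matrix (Fin k) (Fin k) F) (j : Fin k) (q : MvPolynomial (Fin k) F) :
    coeff (T p k) (phi b (X j ^ p * q)) = 0 := by
  have h2 : lin b j ^ p = ∑ l, (C (b j l) * X l) ^ p := by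
    rw [lin, sum_pow_char]
  rw [map_mul, map_pow, phi_X, h2, Finset.sum_mul, coeff_sum]
  refine Finset.sum_eq_zero fun l _ => ?_
  rw [mul_pow, ← C_pow, mul_assoc, coeff_C_mul, coeff_pow_mul, mul_zero]

theorem exists_ge (p : ℕ) {k : ℕ} (m : Fin k →₀ ℕ) (hm : m.degree = k * (p - 1))
    (hp : 0 < p) (hne : m ≠ T p k) : ∃ j, p ≤ m j := by
  by_contra hcon
  push Not at hcon
  apply hne
  have h1 : ∀ j ∈ (Finset.univ : Finset (Fin k)), m j ≤ p - 1 := fun j _ => by
    have := hcon j
    omega
  have h2 : ∑ j, m j = ∑ _j : Fin k, (p - 1) := by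
    rw [Finset.sum_const, Finset.card_univ, Fintype.card_fin, smul_eq_mul, ← hm,
      Finsupp.degree_eq_sum]
  have h3 := (Finset.sum_eq_sum_iff_of_le h1).1 h2
  ext j
  rw [T_apply]
  exact h3 j (Finset.mem_univ j)

theorem coeff_phi (p : ℕ) [Fact p.Prime] {F : Type} [Field F] [CharP F p] {k : ℕ}
    (b : Matrix (Fin k) (Fin k) F) (g : MvPolynomial (Fin k) F)
    (hg : g.IsHomogeneous (k * (p - 1))) :
    coeff (T p k) (phi b g) = coeff (T p k) g * N p b := by
  classical
  have hp : 0 < p := (Fact.out : p.Prime).pos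
  have h1 : ∀ m ∈ g.support, coeff (T p k) (phi b (monomial m (coeff m g))) =
      if m = T p k then coeff (T p k) g * N p b else 0 := by
    intro m hm
    by_cases hmT : m = T p k
    · rw [if_pos hmT, hmT]
      have h2 : phi b (monomial (T p k) (coeff (T p k) g)) =
          C (coeff (T p k) g) * ∏ i, lin b i ^ (p - 1) := by
        rw [phi, aeval_monomial, Finsupp.prod_fintype _ _ (fun i => pow_zero _)]
        rfl
      rw [h2, coeff_C_mul]
      rfl
    · rw [if_neg hmT]
      have hd : m.degree = k * (p - 1) := by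
        have h3 := hg (mem_support_iff.1 hm)
        rw [← h3, Finsupp.degree_eq_weight_one]
        rfl
      obtain ⟨j, hj⟩ := exists_ge p m hd hp hmT
      have h4 : Finsupp.single j p ≤ m := by
        intro l
        by_cases hl : l = j
        · rw [hl, Finsupp.single_eq_same]; exact hj
        · rw [Finsupp.single_eq_of_ne (by tauto)]; exact Nat.zero_le _
      have h5 : (monomial m (coeff m g) : MvPolynomial (Fin k) F) =
          X j ^ p * monomial (m - Finsupp.single j p) (coeff m g) := by
        rw [X_pow_eq_monomial, monomial_mul, one_mul, add_tsub_cancel_of_le h4]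
      rw [h5]
      exact coeff_phi_pow p b j _
  calc coeff (T p k) (phi b g)
      = coeff (T p k) (phi b (∑ m ∈ g.support, monomial m (coeff m g))) := by
        rw [support_sum_monomial_coeff]
    _ = ∑ m ∈ g.support, coeff (T p k) (phi b (monomial m (coeff m g))) := by
        rw [map_sum, coeff_sum]
    _ = ∑ m ∈ g.support, if m = T p k then coeff (T p k) g * N p b else 0 :=
        Finset.sum_congr rfl h1
    _ = coeff (T p k) g * N p b := by
        rw [Finset.sum_ite_eq']
        split_ifs with h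
        · rfl
        · rw [notMem_support_iff.1 h, zero_mul]

theorem lin_hom {F : Type} [Field F] {k : ℕ} (a : Matrix (Fin k) (Fin k) F) (i : Fin k) :
    (lin a i).IsHomogeneous 1 := by
  refine IsHomogeneous.sum _ _ _ fun j _ => ?_
  have := (isHomogeneous_C (Fin k) (a i j)).mul (isHomogeneous_X F j)
  rwa [zero_add] at this

theorem prod_hom (p : ℕ) {F : Type} [Field F] {k : ℕ} (a : Matrix (Fin k) (Fin k) F) :
    (∏ i, lin a i ^ (p - 1)).IsHomogeneous (k * (p - 1)) := by
  have h := IsHomogeneous.prod (Finset.univ : Finset (Fin k)) (fun i => lin a i ^ (p - 1))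
    (fun _ => p - 1) (fun i _ => by
      have := (lin_hom a i).pow (p - 1)
      rwa [one_mul] at this)
  rwa [Finset.sum_const, Finset.card_univ, Fintype.card_fin, smul_eq_mul] at h

theorem N_mul (p : ℕ) [Fact p.Prime] {F : Type} [Field F] [CharP F p] {k : ℕ}
    (a b : Matrix (Fin k) (Fin k) F) : N p (a * b) = N p a * N p b := by
  have h1 : phi b (∏ i, lin a i ^ (p - 1)) = ∏ i, lin (a * b) i ^ (p - 1) := by
    rw [map_prod]
    refine Finset.prod_congr rfl fun i _ => ?_
    rw [map_pow, phi_lin]
  rw [N, ← h1, coeff_phi p b _ (prod_hom p a)]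
  rfl

theorem N_one_like (p : ℕ) {F : Type} [Field F] {k : ℕ} (c : Fin k → F) :
    coeff (T p k) (∏ i, (C (c i) * X i : MvPolynomial (Fin k) F) ^ (p - 1)) =
      (∏ i, c i) ^ (p - 1) := by
  have h : (∏ i, (C (c i) * X i : MvPolynomial (Fin k) F) ^ (p - 1)) =
      monomial (T p k) ((∏ i, c i) ^ (p - 1)) := by
    rw [monomial_eq, Finsupp.prod_fintype _ _ (fun i => pow_zero _), Finset.prod_pow,
      Finset.prod_mul_distrib, mul_pow, C_pow, map_prod]
    congr 1
    rw [← Finset.prod_pow]
    rfl
  rw [h, coeff_monomial, if_pos rfl]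

theorem N_diag (p : ℕ) {F : Type} [Field F] {k : ℕ} (D : Fin k → F) :
    N p (Matrix.diagonal D) = (Matrix.diagonal D).det ^ (p - 1) := by
  have h1 : ∀ i, lin (Matrix.diagonal D) i = C (D i) * X i := by
    intro i
    rw [lin, Finset.sum_eq_single i]
    · rw [Matrix.diagonal_apply_eq]
    · intro j _ hj
      rw [Matrix.diagonal_apply_ne' _ hj, map_zero, zero_mul]
    · intro h
      exact absurd (Finset.mem_univ i) h
  rw [N, Matrix.det_diagonal]
  simp_rw [h1]
  exact N_one_like p D

theorem N_transvection (p : ℕ) [Fact p.Prime] {F : Type} [Field F] {k : ℕ}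
    (t : Matrix.TransvectionStruct (Fin k) F) : N p t.toMatrix = 1 := by
  classical
  obtain ⟨i, j, hij, c⟩ := t
  have hp : 0 < p := (Fact.out : p.Prime).pos
  have h1 : ∀ l, l ≠ i → lin (Matrix.TransvectionStruct.toMatrix ⟨i, j, hij, c⟩) l = X l := by
    intro l hl
    rw [lin, Finset.sum_eq_single l]
    · simp [Matrix.TransvectionStruct.toMatrix, Matrix.transvection, Matrix.single_apply,
        Ne.symm hl]
    · intro m _ hm
      simp [Matrix.TransvectionStruct.toMatrix, Matrix.transvection, Matrix.single_apply,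
        Ne.symm hl, Matrix.one_apply, Ne.symm hm]
    · intro h
      exact absurd (Finset.mem_univ l) h
  have h2 : lin (Matrix.TransvectionStruct.toMatrix ⟨i, j, hij, c⟩) i = X i + C c * X j := by
    have h3 : ∀ m, (C ((Matrix.TransvectionStruct.toMatrix ⟨i, j, hij, c⟩) i m) * X m :
        MvPolynomial (Fin k) F) = (if m = i then X i else 0) + (if m = j then C c * X j else 0) := by
      intro m
      by_cases hm : m = i
      · subst hm
        simp [Matrix.TransvectionStruct.toMatrix, Matrix.transvection, Matrix.single_apply, hij,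
          Ne.symm hij]
      · by_cases hm' : m = j
        · subst hm'
          simp [Matrix.TransvectionStruct.toMatrix, Matrix.transvection, Matrix.single_apply,
            hm, Matrix.one_apply, Ne.symm hm]
        · simp [Matrix.TransvectionStruct.toMatrix, Matrix.transvection, Matrix.single_apply,
            hm, Matrix.one_apply, Ne.symm hm, hm', Ne.symm hm']
    rw [lin, Finset.sum_congr rfl fun m _ => h3 m, Finset.sum_add_distrib, Finset.sum_ite_eq',
      Finset.sum_ite_eq', if_pos (Finset.mem_univ _), if_pos (Finset.mem_univ _)]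
  obtain ⟨q, hq⟩ : (C c * X j : MvPolynomial (Fin k) F) ∣
      (X i + C c * X j) ^ (p - 1) - X i ^ (p - 1) := by
    have h := sub_dvd_pow_sub_pow (X i + C c * X j : MvPolynomial (Fin k) F) (X i) (p - 1)
    rwa [add_sub_cancel_left] at h
  have h4 : ∀ s : Finset (Fin k), i ∉ s →
      (∏ l ∈ s, lin (Matrix.TransvectionStruct.toMatrix ⟨i, j, hij, c⟩) l ^ (p - 1)) =
      ∏ l ∈ s, (X l : MvPolynomial (Fin k) F) ^ (p - 1) := by
    intro s hs
    refine Finset.prod_congr rfl fun l hl => ?_
    rw [h1 l (fun h => hs (h ▸ hl))]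
  have h5 : (∏ l, lin (Matrix.TransvectionStruct.toMatrix ⟨i, j, hij, c⟩) l ^ (p - 1)) =
      (∏ l, (C ((fun _ => 1 : Fin k → F) l) * X l : MvPolynomial (Fin k) F) ^ (p - 1)) +
        X j ^ p * (C c * q * ∏ l ∈ (Finset.univ.erase i).erase j,
          (X l : MvPolynomial (Fin k) F) ^ (p - 1)) := by
    have h6 : (∏ l, (C ((fun _ => 1 : Fin k → F) l) * X l : MvPolynomial (Fin k) F) ^ (p - 1)) =
        ∏ l, (X l : MvPolynomial (Fin k) F) ^ (p - 1) := by
      refine Finset.prod_congr rfl fun l _ => ?_
      rw [map_one, one_mul]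
    rw [h6, ← Finset.mul_prod_erase Finset.univ _ (Finset.mem_univ i), h4 _ (Finset.notMem_erase _ _),
      ← Finset.mul_prod_erase Finset.univ (fun l => (X l : MvPolynomial (Fin k) F) ^ (p - 1))
        (Finset.mem_univ i), h2, eq_add_of_sub_eq' hq,
      ← Finset.mul_prod_erase (Finset.univ.erase i) (fun l => (X l : MvPolynomial (Fin k) F) ^ (p - 1))
        (Finset.mem_erase.2 ⟨Ne.symm hij, Finset.mem_univ j⟩)]
    have h7 : (X j : MvPolynomial (Fin k) F) ^ p = X j * X j ^ (p - 1) := by
      rw [← pow_succ', Nat.sub_add_cancel hp]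
    rw [h7]
    ring
  rw [N, h5, coeff_add, coeff_pow_mul, add_zero, N_one_like, Finset.prod_const_one, one_pow]

theorem det_coeff_pr (p : ℕ) [Fact p.Prime] {F : Type} [Field F] [CharP F p] {k : ℕ}
    (a : Matrix (Fin k) (Fin k) F) :
    coeff (Finsupp.equivFunOnFinite.symm fun _ : Fin k => p - 1)
      (∏ i, (∑ j, C (a i j) * X j : MvPolynomial (Fin k) F) ^ (p - 1)) = a.det ^ (p - 1) := by
  change N p a = a.det ^ (p - 1)
  induction a using Matrix.diagonal_transvection_induction with
  | hdiag D _ => exact N_diag p D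
  | htransvec t => rw [N_transvection, Matrix.TransvectionStruct.det, one_pow]
  | hmul A B hA hB => rw [N_mul, hA, hB, Matrix.det_mul, mul_pow]


end Pool.Agent.OPT.DI

namespace Pool.Agent.OPT

alias det_coeff := DI.det_coeff_pr

end Pool.Agent.OPT
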