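import Pool.Agent.Lib_helper80.OPF.Defs

/-!
# OPN, block KA: the partial trace as a coefficient
-/

namespace Pool.Agent.OPT.KA

open MvPolynomial Pool.Agent.KSS Pool.Agent.KSX Pool.Agent.OPT

theorem ka_choose (p : ℕ) [hp : Fact p.Prime] (F : Type) [Field F] [CharP F p] (b : ℕ) :
    ((b.choose (p - 1) : ℕ) : F) = if b % p = p - 1 then 1 else 0 := by
  have h := Choose.choose_modEq_choose_mod_mul_choose_div_nat (n := b) (k := p - 1) (p := p)
  have hpp := hp.out.pos
  have h1 : (p - 1) % p = p - 1 := Nat.mod_eq_of_lt (by omega)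
  have h2 : (p - 1) / p = 0 := Nat.div_eq_of_lt (by omega)
  rw [h1, h2, Nat.choose_zero_right, mul_one] at h
  rw [(CharP.natCast_eq_natCast F p).2 h]
  split_ifs with hb
  · rw [hb, Nat.choose_self, Nat.cast_one]
  · rw [Nat.choose_eq_zero_of_lt, Nat.cast_zero]
    have := Nat.mod_lt b hpp
    omega

theorem ka_prod_coeff {R : Type} [CommSemiring R] {k : ℕ} (u : Fin k → R) (b : Fin k → ℕ)
    (e : Fin k → ℕ) :
    coeff (Finsupp.equivFunOnFinite.symm e)
        (∏ j, (C (u j) + X j : MvPolynomial (Fin k) R) ^ b j) =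
      ∏ j, u j ^ (b j - e j) * (((b j).choose (e j) : ℕ) : R) := by
  classical
  have h1 : ∀ j, (C (u j) + X j : MvPolynomial (Fin k) R) ^ b j =
      ∑ m ∈ Finset.range (b j + 1), X j ^ m * C (u j ^ (b j - m) * (((b j).choose m : ℕ) : R)) := by
    intro j
    rw [add_comm, add_pow]
    refine Finset.sum_congr rfl fun m _ => ?_
    rw [C_mul, C_pow, map_natCast, mul_assoc]
  have h2 : ∀ m : Fin k → ℕ, ∏ j, ((X j : MvPolynomial (Fin k) R) ^ m j *
      C (u j ^ (b j - m j) * (((b j).choose (m j) : ℕ) : R))) =
      monomial (Finsupp.equivFunOnFinite.symm m)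
        (∏ j, u j ^ (b j - m j) * (((b j).choose (m j) : ℕ) : R)) := by
    intro m
    rw [Finset.prod_mul_distrib, ← map_prod, mul_comm, monomial_eq,
      Finsupp.prod_fintype _ _ (fun _ => pow_zero _)]
    rfl
  rw [Finset.prod_congr rfl fun j _ => h1 j, Finset.prod_univ_sum,
    Finset.sum_congr rfl fun m _ => h2 m, coeff_sum]
  simp_rw [coeff_monomial, EmbeddingLike.apply_eq_iff_eq]
  rw [Finset.sum_ite_eq']
  split_ifs with h
  · rfl
  · rw [Fintype.mem_piFinset] at h
    push Not at h
    obtain ⟨j, hj⟩ := h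
    rw [Finset.mem_range] at hj
    symm
    apply Finset.prod_eq_zero (Finset.mem_univ j)
    rw [Nat.choose_eq_zero_of_lt (by omega), Nat.cast_zero, mul_zero]

theorem ka_monomial (p : ℕ) [Fact p.Prime] {F : Type} [Field F] [CharP F p] {k v : ℕ}
    (z : Fin k → Fin v) (hz : Function.Injective z) (β : Fin v →₀ ℕ) (c : F) :
    coeff (Finsupp.equivFunOnFinite.symm fun _ : Fin k => p - 1) (shz z (monomial β c)) =
      if ∀ j, β (z j) % p = p - 1 then
        monomial (β - ∑ j, Finsupp.single (z j) (p - 1)) c else 0 := by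
  classical
  -- the image of the monomial
  have h1 : shz z (monomial β c) =
      C (C c * ∏ a ∈ Finset.univ.filter (fun a => a ∉ Set.range z), X a ^ β a) *
        ∏ j, (C (X (z j)) + X j : MvPolynomial (Fin k) (MvPolynomial (Fin v) F)) ^ β (z j) := by
    rw [monomial_eq, Finsupp.prod_fintype _ _ (fun _ => pow_zero _), map_mul, map_prod]
    have e1 : shz z (C c : MvPolynomial (Fin v) F) = C (C c) := by
      rw [← algebraMap_eq, AlgHom.commutes]
      rfl
    have e2 : ∀ a : Fin v, shz z ((X a : MvPolynomial (Fin v) F) ^ β a) =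
        (C (X a) + ∑ j, if z j = a then X j else 0) ^ β a := by
      intro a
      rw [map_pow]
      congr 1
      unfold shz
      rw [aeval_X]
    rw [e1, Finset.prod_congr rfl fun a _ => e2 a, C_mul, mul_assoc]
    congr 1
    rw [← Finset.prod_filter_mul_prod_filter_not Finset.univ (fun a => a ∉ Set.range z)]
    congr 1
    · rw [map_prod]
      refine Finset.prod_congr rfl fun a ha => ?_
      rw [Finset.mem_filter] at ha
      rw [Finset.sum_eq_zero, add_zero, C_pow]
      intro j _
      rw [if_neg]
      intro h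
      exact ha.2 ⟨j, h⟩
    · have e3 : (Finset.univ.filter fun a => ¬ a ∉ Set.range z) = Finset.univ.image z := by
        ext a
        simp
      rw [e3, Finset.prod_image (fun a _ b _ h => hz h)]
      refine Finset.prod_congr rfl fun j _ => ?_
      congr 2
      rw [Finset.sum_eq_single j, if_pos rfl]
      · intro i _ hi
        rw [if_neg]
        intro h
        exact hi (hz h)
      · intro h
        exact absurd (Finset.mem_univ j) h
  rw [h1, coeff_C_mul, ka_prod_coeff]
  have h2 : ∀ j, (((β (z j)).choose (p - 1) : ℕ) : MvPolynomial (Fin v) F) =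
      if β (z j) % p = p - 1 then 1 else 0 := by
    intro j
    rw [← map_natCast (C : F →+* MvPolynomial (Fin v) F), ka_choose p F]
    split_ifs
    · exact C_1
    · exact C_0
  simp_rw [h2]
  split_ifs with h
  · have h3 : ∏ j, ((X (z j) : MvPolynomial (Fin v) F) ^ (β (z j) - (p - 1)) *
        (if β (z j) % p = p - 1 then 1 else 0)) = ∏ j, X (z j) ^ (β (z j) - (p - 1)) := by
      refine Finset.prod_congr rfl fun j _ => ?_
      rw [if_pos (h j), mul_one]
    rw [h3, monomial_eq, Finsupp.prod_fintype _ _ (fun _ => pow_zero _), mul_assoc]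
    congr 1
    rw [← Finset.prod_filter_mul_prod_filter_not Finset.univ (fun a => a ∉ Set.range z)]
    congr 1
    · refine Finset.prod_congr rfl fun a ha => ?_
      rw [Finset.mem_filter] at ha
      congr 1
      rw [Finsupp.tsub_apply, Finsupp.finsetSum_apply, Finset.sum_eq_zero, Nat.sub_zero]
      intro j _
      rw [Finsupp.single_apply, if_neg]
      intro h
      exact ha.2 ⟨j, h⟩
    · have e3 : (Finset.univ.filter fun a => ¬ a ∉ Set.range z) = Finset.univ.image z := by
        ext a
        simp
      rw [e3, Finset.prod_image (fun a _ b _ h => hz h)]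
      refine Finset.prod_congr rfl fun j _ => ?_
      congr 1
      rw [Finsupp.tsub_apply, Finsupp.finsetSum_apply, Finset.sum_eq_single j,
        Finsupp.single_apply, if_pos rfl]
      · intro i _ hi
        rw [Finsupp.single_apply, if_neg]
        intro h
        exact hi (hz h)
      · intro h
        exact absurd (Finset.mem_univ j) h
  · push Not at h
    obtain ⟨j, hj⟩ := h
    rw [Finset.prod_eq_zero (Finset.mem_univ j), mul_zero]
    rw [if_neg hj, mul_zero]

theorem tz_coeff_pr (p : ℕ) [Fact p.Prime] {F : Type} [Field F] [CharP F p] {k v : ℕ}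
    (z : Fin k → Fin v) (hz : Function.Injective z) (g : MvPolynomial (Fin v) F) :
    coeff (Finsupp.equivFunOnFinite.symm fun _ : Fin k => p - 1) (shz z g) = tz p z g := by
  conv_lhs => rw [← support_sum_monomial_coeff g, map_sum, coeff_sum]
  unfold tz
  refine Finset.sum_congr rfl fun β _ => ?_
  rw [ka_monomial p z hz]


end Pool.Agent.OPT.KA

namespace Pool.Agent.OPT

alias tz_coeff := KA.tz_coeff_pr

end Pool.Agent.OPT
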