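import Pool.Agent.Lib_helper80.OPF.Defs
import Pool.Agent.Lib_helper80.OPF.DI
import Pool.Agent.Lib_helper80.OPF.KA

/-!
# OPN, block KJ: the partial trace modulo the ideal of the forms
-/

namespace Pool.Agent.OPT.KJ

open MvPolynomial Pool.Agent.KSS Pool.Agent.KSX

section cg

variable {σ R : Type} [CommRing R]

/-- both elements have order at least `n` and agree up to order `n` -/
def Cg (n : ℕ) (a b : MvPolynomial σ R) : Prop :=
  a ∈ idealOfVars σ R ^ n ∧ b ∈ idealOfVars σ R ^ n ∧ a - b ∈ idealOfVars σ R ^ (n + 1)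

theorem Cg.mul {n m : ℕ} {a b c d : MvPolynomial σ R} (h1 : Cg n a b) (h2 : Cg m c d) :
    Cg (n + m) (a * c) (b * d) := by
  obtain ⟨ha, hb, hab⟩ := h1
  obtain ⟨hc, hd, hcd⟩ := h2
  refine ⟨?_, ?_, ?_⟩
  · rw [pow_add]; exact Ideal.mul_mem_mul ha hc
  · rw [pow_add]; exact Ideal.mul_mem_mul hb hd
  · have e : a * c - b * d = a * (c - d) + (a - b) * d := by ring
    rw [e]
    refine Ideal.add_mem _ ?_ ?_
    · rw [add_assoc, pow_add]; exact Ideal.mul_mem_mul ha hcd
    · have e2 : n + m + 1 = (n + 1) + m := by ring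
      rw [e2, pow_add]; exact Ideal.mul_mem_mul hab hd

theorem Cg.one : Cg 0 (1 : MvPolynomial σ R) 1 := by
  refine ⟨?_, ?_, ?_⟩
  · rw [pow_zero, Ideal.one_eq_top]; trivial
  · rw [pow_zero, Ideal.one_eq_top]; trivial
  · rw [sub_self]; exact Ideal.zero_mem _

theorem Cg.pow {n : ℕ} {a b : MvPolynomial σ R} (h : Cg n a b) (l : ℕ) :
    Cg (l * n) (a ^ l) (b ^ l) := by
  induction l with
  | zero => rw [zero_mul, pow_zero, pow_zero]; exact Cg.one
  | succ l ih =>
    have e : (l + 1) * n = l * n + n := by ring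
    rw [e, pow_succ, pow_succ]
    exact ih.mul h

theorem Cg.prod {ι : Type} (s : Finset ι) {n : ℕ} {a b : ι → MvPolynomial σ R}
    (h : ∀ i ∈ s, Cg n (a i) (b i)) : Cg (s.card * n) (∏ i ∈ s, a i) (∏ i ∈ s, b i) := by
  classical
  induction s using Finset.induction_on with
  | empty => simp only [Finset.card_empty, zero_mul, Finset.prod_empty]; exact Cg.one
  | insert i s hi ih =>
    rw [Finset.card_insert_of_notMem hi, Finset.prod_insert hi, Finset.prod_insert hi]
    have e : (s.card + 1) * n = n + s.card * n := by ring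
    rw [e]
    exact (h i (Finset.mem_insert_self _ _)).mul
      (ih fun j hj => h j (Finset.mem_insert_of_mem hj))

theorem Cg.coeff {n : ℕ} {a b : MvPolynomial σ R} (h : Cg n a b) (m : σ →₀ ℕ)
    (hm : m.degree = n) : coeff m a = coeff m b := by
  have h1 := (mem_pow_idealOfVars_iff' (n + 1) (a - b)).1 h.2.2 m (by omega)
  rw [coeff_sub] at h1
  exact sub_eq_zero.1 h1

theorem map_mem_pow {S : Type} [CommRing S] (q : S →+* R) (n : ℕ) (a : MvPolynomial σ S)
    (ha : a ∈ idealOfVars σ S ^ n) : map q a ∈ idealOfVars σ R ^ n := by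
  rw [mem_pow_idealOfVars_iff'] at ha ⊢
  intro x hx
  rw [coeff_map, ha x hx, map_zero]

end cg

section first

variable {F : Type} [Field F] {k v : ℕ}

/-- the first order part -/
noncomputable def lin (z : Fin k → Fin v) (g : MvPolynomial (Fin v) F) :
    MvPolynomial (Fin k) (MvPolynomial (Fin v) F) := ∑ j, C (pderiv (z j) g) * X j

theorem lin_mem (z : Fin k → Fin v) (g : MvPolynomial (Fin v) F) :
    lin z g ∈ idealOfVars (Fin k) (MvPolynomial (Fin v) F) := by
  unfold lin
  refine Ideal.sum_mem _ fun j _ => Ideal.mul_mem_left _ _ (Ideal.subset_span ⟨j, rfl⟩)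

theorem shz_X (z : Fin k → Fin v) (a : Fin v) :
    shz z (X a : MvPolynomial (Fin v) F) = C (X a) + lin z (X a) := by
  classical
  unfold shz lin
  rw [aeval_X]
  congr 1
  refine Finset.sum_congr rfl fun j _ => ?_
  rw [pderiv_X]
  by_cases h : z j = a
  · subst h
    rw [if_pos rfl, Pi.single_eq_same, C_1, one_mul]
  · rw [if_neg h, Pi.single_eq_of_ne (Ne.symm h), C_0, zero_mul]

theorem shz_first (z : Fin k → Fin v) (g : MvPolynomial (Fin v) F) :
    shz z g - (C g + lin z g) ∈ idealOfVars (Fin k) (MvPolynomial (Fin v) F) ^ 2 := by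
  induction g using MvPolynomial.induction_on with
  | C c =>
    have h1 : shz z (C c : MvPolynomial (Fin v) F) = C (C c) := by
      unfold shz
      rw [aeval_C]
      rfl
    have h2 : lin z (C c : MvPolynomial (Fin v) F) = 0 := by
      unfold lin
      refine Finset.sum_eq_zero fun j _ => ?_
      rw [pderiv_C, C_0, zero_mul]
    rw [h1, h2, add_zero, sub_self]
    exact Ideal.zero_mem _
  | add p q hp hq =>
    have h2 : lin z (p + q) = lin z p + lin z q := by
      unfold lin
      rw [← Finset.sum_add_distrib]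
      refine Finset.sum_congr rfl fun j _ => ?_
      rw [map_add, C_add, add_mul]
    have e : shz z (p + q) - (C (p + q) + lin z (p + q)) =
        (shz z p - (C p + lin z p)) + (shz z q - (C q + lin z q)) := by
      rw [map_add, C_add, h2]
      ring
    rw [e]
    exact Ideal.add_mem _ hp hq
  | mul_X p a hp =>
    have h2 : lin z (p * X a) = lin z p * C (X a) + C p * lin z (X a) := by
      unfold lin
      rw [Finset.sum_mul, Finset.mul_sum, ← Finset.sum_add_distrib]
      refine Finset.sum_congr rfl fun j _ => ?_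
      rw [Derivation.leibniz, smul_eq_mul, smul_eq_mul, C_add, C_mul, C_mul]
      ring
    have e : shz z (p * X a) - (C (p * X a) + lin z (p * X a)) =
        (C (X a) + lin z (X a)) * (shz z p - (C p + lin z p)) + lin z p * lin z (X a) := by
      rw [map_mul, shz_X, C_mul, h2]
      ring
    rw [e]
    refine Ideal.add_mem _ (Ideal.mul_mem_left _ _ hp) ?_
    rw [pow_two]
    exact Ideal.mul_mem_mul (lin_mem z p) (lin_mem z (X a))

/-- `det_coeff` over a polynomial ring -/
theorem det_coeff_poly (p : ℕ) [Fact p.Prime] [CharP F p]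
    (a : Matrix (Fin k) (Fin k) (MvPolynomial (Fin v) F)) :
    coeff (Finsupp.equivFunOnFinite.symm fun _ : Fin k => p - 1)
      (∏ i, (∑ j, C (a i j) * X j : MvPolynomial (Fin k) (MvPolynomial (Fin v) F)) ^ (p - 1)) =
      a.det ^ (p - 1) := by
  apply IsFractionRing.injective (MvPolynomial (Fin v) F) (FractionRing (MvPolynomial (Fin v) F))
  set al := algebraMap (MvPolynomial (Fin v) F) (FractionRing (MvPolynomial (Fin v) F)) with hal
  have h := det_coeff p (al.mapMatrix a)
  rw [← coeff_map, map_prod]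
  have e : ∀ i : Fin k, map al ((∑ j, C (a i j) * X j :
      MvPolynomial (Fin k) (MvPolynomial (Fin v) F)) ^ (p - 1)) =
      (∑ j, C (al.mapMatrix a i j) * X j) ^ (p - 1) := by
    intro i
    rw [map_pow, map_sum]
    congr 1
    refine Finset.sum_congr rfl fun j _ => ?_
    rw [map_mul, map_C, map_X]
    rfl
  rw [Finset.prod_congr rfl fun i _ => e i, h, ← RingHom.map_det, map_pow]

end first

/-- block KJ -/
theorem tz_mod_pr (p : ℕ) [Fact p.Prime] {F : Type} [Field F] [CharP F p] {k v : ℕ}
    (f : Fin k → MvPolynomial (Fin v) F) (z : Fin k → Fin v) (hz : Function.Injective z)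
    (g : MvPolynomial (Fin v) F) :
    tz p z ((∏ i, f i) ^ (p - 1) * g) - jac f z ^ (p - 1) * g ∈ II f := by
  rw [← Ideal.Quotient.eq, ← tz_coeff p z hz]
  set q := Ideal.Quotient.mk (II f) with hq
  set m : Fin k →₀ ℕ := Finsupp.equivFunOnFinite.symm fun _ : Fin k => p - 1 with hm
  have hdeg : m.degree = k * (p - 1) := by
    rw [Finsupp.degree_eq_sum, hm]
    simp
  have hqf : ∀ i, q (f i) = 0 := fun i =>
    Ideal.Quotient.eq_zero_iff_mem.2 (Ideal.subset_span ⟨i, rfl⟩)
  -- the factors
  have hx : ∀ i, Cg 1 (map q (shz z (f i))) (map q (lin z (f i))) := by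
    intro i
    have h1 := map_mem_pow q 2 _ (shz_first z (f i))
    have h2 : map q (lin z (f i)) ∈ idealOfVars (Fin k) (MvPolynomial (Fin v) F ⧸ II f) ^ 1 :=
      map_mem_pow q 1 _ (by rw [pow_one]; exact lin_mem z (f i))
    rw [map_sub, map_add, map_C, hqf, C_0, zero_add] at h1
    refine ⟨?_, h2, h1⟩
    have h3 : map q (shz z (f i)) =
        (map q (shz z (f i)) - map q (lin z (f i))) + map q (lin z (f i)) := by ring
    rw [h3]
    exact Ideal.add_mem _ (Ideal.pow_le_pow_right (by norm_num) h1) h2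
  have hg : Cg 0 (map q (shz z g)) (C (q g)) := by
    refine ⟨?_, ?_, ?_⟩
    · rw [pow_zero, Ideal.one_eq_top]; trivial
    · rw [pow_zero, Ideal.one_eq_top]; trivial
    · have h1 := map_mem_pow q 2 _ (shz_first z g)
      rw [map_sub, map_add, map_C] at h1
      have h2 : map q (lin z g) ∈ idealOfVars (Fin k) (MvPolynomial (Fin v) F ⧸ II f) ^ (0 + 1) :=
        map_mem_pow q 1 _ (by rw [pow_one]; exact lin_mem z g)
      have h3 : map q (shz z g) - C (q g) =
        (map q (shz z g) - (C (q g) + map q (lin z g))) + map q (lin z g) := by ring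
      rw [h3]
      exact Ideal.add_mem _ (Ideal.pow_le_pow_right (by norm_num) h1) h2
  have hprod := (Cg.prod Finset.univ fun i _ => (hx i).pow (p - 1)).mul hg
  rw [Finset.card_univ, Fintype.card_fin, mul_one, add_zero] at hprod
  have hc := hprod.coeff m hdeg
  rw [← coeff_map, map_mul (shz z), map_pow (shz z), map_prod (shz z), map_mul (map q),
    map_pow (map q), map_prod (map q), ← Finset.prod_pow, hc, mul_comm _ (C (q g)), coeff_C_mul]
  have h4 : ∏ i, map q (lin z (f i)) ^ (p - 1) =
      map q (∏ i, (∑ j, C ((Matrix.of fun i j => pderiv (z j) (f i)) i j) * X j) ^ (p - 1)) := by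
    rw [map_prod]
    refine Finset.prod_congr rfl fun i _ => ?_
    rw [map_pow]
    rfl
  rw [h4, coeff_map, det_coeff_poly, ← map_mul, mul_comm g]
  rfl

end Pool.Agent.OPT.KJ

namespace Pool.Agent.OPT

alias tz_mod := KJ.tz_mod_pr

end Pool.Agent.OPT
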