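import Pool.Agent.Lib_helper80.OPF.Defs

/-!
# OPN: block TR, properties of the Cartier operator
-/

set_option autoImplicit false

namespace Pool.Agent.OPT.TR

open MvPolynomial Pool.Agent.KSS Pool.Agent.KSX Pool.Agent.OPT

theorem tr_iff {p : ℕ} (hp : 0 < p) {v : ℕ} (β γ : Fin v →₀ ℕ) :
    ((∀ a, β a % p = p - 1) ∧ β.mapRange (fun n => n / p) (Nat.zero_div p) = γ) ↔
      β = p • γ + Finsupp.equivFunOnFinite.symm fun _ : Fin v => p - 1 := by
  constructor
  · rintro ⟨h1, h2⟩
    ext a
    have h3 : β a / p = γ a := by rw [← h2, Finsupp.mapRange_apply]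
    have h4 := Nat.div_add_mod (β a) p
    rw [h1, h3] at h4
    rw [Finsupp.add_apply, Finsupp.smul_apply, smul_eq_mul]
    exact h4.symm
  · rintro rfl
    constructor
    · intro a
      rw [Finsupp.add_apply, Finsupp.smul_apply, smul_eq_mul]
      show (p * γ a + (p - 1)) % p = p - 1
      rw [Nat.mul_add_mod]
      exact Nat.mod_eq_of_lt (by omega)
    · ext a
      rw [Finsupp.mapRange_apply, Finsupp.add_apply, Finsupp.smul_apply, smul_eq_mul]
      show (p * γ a + (p - 1)) / p = γ a
      rw [Nat.mul_add_div hp, Nat.div_eq_of_lt (by omega), add_zero]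

theorem tr_wt {v : ℕ} (β : Fin v →₀ ℕ) : (Finsupp.weight (1 : Fin v → ℕ)) β = β.degree := by
  rw [Finsupp.degree_eq_weight_one]
  rfl

section TR

variable (p : ℕ) [Fact p.Prime] {F : Type} [Field F] [CharP F p] [PerfectRing F p] {v : ℕ}

theorem croot_zero : croot p (0 : F) = 0 := map_zero _

theorem croot_add (a b : F) : croot p (a + b) = croot p a + croot p b := map_add _ _ _

theorem croot_mul (a b : F) : croot p (a * b) = croot p a * croot p b := map_mul _ _ _

theorem croot_pow (a : F) : croot p (a ^ p) = a := by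
  have h : a ^ p = frobeniusEquiv F p a := (frobeniusEquiv_apply F p a).symm
  rw [h]
  exact (frobeniusEquiv F p).symm_apply_apply a

theorem pow_croot (a : F) : croot p a ^ p = a := by
  have h : croot p a ^ p = frobeniusEquiv F p (croot p a) :=
    (frobeniusEquiv_apply F p _).symm
  rw [h]
  exact (frobeniusEquiv F p).apply_symm_apply a

theorem coeff_trp_pr (g : MvPolynomial (Fin v) F) (γ : Fin v →₀ ℕ) :
    coeff γ (trp p g) =
      croot p (coeff (p • γ + Finsupp.equivFunOnFinite.symm fun _ : Fin v => p - 1) g) := by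
  classical
  have hp : 0 < p := (Fact.out : p.Prime).pos
  set β₀ : Fin v →₀ ℕ := p • γ + Finsupp.equivFunOnFinite.symm fun _ : Fin v => p - 1 with hβ₀
  rw [trp, coeff_sum]
  have h1 : ∀ β ∈ g.support, coeff γ (if ∀ a, β a % p = p - 1 then
      monomial (β.mapRange (fun n => n / p) (Nat.zero_div p)) (croot p (g.coeff β)) else 0) =
      if β = β₀ then croot p (g.coeff β) else 0 := by
    intro β _
    by_cases h2 : ∀ a, β a % p = p - 1
    · rw [if_pos h2, coeff_monomial]
      by_cases h3 : β = β₀
      · rw [if_pos h3, if_pos ((tr_iff hp β γ).2 h3).2]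
      · rw [if_neg h3, if_neg]
        exact fun h4 => h3 ((tr_iff hp β γ).1 ⟨h2, h4⟩)
    · rw [if_neg h2, coeff_zero, if_neg]
      exact fun h3 => h2 ((tr_iff hp β γ).2 h3).1
  rw [Finset.sum_congr rfl h1, Finset.sum_ite_eq']
  by_cases h2 : β₀ ∈ g.support
  · rw [if_pos h2]
  · rw [if_neg h2, notMem_support_iff.1 h2, croot_zero]

theorem trp_add_pr (g h : MvPolynomial (Fin v) F) : trp p (g + h) = trp p g + trp p h := by
  ext γ
  rw [coeff_add, coeff_trp_pr, coeff_trp_pr, coeff_trp_pr, coeff_add, croot_add]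

theorem trp_pow_mul_pr (a g : MvPolynomial (Fin v) F) : trp p (a ^ p * g) = a * trp p g := by
  classical
  have hp : 0 < p := (Fact.out : p.Prime).pos
  induction a using MvPolynomial.induction_on' with
  | monomial α c =>
    ext γ
    rw [coeff_trp_pr, monomial_pow, coeff_monomial_mul', coeff_monomial_mul']
    have h1 : p • α ≤ p • γ + Finsupp.equivFunOnFinite.symm (fun _ : Fin v => p - 1) ↔ α ≤ γ := by
      constructor
      · intro h i
        have h2 := h i
        rw [Finsupp.add_apply, Finsupp.smul_apply, Finsupp.smul_apply, smul_eq_mul,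
          smul_eq_mul] at h2
        have h3 : p * α i ≤ p * γ i + (p - 1) := h2
        by_contra h4
        rw [not_le] at h4
        have h5 : p * (γ i + 1) ≤ p * α i := Nat.mul_le_mul_left p h4
        rw [mul_add, mul_one] at h5
        omega
      · intro h
        exact (nsmul_le_nsmul_right h p).trans le_self_add
    by_cases h : α ≤ γ
    · rw [if_pos (h1.2 h), if_pos h, croot_mul, croot_pow, coeff_trp_pr]
      congr 3
      ext i
      rw [Finsupp.coe_tsub, Pi.sub_apply, Finsupp.add_apply, Finsupp.add_apply,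
        Finsupp.smul_apply, Finsupp.smul_apply, Finsupp.smul_apply, smul_eq_mul, smul_eq_mul,
        smul_eq_mul, Finsupp.coe_tsub, Pi.sub_apply, Nat.mul_sub]
      have h2 : p * α i ≤ p * γ i := Nat.mul_le_mul_left p (h i)
      omega
    · rw [if_neg (fun h2 => h (h1.1 h2)), if_neg h, croot_zero]
  | add a b ha hb =>
    rw [add_pow_char, add_mul, trp_add_pr, ha, hb, add_mul]

omit [Fact p.Prime] in
theorem tr_deg (γ : Fin v →₀ ℕ) :
    (p • γ + Finsupp.equivFunOnFinite.symm fun _ : Fin v => p - 1).degree =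
      v * (p - 1) + p * γ.degree := by
  rw [Finsupp.degree_eq_sum, Finsupp.degree_eq_sum]
  simp only [Finsupp.add_apply, Finsupp.smul_apply, smul_eq_mul, Finset.sum_add_distrib,
    Finsupp.equivFunOnFinite_symm_apply_apply, Finset.sum_const, Finset.card_univ, Fintype.card_fin]
  rw [Finset.mul_sum, add_comm]

theorem trp_hom_pr (g : MvPolynomial (Fin v) F) (m : ℕ)
    (hg : g.IsHomogeneous (v * (p - 1) + p * m)) : (trp p g).IsHomogeneous m := by
  have hp : 0 < p := (Fact.out : p.Prime).pos
  intro γ hγ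
  rw [coeff_trp_pr] at hγ
  have h1 : coeff (p • γ + Finsupp.equivFunOnFinite.symm fun _ : Fin v => p - 1) g ≠ 0 := by
    intro h
    rw [h, croot_zero] at hγ
    exact hγ rfl
  have h2 := hg h1
  rw [tr_wt] at h2 ⊢
  rw [tr_deg] at h2
  have h3 : p * γ.degree = p * m := by omega
  exact Nat.eq_of_mul_eq_mul_left hp h3

theorem trp_zero_pr (g : MvPolynomial (Fin v) F) (e : ℕ) (hg : g.IsHomogeneous e)
    (he : ∀ m, e ≠ v * (p - 1) + p * m) : trp p g = 0 := by
  ext γ
  rw [coeff_trp_pr, coeff_zero]
  by_contra h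
  have h1 : coeff (p • γ + Finsupp.equivFunOnFinite.symm fun _ : Fin v => p - 1) g ≠ 0 := by
    intro h2
    rw [h2, croot_zero] at h
    exact h rfl
  have h2 := hg h1
  rw [tr_wt, tr_deg] at h2
  exact he _ h2.symm

theorem trp_zero_arg : trp p (0 : MvPolynomial (Fin v) F) = 0 := by
  ext γ
  rw [coeff_trp_pr, coeff_zero, coeff_zero, croot_zero]

/-- the Cartier operator of a monomial -/
theorem trp_monomial (β : Fin v →₀ ℕ) (c : F) : trp p (monomial β c) =
    if ∀ a, β a % p = p - 1 then
      monomial (β.mapRange (fun n => n / p) (Nat.zero_div p)) (croot p c) else 0 := by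
  classical
  by_cases hc : c = 0
  · rw [hc, map_zero, trp_zero_arg, croot_zero, map_zero, ite_self]
  · rw [trp, support_monomial, if_neg hc, Finset.sum_singleton, coeff_monomial, if_pos rfl]

omit [Fact p.Prime] [CharP F p] [PerfectRing F p] in
/-- the partial trace of a monomial -/
theorem tz_monomial {k : ℕ} (z : Fin k → Fin v) (β : Fin v →₀ ℕ) (c : F) :
    tz p z (monomial β c) = if ∀ j, β (z j) % p = p - 1 then
      monomial (β - ∑ j, Finsupp.single (z j) (p - 1)) c else 0 := by
  classical
  by_cases hc : c = 0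
  · rw [hc, map_zero, tz, support_zero, Finset.sum_empty, map_zero, ite_self]
  · rw [tz, support_monomial, if_neg hc, Finset.sum_singleton, coeff_monomial, if_pos rfl]

omit [Fact p.Prime] [CharP F p] [PerfectRing F p] in
/-- a sum over a larger set -/
theorem tz_eq_sum {k : ℕ} (z : Fin k → Fin v) (g : MvPolynomial (Fin v) F)
    (S : Finset (Fin v →₀ ℕ)) (hS : g.support ⊆ S) :
    tz p z g = ∑ β ∈ S, if ∀ j, β (z j) % p = p - 1 then
      monomial (β - ∑ j, Finsupp.single (z j) (p - 1)) (g.coeff β) else 0 := by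
  classical
  rw [tz]
  refine Finset.sum_subset hS fun β _ hβ => ?_
  rw [notMem_support_iff.1 hβ, map_zero, ite_self]

omit [Fact p.Prime] [CharP F p] [PerfectRing F p] in
theorem tz_add {k : ℕ} (z : Fin k → Fin v) (g h : MvPolynomial (Fin v) F) :
    tz p z (g + h) = tz p z g + tz p z h := by
  classical
  rw [tz_eq_sum p z (g + h) (g.support ∪ h.support) support_add,
    tz_eq_sum p z g (g.support ∪ h.support) Finset.subset_union_left,
    tz_eq_sum p z h (g.support ∪ h.support) Finset.subset_union_right, ← Finset.sum_add_distrib]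
  refine Finset.sum_congr rfl fun β _ => ?_
  by_cases h1 : ∀ j, β (z j) % p = p - 1
  · rw [if_pos h1, if_pos h1, if_pos h1, coeff_add, map_add]
  · rw [if_neg h1, if_neg h1, if_neg h1, add_zero]

/-- products of powers of the variables -/
theorem tr_prod (e : Fin v → ℕ) : ∏ a, (X a : MvPolynomial (Fin v) F) ^ e a =
    monomial (Finsupp.equivFunOnFinite.symm e) 1 := by
  rw [monomial_eq, C_1, one_mul, Finsupp.prod_fintype]
  · rfl
  · intro i
    rw [pow_zero]

omit [Fact p.Prime] [CharP F p] [PerfectRing F p] in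
theorem ymo_eq {k : ℕ} (z : Fin k → Fin v) (α : AI p z) : (ymo p z α : MvPolynomial (Fin v) F) =
    monomial (Finsupp.equivFunOnFinite.symm fun a => (α.1 a : ℕ)) 1 := tr_prod _

open Classical in
omit [Fact p.Prime] [CharP F p] [PerfectRing F p] in
theorem yco_eq {k : ℕ} (z : Fin k → Fin v) (α : AI p z) : (yco p z α : MvPolynomial (Fin v) F) =
    monomial (Finsupp.equivFunOnFinite.symm fun a =>
      if a ∈ Set.range z then 0 else p - 1 - (α.1 a : ℕ)) 1 := by
  rw [← tr_prod, yco]
  refine Finset.prod_congr rfl fun a _ => ?_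
  by_cases h : a ∈ Set.range z
  · rw [if_pos h, if_pos h, pow_zero]
  · rw [if_neg h, if_neg h]

open Classical in
/-- the index which contributes -/
noncomputable def al0 {k : ℕ} (z : Fin k → Fin v) (β : Fin v →₀ ℕ) : AI p z :=
  ⟨fun a => if a ∈ Set.range z then ⟨0, (Fact.out : p.Prime).pos⟩ else
    ⟨β a % p, Nat.mod_lt _ (Fact.out : p.Prime).pos⟩, fun j => by
      simp only
      rw [if_pos ⟨j, rfl⟩]⟩

theorem al0_z {k : ℕ} (z : Fin k → Fin v) (β : Fin v →₀ ℕ) {a : Fin v} (h : a ∈ Set.range z) :
    (((al0 p z β).1 a : Fin p) : ℕ) = 0 := by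
  simp only [al0]
  rw [if_pos h]

theorem al0_y {k : ℕ} (z : Fin k → Fin v) (β : Fin v →₀ ℕ) {a : Fin v} (h : a ∉ Set.range z) :
    (((al0 p z β).1 a : Fin p) : ℕ) = β a % p := by
  simp only [al0]
  rw [if_neg h]

omit [Fact p.Prime] in
theorem tr_sz {k : ℕ} (z : Fin k → Fin v) (hz : Function.Injective z) (a : Fin v) :
    (∑ j, Finsupp.single (z j) (p - 1) : Fin v →₀ ℕ) a =
      open Classical in if a ∈ Set.range z then p - 1 else 0 := by
  classical
  rw [Finsupp.finsetSum_apply]
  by_cases h : a ∈ Set.range z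
  · rw [if_pos h]
    obtain ⟨j, hj⟩ := h
    rw [Finset.sum_eq_single j]
    · rw [hj, Finsupp.single_eq_same]
    · intro i _ hi
      rw [Finsupp.single_apply, if_neg]
      exact fun h2 => hi (hz (h2.trans hj.symm))
    · exact fun h2 => absurd (Finset.mem_univ _) h2
  · rw [if_neg h]
    refine Finset.sum_eq_zero fun i _ => ?_
    rw [Finsupp.single_apply, if_neg]
    exact fun h2 => h ⟨i, h2⟩

omit [Fact p.Prime] in
theorem tr_mod_iff {n a : ℕ} (hp : 0 < p) (ha : a < p) :
    (n + (p - 1 - a)) % p = p - 1 ↔ a = n % p := by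
  have h1 := Nat.div_add_mod n p
  have h2 := Nat.mod_lt n hp
  set q := n / p
  set r := n % p
  rw [← h1, add_assoc, Nat.mul_add_mod]
  rcases lt_or_ge (r + (p - 1 - a)) p with h3 | h3
  · rw [Nat.mod_eq_of_lt h3]
    omega
  · rw [Nat.mod_eq_sub_mod h3, Nat.mod_eq_of_lt (by omega)]
    omega

theorem sum_trp_mono {k : ℕ} (z : Fin k → Fin v) (hz : Function.Injective z)
    (β : Fin v →₀ ℕ) (c : F) :
    ∑ α : AI p z, trp p (monomial β c * yco p z α) ^ p * ymo p z α = tz p z (monomial β c) := by
  classical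
  have hp : 0 < p := (Fact.out : p.Prime).pos
  rw [tz_monomial]
  have h1 : ∀ α : AI p z, (∀ a, (β + Finsupp.equivFunOnFinite.symm fun a =>
      if a ∈ Set.range z then 0 else p - 1 - (α.1 a : ℕ)) a % p = p - 1) ↔
      (∀ j, β (z j) % p = p - 1) ∧ α = al0 p z β := by
    intro α
    constructor
    · intro h
      constructor
      · intro j
        have h2 := h (z j)
        rw [Finsupp.add_apply, Finsupp.equivFunOnFinite_symm_apply_apply, if_pos ⟨j, rfl⟩,
          add_zero] at h2
        exact h2
      · refine Subtype.ext (funext fun a => Fin.ext ?_)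
        by_cases ha : a ∈ Set.range z
        · rw [al0_z p z β ha]
          obtain ⟨j, rfl⟩ := ha
          exact α.2 j
        · rw [al0_y p z β ha]
          have h2 := h a
          rw [Finsupp.add_apply, Finsupp.equivFunOnFinite_symm_apply_apply, if_neg ha] at h2
          exact (tr_mod_iff p hp (α.1 a).2).1 h2
    · rintro ⟨h2, rfl⟩ a
      rw [Finsupp.add_apply, Finsupp.equivFunOnFinite_symm_apply_apply]
      by_cases ha : a ∈ Set.range z
      · rw [if_pos ha, add_zero]
        obtain ⟨j, rfl⟩ := ha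
        exact h2 j
      · rw [if_neg ha, al0_y p z β ha]
        exact (tr_mod_iff p hp (Nat.mod_lt _ hp)).2 rfl
  have h2 : ∀ α : AI p z, trp p (monomial β c * yco p z α) ^ p * ymo p z α =
      if (∀ j, β (z j) % p = p - 1) ∧ α = al0 p z β then
        monomial (β - ∑ j, Finsupp.single (z j) (p - 1)) c else 0 := by
    intro α
    rw [yco_eq, monomial_mul, mul_one, trp_monomial]
    by_cases h3 : (∀ j, β (z j) % p = p - 1) ∧ α = al0 p z β
    · rw [if_pos h3, if_pos ((h1 α).2 h3), monomial_pow, pow_croot, ymo_eq, monomial_mul, mul_one]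
      refine congrArg (fun s => monomial s c) ?_
      ext a
      rw [Finsupp.add_apply, Finsupp.smul_apply, Finsupp.mapRange_apply, Finsupp.add_apply,
        Finsupp.equivFunOnFinite_symm_apply_apply, Finsupp.equivFunOnFinite_symm_apply_apply,
        Finsupp.coe_tsub, Pi.sub_apply, tr_sz p z hz, h3.2, smul_eq_mul]
      by_cases ha : a ∈ Set.range z
      · rw [if_pos ha, if_pos ha, al0_z p z β ha]
        obtain ⟨j, rfl⟩ := ha
        have h4 := Nat.div_add_mod (β (z j)) p
        rw [h3.1 j] at h4
        rw [add_zero, add_zero]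
        omega
      · rw [if_neg ha, if_neg ha, al0_y p z β ha]
        have h4 := Nat.div_add_mod (β a) p
        have h5 := Nat.mod_lt (β a) hp
        have h7 : β a + (p - 1 - β a % p) = p * (β a / p) + (p - 1) := by omega
        have h6 : (β a + (p - 1 - β a % p)) / p = β a / p := by
          rw [h7, Nat.mul_add_div hp, Nat.div_eq_of_lt (show p - 1 < p by omega), add_zero]
        rw [h6]
        omega
    · rw [if_neg h3, if_neg (fun h4 => h3 ((h1 α).1 h4)), zero_pow hp.ne', zero_mul]
  rw [Finset.sum_congr rfl fun α _ => h2 α]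
  by_cases h3 : ∀ j, β (z j) % p = p - 1
  · rw [if_pos h3, Finset.sum_eq_single (al0 p z β)]
    · rw [if_pos ⟨h3, rfl⟩]
    · intro α _ hα
      rw [if_neg (fun h4 => hα h4.2)]
    · exact fun h4 => absurd (Finset.mem_univ _) h4
  · rw [if_neg h3]
    refine Finset.sum_eq_zero fun α _ => ?_
    rw [if_neg (fun h4 => h3 h4.1)]

theorem sum_trp_pr {k : ℕ} (z : Fin k → Fin v) (hz : Function.Injective z)
    (g : MvPolynomial (Fin v) F) :
    ∑ α : AI p z, trp p (g * yco p z α) ^ p * ymo p z α = tz p z g := by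
  classical
  induction g using MvPolynomial.induction_on' with
  | monomial β c => exact sum_trp_mono p z hz β c
  | add a b ha hb =>
    rw [tz_add, ← ha, ← hb, ← Finset.sum_add_distrib]
    refine Finset.sum_congr rfl fun α _ => ?_
    rw [add_mul, trp_add_pr, add_pow_char, add_mul]

end TR

end Pool.Agent.OPT.TR

namespace Pool.Agent.OPT

alias coeff_trp := TR.coeff_trp_pr
alias trp_add := TR.trp_add_pr
alias trp_pow_mul := TR.trp_pow_mul_pr
alias trp_hom := TR.trp_hom_pr
alias trp_zero := TR.trp_zero_pr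
alias sum_trp := TR.sum_trp_pr

end Pool.Agent.OPT
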