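import Pool.Agent.Lib_helper80.OPF.Defs
import Pool.Agent.Lib_helper80.OPF.KJ
import Pool.Agent.Lib_helper80.OPF.TR

/-! # OPN, block PS: the operators `Ψ_α` -/

namespace Pool.Agent.OPT.PS

open MvPolynomial Pool.Agent.KSS Pool.Agent.KSX Pool.Agent.OPT

theorem ps_jac {F : Type} [CommRing F] {k v : ℕ} (f : Fin k → MvPolynomial (Fin v) F)
    (z : Fin k → Fin v) (d : Fin k → ℕ) (hf : ∀ i, (f i).IsHomogeneous (d i)) :
    (jac f z).IsHomogeneous (jdeg d) := by
  unfold jac jdeg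
  rw [Matrix.det_apply']
  refine IsHomogeneous.sum _ _ _ fun σ _ => ?_
  have h1 : (∏ i, Matrix.of (fun i j => pderiv (z j) (f i)) (σ i) i :
      MvPolynomial (Fin v) F).IsHomogeneous (∑ i, (d (σ i) - 1)) :=
    IsHomogeneous.prod _ _ _ fun i _ => (hf (σ i)).pderiv
  have h2 : ∑ i, (d (σ i) - 1) = ∑ i, (d i - 1) := Equiv.sum_comp σ fun i => d i - 1
  rw [h2] at h1
  have h3 : ((Equiv.Perm.sign σ : ℤ) : MvPolynomial (Fin v) F) =
      C ((Equiv.Perm.sign σ : ℤ) : F) := by simp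
  have h4 := (isHomogeneous_C (Fin v) ((Equiv.Perm.sign σ : ℤ) : F)).mul h1
  rw [zero_add] at h4
  rw [h3]
  exact h4

open Classical in
theorem ps_yco (p : ℕ) {F : Type} [Field F] {k v : ℕ} (z : Fin k → Fin v) (α : AI p z) :
    (yco p z α : MvPolynomial (Fin v) F).IsHomogeneous
      (∑ a, if a ∈ Set.range z then 0 else p - 1 - (α.1 a : ℕ)) := by
  unfold yco
  refine IsHomogeneous.prod _ _ _ fun a _ => ?_
  by_cases h : a ∈ Set.range z
  · rw [if_pos h, if_pos h]
    exact isHomogeneous_one _ _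
  · rw [if_neg h, if_neg h]
    have := (isHomogeneous_X F a).pow (p - 1 - (α.1 a : ℕ))
    rw [one_mul] at this
    exact this

open Classical in
theorem ps_count (p : ℕ) (hp : 1 ≤ p) {k v : ℕ} (z : Fin k → Fin v)
    (hz : Function.Injective z) (α : AI p z) :
    (∑ a, if a ∈ Set.range z then 0 else p - 1 - (α.1 a : ℕ)) + ∑ a, (α.1 a : ℕ) + k * (p - 1) =
      v * (p - 1) := by
  have h1 : ∑ a : Fin v, (if a ∈ Set.range z then p - 1 else 0) = k * (p - 1) := by
    rw [← Finset.sum_filter, Finset.sum_const, smul_eq_mul]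
    congr 1
    have h2 : Finset.univ.filter (fun a : Fin v => a ∈ Set.range z) = Finset.univ.image z := by
      ext a
      simp
    rw [h2, Finset.card_image_of_injective _ hz, Finset.card_univ, Fintype.card_fin]
  rw [← h1, ← Finset.sum_add_distrib, ← Finset.sum_add_distrib]
  have h3 : ∀ a : Fin v, (if a ∈ Set.range z then 0 else p - 1 - (α.1 a : ℕ)) + (α.1 a : ℕ) +
      (if a ∈ Set.range z then p - 1 else 0) = p - 1 := by
    intro a
    by_cases h : a ∈ Set.range z
    · rw [if_pos h, if_pos h]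
      obtain ⟨j, rfl⟩ := h
      rw [α.2 j]
      omega
    · rw [if_neg h, if_neg h]
      have := (α.1 a).2
      omega
  rw [Finset.sum_congr rfl fun a _ => h3 a]
  simp

section PS

variable (p : ℕ) [Fact p.Prime] {F : Type} [Field F] [CharP F p] [PerfectRing F p] {k v : ℕ}
  (f : Fin k → MvPolynomial (Fin v) F) (z : Fin k → Fin v)

theorem psi_sum_pr (hz : Function.Injective z) (s : MvPolynomial (Fin v) F) :
    ∑ α : AI p z, Psi p f z α s ^ p * ymo p z α - jac f z ^ p * s ∈ II f := by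
  have h1 := sum_trp p z hz ((∏ i, f i) ^ (p - 1) * s * jac f z)
  have h2 := tz_mod p f z hz (s * jac f z)
  have h3 : jac f z ^ (p - 1) * (s * jac f z) = jac f z ^ p * s := by
    have hp : p = p - 1 + 1 := by
      have := (Fact.out : p.Prime).one_lt
      omega
    conv_rhs => rw [hp, pow_succ]
    ring
  rw [← mul_assoc ((∏ i, f i) ^ (p - 1)), ← h1, h3] at h2
  exact h2

theorem psi_add_pr (α : AI p z) (s t : MvPolynomial (Fin v) F) :
    Psi p f z α (s + t) = Psi p f z α s + Psi p f z α t := by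
  unfold Psi
  rw [← trp_add]
  congr 1
  ring

theorem psi_smul_pr (α : AI p z) (c : F) (s : MvPolynomial (Fin v) F) :
    Psi p f z α (C (c ^ p) * s) = C c * Psi p f z α s := by
  unfold Psi
  rw [← trp_pow_mul, map_pow]
  congr 1
  ring

/-- the degree of the argument of the Cartier operator -/
theorem ps_deg (d : Fin k → ℕ) (hd : ∀ i, 1 ≤ d i) (hf : ∀ i, (f i).IsHomogeneous (d i))
    (hz : Function.Injective z) (α : AI p z) (s : MvPolynomial (Fin v) F) (m : ℕ)
    (hs : s.IsHomogeneous (p * m)) : ∃ e : ℕ,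
    ((∏ i, f i) ^ (p - 1) * s * jac f z * yco p z α).IsHomogeneous e ∧
      e + ∑ a, (α.1 a : ℕ) = v * (p - 1) + p * (m + jdeg d) := by
  classical
  have hp1 : 1 ≤ p := (Fact.out : p.Prime).one_lt.le
  have h1 : (∏ i, f i).IsHomogeneous (∑ i, d i) := IsHomogeneous.prod _ _ _ fun i _ => hf i
  have h2 := (((h1.pow (p - 1)).mul hs).mul (ps_jac f z d hf)).mul (ps_yco (F := F) p z α)
  refine ⟨_, h2, ?_⟩
  have h3 := ps_count p hp1 z hz α
  have h4 : ∑ i, d i = jdeg d + k := by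
    unfold jdeg
    have h5 : ∀ i, d i = (d i - 1) + 1 := fun i => by
      have := hd i
      omega
    rw [Finset.sum_congr rfl fun i _ => h5 i, Finset.sum_add_distrib]
    simp
  rw [h4]
  obtain ⟨q, rfl⟩ : ∃ q, p = q + 1 := ⟨p - 1, by omega⟩
  simp only [Nat.add_sub_cancel] at h3 ⊢
  rw [← h3]
  ring

/-- degrees. `Ψ_α` sends degree `p m` to degree `m + jdeg - |α|/p` if `p ∣ |α|` -/
theorem psi_hom_pr (d : Fin k → ℕ) (hd : ∀ i, 1 ≤ d i) (hf : ∀ i, (f i).IsHomogeneous (d i))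
    (hz : Function.Injective z) (α : AI p z) (s : MvPolynomial (Fin v) F) (m : ℕ)
    (hs : s.IsHomogeneous (p * m)) (b : ℕ) (hb : ∑ a, (α.1 a : ℕ) = p * b) :
    (b ≤ m + jdeg d ∧ (Psi p f z α s).IsHomogeneous (m + jdeg d - b)) ∨ Psi p f z α s = 0 := by
  have hp1 : 1 ≤ p := (Fact.out : p.Prime).one_lt.le
  obtain ⟨e, he, he2⟩ := ps_deg p f z d hd hf hz α s m hs
  rw [hb] at he2
  rcases le_or_gt b (m + jdeg d) with h | h
  · left
    refine ⟨h, ?_⟩
    obtain ⟨c, hc⟩ := Nat.exists_eq_add_of_le h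
    have h1 : e = v * (p - 1) + p * (m + jdeg d - b) := by
      rw [hc, Nat.add_sub_cancel_left]
      rw [hc, mul_add] at he2
      omega
    rw [h1] at he
    exact trp_hom p _ _ he
  · right
    refine trp_zero p _ e he fun m' hm' => ?_
    rw [hm'] at he2
    have h1 : p * (m' + b) = p * (m + jdeg d) := by
      rw [mul_add]
      omega
    have h2 := Nat.eq_of_mul_eq_mul_left hp1 h1
    omega

theorem psi_zero_pr (d : Fin k → ℕ) (hd : ∀ i, 1 ≤ d i) (hf : ∀ i, (f i).IsHomogeneous (d i))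
    (hz : Function.Injective z) (α : AI p z) (s : MvPolynomial (Fin v) F) (m : ℕ)
    (hs : s.IsHomogeneous (p * m)) (hα : ¬ p ∣ ∑ a, (α.1 a : ℕ)) : Psi p f z α s = 0 := by
  obtain ⟨e, he, he2⟩ := ps_deg p f z d hd hf hz α s m hs
  refine trp_zero p _ e he fun m' hm' => hα ?_
  rw [hm'] at he2
  have h1 : p * m' + ∑ a, (α.1 a : ℕ) = p * (m + jdeg d) := by omega
  have h2 : p ∣ p * m' + ∑ a, (α.1 a : ℕ) := h1 ▸ Dvd.intro _ rfl
  exact (Nat.dvd_add_right (Dvd.intro _ rfl)).mp h2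

end PS


end Pool.Agent.OPT.PS

namespace Pool.Agent.OPT

alias psi_sum := PS.psi_sum_pr
alias psi_add := PS.psi_add_pr
alias psi_smul := PS.psi_smul_pr
alias psi_hom := PS.psi_hom_pr
alias psi_zero := PS.psi_zero_pr

end Pool.Agent.OPT
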