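import Pool.Agent.Lib_helper80.OPF.Defs

/-! # OPN, block TJ: tangent vectors to jets -/

namespace Pool.Agent.OPT.TJ

open MvPolynomial Pool.Agent.KSS Pool.Agent.KSX Pool.Agent.OPT

/-- the universal jet -/
noncomputable def ujet (F : Type) [Field F] (v L : ℕ) (a : Fin v) :
    PowerSeries (MvPolynomial (Fin v × Fin L) F) :=
  PowerSeries.mk fun μ => if h : μ < L then X (a, (⟨μ, h⟩ : Fin L)) else 0

/-- evaluation of a polynomial at the universal jet -/
noncomputable def uev (F : Type) [Field F] (v L : ℕ) :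
    MvPolynomial (Fin v) F →ₐ[F] PowerSeries (MvPolynomial (Fin v × Fin L) F) :=
  aeval (ujet F v L)

/-- the derivation given by the vector `η` -/
noncomputable def dd {F κ : Type} [Field F] [Field κ] [Algebra F κ] {v L : ℕ}
    (x η : Fin v → Fin L → κ) : MvPolynomial (Fin v × Fin L) F →+ κ :=
  AddMonoidHom.mk' (fun Q => ∑ q : Fin v × Fin L,
    aeval (fun q : Fin v × Fin L => x q.1 q.2) (pderiv q Q) * η q.1 q.2) (fun A B => by
    rw [← Finset.sum_add_distrib]
    exact Finset.sum_congr rfl fun q _ => by rw [map_add, map_add, add_mul])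

theorem dd_apply {F κ : Type} [Field F] [Field κ] [Algebra F κ] {v L : ℕ}
    (x η : Fin v → Fin L → κ) (Q : MvPolynomial (Fin v × Fin L) F) :
    dd x η Q = ∑ q : Fin v × Fin L,
      aeval (fun q : Fin v × Fin L => x q.1 q.2) (pderiv q Q) * η q.1 q.2 := rfl

theorem dd_C {F κ : Type} [Field F] [Field κ] [Algebra F κ] {v L : ℕ}
    (x η : Fin v → Fin L → κ) (c : F) : dd x η (C c) = 0 := by
  rw [dd_apply]
  refine Finset.sum_eq_zero fun q _ => ?_
  rw [pderiv_C, map_zero, zero_mul]

theorem dd_X {F κ : Type} [Field F] [Field κ] [Algebra F κ] {v L : ℕ}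
    (x η : Fin v → Fin L → κ) (q : Fin v × Fin L) :
    dd x η (X q : MvPolynomial (Fin v × Fin L) F) = η q.1 q.2 := by
  classical
  rw [dd_apply, Finset.sum_eq_single q]
  · rw [pderiv_X_self, map_one, one_mul]
  · intro r _ hr
    rw [pderiv_X_of_ne (Ne.symm hr), map_zero, zero_mul]
  · intro h
    exact absurd (Finset.mem_univ q) h

theorem dd_mul {F κ : Type} [Field F] [Field κ] [Algebra F κ] {v L : ℕ}
    (x η : Fin v → Fin L → κ) (A B : MvPolynomial (Fin v × Fin L) F) :
    dd x η (A * B) = aeval (fun q : Fin v × Fin L => x q.1 q.2) A * dd x η B +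
      dd x η A * aeval (fun q : Fin v × Fin L => x q.1 q.2) B := by
  rw [dd_apply, dd_apply, dd_apply, Finset.mul_sum, Finset.sum_mul, ← Finset.sum_add_distrib]
  refine Finset.sum_congr rfl fun q _ => ?_
  rw [pderiv_mul, map_add, map_mul, map_mul]
  ring

/-- the derivation on power series -/
noncomputable def dh {F κ : Type} [Field F] [Field κ] [Algebra F κ] {v L : ℕ}
    (x η : Fin v → Fin L → κ) (f : PowerSeries (MvPolynomial (Fin v × Fin L) F)) :
    PowerSeries κ := PowerSeries.mk fun μ => dd x η (PowerSeries.coeff μ f)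

theorem dh_add {F κ : Type} [Field F] [Field κ] [Algebra F κ] {v L : ℕ}
    (x η : Fin v → Fin L → κ) (f g : PowerSeries (MvPolynomial (Fin v × Fin L) F)) :
    dh x η (f + g) = dh x η f + dh x η g := by
  ext μ
  simp only [dh, PowerSeries.coeff_mk, map_add]

theorem dh_mul {F κ : Type} [Field F] [Field κ] [Algebra F κ] {v L : ℕ}
    (x η : Fin v → Fin L → κ) (f g : PowerSeries (MvPolynomial (Fin v × Fin L) F)) :
    dh x η (f * g) =
      PowerSeries.map (aeval (fun q : Fin v × Fin L => x q.1 q.2) :
        MvPolynomial (Fin v × Fin L) F →ₐ[F] κ).toRingHom f * dh x η g +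
      dh x η f * PowerSeries.map (aeval (fun q : Fin v × Fin L => x q.1 q.2) :
        MvPolynomial (Fin v × Fin L) F →ₐ[F] κ).toRingHom g := by
  ext μ
  rw [map_add, PowerSeries.coeff_mul, PowerSeries.coeff_mul]
  simp only [dh, PowerSeries.coeff_mk, PowerSeries.coeff_map]
  rw [PowerSeries.coeff_mul, map_sum, ← Finset.sum_add_distrib]
  refine Finset.sum_congr rfl fun p _ => ?_
  rw [dd_mul]
  rfl

theorem map_uev {F κ : Type} [Field F] [Field κ] [Algebra F κ] {v L : ℕ}
    (x : Fin v → Fin L → κ) (P : MvPolynomial (Fin v) F) :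
    PowerSeries.map (aeval (fun q : Fin v × Fin L => x q.1 q.2) :
      MvPolynomial (Fin v × Fin L) F →ₐ[F] κ).toRingHom (uev F v L P) = ev x P := by
  have h : (PowerSeries.map (aeval (fun q : Fin v × Fin L => x q.1 q.2) :
      MvPolynomial (Fin v × Fin L) F →ₐ[F] κ).toRingHom).comp (uev F v L).toRingHom =
      (aeval (fun i => arc (x i)) : MvPolynomial (Fin v) F →ₐ[F] PowerSeries κ).toRingHom := by
    refine MvPolynomial.ringHom_ext (fun c => ?_) fun a => ?_
    · simp only [RingHom.coe_comp, Function.comp_apply, AlgHom.toRingHom_eq_coe, uev,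
        RingHom.coe_coe, aeval_C, PowerSeries.algebraMap_apply, PowerSeries.map_C]
      congr 1
      exact (aeval (fun q : Fin v × Fin L => x q.1 q.2)).commutes c
    · simp only [RingHom.coe_comp, Function.comp_apply, AlgHom.toRingHom_eq_coe, uev,
        RingHom.coe_coe, aeval_X]
      ext μ
      simp only [PowerSeries.coeff_map, ujet, arc, PowerSeries.coeff_mk]
      split_ifs with hμ
      · simp
      · simp
  exact congrArg (fun g : MvPolynomial (Fin v) F →+* PowerSeries κ => g P) h

theorem dh_ujet {F κ : Type} [Field F] [Field κ] [Algebra F κ] {v L : ℕ}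
    (x η : Fin v → Fin L → κ) (a : Fin v) : dh x η (ujet F v L a) = arc (η a) := by
  ext μ
  simp only [dh, ujet, arc, PowerSeries.coeff_mk]
  split_ifs with hμ
  · rw [dd_X]
  · rw [map_zero]

theorem dh_uev {F κ : Type} [Field F] [Field κ] [Algebra F κ] {v L : ℕ}
    (x η : Fin v → Fin L → κ) (P : MvPolynomial (Fin v) F) :
    dh x η (uev F v L P) = ∑ a, ev x (pderiv a P) * arc (η a) := by
  classical
  induction P using MvPolynomial.induction_on with
  | C c =>
    have h1 : dh x η (uev F v L (C c)) = 0 := by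
      ext μ
      simp only [dh, uev, aeval_C, PowerSeries.coeff_mk, PowerSeries.algebraMap_apply,
        PowerSeries.coeff_C, map_zero]
      split_ifs with h
      · exact dd_C x η c
      · exact map_zero _
    rw [h1]
    symm
    refine Finset.sum_eq_zero fun a _ => ?_
    rw [pderiv_C, ev, map_zero, zero_mul]
  | add p q hp hq =>
    rw [map_add, dh_add, hp, hq, ← Finset.sum_add_distrib]
    refine Finset.sum_congr rfl fun a _ => ?_
    simp only [ev, map_add]
    ring
  | mul_X p n hp =>
    have h2 : uev F v L (X n) = ujet F v L n := aeval_X _ _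
    rw [map_mul, dh_mul, hp, map_uev, map_uev, h2, dh_ujet]
    have h3 : ∀ a, ev x (pderiv a (p * X n)) * arc (η a) =
        ev x (pderiv a p) * arc (η a) * ev x (X n : MvPolynomial (Fin v) F) +
          (if a = n then ev x p * arc (η a) else 0) := by
      intro a
      rw [pderiv_mul]
      by_cases h : a = n
      · subst h
        rw [pderiv_X_self, if_pos rfl]
        simp only [ev, map_add, map_mul, map_one]
        ring
      · rw [pderiv_X_of_ne (Ne.symm h), if_neg h]
        simp only [ev, map_add, map_mul, map_zero]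
        ring
    simp only [h3]
    rw [Finset.sum_add_distrib, Finset.sum_ite_eq' Finset.univ n, if_pos (Finset.mem_univ n),
      ← Finset.sum_mul]
    ring

theorem jet_tangent_pr {F κ : Type} [Field F] [Field κ] [Algebra F κ] {v L : ℕ}
    (x η : Fin v → Fin L → κ)
    (hη : ∀ Q : MvPolynomial (Fin v × Fin L) F, aeval (fun q : Fin v × Fin L => x q.1 q.2) Q = 0 →
      ∑ q : Fin v × Fin L, aeval (fun q : Fin v × Fin L => x q.1 q.2) (pderiv q Q) * η q.1 q.2 = 0)
    (P : MvPolynomial (Fin v) F) (l : ℕ) (hl : l ≤ L)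
    (hP : (PowerSeries.X : PowerSeries κ) ^ l ∣ ev x P) :
    (PowerSeries.X : PowerSeries κ) ^ l ∣ ∑ a, ev x (pderiv a P) * arc (η a) := by
  rw [PowerSeries.X_pow_dvd_iff] at hP ⊢
  intro m hm
  have h1 := hP m hm
  rw [← map_uev, PowerSeries.coeff_map] at h1
  have h2 := hη _ h1
  rw [← dh_uev, dh, PowerSeries.coeff_mk]
  exact h2

end Pool.Agent.OPT.TJ

namespace Pool.Agent.OPT

alias jet_tangent := TJ.jet_tangent_pr

end Pool.Agent.OPT
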