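import Pool.Agent.Lib_helper80.OPF.Defs

namespace Pool.Agent.OPT.UN

open MvPolynomial

theorem chain {L E ι M : Type} [Field L] [Field E] [Algebra L E] [Fintype ι] [DecidableEq ι]
    [AddCommGroup M] [Module L M] [Module E M] [IsScalarTower L E M] (D : Derivation L E M)
    (z : ι → E) (P : MvPolynomial ι L) :
    D (aeval z P) = ∑ j, aeval z (pderiv j P) • D (z j) := by
  induction P using MvPolynomial.induction_on with
  | C a => simp
  | add p q hp hq => simp only [map_add, hp, hq, add_smul, Finset.sum_add_distrib]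
  | mul_X p n hp =>
    rw [map_mul, aeval_X, D.leibniz, hp, Finset.smul_sum]
    have h1 : ∀ j, aeval z (pderiv j (p * X n)) • D (z j) =
        (aeval z p * (if j = n then 1 else 0)) • D (z j) +
          z n • aeval z (pderiv j p) • D (z j) := by
      intro j
      rw [Derivation.leibniz, pderiv_X, map_add, add_smul]
      congr 1
      · rw [smul_eq_mul, map_mul]
        congr 2
        rcases eq_or_ne j n with rfl | h
        · simp
        · rw [Pi.single_apply, if_neg (Ne.symm h), if_neg h, map_zero]
      · rw [smul_eq_mul, map_mul, aeval_X, mul_smul]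
    simp only [h1, Finset.sum_add_distrib]
    congr 1
    rw [Finset.sum_eq_single n]
    · simp
    · intro b _ hb
      rw [if_neg hb, mul_zero, zero_smul]
    · intro h
      exact absurd (Finset.mem_univ n) h

theorem unr_pr {L κ ι : Type} [Field L] [Field κ] [Algebra L κ] [Fintype ι] [DecidableEq ι]
    (z : ι → κ) (P : ι → MvPolynomial ι L) (h0 : ∀ i, aeval z (P i) = 0)
    (hJ : Matrix.det (Matrix.of fun i j => aeval z (pderiv j (P i))) ≠ 0) :
    ∀ i, IsAlgebraic L (z i) := by
  classical
  let E : IntermediateField L κ := IntermediateField.adjoin L (Set.range z)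
  have hzE : ∀ i, z i ∈ E := fun i => IntermediateField.subset_adjoin L _ ⟨i, rfl⟩
  let y : ι → E := fun i => ⟨z i, hzE i⟩
  have hy : ∀ p : MvPolynomial ι L, ((aeval y p : E) : κ) = aeval z p := by
    intro p
    have : (E.val (aeval y p) : κ) = aeval (fun i => E.val (y i)) p := by
      rw [← MvPolynomial.comp_aeval_apply]
    exact this
  have hfg : E.FG := ⟨Finset.univ.image z, by simp [E]⟩
  have : Algebra.EssFiniteType L E := IntermediateField.essFiniteType_iff.mpr hfg
  let D := KaehlerDifferential.D L E
  have hP : ∀ i, ∑ j, aeval y (pderiv j (P i)) • D (y j) = 0 := by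
    intro i
    rw [← chain]
    have : aeval y (P i) = 0 := by
      apply Subtype.ext
      rw [hy, h0]
      rfl
    rw [this, map_zero]
  let M : Matrix ι ι E := Matrix.of fun i j => aeval y (pderiv j (P i))
  have hM : IsUnit M.det := by
    rw [isUnit_iff_ne_zero]
    intro h
    apply hJ
    have h1 : (E.val.toRingHom).mapMatrix M = Matrix.of fun i j => aeval z (pderiv j (P i)) := by
      ext i j
      exact hy _
    rw [← h1, ← RingHom.map_det, h, map_zero]
  have hz : ∀ l, D (y l) = 0 := by
    intro l
    have h1 : ∑ i, M⁻¹ l i • ∑ j, M i j • D (y j) = 0 := by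
      apply Finset.sum_eq_zero
      intro i _
      rw [show ∑ j, M i j • D (y j) = 0 from hP i, smul_zero]
    simp only [Finset.smul_sum, smul_smul] at h1
    rw [Finset.sum_comm] at h1
    simp only [← Finset.sum_smul] at h1
    have h2 : ∀ j, ∑ i, M⁻¹ l i * M i j = if l = j then 1 else 0 := by
      intro j
      rw [← Matrix.mul_apply, Matrix.nonsing_inv_mul _ hM, Matrix.one_apply]
    simp only [h2, ite_smul, one_smul, zero_smul, Finset.sum_ite_eq, Finset.mem_univ, if_true] at h1
    exact h1
  have hD : ∀ (x : κ) (hx : x ∈ E), D ⟨x, hx⟩ = 0 := by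
    intro x hx
    induction hx using IntermediateField.adjoin_induction with
    | mem x hx =>
      obtain ⟨i, rfl⟩ := hx
      exact hz i
    | algebraMap a => exact D.map_algebraMap a
    | add x y hx hy h1 h2 =>
      have : (⟨x + y, add_mem hx hy⟩ : E) = ⟨x, hx⟩ + ⟨y, hy⟩ := rfl
      rw [this, map_add, h1, h2, add_zero]
    | inv x hx h1 =>
      have : (⟨x⁻¹, inv_mem hx⟩ : E) = (⟨x, hx⟩ : E)⁻¹ := rfl
      rw [this, D.leibniz_inv, h1, smul_zero]
    | mul x y hx hy h1 h2 =>
      have : (⟨x * y, mul_mem hx hy⟩ : E) = ⟨x, hx⟩ * ⟨y, hy⟩ := rfl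
      rw [this, D.leibniz, h1, h2, smul_zero, smul_zero, add_zero]
  have hsub : Subsingleton (Ω[E⁄L]) := by
    rw [← Submodule.subsingleton_iff E, ← subsingleton_iff_bot_eq_top]
    rw [← KaehlerDifferential.span_range_derivation]
    symm
    rw [Submodule.span_eq_bot]
    rintro _ ⟨x, rfl⟩
    exact hD x.1 x.2
  have : Algebra.FormallyUnramified L E := ⟨hsub⟩
  have hsep : Algebra.IsSeparable L E := Algebra.FormallyUnramified.isSeparable L E
  intro i
  have h1 : IsAlgebraic L (y i) := (Algebra.IsSeparable.isSeparable L (y i)).isIntegral.isAlgebraic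
  have h2 := h1.algHom E.val
  exact h2


end Pool.Agent.OPT.UN

namespace Pool.Agent.OPT

alias unr := UN.unr_pr

end Pool.Agent.OPT
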