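import Pool.Agent.Lib_helper80.OPF.Defs
import Pool.Agent.Lib_helper80.OPF.UN

/-!
# OPN, block ZA: transcendence degree and the Zariski tangent space
-/

namespace Pool.Agent.OPT.ZA

open MvPolynomial Pool.Agent.KSS Pool.Agent.KSX

/-- substitution and derivation -/
theorem za_chain {F L κ J : Type} [Field F] [Field L] [Field κ] [Algebra F κ] [Algebra F L]
    [Algebra L κ] [IsScalarTower F L κ] {r : ℕ} (e : Fin r → J) (he : Function.Injective e)
    (z : J → κ) (s : J → MvPolynomial (Fin r) L) (hs1 : ∀ l, s (e l) = X l)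
    (hs2 : ∀ j, j ∉ Set.range e → ∃ c : L, s j = C c ∧ algebraMap L κ c = z j)
    (P : MvPolynomial J F) :
    aeval (z ∘ e) (aeval s P) = aeval z P ∧
      ∀ l, aeval (z ∘ e) (pderiv l (aeval s P)) = aeval z (pderiv (e l) P) := by
  classical
  have hs : ∀ j, aeval (z ∘ e) (s j) = z j := by
    intro j
    by_cases hj : j ∈ Set.range e
    · obtain ⟨l, rfl⟩ := hj
      rw [hs1]; simp
    · obtain ⟨c, hc, hc2⟩ := hs2 j hj
      rw [hc, ← hc2]; simp
  have h0 : ∀ P : MvPolynomial J F, aeval (z ∘ e) (aeval s P) = aeval z P := by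
    intro P
    induction P using MvPolynomial.induction_on with
    | C a =>
      simp only [algHom_C]
      rw [IsScalarTower.algebraMap_apply F L (MvPolynomial (Fin r) L), MvPolynomial.algebraMap_eq,
        algHom_C, ← IsScalarTower.algebraMap_apply]
    | add p q hp hq => simp only [map_add, hp, hq]
    | mul_X p j hp => simp only [map_mul, hp, aeval_X, hs]
  refine ⟨h0 P, fun l => ?_⟩
  induction P using MvPolynomial.induction_on with
  | C a =>
    simp only [algHom_C, pderiv_C, map_zero]
    rw [IsScalarTower.algebraMap_apply F L (MvPolynomial (Fin r) L), MvPolynomial.algebraMap_eq,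
      pderiv_C, map_zero]
  | add p q hp hq => simp only [map_add, hp, hq]
  | mul_X p j hp =>
    simp only [map_mul, aeval_X, Derivation.leibniz, smul_eq_mul, map_add, hp, h0]
    have h1 : aeval (z ∘ e) (pderiv l (s j)) = aeval z (pderiv (e l) (X j : MvPolynomial J F)) := by
      by_cases hj : j ∈ Set.range e
      · obtain ⟨l', rfl⟩ := hj
        rw [hs1, pderiv_X, pderiv_X]
        by_cases hll : l' = l
        · subst hll; simp
        · rw [Pi.single_eq_of_ne hll, Pi.single_eq_of_ne (fun h => hll (he h))]
          simp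
      · obtain ⟨c, hc, hc2⟩ := hs2 j hj
        rw [hc, pderiv_C, pderiv_X, Pi.single_eq_of_ne (fun h => hj ⟨l, h.symm⟩)]
        simp
    rw [h1, hs]

/-- rank-nullity: the space orthogonal to `r` vectors -/
theorem za_dim {κ J : Type} [Field κ] [Fintype J] (V : Submodule κ (J → κ)) {r : ℕ}
    (g : Fin r → J → κ) (hV : ∀ η : J → κ, (∀ i, ∑ j, g i j * η j = 0) → η ∈ V) :
    Fintype.card J ≤ Module.finrank κ V + r := by
  let φ : (J → κ) →ₗ[κ] (Fin r → κ) := Matrix.mulVecLin (Matrix.of g)
  have h1 := LinearMap.finrank_range_add_finrank_ker φ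
  have h2 : Module.finrank κ (LinearMap.range φ) ≤ r := by
    refine (Submodule.finrank_le _).trans ?_
    simp
  have h3 : LinearMap.ker φ ≤ V := by
    intro η hη
    apply hV
    intro i
    have := congrFun (LinearMap.mem_ker.1 hη) i
    simpa [φ, Matrix.mulVec, dotProduct] using this
  have h4 := Submodule.finrank_mono h3
  rw [Module.finrank_fintype_fun_eq_card] at h1
  omega

theorem za_fun {κ M : Type} [Field κ] [AddCommGroup M] [Module κ M] [FiniteDimensional κ M]
    (s : Set M) (n : ℕ) (hn : Module.finrank κ (Submodule.span κ s) = n) :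
    ∃ f : Fin n → M, (∀ i, f i ∈ s) ∧
      Submodule.span κ (Set.range f) = Submodule.span κ s ∧ LinearIndependent κ f := by
  subst hn
  exact Submodule.exists_fun_fin_finrank_span_eq κ s

theorem zar_pr {F κ J : Type} [Field F] [Field κ] [Algebra F κ] [Fintype J] (z : J → κ)
    (V : Submodule κ (J → κ))
    (hV : ∀ η : J → κ, (∀ P : MvPolynomial J F, aeval z P = 0 →
      ∑ j, aeval z (pderiv j P) * η j = 0) → η ∈ V) :
    tau F z ≤ Module.finrank κ V := by
  classical
  -- the gradients
  let Gs : Set (J → κ) := {w | ∃ P : MvPolynomial J F, aeval z P = 0 ∧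
    w = fun j => aeval z (pderiv j P)}
  obtain ⟨r, g, hg1, hg2, hg3⟩ : ∃ (r : ℕ) (g : Fin r → J → κ), (∀ i, g i ∈ Gs) ∧
      Submodule.span κ (Set.range g) = Submodule.span κ Gs ∧ LinearIndependent κ g :=
    ⟨_, za_fun Gs _ rfl⟩
  choose P hP1 hP2 using hg1
  -- dimension of `V`
  have hdim : Fintype.card J ≤ Module.finrank κ V + r := by
    apply za_dim V g
    intro η hη
    apply hV
    intro Q hQ
    have hmem : (fun j => aeval z (pderiv j Q)) ∈ Submodule.span κ (Set.range g) := by
      rw [hg2]; exact Submodule.subset_span ⟨Q, hQ, rfl⟩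
    have key : ∀ w ∈ Submodule.span κ (Set.range g), ∑ j, w j * η j = 0 := by
      intro w hw
      induction hw using Submodule.span_induction with
      | mem w hw => obtain ⟨i, rfl⟩ := hw; exact hη i
      | zero => simp
      | add a b _ _ ha hb => simp only [Pi.add_apply, add_mul, Finset.sum_add_distrib, ha, hb,
          add_zero]
      | smul c a _ ha => simp only [Pi.smul_apply, smul_eq_mul, mul_assoc, ← Finset.mul_sum, ha,
          mul_zero]
    exact key _ hmem
  -- a nonzero minor
  obtain ⟨e, he, hdet⟩ : ∃ e : Fin r → J, Function.Injective e ∧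
      (Matrix.of fun i l : Fin r => g i (e l)).det ≠ 0 := by
    have hrk : (Matrix.of g).rank = r := by
      have := LinearIndependent.rank_matrix (M := Matrix.of g) hg3
      rwa [Fintype.card_fin] at this
    rw [Matrix.rank_eq_finrank_span_cols] at hrk
    obtain ⟨c, hc1, -, hc3⟩ := za_fun (Set.range (Matrix.of g).col) r hrk
    choose e he using hc1
    refine ⟨e, ?_, ?_⟩
    · intro a b hab
      apply hc3.injective
      rw [← he a, ← he b, hab]
    · have h1 : LinearIndependent κ (Matrix.of fun i l : Fin r => g i (e l)).col := by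
        have hce : (Matrix.of fun i l : Fin r => g i (e l)).col = c := by
          funext l
          rw [← he l]
          rfl
        rw [hce]; exact hc3
      rw [Matrix.linearIndependent_cols_iff_isUnit, Matrix.isUnit_iff_isUnit_det] at h1
      exact h1.ne_zero
  -- algebraicity
  let T : Set κ := z '' (Set.range e)ᶜ
  let L := IntermediateField.adjoin F T
  have hzT : ∀ j, j ∉ Set.range e → z j ∈ L := fun j hj =>
    IntermediateField.subset_adjoin F T ⟨j, hj, rfl⟩
  let s : J → MvPolynomial (Fin r) L := fun j =>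
    if h : j ∈ Set.range e then X h.choose else C ⟨z j, hzT j h⟩
  have hs1 : ∀ l, s (e l) = X l := by
    intro l
    have h : e l ∈ Set.range e := ⟨l, rfl⟩
    simp only [s, dif_pos h]
    rw [he h.choose_spec]
  have hs2 : ∀ j, j ∉ Set.range e → ∃ c : L, s j = C c ∧ algebraMap L κ c = z j := by
    intro j hj
    exact ⟨⟨z j, hzT j hj⟩, by simp only [s, dif_neg hj], rfl⟩
  have hch := fun Q : MvPolynomial J F => za_chain (L := L) e he z s hs1 hs2 Q
  have hun := unr (L := L) (κ := κ) (ι := Fin r) (z ∘ e) (fun i => aeval s (P i))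
    (fun i => by rw [(hch _).1]; exact hP1 i) (by
      have h2 : (Matrix.of fun i j => aeval (z ∘ e) (pderiv j (aeval s (P i)))) =
          Matrix.of fun i l : Fin r => g i (e l) := by
        ext i l
        simp only [Matrix.of_apply]
        rw [(hch _).2, hP2 i]
      rw [h2]; exact hdet)
  have halg : ∀ j, z j ∈ (AlgebraicIndependent.matroid F κ).closure T := by
    intro j
    rw [AlgebraicIndependent.matroid_closure_eq, SetLike.mem_coe, Subalgebra.mem_algebraicClosure]
    by_cases hj : j ∈ Set.range e
    · obtain ⟨l, rfl⟩ := hj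
      exact IntermediateField.isAlgebraic_adjoin_iff.1 (hun l)
    · exact isAlgebraic_algebraMap (⟨z j, Algebra.subset_adjoin ⟨j, hj, rfl⟩⟩ :
        Algebra.adjoin F T)
  unfold tau
  apply csSup_le'
  rintro n ⟨S, rfl, hS⟩
  have hS1 : (AlgebraicIndependent.matroid F κ).Indep (Set.range fun s : S => z s) := by
    rw [AlgebraicIndependent.matroid_indep_iff]
    exact hS.coe_range
  have h5 : (Set.range fun s : S => z s).encard ≤
      (AlgebraicIndependent.matroid F κ).eRk ((AlgebraicIndependent.matroid F κ).closure T) :=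
    hS1.encard_le_eRk_of_subset (by rintro _ ⟨j, rfl⟩; exact halg j)
  rw [Matroid.eRk_closure_eq] at h5
  have h6 := h5.trans ((AlgebraicIndependent.matroid F κ).eRk_le_encard T)
  have h7 : (Set.range fun s : S => z s).encard = (S.card : ℕ∞) := by
    rw [← Set.image_univ, hS.injective.encard_image, Set.encard_univ, ENat.card_eq_coe_natCard]
    simp
  have h8 : T.encard ≤ ((Fintype.card J - r : ℕ) : ℕ∞) := by
    refine (Set.encard_image_le _ _).trans ?_
    have : ((Set.range e)ᶜ : Set J) = ((Finset.univ.image e)ᶜ : Finset J) := by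
      ext j; simp
    rw [this, Set.encard_coe_eq_coe_finsetCard, Finset.card_compl,
      Finset.card_image_of_injective _ he]
    simp
  rw [h7] at h6
  have h9 : S.card ≤ Fintype.card J - r := by exact_mod_cast h6.trans h8
  omega

end Pool.Agent.OPT.ZA

namespace Pool.Agent.OPT

alias zar := ZA.zar_pr

end Pool.Agent.OPT
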