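import Pool.Agent.Lib_helper80.OPF.Defs
import Pool.Agent.Lib_helper80.OPF.TJ
import Pool.Agent.Lib_helper80.OPF.ZA

/-!
# OPN, block TA: the tangent lemma
-/

namespace Pool.Agent.OPT.TA

open MvPolynomial Pool.Agent.KSS Pool.Agent.KSX

/-- Cramer's rule, first part: the operators `D_a` vanish for `a = z l` -/
theorem ta_cr1 {R : Type} [CommRing R] {k v : ℕ} (z : Fin k → Fin v)
    (dg : Fin v → R) (df : Fin k → Fin v → R) (l : Fin k) :
    (Matrix.of fun i j => df i (z j)).det * dg (z l) -
      ∑ j, ∑ i, dg (z j) * (Matrix.of fun i j => df i (z j)).adjugate j i * df i (z l) = 0 := by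
  set M : Matrix (Fin k) (Fin k) R := Matrix.of fun i j => df i (z j) with hM
  have h1 : ∀ j, ∑ i, dg (z j) * M.adjugate j i * df i (z l) =
      dg (z j) * (M.adjugate * M) j l := by
    intro j
    rw [Matrix.mul_apply, Finset.mul_sum]
    refine Finset.sum_congr rfl fun i _ => ?_
    rw [hM, Matrix.of_apply, mul_assoc]
  simp only [h1, Matrix.adjugate_mul, Matrix.smul_apply, Matrix.one_apply, smul_eq_mul, mul_ite,
    mul_one, mul_zero, Finset.sum_ite_eq', Finset.mem_univ, if_true]
  ring

/-- Cramer's rule, second part -/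
theorem ta_cr2 {R : Type} [CommRing R] {k v : ℕ} (z : Fin k → Fin v)
    (dg : Fin v → R) (df : Fin k → Fin v → R) (η : Fin v → R) (c l : ℕ) (t : R) (hl : l ≤ c)
    (h1 : ∀ i, t ^ c ∣ ∑ a, df i a * η a) (h2 : t ^ l ∣ ∑ a, dg a * η a) :
    t ^ l ∣ ∑ a, ((Matrix.of fun i j => df i (z j)).det * dg a -
      ∑ j, ∑ i, dg (z j) * (Matrix.of fun i j => df i (z j)).adjugate j i * df i a) * η a := by
  set M : Matrix (Fin k) (Fin k) R := Matrix.of fun i j => df i (z j) with hM
  have h3 : ∑ a, (M.det * dg a - ∑ j, ∑ i, dg (z j) * M.adjugate j i * df i a) * η a =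
      M.det * (∑ a, dg a * η a) -
        ∑ j, ∑ i, dg (z j) * M.adjugate j i * ∑ a, df i a * η a := by
    simp only [sub_mul, Finset.sum_sub_distrib]
    congr 1
    · rw [Finset.mul_sum]
      exact Finset.sum_congr rfl fun a _ => by ring
    · simp only [Finset.mul_sum, Finset.sum_mul]
      rw [Finset.sum_comm]
      refine Finset.sum_congr rfl fun j _ => ?_
      rw [Finset.sum_comm]
      refine Finset.sum_congr rfl fun i _ => ?_
      exact Finset.sum_congr rfl fun a _ => by ring
  rw [h3]
  apply dvd_sub (Dvd.dvd.mul_left h2 _)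
  refine Finset.dvd_sum fun j _ => Finset.dvd_sum fun i _ => ?_
  exact Dvd.dvd.mul_left ((pow_dvd_pow t hl).trans (h1 i)) _

/-- Cramer's rule, third part: the components `z j` are determined by the others -/
theorem ta_cr3 {R : Type} [CommRing R] {k v : ℕ} (z : Fin k → Fin v)
    (hz : Function.Injective z) (df : Fin k → Fin v → R) (η : Fin v → R) (t : R)
    (h1 : ∀ i, t ∣ ∑ a, df i a * η a) (h0 : ∀ a, a ∉ Set.range z → η a = 0) (j : Fin k) :
    t ∣ (Matrix.of fun i j => df i (z j)).det * η (z j) := by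
  classical
  set M : Matrix (Fin k) (Fin k) R := Matrix.of fun i j => df i (z j) with hM
  have h2 : ∀ i, ∑ a, df i a * η a = (M.mulVec fun j => η (z j)) i := by
    intro i
    rw [Matrix.mulVec, dotProduct]
    have h3 : ∑ a ∈ Finset.univ.image z, df i a * η a = ∑ j, df i (z j) * η (z j) :=
      Finset.sum_image fun a _ b _ h => hz h
    have h4 : ∑ j, M i j * η (z j) = ∑ j, df i (z j) * η (z j) := rfl
    rw [h4, ← h3]
    symm
    apply Finset.sum_subset (Finset.subset_univ _)
    intro a _ ha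
    rw [h0 a (fun h => ha (by obtain ⟨j, rfl⟩ := h; simp)), mul_zero]
  have h5 : M.det * η (z j) = (M.adjugate.mulVec (M.mulVec fun j => η (z j))) j := by
    rw [Matrix.mulVec_mulVec, Matrix.adjugate_mul, Matrix.smul_mulVec, Matrix.one_mulVec]
    rfl
  rw [h5, Matrix.mulVec, dotProduct]
  refine Finset.dvd_sum fun i _ => ?_
  rw [← h2]
  exact Dvd.dvd.mul_left (h1 i) _

theorem ta_jac {F R : Type} [Field F] [CommRing R] [Algebra F R] {k v : ℕ}
    (φ : MvPolynomial (Fin v) F →ₐ[F] R) (f : Fin k → MvPolynomial (Fin v) F)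
    (z : Fin k → Fin v) :
    φ (jac f z) = (Matrix.of fun i j => φ (pderiv (z j) (f i))).det := by
  unfold jac
  rw [AlgHom.map_det]
  rfl

theorem ta_DD {F R : Type} [Field F] [CommRing R] [Algebra F R] {k v : ℕ}
    (φ : MvPolynomial (Fin v) F →ₐ[F] R) (f : Fin k → MvPolynomial (Fin v) F)
    (z : Fin k → Fin v) (a : Fin v) (g : MvPolynomial (Fin v) F) :
    φ (DD f z a g) = (Matrix.of fun i j => φ (pderiv (z j) (f i))).det * φ (pderiv a g) -
      ∑ j, ∑ i, φ (pderiv (z j) g) *
        (Matrix.of fun i j => φ (pderiv (z j) (f i))).adjugate j i * φ (pderiv a (f i)) := by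
  have h1 : ∀ j i, φ ((Matrix.of fun i j => pderiv (z j) (f i)).adjugate j i) =
      (Matrix.of fun i j => φ (pderiv (z j) (f i))).adjugate j i := by
    intro j i
    have := RingHom.map_adjugate (φ : MvPolynomial (Fin v) F →+* R)
      (Matrix.of fun i j => pderiv (z j) (f i))
    have h2 := congrFun (congrFun this j) i
    exact h2
  unfold DD
  simp only [map_sub, map_sum, map_mul, h1]
  rw [ta_jac]

theorem ta_arc {κ : Type} [Field κ] {L : ℕ} (c : Fin L → κ) (μ : Fin L) :
    PowerSeries.coeff (μ : ℕ) (arc c) = c μ := by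
  simp [arc]

theorem ta_arc0 {κ : Type} [Field κ] {L : ℕ} (c : Fin L → κ) (h : ∀ μ, c μ = 0) :
    arc c = 0 := by
  ext n
  simp only [arc, PowerSeries.coeff_mk, map_zero]
  split
  · exact h _
  · rfl

/-- the number of indices -/
theorem ta_card {k v L : ℕ} (z : Fin k → Fin v) (hz : Function.Injective z) (b : Fin v)
    (hb : b ∉ Set.range z) (n : ℕ) (hn : n ≤ L) (T : Finset (Fin v × Fin L))
    (hT : ∀ q ∈ T, q.1 ∉ Set.range z ∧ (q.1 = b → n ≤ (q.2 : ℕ))) :
    T.card + n ≤ (v - k) * L := by
  classical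
  let U : Finset (Fin v × Fin L) := Finset.univ.image fun μ : Fin n => (b, Fin.castLE hn μ)
  have hU : U.card = n := by
    rw [Finset.card_image_of_injective, Finset.card_univ, Fintype.card_fin]
    intro μ ν h
    have := (Prod.ext_iff.1 h).2
    exact Fin.castLE_injective hn this
  have hdis : Disjoint T U := by
    rw [Finset.disjoint_left]
    intro q hq hq2
    simp only [U, Finset.mem_image, Finset.mem_univ, true_and] at hq2
    obtain ⟨μ, rfl⟩ := hq2
    have := (hT _ hq).2 rfl
    simp only [Fin.val_castLE] at this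
    have := μ.2
    omega
  have hsub : T ∪ U ⊆ (Finset.univ.image z)ᶜ ×ˢ (Finset.univ : Finset (Fin L)) := by
    intro q hq
    simp only [Finset.mem_product, Finset.mem_compl, Finset.mem_image, Finset.mem_univ, true_and,
      and_true]
    rcases Finset.mem_union.1 hq with hq | hq
    · exact (hT q hq).1
    · simp only [U, Finset.mem_image, Finset.mem_univ, true_and] at hq
      obtain ⟨μ, rfl⟩ := hq
      exact hb
  have h1 := Finset.card_le_card hsub
  rw [Finset.card_union_of_disjoint hdis, hU, Finset.card_product, Finset.card_compl,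
    Finset.card_image_of_injective _ hz] at h1
  simpa using h1

theorem tan_lemma_pr {F κ : Type} [Field F] [Field κ] [Algebra F κ] {k v : ℕ}
    (f : Fin k → MvPolynomial (Fin v) F) (z : Fin k → Fin v) (hz : Function.Injective z)
    {L : ℕ} (x : Fin v → Fin L → κ)
    (hx : ∀ i, (PowerSeries.X : PowerSeries κ) ^ L ∣ ev x (f i))
    (hJ : PowerSeries.constantCoeff (ev x (jac f z)) ≠ 0) (A : ℕ)
    (hA : (v - k) * L ≤ tauJ F x + A) (g : MvPolynomial (Fin v) F) (l : ℕ) (hl : l ≤ L)
    (hg : (PowerSeries.X : PowerSeries κ) ^ l ∣ ev x g) (a : Fin v) (ha : a ∉ Set.range z) :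
    (PowerSeries.X : PowerSeries κ) ^ (l - A) ∣ ev x (DD f z a g) := by
  classical
  by_contra hcon
  -- the minimal order
  have hex : ∃ n, ∃ b, b ∉ Set.range z ∧ PowerSeries.coeff n (ev x (DD f z b g)) ≠ 0 := by
    rw [PowerSeries.X_pow_dvd_iff] at hcon
    push Not at hcon
    obtain ⟨n, -, hn⟩ := hcon
    exact ⟨n, a, ha, hn⟩
  obtain ⟨b, hb, hbe⟩ := Nat.find_spec hex
  set e := Nat.find hex with he
  have hmin : ∀ m < e, ∀ b, b ∉ Set.range z →
      PowerSeries.coeff m (ev x (DD f z b g)) = 0 := by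
    intro m hm b hb
    by_contra h
    exact Nat.find_min hex hm ⟨b, hb, h⟩
  have hel : e < l - A := by
    rw [PowerSeries.X_pow_dvd_iff] at hcon
    push Not at hcon
    obtain ⟨n, hn1, hn⟩ := hcon
    exact lt_of_le_of_lt (Nat.find_min' hex ⟨a, ha, hn⟩) hn1
  -- Cramer
  let φ : MvPolynomial (Fin v) F →ₐ[F] PowerSeries κ := aeval (fun i => arc (x i))
  have hev : ∀ P, ev x P = φ P := fun P => rfl
  have hzero : ∀ j, ev x (DD f z (z j) g) = 0 := by
    intro j
    rw [hev, ta_DD]
    exact ta_cr1 z (fun a => φ (pderiv a g)) (fun i a => φ (pderiv a (f i))) j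
  have hdv : ∀ a, (PowerSeries.X : PowerSeries κ) ^ e ∣ ev x (DD f z a g) := by
    intro a
    by_cases h : a ∈ Set.range z
    · obtain ⟨j, rfl⟩ := h
      rw [hzero]; exact dvd_zero _
    · rw [PowerSeries.X_pow_dvd_iff]
      exact fun m hm => hmin m hm a h
  choose u hu using hdv
  have hu0 : ∀ j, u (z j) = 0 := by
    intro j
    have := hu (z j)
    rw [hzero] at this
    exact (mul_eq_zero.1 this.symm).resolve_left (pow_ne_zero _ PowerSeries.X_ne_zero)
  have hub : IsUnit (u b) := by
    rw [PowerSeries.isUnit_iff_constantCoeff, isUnit_iff_ne_zero]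
    rw [hu b, PowerSeries.coeff_X_pow_mul'] at hbe
    simpa using hbe
  have hJu : IsUnit (φ (jac f z)) := by
    rw [PowerSeries.isUnit_iff_constantCoeff, isUnit_iff_ne_zero]
    exact hJ
  -- the tangent space
  let V : Submodule κ (Fin v × Fin L → κ) :=
    { carrier := {η | ∀ Q : MvPolynomial (Fin v × Fin L) F,
        aeval (fun q : Fin v × Fin L => x q.1 q.2) Q = 0 →
        ∑ q : Fin v × Fin L, aeval (fun q : Fin v × Fin L => x q.1 q.2) (pderiv q Q) * η q = 0}
      add_mem' := by
        intro η η' h h' Q hQ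
        simp only [Pi.add_apply, mul_add, Finset.sum_add_distrib]
        rw [h Q hQ, h' Q hQ, add_zero]
      zero_mem' := by
        intro Q _
        simp
      smul_mem' := by
        intro c η h Q hQ
        simp only [Pi.smul_apply, smul_eq_mul]
        have : ∀ q : Fin v × Fin L,
            aeval (fun q : Fin v × Fin L => x q.1 q.2) (pderiv q Q) * (c * η q) =
            c * (aeval (fun q : Fin v × Fin L => x q.1 q.2) (pderiv q Q) * η q) :=
          fun q => by ring
        simp only [this, ← Finset.mul_sum]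
        rw [h Q hQ, mul_zero] }
  have hzar : tauJ F x ≤ Module.finrank κ V :=
    zar (F := F) (fun q : Fin v × Fin L => x q.1 q.2) V fun η h => h
  let T : Finset (Fin v × Fin L) := Finset.univ.filter fun q =>
    q.1 ∉ Set.range z ∧ (q.1 = b → l - e ≤ (q.2 : ℕ))
  have hcard : T.card + (l - e) ≤ (v - k) * L :=
    ta_card z hz b hb (l - e) (by omega) T fun q hq => (Finset.mem_filter.1 hq).2
  let ρ : V →ₗ[κ] (T → κ) := (LinearMap.funLeft κ κ (Subtype.val : T → Fin v × Fin L)).comp
    V.subtype
  have hρ : Function.Injective ρ := by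
    rw [injective_iff_map_eq_zero]
    rintro ⟨η, hη⟩ h0
    have hT0 : ∀ q : Fin v × Fin L, q.1 ∉ Set.range z → (q.1 = b → l - e ≤ (q.2 : ℕ)) →
        η q = 0 := by
      intro q hq1 hq2
      have := congrFun h0 ⟨q, Finset.mem_filter.2 ⟨Finset.mem_univ _, hq1, hq2⟩⟩
      exact this
    have hjt : ∀ (P : MvPolynomial (Fin v) F) (l : ℕ), l ≤ L →
        (PowerSeries.X : PowerSeries κ) ^ l ∣ ev x P →
        (PowerSeries.X : PowerSeries κ) ^ l ∣
          ∑ a, φ (pderiv a P) * arc (fun μ => η (a, μ)) := fun P l hl hP =>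
      jet_tangent x (fun a μ => η (a, μ)) hη P l hl hP
    have h1 := ta_cr2 z (fun a => φ (pderiv a g)) (fun i a => φ (pderiv a (f i)))
      (fun a => arc (fun μ => η (a, μ))) L l PowerSeries.X hl
      (fun i => hjt (f i) L le_rfl (hx i)) (hjt g l hl hg)
    have h2 : ∑ a, ((Matrix.of fun i j => φ (pderiv (z j) (f i))).det * φ (pderiv a g) -
        ∑ j, ∑ i, φ (pderiv (z j) g) *
          (Matrix.of fun i j => φ (pderiv (z j) (f i))).adjugate j i * φ (pderiv a (f i))) *
          arc (fun μ => η (a, μ)) =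
        PowerSeries.X ^ e * ∑ a, u a * arc (fun μ => η (a, μ)) := by
      rw [Finset.mul_sum]
      refine Finset.sum_congr rfl fun a _ => ?_
      rw [← ta_DD, ← hev, hu a]
      ring
    have h3 : ∑ a, u a * arc (fun μ => η (a, μ)) = u b * arc (fun μ => η (b, μ)) := by
      apply Finset.sum_eq_single b
      · intro a _ hab
        by_cases h : a ∈ Set.range z
        · obtain ⟨j, rfl⟩ := h
          rw [hu0, zero_mul]
        · rw [ta_arc0 (fun μ => η (a, μ)) (fun μ => hT0 (a, μ) h fun h' => absurd h' hab),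
            mul_zero]
      · intro h; exact absurd (Finset.mem_univ _) h
    have h4 : (PowerSeries.X : PowerSeries κ) ^ (l - e) ∣ arc (fun μ => η (b, μ)) := by
      have h5 : (PowerSeries.X : PowerSeries κ) ^ l ∣
          PowerSeries.X ^ e * (u b * arc (fun μ => η (b, μ))) := by
        rw [← h3, ← h2]; exact h1
      have h6 : (PowerSeries.X : PowerSeries κ) ^ l =
          PowerSeries.X ^ e * PowerSeries.X ^ (l - e) := by
        rw [← pow_add]; congr 1; omega
      rw [h6] at h5
      have h7 := (mul_dvd_mul_iff_left (pow_ne_zero e PowerSeries.X_ne_zero)).1 h5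
      exact (IsUnit.dvd_mul_left hub).1 h7
    have h8 : ∀ a, a ∉ Set.range z → ∀ μ, η (a, μ) = 0 := by
      intro a ha μ
      by_cases hab : a = b
      · subst hab
        by_cases hμ : l - e ≤ (μ : ℕ)
        · exact hT0 (a, μ) ha fun _ => hμ
        · rw [PowerSeries.X_pow_dvd_iff] at h4
          have := h4 μ (by omega)
          rwa [ta_arc] at this
      · exact hT0 (a, μ) ha fun h => absurd h hab
    have h9 : ∀ j μ, η (z j, μ) = 0 := by
      intro j μ
      have h10 := ta_cr3 z hz (fun i a => φ (pderiv a (f i)))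
        (fun a => arc (fun μ => η (a, μ))) ((PowerSeries.X : PowerSeries κ) ^ L)
        (fun i => hjt (f i) L le_rfl (hx i)) (fun a ha => ta_arc0 _ (h8 a ha)) j
      rw [← ta_jac] at h10
      have h11 := (IsUnit.dvd_mul_left hJu).1 h10
      rw [PowerSeries.X_pow_dvd_iff] at h11
      have := h11 μ μ.2
      rwa [ta_arc] at this
    apply Subtype.ext
    funext q
    obtain ⟨a, μ⟩ := q
    by_cases h : a ∈ Set.range z
    · obtain ⟨j, rfl⟩ := h
      exact h9 j μ
    · exact h8 a h μ
  have h1 := LinearMap.finrank_le_finrank_of_injective hρ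
  rw [Module.finrank_fintype_fun_eq_card, Fintype.card_coe] at h1
  omega

end Pool.Agent.OPT.TA

namespace Pool.Agent.OPT

alias tan_lemma := TA.tan_lemma_pr

end Pool.Agent.OPT
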