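import Pool.Agent.Lib_helper80.OPF.Defs

/-!
# OPN, block DV: the derivations `D_a`
-/

namespace Pool.Agent.OPT.DV

open MvPolynomial Pool.Agent.KSS Pool.Agent.KSX

section DV

variable {F : Type} [Field F] {k v : ℕ} (f : Fin k → MvPolynomial (Fin v) F) (z : Fin k → Fin v)

theorem DD_add_pr (a : Fin v) (g h : MvPolynomial (Fin v) F) :
    DD f z a (g + h) = DD f z a g + DD f z a h := by
  unfold DD
  simp only [map_add, add_mul, mul_add, Finset.sum_add_distrib]
  ring

theorem DD_mul_pr (a : Fin v) (g h : MvPolynomial (Fin v) F) :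
    DD f z a (g * h) = DD f z a g * h + g * DD f z a h := by
  unfold DD
  simp only [Derivation.leibniz, smul_eq_mul, add_mul, mul_add, Finset.sum_add_distrib,
    sub_mul, mul_sub, Finset.sum_mul, Finset.mul_sum]
  have h1 : (∑ x, ∑ x_1, g * pderiv (z x) h *
      (Matrix.of fun i j => pderiv (z j) (f i)).adjugate x x_1 * pderiv a (f x_1)) =
      ∑ x, ∑ x_1, g * (pderiv (z x) h *
      (Matrix.of fun i j => pderiv (z j) (f i)).adjugate x x_1 * pderiv a (f x_1)) := by
    refine Finset.sum_congr rfl fun x _ => Finset.sum_congr rfl fun y _ => ?_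
    ring
  have h2 : (∑ x, ∑ x_1, h * pderiv (z x) g *
      (Matrix.of fun i j => pderiv (z j) (f i)).adjugate x x_1 * pderiv a (f x_1)) =
      ∑ x, ∑ x_1, pderiv (z x) g *
      (Matrix.of fun i j => pderiv (z j) (f i)).adjugate x x_1 * pderiv a (f x_1) * h := by
    refine Finset.sum_congr rfl fun x _ => Finset.sum_congr rfl fun y _ => ?_
    ring
  rw [h1, h2]
  ring

theorem DD_C_pr (a : Fin v) (c : F) : DD f z a (C c) = 0 := by
  unfold DD
  simp

/-- `D_a f_i = 0`: `∑_j ∂_{z j} f_i adj(M)_{j l} = (M adj M)_{i l} = δ_il J` -/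
theorem DD_f_pr (a : Fin v) (i : Fin k) : DD f z a (f i) = 0 := by
  unfold DD
  have h1 : ∀ l, ∑ j, pderiv (z j) (f i) *
      (Matrix.adjugate (Matrix.of fun i j => pderiv (z j) (f i)) j l) =
      if i = l then jac f z else 0 := by
    intro l
    have h := congrFun (congrFun (Matrix.mul_adjugate (Matrix.of fun i j => pderiv (z j) (f i))) i) l
    rw [Matrix.mul_apply] at h
    rw [Matrix.smul_apply, Matrix.one_apply, smul_eq_mul, mul_ite, mul_one, mul_zero] at h
    exact h
  rw [Finset.sum_comm]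
  have h2 : ∀ l, ∑ j, pderiv (z j) (f i) *
      (Matrix.adjugate (Matrix.of fun i j => pderiv (z j) (f i)) j l) * pderiv a (f l) =
      if i = l then jac f z * pderiv a (f l) else 0 := by
    intro l
    rw [← Finset.sum_mul, h1 l, ite_mul, zero_mul]
  rw [Finset.sum_congr rfl fun l _ => h2 l, Finset.sum_ite_eq, if_pos (Finset.mem_univ _),
    sub_self]

theorem DD_X_pr (hz : Function.Injective z) (a b : Fin v) (ha : a ∉ Set.range z)
    (hb : b ∉ Set.range z) : DD f z a (X b) = if a = b then jac f z else 0 := by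
  unfold DD
  have h1 : ∀ j, pderiv (z j) (X b : MvPolynomial (Fin v) F) = 0 := by
    intro j
    exact pderiv_X_of_ne fun h => hb ⟨j, h.symm⟩
  simp only [h1, zero_mul, Finset.sum_const_zero, sub_zero]
  by_cases hab : a = b
  · subst hab
    rw [pderiv_X_self, mul_one, if_pos rfl]
  · rw [pderiv_X_of_ne (Ne.symm hab), mul_zero, if_neg hab]

theorem DD_mem_pr (a : Fin v) (g : MvPolynomial (Fin v) F) (hg : g ∈ II f) :
    DD f z a g ∈ II f := by
  induction hg using Submodule.span_induction with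
  | mem x hx =>
    obtain ⟨i, rfl⟩ := hx
    rw [DD_f_pr]
    exact Ideal.zero_mem _
  | zero =>
    have h : DD f z a 0 = 0 := by
      have := DD_C_pr f z a 0
      rwa [map_zero] at this
    rw [h]
    exact Ideal.zero_mem _
  | add x y _ _ hx hy =>
    rw [DD_add_pr]
    exact Ideal.add_mem _ hx hy
  | smul c x hxm hx =>
    rw [smul_eq_mul, DD_mul_pr]
    exact Ideal.add_mem _ (Ideal.mul_mem_left _ _ hxm) (Ideal.mul_mem_left _ _ hx)

theorem DD_pow_char_pr (p : ℕ) [Fact p.Prime] [CharP F p] (a : Fin v)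
    (g h : MvPolynomial (Fin v) F) : DD f z a (g ^ p * h) = g ^ p * DD f z a h := by
  have h0 : ((p : ℕ) : MvPolynomial (Fin v) F) = 0 := CharP.cast_eq_zero _ p
  have h1 : ∀ b : Fin v, pderiv b (g ^ p) = 0 := by
    intro b
    rw [Derivation.leibniz_pow, nsmul_eq_mul, h0, zero_mul]
  have h2 : DD f z a (g ^ p) = 0 := by
    unfold DD
    simp only [h1, mul_zero, zero_mul, Finset.sum_const_zero, sub_zero]
  rw [DD_mul_pr, h2, zero_mul, zero_add]

end DV


end Pool.Agent.OPT.DV

namespace Pool.Agent.OPT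

alias DD_add := DV.DD_add_pr
alias DD_mul := DV.DD_mul_pr
alias DD_C := DV.DD_C_pr
alias DD_f := DV.DD_f_pr
alias DD_X := DV.DD_X_pr
alias DD_mem := DV.DD_mem_pr
alias DD_pow_char := DV.DD_pow_char_pr

end Pool.Agent.OPT
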