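import Pool.Agent.Lib_helper80.OPF.Defs
import Pool.Agent.Lib_helper80.OPF.DV

/-! OPN, block TH: the operator Theta. -/

namespace Pool.Agent.OPT.TH

open MvPolynomial Pool.Agent.KSS Pool.Agent.KSX

/-- the fold that defines `Theta` -/
noncomputable def fold (p : ℕ) {F : Type} [Field F] {k v : ℕ}
    (f : Fin k → MvPolynomial (Fin v) F) (z : Fin k → Fin v) (l : List (Fin v))
    (h : MvPolynomial (Fin v) F) : MvPolynomial (Fin v) F :=
  l.foldr (fun a g => (dE p f z a)^[p - 1] g) h

/-- the list of variables not in the range of `z` -/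
noncomputable def lst {k v : ℕ} (z : Fin k → Fin v) : List (Fin v) :=
  open Classical in (Finset.univ.filter fun a => a ∉ Set.range z).toList

theorem theta_eq (p : ℕ) {F : Type} [Field F] {k v : ℕ}
    (f : Fin k → MvPolynomial (Fin v) F) (z : Fin k → Fin v) (h : MvPolynomial (Fin v) F) :
    Theta p f z h = fold p f z (lst z) h := rfl

theorem mem_lst {k v : ℕ} (z : Fin k → Fin v) (a : Fin v) : a ∈ lst z ↔ a ∉ Set.range z := by
  unfold lst
  rw [Finset.mem_toList, Finset.mem_filter]
  simp

theorem nodup_lst {k v : ℕ} (z : Fin k → Fin v) : (lst z).Nodup := by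
  unfold lst
  exact Finset.nodup_toList _

theorem length_lst {k v : ℕ} (z : Fin k → Fin v) (hz : Function.Injective z) :
    (lst z).length = v - k := by
  classical
  unfold lst
  rw [Finset.length_toList]
  have h1 : (Finset.univ.filter fun a => a ∉ Set.range z) =
      (Finset.univ.image z)ᶜ := by
    ext a
    simp
  have h2 : (Finset.univ.image z)ᶜ.card = v - k := by
    rw [Finset.card_compl, Finset.card_image_of_injective _ hz, Finset.card_univ,
      Fintype.card_fin, Fintype.card_fin]
  rw [← h2]
  congr 1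

section

variable {F : Type} [Field F] {k v : ℕ} (f : Fin k → MvPolynomial (Fin v) F) (z : Fin k → Fin v)

theorem dE_add (p : ℕ) (a : Fin v) (g h : MvPolynomial (Fin v) F) :
    dE p f z a (g + h) = dE p f z a g + dE p f z a h := by
  unfold dE
  rw [DD_add, mul_add]

/-- `dE` as an additive map -/
noncomputable def dEh (p : ℕ) (a : Fin v) : MvPolynomial (Fin v) F →+ MvPolynomial (Fin v) F :=
  AddMonoidHom.mk' (dE p f z a) (dE_add f z p a)

theorem dE_nat (p : ℕ) (a : Fin v) (n : ℕ) (g : MvPolynomial (Fin v) F) :
    dE p f z a ((n : MvPolynomial (Fin v) F) * g) = n * dE p f z a g := by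
  have h := map_nsmul (dEh f z p a) n g
  rw [nsmul_eq_mul, nsmul_eq_mul] at h
  exact h

theorem iter_add (p : ℕ) (a : Fin v) (n : ℕ) (g h : MvPolynomial (Fin v) F) :
    (dE p f z a)^[n] (g + h) = (dE p f z a)^[n] g + (dE p f z a)^[n] h := by
  induction n generalizing g h with
  | zero => rfl
  | succ n ih => rw [Function.iterate_succ_apply, Function.iterate_succ_apply,
      Function.iterate_succ_apply, dE_add, ih]

theorem fold_add (p : ℕ) (l : List (Fin v)) (g h : MvPolynomial (Fin v) F) :
    fold p f z l (g + h) = fold p f z l g + fold p f z l h := by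
  unfold fold
  induction l with
  | nil => rfl
  | cons a l ih => rw [List.foldr_cons, List.foldr_cons, List.foldr_cons, ih, iter_add]

theorem fold_mem (p : ℕ) (l : List (Fin v)) (g : MvPolynomial (Fin v) F) (hg : g ∈ II f) :
    fold p f z l g ∈ II f := by
  unfold fold
  induction l with
  | nil => exact hg
  | cons a l ih =>
    rw [List.foldr_cons]
    have h1 : ∀ (n : ℕ) (h : MvPolynomial (Fin v) F), h ∈ II f →
        (dE p f z a)^[n] h ∈ II f := by
      intro n
      induction n with
      | zero => exact fun h hh => hh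
      | succ n ihn =>
        intro h hh
        rw [Function.iterate_succ_apply]
        apply ihn
        unfold dE
        exact Ideal.mul_mem_left _ _ (DD_mem f z a h hh)
    exact h1 _ _ ih

end

theorem theta_add_pr (p : ℕ) {F : Type} [Field F] {k v : ℕ}
    (f : Fin k → MvPolynomial (Fin v) F) (z : Fin k → Fin v) (g h : MvPolynomial (Fin v) F) :
    Theta p f z (g + h) = Theta p f z g + Theta p f z h := by
  rw [theta_eq, theta_eq, theta_eq, fold_add]

theorem theta_mem_pr (p : ℕ) {F : Type} [Field F] {k v : ℕ}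
    (f : Fin k → MvPolynomial (Fin v) F) (z : Fin k → Fin v) (g : MvPolynomial (Fin v) F)
    (hg : g ∈ II f) : Theta p f z g ∈ II f := by
  rw [theta_eq]
  exact fold_mem f z p _ g hg

theorem theta_ord_pr (p : ℕ) [Fact p.Prime] {F κ : Type} [Field F] [Field κ] [Algebra F κ]
    {k v : ℕ}
    (f : Fin k → MvPolynomial (Fin v) F) (z : Fin k → Fin v) (hz : Function.Injective z)
    {L : ℕ} (x : Fin v → Fin L → κ) (A : ℕ)
    (h : ∀ (g : MvPolynomial (Fin v) F) (l : ℕ), l ≤ L →
      (PowerSeries.X : PowerSeries κ) ^ l ∣ ev x g → ∀ a, a ∉ Set.range z →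
      (PowerSeries.X : PowerSeries κ) ^ (l - A) ∣ ev x (DD f z a g))
    (g : MvPolynomial (Fin v) F) (l : ℕ) (hl : l ≤ L)
    (hg : (PowerSeries.X : PowerSeries κ) ^ l ∣ ev x g) :
    (PowerSeries.X : PowerSeries κ) ^ (l - (v - k) * (p - 1) * A) ∣ ev x (Theta p f z g) := by
  have h1 : ∀ (n : ℕ) (a : Fin v), a ∉ Set.range z → ∀ (g : MvPolynomial (Fin v) F) (l : ℕ),
      l ≤ L → (PowerSeries.X : PowerSeries κ) ^ l ∣ ev x g →
      (PowerSeries.X : PowerSeries κ) ^ (l - n * A) ∣ ev x ((dE p f z a)^[n] g) := by
    intro n a ha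
    induction n with
    | zero =>
      intro g l _ hg
      rw [zero_mul, Nat.sub_zero]
      exact hg
    | succ n ih =>
      intro g l hl hg
      rw [Function.iterate_succ_apply]
      have h2 : (PowerSeries.X : PowerSeries κ) ^ (l - A) ∣ ev x (dE p f z a g) := by
        have h3 : ev x (dE p f z a g) = ev x (jac f z ^ (p - 1)) * ev x (DD f z a g) := by
          unfold dE ev
          rw [map_mul]
        rw [h3]
        exact (h g l hl hg a ha).mul_left _
      have h4 := ih _ (l - A) (by omega) h2
      have h5 : l - A - n * A = l - (n + 1) * A := by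
        rw [Nat.sub_sub]
        congr 1
        ring
      rw [h5] at h4
      exact h4
  have h2 : ∀ (s : List (Fin v)), (∀ a ∈ s, a ∉ Set.range z) →
      (PowerSeries.X : PowerSeries κ) ^ (l - s.length * (p - 1) * A) ∣ ev x (fold p f z s g) := by
    intro s
    induction s with
    | nil =>
      intro _
      rw [List.length_nil, zero_mul, zero_mul, Nat.sub_zero]
      exact hg
    | cons a s ih =>
      intro hs
      have h3 := ih (fun b hb => hs b (List.mem_cons_of_mem _ hb))
      have h4 := h1 (p - 1) a (hs a (List.mem_cons_self ..)) _ _ (by omega) h3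
      have h5 : l - s.length * (p - 1) * A - (p - 1) * A =
          l - (a :: s).length * (p - 1) * A := by
        rw [Nat.sub_sub, List.length_cons]
        congr 1
        ring
      rw [h5] at h4
      exact h4
  have h3 := h2 (lst z) (fun a ha => (mem_lst z a).1 ha)
  rw [length_lst z hz] at h3
  rw [theta_eq]
  exact h3

section extract

variable {F : Type} [Field F] {k v : ℕ} (f : Fin k → MvPolynomial (Fin v) F) (z : Fin k → Fin v)

theorem DD_pow (a : Fin v) (g : MvPolynomial (Fin v) F) (n : ℕ) :
    DD f z a (g ^ n) = n * g ^ (n - 1) * DD f z a g := by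
  induction n with
  | zero =>
    have h1 : DD f z a (1 : MvPolynomial (Fin v) F) = 0 := by
      rw [← C_1]
      exact DD_C f z a 1
    rw [pow_zero, h1]
    simp
  | succ n ih =>
    rw [pow_succ, DD_mul, ih]
    rcases Nat.eq_zero_or_pos n with h | h
    · subst h
      simp
    · have h2 : g ^ n = g ^ (n - 1) * g := by
        rw [← pow_succ]
        congr 1
        omega
      rw [Nat.add_sub_cancel, h2]
      push_cast
      ring

theorem DD_prod_zero (a : Fin v) (s : Finset (Fin v)) (g : Fin v → MvPolynomial (Fin v) F)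
    (h : ∀ b ∈ s, DD f z a (g b) = 0) : DD f z a (∏ b ∈ s, g b) = 0 := by
  classical
  induction s using Finset.induction_on with
  | empty =>
    rw [Finset.prod_empty, ← C_1]
    exact DD_C f z a 1
  | insert b s hb ih =>
    rw [Finset.prod_insert hb, DD_mul, h b (Finset.mem_insert_self _ _),
      ih (fun c hc => h c (Finset.mem_insert_of_mem hc)), zero_mul, mul_zero, add_zero]

/-- monomials -/
noncomputable def mono (B : Fin v → ℕ) : MvPolynomial (Fin v) F := ∏ a, X a ^ B a

theorem mono_split (B : Fin v → ℕ) (a : Fin v) (m : ℕ) :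
    (mono (Function.update B a m) : MvPolynomial (Fin v) F) =
      X a ^ m * ∏ b ∈ Finset.univ.erase a, X b ^ B b := by
  classical
  unfold mono
  rw [← Finset.mul_prod_erase Finset.univ _ (Finset.mem_univ a), Function.update_self]
  congr 1
  apply Finset.prod_congr rfl
  intro b hb
  rw [Function.update_of_ne (Finset.ne_of_mem_erase hb)]

theorem DD_mono (hz : Function.Injective z) (a : Fin v) (ha : a ∉ Set.range z)
    (B : Fin v → ℕ) (hB : ∀ j, B (z j) = 0) :
    DD f z a (mono B) = (B a : MvPolynomial (Fin v) F) * jac f z *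
      mono (Function.update B a (B a - 1)) := by
  classical
  have h1 : (mono B : MvPolynomial (Fin v) F) =
      X a ^ B a * ∏ b ∈ Finset.univ.erase a, X b ^ B b := by
    rw [← mono_split, Function.update_eq_self]
  have h2 : DD f z a (∏ b ∈ Finset.univ.erase a, X b ^ B b) = 0 := by
    apply DD_prod_zero
    intro b hb
    by_cases hbz : b ∈ Set.range z
    · obtain ⟨j, rfl⟩ := hbz
      rw [hB, pow_zero, ← C_1]
      exact DD_C f z a 1
    · rw [DD_pow, DD_X f z hz a b ha hbz, if_neg (Finset.ne_of_mem_erase hb).symm, mul_zero]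
  rw [h1, DD_mul, h2, mul_zero, add_zero, DD_pow, DD_X f z hz a a ha ha, if_pos rfl, mono_split]
  ring

variable (p : ℕ) [hp : Fact p.Prime] [CharP F p]

theorem dE_mono (hz : Function.Injective z) (a : Fin v) (ha : a ∉ Set.range z)
    (B : Fin v → ℕ) (hB : ∀ j, B (z j) = 0) (u : MvPolynomial (Fin v) F) :
    dE p f z a (u ^ p * mono B) = (B a : MvPolynomial (Fin v) F) *
      ((u * jac f z) ^ p * mono (Function.update B a (B a - 1))) := by
  unfold dE
  rw [DD_pow_char, DD_mono f z hz a ha B hB]
  have h1 : (u * jac f z) ^ p = u ^ p * (jac f z ^ (p - 1) * jac f z) := by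
    rw [mul_pow, ← pow_succ, Nat.sub_add_cancel hp.out.one_le]
  rw [h1]
  ring

omit hp [CharP F p] in
theorem iter_nat (a : Fin v) (n N : ℕ) (g : MvPolynomial (Fin v) F) :
    (dE p f z a)^[n] ((N : MvPolynomial (Fin v) F) * g) = N * (dE p f z a)^[n] g := by
  induction n with
  | zero => rfl
  | succ n ih => rw [Function.iterate_succ_apply', ih, dE_nat, Function.iterate_succ_apply']

theorem iter_mono (hz : Function.Injective z) (a : Fin v) (ha : a ∉ Set.range z)
    (B : Fin v → ℕ) (hB : ∀ j, B (z j) = 0) (u : MvPolynomial (Fin v) F) (n : ℕ) :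
    (dE p f z a)^[n] (u ^ p * mono B) = ((B a).descFactorial n : MvPolynomial (Fin v) F) *
      ((u * jac f z ^ n) ^ p * mono (Function.update B a (B a - n))) := by
  induction n with
  | zero =>
    rw [Nat.descFactorial_zero, Nat.cast_one, one_mul, pow_zero, mul_one, Nat.sub_zero,
      Function.update_eq_self]
    rfl
  | succ n ih =>
    rw [Function.iterate_succ_apply', ih, dE_nat, dE_mono f z p hz a ha]
    · rw [Function.update_self, Function.update_idem, Nat.descFactorial_succ, Nat.sub_sub]
      push_cast
      ring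
    · intro j
      rw [Function.update_of_ne (fun h => ha ⟨j, h⟩), hB]

theorem fold_mono (hz : Function.Injective z) (B : Fin v → ℕ) (hB : ∀ j, B (z j) = 0)
    (u : MvPolynomial (Fin v) F) (l : List (Fin v)) (hl : ∀ a ∈ l, a ∉ Set.range z)
    (hnd : l.Nodup) :
    fold p f z l (u ^ p * mono B) =
      (((l.map fun a => (B a).descFactorial (p - 1)).prod : ℕ) : MvPolynomial (Fin v) F) *
      ((u * jac f z ^ (l.length * (p - 1))) ^ p *
        mono (fun b => if b ∈ l then B b - (p - 1) else B b)) := by
  induction l with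
  | nil =>
    rw [List.map_nil, List.prod_nil, List.length_nil, zero_mul, pow_zero, mul_one, Nat.cast_one,
      one_mul]
    simp only [List.not_mem_nil, if_false]
    rfl
  | cons a l ih =>
    have hl' : ∀ b ∈ l, b ∉ Set.range z := fun b hb => hl b (List.mem_cons_of_mem _ hb)
    have ha := hl a (List.mem_cons_self ..)
    rw [List.nodup_cons] at hnd
    have h1 : fold p f z (a :: l) (u ^ p * mono B) =
        (dE p f z a)^[p - 1] (fold p f z l (u ^ p * mono B)) := rfl
    rw [h1, ih hl' hnd.2, iter_nat, iter_mono f z p hz a ha]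
    · rw [if_neg hnd.1, List.map_cons, List.prod_cons, List.length_cons]
      have h2 : (Function.update (fun b => if b ∈ l then B b - (p - 1) else B b) a
          (B a - (p - 1))) = fun b => if b ∈ a :: l then B b - (p - 1) else B b := by
        funext b
        by_cases hb : b = a
        · subst hb
          rw [Function.update_self, if_pos (List.mem_cons_self ..)]
        · rw [Function.update_of_ne hb]
          simp only [List.mem_cons, hb, false_or]
      rw [h2]
      push_cast
      ring
    · intro j
      rw [if_neg (fun h => hl' _ h ⟨j, rfl⟩), hB]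

omit [CharP F p] in
theorem dvd_desc {b : ℕ} (hb : b ≠ p - 1) (hb2 : b ≤ 2 * p - 2) :
    p ∣ b.descFactorial (p - 1) := by
  have hp1 := hp.out.one_lt
  rcases Nat.lt_or_ge b (p - 1) with h | h
  · rw [Nat.descFactorial_of_lt h]
    exact dvd_zero _
  · have h1 := Nat.factorial_mul_descFactorial h
    have h2 : p ∣ b.factorial := hp.out.dvd_factorial.2 (by omega)
    rw [← h1] at h2
    rcases (hp.out.dvd_mul).1 h2 with h3 | h3
    · have := hp.out.dvd_factorial.1 h3
      omega
    · exact h3

theorem wilson_cast : (((p - 1).factorial : ℕ) : MvPolynomial (Fin v) F) = -1 := by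
  have h1 := ZMod.wilsons_lemma p
  have h2 : ((((p - 1).factorial + 1 : ℕ)) : ZMod p) = 0 := by
    push_cast
    rw [h1]
    ring
  rw [ZMod.natCast_eq_zero_iff] at h2
  have h3 : ((((p - 1).factorial + 1 : ℕ)) : MvPolynomial (Fin v) F) = 0 := by
    obtain ⟨c, hc⟩ := h2
    have h4 : ((p : ℕ) : MvPolynomial (Fin v) F) = 0 := by
      rw [← map_natCast (C : F →+* MvPolynomial (Fin v) F), CharP.cast_eq_zero, map_zero]
    rw [hc, Nat.cast_mul, h4, zero_mul]
  push_cast at h3
  exact eq_neg_of_add_eq_zero_left h3

end extract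

theorem theta_extract_pr (p : ℕ) [Fact p.Prime] {F : Type} [Field F] [CharP F p] {k v : ℕ}
    (f : Fin k → MvPolynomial (Fin v) F) (z : Fin k → Fin v) (hz : Function.Injective z)
    (c : AI p z → MvPolynomial (Fin v) F) (α0 : AI p z) :
    Theta p f z (yco p z α0 * ∑ α, c α ^ p * ymo p z α) =
      (-1) ^ (v - k) * jac f z ^ (p * ((v - k) * (p - 1))) * c α0 ^ p := by
  classical
  have hp1 := (Fact.out : p.Prime).one_lt
  set Bf : AI p z → Fin v → ℕ := fun α b =>
    if b ∈ Set.range z then 0 else (p - 1 - (α0.1 b : ℕ)) + (α.1 b : ℕ) with hBf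
  have hB0 : ∀ α j, Bf α (z j) = 0 := by
    intro α j
    simp only [hBf]
    rw [if_pos ⟨j, rfl⟩]
  have h1 : ∀ α, yco p z α0 * (c α ^ p * ymo p z α) = c α ^ p * mono (Bf α) := by
    intro α
    have h2 : yco p z α0 * ymo p z α = (mono (Bf α) : MvPolynomial (Fin v) F) := by
      unfold yco ymo mono
      rw [← Finset.prod_mul_distrib]
      apply Finset.prod_congr rfl
      intro b _
      simp only [hBf]
      by_cases hb : b ∈ Set.range z
      · rw [if_pos hb, if_pos hb, one_mul]
        obtain ⟨j, rfl⟩ := hb
        rw [α.2 j]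
      · rw [if_neg hb, if_neg hb, pow_add]
    rw [← h2]
    ring
  have h3 : Theta p f z (yco p z α0 * ∑ α, c α ^ p * ymo p z α) =
      ∑ α, fold p f z (lst z) (c α ^ p * mono (Bf α)) := by
    rw [theta_eq, Finset.mul_sum, Finset.sum_congr rfl fun α _ => h1 α]
    exact map_sum (AddMonoidHom.mk' (fold p f z (lst z)) (fold_add f z p (lst z))) _ _
  rw [h3, Finset.sum_eq_single α0]
  · rw [fold_mono f z p hz (Bf α0) (hB0 α0) (c α0) (lst z) (fun a ha => (mem_lst z a).1 ha)
      (nodup_lst z), length_lst z hz]
    have h4 : ∀ a ∈ lst z, Bf α0 a = p - 1 := by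
      intro a ha
      simp only [hBf]
      rw [if_neg ((mem_lst z a).1 ha)]
      have := (α0.1 a).2
      omega
    have h5 : ((lst z).map fun a => (Bf α0 a).descFactorial (p - 1)).prod =
        ((p - 1).factorial) ^ (v - k) := by
      rw [List.map_congr_left (g := fun _ => (p - 1).factorial) (fun a ha => by
        rw [h4 a ha, Nat.descFactorial_self]), List.map_const', List.prod_replicate,
        length_lst z hz]
    have h6 : (mono (fun b => if b ∈ lst z then Bf α0 b - (p - 1) else Bf α0 b) :
        MvPolynomial (Fin v) F) = 1 := by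
      unfold mono
      apply Finset.prod_eq_one
      intro b _
      beta_reduce
      by_cases hb : b ∈ lst z
      · rw [if_pos hb, h4 b hb, Nat.sub_self, pow_zero]
      · rw [if_neg hb]
        rw [mem_lst, not_not] at hb
        simp only [hBf]
        rw [if_pos hb, pow_zero]
    rw [h5, h6, Nat.cast_pow, wilson_cast]
    ring
  · intro α _ hα
    rw [fold_mono f z p hz (Bf α) (hB0 α) (c α) (lst z) (fun a ha => (mem_lst z a).1 ha)
      (nodup_lst z)]
    have h4 : ∃ a, α.1 a ≠ α0.1 a := by
      by_contra hcon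
      push Not at hcon
      exact hα (Subtype.ext (funext hcon))
    obtain ⟨a, ha⟩ := h4
    have haz : a ∉ Set.range z := by
      rintro ⟨j, rfl⟩
      apply ha
      apply Fin.ext
      rw [α.2 j, α0.2 j]
    have h5 : p ∣ ((lst z).map fun a => (Bf α a).descFactorial (p - 1)).prod := by
      refine dvd_trans ?_ (List.dvd_prod (List.mem_map.2 ⟨a, (mem_lst z a).2 haz, rfl⟩))
      have hb1 := (α0.1 a).2
      have hb2 := (α.1 a).2
      have hb3 : (α.1 a : ℕ) ≠ (α0.1 a : ℕ) := fun h => ha (Fin.ext h)
      apply dvd_desc p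
      · simp only [hBf]
        rw [if_neg haz]
        omega
      · simp only [hBf]
        rw [if_neg haz]
        omega
    obtain ⟨m, hm⟩ := h5
    rw [hm, Nat.cast_mul]
    have h6 : ((p : ℕ) : MvPolynomial (Fin v) F) = 0 := by
      rw [← map_natCast (C : F →+* MvPolynomial (Fin v) F), CharP.cast_eq_zero, map_zero]
    rw [h6, zero_mul, zero_mul]
  · intro h
    exact absurd (Finset.mem_univ _) h

end Pool.Agent.OPT.TH

namespace Pool.Agent.OPT

alias theta_extract := TH.theta_extract_pr
alias theta_add := TH.theta_add_pr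
alias theta_mem := TH.theta_mem_pr
alias theta_ord := TH.theta_ord_pr

end Pool.Agent.OPT
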