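import Pool.Agent.Lib_helper80.OPF.Defs
import Pool.Agent.Lib_helper80.OPF.PS
import Pool.Agent.Lib_helper80.OPF.TA
import Pool.Agent.Lib_helper80.OPF.TH

/-!
# OPN block OR: orders of the operators Psi on a jet
-/

namespace Pool.Agent.OPT.OR

open MvPolynomial Pool.Agent.KSS Pool.Agent.KSX

theorem ev_mul {F κ : Type} [Field F] [Field κ] [Algebra F κ] {v L : ℕ}
    (x : Fin v → Fin L → κ) (g h : MvPolynomial (Fin v) F) :
    ev x (g * h) = ev x g * ev x h := by
  unfold ev
  rw [map_mul]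

theorem ev_add {F κ : Type} [Field F] [Field κ] [Algebra F κ] {v L : ℕ}
    (x : Fin v → Fin L → κ) (g h : MvPolynomial (Fin v) F) :
    ev x (g + h) = ev x g + ev x h := by
  unfold ev
  rw [map_add]

theorem ev_pow {F κ : Type} [Field F] [Field κ] [Algebra F κ] {v L : ℕ}
    (x : Fin v → Fin L → κ) (g : MvPolynomial (Fin v) F) (n : ℕ) :
    ev x (g ^ n) = ev x g ^ n := by
  unfold ev
  rw [map_pow]

theorem ev_neg_one_pow {F κ : Type} [Field F] [Field κ] [Algebra F κ] {v L : ℕ}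
    (x : Fin v → Fin L → κ) (n : ℕ) :
    ev x ((-1 : MvPolynomial (Fin v) F) ^ n) = (-1) ^ n := by
  unfold ev
  rw [map_pow, map_neg, map_one]

/-- polynomials in the ideal have order at least `L` -/
theorem ev_mem {F κ : Type} [Field F] [Field κ] [Algebra F κ] {k v L : ℕ}
    (f : Fin k → MvPolynomial (Fin v) F) (x : Fin v → Fin L → κ)
    (hx : ∀ i, (PowerSeries.X : PowerSeries κ) ^ L ∣ ev x (f i))
    (g : MvPolynomial (Fin v) F) (hg : g ∈ II f) :
    (PowerSeries.X : PowerSeries κ) ^ L ∣ ev x g := by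
  have h : II f ≤ (Ideal.span {(PowerSeries.X : PowerSeries κ) ^ L}).comap
      (aeval (R := F) fun a => arc (x a)) := by
    refine Ideal.span_le.2 ?_
    rintro _ ⟨i, rfl⟩
    rw [SetLike.mem_coe, Ideal.mem_comap, Ideal.mem_span_singleton]
    exact hx i
  have h1 := h hg
  rw [Ideal.mem_comap, Ideal.mem_span_singleton] at h1
  exact h1

/-- a power of `X` dividing `u^n ψ^p`, `u` a unit -/
theorem order_root {κ : Type} [Field κ] (u ψ : PowerSeries κ)
    (hu : IsUnit u) (p m N : ℕ) (hp : 0 < p)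
    (h : (PowerSeries.X : PowerSeries κ) ^ N ∣ u * ψ ^ p) (hN : p * m ≤ N + (p - 1)) :
    (PowerSeries.X : PowerSeries κ) ^ m ∣ ψ := by
  have h1 : (PowerSeries.X : PowerSeries κ) ^ N ∣ ψ ^ p := by
    rwa [hu.dvd_mul_left] at h
  by_cases h0 : ψ = 0
  · rw [h0]
    exact dvd_zero _
  rw [PowerSeries.X_pow_dvd_iff]
  intro i hi
  apply PowerSeries.coeff_of_lt_order
  by_contra hlt
  rw [not_lt] at hlt
  have hne : ψ.order ≠ ⊤ := fun h => h0 (PowerSeries.order_eq_top.1 h)
  obtain ⟨o, ho⟩ := ENat.ne_top_iff_exists.1 hne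
  rw [← ho] at hlt
  have hoi : o ≤ i := by exact_mod_cast hlt
  -- the order of `ψ^p` is `p o`
  have h2 : (ψ ^ p).order = ((p * o : ℕ) : ℕ∞) := by
    rw [PowerSeries.order_pow, ← ho, nsmul_eq_mul]
    push_cast
    rfl
  have h3 : (N : ℕ∞) ≤ (ψ ^ p).order := by
    refine PowerSeries.nat_le_order _ _ fun j hj => ?_
    exact (PowerSeries.X_pow_dvd_iff.1 h1) j hj
  rw [h2] at h3
  have h4 : N ≤ p * o := by exact_mod_cast h3
  have h5 : p * o ≤ p * (m - 1) := Nat.mul_le_mul_left p (by omega)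
  have h6 : p * (m - 1) + p = p * m := by
    obtain ⟨m', rfl⟩ : ∃ m', m = m' + 1 := ⟨m - 1, by omega⟩
    rw [Nat.add_sub_cancel]
    ring
  omega

theorem ord_psi_pr (p : ℕ) [Fact p.Prime] {F κ : Type} [Field F] [CharP F p] [PerfectRing F p]
    [Field κ] [Algebra F κ] {k v : ℕ}
    (f : Fin k → MvPolynomial (Fin v) F) (z : Fin k → Fin v) (hz : Function.Injective z)
    {L : ℕ} (x : Fin v → Fin L → κ)
    (hx : ∀ i, (PowerSeries.X : PowerSeries κ) ^ L ∣ ev x (f i))
    (hJ : PowerSeries.constantCoeff (ev x (jac f z)) ≠ 0) (A : ℕ)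
    (hA : (v - k) * L ≤ tauJ F x + A) (s : MvPolynomial (Fin v) F) (l : ℕ) (hl : p * l ≤ L)
    (hs : (PowerSeries.X : PowerSeries κ) ^ (p * l) ∣ ev x s) (α : AI p z) :
    (PowerSeries.X : PowerSeries κ) ^ (l - (v - k) * A) ∣ ev x (Psi p f z α s) := by
  have hp : p.Prime := Fact.out
  set n := v - k with hn
  have h1 := psi_sum p f z hz s
  set S := ∑ β : AI p z, Psi p f z β s ^ p * ymo p z β with hS
  have h2 := theta_extract p f z hz (fun β => Psi p f z β s) α
  have h3 : ∑ β : AI p z, (fun β => Psi p f z β s) β ^ p * ymo p z β = S := rfl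
  rw [h3] at h2
  have hsplit : yco p z α * S = yco p z α * (jac f z ^ p * s) +
      yco p z α * (S - jac f z ^ p * s) := by ring
  rw [hsplit, theta_add] at h2
  have hmem : Theta p f z (yco p z α * (S - jac f z ^ p * s)) ∈ II f :=
    theta_mem p f z _ (Ideal.mul_mem_left _ _ h1)
  have ho1 : (PowerSeries.X : PowerSeries κ) ^ (p * l - n * (p - 1) * A) ∣
      ev x (Theta p f z (yco p z α * (jac f z ^ p * s))) := by
    refine theta_ord p f z hz x A ?_ _ (p * l) hl ?_
    · intro g l' hl' hg a ha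
      exact tan_lemma f z hz x hx hJ A hA g l' hl' hg a ha
    · rw [ev_mul, ev_mul]
      exact Dvd.dvd.mul_left (Dvd.dvd.mul_left hs _) _
  have ho2 : (PowerSeries.X : PowerSeries κ) ^ (p * l - n * (p - 1) * A) ∣
      ev x (Theta p f z (yco p z α * (S - jac f z ^ p * s))) :=
    dvd_trans (pow_dvd_pow _ (le_trans (Nat.sub_le _ _) hl)) (ev_mem f x hx _ hmem)
  have ho := dvd_add ho1 ho2
  rw [← ev_add, h2, ev_mul, ev_mul, ev_neg_one_pow, ev_pow, ev_pow] at ho
  refine order_root _ _ ?_ p _ _ hp.pos ho ?_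
  · refine IsUnit.mul ?_ ?_
    · exact (isUnit_neg_one).pow _
    · refine IsUnit.pow _ ?_
      rw [PowerSeries.isUnit_iff_constantCoeff]
      exact isUnit_iff_ne_zero.2 hJ
  · -- p (l - n A) ≤ p l - n (p-1) A + (p - 1)
    have h5 : n * (p - 1) * A ≤ p * (n * A) := by
      have : n * (p - 1) * A = (p - 1) * (n * A) := by ring
      rw [this]
      exact Nat.mul_le_mul_right _ (Nat.sub_le _ _)
    rw [Nat.mul_sub]
    omega

end Pool.Agent.OPT.OR

namespace Pool.Agent.OPT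

alias ord_psi := OR.ord_psi_pr

end Pool.Agent.OPT
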