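import Pool.Agent.Lib_helper80.OPF.Defs
import Pool.Agent.Lib_helper80.OPF.CP
import Pool.Agent.Lib_helper80.OPF.OR
import Pool.Agent.Lib_helper80.OPF.PS

/-!
# OPN, block CM: the comparison inequality (MP_2c2240_ag)
-/

namespace Pool.Agent.OPT.CM

open MvPolynomial Pool.Agent.KSS Pool.Agent.KSX Pool.Agent.OPT

/-- the linear algebra -/
theorem cm_abs {F M A : Type} [Field F] [AddCommGroup M] [Module F M] [Fintype A]
    (V1 I1 V2 I2 : Submodule F M) [FiniteDimensional F V1] [FiniteDimensional F V2]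
    (h1 : I1 ≤ V1) (h2 : I2 ≤ V2) (p : ℕ) (Φ : A → M → M)
    (hadd : ∀ α s t, Φ α (s + t) = Φ α s + Φ α t)
    (hsm : ∀ α (c : F) s, Φ α (c ^ p • s) = c • Φ α s)
    (hV : ∀ α, ∀ s ∈ V1, Φ α s ∈ V2) (hI : ∀ s ∈ V1, (∀ α, Φ α s ∈ I2) → s ∈ I1) :
    Module.finrank F V1 + Fintype.card A * Module.finrank F I2 ≤
      Fintype.card A * Module.finrank F V2 + Module.finrank F I1 := by
  classical
  set I1' : Submodule F V1 := I1.comap V1.subtype with hI1'
  set I2' : Submodule F V2 := I2.comap V2.subtype with hI2'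
  have e1 : Module.finrank F I1' = Module.finrank F I1 :=
    (Submodule.comapSubtypeEquivOfLe h1).finrank_eq
  have e2 : Module.finrank F I2' = Module.finrank F I2 :=
    (Submodule.comapSubtypeEquivOfLe h2).finrank_eq
  obtain ⟨C, hC⟩ := Submodule.exists_isCompl I1'
  have e3 := Submodule.finrank_add_eq_of_isCompl hC
  have e4 := Submodule.finrank_quotient_add_finrank I2'
  have h0 : ∀ α, Φ α 0 = 0 := by
    intro α
    have := hadd α 0 0
    rw [add_zero] at this
    exact left_eq_add.mp this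
  let j : C →+ (A → V2 ⧸ I2') :=
    { toFun := fun s α => Submodule.Quotient.mk ⟨Φ α s.1.1, hV α _ s.1.2⟩
      map_zero' := by
        funext α
        rw [Pi.zero_apply, Submodule.Quotient.mk_eq_zero]
        show Φ α 0 ∈ I2
        rw [h0]
        exact I2.zero_mem
      map_add' := fun s t => by
        funext α
        rw [Pi.add_apply, ← Submodule.Quotient.mk_add]
        congr 1
        exact Subtype.ext (hadd α _ _) }
  have hj : Function.Injective j := by
    rw [injective_iff_map_eq_zero]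
    intro s hs
    have k1 : ∀ α, Φ α s.1.1 ∈ I2 := by
      intro α
      have := congrFun hs α
      rw [Pi.zero_apply] at this
      exact (Submodule.Quotient.mk_eq_zero I2').mp this
    have k2 : s.1 ∈ I1' := hI _ s.1.2 k1
    have k3 : s.1 ∈ I1' ⊓ C := ⟨k2, s.2⟩
    rw [hC.inf_eq_bot] at k3
    exact Subtype.ext k3
  have hr := rank_le_of_injective_injective (R := F) (R' := F) (fun c : F => c ^ p) j
    (fun r hr => eq_zero_of_pow_eq_zero hr) hj (fun c s => by
      funext α
      have k1 : (⟨Φ α ((c ^ p • s).1.1), hV α _ (c ^ p • s).1.2⟩ : V2) =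
          c • ⟨Φ α s.1.1, hV α _ s.1.2⟩ := Subtype.ext (hsm α c _)
      show (Submodule.Quotient.mk (⟨Φ α ((c ^ p • s).1.1), hV α _ (c ^ p • s).1.2⟩ : V2) :
        V2 ⧸ I2') = c • Submodule.Quotient.mk ⟨Φ α s.1.1, hV α _ s.1.2⟩
      rw [k1, Submodule.Quotient.mk_smul])
  have hf : Module.finrank F C ≤ Module.finrank F (A → V2 ⧸ I2') := by
    refine Module.finrank_le_finrank_of_rank_le_rank ?_ (Module.rank_lt_aleph0 F _)
    simpa using hr
  rw [Module.finrank_pi_fintype, Finset.sum_const, smul_eq_mul, Finset.card_univ] at hf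
  rw [← e1, ← e2, ← e3, ← e4]
  nlinarith [hf]

/-- `IM ≤ Fil` -/
theorem cm_le {F κ : Type} [Field F] [Field κ] [Algebra F κ] {k v : ℕ}
    (f : Fin k → MvPolynomial (Fin v) F) {L : ℕ} (x : Fin v → Fin L → κ)
    (hx : ∀ i, (PowerSeries.X : PowerSeries κ) ^ L ∣ ev x (f i)) (m l : ℕ) (hl : l ≤ L) :
    IM (Set.range f) m ≤ Fil F x m l := by
  rintro s ⟨hs1, hs2⟩
  refine ⟨hs2, (pow_dvd_pow _ hl).trans ?_⟩
  have h1 : Ideal.span (Set.range f) ≤ (Ideal.span {(PowerSeries.X : PowerSeries κ) ^ L}).comap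
      (aeval fun i => arc (x i) : MvPolynomial (Fin v) F →ₐ[F] PowerSeries κ) := by
    rw [Ideal.span_le]
    rintro _ ⟨i, rfl⟩
    exact Ideal.mem_span_singleton.mpr (hx i)
  exact Ideal.mem_span_singleton.mp (h1 hs1)

theorem cm_fin {F κ : Type} [Field F] [Field κ] [Algebra F κ] {v : ℕ} {L : ℕ}
    (x : Fin v → Fin L → κ) (m l : ℕ) : FiniteDimensional F (Fil F x m l) := by
  have h1 : Module.Finite F (homogeneousSubmodule (Fin v) F m) :=
    Module.Finite.iff_fg.2 (homogeneousSubmodule_fg (Fin v) F m)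
  have h2 : Fil F x m l ≤ homogeneousSubmodule (Fin v) F m := fun s hs => hs.1
  exact Submodule.finiteDimensional_of_le h2

theorem cmp_dim_pr (p : ℕ) [Fact p.Prime] {F κ : Type} [Field F] [CharP F p] [PerfectRing F p]
    [Field κ] [Algebra F κ] {k v : ℕ} (d : Fin k → ℕ) (hd : ∀ i, 1 ≤ d i)
    (f : Fin k → MvPolynomial (Fin v) F) (hf : Good d f) (hkv : k < v)
    (z : Fin k → Fin v) (hz : Function.Injective z)
    {L : ℕ} (x : Fin v → Fin L → κ)
    (hx : ∀ i, (PowerSeries.X : PowerSeries κ) ^ L ∣ ev x (f i))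
    (hJ : PowerSeries.constantCoeff (ev x (jac f z)) ≠ 0) (A : ℕ)
    (hA : (v - k) * L ≤ tauJ F x + A) (m l : ℕ) (hl : p * l ≤ L) :
    Module.finrank F (Fil F x (p * m) (p * l)) +
        p ^ (v - k - 1) * Module.finrank F (IM (Set.range f) (m + jdeg d)) ≤
      p ^ (v - k - 1) * Module.finrank F (Fil F x (m + jdeg d) (l - (v - k) * A)) +
        Module.finrank F (IM (Set.range f) (p * m)) := by
  classical
  have hp := (Fact.out : p.Prime)
  have hc := card_AI p z hz hkv
  rw [Nat.card_eq_fintype_card] at hc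
  have i1 := cm_fin (F := F) x (p * m) (p * l)
  have i2 := cm_fin (F := F) x (m + jdeg d) (l - (v - k) * A)
  have hl' : l - (v - k) * A ≤ L := by
    have : l ≤ p * l := Nat.le_mul_of_pos_left l hp.pos
    omega
  rw [← hc]
  set b : Fin v := ⟨0, by omega⟩ with hb
  refine cm_abs _ _ _ _ (cm_le f x hx _ _ hl) (cm_le f x hx _ _ hl') p
    (fun (α : {α : AI p z // p ∣ ∑ a, (α.1 a : ℕ)}) s =>
      X b ^ ((∑ a, (α.1.1 a : ℕ)) / p) * Psi p f z α.1 s) ?_ ?_ ?_ ?_
  · intro α s t
    rw [psi_add, mul_add]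
  · intro α c s
    rw [MvPolynomial.smul_eq_C_mul, psi_smul, MvPolynomial.smul_eq_C_mul]
    ring
  · rintro α s ⟨hs1, hs2⟩
    have hα : ∑ a, (α.1.1 a : ℕ) = p * ((∑ a, (α.1.1 a : ℕ)) / p) :=
      (Nat.mul_div_cancel' α.2).symm
    refine ⟨?_, ?_⟩
    · rcases psi_hom p f z d hd hf.hom hz α.1 s m hs1 _ hα with ⟨h1, h2⟩ | h1
      · have h3 := (isHomogeneous_X_pow (R := F) b ((∑ a, (α.1.1 a : ℕ)) / p)).mul h2
        rw [Nat.add_sub_cancel' h1] at h3
        exact h3
      · rw [h1, mul_zero]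
        exact isHomogeneous_zero _ _ _
    · have h1 := ord_psi p f z hz x hx hJ A hA s l hl hs2 α.1
      show _ ∣ (aeval fun i => arc (x i)) _
      rw [map_mul]
      exact Dvd.dvd.mul_left h1 _
  · rintro s ⟨hs1, hs2⟩ hs3
    refine ⟨?_, hs1⟩
    have hX : ∀ (n : ℕ) (t : MvPolynomial (Fin v) F), X b ^ n * t ∈ II f → t ∈ II f := by
      intro n
      induction n with
      | zero =>
        intro t ht
        rwa [pow_zero, one_mul] at ht
      | succ n ih =>
        intro t ht
        refine ih t (hf.nzX b _ ?_)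
        rwa [← mul_assoc, ← pow_succ']
    have hJn : ∀ (n : ℕ) (t : MvPolynomial (Fin v) F), jac f z ^ n * t ∈ II f → t ∈ II f := by
      intro n
      induction n with
      | zero =>
        intro t ht
        rwa [pow_zero, one_mul] at ht
      | succ n ih =>
        intro t ht
        refine ih t (hf.nzJ z hz _ ?_)
        rwa [← mul_assoc, ← pow_succ']
    have h1 : ∀ α : AI p z, Psi p f z α s ∈ II f := by
      intro α
      by_cases hα : p ∣ ∑ a, (α.1 a : ℕ)
      · exact hX _ _ (hs3 ⟨α, hα⟩).1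
      · rw [psi_zero p f z d hd hf.hom hz α s m hs1 hα]
        exact (II f).zero_mem
    have h2 := psi_sum p f z hz s
    have h3 : ∑ α : AI p z, Psi p f z α s ^ p * ymo p z α ∈ II f := by
      refine Submodule.sum_mem _ fun α _ => ?_
      exact Ideal.mul_mem_right _ _ (Ideal.pow_mem_of_mem _ (h1 α) p hp.pos)
    have h4 : jac f z ^ p * s ∈ II f := by
      have h5 := (II f).sub_mem h3 h2
      rwa [sub_sub_cancel] at h5
    exact hJn p s h4

end Pool.Agent.OPT.CM

namespace Pool.Agent.OPT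

alias cmp_dim := CM.cmp_dim_pr

end Pool.Agent.OPT
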