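import Pool.Agent.Lib_helper80.OPF.Defs
import Pool.Agent.Lib_helper80.OPF.CM
import Pool.Agent.Lib_helper77.KSZ.XBAS

/-! # OPN, block CS: the sum inequality -/

namespace Pool.Agent.OPT.CS

open MvPolynomial Pool.Agent.KSS Pool.Agent.KSX Pool.Agent.OPT

/-- a decreasing nonnegative function summed at `⌊l/p⌋ - a` -/
theorem cs_sum (G : ℕ → ℝ) (p L a : ℕ) (hp : 1 ≤ p) (H : ℝ) (hH : 0 ≤ H)
    (hG : ∀ j, j ≤ L → 0 ≤ G j) (h0 : G 0 ≤ H) :
    ∑ l ∈ Finset.Icc 1 L, G (l / p - a) ≤
      (p : ℝ) * (((a : ℝ) + 1) * H + ∑ j ∈ Finset.Icc 1 L, G j) := by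
  classical
  have h1 : ∑ l ∈ Finset.Icc 1 L, G (l / p - a) ≤
      ∑ l ∈ Finset.Icc 1 L, ((if l < p * (a + 1) then H else 0) +
        ∑ j ∈ Finset.Icc 1 L, if l / p = j + a then G j else 0) := by
    apply Finset.sum_le_sum
    intro l hl
    rw [Finset.mem_Icc] at hl
    by_cases hla : l < p * (a + 1)
    · have h2 : l / p < a + 1 := by
        rw [Nat.div_lt_iff_lt_mul (by omega)]
        rw [mul_comm]
        exact hla
      have h3 : l / p - a = 0 := by omega
      rw [h3, if_pos hla]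
      have h4 : 0 ≤ ∑ j ∈ Finset.Icc 1 L, (if l / p = j + a then G j else 0) := by
        apply Finset.sum_nonneg
        intro j hj
        rw [Finset.mem_Icc] at hj
        split_ifs
        · exact hG j hj.2
        · exact le_rfl
      linarith
    · have h2 : a + 1 ≤ l / p := by
        rw [Nat.le_div_iff_mul_le (by omega)]
        rw [mul_comm]
        omega
      have h3 : l / p ≤ l := Nat.div_le_self l p
      rw [if_neg hla, zero_add]
      have h4 : l / p - a ∈ Finset.Icc 1 L := by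
        rw [Finset.mem_Icc]
        omega
      have h5 : ∑ j ∈ Finset.Icc 1 L, (if l / p = j + a then G j else 0) = G (l / p - a) := by
        rw [Finset.sum_eq_single (l / p - a)]
        · rw [if_pos (by omega)]
        · intro j _ hj
          rw [if_neg (by omega)]
        · intro h
          exact absurd h4 h
      rw [h5]
  refine h1.trans ?_
  rw [Finset.sum_add_distrib, Finset.sum_comm (s := Finset.Icc 1 L) (t := Finset.Icc 1 L),
    mul_add (p : ℝ)]
  apply add_le_add
  · rw [← Finset.sum_filter, Finset.sum_const, nsmul_eq_mul]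
    have h2 : ((Finset.Icc 1 L).filter fun l => l < p * (a + 1)).card ≤ p * (a + 1) := by
      calc ((Finset.Icc 1 L).filter fun l => l < p * (a + 1)).card
          ≤ (Finset.range (p * (a + 1))).card := by
            apply Finset.card_le_card
            intro l hl
            rw [Finset.mem_filter] at hl
            exact Finset.mem_range.2 hl.2
        _ = p * (a + 1) := Finset.card_range _
    have h3 : (((Finset.Icc 1 L).filter fun l => l < p * (a + 1)).card : ℝ) ≤ (p : ℝ) * (a + 1) := by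
      exact_mod_cast h2
    calc _ ≤ ((p : ℝ) * (a + 1)) * H := mul_le_mul_of_nonneg_right h3 hH
      _ = _ := by ring
  · rw [Finset.mul_sum]
    apply Finset.sum_le_sum
    intro j hj
    rw [Finset.mem_Icc] at hj
    rw [← Finset.sum_filter, Finset.sum_const, nsmul_eq_mul]
    apply mul_le_mul_of_nonneg_right _ (hG j hj.2)
    have h2 : ((Finset.Icc 1 L).filter fun l => l / p = j + a).card ≤ p := by
      calc ((Finset.Icc 1 L).filter fun l => l / p = j + a).card
          ≤ (Finset.Ico (p * (j + a)) (p * (j + a) + p)).card := by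
            apply Finset.card_le_card
            intro l hl
            rw [Finset.mem_filter] at hl
            rw [Finset.mem_Ico]
            have h3 := Nat.div_add_mod l p
            have h4 := Nat.mod_lt l (show 0 < p by omega)
            rw [hl.2] at h3
            omega
        _ = p := by simp
    exact_mod_cast h2

theorem cs_mono (F : Type) {κ : Type} [Field F] [Field κ] [Algebra F κ] {v L : ℕ}
    (x : Fin v → Fin L → κ) (M : ℕ) {l l' : ℕ} (h : l ≤ l') :
    Module.finrank F (Fil F x M l') ≤ Module.finrank F (Fil F x M l) := by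
  have := bas_finFil F x M l
  apply Submodule.finrank_mono
  rintro G ⟨h1, h2⟩
  exact ⟨h1, (pow_dvd_pow _ h).trans h2⟩

theorem cs_IM {F κ : Type} [Field F] [Field κ] [Algebra F κ] {k v L : ℕ}
    (f : Fin k → MvPolynomial (Fin v) F) (x : Fin v → Fin L → κ)
    (hx : ∀ i, (PowerSeries.X : PowerSeries κ) ^ L ∣ ev x (f i)) (M : ℕ) {l : ℕ} (hl : l ≤ L) :
    Module.finrank F (IM (Set.range f) M) ≤ Module.finrank F (Fil F x M l) := by
  have := bas_finFil F x M l
  apply Submodule.finrank_mono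
  rintro G ⟨hG1, hG2⟩
  refine ⟨hG2, ?_⟩
  have h1 : Ideal.span (Set.range f) ≤
      (Ideal.span {(PowerSeries.X : PowerSeries κ) ^ L}).comap
        (aeval (fun i => arc (x i)) : MvPolynomial (Fin v) F →ₐ[F] PowerSeries κ) := by
    rw [Ideal.span_le]
    rintro _ ⟨i, rfl⟩
    rw [SetLike.mem_coe, Ideal.mem_comap, Ideal.mem_span_singleton]
    exact hx i
  have h2 := h1 hG1
  rw [Ideal.mem_comap, Ideal.mem_span_singleton] at h2
  exact (pow_dvd_pow _ hl).trans h2

theorem cmp_sum_pr (p : ℕ) [Fact p.Prime] {F κ : Type} [Field F] [CharP F p] [PerfectRing F p]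
    [Field κ] [Algebra F κ] {k v : ℕ} (d : Fin k → ℕ) (hd : ∀ i, 1 ≤ d i)
    (f : Fin k → MvPolynomial (Fin v) F) (hf : Good d f) (hkv : k < v)
    (z : Fin k → Fin v) (hz : Function.Injective z)
    {L : ℕ} (x : Fin v → Fin L → κ)
    (hx : ∀ i, (PowerSeries.X : PowerSeries κ) ^ L ∣ ev x (f i))
    (hJ : PowerSeries.constantCoeff (ev x (jac f z)) ≠ 0) (A : ℕ)
    (hA : (v - k) * L ≤ tauJ F x + A) (m : ℕ) :
    sigB F d Finset.univ x (p * m) ≤ (p : ℝ) ^ (v - k) *
      ((((v - k : ℕ) : ℝ) * A + 1) * (NN d v Finset.univ (m + jdeg d) : ℝ) +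
        sigB F d Finset.univ x (m + jdeg d)) := by
  have hp : 1 ≤ p := (Fact.out : p.Prime).one_lt.le
  -- the functions
  set g : ℕ → ℕ → ℝ := fun M l => (Module.finrank F (Fil F x M l) : ℝ) - (NN d v ∅ M : ℝ) +
    (NN d v Finset.univ M : ℝ) with hg
  have hgIM : ∀ M l, g M l = (Module.finrank F (Fil F x M l) : ℝ) -
      (Module.finrank F (IM (Set.range f) M) : ℝ) := by
    intro M l
    have h1 : ((Module.finrank F (IM (Set.range f) M) : ℤ) : ℝ) =
        ((NN d v ∅ M - NN d v Finset.univ M : ℤ) : ℝ) := by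
      exact_mod_cast hf.hilb M
    push_cast at h1
    rw [hg]
    simp only
    rw [h1]
    ring
  have hnn : ∀ M l, l ≤ L → 0 ≤ g M l := by
    intro M l hl
    rw [hgIM, sub_nonneg]
    exact_mod_cast cs_IM f x hx M hl
  have h00 : ∀ M, g M 0 ≤ (NN d v Finset.univ M : ℝ) := by
    intro M
    have h1 : (Module.finrank F (Fil F x M 0) : ℤ) ≤ NN d v ∅ M := by
      rw [← finrank_hom F d v M]
      have := bas_fin F v M
      exact_mod_cast Submodule.finrank_mono (bas_Fil_le F x M 0)
    have h2 : ((Module.finrank F (Fil F x M 0) : ℤ) : ℝ) ≤ ((NN d v ∅ M : ℤ) : ℝ) := by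
      exact_mod_cast h1
    push_cast at h2
    rw [hg]
    simp only
    linarith
  have hH : ∀ M, 0 ≤ (NN d v Finset.univ M : ℝ) := fun M => (hnn M 0 (Nat.zero_le _)).trans (h00 M)
  -- comparison of the terms
  have hcmp : ∀ l ∈ Finset.Icc 1 L, g (p * m) l ≤
      (p : ℝ) ^ (v - k - 1) * g (m + jdeg d) (l / p - (v - k) * A) := by
    intro l hl
    rw [Finset.mem_Icc] at hl
    have h1 : p * (l / p) ≤ l := Nat.mul_div_le l p
    have h2 := cmp_dim p d hd f hf hkv z hz x hx hJ A hA m (l / p) (h1.trans hl.2)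
    have h3 := cs_mono F x (p * m) h1
    have h4 : (Module.finrank F (Fil F x (p * m) (p * (l / p))) : ℝ) +
        (p : ℝ) ^ (v - k - 1) * (Module.finrank F (IM (Set.range f) (m + jdeg d)) : ℝ) ≤
      (p : ℝ) ^ (v - k - 1) *
        (Module.finrank F (Fil F x (m + jdeg d) (l / p - (v - k) * A)) : ℝ) +
        (Module.finrank F (IM (Set.range f) (p * m)) : ℝ) := by
      exact_mod_cast h2
    have h5 : (Module.finrank F (Fil F x (p * m) l) : ℝ) ≤
        (Module.finrank F (Fil F x (p * m) (p * (l / p))) : ℝ) := by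
      exact_mod_cast h3
    rw [hgIM, hgIM, mul_sub]
    linarith
  have h1 : sigB F d Finset.univ x (p * m) ≤ (p : ℝ) ^ (v - k - 1) *
      ∑ l ∈ Finset.Icc 1 L, g (m + jdeg d) (l / p - (v - k) * A) := by
    rw [Finset.mul_sum]
    exact Finset.sum_le_sum hcmp
  have h2 := cs_sum (g (m + jdeg d)) p L ((v - k) * A) hp _ (hH (m + jdeg d))
    (fun j hj => hnn _ j hj) (h00 _)
  have h3 : (p : ℝ) ^ (v - k) = (p : ℝ) ^ (v - k - 1) * p := by
    rw [← pow_succ]
    congr 1
    omega
  have h4 : (0 : ℝ) ≤ (p : ℝ) ^ (v - k - 1) := by positivity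
  calc sigB F d Finset.univ x (p * m) ≤ (p : ℝ) ^ (v - k - 1) *
        ∑ l ∈ Finset.Icc 1 L, g (m + jdeg d) (l / p - (v - k) * A) := h1
    _ ≤ (p : ℝ) ^ (v - k - 1) * ((p : ℝ) * (((((v - k) * A : ℕ) : ℝ) + 1) *
        (NN d v Finset.univ (m + jdeg d) : ℝ) + ∑ j ∈ Finset.Icc 1 L, g (m + jdeg d) j)) :=
        mul_le_mul_of_nonneg_left h2 h4
    _ = _ := by
        rw [h3, Nat.cast_mul, mul_assoc]
        rfl

end Pool.Agent.OPT.CS

namespace Pool.Agent.OPT

alias cmp_sum := CS.cmp_sum_pr

end Pool.Agent.OPT
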