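import Pool.Agent.Lib_helper80.OPF.Defs
import Pool.Agent.Lib_helper77.KSZ.Main

/-! # OPN, block EG1: the expected vanishing order of a divisor over a good complete intersection -/

namespace Pool.Agent.OPT.EG1

open MvPolynomial Pool.Agent.KSS Pool.Agent.KSX Pool.Agent.OPT
open scoped ENNReal

theorem expVan_good_pr {n k : ℕ} (d : Fin k → ℕ) (hd : ∀ i, 1 ≤ d i) (hF : ∑ i, d i ≤ n + k)
    (f : Fin k → MvPolynomial (Fin (n + k + 1)) ℂ) (hf : Good d f) (E : DivisorOver f n) :
    ExpVan d E = E.Svol (n + k + 1 - ∑ i, d i) := by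
  have hhom : ∀ i, ∃ e, (f i).IsHomogeneous e := fun i => ⟨d i, hf.hom i⟩
  have hSec : ∀ m, (Module.finrank ℂ (Sec f m) : ℤ) = NN d (n + k + 1) Finset.univ m := by
    intro m
    have h0 := hf.hilb m
    have h1 := fb_sec f hhom m
    have h2 := finrank_hom_pr ℂ d (n + k + 1) m
    have h3 : (Module.finrank ℂ (Sec f m) : ℤ) + (Module.finrank ℂ (IM (Set.range f) m) : ℤ) =
      (Module.finrank ℂ (homogeneousSubmodule (Fin (n + k + 1)) ℂ m) : ℤ) := by exact_mod_cast h1
    rw [h2, h0] at h3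
    linarith
  have hvol := vo_vol d (n + k + 1 - ∑ i, d i) (by omega) f hSec E
  unfold ExpVan DivisorOver.Svol
  rw [hvol]

end Pool.Agent.OPT.EG1

namespace Pool.Agent.OPT

alias expVan_good := EG1.expVan_good_pr

end Pool.Agent.OPT
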