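import Pool.Agent.Lib_helper80.OPF.Defs
import Pool.Agent.Lib_helper77.KSZ.Main

/-!
# OPN, block EGA (helper35): injectivity of the restriction to a chart on sections
-/

namespace Pool.Agent.OPT.EGA

open MvPolynomial Pool.Agent.KSS Pool.Agent.KSX Pool.Agent.OPT

/-- homogeneous polynomials and scaling -/
theorem hom_scale {R S σ : Type} [CommRing R] [CommRing S] [Fintype σ] (φ : R →+* S) (g : σ → S)
    (c : S) {G : MvPolynomial σ R} {e : ℕ} (hG : G.IsHomogeneous e) :
    eval₂ φ (fun a => g a * c) G = eval₂ φ g G * c ^ e := by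
  rw [eval₂_eq', eval₂_eq', Finset.sum_mul]
  refine Finset.sum_congr rfl fun β hβ => ?_
  have h1 : ∑ a, β a = e := by
    have := hG (mem_support_iff.mp hβ)
    rw [← this, Finsupp.weight_apply, Finsupp.sum_fintype _ _ (fun _ => by simp)]
    simp
  have h2 : ∏ a, (g a * c) ^ β a = (∏ a, g a ^ β a) * c ^ e := by
    simp_rw [mul_pow]
    rw [Finset.prod_mul_distrib, Finset.prod_pow_eq_pow_sum, h1]
  rw [h2, mul_assoc]

theorem pow_cancel {N k : ℕ} (f : Fin k → MvPolynomial (Fin N) ℂ)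
    (hX : ∀ (a : Fin N) (s : MvPolynomial (Fin N) ℂ), X a * s ∈ II f → s ∈ II f) (j : Fin N)
    (P : MvPolynomial (Fin N) ℂ) : ∀ n : ℕ, X j ^ n * P ∈ II f → P ∈ II f
  | 0, h => by simpa using h
  | n + 1, h => by
      refine pow_cancel f hX j P n (hX j _ ?_)
      rw [← mul_assoc, ← pow_succ']
      exact h

/-- the chart map is injective on homogeneous elements -/
theorem chart_inj {N k : ℕ} (d : Fin k → ℕ) (f : Fin k → MvPolynomial (Fin N) ℂ)
    (hf : ∀ i, (f i).IsHomogeneous (d i))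
    (hX : ∀ (a : Fin N) (s : MvPolynomial (Fin N) ℂ), X a * s ∈ II f → s ∈ II f) (j : Fin N)
    (m : ℕ) (P : MvPolynomial (Fin N) ℂ) (hP : P.IsHomogeneous m)
    (h : P ∈ Ideal.span (insert (X j - 1) (Set.range f))) : P ∈ II f := by
  set x : CoordRing f := Ideal.Quotient.mk (Ideal.span (Set.range f)) (X j) with hx
  set ψ : MvPolynomial (Fin N) ℂ →+* Localization.Away x :=
    (algebraMap (CoordRing f) (Localization.Away x)).comp
      (Ideal.Quotient.mk (Ideal.span (Set.range f))) with hψ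
  set y : Localization.Away x := IsLocalization.Away.invSelf x with hy
  have hxy : ψ (X j) * y = 1 := IsLocalization.Away.mul_invSelf x
  set θ : MvPolynomial (Fin N) ℂ →+* Localization.Away x :=
    eval₂Hom (ψ.comp C) (fun a => ψ (X a) * y) with hθ
  have e0 : ∀ G : MvPolynomial (Fin N) ℂ, eval₂ (ψ.comp C) (fun a => ψ (X a)) G = ψ G := by
    intro G
    have h1 : eval₂Hom (ψ.comp C) (fun a => ψ (X a)) = ψ := by
      refine MvPolynomial.ringHom_ext (fun r => ?_) (fun a => ?_)
      · rw [coe_eval₂Hom, eval₂_C]; rfl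
      · rw [coe_eval₂Hom, eval₂_X]
    have h2 := congrArg (fun t : MvPolynomial (Fin N) ℂ →+* Localization.Away x => t G) h1
    simpa using h2
  have e1 : ∀ (G : MvPolynomial (Fin N) ℂ) (e : ℕ), G.IsHomogeneous e → θ G = ψ G * y ^ e := by
    intro G e hG
    rw [hθ, coe_eval₂Hom, hom_scale (ψ.comp C) (fun a => ψ (X a)) y hG, e0]
  have hker : Ideal.span (insert (X j - 1) (Set.range f)) ≤ RingHom.ker θ := by
    rw [Ideal.span_le]
    rintro g (rfl | ⟨i, rfl⟩)
    · show θ (X j - 1) = 0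
      rw [map_sub, map_one, e1 _ 1 (isHomogeneous_X _ _), pow_one, hxy, sub_self]
    · show θ (f i) = 0
      rw [e1 _ _ (hf i)]
      have : ψ (f i) = 0 := by
        rw [hψ, RingHom.comp_apply, Ideal.Quotient.eq_zero_iff_mem.2
          (Ideal.subset_span (Set.mem_range_self i)), map_zero]
      rw [this, zero_mul]
  have h0 : θ P = 0 := hker h
  rw [e1 P m hP] at h0
  have h1 : ψ P = 0 := by
    have h2 : ψ P * (ψ (X j) * y) ^ m = 0 := by
      rw [mul_pow, mul_comm (ψ (X j) ^ m), ← mul_assoc, h0, zero_mul]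
    rwa [hxy, one_pow, mul_one] at h2
  have h2 : algebraMap (CoordRing f) (Localization.Away x)
      (Ideal.Quotient.mk (Ideal.span (Set.range f)) P) = 0 := h1
  rw [IsLocalization.map_eq_zero_iff (Submonoid.powers x)] at h2
  obtain ⟨⟨c, n, rfl⟩, hc⟩ := h2
  refine pow_cancel f hX j P n ?_
  rw [← Ideal.Quotient.eq_zero_iff_mem, map_mul, map_pow]
  exact hc

/-- (EGA) -/
theorem loc_inj_pr {n k : ℕ} (d : Fin k → ℕ)
    (f : Fin k → MvPolynomial (Fin (n + k + 1)) ℂ) (hf : Good d f) (E : DivisorOver f n) (m : ℕ)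
    (s : CoordRing f) (hs : s ∈ Sec f m) (h0 : E.loc s = 0) : s = 0 := by
  obtain ⟨P, hP, rfl⟩ := hs
  have h1 : (Ideal.Quotient.mk (Ideal.span (insert (X E.j - 1) (Set.range f))) P) = 0 := by
    apply E.inj
    rw [map_zero]
    exact h0
  have h2 := chart_inj d f hf.hom hf.nzX E.j m P ((mem_homogeneousSubmodule _ _).1 hP)
    (Ideal.Quotient.eq_zero_iff_mem.1 h1)
  exact Ideal.Quotient.eq_zero_iff_mem.2 h2

end Pool.Agent.OPT.EGA

namespace Pool.Agent.OPT

alias loc_inj := EGA.loc_inj_pr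

end Pool.Agent.OPT
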