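import Pool.Agent.Lib_helper80.OPF.Defs
import Pool.Agent.Lib_helper77.KSZ.Main
import Pool.Agent.Lib_helper80.OPF.EGA

/-! # OPN block EGB: growth of sections of divisors over a good complete intersection -/

namespace Pool.Agent.OPT.EGB

open MvPolynomial MeasureTheory Filter Pool.Agent.KSS Pool.Agent.KSX
open scoped ENNReal Topology

variable {n k : ℕ}

/-- the filtration is exhausted -/
theorem exh (d : Fin k → ℕ) (f : Fin k → MvPolynomial (Fin (n + k + 1)) ℂ) (hf : Good d f)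
    (E : DivisorOver f n) (m : ℕ) : ∃ L0 : ℕ, E.Fl m L0 = ⊥ := by
  set g : ℕ → ℕ := fun l => Module.finrank ℂ (E.Fl m l) with hg
  obtain ⟨L0, hL0⟩ : ∃ L0, g L0 = sInf (Set.range g) := Nat.sInf_mem (Set.range_nonempty g)
  have hmin : ∀ l, g L0 ≤ g l := fun l => by
    rw [hL0]; exact Nat.sInf_le ⟨l, rfl⟩
  refine ⟨L0, ?_⟩
  rw [eq_bot_iff]
  intro s hs
  have hall : ∀ l, s ∈ E.Fl m l := by
    intro l
    rcases le_total l L0 with h | h
    · exact fin_anti E m h hs
    · have hfin := fin_Fl_finite E m L0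
      have h1 : E.Fl m l = E.Fl m L0 :=
        Submodule.eq_of_le_of_finrank_le (fin_anti E m h) (hmin l)
      rw [h1]; exact hs
  have h0 : E.loc s = 0 := by
    have h1 : E.loc s ∈ ⨅ l : ℕ, (IsLocalRing.maximalIdeal E.O) ^ l := by
      rw [Submodule.mem_iInf]
      intro l
      exact (hall l).2
    rw [Ideal.iInf_pow_eq_bot_of_isLocalRing _ (IsLocalRing.maximalIdeal.isMaximal E.O).ne_top]
      at h1
    simpa using h1
  have := loc_inj d f hf E m s hs.1 h0
  rw [this]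
  exact Submodule.zero_mem _

theorem mono (d : Fin k → ℕ) (f : Fin k → MvPolynomial (Fin (n + k + 1)) ℂ) (hf : Good d f)
    (E : DivisorOver f n) (m : ℕ) (l : ℕ) :
    Module.finrank ℂ (E.Fl m l) ≤ Module.finrank ℂ (E.Fl (m + 1) l) := by
  have hfin := fin_Fl_finite E (m + 1) l
  set xj : CoordRing f := Ideal.Quotient.mk _ (X E.j) with hxj
  have hloc : E.loc xj = 1 := by
    have h1 : E.loc xj = E.φ (Ideal.Quotient.mk _ (X E.j)) := rfl
    have h2 : (X E.j - 1 : MvPolynomial (Fin (n + k + 1)) ℂ) ∈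
        Ideal.span (insert (X E.j - 1) (Set.range f)) :=
      Ideal.subset_span (Set.mem_insert _ _)
    have h3 := (Ideal.Quotient.mk_eq_mk_iff_sub_mem (X E.j)
      (1 : MvPolynomial (Fin (n + k + 1)) ℂ)).2 h2
    rw [h1, h3, map_one, map_one]
  have hmem : ∀ s ∈ E.Fl m l, xj * s ∈ E.Fl (m + 1) l := by
    rintro s ⟨hs1, hs2⟩
    refine ⟨?_, ?_⟩
    · obtain ⟨F, hF1, rfl⟩ := hs1
      refine ⟨X E.j * F, ?_, ?_⟩
      · have h1 : (X E.j * F).IsHomogeneous (1 + m) := (isHomogeneous_X ℂ E.j).mul hF1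
        rwa [Nat.add_comm 1 m] at h1
      · show Ideal.Quotient.mk _ (X E.j * F) = xj * Ideal.Quotient.mk _ F
        rw [map_mul]
    · show E.loc (xj * s) ∈ (IsLocalRing.maximalIdeal E.O ^ l : Ideal E.O)
      rw [map_mul, hloc, one_mul]
      exact hs2
  let T : E.Fl m l →ₗ[ℂ] E.Fl (m + 1) l :=
    ((LinearMap.mulLeft ℂ xj).restrict hmem)
  have hT : Function.Injective T := by
    rw [← LinearMap.ker_eq_bot, LinearMap.ker_eq_bot']
    rintro ⟨s, hs⟩ h
    have h1 : xj * s = 0 := congrArg Subtype.val h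
    have h2 : E.loc s = 0 := by
      have := congrArg E.loc h1
      rwa [map_mul, hloc, one_mul, map_zero] at this
    have h3 := loc_inj d f hf E m s hs.1 h2
    exact Subtype.ext h3
  exact LinearMap.finrank_le_finrank_of_injective hT

section

variable (d : Fin k → ℕ) (hd : ∀ i, 1 ≤ d i) (hF : ∑ i, d i ≤ n + k)
    (f : Fin k → MvPolynomial (Fin (n + k + 1)) ℂ) (hf : Good d f) (E : DivisorOver f n)

include hf in
/-- the sums `∑_{l ≥ 1} dim F^l` are finite and nondecreasing -/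
theorem sums : ∃ (t L0 : ℕ → ℕ), Monotone t ∧
    (∀ m, 1 ≤ m → ∑' l : ℕ, (Module.finrank ℂ (E.Fl m (l + 1)) : ℝ≥0∞) = (t m : ℝ≥0∞)) ∧
    ∀ m L, L0 m ≤ L → (t m : ℝ) ≤ ∑ l ∈ Finset.Icc 1 L, (Module.finrank ℂ (E.Fl m l) : ℝ) := by
  classical
  have hex : ∀ m : ℕ, ∃ L0 : ℕ, 1 ≤ m → E.Fl m L0 = ⊥ := by
    intro m
    by_cases hm : 1 ≤ m
    · obtain ⟨L0, h⟩ := exh d f hf E m
      exact ⟨L0, fun _ => h⟩
    · exact ⟨0, fun h => absurd h hm⟩
  choose L0 hL0 using hex
  set t : ℕ → ℕ := fun m => if m = 0 then 0 else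
    ∑ l ∈ Finset.range (L0 m), Module.finrank ℂ (E.Fl m (l + 1)) with ht
  have hts : ∀ m, 1 ≤ m →
      ∑' l : ℕ, (Module.finrank ℂ (E.Fl m (l + 1)) : ℝ≥0∞) = (t m : ℝ≥0∞) := by
    intro m hm
    have h1 : ∑' l : ℕ, (Module.finrank ℂ (E.Fl m (l + 1)) : ℝ≥0∞) =
        ∑ l ∈ Finset.range (L0 m), (Module.finrank ℂ (E.Fl m (l + 1)) : ℝ≥0∞) := by
      apply tsum_eq_sum
      intro l hl
      rw [Finset.mem_range, not_lt] at hl
      have h2 : E.Fl m (l + 1) = ⊥ := by
        rw [eq_bot_iff, ← hL0 m hm]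
        exact fin_anti E m (by omega)
      rw [h2, finrank_bot, Nat.cast_zero]
    rw [h1, ht]
    simp only
    rw [if_neg (by omega)]
    push_cast
    rfl
  refine ⟨t, L0, ?_, hts, ?_⟩
  · refine monotone_nat_of_le_succ ?_
    intro m
    rcases Nat.eq_zero_or_pos m with rfl | hm
    · simp [ht]
    · have h1 : (t m : ℝ≥0∞) ≤ (t (m + 1) : ℝ≥0∞) := by
        rw [← hts m hm, ← hts (m + 1) (by omega)]
        refine ENNReal.tsum_le_tsum fun l => ?_
        exact_mod_cast mono d f hf E m (l + 1)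
      exact_mod_cast h1
  · intro m L hL
    rcases Nat.eq_zero_or_pos m with rfl | hm
    · have : (t 0 : ℝ) = 0 := by simp [ht]
      rw [this]
      positivity
    · have h1 : (t m : ℝ) = ∑ l ∈ Finset.range (L0 m), (Module.finrank ℂ (E.Fl m (l + 1)) : ℝ) := by
        rw [ht]
        simp only
        rw [if_neg (by omega)]
        push_cast
        rfl
      have h2 : ∑ l ∈ Finset.Icc 1 L, (Module.finrank ℂ (E.Fl m l) : ℝ) =
          ∑ l ∈ Finset.range L, (Module.finrank ℂ (E.Fl m (l + 1)) : ℝ) := by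
        rw [Finset.range_eq_Ico,
          Finset.sum_Ico_add' (fun l => (Module.finrank ℂ (E.Fl m l) : ℝ)) 0 L 1]
        rfl
      rw [h1, h2]
      refine Finset.sum_le_sum_of_subset_of_nonneg ?_ fun _ _ _ => by positivity
      intro l hl
      rw [Finset.mem_range] at hl ⊢
      omega

include hd hF hf in
/-- growth of the sums from a lower bound for the expected vanishing order -/
theorem growth (S : ℝ) (hS0 : 0 < S)
    (hS : ENNReal.ofReal S < E.Svol (n + k + 1 - ∑ i, d i)) (t : ℕ → ℕ) (ht : Monotone t)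
    (hts : ∀ m, 1 ≤ m →
      ∑' l : ℕ, (Module.finrank ℂ (E.Fl m (l + 1)) : ℝ≥0∞) = (t m : ℝ≥0∞))
    (c : ℝ) (hc : c * (n.factorial * ((n + k + 1 - ∑ i, d i : ℕ) : ℝ)) <
      S * ((∏ i, d i : ℕ) : ℝ)) :
    ∀ᶠ m : ℕ in atTop, c * (m : ℝ) ^ (n + 1) ≤ t m := by
  set r : ℕ := n + k + 1 - ∑ i, d i with hr
  have hr1 : 1 ≤ r := by omega
  have hrR : (0 : ℝ) < r := by exact_mod_cast hr1
  have hfac : (0 : ℝ) < n.factorial := by exact_mod_cast Nat.factorial_pos _
  set D : ℕ := ∏ i, d i with hD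
  have hD1 : 1 ≤ D := Finset.one_le_prod' fun i _ => hd i
  have hDR : (0 : ℝ) < D := by exact_mod_cast hD1
  -- the volume of the polarisation
  have hhom : ∀ i, ∃ e, (f i).IsHomogeneous e := fun i => ⟨d i, hf.hom i⟩
  have hcard : (Finset.univ : Finset (Fin k)).card ≤ n + k + 1 := by
    rw [Finset.card_univ, Fintype.card_fin]; omega
  have hSec : ∀ m, (Module.finrank ℂ (Sec f m) : ℤ) = NN d (n + k + 1) Finset.univ m := by
    intro m
    have h0 := hf.hilb m
    have h1 := fb_sec f hhom m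
    have h2 := finrank_hom_pr ℂ d (n + k + 1) m
    have h3 : (Module.finrank ℂ (Sec f m) : ℤ) + (Module.finrank ℂ (IM (Set.range f) m) : ℤ) =
      (Module.finrank ℂ (homogeneousSubmodule (Fin (n + k + 1)) ℂ m) : ℤ) := by exact_mod_cast h1
    rw [h2, h0] at h3
    linarith
  have hvol := vo_vol d r hr1 f hSec E
  -- lower bound along multiples of r
  have h1 : ∀ᶠ M : ℕ in atTop, S * ((r ^ n * D : ℕ) : ℝ) * (M : ℝ) ^ (n + 1) ≤
      n.factorial * (t (r * M) : ℝ) := by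
    have h2 : ENNReal.ofReal S * E.vol r 0 < ∫⁻ t in Set.Ioi (0 : ℝ), E.vol r t := by
      have h3 : ENNReal.ofReal S < (∫⁻ t in Set.Ioi (0 : ℝ), E.vol r t) / E.vol r 0 := hS
      rw [ENNReal.lt_div_iff_mul_lt] at h3
      · exact h3
      · right; exact ne_top_of_lt hS |> fun _ => ENNReal.ofReal_ne_top
      · right
        rw [Ne, ENNReal.ofReal_eq_zero, not_le]
        exact hS0
    have h4 := h2.trans_le (fin_fatou E r)
    have h5 := eventually_lt_of_lt_liminf h4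
    filter_upwards [h5, eventually_ge_atTop 1] with M h6 hM
    rw [hts (r * M) (Nat.one_le_iff_ne_zero.2 (by positivity)), hvol] at h6
    have hMR : (0 : ℝ) < M := by exact_mod_cast hM
    have h7 : ENNReal.ofReal (S * ((r ^ n * D : ℕ) : ℝ)) <
        ENNReal.ofReal (n.factorial * (t (r * M) : ℝ) / (M : ℝ) ^ (n + 1)) := by
      rw [ENNReal.ofReal_mul hS0.le, ENNReal.ofReal_natCast,
        ENNReal.ofReal_div_of_pos (by positivity), ENNReal.ofReal_mul (by positivity),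
        ENNReal.ofReal_natCast, ENNReal.ofReal_natCast, ENNReal.ofReal_pow (by positivity),
        ENNReal.ofReal_natCast]
      exact h6
    have h8 := (ENNReal.ofReal_lt_ofReal_iff_of_nonneg (by positivity)).1 h7
    rw [lt_div_iff₀ (by positivity)] at h8
    exact h8.le
  obtain ⟨M1, hM1⟩ := eventually_atTop.1 h1
  -- all m
  have h2 : ∀ m : ℕ, r * (M1 + 1) ≤ m →
      S * ((r ^ n * D : ℕ) : ℝ) / n.factorial * (((m : ℝ) - r) / r) ^ (n + 1) ≤ t m := by
    intro m hm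
    have h3 : M1 ≤ m / r := by
      rw [Nat.le_div_iff_mul_le hr1]
      nlinarith
    have h4 := hM1 (m / r) h3
    have h5 : (t (r * (m / r)) : ℝ) ≤ t m := by
      exact_mod_cast ht (Nat.mul_div_le m r)
    have h6 : ((m : ℝ) - r) / r ≤ ((m / r : ℕ) : ℝ) := by
      rw [div_le_iff₀ hrR]
      have h7 : m ≤ r * (m / r) + r := by
        have := Nat.div_add_mod m r
        have := Nat.mod_lt m hr1
        omega
      have h8 : (m : ℝ) ≤ r * ((m / r : ℕ) : ℝ) + r := by exact_mod_cast h7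
      linarith
    have h7 : 0 ≤ ((m : ℝ) - r) / r := by
      apply div_nonneg _ hrR.le
      have : r ≤ m := by nlinarith
      have : (r : ℝ) ≤ m := by exact_mod_cast this
      linarith
    calc S * ((r ^ n * D : ℕ) : ℝ) / n.factorial * (((m : ℝ) - r) / r) ^ (n + 1)
        ≤ S * ((r ^ n * D : ℕ) : ℝ) / n.factorial * ((m / r : ℕ) : ℝ) ^ (n + 1) := by
          gcongr
      _ = (S * ((r ^ n * D : ℕ) : ℝ) * ((m / r : ℕ) : ℝ) ^ (n + 1)) / n.factorial := by ring
      _ ≤ (n.factorial * (t (r * (m / r)) : ℝ)) / n.factorial := by gcongr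
      _ = t (r * (m / r)) := by field_simp
      _ ≤ t m := h5
  -- the limit
  have hlim : Tendsto (fun m : ℕ => S * ((r ^ n * D : ℕ) : ℝ) / n.factorial *
      ((((m : ℝ) - r) / r) / m) ^ (n + 1)) atTop
      (𝓝 (S * ((r ^ n * D : ℕ) : ℝ) / n.factorial * (1 / r) ^ (n + 1))) := by
    have h3 : Tendsto (fun m : ℕ => (((m : ℝ) - r) / r) / m) atTop (𝓝 (1 / r)) := by
      have h4 : Tendsto (fun m : ℕ => 1 / (r : ℝ) - 1 / (m : ℝ)) atTop (𝓝 (1 / r - 0)) :=
        tendsto_const_nhds.sub (tendsto_const_div_atTop_nhds_zero_nat 1)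
      rw [sub_zero] at h4
      refine h4.congr' ?_
      filter_upwards [eventually_gt_atTop 0] with m hm
      have : (m : ℝ) ≠ 0 := by exact_mod_cast hm.ne'
      field_simp
    exact (h3.pow (n + 1)).const_mul _
  have hval : c < S * ((r ^ n * D : ℕ) : ℝ) / n.factorial * (1 / r) ^ (n + 1) := by
    have h3 : S * ((r ^ n * D : ℕ) : ℝ) / n.factorial * (1 / r) ^ (n + 1) =
        S * D / (n.factorial * r) := by
      push_cast
      rw [one_div, inv_pow, pow_succ]
      field_simp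
    rw [h3, lt_div_iff₀ (by positivity)]
    exact hc
  filter_upwards [hlim.eventually (lt_mem_nhds hval), eventually_ge_atTop (r * (M1 + 1)),
    eventually_gt_atTop 0] with m h3 h4 h5
  have hm : (0 : ℝ) < m := by exact_mod_cast h5
  refine le_trans ?_ (h2 m h4)
  rw [div_pow _ (m : ℝ), ← mul_div_assoc, lt_div_iff₀ (by positivity)] at h3
  exact h3.le

end

theorem growth_good_pr {n k : ℕ} (d : Fin k → ℕ) (hd : ∀ i, 1 ≤ d i) (hF : ∑ i, d i ≤ n + k)
    (f : Fin k → MvPolynomial (Fin (n + k + 1)) ℂ) (hf : Good d f) (E : DivisorOver f n)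
    (S : ℝ) (hS0 : 0 < S) (hS : ENNReal.ofReal S < E.Svol (n + k + 1 - ∑ i, d i))
    (c : ℝ) (hc : c * (n.factorial * ((n + k + 1 - ∑ i, d i : ℕ) : ℝ)) <
      S * ((∏ i, d i : ℕ) : ℝ)) :
    ∃ M1 : ℕ, ∀ M ≥ M1, ∃ L0 : ℕ, ∀ L ≥ L0, c * (M : ℝ) ^ (n + 1) ≤
      ∑ l ∈ Finset.Icc 1 L, (Module.finrank ℂ (E.Fl M l) : ℝ) := by
  obtain ⟨t, L0, ht, hts, hL⟩ := sums d f hf E
  obtain ⟨M1, hM1⟩ := eventually_atTop.1 (growth d hd hF f hf E S hS0 hS t ht hts c hc)
  exact ⟨M1, fun M hM => ⟨L0 M, fun L hL' => (hM1 M hM).trans (hL M L hL')⟩⟩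


end Pool.Agent.OPT.EGB

namespace Pool.Agent.OPT

alias growth_good := EGB.growth_good_pr

end Pool.Agent.OPT
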