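import Pool.Agent.Lib_helper80.OPF.Defs
import Pool.Agent.Lib_helper77.KSZ.Main

/-! # OPN, block M1: places of residue characteristic `p` -/

namespace Pool.Agent.OPT.M1

theorem m1_int_jacobson : IsJacobsonRing ℤ := by
  rw [isJacobsonRing_iff_prime_eq]
  intro P hP
  rcases eq_or_ne P ⊥ with rfl | h
  · refine le_antisymm (fun x hx => ?_) Ideal.le_jacobson
    rw [Ideal.mem_bot]
    rw [Ideal.mem_jacobson_bot] at hx
    have h1 := hx x
    rw [Int.isUnit_iff] at h1
    rcases h1 with h1 | h1
    · have : x * x = 0 := by linarith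
      exact mul_self_eq_zero.mp this
    · nlinarith [mul_self_nonneg x]
  · have hm : P.IsMaximal := hP.isMaximal h
    exact Ideal.jacobson_eq_self_of_isMaximal

theorem m1_charp {F : Type} [Field F] [i : Algebra ℤ F] (hf : Algebra.FiniteType ℤ F) :
    ∃ p : ℕ, p.Prime ∧ CharP F p := by
  have := m1_int_jacobson
  obtain rfl : i = Ring.toIntAlgebra F := Subsingleton.elim _ _
  have hfin := finite_of_finite_type_of_isJacobsonRing ℤ F
  obtain ⟨p, hp⟩ := CharP.exists F
  refine ⟨p, ?_, hp⟩
  rcases CharP.char_is_prime_or_zero F p with h | h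
  · exact h
  · exfalso
    subst h
    have h0 : CharZero F := CharP.charP_to_charZero F
    have hinj : Function.Injective (algebraMap ℤ F) := by
      rw [injective_iff_map_eq_zero]
      intro n hn
      rw [eq_intCast] at hn
      exact_mod_cast hn
    have : Algebra.IsIntegral ℤ F := Algebra.IsIntegral.of_finite ℤ F
    have hZ : IsField ℤ := isField_of_isIntegral_of_isField hinj (Field.toIsField F)
    exact Int.not_isField hZ

theorem place_pr {K : Type} [Field K] [CharZero K] (C : Finset K) (N : ℕ) :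
    ∃ (p : ℕ) (O : ValuationSubring K), p.Prime ∧ N ≤ p ∧ (∀ c ∈ C, c ∈ O) ∧
      CharP (IsLocalRing.ResidueField O) p := by
  classical
  set A : Subalgebra ℤ K := Algebra.adjoin ℤ ((insert ((N.factorial : K)⁻¹) C : Finset K) : Set K)
    with hA
  have hAf : Algebra.FiniteType ℤ A :=
    (Subalgebra.fg_iff_finiteType A).mp ⟨insert ((N.factorial : K)⁻¹) C, rfl⟩
  obtain ⟨m, hm⟩ := Ideal.exists_maximal A
  let _ : Field (A ⧸ m) := Ideal.Quotient.field m
  have hf : Algebra.FiniteType ℤ (A ⧸ m) :=
    Algebra.FiniteType.of_surjective (Ideal.Quotient.mkₐ ℤ m) Ideal.Quotient.mk_surjective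
  obtain ⟨p, hp, hchar⟩ := m1_charp (F := A ⧸ m) hf
  have hpm : (p : A) ∈ m := by
    rw [← Ideal.Quotient.eq_zero_iff_mem, map_natCast]
    exact CharP.cast_eq_zero _ p
  have hinv : (N.factorial : K)⁻¹ ∈ A := Algebra.subset_adjoin (by simp)
  have hNp : N ≤ p := by
    by_contra hlt
    have hdvd : p ∣ N.factorial := (Nat.Prime.dvd_factorial hp).mpr (by omega)
    obtain ⟨q, hq⟩ := hdvd
    have hN0 : (N.factorial : K) ≠ 0 := by exact_mod_cast N.factorial_ne_zero
    have h1 : (1 : A) ∈ m := by
      have h2 : (1 : A) = (⟨(N.factorial : K)⁻¹, hinv⟩ * (q : A)) * (p : A) := by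
        apply Subtype.ext
        push_cast
        show (1 : K) = (N.factorial : K)⁻¹ * q * p
        rw [mul_assoc, mul_comm (q : K), ← Nat.cast_mul, ← hq, inv_mul_cancel₀ hN0]
      rw [h2]
      exact m.mul_mem_left _ hpm
    exact hm.ne_top ((Ideal.eq_top_iff_one m).mpr h1)
  obtain ⟨O, hAO, hO⟩ := Ideal.image_subset_nonunits_valuationSubring
    (A := A.toSubring) m hm.ne_top
  refine ⟨p, O, hp, hNp, fun c hc => ?_, ?_⟩
  · have hcA : c ∈ A := Algebra.subset_adjoin (by simp [hc])
    exact hAO hcA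
  · have hpn : (p : K) ∈ O.nonunits := hO ⟨(p : A), hpm, by simp⟩
    have hpO : ((p : O) : K) ∈ O.nonunits := by
      rw [show ((p : O) : K) = (p : K) from by push_cast; rfl]
      exact hpn
    have h0 : ((p : ℕ) : IsLocalRing.ResidueField O) = 0 := by
      have h1 : (p : O) ∈ IsLocalRing.maximalIdeal O := by
        rw [ValuationSubring.coe_mem_nonunits_iff] at hpO
        exact hpO
      have h2 := (IsLocalRing.residue_eq_zero_iff (p : O)).mpr h1
      rwa [map_natCast] at h2
    obtain ⟨q, hq⟩ := CharP.exists (IsLocalRing.ResidueField O)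
    have hqp : q ∣ p := (CharP.cast_eq_zero_iff _ q p).mp h0
    have hq1 : q ≠ 1 := CharP.char_ne_one (IsLocalRing.ResidueField O) q
    have : q = p := (Nat.dvd_prime hp).mp hqp |>.resolve_left hq1
    rw [← this]
    exact hq

end Pool.Agent.OPT.M1

namespace Pool.Agent.OPT

alias place := M1.place_pr

end Pool.Agent.OPT
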