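import Pool.Agent.Lib_helper80.OPF.Defs
import Pool.Agent.Lib_helper77.KSZ.Main
import Pool.Agent.Lib_helper80.OPF.M1
import Pool.Agent.Lib_helper80.OPF.M1b

/-! # OPN, block M2: places with large transcendence degree -/

set_option autoImplicit false

namespace Pool.Agent.OPT.M2

open MvPolynomial Pool.Agent.KSS Pool.Agent.KSX Pool.Agent.OPT

/-- A transcendence basis among the members of a family. -/
theorem m2_basis {K κ J : Type} [Field K] [Field κ] [Algebra K κ] [Fintype J] (ξ : J → κ) :
    ∃ S : Finset J, S.card = tau K ξ ∧ AlgebraicIndependent K (fun s : S => ξ s) ∧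
      ∀ j, IsAlgebraic (Algebra.adjoin K (Set.range fun s : S => ξ s)) (ξ j) := by
  obtain ⟨S, hS1, hS2⟩ := Pool.Agent.Lib_helper56.KSS.exists_tau (K := K) ξ
  refine ⟨S, by rw [glq_tau_eq]; exact hS1, hS2, fun j => ?_⟩
  have h := Pool.Agent.Lib_helper80.KSX.closure_of_tau (K := K) ξ S hS1 hS2 j
  rw [AlgebraicIndependent.matroid_closure_eq] at h
  exact h

/-- The elements of a field generated by algebraic elements are algebraic. -/
theorem m2_alg {K κ : Type} [Field K] [Field κ] [Algebra K κ] {J : Type} (ξ : J → κ) (s : Set κ)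
    (h : ∀ j, IsAlgebraic (Algebra.adjoin K s) (ξ j)) (e : κ)
    (he : e ∈ IntermediateField.adjoin K (Set.range ξ)) :
    IsAlgebraic (Algebra.adjoin K s) e := by
  induction he using IntermediateField.adjoin_induction with
  | mem x hx => obtain ⟨j, rfl⟩ := hx; exact h j
  | algebraMap x => exact isAlgebraic_algebraMap (algebraMap K (Algebra.adjoin K s) x)
  | add x y _ _ hx hy => exact hx.add hy
  | inv x _ hx => exact hx.inv
  | mul x y _ _ hx hy => exact hx.mul hy

/-- An algebraic equation with polynomial coefficients. -/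
theorem m2_poly {K κ : Type} [Field K] [Field κ] [Algebra K κ] {S : Type} (b : S → κ)
    (hb : AlgebraicIndependent K b) {e : κ}
    (he : IsAlgebraic (Algebra.adjoin K (Set.range b)) e) :
    ∃ P : Polynomial (MvPolynomial S K), P ≠ 0 ∧
      Polynomial.eval₂ ((aeval b : MvPolynomial S K →ₐ[K] κ) : MvPolynomial S K →+* κ) e P = 0 := by
  obtain ⟨p, hp, hpe⟩ := he
  let φ : Algebra.adjoin K (Set.range b) →+* MvPolynomial S K :=
    ((hb.aevalEquiv.symm : Algebra.adjoin K (Set.range b) ≃ₐ[K] MvPolynomial S K) :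
      Algebra.adjoin K (Set.range b) →+* MvPolynomial S K)
  have hφ : Function.Injective φ := hb.aevalEquiv.symm.injective
  refine ⟨p.map φ, ?_, ?_⟩
  · rwa [Ne, Polynomial.map_eq_zero_iff hφ]
  · rw [Polynomial.eval₂_map]
    have h1 : ((aeval b : MvPolynomial S K →ₐ[K] κ) : MvPolynomial S K →+* κ).comp φ =
        algebraMap (Algebra.adjoin K (Set.range b)) κ := by
      ext x
      show aeval b (hb.aevalEquiv.symm x) = _
      have h2 := hb.algebraMap_aevalEquiv (hb.aevalEquiv.symm x)
      rw [AlgEquiv.apply_symm_apply] at h2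
      exact h2.symm
    rw [h1]
    exact hpe

/-- The Gauss extension of a valuation ring. -/
theorem m2_ext {K κ : Type} [Field K] [Field κ] [Algebra K κ] {S : Type} (b : S → κ)
    (hb : AlgebraicIndependent K b) (O : ValuationSubring K) :
    ∃ (O1 : ValuationSubring κ) (gA : MvPolynomial S O →+* O1),
      (∀ P, (gA P : κ) = aeval b (MvPolynomial.map O.subtype P)) ∧
      ∀ P, IsUnit (gA P) ↔ MvPolynomial.map (IsLocalRing.residue O) P ≠ 0 := by
  classical
  let 𝔭 : Ideal (MvPolynomial S O) :=
    RingHom.ker (MvPolynomial.map (σ := S) (IsLocalRing.residue O))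
  have hp : 𝔭.IsPrime := RingHom.ker_isPrime _
  let g : MvPolynomial S O →+* κ :=
    ((aeval b : MvPolynomial S K →ₐ[K] κ) : MvPolynomial S K →+* κ).comp
      (MvPolynomial.map O.subtype)
  have hg : Function.Injective g := by
    have h1 : Function.Injective (aeval b : MvPolynomial S K →ₐ[K] κ) := hb
    exact h1.comp (MvPolynomial.map_injective _ Subtype.val_injective)
  have hgu : ∀ y : 𝔭.primeCompl, IsUnit (g y) := by
    intro y
    rw [isUnit_iff_ne_zero]
    intro h
    have h1 : (y : MvPolynomial S O) = 0 := hg (by rw [h, map_zero])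
    apply y.2
    rw [h1]
    exact 𝔭.zero_mem
  let f : Localization.AtPrime 𝔭 →+* κ := IsLocalization.lift (M := 𝔭.primeCompl) (g := g) hgu
  obtain ⟨A, h, hloc⟩ := IsLocalRing.exists_factor_valuationRing
    (R := Localization.AtPrime 𝔭) (K := κ) f
  let gA : MvPolynomial S O →+* A :=
    (f.codRestrict A.toSubring h).comp (algebraMap (MvPolynomial S O) (Localization.AtPrime 𝔭))
  refine ⟨A, gA, ?_, ?_⟩
  · intro P
    show f (algebraMap (MvPolynomial S O) (Localization.AtPrime 𝔭) P) = _
    exact IsLocalization.lift_eq _ _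
  · intro P
    have h1 : IsUnit (gA P) ↔
        IsUnit (algebraMap (MvPolynomial S O) (Localization.AtPrime 𝔭) P) := by
      constructor
      · intro hu
        exact hloc.map_nonunit _ hu
      · intro hu
        exact hu.map (f.codRestrict A.toSubring h)
    rw [h1, IsLocalization.AtPrime.isUnit_to_map_iff (Localization.AtPrime 𝔭) 𝔭]
    rfl

/-- Elements satisfying an equation whose leading coefficient is a unit. -/
theorem m2_int {κ R : Type} [Field κ] [CommRing R] (O1 : ValuationSubring κ) (gA : R →+* O1)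
    {e : κ} (P : Polynomial R) (h0 : P.eval₂ (O1.subtype.comp gA) e = 0)
    (hu : IsUnit (gA P.leadingCoeff)) : e ∈ O1 := by
  have h1 : (P.map gA).leadingCoeff = gA P.leadingCoeff :=
    Polynomial.leadingCoeff_map_of_leadingCoeff_ne_zero _ hu.ne_zero
  have h2 : IsUnit (P.map gA).leadingCoeff := by rw [h1]; exact hu
  have h3 : IsIntegral O1 e := by
    refine ⟨h2.unit⁻¹ • P.map gA, Polynomial.monic_of_isUnit_leadingCoeff_inv_smul h2, ?_⟩
    rw [Units.smul_def, Polynomial.smul_eq_C_mul, Polynomial.eval₂_mul, Polynomial.eval₂_map]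
    have h4 : Polynomial.eval₂ ((algebraMap O1 κ).comp gA) e P = 0 := h0
    rw [h4, mul_zero]
  obtain ⟨y, hy⟩ := IsIntegrallyClosed.isIntegral_iff.mp h3
  rw [← hy]
  exact y.2

theorem place_rel_pr {K κ : Type} [Field K] [IsAlgClosed K] [CharZero K] [Field κ] [Algebra K κ]
    {J : Type} [Fintype J] (ξ : J → κ) (Ξ : Finset κ)
    (hΞ : ∀ e ∈ Ξ, e ∈ IntermediateField.adjoin K (Set.range ξ)) (C : Finset K) (N : ℕ) :
    ∃ (p : ℕ) (O : ValuationSubring K) (O1 : ValuationSubring κ)
      (k0 : Type) (_ : Field k0) (_ : IsAlgClosed k0) (_ : CharP k0 p)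
      (k1 : Type) (_ : Field k1) (_ : Algebra k0 k1) (π0 : O →+* k0) (π1 : O1 →+* k1)
      (hO : ∀ c : O, algebraMap K κ c ∈ O1) (hξ : ∀ j, ξ j ∈ O1),
      p.Prime ∧ N ≤ p ∧ Function.Surjective π0 ∧ (∀ c ∈ C, c ∈ O) ∧ (∀ e ∈ Ξ, e ∈ O1) ∧
      (∀ c : O, π1 ⟨algebraMap K κ c, hO c⟩ = algebraMap k0 k1 (π0 c)) ∧
      tau K ξ ≤ tau k0 (fun j => π1 ⟨ξ j, hξ j⟩) := by
  classical
  obtain ⟨S, hS1, hS2, hS3⟩ := m2_basis (K := K) ξ
  let b : S → κ := fun s => ξ s
  let Z : Finset κ := Finset.univ.image ξ ∪ Ξ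
  have hZ : ∀ e ∈ Z, IsAlgebraic (Algebra.adjoin K (Set.range b)) e := by
    intro e he
    rcases Finset.mem_union.mp he with h | h
    · obtain ⟨j, -, rfl⟩ := Finset.mem_image.mp h
      exact hS3 j
    · exact m2_alg ξ (Set.range b) hS3 e (hΞ e h)
  -- the equations
  have hex : ∀ e : κ, ∃ P : Polynomial (MvPolynomial S K), P ≠ 0 ∧
      (e ∈ Z → Polynomial.eval₂ ((aeval b : MvPolynomial S K →ₐ[K] κ) :
        MvPolynomial S K →+* κ) e P = 0) := by
    intro e
    by_cases he : e ∈ Z
    · obtain ⟨P, hP, hPe⟩ := m2_poly b hS2 (hZ e he)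
      exact ⟨P, hP, fun _ => hPe⟩
    · exact ⟨1, one_ne_zero, fun h => absurd h he⟩
  choose P hP0 hPe using hex
  have hlc : ∀ e, ∃ d, coeff d (P e).leadingCoeff ≠ 0 := by
    intro e
    have h1 : (P e).leadingCoeff ≠ 0 := Polynomial.leadingCoeff_ne_zero.mpr (hP0 e)
    exact MvPolynomial.ne_zero_iff.mp h1
  choose dd hdd using hlc
  let C' : Finset K := C ∪ Z.biUnion fun e =>
    insert (coeff (dd e) (P e).leadingCoeff)⁻¹ ((P e).coeffs.biUnion fun a => a.coeffs)
  obtain ⟨p, O, hp, hNp, hCO, hchar⟩ := place C' N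
  have hCO1 : ∀ c ∈ C, c ∈ O := fun c hc => hCO c (Finset.mem_union_left _ hc)
  have hCO2 : ∀ e ∈ Z, (coeff (dd e) (P e).leadingCoeff)⁻¹ ∈ O := fun e he =>
    hCO _ (Finset.mem_union_right _ (Finset.mem_biUnion.mpr ⟨e, he, Finset.mem_insert_self _ _⟩))
  have hCO3 : ∀ e ∈ Z, ∀ n, ∀ c ∈ ((P e).coeff n).coeffs, c ∈ O := by
    intro e he n c hc
    have h1 : (P e).coeff n ≠ 0 := by
      rintro h
      rw [h] at hc
      simp at hc
    refine hCO _ (Finset.mem_union_right _ (Finset.mem_biUnion.mpr ⟨e, he,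
      Finset.mem_insert_of_mem (Finset.mem_biUnion.mpr ⟨(P e).coeff n, ?_, hc⟩)⟩))
    exact Polynomial.coeff_mem_coeffs h1
  obtain ⟨O1, gA, hgA, hunit⟩ := m2_ext b hS2 O
  -- the elements of `Z` lie in `O1`
  have hZO : ∀ e ∈ Z, e ∈ O1 := by
    intro e he
    have h1 : ∀ n, (P e).coeff n ∈ Set.range (MvPolynomial.map (σ := S) O.subtype) := by
      intro n
      rw [MvPolynomial.mem_range_map_iff_coeffs_subset]
      intro c hc
      exact ⟨⟨c, hCO3 e he n c hc⟩, rfl⟩
    have h2 : P e ∈ Polynomial.lifts (MvPolynomial.map (σ := S) O.subtype) := by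
      rw [Polynomial.lifts_iff_coeff_lifts]
      exact h1
    obtain ⟨Q, hQ⟩ := Polynomial.mem_lifts _ |>.mp h2
    have hinj : Function.Injective (MvPolynomial.map (σ := S) O.subtype) :=
      MvPolynomial.map_injective _ Subtype.val_injective
    have hlead : MvPolynomial.map O.subtype Q.leadingCoeff = (P e).leadingCoeff := by
      rw [← hQ, Polynomial.leadingCoeff_map_of_injective hinj]
    apply m2_int O1 gA Q
    · have h3 := hPe e he
      rw [← hQ, Polynomial.eval₂_map] at h3
      have h4 : O1.subtype.comp gA = ((aeval b : MvPolynomial S K →ₐ[K] κ) :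
          MvPolynomial S K →+* κ).comp (MvPolynomial.map O.subtype) := by
        apply RingHom.ext
        intro x
        exact hgA x
      rw [h4]
      exact h3
    · rw [hunit]
      intro h3
      have h4 : IsLocalRing.residue O (coeff (dd e) Q.leadingCoeff) = 0 := by
        rw [← MvPolynomial.coeff_map, h3, coeff_zero]
      have h5 : ((coeff (dd e) Q.leadingCoeff : O) : K) = coeff (dd e) (P e).leadingCoeff := by
        rw [← hlead, MvPolynomial.coeff_map]
        rfl
      have h6 : IsUnit (coeff (dd e) Q.leadingCoeff) := by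
        refine IsUnit.of_mul_eq_one
          (⟨(coeff (dd e) (P e).leadingCoeff)⁻¹, hCO2 e he⟩ : O) ?_
        apply Subtype.ext
        show ((coeff (dd e) Q.leadingCoeff : O) : K) * (coeff (dd e) (P e).leadingCoeff)⁻¹ = 1
        rw [h5, mul_inv_cancel₀ (hdd e)]
      rw [IsLocalRing.residue_eq_zero_iff, IsLocalRing.mem_maximalIdeal] at h4
      exact h4 h6
  have hξ : ∀ j, ξ j ∈ O1 := fun j =>
    hZO _ (Finset.mem_union_left _ (Finset.mem_image_of_mem _ (Finset.mem_univ j)))
  have hΞO : ∀ e ∈ Ξ, e ∈ O1 := fun e he => hZO _ (Finset.mem_union_right _ he)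
  have hgC : ∀ c : O, (gA (MvPolynomial.C c) : κ) = algebraMap K κ c := by
    intro c
    rw [hgA, MvPolynomial.map_C, MvPolynomial.aeval_C]
    rfl
  have hO : ∀ c : O, algebraMap K κ c ∈ O1 := fun c => by
    rw [← hgC]
    exact (gA (MvPolynomial.C c)).2
  let φO : O →+* O1 := gA.comp MvPolynomial.C
  have hφloc : IsLocalHom φO := by
    refine ⟨fun c hc => ?_⟩
    have h1 : IsUnit (gA (MvPolynomial.C c)) := hc
    rw [hunit, MvPolynomial.map_C] at h1
    by_contra h2
    apply h1
    have h3 : IsLocalRing.residue O c = 0 := by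
      rw [IsLocalRing.residue_eq_zero_iff, IsLocalRing.mem_maximalIdeal]
      exact h2
    rw [h3, MvPolynomial.C_0]
  let alg : Algebra (IsLocalRing.ResidueField O) (IsLocalRing.ResidueField O1) :=
    (IsLocalRing.ResidueField.map φO).toAlgebra
  have hcomp : ∀ c : O, IsLocalRing.residue O1 (φO c) =
      algebraMap (IsLocalRing.ResidueField O) (IsLocalRing.ResidueField O1)
        (IsLocalRing.residue O c) := by
    intro c
    rfl
  have hres : Function.Surjective (IsLocalRing.residue O) := IsLocalRing.residue_surjective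
  refine ⟨p, O, O1, IsLocalRing.ResidueField O, inferInstance, resid_closed O, hchar,
    IsLocalRing.ResidueField O1, inferInstance, alg, IsLocalRing.residue O, IsLocalRing.residue O1,
    hO, hξ, hp, hNp, hres, hCO1, hΞO, ?_, ?_⟩
  · intro c
    rw [← hcomp]
    congr 1
    apply Subtype.ext
    exact (hgC c).symm
  · -- transcendence degree
    have hind : AlgebraicIndependent (IsLocalRing.ResidueField O)
        (fun s : S => IsLocalRing.residue O1 ⟨ξ s, hξ s⟩) := by
      rw [algebraicIndependent_iff]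
      intro T hT
      obtain ⟨T', rfl⟩ := MvPolynomial.map_surjective _ hres T
      by_contra hne
      have h1 : IsUnit (gA T') := (hunit T').mpr hne
      have h2 : IsLocalRing.residue O1 (gA T') = 0 := by
        rw [← hT, MvPolynomial.aeval_def, MvPolynomial.eval₂_map]
        have h3 : (IsLocalRing.residue O1).comp gA = MvPolynomial.eval₂Hom
            ((algebraMap (IsLocalRing.ResidueField O) (IsLocalRing.ResidueField O1)).comp
              (IsLocalRing.residue O)) (fun s : S => IsLocalRing.residue O1 ⟨ξ s, hξ s⟩) := by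
          apply MvPolynomial.ringHom_ext
          · intro c
            rw [MvPolynomial.eval₂Hom_C]
            exact hcomp c
          · intro s
            rw [MvPolynomial.eval₂Hom_X']
            show IsLocalRing.residue O1 (gA (X s)) = _
            congr 1
            apply Subtype.ext
            rw [hgA, MvPolynomial.map_X, MvPolynomial.aeval_X]
        exact RingHom.congr_fun h3 T'
      rw [IsLocalRing.residue_eq_zero_iff, IsLocalRing.mem_maximalIdeal] at h2
      exact h2 h1
    rw [← hS1]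
    refine le_csSup ⟨Fintype.card J, ?_⟩ ⟨S, rfl, hind⟩
    rintro n ⟨T, rfl, -⟩
    exact Finset.card_le_univ T


end Pool.Agent.OPT.M2

namespace Pool.Agent.OPT

alias place_rel := M2.place_rel_pr

end Pool.Agent.OPT
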