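import Pool.Agent.Lib_helper80.OPF.Defs

/-! OPN, block M3: Hensel's lemma for arcs. -/

namespace Pool.Agent.OPT.M3

open MvPolynomial Pool.Agent.KSS Pool.Agent.KSX

/-- first order Taylor formula -/
theorem taylor {K R : Type} [CommRing K] [CommRing R] [Algebra K R] {v : ℕ} (I : Ideal R)
    (g : MvPolynomial (Fin v) K) (ξ δ : Fin v → R) (hδ : ∀ a, δ a ∈ I) :
    aeval (fun a => ξ a + δ a) g - aeval ξ g - ∑ a, aeval ξ (pderiv a g) * δ a ∈ I ^ 2 := by
  classical
  induction g using MvPolynomial.induction_on with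
  | C c => simp
  | add g h hg hh =>
    have := (I ^ 2).add_mem hg hh
    simp only [map_add, add_mul, Finset.sum_add_distrib]
    convert this using 1
    ring
  | mul_X g b hg =>
    set r := aeval (fun a => ξ a + δ a) g - aeval ξ g - ∑ a, aeval ξ (pderiv a g) * δ a with hr
    have h1 : aeval (fun a => ξ a + δ a) g = r + aeval ξ g + ∑ a, aeval ξ (pderiv a g) * δ a := by
      rw [hr]
      ring
    have h2 : ∑ a, aeval ξ (pderiv a (g * X b)) * δ a =
        (∑ a, aeval ξ (pderiv a g) * δ a) * ξ b + aeval ξ g * δ b := by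
      have h3 : ∀ a, aeval ξ (pderiv a (g * X b)) * δ a =
          aeval ξ (pderiv a g) * δ a * ξ b + aeval ξ g * (if a = b then δ a else 0) := by
        intro a
        rw [pderiv_mul, pderiv_X, map_add, map_mul, map_mul, aeval_X]
        by_cases hab : a = b
        · subst hab
          simp only [Pi.single_eq_same, map_one, if_true]
          ring
        · rw [Pi.single_eq_of_ne (Ne.symm hab), map_zero, if_neg hab]
          ring
      rw [Finset.sum_congr rfl fun a _ => h3 a, Finset.sum_add_distrib, ← Finset.sum_mul,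
        ← Finset.mul_sum, Finset.sum_ite_eq' Finset.univ b]
      simp
    rw [map_mul, map_mul, aeval_X, aeval_X, h2, h1]
    have h4 : (r + aeval ξ g + ∑ a, aeval ξ (pderiv a g) * δ a) * (ξ b + δ b) - aeval ξ g * ξ b -
        ((∑ a, aeval ξ (pderiv a g) * δ a) * ξ b + aeval ξ g * δ b) =
        (ξ b + δ b) * r + (∑ a, aeval ξ (pderiv a g) * δ a) * δ b := by ring
    rw [h4]
    apply Ideal.add_mem _ ((I ^ 2).mul_mem_left _ hg)
    rw [pow_two]
    exact Ideal.mul_mem_mul (Ideal.sum_mem _ fun a _ => I.mul_mem_left _ (hδ a)) (hδ b)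

/-- the Jacobian matrix at a point -/
noncomputable def MM {K R : Type} [CommRing K] [CommRing R] [Algebra K R] {k v : ℕ}
    (f : Fin k → MvPolynomial (Fin v) K) (z : Fin k → Fin v) (x : Fin v → R) :
    Matrix (Fin k) (Fin k) R := Matrix.of fun i j => aeval x (pderiv (z j) (f i))

theorem MM_det {K R : Type} [CommRing K] [CommRing R] [Algebra K R] {k v : ℕ}
    (f : Fin k → MvPolynomial (Fin v) K) (z : Fin k → Fin v) (x : Fin v → R) :
    (MM f z x).det = aeval x (jac f z) := by
  unfold jac MM
  rw [AlgHom.map_det]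
  rfl

/-- the Taylor formula with increments in the directions `z j` -/
theorem taylor_z {K R : Type} [CommRing K] [CommRing R] [Algebra K R] {k v : ℕ} (I : Ideal R)
    (g : MvPolynomial (Fin v) K) (z : Fin k → Fin v) (hz : Function.Injective z)
    (x y : Fin v → R) (hxy : ∀ a, y a - x a ∈ I) (hY : ∀ a, a ∉ Set.range z → y a = x a) :
    aeval y g - aeval x g - ∑ j, aeval x (pderiv (z j) g) * (y (z j) - x (z j)) ∈ I ^ 2 := by
  classical
  have h1 := taylor I g x (fun a => y a - x a) hxy
  have h2 : (fun a => x a + (y a - x a)) = y := by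
    funext a
    ring
  rw [h2] at h1
  have h3 : ∑ a, aeval x (pderiv a g) * (y a - x a) =
      ∑ j, aeval x (pderiv (z j) g) * (y (z j) - x (z j)) := by
    rw [← Finset.sum_image (s := Finset.univ) (g := z)
      (f := fun a => aeval x (pderiv a g) * (y a - x a)) (fun i _ j _ h => hz h)]
    symm
    apply Finset.sum_subset (Finset.subset_univ _)
    intro a _ ha
    rw [hY a (fun ⟨j, hj⟩ => ha (Finset.mem_image.2 ⟨j, Finset.mem_univ _, hj⟩)), sub_self,
      mul_zero]
  rw [h3] at h1
  exact h1

/-- polynomials respect congruences -/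
theorem congr_mem {K R : Type} [CommRing K] [CommRing R] [Algebra K R] {v : ℕ} (I : Ideal R)
    (g : MvPolynomial (Fin v) K) (x y : Fin v → R) (hxy : ∀ a, y a - x a ∈ I) :
    aeval y g - aeval x g ∈ I := by
  have h1 := taylor I g x (fun a => y a - x a) hxy
  have h2 : (fun a => x a + (y a - x a)) = y := by
    funext a
    ring
  rw [h2] at h1
  have h3 : ∑ a, aeval x (pderiv a g) * (y a - x a) ∈ I :=
    Ideal.sum_mem _ fun a _ => I.mul_mem_left _ (hxy a)
  have h4 := I.add_mem (Ideal.pow_le_self two_ne_zero h1) h3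
  convert h4 using 1
  ring

/-- the Newton step -/
noncomputable def step {K R : Type} [CommRing K] [CommRing R] [Algebra K R] {k v : ℕ}
    (f : Fin k → MvPolynomial (Fin v) K) (z : Fin k → Fin v) (x : Fin v → R) : Fin v → R :=
  open Classical in fun a => x a - ∑ j, if z j = a then
    ((MM f z x)⁻¹.mulVec fun i => aeval x (f i)) j else 0

theorem step_off {K R : Type} [CommRing K] [CommRing R] [Algebra K R] {k v : ℕ}
    (f : Fin k → MvPolynomial (Fin v) K) (z : Fin k → Fin v) (x : Fin v → R) {a : Fin v}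
    (ha : a ∉ Set.range z) : step f z x a = x a := by
  classical
  unfold step
  rw [Finset.sum_eq_zero, sub_zero]
  intro j _
  rw [if_neg]
  exact fun h => ha ⟨j, h⟩

theorem step_on {K R : Type} [CommRing K] [CommRing R] [Algebra K R] {k v : ℕ}
    (f : Fin k → MvPolynomial (Fin v) K) (z : Fin k → Fin v) (hz : Function.Injective z)
    (x : Fin v → R) (j : Fin k) :
    step f z x (z j) - x (z j) = - ((MM f z x)⁻¹.mulVec fun i => aeval x (f i)) j := by
  classical
  unfold step
  rw [Finset.sum_eq_single j]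
  · rw [if_pos rfl]
    ring
  · intro i _ hij
    rw [if_neg (fun h => hij (hz h))]
  · intro h
    exact absurd (Finset.mem_univ _) h

theorem step_mem {K R : Type} [CommRing K] [CommRing R] [Algebra K R] {k v : ℕ}
    (f : Fin k → MvPolynomial (Fin v) K) (z : Fin k → Fin v) (hz : Function.Injective z)
    (I : Ideal R) (x : Fin v → R) (h0 : ∀ i, aeval x (f i) ∈ I) (a : Fin v) :
    step f z x a - x a ∈ I := by
  by_cases ha : a ∈ Set.range z
  · obtain ⟨j, rfl⟩ := ha
    rw [step_on f z hz]
    apply I.neg_mem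
    rw [Matrix.mulVec, dotProduct]
    exact Ideal.sum_mem _ fun i _ => I.mul_mem_left _ (h0 i)
  · rw [step_off f z x ha, sub_self]
    exact I.zero_mem

theorem step_f {K R : Type} [CommRing K] [CommRing R] [Algebra K R] {k v : ℕ}
    (f : Fin k → MvPolynomial (Fin v) K) (z : Fin k → Fin v) (hz : Function.Injective z)
    (I : Ideal R) (x : Fin v → R) (h0 : ∀ i, aeval x (f i) ∈ I)
    (hJ : IsUnit (aeval x (jac f z))) (i : Fin k) : aeval (step f z x) (f i) ∈ I ^ 2 := by
  have h1 := taylor_z I (f i) z hz x (step f z x) (step_mem f z hz I x h0)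
    (fun a ha => step_off f z x ha)
  have h2 : ∑ j, aeval x (pderiv (z j) (f i)) * (step f z x (z j) - x (z j)) =
      - aeval x (f i) := by
    have h3 : ∑ j, aeval x (pderiv (z j) (f i)) * (step f z x (z j) - x (z j)) =
        - ((MM f z x).mulVec ((MM f z x)⁻¹.mulVec fun i => aeval x (f i))) i := by
      rw [Matrix.mulVec, dotProduct, ← Finset.sum_neg_distrib]
      apply Finset.sum_congr rfl
      intro j _
      rw [step_on f z hz, mul_neg]
      rfl
    rw [h3, Matrix.mulVec_mulVec, Matrix.mul_nonsing_inv _ (by rw [MM_det]; exact hJ),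
      Matrix.one_mulVec]
  rw [h2] at h1
  convert h1 using 1
  ring

theorem unit_of_congr {K B : Type} [CommRing B] [CommRing K] [Algebra K B] {v : ℕ}
    (g : MvPolynomial (Fin v) K) (x y : Fin v → PowerSeries B)
    (h1 : ∀ a, (PowerSeries.X : PowerSeries B) ∣ y a - x a)
    (hJ : IsUnit (PowerSeries.constantCoeff (aeval x g))) :
    IsUnit (PowerSeries.constantCoeff (aeval y g)) := by
  have h2 := congr_mem (Ideal.span {(PowerSeries.X : PowerSeries B)}) g x y
    (fun a => Ideal.mem_span_singleton.2 (h1 a))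
  rw [Ideal.mem_span_singleton, PowerSeries.X_dvd_iff, map_sub, sub_eq_zero] at h2
  rw [h2]
  exact hJ

theorem hensel_arc_pr {B : Type} [CommRing B] {k v : ℕ} (f : Fin k → MvPolynomial (Fin v) B)
    (z : Fin k → Fin v) (hz : Function.Injective z) (L1 : ℕ) (hL1 : 1 ≤ L1)
    (ξ : Fin v → PowerSeries B)
    (h0 : ∀ i, (PowerSeries.X : PowerSeries B) ^ L1 ∣ aeval ξ (f i))
    (hJ : IsUnit (PowerSeries.constantCoeff (aeval ξ (jac f z)))) :
    ∃ x : Fin v → PowerSeries B, (∀ a, a ∉ Set.range z → x a = ξ a) ∧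
      (∀ a, (PowerSeries.X : PowerSeries B) ^ L1 ∣ x a - ξ a) ∧ ∀ i, aeval x (f i) = 0 := by
  classical
  set s : ℕ → Fin v → PowerSeries B := fun n => (step f z)^[n] ξ with hs
  have hs0 : s 0 = ξ := rfl
  have hss : ∀ n, s (n + 1) = step f z (s n) := by
    intro n
    rw [hs]
    simp only
    rw [Function.iterate_succ_apply']
  have key : ∀ n, (∀ a, (PowerSeries.X : PowerSeries B) ^ L1 ∣ s n a - ξ a) ∧
      (∀ i, (PowerSeries.X : PowerSeries B) ^ (L1 + n) ∣ aeval (s n) (f i)) ∧
      (∀ a, a ∉ Set.range z → s n a = ξ a) ∧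
      (∀ a, (PowerSeries.X : PowerSeries B) ^ (L1 + n) ∣ s (n + 1) a - s n a) := by
    intro n
    have aux : ∀ n, (∀ i, (PowerSeries.X : PowerSeries B) ^ (L1 + n) ∣ aeval (s n) (f i)) →
        ∀ a, (PowerSeries.X : PowerSeries B) ^ (L1 + n) ∣ s (n + 1) a - s n a := by
      intro n h a
      rw [hss, ← Ideal.mem_span_singleton]
      exact step_mem f z hz _ _ (fun i => Ideal.mem_span_singleton.2 (h i)) a
    induction n with
    | zero =>
      have h1 : ∀ i, (PowerSeries.X : PowerSeries B) ^ (L1 + 0) ∣ aeval (s 0) (f i) := by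
        intro i
        rw [add_zero]
        exact h0 i
      refine ⟨fun a => ?_, h1, fun a _ => rfl, aux 0 h1⟩
      rw [hs0, sub_self]
      exact dvd_zero _
    | succ n ih =>
      obtain ⟨ih1, ih2, ih3, ih4⟩ := ih
      have hu : IsUnit (aeval (s n) (jac f z)) := by
        rw [PowerSeries.isUnit_iff_constantCoeff]
        exact unit_of_congr (jac f z) ξ (s n)
          (fun a => (dvd_pow_self _ (by omega)).trans (ih1 a)) hJ
      have h2 : ∀ i, (PowerSeries.X : PowerSeries B) ^ (L1 + (n + 1)) ∣ aeval (s (n + 1)) (f i) := by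
        intro i
        have h3 := step_f f z hz (Ideal.span {(PowerSeries.X : PowerSeries B) ^ (L1 + n)}) (s n)
          (fun i => Ideal.mem_span_singleton.2 (ih2 i)) hu i
        rw [Ideal.span_singleton_pow, Ideal.mem_span_singleton, ← pow_mul] at h3
        rw [hss]
        exact (pow_dvd_pow _ (by omega)).trans h3
      refine ⟨fun a => ?_, h2, fun a ha => ?_, aux (n + 1) h2⟩
      · have h4 := dvd_add ((pow_dvd_pow _ (by omega)).trans (ih4 a)) (ih1 a)
        convert h4 using 1
        ring
      · rw [hss, step_off f z _ ha, ih3 a ha]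
  -- the limit
  have hstab : ∀ n m a, (PowerSeries.X : PowerSeries B) ^ (L1 + n) ∣ s (n + m) a - s n a := by
    intro n m a
    induction m with
    | zero => rw [add_zero, sub_self]; exact dvd_zero _
    | succ m ih =>
      have h1 := (pow_dvd_pow (PowerSeries.X : PowerSeries B) (by omega)).trans
        ((key (n + m)).2.2.2 a) (a := (PowerSeries.X : PowerSeries B) ^ (L1 + n))
      have h2 := dvd_add h1 ih
      convert h2 using 1
      rw [← add_assoc]
      ring
  set x : Fin v → PowerSeries B := fun a => PowerSeries.mk fun m => (s m a).coeff m with hx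
  have hlim : ∀ n a, (PowerSeries.X : PowerSeries B) ^ (L1 + n) ∣ x a - s n a := by
    intro n a
    rw [PowerSeries.X_pow_dvd_iff]
    intro m hm
    rw [map_sub, hx, PowerSeries.coeff_mk, sub_eq_zero]
    rcases le_total m n with h | h
    · obtain ⟨r, rfl⟩ := Nat.exists_eq_add_of_le h
      have h1 := PowerSeries.X_pow_dvd_iff.1 (hstab m r a) m (by omega)
      rw [map_sub, sub_eq_zero] at h1
      exact h1.symm
    · obtain ⟨r, rfl⟩ := Nat.exists_eq_add_of_le h
      have h1 := PowerSeries.X_pow_dvd_iff.1 (hstab n r a) (n + r) (by omega)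
      rw [map_sub, sub_eq_zero] at h1
      exact h1
  refine ⟨x, fun a ha => ?_, fun a => ?_, fun i => ?_⟩
  · rw [hx]
    ext m
    rw [PowerSeries.coeff_mk, (key m).2.2.1 a ha]
  · have := hlim 0 a
    rw [add_zero, hs0] at this
    exact this
  · ext m
    rw [map_zero]
    have h1 := congr_mem (Ideal.span {(PowerSeries.X : PowerSeries B) ^ (L1 + m)}) (f i) (s m) x
      (fun a => Ideal.mem_span_singleton.2 (hlim m a))
    rw [Ideal.mem_span_singleton] at h1
    have h2 := dvd_add h1 ((key m).2.1 i)
    rw [sub_add_cancel] at h2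
    exact PowerSeries.X_pow_dvd_iff.1 h2 m (by omega)

theorem hensel_uniq_pr {B K : Type} [CommRing B] [CommRing K] [Algebra K B] {k v : ℕ}
    (f : Fin k → MvPolynomial (Fin v) K)
    (z : Fin k → Fin v) (hz : Function.Injective z) (x y : Fin v → PowerSeries B)
    (hx : ∀ i, aeval x (f i) = 0) (hy : ∀ i, aeval y (f i) = 0)
    (hY : ∀ a, a ∉ Set.range z → x a = y a)
    (h1 : ∀ a, (PowerSeries.X : PowerSeries B) ∣ x a - y a)
    (hJ : IsUnit (PowerSeries.constantCoeff (aeval x (jac f z)))) : x = y := by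
  have hu : IsUnit (MM f z x).det := by
    rw [MM_det, PowerSeries.isUnit_iff_constantCoeff]
    exact hJ
  have key : ∀ n a, (PowerSeries.X : PowerSeries B) ^ (n + 1) ∣ y a - x a := by
    intro n
    induction n with
    | zero =>
      intro a
      rw [zero_add, pow_one, ← neg_sub]
      exact (dvd_neg).2 (h1 a)
    | succ n ih =>
      have h2 : ∀ i, (PowerSeries.X : PowerSeries B) ^ (n + 1 + 1) ∣
          ((MM f z x).mulVec fun j => y (z j) - x (z j)) i := by
        intro i
        have h3 := taylor_z (Ideal.span {(PowerSeries.X : PowerSeries B) ^ (n + 1)}) (f i) z hz x y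
          (fun a => Ideal.mem_span_singleton.2 (ih a)) (fun a ha => (hY a ha).symm)
        rw [hx, hy, sub_self, zero_sub, Ideal.neg_mem_iff, Ideal.span_singleton_pow,
          Ideal.mem_span_singleton, ← pow_mul] at h3
        exact (pow_dvd_pow _ (by omega)).trans h3
      have h4 : ∀ j, (PowerSeries.X : PowerSeries B) ^ (n + 1 + 1) ∣ y (z j) - x (z j) := by
        intro j
        have h5 : y (z j) - x (z j) =
            ((MM f z x)⁻¹.mulVec ((MM f z x).mulVec fun j => y (z j) - x (z j))) j := by
          rw [Matrix.mulVec_mulVec, Matrix.nonsing_inv_mul _ hu, Matrix.one_mulVec]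
        rw [h5, Matrix.mulVec, dotProduct]
        exact Finset.dvd_sum fun i _ => (h2 i).mul_left _
      intro a
      by_cases ha : a ∈ Set.range z
      · obtain ⟨j, rfl⟩ := ha
        exact h4 j
      · rw [hY a ha, sub_self]
        exact dvd_zero _
  funext a
  ext m
  have h6 := PowerSeries.X_pow_dvd_iff.1 (key m a) m (by omega)
  rw [map_sub, sub_eq_zero] at h6
  exact h6.symm

end Pool.Agent.OPT.M3

namespace Pool.Agent.OPT

alias hensel_arc := M3.hensel_arc_pr
alias hensel_uniq := M3.hensel_uniq_pr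

end Pool.Agent.OPT
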