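import Pool.Agent.Lib_helper80.OPF.Defs
import Pool.Agent.Lib_helper56.KSS.J1

/-!
# OPN: block M4, levels of jets
-/

set_option autoImplicit false

namespace Pool.Agent.OPT.M4

open MvPolynomial Pool.Agent.KSS Pool.Agent.KSX Pool.Agent.OPT

/-- Taylor expansion modulo squares -/
theorem taylor {K S V : Type} [CommRing K] [CommRing S] [Algebra K S] [Fintype V] (t : S)
    (ξ η : V → S) (h : ∀ a, t ∣ ξ a - η a) (P : MvPolynomial V K) :
    t ^ 2 ∣ aeval ξ P - aeval η P - ∑ a, aeval η (pderiv a P) * (ξ a - η a) := by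
  classical
  induction P using MvPolynomial.induction_on with
  | C c => simp
  | add p q hp hq =>
    have h1 : aeval ξ (p + q) - aeval η (p + q) -
        ∑ a, aeval η (pderiv a (p + q)) * (ξ a - η a) =
        (aeval ξ p - aeval η p - ∑ a, aeval η (pderiv a p) * (ξ a - η a)) +
        (aeval ξ q - aeval η q - ∑ a, aeval η (pderiv a q) * (ξ a - η a)) := by
      simp only [map_add, add_mul, Finset.sum_add_distrib]
      ring
    rw [h1]
    exact dvd_add hp hq
  | mul_X p b hp =>
    have h1 : ∑ a, aeval η (pderiv a (p * X b)) * (ξ a - η a) =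
        (∑ a, aeval η (pderiv a p) * (ξ a - η a)) * η b + aeval η p * (ξ b - η b) := by
      have h2 : ∀ a, aeval η (pderiv a (p * X b)) * (ξ a - η a) =
          aeval η (pderiv a p) * (ξ a - η a) * η b +
            (if a = b then aeval η p * (ξ a - η a) else 0) := by
        intro a
        rw [pderiv_mul, map_add, map_mul, map_mul, aeval_X]
        by_cases hab : a = b
        · subst hab
          rw [if_pos rfl, pderiv_X_self, map_one]
          ring
        · rw [if_neg hab, pderiv_X_of_ne (Ne.symm hab), map_zero]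
          ring
      rw [Finset.sum_congr rfl fun a _ => h2 a, Finset.sum_add_distrib, ← Finset.sum_mul,
        Finset.sum_ite_eq' Finset.univ b, if_pos (Finset.mem_univ _)]
    have h2 : t ∣ ∑ a, aeval η (pderiv a p) * (ξ a - η a) :=
      Finset.dvd_sum fun a _ => Dvd.dvd.mul_left (h a) _
    have h3 : aeval ξ (p * X b) - aeval η (p * X b) -
        ((∑ a, aeval η (pderiv a p) * (ξ a - η a)) * η b + aeval η p * (ξ b - η b)) =
        (∑ a, aeval η (pderiv a p) * (ξ a - η a)) * (ξ b - η b) +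
          (aeval ξ p - aeval η p - ∑ a, aeval η (pderiv a p) * (ξ a - η a)) * ξ b := by
      rw [map_mul, map_mul, aeval_X, aeval_X]
      ring
    rw [h1, h3]
    refine dvd_add ?_ (Dvd.dvd.mul_right hp _)
    rw [sq]
    exact mul_dvd_mul h2 (h b)

section co

variable {K κ : Type} [Field K] [Field κ] [Algebra K κ]

/-- the coefficients of a polynomial in power series with coefficients in a subfield -/
theorem coeff_mem {V : Type} (E : IntermediateField K κ) (η : V → PowerSeries κ)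
    (h : ∀ a n, (η a).coeff n ∈ E) (P : MvPolynomial V K) (n : ℕ) :
    (aeval η P).coeff n ∈ E := by
  induction P using MvPolynomial.induction_on generalizing n with
  | C c =>
    rw [aeval_C, PowerSeries.algebraMap_apply, PowerSeries.coeff_C]
    split_ifs
    · exact E.algebraMap_mem c
    · exact E.zero_mem
  | add p q hp hq =>
    rw [map_add, map_add]
    exact E.add_mem (hp n) (hq n)
  | mul_X p b hp =>
    rw [map_mul, aeval_X, PowerSeries.coeff_mul]
    exact sum_mem fun x _ => mul_mem (hp _) (h _ _)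

theorem const_aeval {V : Type} (η : V → PowerSeries κ) (P : MvPolynomial V K) :
    PowerSeries.constantCoeff (aeval η P) = aeval (fun a => PowerSeries.constantCoeff (η a)) P := by
  induction P using MvPolynomial.induction_on with
  | C c =>
    rw [aeval_C, aeval_C, PowerSeries.algebraMap_apply, PowerSeries.constantCoeff_C]
  | add p q hp hq => rw [map_add, map_add, map_add, hp, hq]
  | mul_X p b hp => rw [map_mul, map_mul, map_mul, aeval_X, aeval_X, hp]

/-- a linear system with coefficients in a subfield -/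
theorem lin_mem {k : ℕ} (E : IntermediateField K κ) (M : Matrix (Fin k) (Fin k) κ)
    (hM : ∀ i j, M i j ∈ E) (hd : M.det ≠ 0) (w b : Fin k → κ) (hb : ∀ i, b i ∈ E)
    (h : M.mulVec w = b) (j : Fin k) : w j ∈ E := by
  set M' : Matrix (Fin k) (Fin k) E := Matrix.of fun i j => ⟨M i j, hM i j⟩ with hM'
  set b' : Fin k → E := fun i => ⟨b i, hb i⟩ with hb'
  have h1 : (algebraMap E κ) M'.det = M.det := by
    rw [RingHom.map_det]
    rfl
  have h2 : M'.det ≠ 0 := by
    intro h3
    rw [h3, map_zero] at h1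
    exact hd h1.symm
  have h3 : M'.mulVec (M'⁻¹.mulVec b') = b' := by
    rw [Matrix.mulVec_mulVec, Matrix.mul_nonsing_inv _ (isUnit_iff_ne_zero.2 h2),
      Matrix.one_mulVec]
  have h4 : M.mulVec (fun i => ((M'⁻¹.mulVec b') i : κ)) = b := by
    funext i
    have h5 := congrArg (fun x : E => (x : κ)) (congrFun h3 i)
    have h6 : ((M'.mulVec (M'⁻¹.mulVec b') i : E) : κ) =
        M.mulVec (fun i => ((M'⁻¹.mulVec b') i : κ)) i := by
      rw [Matrix.mulVec, Matrix.mulVec, dotProduct, dotProduct]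
      push_cast
      rfl
    rw [← h6]
    exact h5
  have h5 : w - (fun i => ((M'⁻¹.mulVec b') i : κ)) = 0 := by
    refine Matrix.eq_zero_of_mulVec_eq_zero hd ?_
    rw [Matrix.mulVec_sub, h, h4, sub_self]
  have h6 := congrFun (sub_eq_zero.1 h5) j
  rw [h6]
  exact ((M'⁻¹.mulVec b') j).2

theorem const_det {k v : ℕ} (f : Fin k → MvPolynomial (Fin v) K) (z : Fin k → Fin v)
    (ξ : Fin v → PowerSeries κ) :
    (Matrix.of fun i j => PowerSeries.constantCoeff (aeval ξ (pderiv (z j) (f i)))).det =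
      PowerSeries.constantCoeff (aeval ξ (jac f z)) := by
  rw [jac, AlgHom.map_det, RingHom.map_det]
  rfl

theorem coeff_mul_X {g h : PowerSeries κ} {μ : ℕ} (hh : (PowerSeries.X : PowerSeries κ) ^ μ ∣ h) :
    (g * h).coeff μ = PowerSeries.constantCoeff g * h.coeff μ := by
  obtain ⟨r, rfl⟩ := hh
  have h1 : g * (PowerSeries.X ^ μ * r) = PowerSeries.X ^ μ * (g * r) := by ring
  rw [h1, PowerSeries.coeff_X_pow_mul', PowerSeries.coeff_X_pow_mul', if_pos le_rfl, if_pos le_rfl,
    Nat.sub_self, PowerSeries.coeff_zero_eq_constantCoeff_apply,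
    PowerSeries.coeff_zero_eq_constantCoeff_apply, map_mul]

/-- the coefficient of index `μ` -/
theorem coef_eq {k v : ℕ} (f : Fin k → MvPolynomial (Fin v) K) (z : Fin k → Fin v)
    (hz : Function.Injective z) (ξ η : Fin v → PowerSeries κ) {μ : ℕ} (hμ : 1 ≤ μ)
    (h1 : ∀ a, (PowerSeries.X : PowerSeries κ) ^ μ ∣ ξ a - η a)
    (h2 : ∀ a, a ∉ Set.range z → (ξ a - η a).coeff μ = 0) (i : Fin k) :
    (aeval ξ (f i)).coeff μ = (aeval η (f i)).coeff μ +
      ∑ j, PowerSeries.constantCoeff (aeval ξ (pderiv (z j) (f i))) * (ξ (z j) - η (z j)).coeff μ := by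
  classical
  have h3 := taylor (PowerSeries.X ^ μ) ξ η h1 (f i)
  rw [← pow_mul] at h3
  have h4 := PowerSeries.X_pow_dvd_iff.1 h3 μ (by omega)
  rw [map_sub, map_sub, sub_eq_zero] at h4
  have hc : ∀ Q : MvPolynomial (Fin v) K, PowerSeries.constantCoeff (aeval η Q) =
      PowerSeries.constantCoeff (aeval ξ Q) := by
    intro Q
    rw [const_aeval, const_aeval]
    congr 2
    funext a
    have h5 := PowerSeries.X_pow_dvd_iff.1 (h1 a) 0 (by omega)
    rw [map_sub, sub_eq_zero, PowerSeries.coeff_zero_eq_constantCoeff_apply,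
      PowerSeries.coeff_zero_eq_constantCoeff_apply] at h5
    exact h5.symm
  have h5 : (∑ a, aeval η (pderiv a (f i)) * (ξ a - η a)).coeff μ =
      ∑ j, PowerSeries.constantCoeff (aeval ξ (pderiv (z j) (f i))) * (ξ (z j) - η (z j)).coeff μ := by
    rw [map_sum]
    have h6 : ∀ a, (aeval η (pderiv a (f i)) * (ξ a - η a)).coeff μ =
        PowerSeries.constantCoeff (aeval ξ (pderiv a (f i))) * (ξ a - η a).coeff μ := by
      intro a
      rw [coeff_mul_X (h1 a), hc]
    rw [Finset.sum_congr rfl fun a _ => h6 a]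
    have h7 : ∑ j, PowerSeries.constantCoeff (aeval ξ (pderiv (z j) (f i))) *
        (ξ (z j) - η (z j)).coeff μ = ∑ a ∈ Finset.univ.image z,
        PowerSeries.constantCoeff (aeval ξ (pderiv a (f i))) * (ξ a - η a).coeff μ := by
      rw [Finset.sum_image]
      exact fun a _ b _ hab => hz hab
    rw [h7]
    symm
    refine Finset.sum_subset (Finset.subset_univ _) fun a _ ha => ?_
    rw [h2 a, mul_zero]
    rintro ⟨j, rfl⟩
    exact ha (Finset.mem_image_of_mem _ (Finset.mem_univ _))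
  rw [h5] at h4
  linear_combination h4

end co

theorem z_coeff_pr {K κ : Type} [Field K] [Field κ] [Algebra K κ] {k v : ℕ}
    (f : Fin k → MvPolynomial (Fin v) K) (z : Fin k → Fin v) (hz : Function.Injective z)
    {L : ℕ} (x : Fin v → Fin L → κ)
    (hx : ∀ i, (PowerSeries.X : PowerSeries κ) ^ L ∣ ev x (f i))
    (hJ : PowerSeries.constantCoeff (ev x (jac f z)) ≠ 0) (j : Fin k) (μ : Fin L)
    (hμ : 1 ≤ (μ : ℕ)) :
    x (z j) μ ∈ IntermediateField.adjoin K
      {e | ∃ (a : Fin v) (ν : Fin L), (ν < μ ∨ (ν = μ ∧ a ∉ Set.range z)) ∧ e = x a ν} := by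
  classical
  set E := IntermediateField.adjoin K
      {e | ∃ (a : Fin v) (ν : Fin L), (ν < μ ∨ (ν = μ ∧ a ∉ Set.range z)) ∧ e = x a ν} with hE
  have hlow : ∀ (a : Fin v) (ν : Fin L), ν < μ → x a ν ∈ E := fun a ν hν =>
    IntermediateField.subset_adjoin K _ ⟨a, ν, Or.inl hν, rfl⟩
  have hsame : ∀ a : Fin v, a ∉ Set.range z → x a μ ∈ E := fun a ha =>
    IntermediateField.subset_adjoin K _ ⟨a, μ, Or.inr ⟨rfl, ha⟩, rfl⟩
  set ξ : Fin v → PowerSeries κ := fun a => arc (x a) with hξ
  set η : Fin v → PowerSeries κ := fun a => PowerSeries.mk fun n =>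
    if h : n < (μ : ℕ) then x a ⟨n, h.trans μ.2⟩ else
      if n = (μ : ℕ) ∧ a ∉ Set.range z then x a μ else 0 with hη
  have hξc : ∀ a (n : ℕ) (hn : n < L), (ξ a).coeff n = x a ⟨n, hn⟩ := by
    intro a n hn
    simp only [hξ, arc]
    rw [PowerSeries.coeff_mk, dif_pos hn]
  have hηE : ∀ a n, (η a).coeff n ∈ E := by
    intro a n
    simp only [hη]
    rw [PowerSeries.coeff_mk]
    split_ifs with h1 h2
    · exact hlow a _ (by exact h1)
    · exact hsame a h2.2
    · exact E.zero_mem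
  have hdiff : ∀ a, (PowerSeries.X : PowerSeries κ) ^ (μ : ℕ) ∣ ξ a - η a := by
    intro a
    rw [PowerSeries.X_pow_dvd_iff]
    intro n hn
    rw [map_sub, hξc a n (hn.trans μ.2)]
    simp only [hη]
    rw [PowerSeries.coeff_mk, dif_pos hn, sub_self]
  have hy : ∀ a, a ∉ Set.range z → (ξ a - η a).coeff (μ : ℕ) = 0 := by
    intro a ha
    rw [map_sub, hξc a μ μ.2]
    simp only [hη]
    rw [PowerSeries.coeff_mk, dif_neg (lt_irrefl _), if_pos ⟨rfl, ha⟩, sub_self]
  have hzz : ∀ j, (ξ (z j) - η (z j)).coeff (μ : ℕ) = x (z j) μ := by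
    intro j
    rw [map_sub, hξc (z j) μ μ.2]
    simp only [hη]
    rw [PowerSeries.coeff_mk, dif_neg (lt_irrefl _), if_neg, sub_zero]
    exact fun h => h.2 ⟨j, rfl⟩
  set M : Matrix (Fin k) (Fin k) κ :=
    Matrix.of fun i j => PowerSeries.constantCoeff (aeval ξ (pderiv (z j) (f i))) with hM
  have hME : ∀ i j, M i j ∈ E := by
    intro i j
    show PowerSeries.constantCoeff (aeval ξ (pderiv (z j) (f i))) ∈ E
    have h1 : PowerSeries.constantCoeff (aeval ξ (pderiv (z j) (f i))) =
        PowerSeries.constantCoeff (aeval η (pderiv (z j) (f i))) := by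
      rw [const_aeval, const_aeval]
      congr 2
      funext a
      have h5 := PowerSeries.X_pow_dvd_iff.1 (hdiff a) 0 (by omega)
      rw [map_sub, sub_eq_zero, PowerSeries.coeff_zero_eq_constantCoeff_apply,
        PowerSeries.coeff_zero_eq_constantCoeff_apply] at h5
      exact h5
    rw [h1, ← PowerSeries.coeff_zero_eq_constantCoeff_apply]
    exact coeff_mem E η hηE _ 0
  have hdet : M.det ≠ 0 := by
    rw [hM, const_det]
    exact hJ
  refine lin_mem E M hME hdet (fun j => x (z j) μ) (fun i => -(aeval η (f i)).coeff (μ : ℕ))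
    (fun i => E.neg_mem (coeff_mem E η hηE _ _)) ?_ j
  funext i
  have h1 := coef_eq f z hz ξ η hμ hdiff hy i
  have h2 : (aeval ξ (f i)).coeff (μ : ℕ) = 0 := PowerSeries.X_pow_dvd_iff.1 (hx i) μ μ.2
  rw [h2] at h1
  simp only [hzz] at h1
  have h3 : M.mulVec (fun j => x (z j) μ) i =
      ∑ j, PowerSeries.constantCoeff (aeval ξ (pderiv (z j) (f i))) * x (z j) μ := rfl
  rw [h3]
  linear_combination -h1

/-! ### transcendence degrees -/

open AlgebraicIndependent (matroid)

section td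

variable {K κ : Type} [Field K] [Field κ] [Algebra K κ]

/-- an independent subfamily of size `tau` spans (as in Lib_helper80/KSX/EQ) -/
theorem closure_of_tau' {I : Type} [Finite I] (x : I → κ) (S : Finset I)
    (hS : S.card = Pool.Agent.Lib_helper56.KSS.tau K x)
    (hSi : AlgebraicIndependent K (fun i : S => x i)) (i : I) :
    x i ∈ (matroid K κ).closure (Set.range fun s : S => x s) := by
  have h0 := Pool.Agent.Lib_helper56.KSS.algInd_iff.1 hSi
  have hsub : (Set.range fun s : S => x s) ⊆ Set.range x := by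
    rintro _ ⟨s, rfl⟩; exact ⟨s, rfl⟩
  obtain ⟨J, hJ, hIJ⟩ := h0.2.subset_isBasis_of_subset hsub (Set.subset_univ _)
  have h1 : J.encard = (S.card : ℕ∞) := by
    rw [← hJ.eRk_eq_encard, ← Pool.Agent.Lib_helper56.KSS.coe_tau, hS]
  have h2 : (Set.range fun s : S => x s).encard = (S.card : ℕ∞) := by
    rw [← Set.image_univ, h0.1.encard_image, Set.encard_univ, ENat.card_eq_coe_fintype_card,
      Fintype.card_coe]
  have h3 : (Set.range fun s : S => x s) = J := by
    apply Set.Finite.eq_of_subset_of_encard_le (Set.finite_range _) hIJ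
    rw [h1, h2]
  rw [h3, hJ.closure_eq_closure]
  exact (matroid K κ).mem_closure_of_mem ⟨i, rfl⟩ (Set.subset_univ _)

theorem indep_of_tau {I : Type} [Fintype I] (x : I → κ)
    (h : Fintype.card I ≤ Pool.Agent.Lib_helper56.KSS.tau K x) : AlgebraicIndependent K x := by
  classical
  obtain ⟨s, hs, hsi⟩ := Pool.Agent.Lib_helper56.KSS.exists_tau (K := K) x
  have h1 : s = Finset.univ := by
    rw [← Finset.card_eq_iff_eq_univ]
    exact le_antisymm (Finset.card_le_univ s) (hs ▸ h)
  subst h1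
  exact hsi.comp (fun i => ⟨i, Finset.mem_univ i⟩) fun a b hab => congrArg Subtype.val hab

/-- all the coefficients are algebraic over the coefficients of index `< L'` and those of the
coordinates which are not in `range z` -/
theorem closure_all {k v : ℕ} (f : Fin k → MvPolynomial (Fin v) K) (z : Fin k → Fin v)
    (hz : Function.Injective z) {L : ℕ} (x : Fin v → Fin L → κ)
    (hx : ∀ i, (PowerSeries.X : PowerSeries κ) ^ L ∣ ev x (f i))
    (hJ : PowerSeries.constantCoeff (ev x (jac f z)) ≠ 0) {L' : ℕ} (h1 : 1 ≤ L') {T : Set κ}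
    (hT1 : ∀ a (ν : Fin L), (ν : ℕ) < L' → x a ν ∈ (matroid K κ).closure T)
    (hT2 : ∀ a (ν : Fin L), a ∉ Set.range z → L' ≤ (ν : ℕ) → x a ν ∈ (matroid K κ).closure T)
    (n : ℕ) : ∀ (a : Fin v) (hn : n < L), x a ⟨n, hn⟩ ∈ (matroid K κ).closure T := by
  induction n using Nat.strong_induction_on with
  | _ n ih =>
    intro a hn
    rcases lt_or_ge n L' with h2 | h2
    · exact hT1 a ⟨n, hn⟩ h2
    · by_cases h3 : a ∈ Set.range z
      · obtain ⟨j, rfl⟩ := h3
        have h4 := z_coeff_pr f z hz x hx hJ j ⟨n, hn⟩ (by simp only; omega)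
        have h5 := Pool.Agent.Lib_helper56.KSS.mem_closure_of_field h4
        have h6 : {e | ∃ (a : Fin v) (ν : Fin L), (ν < ⟨n, hn⟩ ∨
            (ν = ⟨n, hn⟩ ∧ a ∉ Set.range z)) ∧ e = x a ν} ⊆ (matroid K κ).closure T := by
          rintro e ⟨b, ν, h7 | ⟨h7, h8⟩, rfl⟩
          · exact ih ν h7 b ν.2
          · rw [h7]
            exact hT2 b ⟨n, hn⟩ h8 h2
        exact (matroid K κ).closure_subset_closure_of_subset_closure h6 h5
      · exact hT2 a ⟨n, hn⟩ h3 h2

theorem card_compl {k v : ℕ} (z : Fin k → Fin v) (hz : Function.Injective z) :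
    Nat.card {a : Fin v // a ∉ Set.range z} = v - k := by
  classical
  rw [Nat.card_eq_fintype_card, Fintype.card_subtype_compl, Fintype.card_fin]
  have h1 : Fintype.card {a : Fin v // a ∈ Set.range z} = k := by
    rw [← Nat.card_eq_fintype_card]
    have h2 := Nat.card_congr (Equiv.ofInjective z hz)
    rw [Nat.card_eq_fintype_card, Fintype.card_fin] at h2
    exact h2.symm
  rw [h1]

end td

theorem tau_trunc_pr {K κ : Type} [Field K] [Field κ] [Algebra K κ] {k v : ℕ}
    (f : Fin k → MvPolynomial (Fin v) K) (z : Fin k → Fin v) (hz : Function.Injective z)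
    {L : ℕ} (x : Fin v → Fin L → κ)
    (hx : ∀ i, (PowerSeries.X : PowerSeries κ) ^ L ∣ ev x (f i))
    (hJ : PowerSeries.constantCoeff (ev x (jac f z)) ≠ 0) (L' : ℕ) (h1 : 1 ≤ L') (hL : L' ≤ L) :
    tauJ K x ≤ tauJ K (fun a (μ : Fin L') => x a ⟨μ, μ.2.trans_le hL⟩) + (v - k) * (L - L') := by
  classical
  rw [tauJ, tauJ, Pool.Agent.Lib_helper56.KSS.tau_eq, Pool.Agent.Lib_helper56.KSS.tau_eq]
  set y1 : Fin v × Fin L' → κ := fun p => x p.1 ⟨p.2, p.2.2.trans_le hL⟩ with hy1
  set y2 : {a : Fin v // a ∉ Set.range z} × Fin (L - L') → κ := fun q =>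
    x q.1 ⟨L' + q.2, by have := q.2.2; omega⟩ with hy2
  have h2 : Pool.Agent.Lib_helper56.KSS.tau K (fun p : Fin v × Fin L => x p.1 p.2) ≤
      Pool.Agent.Lib_helper56.KSS.tau K (Sum.elim y1 y2) := by
    refine Pool.Agent.Lib_helper56.KSS.tau_le_of_closure _ _ fun p => ?_
    refine closure_all f z hz x hx hJ h1 (T := Set.range (Sum.elim y1 y2)) ?_ ?_ p.2 p.1 p.2.2
    · intro a ν hν
      refine (matroid K κ).mem_closure_of_mem ⟨Sum.inl (a, ⟨ν, hν⟩), rfl⟩ (Set.subset_univ _)
    · intro a ν ha hν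
      refine (matroid K κ).mem_closure_of_mem ⟨Sum.inr (⟨a, ha⟩, ⟨ν - L', by omega⟩), ?_⟩
        (Set.subset_univ _)
      show x a ⟨L' + (ν - L'), _⟩ = x a ν
      congr 1
      exact Fin.ext (by simp only; omega)
  refine h2.trans ((Pool.Agent.Lib_helper56.KSS.tau_sum_le y1 y2).trans ?_)
  refine Nat.add_le_add_left ((Pool.Agent.Lib_helper56.KSS.tau_le_card y2).trans ?_) _
  rw [Nat.card_prod, card_compl z hz, Nat.card_eq_fintype_card, Fintype.card_fin]

/-! ### stable levels -/

theorem dvd_aeval_sub {K S V : Type} [CommRing K] [CommRing S] [Algebra K S] [Fintype V] (t : S)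
    (ξ η : V → S) (h : ∀ a, t ∣ ξ a - η a) (P : MvPolynomial V K) :
    t ∣ aeval ξ P - aeval η P := by
  have h1 := taylor t ξ η h P
  have h2 : t ∣ ∑ a, aeval η (pderiv a P) * (ξ a - η a) :=
    Finset.dvd_sum fun a _ => Dvd.dvd.mul_left (h a) _
  have h3 : t ∣ t ^ 2 := dvd_pow_self t two_ne_zero
  have h4 := dvd_add (h3.trans h1) h2
  rwa [sub_add_cancel] at h4

theorem arc_trunc {κ : Type} [Field κ] {v : ℕ} (L : ℕ) (x : Fin v → PowerSeries κ) (a : Fin v) :
    (PowerSeries.X : PowerSeries κ) ^ L ∣ arc (trunc L x a) - x a := by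
  rw [PowerSeries.X_pow_dvd_iff]
  intro n hn
  rw [map_sub, arc, PowerSeries.coeff_mk, dif_pos hn]
  exact sub_self _

section st

variable {K κ : Type} [Field K] [Field κ] [Algebra K κ] {k v : ℕ}

theorem ev_trunc (L : ℕ) (x : Fin v → PowerSeries κ) (P : MvPolynomial (Fin v) K) :
    (PowerSeries.X : PowerSeries κ) ^ L ∣ ev (trunc L x) P - aeval x P :=
  dvd_aeval_sub _ _ _ (arc_trunc L x) P

theorem ev_trunc_dvd (f : Fin k → MvPolynomial (Fin v) K)
    (x : Fin v → PowerSeries κ) (hx : ∀ i, aeval x (f i) = 0) (L : ℕ) (i : Fin k) :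
    (PowerSeries.X : PowerSeries κ) ^ L ∣ ev (trunc L x) (f i) := by
  have h := ev_trunc L x (f i)
  rwa [hx i, sub_zero] at h

theorem ev_trunc_const (x : Fin v → PowerSeries κ) {L : ℕ} (hL : 1 ≤ L)
    (P : MvPolynomial (Fin v) K) :
    PowerSeries.constantCoeff (ev (trunc L x) P) = PowerSeries.constantCoeff (aeval x P) := by
  have h := PowerSeries.X_pow_dvd_iff.1 (ev_trunc L x P) 0 hL
  rw [map_sub, sub_eq_zero, PowerSeries.coeff_zero_eq_constantCoeff_apply,
    PowerSeries.coeff_zero_eq_constantCoeff_apply] at h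
  exact h

/-- the level above which the transcendence degree is stable -/
theorem level_exists (f : Fin k → MvPolynomial (Fin v) K) (z : Fin k → Fin v)
    (hz : Function.Injective z) (x : Fin v → PowerSeries κ) (hx : ∀ i, aeval x (f i) = 0)
    (hJ : PowerSeries.constantCoeff (aeval x (jac f z)) ≠ 0) (A : ℕ)
    (hA : ∀ L, (v - k) * L ≤ tauJ K (trunc L x) + A) :
    ∃ L1 : ℕ, 1 ≤ L1 ∧ ∀ L, L1 ≤ L →
      tauJ K (trunc L1 x) + (v - k) * (L - L1) ≤ tauJ K (trunc L x) := by
  set h : ℕ → ℤ := fun L => ((v - k : ℕ) : ℤ) * L - tauJ K (trunc L x) with hh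
  obtain ⟨m, ⟨L1, hL1, hm⟩, hmax⟩ := Int.exists_greatest_of_bdd
    (P := fun m => ∃ L : ℕ, 1 ≤ L ∧ h L = m) ⟨A, by
      rintro m ⟨L, _, rfl⟩
      have h1 := hA L
      simp only [hh]
      have h2 : ((v - k : ℕ) : ℤ) * L ≤ tauJ K (trunc L x) + A := by exact_mod_cast h1
      linarith⟩ ⟨h 1, 1, le_rfl, rfl⟩
  refine ⟨L1, hL1, fun L hL => ?_⟩
  have h1 := hmax (h L) ⟨L, hL1.trans hL, rfl⟩
  rw [← hm] at h1
  simp only [hh] at h1
  have h2 : ((tauJ K (trunc L1 x) + (v - k) * (L - L1) : ℕ) : ℤ) ≤ tauJ K (trunc L x) := by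
    push_cast [Nat.cast_sub hL]
    linarith
  exact_mod_cast h2

theorem fin_indep (f : Fin k → MvPolynomial (Fin v) K) (z : Fin k → Fin v)
    (hz : Function.Injective z) (x : Fin v → PowerSeries κ) (hx : ∀ i, aeval x (f i) = 0)
    (hJ : PowerSeries.constantCoeff (aeval x (jac f z)) ≠ 0) {L1 : ℕ} (hL1 : 1 ≤ L1) (n : ℕ)
    (hst : tauJ K (trunc L1 x) + (v - k) * n ≤ tauJ K (trunc (L1 + n) x)) :
    AlgebraicIndependent
      (IntermediateField.adjoin K {e | ∃ (a : Fin v) (ν : ℕ), ν < L1 ∧ e = (x a).coeff ν})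
      (fun q : {a : Fin v // a ∉ Set.range z} × Fin n => (x q.1).coeff (L1 + q.2)) := by
  classical
  set N : {a : Fin v // a ∉ Set.range z} × Fin n → κ := fun q => (x q.1).coeff (L1 + q.2) with hN
  set t : Fin v × Fin L1 → κ := fun p => trunc L1 x p.1 p.2 with ht
  rw [tauJ, tauJ, Pool.Agent.Lib_helper56.KSS.tau_eq, Pool.Agent.Lib_helper56.KSS.tau_eq] at hst
  obtain ⟨S, hS, hSi⟩ := Pool.Agent.Lib_helper56.KSS.exists_tau (K := K) t
  have hSc := closure_of_tau' t S hS hSi
  set y : S → κ := fun s => t s with hy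
  -- the sum family is independent
  have h1 : AlgebraicIndependent K (Sum.elim N y) := by
    refine indep_of_tau _ ?_
    rw [Fintype.card_sum, Fintype.card_prod, Fintype.card_fin, Fintype.card_coe, hS]
    have h2 := card_compl z hz
    rw [Nat.card_eq_fintype_card] at h2
    rw [h2, add_comm]
    refine hst.trans ?_
    refine Pool.Agent.Lib_helper56.KSS.tau_le_of_closure _ _ fun p => ?_
    refine closure_all f z hz (trunc (L1 + n) x) (ev_trunc_dvd f x hx _) ?_ hL1
      (T := Set.range (Sum.elim N y)) ?_ ?_ p.2 p.1 p.2.2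
    · rw [ev_trunc_const x (by omega)]
      exact hJ
    · intro a ν hν
      have h3 := hSc (a, ⟨ν, hν⟩)
      refine (matroid K κ).closure_subset_closure ?_ h3
      rintro _ ⟨s, rfl⟩
      exact ⟨Sum.inr s, rfl⟩
    · intro a ν ha hν
      refine (matroid K κ).mem_closure_of_mem ⟨Sum.inl (⟨a, ha⟩, ⟨ν - L1, by
        have := ν.2
        omega⟩), ?_⟩ (Set.subset_univ _)
      show (x a).coeff (L1 + (ν - L1)) = (x a).coeff ν
      rw [Nat.add_sub_cancel' hν]
  have h2 := (AlgebraicIndependent.sumElim_iff.1 h1).2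
  -- extension of scalars
  set R := Algebra.adjoin K (Set.range y) with hR
  set F1 := IntermediateField.adjoin K {e | ∃ (a : Fin v) (ν : ℕ), ν < L1 ∧ e = (x a).coeff ν}
    with hF1
  have hle : R ≤ F1.toSubalgebra := by
    rw [hR]
    refine Algebra.adjoin_le ?_
    rintro _ ⟨s, rfl⟩
    exact IntermediateField.subset_adjoin K _ ⟨s.1.1, s.1.2, s.1.2.2, rfl⟩
  letI : Algebra R F1 := (Subalgebra.inclusion hle).toAlgebra
  haveI : IsScalarTower R F1 κ := IsScalarTower.of_algebraMap_eq fun _ => rfl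
  haveI : Algebra.IsAlgebraic R F1 := by
    refine ⟨fun e => ?_⟩
    have h3 : (e : κ) ∈ (matroid K κ).closure (Set.range y) := by
      have h4 := Pool.Agent.Lib_helper56.KSS.mem_closure_of_field e.2
      refine (matroid K κ).closure_subset_closure_of_subset_closure ?_ h4
      rintro _ ⟨a, ν, hν, rfl⟩
      exact hSc (a, ⟨ν, hν⟩)
    rw [Pool.Agent.Lib_helper56.KSS.mem_closure_iff] at h3
    exact (isAlgebraic_algHom_iff (IsScalarTower.toAlgHom R F1 κ)
      (algebraMap F1 κ).injective).1 h3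
  exact h2.extendScalars F1

end st

theorem stable_level_pr {K κ : Type} [Field K] [Field κ] [Algebra K κ] {k v : ℕ}
    (f : Fin k → MvPolynomial (Fin v) K) (z : Fin k → Fin v) (hz : Function.Injective z)
    (x : Fin v → PowerSeries κ) (hx : ∀ i, aeval x (f i) = 0)
    (hJ : PowerSeries.constantCoeff (aeval x (jac f z)) ≠ 0) (A : ℕ)
    (hA : ∀ L, (v - k) * L ≤ tauJ K (trunc L x) + A) :
    ∃ L1 : ℕ, 1 ≤ L1 ∧ AlgebraicIndependent
      (IntermediateField.adjoin K {e | ∃ (a : Fin v) (ν : ℕ), ν < L1 ∧ e = (x a).coeff ν})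
      (fun q : {a : Fin v // a ∉ Set.range z} × ℕ => (x q.1).coeff (L1 + q.2)) := by
  classical
  obtain ⟨L1, hL1, hst⟩ := level_exists f z hz x hx hJ A hA
  refine ⟨L1, hL1, algebraicIndependent_of_finite_type fun t ht => ?_⟩
  obtain ⟨n, hn⟩ : ∃ n : ℕ, ∀ q ∈ t, q.2 < n := by
    obtain ⟨m, hm⟩ := (ht.image Prod.snd).bddAbove
    exact ⟨m + 1, fun q hq => Nat.lt_succ_of_le (hm ⟨q, hq, rfl⟩)⟩
  have h1 := fin_indep f z hz x hx hJ hL1 n (by
    have h2 := hst (L1 + n) (by omega)
    rwa [Nat.add_sub_cancel_left] at h2)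
  exact h1.comp (fun q : t => (q.1.1, ⟨q.1.2, hn q.1 q.2⟩)) fun a b hab => by
    have h3 := congrArg Prod.fst hab
    have h4 := congrArg (fun r => (r.2 : ℕ)) hab
    exact Subtype.ext (Prod.ext h3 h4)

end Pool.Agent.OPT.M4

namespace Pool.Agent.OPT

alias z_coeff := M4.z_coeff_pr
alias tau_trunc := M4.tau_trunc_pr
alias stable_level := M4.stable_level_pr

end Pool.Agent.OPT
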