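import Pool.Agent.Lib_helper80.OPF.Defs
import Pool.Agent.Lib_helper77.KSZ.Main

/-!
# OPN, block M5: from jets of all levels to an arc (ultrapowers)
-/

set_option autoImplicit false

namespace Pool.Agent.OPT.M5

open MvPolynomial Pool.Agent.KSS Pool.Agent.KSX Filter

/-- the ultrafilter -/
noncomputable abbrev UF : Filter ℕ := ((Filter.hyperfilter ℕ : Ultrafilter ℕ) : Filter ℕ)

theorem ev_of_ge {P : ℕ → Prop} (n : ℕ) (h : ∀ L, n ≤ L → P L) : ∀ᶠ L in UF, P L := by
  have h1 : ∀ᶠ L in Filter.cofinite, P L := by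
    rw [Nat.cofinite_eq_atTop]
    exact Filter.eventually_atTop.2 ⟨n, h⟩
  exact Filter.hyperfilter_le_cofinite h1

/-- ultraproducts of fields -/
theorem m5_exists (κ : ℕ → Type) [∀ L, Field (κ L)] :
    ∃ (K : Type) (_ : Field K) (π : (∀ L, κ L) →+* K), Function.Surjective π ∧
      ∀ f, π f = 0 ↔ ∀ᶠ L in UF, f L = 0 := by
  let I : Ideal (∀ L, κ L) :=
    { carrier := {f | ∀ᶠ L in UF, f L = 0}
      add_mem' := by
        intro a b ha hb
        filter_upwards [ha, hb] with L h1 h2
        simp [h1, h2]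
      zero_mem' := Filter.Eventually.of_forall fun _ => rfl
      smul_mem' := by
        intro c x hx
        filter_upwards [hx] with L h1
        simp [h1] }
  have hmem : ∀ f, f ∈ I ↔ ∀ᶠ L in UF, f L = 0 := fun f => Iff.rfl
  have hI : I.IsMaximal := by
    rw [Ideal.isMaximal_iff]
    refine ⟨?_, ?_⟩
    · intro h
      obtain ⟨L, hL⟩ := ((hmem 1).1 h).exists
      exact one_ne_zero hL
    · intro J f hJ hf hfJ
      have h1 : ∀ᶠ L in UF, f L ≠ 0 := Ultrafilter.eventually_not.2 hf
      have h2 : (fun L => (f L)⁻¹) * f ∈ J := J.mul_mem_left _ hfJ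
      have h3 : 1 - (fun L => (f L)⁻¹) * f ∈ J := by
        apply hJ
        rw [hmem]
        filter_upwards [h1] with L hL
        simp [hL]
      have := J.add_mem h3 h2
      simpa using this
  let _ : Field ((∀ L, κ L) ⧸ I) := Ideal.Quotient.field I
  exact ⟨(∀ L, κ L) ⧸ I, inferInstance, Ideal.Quotient.mk I, Ideal.Quotient.mk_surjective,
    fun f => Ideal.Quotient.eq_zero_iff_mem⟩

theorem m5_closed {k0 K : Type} [Field k0] [IsAlgClosed k0] [Field K] (π : (ℕ → k0) →+* K)
    (hs : Function.Surjective π) : IsAlgClosed K := by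
  apply IsAlgClosed.of_exists_root
  intro p hp hirr
  choose c hc using fun i => hs (p.coeff i)
  have hn : 0 < p.natDegree := hirr.natDegree_pos
  have h1 : ∀ L, ∃ r : k0, r ^ p.natDegree +
      ∑ i ∈ Finset.range p.natDegree, c i L * r ^ i = 0 := by
    intro L
    set q : Polynomial k0 := Polynomial.X ^ p.natDegree +
      ∑ i ∈ Finset.range p.natDegree, Polynomial.C (c i L) * Polynomial.X ^ i with hq
    have hlt : (∑ i ∈ Finset.range p.natDegree, Polynomial.C (c i L) * Polynomial.X ^ i).degree <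
        (p.natDegree : WithBot ℕ) := by
      refine (Polynomial.degree_sum_le _ _).trans_lt ?_
      rw [Finset.sup_lt_iff (WithBot.bot_lt_coe _)]
      intro i hi
      refine (Polynomial.degree_C_mul_X_pow_le _ _).trans_lt ?_
      exact_mod_cast Finset.mem_range.1 hi
    have hdeg : q.degree ≠ 0 := by
      rw [hq, Polynomial.degree_add_eq_left_of_degree_lt]
      · rw [Polynomial.degree_X_pow]
        exact_mod_cast hn.ne'
      · rw [Polynomial.degree_X_pow]
        exact hlt
    obtain ⟨r, hr⟩ := IsAlgClosed.exists_root q hdeg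
    refine ⟨r, ?_⟩
    rw [Polynomial.IsRoot.def, hq] at hr
    simpa [Polynomial.eval_finsetSum] using hr
  choose r hr using h1
  refine ⟨π r, ?_⟩
  have h2 : π (r ^ p.natDegree + ∑ i ∈ Finset.range p.natDegree, c i * r ^ i) = 0 := by
    have h3 : r ^ p.natDegree + ∑ i ∈ Finset.range p.natDegree, c i * r ^ i = 0 := by
      funext L
      simpa using hr L
    rw [h3, map_zero]
  rw [Polynomial.eval_eq_sum_range, Finset.sum_range_succ, hp.coeff_natDegree, one_mul, add_comm]
  rw [map_add, map_pow, map_sum] at h2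
  rw [← h2]
  congr 1
  apply Finset.sum_congr rfl
  intro i _
  rw [map_mul, map_pow, hc]

section

variable {k0 : Type} [Field k0] {κ : ℕ → Type} [∀ L, Field (κ L)] [∀ L, Algebra k0 (κ L)]
  {K κ' : Type} [Field K] [Field κ']

theorem m5_alg (π0 : (ℕ → k0) →+* K) (h0s : Function.Surjective π0)
    (h0 : ∀ f, π0 f = 0 ↔ ∀ᶠ L in UF, f L = 0) (π : (∀ L, κ L) →+* κ')
    (hπ : ∀ f, π f = 0 ↔ ∀ᶠ L in UF, f L = 0) :
    ∃ g : K →+* κ', ∀ c, g (π0 c) = π (fun L => algebraMap k0 (κ L) (c L)) := by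
  let G : (ℕ → k0) →+* (∀ L, κ L) :=
    RingHom.pi fun L => (algebraMap k0 (κ L)).comp (Pi.evalRingHom (fun _ => k0) L)
  have hG : ∀ c, G c = fun L => algebraMap k0 (κ L) (c L) := fun c => rfl
  have hker : ∀ a ∈ RingHom.ker π0, (π.comp G) a = 0 := by
    intro a ha
    rw [RingHom.mem_ker, h0] at ha
    rw [RingHom.comp_apply, hπ]
    filter_upwards [ha] with L hL
    rw [hG]
    simp only [hL, map_zero]
  refine ⟨(Ideal.Quotient.lift (RingHom.ker π0) (π.comp G) hker).comp
    (RingHom.quotientKerEquivOfSurjective h0s).symm.toRingHom, fun c => ?_⟩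
  have h1 : (RingHom.quotientKerEquivOfSurjective h0s).symm (π0 c) =
      Ideal.Quotient.mk (RingHom.ker π0) c := by
    rw [RingEquiv.symm_apply_eq]
    rfl
  rw [RingHom.comp_apply]
  show (Ideal.Quotient.lift (RingHom.ker π0) (π.comp G) hker)
    ((RingHom.quotientKerEquivOfSurjective h0s).symm (π0 c)) = _
  rw [h1, Ideal.Quotient.lift_mk, RingHom.comp_apply, hG]

variable [Algebra K κ']

theorem m5_ind (π0 : (ℕ → k0) →+* K) (h0s : Function.Surjective π0)
    (h0 : ∀ f, π0 f = 0 ↔ ∀ᶠ L in UF, f L = 0) (π : (∀ L, κ L) →+* κ')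
    (hπ : ∀ f, π f = 0 ↔ ∀ᶠ L in UF, f L = 0)
    (hc : ∀ c, algebraMap K κ' (π0 c) = π (fun L => algebraMap k0 (κ L) (c L)))
    {I : Type} (u : ∀ L, I → κ L) (hu : ∀ᶠ L in UF, AlgebraicIndependent k0 (u L)) :
    AlgebraicIndependent K (fun i => π (fun L => u L i)) := by
  classical
  rw [algebraicIndependent_iff]
  intro p hp
  choose c hcc using fun d => h0s (p.coeff d)
  have h1 : π (fun L => ∑ d ∈ p.support, algebraMap k0 (κ L) (c d L) *
      ∏ i ∈ d.support, u L i ^ d i) = 0 := by
    rw [← hp, aeval_def, eval₂_eq]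
    have h2 : (fun L => ∑ d ∈ p.support, algebraMap k0 (κ L) (c d L) *
        ∏ i ∈ d.support, u L i ^ d i) = ∑ d ∈ p.support,
        (fun L => algebraMap k0 (κ L) (c d L)) * ∏ i ∈ d.support, (fun L => u L i) ^ d i := by
      funext L
      simp only [Finset.sum_apply, Pi.mul_apply, Finset.prod_apply, Pi.pow_apply]
    rw [h2, map_sum]
    apply Finset.sum_congr rfl
    intro d _
    rw [map_mul, map_prod, ← hc, hcc]
    congr 1
    apply Finset.prod_congr rfl
    intro i _
    rw [map_pow]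
  rw [hπ] at h1
  have h3 : ∀ᶠ L in UF, ∀ d ∈ p.support, c d L = 0 := by
    filter_upwards [h1, hu] with L h4 h5 d hd
    rw [algebraicIndependent_iff] at h5
    have h6 := h5 (∑ e ∈ p.support, monomial e (c e L)) (by
      rw [map_sum, ← h4]
      apply Finset.sum_congr rfl
      intro e _
      rw [aeval_monomial, Finsupp.prod])
    have h7 := congrArg (coeff d) h6
    rw [coeff_sum, Finset.sum_eq_single d] at h7
    · rwa [coeff_monomial, if_pos rfl, coeff_zero] at h7
    · intro e _ hed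
      rw [coeff_monomial, if_neg hed]
    · intro h
      exact (h hd).elim
  ext d
  rw [coeff_zero]
  by_cases hd : d ∈ p.support
  · rw [← hcc, h0]
    filter_upwards [h3] with L hL
    exact hL d hd
  · exact notMem_support_iff.1 hd

end

/-- coefficientwise classes -/
theorem m5_phi (κ : ℕ → Type) [∀ L, Field (κ L)] {κ' : Type} [Field κ']
    (π : (∀ L, κ L) →+* κ') :
    ∃ Φ : (∀ L, PowerSeries (κ L)) →+* PowerSeries κ', ∀ F n, (Φ F).coeff n =
      π (fun L => (F L).coeff n) := by
  let Ψ : (∀ L, PowerSeries (κ L)) →+* PowerSeries (∀ L, κ L) :=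
    { toFun := fun F => PowerSeries.mk fun n L => (F L).coeff n
      map_one' := by
        ext n L
        rw [PowerSeries.coeff_mk, PowerSeries.coeff_one, Pi.one_apply, PowerSeries.coeff_one]
        split_ifs <;> rfl
      map_zero' := by
        ext n L
        simp
      map_add' := by
        intro F G
        ext n L
        simp
      map_mul' := by
        intro F G
        ext n L
        simp only [PowerSeries.coeff_mk, PowerSeries.coeff_mul, Pi.mul_apply, Finset.sum_apply] }
  refine ⟨(PowerSeries.map π).comp Ψ, fun F n => ?_⟩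
  rw [RingHom.comp_apply, PowerSeries.coeff_map]
  congr 1
  funext L
  show (PowerSeries.mk fun n L => (F L).coeff n).coeff n L = _
  rw [PowerSeries.coeff_mk]

theorem m5_sup {n : ℕ} {F κ J : Type} [Field F] [Field κ] [Algebra F κ] [Fintype J]
    (x : J → κ) (h : n ≤ tau F x) :
    ∃ S : Finset J, n ≤ S.card ∧ AlgebraicIndependent F (fun s : S => x s) := by
  have hne : {n | ∃ S : Finset J, S.card = n ∧
      AlgebraicIndependent F (fun s : S => x s)}.Nonempty :=
    ⟨0, ∅, Finset.card_empty, algebraicIndependent_empty_type⟩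
  have hb : BddAbove {n | ∃ S : Finset J, S.card = n ∧
      AlgebraicIndependent F (fun s : S => x s)} := by
    refine ⟨Fintype.card J, ?_⟩
    rintro m ⟨S, rfl, _⟩
    exact Finset.card_le_univ S
  obtain ⟨S, h1, h2⟩ := Nat.sSup_mem hne hb
  exact ⟨S, h.trans h1.ge, h2⟩

theorem m5_le {F κ J : Type} [Field F] [Field κ] [Algebra F κ] [Fintype J]
    (x : J → κ) (S : Finset J) (h : AlgebraicIndependent F (fun s : S => x s)) :
    S.card ≤ tau F x := by
  have hb : BddAbove {n | ∃ S : Finset J, S.card = n ∧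
      AlgebraicIndependent F (fun s : S => x s)} := by
    refine ⟨Fintype.card J, ?_⟩
    rintro m ⟨S, rfl, _⟩
    exact Finset.card_le_univ S
  exact le_csSup hb ⟨S, rfl, h⟩

/-- pigeonhole for the ultrafilter -/
theorem m5_pigeon {σ : Type} [Finite σ] {P : σ → ℕ → Prop} (h : ∀ᶠ L in UF, ∃ s, P s L) :
    ∃ s, ∀ᶠ L in UF, P s L := by
  by_contra hcon
  push Not at hcon
  have h1 : ∀ᶠ L in UF, ∀ s, ¬ P s L := by
    rw [Filter.eventually_all]
    intro s
    exact hcon s
  obtain ⟨L, ⟨s, h2⟩, h3⟩ := (h.and h1).exists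
  exact h3 s h2

theorem arc_of_jets_pr {k0 : Type} [Field k0] [IsAlgClosed k0] [CharZero k0] {v D A : ℕ}
    (κ : ℕ → Type) [∀ L, Field (κ L)] [∀ L, Algebra k0 (κ L)]
    (x : ∀ L, Fin v → Fin L → κ L)
    (hA : ∀ L L' (h : L' ≤ L),
      D * L' ≤ tauJ k0 (fun a (μ : Fin L') => x L a ⟨μ, μ.2.trans_le h⟩) + A) :
    ∃ (K : Type) (_ : Field K) (_ : IsAlgClosed K) (_ : CharZero K) (_ : Algebra k0 K)
      (κ' : Type) (_ : Field κ') (_ : Algebra K κ') (y : Fin v → PowerSeries κ'),
      (∀ L, D * L ≤ tauJ K (trunc L y) + A) ∧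
      (∀ (P : MvPolynomial (Fin v) k0) (l : ℕ),
        (∀ L, l ≤ L → (PowerSeries.X : PowerSeries (κ L)) ^ l ∣ ev (x L) P) →
        (PowerSeries.X : PowerSeries κ') ^ l ∣
          aeval y (MvPolynomial.map (algebraMap k0 K) P)) ∧
      ∀ (P : MvPolynomial (Fin v) k0),
        (∀ L, 1 ≤ L → PowerSeries.constantCoeff (ev (x L) P) ≠ 0) →
        PowerSeries.constantCoeff (aeval y (MvPolynomial.map (algebraMap k0 K) P)) ≠ 0 := by
  obtain ⟨K, fK, π0, h0s, h0⟩ := m5_exists (fun _ => k0)
  obtain ⟨κ', fκ, π, hs, hπ⟩ := m5_exists κ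
  obtain ⟨g, hg⟩ := m5_alg π0 h0s h0 π hπ
  obtain ⟨Φ, hΦ⟩ := m5_phi κ π
  let _ : Algebra K κ' := g.toAlgebra
  have hc : ∀ c, algebraMap K κ' (π0 c) = π (fun L => algebraMap k0 (κ L) (c L)) := hg
  let j : k0 →+* K := π0.comp (Pi.constRingHom ℕ k0)
  let _ : Algebra k0 K := j.toAlgebra
  have hj : ∀ c : k0, algebraMap k0 K c = π0 (fun _ => c) := fun c => rfl
  have hCZ : CharZero K := charZero_of_injective_algebraMap (algebraMap k0 K).injective
  let y : Fin v → PowerSeries κ' := fun a => Φ (fun L => arc (x L a))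
  have hy : ∀ P : MvPolynomial (Fin v) k0,
      aeval y (MvPolynomial.map (algebraMap k0 K) P) = Φ (fun L => ev (x L) P) := by
    intro P
    let G : MvPolynomial (Fin v) k0 →+* (∀ L, PowerSeries (κ L)) :=
      RingHom.pi fun L => ((aeval (fun a => arc (x L a)) :
        MvPolynomial (Fin v) k0 →ₐ[k0] PowerSeries (κ L)) :
        MvPolynomial (Fin v) k0 →+* PowerSeries (κ L))
    have h1 : (((aeval y : MvPolynomial (Fin v) K →ₐ[K] PowerSeries κ') :
        MvPolynomial (Fin v) K →+* PowerSeries κ').comp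
        (MvPolynomial.map (algebraMap k0 K))) = Φ.comp G := by
      apply MvPolynomial.ringHom_ext
      · intro c
        rw [RingHom.comp_apply, RingHom.comp_apply, MvPolynomial.map_C]
        ext n
        rw [hΦ]
        show (aeval y (C (algebraMap k0 K c))).coeff n = π (fun L =>
          (aeval (fun a => arc (x L a)) (C c : MvPolynomial (Fin v) k0)).coeff n)
        simp only [MvPolynomial.aeval_C, PowerSeries.algebraMap_apply, PowerSeries.coeff_C]
        split_ifs with hn
        · rw [hj, hc]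
        · exact (map_zero π).symm
      · intro a
        rw [RingHom.comp_apply, RingHom.comp_apply, MvPolynomial.map_X]
        show aeval y (X a) = Φ (fun L => aeval (fun a => arc (x L a)) (X a : MvPolynomial (Fin v) k0))
        simp only [MvPolynomial.aeval_X]
        rfl
    exact RingHom.congr_fun h1 P
  refine ⟨K, fK, m5_closed π0 h0s, hCZ, inferInstance, κ', fκ, inferInstance, y, ?_, ?_, ?_⟩
  · intro L'
    have h1 : ∀ᶠ L in UF, ∃ S : Finset (Fin v × Fin L'), D * L' ≤ S.card + A ∧
        AlgebraicIndependent k0 (fun s : S => (arc (x L s.1.1)).coeff (s.1.2 : ℕ)) := by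
      refine ev_of_ge L' fun L hL => ?_
      have h2 := hA L L' hL
      obtain ⟨S, h3, h4⟩ := m5_sup (n := D * L' - A) (F := k0)
        (fun p : Fin v × Fin L' => x L p.1 ⟨p.2, p.2.2.trans_le hL⟩)
        (Nat.sub_le_iff_le_add.2 h2)
      refine ⟨S, by omega, ?_⟩
      convert h4 using 2 with s
      rw [arc, PowerSeries.coeff_mk, dif_pos (s.1.2.2.trans_le hL)]
    obtain ⟨S, hS⟩ := m5_pigeon h1
    have h5 : D * L' ≤ S.card + A := by
      obtain ⟨L, h6, _⟩ := hS.exists
      exact h6
    have h7 := m5_ind π0 h0s h0 π hπ hc (fun L (s : S) => (arc (x L s.1.1)).coeff (s.1.2 : ℕ))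
      (hS.mono fun L h => h.2)
    have h8 : AlgebraicIndependent K
        (fun s : S => (fun p : Fin v × Fin L' => trunc L' y p.1 p.2) s) := by
      convert h7 using 2 with s
      show (Φ (fun L => arc (x L s.1.1))).coeff (s.1.2 : ℕ) = _
      rw [hΦ]
    have h9 := m5_le (F := K) (fun p : Fin v × Fin L' => trunc L' y p.1 p.2) S h8
    show D * L' ≤ tau K (fun p : Fin v × Fin L' => trunc L' y p.1 p.2) + A
    omega
  · intro P l hP
    rw [hy, PowerSeries.X_pow_dvd_iff]
    intro m hm
    rw [hΦ, hπ]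
    refine ev_of_ge l fun L hL => ?_
    exact (PowerSeries.X_pow_dvd_iff.1 (hP L hL)) m hm
  · intro P hP
    rw [hy, ← PowerSeries.coeff_zero_eq_constantCoeff_apply, hΦ, Ne, hπ, Ultrafilter.eventually_not.symm.trans Iff.rfl]
    refine ev_of_ge 1 fun L hL => ?_
    have := hP L hL
    rwa [← PowerSeries.coeff_zero_eq_constantCoeff_apply] at this

end Pool.Agent.OPT.M5

namespace Pool.Agent.OPT

alias arc_of_jets := M5.arc_of_jets_pr

end Pool.Agent.OPT
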