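import Pool.Agent.Lib_helper80.OPF.Defs
import Pool.Agent.Lib_helper77.KSZ.Main
import Pool.Agent.Lib_helper80.OPF.M3

/-! # OPN, block M6a: lifting an arc to a polynomial ring over a subring -/

set_option autoImplicit false

namespace Pool.Agent.OPT.M6a

open MvPolynomial Pool.Agent.KSS Pool.Agent.KSX Pool.Agent.OPT

/-- Evaluation at power series commutes with the change of coefficients. -/
theorem m6a_map_aeval {A A' σ : Type} [CommRing A] [CommRing A'] (g : A →+* A')
    (x : σ → PowerSeries A) (P : MvPolynomial σ A) :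
    PowerSeries.map g (aeval x P) = aeval (fun a => PowerSeries.map g (x a)) (MvPolynomial.map g P) := by
  rw [aeval_def, aeval_def, eval₂_map, hom_eval₂]
  congr 1
  ext r n
  simp

/-- The Jacobian minors commute with the change of coefficients. -/
theorem m6a_jac_map {A A' : Type} [CommRing A] [CommRing A'] (g : A →+* A') {k v : ℕ}
    (f : Fin k → MvPolynomial (Fin v) A) (z : Fin k → Fin v) :
    jac (fun i => MvPolynomial.map g (f i)) z = MvPolynomial.map g (jac f z) := by
  rw [jac, jac, RingHom.map_det]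
  congr 1
  ext i j : 2
  simp [pderiv_map]

/-- Divisibility by a power of the variable can be tested after an injective change of
coefficients. -/
theorem m6a_dvd_of_map {A A' : Type} [CommRing A] [CommRing A'] (g : A →+* A')
    (hg : Function.Injective g) {l : ℕ} {s : PowerSeries A}
    (h : (PowerSeries.X : PowerSeries A') ^ l ∣ PowerSeries.map g s) :
    (PowerSeries.X : PowerSeries A) ^ l ∣ s := by
  rw [PowerSeries.X_pow_dvd_iff] at h ⊢
  intro m hm
  have h1 := h m hm
  rw [PowerSeries.coeff_map] at h1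
  exact hg (by rw [h1, map_zero])

theorem m6a_map_dvd {A A' : Type} [CommRing A] [CommRing A'] (g : A →+* A') {l : ℕ}
    {s : PowerSeries A} (h : (PowerSeries.X : PowerSeries A) ^ l ∣ s) :
    (PowerSeries.X : PowerSeries A') ^ l ∣ PowerSeries.map g s := by
  obtain ⟨t, rfl⟩ := h
  refine ⟨PowerSeries.map g t, ?_⟩
  rw [map_mul, map_pow, PowerSeries.map_X]

/-- Congruent points have congruent values. -/
theorem m6a_congr {A σ : Type} [CommRing A] (l : ℕ) (x y : σ → PowerSeries A)
    (h : ∀ a, (PowerSeries.X : PowerSeries A) ^ l ∣ x a - y a) (P : MvPolynomial σ A) :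
    (PowerSeries.X : PowerSeries A) ^ l ∣ aeval x P - aeval y P := by
  rw [← Ideal.mem_span_singleton, ← Ideal.Quotient.mk_eq_mk_iff_sub_mem]
  have h1 : ∀ w : σ → PowerSeries A,
      Ideal.Quotient.mk (Ideal.span {(PowerSeries.X : PowerSeries A) ^ l}) (aeval w P) =
        aeval (fun a => Ideal.Quotient.mk (Ideal.span {(PowerSeries.X : PowerSeries A) ^ l}) (w a))
          P := by
    intro w
    have h2 := MvPolynomial.comp_aeval_apply (f := w)
      (Ideal.Quotient.mkₐ A (Ideal.span {(PowerSeries.X : PowerSeries A) ^ l})) P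
    exact h2
  rw [h1, h1]
  congr 2
  funext a
  rw [Ideal.Quotient.mk_eq_mk_iff_sub_mem, Ideal.mem_span_singleton]
  exact h a

/-- The constant term of a value. -/
theorem m6a_const {A σ : Type} [CommRing A] (x : σ → PowerSeries A) (P : MvPolynomial σ A) :
    PowerSeries.constantCoeff (aeval x P) =
      MvPolynomial.eval (fun a => PowerSeries.constantCoeff (x a)) P := by
  rw [aeval_def, hom_eval₂, MvPolynomial.eval, coe_eval₂Hom]
  congr 1

theorem red_core_pr {κ : Type} [Field κ] (R : Subring κ) {k v : ℕ}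
    (f : Fin k → MvPolynomial (Fin v) R) (z : Fin k → Fin v) (hz : Function.Injective z)
    (x : Fin v → PowerSeries κ) (hx : ∀ i, aeval x (MvPolynomial.map R.subtype (f i)) = 0)
    (L1 : ℕ) (hL1 : 1 ≤ L1) (hR : ∀ (a : Fin v) (ν : ℕ), ν < L1 → (x a).coeff ν ∈ R)
    (hJ : ∃ c ∈ R, c * PowerSeries.constantCoeff
      (aeval x (jac (fun i => MvPolynomial.map R.subtype (f i)) z)) = 1)
    (hu : AlgebraicIndependent R
      (fun q : {a : Fin v // a ∉ Set.range z} × ℕ => (x q.1).coeff (L1 + q.2)))
    (k1 : Type) [Field k1] (π1 : R →+* k1) :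
    ∃ y : Fin v → PowerSeries
        (FractionRing (MvPolynomial ({a : Fin v // a ∉ Set.range z} × ℕ) k1)),
      (∀ (a : Fin v) (ν : ℕ) (hν : ν < L1),
        (y a).coeff ν = algebraMap k1 _ (π1 ⟨(x a).coeff ν, hR a ν hν⟩)) ∧
      (∀ q : {a : Fin v // a ∉ Set.range z} × ℕ, (y q.1).coeff (L1 + q.2) =
        algebraMap (MvPolynomial ({a : Fin v // a ∉ Set.range z} × ℕ) k1) _ (X q)) ∧
      ∀ (P : MvPolynomial (Fin v) R) (l : ℕ),
        (PowerSeries.X : PowerSeries κ) ^ l ∣ aeval x (MvPolynomial.map R.subtype P) →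
        (PowerSeries.X : PowerSeries (FractionRing (MvPolynomial
          ({a : Fin v // a ∉ Set.range z} × ℕ) k1))) ^ l ∣
          aeval y (MvPolynomial.map ((algebraMap k1 (FractionRing (MvPolynomial
            ({a : Fin v // a ∉ Set.range z} × ℕ) k1))).comp π1) P) := by
  classical
  -- the polynomial ring and its embedding
  let Q : Type := {a : Fin v // a ∉ Set.range z} × ℕ
  let B : Type := MvPolynomial Q R
  let u : Q → κ := fun q => (x q.1).coeff (L1 + q.2)
  let φ : B →+* κ := ((aeval u : MvPolynomial Q R →ₐ[R] κ) : MvPolynomial Q R →+* κ)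
  have hφ : Function.Injective φ := hu
  have hφC : ∀ r : R, φ (C r) = (r : κ) := by
    intro r
    show aeval u (C r : MvPolynomial Q R) = _
    rw [aeval_C]
    rfl
  have hφX : ∀ q : Q, φ (X q) = u q := fun q => aeval_X u q
  have hφcomp : φ.comp (C : R →+* B) = R.subtype := RingHom.ext hφC
  -- the approximate arc
  let ξ : Fin v → PowerSeries B := fun a => PowerSeries.mk fun ν =>
    if hν : ν < L1 then (C ⟨(x a).coeff ν, hR a ν hν⟩ : MvPolynomial Q R)
    else if ha : a ∉ Set.range z then X (⟨a, ha⟩, ν - L1) else 0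
  have hξ1 : ∀ a ν (hν : ν < L1), (ξ a).coeff ν = C ⟨(x a).coeff ν, hR a ν hν⟩ := by
    intro a ν hν
    rw [PowerSeries.coeff_mk, dif_pos hν]
  have hξ2 : ∀ q : Q, (ξ q.1).coeff (L1 + q.2) = X q := by
    rintro ⟨⟨a, ha⟩, n⟩
    rw [PowerSeries.coeff_mk, dif_neg (by omega), dif_pos ha]
    simp
  have hmapξ : ∀ a, (PowerSeries.X : PowerSeries κ) ^ L1 ∣ PowerSeries.map φ (ξ a) - x a := by
    intro a
    rw [PowerSeries.X_pow_dvd_iff]
    intro m hm
    rw [map_sub, PowerSeries.coeff_map, hξ1 a m hm, hφC, sub_self]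
  let fB : Fin k → MvPolynomial (Fin v) B := fun i => MvPolynomial.map (C : R →+* B) (f i)
  have hfB : ∀ i, MvPolynomial.map φ (fB i) = MvPolynomial.map R.subtype (f i) := by
    intro i
    rw [MvPolynomial.map_map, hφcomp]
  have h0 : ∀ i, (PowerSeries.X : PowerSeries B) ^ L1 ∣ aeval ξ (fB i) := by
    intro i
    apply m6a_dvd_of_map φ hφ
    rw [m6a_map_aeval, hfB]
    have h1 := m6a_congr L1 (fun a => PowerSeries.map φ (ξ a)) x hmapξ
      (MvPolynomial.map R.subtype (f i))
    rwa [hx i, sub_zero] at h1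
  -- the constant term of the Jacobian minor
  let xb : Fin v → R := fun a => ⟨(x a).coeff 0, hR a 0 (by omega)⟩
  let r0 : R := MvPolynomial.eval xb (jac f z)
  have hr0 : (r0 : κ) = PowerSeries.constantCoeff
      (aeval x (jac (fun i => MvPolynomial.map R.subtype (f i)) z)) := by
    rw [m6a_jac_map, m6a_const, MvPolynomial.eval_map]
    show R.subtype (MvPolynomial.eval xb (jac f z)) = _
    rw [MvPolynomial.eval, coe_eval₂Hom, hom_eval₂]
    have h2 : (fun i => R.subtype (xb i)) = fun a => PowerSeries.constantCoeff (x a) := by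
      funext a
      exact PowerSeries.coeff_zero_eq_constantCoeff_apply (x a)
    rw [h2]
    rfl
  have hru : IsUnit r0 := by
    obtain ⟨c, hc, hc1⟩ := hJ
    refine IsUnit.of_mul_eq_one (⟨c, hc⟩ : R) ?_
    apply Subtype.ext
    show (r0 : κ) * c = 1
    rw [hr0, mul_comm]
    exact hc1
  have hJB : IsUnit (PowerSeries.constantCoeff (aeval ξ (jac fB z))) := by
    have h1 : PowerSeries.constantCoeff (aeval ξ (jac fB z)) = C r0 := by
      rw [m6a_jac_map, m6a_const, MvPolynomial.eval_map]
      have h2 : (fun a => PowerSeries.constantCoeff (ξ a)) = fun a => (C (xb a) : B) := by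
        funext a
        rw [← PowerSeries.coeff_zero_eq_constantCoeff_apply]
        exact hξ1 a 0 (by omega)
      rw [h2]
      show _ = C (MvPolynomial.eval xb (jac f z))
      rw [MvPolynomial.eval, coe_eval₂Hom, hom_eval₂]
      rfl
    rw [h1]
    exact hru.map (C : R →+* B)
  obtain ⟨x', hx1, hx2, hx3⟩ := hensel_arc fB z hz L1 hL1 ξ h0 hJB
  -- its image over κ
  have hx'' : (fun a => PowerSeries.map φ (x' a)) = x := by
    refine hensel_uniq (B := κ) (K := κ) (fun i => MvPolynomial.map R.subtype (f i)) z hz _ x ?_ hx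
      ?_ ?_ ?_
    · intro i
      rw [← hfB, ← m6a_map_aeval, hx3, map_zero]
    · intro a ha
      ext m
      show (PowerSeries.map φ (x' a)).coeff m = _
      rw [PowerSeries.coeff_map, hx1 a ha]
      by_cases hm : m < L1
      · rw [hξ1 a m hm, hφC]
      · have h1 := hξ2 (⟨a, ha⟩, m - L1)
        have h2 : L1 + (m - L1) = m := by omega
        simp only [h2] at h1
        rw [h1, hφX]
        show (x a).coeff (L1 + (m - L1)) = _
        rw [h2]
    · intro a
      have h1 : (PowerSeries.X : PowerSeries κ) ^ L1 ∣ PowerSeries.map φ (x' a) - x a := by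
        have h2 := m6a_map_dvd φ (hx2 a)
        rw [map_sub] at h2
        have h3 := dvd_add h2 (hmapξ a)
        rwa [sub_add_sub_cancel] at h3
      exact (dvd_pow_self _ (by omega)).trans h1
    · rw [m6a_const]
      have h1 : (fun a => PowerSeries.constantCoeff (PowerSeries.map φ (x' a))) =
          fun a => PowerSeries.constantCoeff (x a) := by
        funext a
        have h2 := m6a_map_dvd φ (hx2 a)
        rw [map_sub] at h2
        have h3 := dvd_add h2 (hmapξ a)
        rw [sub_add_sub_cancel, PowerSeries.X_pow_dvd_iff] at h3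
        have h4 := h3 0 (by omega)
        rw [map_sub, PowerSeries.coeff_zero_eq_constantCoeff_apply,
          PowerSeries.coeff_zero_eq_constantCoeff_apply] at h4
        exact sub_eq_zero.mp h4
      rw [h1, ← m6a_const, ← hr0]
      exact hru.map R.subtype
  have hcoef : ∀ (a : Fin v) (ν : ℕ) (hν : ν < L1),
      (x' a).coeff ν = (C ⟨(x a).coeff ν, hR a ν hν⟩ : B) := by
    intro a ν hν
    have h1 := hx2 a
    rw [PowerSeries.X_pow_dvd_iff] at h1
    have h2 := h1 ν hν
    rw [map_sub, sub_eq_zero] at h2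
    rw [h2, hξ1 a ν hν]
  -- the reduction
  let ψ : B →+* FractionRing (MvPolynomial Q k1) :=
    (algebraMap (MvPolynomial Q k1) (FractionRing (MvPolynomial Q k1))).comp
      (MvPolynomial.map π1)
  have hψC : ψ.comp (C : R →+* B) = (algebraMap k1 (FractionRing (MvPolynomial Q k1))).comp π1 := by
    ext r
    show algebraMap (MvPolynomial Q k1) (FractionRing (MvPolynomial Q k1))
      (MvPolynomial.map π1 (C r)) = algebraMap k1 (FractionRing (MvPolynomial Q k1)) (π1 r)
    rw [MvPolynomial.map_C, IsScalarTower.algebraMap_apply k1 (MvPolynomial Q k1)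
      (FractionRing (MvPolynomial Q k1))]
    rfl
  refine ⟨fun a => PowerSeries.map ψ (x' a), ?_, ?_, ?_⟩
  · intro a ν hν
    show (PowerSeries.map ψ (x' a)).coeff ν = _
    rw [PowerSeries.coeff_map, hcoef a ν hν]
    exact RingHom.congr_fun hψC _
  · intro q
    show (PowerSeries.map ψ (x' q.1)).coeff (L1 + q.2) = _
    rw [PowerSeries.coeff_map, hx1 q.1 q.1.2, hξ2 q]
    show algebraMap (MvPolynomial Q k1) (FractionRing (MvPolynomial Q k1))
      (MvPolynomial.map π1 (X q)) = _
    rw [MvPolynomial.map_X]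
  · intro P l hP
    have h1 : (PowerSeries.X : PowerSeries B) ^ l ∣
        aeval x' (MvPolynomial.map (C : R →+* B) P) := by
      apply m6a_dvd_of_map φ hφ
      rw [m6a_map_aeval, hx'', MvPolynomial.map_map, hφcomp]
      exact hP
    have h2 := m6a_map_dvd ψ h1
    rw [m6a_map_aeval, MvPolynomial.map_map, hψC] at h2
    exact h2


end Pool.Agent.OPT.M6a

namespace Pool.Agent.OPT

alias red_core := M6a.red_core_pr

end Pool.Agent.OPT
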