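import Pool.Agent.Lib_helper80.OPF.Defs
import Pool.Agent.Lib_helper56.KSS.J1

/-! # OPN, block M6b: transcendence degrees in towers -/

namespace Pool.Agent.OPT.M6b

open MvPolynomial Pool.Agent.KSS Pool.Agent.KSX
open scoped ENNReal

/-- (M6b) `tau` of a family over `k1` and independent elements over `k1`. PROOF. A subfamily `ξ_j`,
`j ∈ S`, algebraically independent over `F`, `|S| = tau F ξ`, together with the `u_i`, `i ∈ I0`, is
algebraically independent over `F`. -/
theorem tau_add_pr {F k1 κ J I : Type} [Field F] [Field k1] [Field κ] [Algebra F k1] [Algebra k1 κ]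
    [Algebra F κ] [IsScalarTower F k1 κ] [Fintype J] [Fintype I] (ξ : J → k1) (u : I → κ)
    (hu : AlgebraicIndependent k1 u) :
    tau F ξ + Fintype.card I ≤ tau F (Sum.elim (fun j => algebraMap k1 κ (ξ j)) u) := by
  rw [Pool.Agent.Lib_helper56.KSS.tau_eq, Pool.Agent.Lib_helper56.KSS.tau_eq]
  obtain ⟨S, hS1, hS2⟩ := Pool.Agent.Lib_helper56.KSS.exists_tau (K := F) ξ
  have h1 := hS2.sumElim_comp hu
  have h2 := Pool.Agent.Lib_helper56.KSS.card_le_tau' (K := F)
    (Sum.elim (fun j => algebraMap k1 κ (ξ j)) u)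
    (Sum.elim Sum.inr (fun j : S => Sum.inl (j : J)) : I ⊕ S → J ⊕ I) (by
      have e : (fun j => Sum.elim (fun j => algebraMap k1 κ (ξ j)) u
          ((Sum.elim Sum.inr (fun j : S => Sum.inl (j : J)) : I ⊕ S → J ⊕ I) j)) =
          Sum.elim u (algebraMap k1 κ ∘ fun i : S => ξ i) := by
        funext j
        rcases j with j | j <;> rfl
      rw [e]
      exact h1)
  rw [Nat.card_eq_fintype_card, Fintype.card_sum, Fintype.card_coe, hS1] at h2
  omega

/-- `tau` is monotone under reindexing -/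
theorem tau_comp_pr {F κ J I : Type} [Field F] [Field κ] [Algebra F κ] [Fintype J] [Fintype I]
    (ξ : J → κ) (e : I → J) : tau F (ξ ∘ e) ≤ tau F ξ := by
  rw [Pool.Agent.Lib_helper56.KSS.tau_eq, Pool.Agent.Lib_helper56.KSS.tau_eq]
  exact Pool.Agent.Lib_helper56.KSS.tau_comp_le ξ e

end Pool.Agent.OPT.M6b

namespace Pool.Agent.OPT

alias tau_add := M6b.tau_add_pr
alias tau_comp := M6b.tau_comp_pr

end Pool.Agent.OPT
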