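import Pool.Agent.Lib_helper80.OPF.Defs
import Pool.Agent.Lib_helper77.KSZ.Main
import Pool.Agent.Lib_helper80.OPF.M2
import Pool.Agent.Lib_helper80.OPF.M4
import Pool.Agent.Lib_helper80.OPF.M6a
import Pool.Agent.Lib_helper80.OPF.M6b

/-!
# OPN, block M6: reduction of an arc
-/

namespace Pool.Agent.OPT.M6

open MvPolynomial Pool.Agent.KSS Pool.Agent.KSX Pool.Agent.OPT

theorem map_jac' {k v : ℕ} {R F : Type} [CommRing R] [CommRing F] (φ : R →+* F)
    (f : Fin k → MvPolynomial (Fin v) R) (z : Fin k → Fin v) :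
    MvPolynomial.map φ (jac f z) = jac (fun i => MvPolynomial.map φ (f i)) z := by
  unfold jac
  rw [RingHom.map_det]
  congr 1
  ext i j
  simp [Matrix.map_apply, pderiv_map]

/-- constant coefficient of the value of a polynomial -/
theorem cc_aeval {S T : Type} [CommRing S] [CommRing T] [Algebra S T] {v : ℕ}
    (x : Fin v → PowerSeries T) (P : MvPolynomial (Fin v) S) :
    PowerSeries.constantCoeff (aeval x P) =
      aeval (fun a => PowerSeries.constantCoeff (x a)) P := by
  have h : ((PowerSeries.constantCoeff (R := T)).comp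
      ((aeval x : MvPolynomial (Fin v) S →ₐ[S] PowerSeries T) : MvPolynomial (Fin v) S →+* _)) =
      ((aeval (fun a => PowerSeries.constantCoeff (x a)) :
        MvPolynomial (Fin v) S →ₐ[S] T) : MvPolynomial (Fin v) S →+* T) := by
    apply MvPolynomial.ringHom_ext
    · intro r
      simp only [RingHom.comp_apply, RingHom.coe_coe]
      rw [← MvPolynomial.algebraMap_eq, AlgHom.commutes, AlgHom.commutes]
      rw [PowerSeries.algebraMap_apply, PowerSeries.constantCoeff_C]
    · intro i
      simp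
  exact congrArg (fun g : MvPolynomial (Fin v) S →+* T => g P) h

/-- the truncation is congruent to the series -/
theorem trunc_dvd {κ : Type} [Field κ] {v L : ℕ} (x : Fin v → PowerSeries κ) (a : Fin v) :
    (PowerSeries.X : PowerSeries κ) ^ L ∣ arc (trunc L x a) - x a := by
  rw [PowerSeries.X_pow_dvd_iff]
  intro m hm
  rw [map_sub]
  unfold arc trunc
  rw [PowerSeries.coeff_mk, dif_pos hm]
  simp

theorem ev_sub_dvd {F κ : Type} [Field F] [Field κ] [Algebra F κ] {v L : ℕ}
    (x : Fin v → PowerSeries κ) (P : MvPolynomial (Fin v) F) :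
    (PowerSeries.X : PowerSeries κ) ^ L ∣ ev (trunc L x) P - aeval x P := by
  unfold ev
  rw [← Ideal.mem_span_singleton, ← Ideal.Quotient.eq]
  have h : ((Ideal.Quotient.mk (Ideal.span {(PowerSeries.X : PowerSeries κ) ^ L})).comp
      ((aeval (fun i => arc (trunc L x i)) : MvPolynomial (Fin v) F →ₐ[F] PowerSeries κ) :
        MvPolynomial (Fin v) F →+* _)) =
      ((Ideal.Quotient.mk (Ideal.span {(PowerSeries.X : PowerSeries κ) ^ L})).comp
      ((aeval x : MvPolynomial (Fin v) F →ₐ[F] PowerSeries κ) :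
        MvPolynomial (Fin v) F →+* _)) := by
    apply MvPolynomial.ringHom_ext
    · intro r
      simp
    · intro i
      simp only [RingHom.comp_apply, RingHom.coe_coe, aeval_X]
      rw [Ideal.Quotient.eq, Ideal.mem_span_singleton]
      exact trunc_dvd x i
  exact congrArg (fun g : MvPolynomial (Fin v) F →+* _ => g P) h

theorem card_compl {k v : ℕ} (z : Fin k → Fin v) (hz : Function.Injective z) :
    Fintype.card {a : Fin v // a ∉ Set.range z} = v - k := by
  classical
  rw [Fintype.card_subtype_compl]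
  congr 1
  · simp
  · exact (Set.card_range_of_injective hz).trans (Fintype.card_fin k)


theorem tau_bdd (k : Type) {κ J : Type} [Field k] [Field κ] [Algebra k κ] [Fintype J]
    (x : J → κ) :
    BddAbove {n | ∃ S : Finset J, S.card = n ∧ AlgebraicIndependent k (fun s : S => x s)} := by
  refine ⟨Fintype.card J, ?_⟩
  rintro n ⟨S, rfl, -⟩
  exact Finset.card_le_univ S

/-- the conclusions, from the properties of the reduced arc -/
theorem red_fin {K κ k0 k1 κ' : Type} [Field K] [Field κ] [Algebra K κ] [Field k0] [Field k1]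
    [Algebra k0 k1] [Field κ'] [Algebra k1 κ'] [Algebra k0 κ'] [IsScalarTower k0 k1 κ']
    {k v : ℕ} (z : Fin k → Fin v) (hz : Function.Injective z) (x : Fin v → PowerSeries κ)
    (b : Fin v) (O : ValuationSubring K) (R : Subring κ) (π0 : O →+* k0) (π1 : R →+* k1)
    (OR : O →+* R) (hOR : ∀ c : O, ((OR c : R) : κ) = algebraMap K κ c)
    (hπ : ∀ c, π1 (OR c) = algebraMap k0 k1 (π0 c)) (fO : Fin k → MvPolynomial (Fin v) O)
    (L1 : ℕ) (hL1 : 1 ≤ L1) (hR : ∀ (a : Fin v) (ν : ℕ), ν < L1 → (x a).coeff ν ∈ R)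
    (hx : ∀ i, aeval x (MvPolynomial.map O.subtype (fO i)) = 0)
    (hJ : ∃ c ∈ R, c * PowerSeries.constantCoeff
      (aeval x (MvPolynomial.map O.subtype (jac fO z))) = 1)
    (hb : ∃ c ∈ R, c * PowerSeries.constantCoeff (x b) = 1) (A : ℕ)
    (hA1 : (v - k) * L1 ≤ tau k0 (fun j : Fin v × Fin L1 =>
      π1 ⟨(x j.1).coeff j.2, hR _ _ j.2.2⟩) + A)
    (y : Fin v → PowerSeries κ')
    (hy1 : ∀ (a : Fin v) (ν : ℕ) (hν : ν < L1),
      (y a).coeff ν = algebraMap k1 κ' (π1 ⟨(x a).coeff ν, hR a ν hν⟩))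
    (hy2 : AlgebraicIndependent k1
      (fun q : {a : Fin v // a ∉ Set.range z} × ℕ => (y q.1).coeff (L1 + q.2)))
    (hy3 : ∀ (P : MvPolynomial (Fin v) R) (l : ℕ),
      (PowerSeries.X : PowerSeries κ) ^ l ∣ aeval x (MvPolynomial.map R.subtype P) →
      (PowerSeries.X : PowerSeries κ') ^ l ∣
        aeval y (MvPolynomial.map ((algebraMap k1 κ').comp π1) P)) :
    PowerSeries.constantCoeff (aeval y (jac (fun i => MvPolynomial.map π0 (fO i)) z)) ≠ 0 ∧
      PowerSeries.constantCoeff (y b) ≠ 0 ∧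
      (∀ L, (v - k) * L ≤ tauJ k0 (trunc L y) + A) ∧
      ∀ (P : MvPolynomial (Fin v) O) (l : ℕ),
        (PowerSeries.X : PowerSeries κ) ^ l ∣ aeval x (MvPolynomial.map O.subtype P) →
        (PowerSeries.X : PowerSeries κ') ^ l ∣ aeval y (MvPolynomial.map π0 P) := by
  classical
  -- divisibility
  have hd : ∀ (P : MvPolynomial (Fin v) O) (l : ℕ),
      (PowerSeries.X : PowerSeries κ) ^ l ∣ aeval x (MvPolynomial.map O.subtype P) →
      (PowerSeries.X : PowerSeries κ') ^ l ∣ aeval y (MvPolynomial.map π0 P) := by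
    intro P l h
    have h1 : aeval x (MvPolynomial.map R.subtype (MvPolynomial.map OR P)) =
        aeval x (MvPolynomial.map O.subtype P) := by
      rw [← MvPolynomial.aeval_map_algebraMap (A := κ) x (MvPolynomial.map O.subtype P),
        MvPolynomial.map_map, MvPolynomial.map_map,
        show R.subtype.comp OR = (algebraMap K κ).comp O.subtype from RingHom.ext hOR]
    have h2 := hy3 (MvPolynomial.map OR P) l (by rw [h1]; exact h)
    have h3 : aeval y (MvPolynomial.map ((algebraMap k1 κ').comp π1) (MvPolynomial.map OR P)) =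
        aeval y (MvPolynomial.map π0 P) := by
      rw [← MvPolynomial.aeval_map_algebraMap (A := κ') y (MvPolynomial.map π0 P),
        MvPolynomial.map_map, MvPolynomial.map_map,
        show ((algebraMap k1 κ').comp π1).comp OR = (algebraMap k0 κ').comp π0 from
          RingHom.ext fun c => by
            simp only [RingHom.comp_apply, hπ]
            exact (IsScalarTower.algebraMap_apply k0 k1 κ' _).symm]
    rwa [h3] at h2
  -- constant coefficients
  set c0 : Fin v → R := fun a => ⟨(x a).coeff 0, hR a 0 hL1⟩ with hc0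
  have hc1 : ∀ P : MvPolynomial (Fin v) O, ((eval₂ OR c0 P : R) : κ) =
      PowerSeries.constantCoeff (aeval x (MvPolynomial.map O.subtype P)) := by
    intro P
    rw [cc_aeval]
    have h1 : ((eval₂ OR c0 P : R) : κ) = R.subtype (eval₂ OR c0 P) := rfl
    rw [h1, MvPolynomial.hom_eval₂, aeval_def, eval₂_map]
    congr 1
    · ext c
      exact hOR c
    · funext a
      exact PowerSeries.coeff_zero_eq_constantCoeff_apply _
  have hc2 : ∀ P : MvPolynomial (Fin v) O, algebraMap k1 κ' (π1 (eval₂ OR c0 P)) =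
      PowerSeries.constantCoeff (aeval y (MvPolynomial.map π0 P)) := by
    intro P
    rw [cc_aeval]
    have h1 : algebraMap k1 κ' (π1 (eval₂ OR c0 P)) =
        ((algebraMap k1 κ').comp π1) (eval₂ OR c0 P) := rfl
    rw [h1, MvPolynomial.hom_eval₂, aeval_def, eval₂_map]
    congr 1
    · ext c
      simp only [RingHom.comp_apply, hπ]
      exact (IsScalarTower.algebraMap_apply k0 k1 κ' _).symm
    · funext a
      rw [← PowerSeries.coeff_zero_eq_constantCoeff_apply]
      exact (hy1 a 0 hL1).symm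
  have hunit : ∀ r : R, (∃ c ∈ R, c * (r : κ) = 1) → algebraMap k1 κ' (π1 r) ≠ 0 := by
    rintro r ⟨c, hc, h⟩
    have h1 : (⟨c, hc⟩ : R) * r = 1 := Subtype.ext h
    have h2 := congrArg (fun w => algebraMap k1 κ' (π1 w)) h1
    simp only [map_mul, map_one] at h2
    exact right_ne_zero_of_mul_eq_one h2
  have hJy : PowerSeries.constantCoeff
      (aeval y (jac (fun i => MvPolynomial.map π0 (fO i)) z)) ≠ 0 := by
    rw [← map_jac', ← hc2]
    refine hunit _ ?_
    rw [hc1]
    exact hJ
  refine ⟨hJy, ?_, ?_, hd⟩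
  · rw [← PowerSeries.coeff_zero_eq_constantCoeff_apply, hy1 b 0 hL1]
    refine hunit _ ?_
    obtain ⟨c, hc, h⟩ := hb
    refine ⟨c, hc, ?_⟩
    rw [← h, ← PowerSeries.coeff_zero_eq_constantCoeff_apply]
  -- transcendence degrees
  have hge : ∀ L, L1 ≤ L → (v - k) * L ≤ tauJ k0 (trunc L y) + A := by
    intro L hL
    set ξ' : Fin v × Fin L1 → k1 := fun j => π1 ⟨(x j.1).coeff j.2, hR _ _ j.2.2⟩ with hξ'
    set u : {a : Fin v // a ∉ Set.range z} × Fin (L - L1) → κ' := fun q =>
      (y q.1).coeff (L1 + q.2) with hu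
    have hui : AlgebraicIndependent k1 u := hy2.comp
      (fun q : {a : Fin v // a ∉ Set.range z} × Fin (L - L1) => (q.1, (q.2 : ℕ))) (by
        intro q q' h
        have e1 := congrArg Prod.fst h
        have e2 := congrArg Prod.snd h
        exact Prod.ext e1 (Fin.ext e2))
    have h1 := tau_add (F := k0) ξ' u hui
    have h2 : tau k0 (Sum.elim (fun j => algebraMap k1 κ' (ξ' j)) u) ≤
        tauJ k0 (trunc L y) := by
      have h3 := tau_comp (F := k0) (fun p : Fin v × Fin L => trunc L y p.1 p.2)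
        (fun s : (Fin v × Fin L1) ⊕ ({a : Fin v // a ∉ Set.range z} × Fin (L - L1)) =>
          Sum.elim (fun j => ((j.1, ⟨j.2, by
            have := j.2.2
            omega⟩) : Fin v × Fin L)) (fun q => (((q.1 : Fin v), ⟨L1 + q.2, by
            have := q.2.2
            omega⟩) : Fin v × Fin L)) s)
      refine le_trans (le_of_eq ?_) h3
      congr 1
      funext s
      rcases s with j | q
      · simp only [Sum.elim_inl, Function.comp, trunc]
        exact (hy1 j.1 j.2 j.2.2).symm
      · rfl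
    have h4 : Fintype.card ({a : Fin v // a ∉ Set.range z} × Fin (L - L1)) =
        (v - k) * (L - L1) := by
      rw [Fintype.card_prod, card_compl z hz, Fintype.card_fin]
    rw [h4] at h1
    have h5 : (v - k) * L = (v - k) * L1 + (v - k) * (L - L1) := by
      rw [← Nat.mul_add]
      congr 1
      omega
    rw [h5]
    have h6 : tau k0 ξ' + (v - k) * (L - L1) ≤ tauJ k0 (trunc L y) := h1.trans h2
    omega
  intro L
  rcases le_total L1 L with hL | hL
  · exact hge L hL
  rcases Nat.eq_zero_or_pos L with rfl | hL0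
  · simp
  have hxy : ∀ i, (PowerSeries.X : PowerSeries κ') ^ L1 ∣
      ev (trunc L1 y) (MvPolynomial.map π0 (fO i)) := by
    intro i
    have h1 := hd (fO i) L1 (by rw [hx i]; exact dvd_zero _)
    have h2 := ev_sub_dvd (F := k0) (L := L1) y (MvPolynomial.map π0 (fO i))
    have h3 := dvd_add h2 h1
    rwa [sub_add_cancel] at h3
  have hJL : PowerSeries.constantCoeff (ev (trunc L1 y)
      (jac (fun i => MvPolynomial.map π0 (fO i)) z)) ≠ 0 := by
    have h2 := ev_sub_dvd (F := k0) (L := L1) y (jac (fun i => MvPolynomial.map π0 (fO i)) z)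
    rw [PowerSeries.X_pow_dvd_iff] at h2
    have h3 := h2 0 (by omega)
    rw [map_sub, PowerSeries.coeff_zero_eq_constantCoeff_apply,
      PowerSeries.coeff_zero_eq_constantCoeff_apply, sub_eq_zero] at h3
    rw [h3]
    exact hJy
  have h1 := tau_trunc (K := k0) (fun i => MvPolynomial.map π0 (fO i)) z hz (trunc L1 y) hxy hJL
    L hL0 hL
  have h2 := hge L1 le_rfl
  have h3 : tauJ k0 (fun a (μ : Fin L) => trunc L1 y a ⟨μ, μ.2.trans_le hL⟩) =
      tauJ k0 (trunc L y) := rfl
  rw [h3] at h1
  have h5 : (v - k) * L1 = (v - k) * L + (v - k) * (L1 - L) := by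
    rw [← Nat.mul_add]
    congr 1
    omega
  omega

/-- polynomials with coefficients in a subring come from the subring -/
theorem lift_coeff {K : Type} [Field K] {v : ℕ} (O : ValuationSubring K)
    (g : MvPolynomial (Fin v) K) (h : ∀ β, coeff β g ∈ O) :
    ∃ gO : MvPolynomial (Fin v) O, MvPolynomial.map O.subtype gO = g := by
  refine ⟨∑ β ∈ g.support, monomial β ⟨coeff β g, h β⟩, ?_⟩
  rw [map_sum]
  conv_rhs => rw [← support_sum_monomial_coeff g]
  refine Finset.sum_congr rfl fun β _ => ?_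
  rw [map_monomial]
  rfl

theorem red_main_pr {K κ : Type} [Field K] [IsAlgClosed K] [CharZero K] [Field κ] [Algebra K κ]
    {k v : ℕ} (f : Fin k → MvPolynomial (Fin v) K) (z : Fin k → Fin v)
    (hz : Function.Injective z)
    (x : Fin v → PowerSeries κ) (hx : ∀ i, aeval x (f i) = 0)
    (hJ : PowerSeries.constantCoeff (aeval x (jac f z)) ≠ 0) (b : Fin v)
    (hb : PowerSeries.constantCoeff (x b) ≠ 0) (A : ℕ)
    (hA : ∀ L, (v - k) * L ≤ tauJ K (trunc L x) + A)
    (C : Finset K) (hC : ∀ i β, coeff β (f i) ∈ C) (N : ℕ) :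
    ∃ (p : ℕ) (O : ValuationSubring K) (F : Type) (_ : Field F) (_ : IsAlgClosed F)
      (_ : CharP F p) (π : O →+* F) (κ' : Type) (_ : Field κ') (_ : Algebra F κ')
      (y : Fin v → PowerSeries κ') (fO : Fin k → MvPolynomial (Fin v) O),
      p.Prime ∧ N ≤ p ∧ Function.Surjective π ∧ (∀ c ∈ C, c ∈ O) ∧
      (∀ i, MvPolynomial.map O.subtype (fO i) = f i) ∧
      PowerSeries.constantCoeff (aeval y (jac (fun i => MvPolynomial.map π (fO i)) z)) ≠ 0 ∧
      PowerSeries.constantCoeff (y b) ≠ 0 ∧
      (∀ L, (v - k) * L ≤ tauJ F (trunc L y) + A) ∧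
      ∀ (P : MvPolynomial (Fin v) O) (l : ℕ),
        (PowerSeries.X : PowerSeries κ) ^ l ∣ aeval x (MvPolynomial.map O.subtype P) →
        (PowerSeries.X : PowerSeries κ') ^ l ∣ aeval y (MvPolynomial.map π P) := by
  classical
  obtain ⟨L1, hL1, hind⟩ := stable_level f z hz x hx hJ A hA
  -- the coefficients of index < L1
  set ξ : Fin v × Fin L1 → κ := fun q => trunc L1 x q.1 q.2 with hξdef
  set M : IntermediateField K κ := IntermediateField.adjoin K (Set.range ξ) with hM
  have hξM : ∀ (a : Fin v) (ν : ℕ), ν < L1 → (x a).coeff ν ∈ M := by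
    intro a ν hν
    exact IntermediateField.subset_adjoin K _ ⟨(a, ⟨ν, hν⟩), rfl⟩
  have hccM : ∀ a, PowerSeries.constantCoeff (x a) ∈ M := by
    intro a
    rw [← PowerSeries.coeff_zero_eq_constantCoeff_apply]
    exact hξM a 0 (by omega)
  have hjM : PowerSeries.constantCoeff (aeval x (jac f z)) ∈ M := by
    rw [cc_aeval]
    have h1 : aeval (fun a => PowerSeries.constantCoeff (x a)) (jac f z) =
        algebraMap M κ (aeval (fun a => (⟨PowerSeries.constantCoeff (x a), hccM a⟩ : M))
          (jac f z)) := by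
      rw [← MvPolynomial.aeval_algebraMap_apply]
      rfl
    rw [h1]
    exact (aeval (fun a => (⟨PowerSeries.constantCoeff (x a), hccM a⟩ : M)) (jac f z)).2
  set Ξ : Finset κ := {(PowerSeries.constantCoeff (aeval x (jac f z)))⁻¹,
    (PowerSeries.constantCoeff (x b))⁻¹} with hΞdef
  have hΞ : ∀ e ∈ Ξ, e ∈ IntermediateField.adjoin K (Set.range ξ) := by
    intro e he
    rw [hΞdef, Finset.mem_insert, Finset.mem_singleton] at he
    rcases he with rfl | rfl
    · exact M.inv_mem hjM
    · exact M.inv_mem (hccM b)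
  obtain ⟨p, O, O1, k0, fk0, ack0, chk0, k1, fk1, alg01, π0, π1, hO, hξO, hp, hN, hsurj, hCO,
    hΞO, hcomp, htau⟩ := place_rel ξ Ξ hΞ C N
  let _ := fk0
  let _ := fk1
  let _ := alg01
  have _ := ack0
  have _ := chk0
  -- the subring
  set R : Subring κ := O1.toSubring ⊓ M.toSubfield.toSubring with hR
  have hRmem : ∀ e : κ, e ∈ R ↔ e ∈ O1 ∧ e ∈ M := fun e => Iff.rfl
  set π1' : R →+* k1 := π1.comp ((R.subtype).codRestrict O1 fun r => r.2.1) with hπ1'
  set OR : O →+* R := ((algebraMap K κ).comp O.subtype).codRestrict R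
    (fun c => ⟨hO c, M.algebraMap_mem c⟩) with hOR
  have hπOR : ∀ c : O, π1' (OR c) = algebraMap k0 k1 (π0 c) := fun c => hcomp c
  have hRcoeff : ∀ (a : Fin v) (ν : ℕ), ν < L1 → (x a).coeff ν ∈ R := by
    intro a ν hν
    exact ⟨hξO (a, ⟨ν, hν⟩), hξM a ν hν⟩
  -- the forms over O and over R
  have hfO := fun i => lift_coeff O (f i) fun β => hCO _ (hC i β)
  choose fO hfO using hfO
  set fR : Fin k → MvPolynomial (Fin v) R := fun i => MvPolynomial.map OR (fO i) with hfR
  have hmapR : ∀ P : MvPolynomial (Fin v) O, MvPolynomial.map R.subtype (MvPolynomial.map OR P) =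
      MvPolynomial.map (algebraMap K κ) (MvPolynomial.map O.subtype P) := by
    intro P
    rw [MvPolynomial.map_map, MvPolynomial.map_map]
    rfl
  have haevR : ∀ P : MvPolynomial (Fin v) O,
      aeval x (MvPolynomial.map R.subtype (MvPolynomial.map OR P)) =
        aeval x (MvPolynomial.map O.subtype P) := by
    intro P
    rw [hmapR, MvPolynomial.aeval_map_algebraMap]
  have hxR : ∀ i, aeval x (MvPolynomial.map R.subtype (fR i)) = 0 := by
    intro i
    rw [haevR, hfO, hx]
  have hjacR : aeval x (jac (fun i => MvPolynomial.map R.subtype (fR i)) z) =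
      aeval x (jac f z) := by
    rw [← map_jac', hfR, ← map_jac', haevR, map_jac']
    simp only [hfO]
  have hjR : (PowerSeries.constantCoeff (aeval x (jac f z)))⁻¹ ∈ R :=
    ⟨hΞO _ (by rw [hΞdef]; exact Finset.mem_insert_self _ _), M.inv_mem hjM⟩
  have hbR : (PowerSeries.constantCoeff (x b))⁻¹ ∈ R :=
    ⟨hΞO _ (by
      rw [hΞdef]
      exact Finset.mem_insert_of_mem (Finset.mem_singleton_self _)), M.inv_mem (hccM b)⟩
  have hJR : ∃ c ∈ R, c * PowerSeries.constantCoeff
      (aeval x (jac (fun i => MvPolynomial.map R.subtype (fR i)) z)) = 1 := by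
    refine ⟨_, hjR, ?_⟩
    rw [hjacR]
    exact inv_mul_cancel₀ hJ
  have hset : {e | ∃ (a : Fin v) (ν : ℕ), ν < L1 ∧ e = (x a).coeff ν} = Set.range ξ := by
    ext e
    constructor
    · rintro ⟨a, ν, hν, rfl⟩
      exact ⟨(a, ⟨ν, hν⟩), rfl⟩
    · rintro ⟨q, rfl⟩
      exact ⟨q.1, q.2, q.2.2, rfl⟩
  have hu : AlgebraicIndependent R
      (fun q : {a : Fin v // a ∉ Set.range z} × ℕ => (x q.1).coeff (L1 + q.2)) := by
    rw [hset] at hind
    let algRM : Algebra R M := ((R.subtype).codRestrict M fun r => r.2.2).toAlgebra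
    have : IsScalarTower R M κ := IsScalarTower.of_algebraMap_eq fun r => rfl
    refine AlgebraicIndependent.restrictScalars (K := M) ?_ hind
    intro r r' h
    exact Subtype.ext (congrArg (fun w : M => (w : κ)) h)
  obtain ⟨y, hy1, hy2, hy3⟩ := red_core R fR z hz x hxR L1 hL1 hRcoeff hJR hu k1 π1'
  refine ⟨p, O, k0, fk0, ack0, chk0, π0,
    FractionRing (MvPolynomial ({a : Fin v // a ∉ Set.range z} × ℕ) k1), inferInstance,
    inferInstance, y, fO, hp, hN, hsurj, hCO, hfO, ?_⟩
  refine red_fin z hz x b O R π0 π1' OR (fun c => rfl) hπOR fO L1 hL1 hRcoeff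
    (fun i => by rw [hfO, hx]) ⟨_, hjR, ?_⟩ ⟨_, hbR, inv_mul_cancel₀ hb⟩ A ?_ y hy1 ?_ hy3
  · rw [map_jac']
    simp only [hfO]
    exact inv_mul_cancel₀ hJ
  · exact (hA L1).trans (Nat.add_le_add_right htau _)
  · have h1 : (fun q : {a : Fin v // a ∉ Set.range z} × ℕ => (y q.1).coeff (L1 + q.2)) =
        fun q => algebraMap (MvPolynomial ({a : Fin v // a ∉ Set.range z} × ℕ) k1)
          (FractionRing (MvPolynomial ({a : Fin v // a ∉ Set.range z} × ℕ) k1)) (X q) := by
      funext q
      exact hy2 q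
    rw [h1]
    have h2 : AlgebraicIndependent k1
        (fun q : {a : Fin v // a ∉ Set.range z} × ℕ => (X q : MvPolynomial _ k1)) :=
      MvPolynomial.algebraicIndependent_X _ _
    exact h2.map' (f := IsScalarTower.toAlgHom k1
      (MvPolynomial ({a : Fin v // a ∉ Set.range z} × ℕ) k1) _)
      (IsFractionRing.injective _ _)

end Pool.Agent.OPT.M6

namespace Pool.Agent.OPT

alias red_main := M6.red_main_pr

end Pool.Agent.OPT
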