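import Pool.Agent.Lib_helper80.OPF.Defs
import Pool.Agent.Lib_helper77.KSZ.Main
import Pool.Agent.Lib_helper80.OPF.GU
import Pool.Agent.Lib_helper80.OPF.M4
import Pool.Agent.Lib_helper80.OPF.M5

/-!
# OPN, block M7: the arc of a divisor over a good complete intersection
-/

namespace Pool.Agent.OPT.M7

open MvPolynomial Pool.Agent.KSS Pool.Agent.KSX
open scoped ENNReal

/-- evaluation at congruent points -/
theorem aeval_congr {F κ : Type} [Field F] [Field κ] [Algebra F κ] {v : ℕ} (l : ℕ)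
    (y1 y2 : Fin v → PowerSeries κ)
    (h : ∀ a, (PowerSeries.X : PowerSeries κ) ^ l ∣ y1 a - y2 a) (P : MvPolynomial (Fin v) F) :
    (PowerSeries.X : PowerSeries κ) ^ l ∣ aeval y1 P - aeval y2 P := by
  have h1 : (Ideal.Quotient.mkₐ F (Ideal.span {(PowerSeries.X : PowerSeries κ) ^ l})).comp
      (aeval y1) =
      (Ideal.Quotient.mkₐ F (Ideal.span {(PowerSeries.X : PowerSeries κ) ^ l})).comp
      (aeval y2) := by
    apply MvPolynomial.algHom_ext
    intro a
    simp only [AlgHom.comp_apply, aeval_X, Ideal.Quotient.mkₐ_eq_mk]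
    exact (Ideal.Quotient.mk_eq_mk_iff_sub_mem _ _).2 (Ideal.mem_span_singleton.2 (h a))
  have h2 := DFunLike.congr_fun h1 P
  simp only [AlgHom.comp_apply, Ideal.Quotient.mkₐ_eq_mk] at h2
  exact Ideal.mem_span_singleton.1 ((Ideal.Quotient.mk_eq_mk_iff_sub_mem _ _).1 h2)

/-- truncation of a jet -/
theorem arc_trunc {κ : Type} [Field κ] {L M : ℕ} (h : L ≤ M) (x : Fin M → κ) :
    (PowerSeries.X : PowerSeries κ) ^ L ∣ arc x - arc (fun μ : Fin L => x ⟨μ, μ.2.trans_le h⟩) := by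
  rw [PowerSeries.X_pow_dvd_iff]
  intro m hm
  rw [map_sub, arc, arc, PowerSeries.coeff_mk, PowerSeries.coeff_mk, dif_pos (hm.trans_le h),
    dif_pos hm]
  exact sub_self _

theorem ev_trunc {F κ : Type} [Field F] [Field κ] [Algebra F κ] {v L M : ℕ} (h : L ≤ M)
    (x : Fin v → Fin M → κ) (P : MvPolynomial (Fin v) F) :
    (PowerSeries.X : PowerSeries κ) ^ L ∣
      ev x P - ev (fun a (μ : Fin L) => x a ⟨μ, μ.2.trans_le h⟩) P :=
  aeval_congr L _ _ (fun a => arc_trunc h (x a)) P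

theorem ev_trunc_dvd {F κ : Type} [Field F] [Field κ] [Algebra F κ] {v L M l : ℕ} (h : L ≤ M)
    (hl : l ≤ L) (x : Fin v → Fin M → κ) (P : MvPolynomial (Fin v) F)
    (hP : (PowerSeries.X : PowerSeries κ) ^ l ∣ ev x P) :
    (PowerSeries.X : PowerSeries κ) ^ l ∣
      ev (fun a (μ : Fin L) => x a ⟨μ, μ.2.trans_le h⟩) P := by
  have h1 := (pow_dvd_pow (PowerSeries.X : PowerSeries κ) hl).trans (ev_trunc h x P)
  exact (dvd_sub_right hP).1 h1

theorem ev_trunc_const {F κ : Type} [Field F] [Field κ] [Algebra F κ] {v L M : ℕ} (h : L ≤ M)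
    (hL : 1 ≤ L) (x : Fin v → Fin M → κ) (P : MvPolynomial (Fin v) F) :
    PowerSeries.constantCoeff (ev (fun a (μ : Fin L) => x a ⟨μ, μ.2.trans_le h⟩) P) =
      PowerSeries.constantCoeff (ev x P) := by
  have h1 := ev_trunc h x P
  rw [PowerSeries.X_pow_dvd_iff] at h1
  have h2 := h1 0 hL
  rw [PowerSeries.coeff_zero_eq_constantCoeff_apply, map_sub] at h2
  exact (sub_eq_zero.1 h2).symm

/-- the constant coefficient of the evaluation at a jet -/
theorem ev_const {F κ : Type} [Field F] [Field κ] [Algebra F κ] {v L : ℕ}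
    (x : Fin v → Fin L → κ) (P : MvPolynomial (Fin v) F) :
    PowerSeries.constantCoeff (ev x P) =
      aeval (fun a => PowerSeries.constantCoeff (arc (x a))) P := by
  have h1 : (PowerSeries.constantCoeff (R := κ)).comp
      (aeval (R := F) (fun i => arc (x i)) : MvPolynomial (Fin v) F →ₐ[F] _).toRingHom =
      (aeval (R := F) (fun a => PowerSeries.constantCoeff (arc (x a)))).toRingHom := by
    apply MvPolynomial.ringHom_ext
    · intro c
      simp only [AlgHom.toRingHom_eq_coe, RingHom.comp_apply, RingHom.coe_coe]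
      rw [← algebraMap_eq, AlgHom.commutes, AlgHom.commutes, PowerSeries.algebraMap_apply,
        ← PowerSeries.coeff_zero_eq_constantCoeff_apply, PowerSeries.coeff_zero_C]
    · intro a
      simp only [AlgHom.toRingHom_eq_coe, RingHom.comp_apply, RingHom.coe_coe, aeval_X]
  exact DFunLike.congr_fun h1 P

/-- jets with a nonvanishing minor -/
theorem jets {n k : ℕ} (d : Fin k → ℕ) (hd : ∀ i, 1 ≤ d i)
    (f : Fin k → MvPolynomial (Fin (n + k + 1)) ℂ) (hf : Good d f) (E : DivisorOver f n)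
    (ℓ : ℕ) (hℓ : E.A = 1 + ℓ) (L : ℕ) (hL : 1 ≤ L) :
    ∃ (κ : Type) (_ : Field κ) (_ : Algebra ℂ κ) (x : Fin (n + k + 1) → Fin L → κ)
      (z : Fin k → Fin (n + k + 1)), Function.Injective z ∧
      (∀ i, (PowerSeries.X : PowerSeries κ) ^ L ∣ ev x (f i)) ∧
      PowerSeries.constantCoeff (ev x (jac f z)) ≠ 0 ∧
      PowerSeries.constantCoeff (ev x (X E.j : MvPolynomial (Fin (n + k + 1)) ℂ)) ≠ 0 ∧
      (∀ (m l : ℕ) (s : MvPolynomial (Fin (n + k + 1)) ℂ), s.IsHomogeneous m → l ≤ L →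
        E.loc (Ideal.Quotient.mk _ s) ∈ IsLocalRing.maximalIdeal E.O ^ l →
          (PowerSeries.X : PowerSeries κ) ^ l ∣ ev x s) ∧
      (n + 1) * L ≤ tauJ ℂ x + (1 + ℓ) := by
  classical
  obtain ⟨q, hq⟩ : ∃ q : ℕ, n = q + 1 := by
    have h := E.trdeg
    rcases Nat.eq_zero_or_pos n with rfl | hn
    · exfalso
      have h1 : (1 : Cardinal) ≤ Algebra.trdeg ℂ (IsLocalRing.ResidueField E.O) + 1 :=
        self_le_add_left _ _
      rw [h] at h1
      simp at h1
    · exact ⟨n - 1, by omega⟩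
  have htr : Algebra.trdeg ℂ (IsLocalRing.ResidueField E.O) = (q : Cardinal) := by
    have h : ∀ c : Cardinal, c + 1 = (n : Cardinal) → c = q := by
      intro c hc
      rw [hq] at hc
      push_cast at hc
      exact Cardinal.add_one_inj.1 hc
    exact h _ E.trdeg
  let alg : Algebra (Chart f E.j) E.O := E.φ.toRingHom.toAlgebra
  have tower : @IsScalarTower ℂ (Chart f E.j) E.O Algebra.toSMul Algebra.toSMul
      Algebra.toSMul :=
    IsScalarTower.of_algebraMap_eq fun c => (E.φ.commutes c).symm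
  have hlen : Module.length E.O (Ω[E.O⁄Chart f E.j]) = (ℓ : ℕ∞) := by
    have h1 : E.A = 1 + Module.length E.O (Ω[E.O⁄Chart f E.j]) := rfl
    rw [hℓ] at h1
    exact (asm_cancel h1).symm
  obtain ⟨κ, fκ, aκ, x, hx0, hx1, hx2⟩ := je_jets2 (k0 := ℂ) E.j (Chart f E.j) E.O
    (Ideal.Quotient.mkₐ ℂ _) Ideal.Quotient.mk_surjective (by
      have : (X E.j - 1 : MvPolynomial (Fin (n + k + 1)) ℂ) ∈
          Ideal.span (insert (X E.j - 1) (Set.range f)) :=
        Ideal.subset_span (Set.mem_insert _ _)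
      have h1 := (Ideal.Quotient.mk_eq_mk_iff_sub_mem (X E.j)
        (1 : MvPolynomial (Fin (n + k + 1)) ℂ)).2 this
      simpa using h1) q htr ℓ hlen L
  have hx1' : ∀ (m l : ℕ) (s : MvPolynomial (Fin (n + k + 1)) ℂ), s.IsHomogeneous m → l ≤ L →
      E.loc (Ideal.Quotient.mk _ s) ∈ IsLocalRing.maximalIdeal E.O ^ l →
        (PowerSeries.X : PowerSeries κ) ^ l ∣ ev x s := by
    intro m l s hs hl h
    exact hx1 m l s hs hl h
  have hfx : ∀ i, (PowerSeries.X : PowerSeries κ) ^ L ∣ ev x (f i) := by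
    intro i
    refine hx1' (d i) L (f i) (hf.hom i) le_rfl ?_
    have : (Ideal.Quotient.mk (Ideal.span (Set.range f))) (f i) = 0 :=
      Ideal.Quotient.eq_zero_iff_mem.2 (Ideal.subset_span ⟨i, rfl⟩)
    rw [this, map_zero]
    exact Ideal.zero_mem _
  have hXj : PowerSeries.constantCoeff (arc (x E.j)) ≠ 0 := by
    rw [← PowerSeries.coeff_zero_eq_constantCoeff_apply, arc, PowerSeries.coeff_mk,
      dif_pos (show 0 < L by omega)]
    exact hx0 _
  obtain ⟨z, hz, hzJ⟩ := hf.smooth κ (fun a => PowerSeries.constantCoeff (arc (x a)))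
    (fun h => hXj (congr_fun h E.j)) (fun i => by
      rw [← ev_const]
      have h1 := hfx i
      rw [PowerSeries.X_pow_dvd_iff] at h1
      have h2 := h1 0 hL
      rwa [PowerSeries.coeff_zero_eq_constantCoeff_apply] at h2)
  refine ⟨κ, fκ, aκ, x, z, hz, hfx, ?_, ?_, hx1', ?_⟩
  · rw [ev_const]
    exact hzJ
  · rw [ev_const, aeval_X]
    exact hXj
  · have e : (n + 1) * L = (q + 2) * L := by rw [hq]
    rw [e]
    omega

theorem arc_of_divisor_pr {n k : ℕ} (d : Fin k → ℕ) (hd : ∀ i, 1 ≤ d i)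
    (f : Fin k → MvPolynomial (Fin (n + k + 1)) ℂ) (hf : Good d f) (E : DivisorOver f n)
    (ℓ : ℕ) (hℓ : E.A = 1 + ℓ) :
    ∃ (K : Type) (_ : Field K) (_ : IsAlgClosed K) (_ : CharZero K) (_ : Algebra ℂ K)
      (κ : Type) (_ : Field κ) (_ : Algebra K κ) (x : Fin (n + k + 1) → PowerSeries κ)
      (z : Fin k → Fin (n + k + 1)) (b : Fin (n + k + 1)), Function.Injective z ∧
      (∀ i, aeval x (MvPolynomial.map (algebraMap ℂ K) (f i)) = 0) ∧
      PowerSeries.constantCoeff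
        (aeval x (jac (fun i => MvPolynomial.map (algebraMap ℂ K) (f i)) z)) ≠ 0 ∧
      PowerSeries.constantCoeff (x b) ≠ 0 ∧
      (∀ L, (n + 1) * L ≤ tauJ K (trunc L x) + (1 + ℓ)) ∧
      ∀ (m l : ℕ) (P : MvPolynomial (Fin (n + k + 1)) ℂ), P.IsHomogeneous m →
        Ideal.Quotient.mk _ P ∈ E.Fl m l →
        (PowerSeries.X : PowerSeries κ) ^ l ∣ aeval x (MvPolynomial.map (algebraMap ℂ K) P) := by
  classical
  -- one minor for infinitely many levels
  have hz : ∃ z : Fin k → Fin (n + k + 1), Function.Injective z ∧ ∀ L : ℕ, ∃ M, L ≤ M ∧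
      ∃ (κ : Type) (_ : Field κ) (_ : Algebra ℂ κ) (x : Fin (n + k + 1) → Fin M → κ),
      (∀ i, (PowerSeries.X : PowerSeries κ) ^ M ∣ ev x (f i)) ∧
      PowerSeries.constantCoeff (ev x (jac f z)) ≠ 0 ∧
      PowerSeries.constantCoeff (ev x (X E.j : MvPolynomial (Fin (n + k + 1)) ℂ)) ≠ 0 ∧
      (∀ (m l : ℕ) (s : MvPolynomial (Fin (n + k + 1)) ℂ), s.IsHomogeneous m → l ≤ M →
        E.loc (Ideal.Quotient.mk _ s) ∈ IsLocalRing.maximalIdeal E.O ^ l →
          (PowerSeries.X : PowerSeries κ) ^ l ∣ ev x s) ∧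
      (n + 1) * M ≤ tauJ ℂ x + (1 + ℓ) := by
    choose κ fκ aκ x z h1 h2 h3 h4 h5 h6 using
      fun L : ℕ => jets d hd f hf E ℓ hℓ (L + 1) (Nat.succ_pos L)
    obtain ⟨z0, hz0⟩ := Finite.exists_infinite_fiber z
    have hinf : (z ⁻¹' {z0}).Infinite := Set.infinite_coe_iff.1 hz0
    refine ⟨z0, ?_, ?_⟩
    · obtain ⟨L, hL⟩ := hinf.nonempty
      have hL' : z L = z0 := hL
      rw [← hL']
      exact h1 L
    · intro L
      obtain ⟨M, hM, hLM⟩ := hinf.exists_gt L
      have hM' : z M = z0 := hM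
      refine ⟨M + 1, by omega, κ M, fκ M, aκ M, x M, h2 M, ?_, h4 M, h5 M, h6 M⟩
      rw [← hM']
      exact h3 M
  obtain ⟨z, hzi, hz⟩ := hz
  have key : ∀ L : ℕ, ∃ (κ : Type) (_ : Field κ) (_ : Algebra ℂ κ)
      (x : Fin (n + k + 1) → Fin L → κ),
      (1 ≤ L → PowerSeries.constantCoeff (ev x (jac f z)) ≠ 0) ∧
      (1 ≤ L → PowerSeries.constantCoeff
        (ev x (X E.j : MvPolynomial (Fin (n + k + 1)) ℂ)) ≠ 0) ∧
      (∀ (m l : ℕ) (s : MvPolynomial (Fin (n + k + 1)) ℂ), s.IsHomogeneous m → l ≤ L →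
        E.loc (Ideal.Quotient.mk _ s) ∈ IsLocalRing.maximalIdeal E.O ^ l →
          (PowerSeries.X : PowerSeries κ) ^ l ∣ ev x s) ∧
      ∀ L' (h : L' ≤ L), (n + 1) * L' ≤
        tauJ ℂ (fun a (μ : Fin L') => x a ⟨μ, μ.2.trans_le h⟩) + (1 + ℓ) := by
    intro L
    obtain ⟨M, hLM, κ, fκ, aκ, x, h2, h3, h4, h5, h6⟩ := hz L
    refine ⟨κ, fκ, aκ, fun a (μ : Fin L) => x a ⟨μ, μ.2.trans_le hLM⟩, ?_, ?_, ?_, ?_⟩
    · intro hL
      rw [ev_trunc_const hLM hL]
      exact h3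
    · intro hL
      rw [ev_trunc_const hLM hL]
      exact h4
    · intro m l s hs hl hE
      exact ev_trunc_dvd hLM hl x s (h5 m l s hs (hl.trans hLM) hE)
    · intro L' hL'
      rcases Nat.eq_zero_or_pos L' with rfl | hp
      · rw [mul_zero]
        exact Nat.zero_le _
      · have h7 := tau_trunc f z hzi x h2 h3 L' hp (hL'.trans hLM)
        have e : n + k + 1 - k = n + 1 := by omega
        rw [e] at h7
        have e2 : (n + 1) * M = (n + 1) * L' + (n + 1) * (M - L') := by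
          rw [← mul_add]
          congr 1
          omega
        have h8 : tauJ ℂ x ≤ tauJ ℂ (fun a (μ : Fin L') =>
            x a ⟨μ, (μ.2.trans_le hL').trans_le hLM⟩) + (n + 1) * (M - L') := h7
        show (n + 1) * L' ≤ tauJ ℂ (fun a (μ : Fin L') =>
            x a ⟨μ, (μ.2.trans_le hL').trans_le hLM⟩) + (1 + ℓ)
        omega
  choose κ fκ aκ x h1 h2 h3 h4 using key
  obtain ⟨K, fK, cK, zK, aK, κ', fκ', aκ', y, hy1, hy2, hy3⟩ :=
    arc_of_jets (D := n + 1) (A := 1 + ℓ) κ x h4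
  refine ⟨K, fK, cK, zK, aK, κ', fκ', aκ', y, z, E.j, hzi, ?_, ?_, ?_, hy1, ?_⟩
  · intro i
    have h5 : ∀ l : ℕ, (PowerSeries.X : PowerSeries κ') ^ l ∣
        aeval y (MvPolynomial.map (algebraMap ℂ K) (f i)) := by
      intro l
      refine hy2 (f i) l (fun L hL => h3 L (d i) l (f i) (hf.hom i) hL ?_)
      have : (Ideal.Quotient.mk (Ideal.span (Set.range f))) (f i) = 0 :=
        Ideal.Quotient.eq_zero_iff_mem.2 (Ideal.subset_span ⟨i, rfl⟩)
      rw [this, map_zero]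
      exact Ideal.zero_mem _
    ext m
    rw [map_zero]
    exact (PowerSeries.X_pow_dvd_iff.1 (h5 (m + 1))) m (Nat.lt_succ_self m)
  · rw [← map_jac]
    exact hy3 (jac f z) h1
  · have h5 := hy3 (X E.j) h2
    rwa [map_X, aeval_X] at h5
  · intro m l P hP hE
    exact hy2 P l fun L hL => h3 L m l P hP hL hE.2

end Pool.Agent.OPT.M7

namespace Pool.Agent.OPT

alias arc_of_divisor := M7.arc_of_divisor_pr

end Pool.Agent.OPT
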