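import Pool.Agent.Lib_helper80.OPF.Defs
import Pool.Agent.Lib_helper77.KSZ.Main

namespace Pool.Agent.OPT.RI

open MvPolynomial

/-- an element of `V` with integral coefficients and one coefficient equal to `1` -/
theorem pivot {K : Type} [Field K] (O : ValuationSubring K) {σ : Type}
    (V : Submodule K (MvPolynomial σ K)) {u : MvPolynomial σ K} (hu : u ∈ V) (hu0 : u ≠ 0) :
    ∃ (P : MvPolynomial σ O) (α : σ →₀ ℕ), MvPolynomial.map O.subtype P ∈ V ∧ coeff α P = 1 := by
  classical
  have hne : u.support.Nonempty := by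
    rw [Finset.nonempty_iff_ne_empty, Ne, MvPolynomial.support_eq_empty]
    exact hu0
  obtain ⟨α, hα, hmax⟩ := u.support.exists_max_image (fun β => O.valuation (coeff β u)) hne
  have hc : coeff α u ≠ 0 := MvPolynomial.mem_support_iff.mp hα
  have hcoef : ∀ β, (coeff α u)⁻¹ * coeff β u ∈ O := by
    intro β
    rw [← ValuationSubring.valuation_le_one_iff, map_mul, map_inv₀]
    by_cases hβ : β ∈ u.support
    · have h1 := hmax β hβ
      have h2 : O.valuation (coeff α u) ≠ 0 := (Valuation.ne_zero_iff _).mpr hc
      calc (O.valuation (coeff α u))⁻¹ * O.valuation (coeff β u)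
          ≤ (O.valuation (coeff α u))⁻¹ * O.valuation (coeff α u) := mul_le_mul_right h1 _
        _ = 1 := inv_mul_cancel₀ h2
    · rw [MvPolynomial.notMem_support_iff.mp hβ, map_zero, mul_zero]
      exact zero_le_one
  have hr : (coeff α u)⁻¹ • u ∈ Set.range (MvPolynomial.map (σ := σ) O.subtype) := by
    rw [MvPolynomial.mem_range_map_iff_coeffs_subset]
    intro c hc
    rw [Finset.mem_coe, MvPolynomial.mem_coeffs_iff] at hc
    obtain ⟨β, _, rfl⟩ := hc
    rw [MvPolynomial.coeff_smul, smul_eq_mul]
    exact ⟨⟨_, hcoef β⟩, rfl⟩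
  obtain ⟨P, hP⟩ := hr
  refine ⟨P, α, ?_, ?_⟩
  · rw [hP]
    exact V.smul_mem _ hu
  · have h1 : coeff α (MvPolynomial.map O.subtype P) = 1 := by
      rw [hP, MvPolynomial.coeff_smul, smul_eq_mul, inv_mul_cancel₀ hc]
    rw [MvPolynomial.coeff_map] at h1
    exact Subtype.ext h1

/-- the elements of `V` with vanishing coefficient at `α` -/
theorem split {K : Type} [Field K] {σ : Type} (V : Submodule K (MvPolynomial σ K))
    [FiniteDimensional K V] (α : σ →₀ ℕ) {u : MvPolynomial σ K} (hu : u ∈ V)
    (h1 : coeff α u = 1) :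
    Module.finrank K V = Module.finrank K
      (V ⊓ LinearMap.ker (MvPolynomial.lcoeff K α) : Submodule K (MvPolynomial σ K)) + 1 := by
  classical
  let φ : V →ₗ[K] K := (MvPolynomial.lcoeff K α).comp V.subtype
  have hsurj : Function.Surjective φ := by
    intro c
    refine ⟨c • ⟨u, hu⟩, ?_⟩
    rw [map_smul]
    show c • coeff α u = c
    rw [h1, smul_eq_mul, mul_one]
  have h2 := LinearMap.finrank_range_add_finrank_ker φ
  rw [LinearMap.range_eq_top.mpr hsurj, finrank_top, Module.finrank_self] at h2
  have h3 : Module.finrank K (LinearMap.ker φ) = Module.finrank K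
      (V ⊓ LinearMap.ker (MvPolynomial.lcoeff K α) : Submodule K (MvPolynomial σ K)) := by
    have h4 : (LinearMap.ker φ).map V.subtype =
        V ⊓ LinearMap.ker (MvPolynomial.lcoeff K α) := by
      ext x
      constructor
      · rintro ⟨y, hy, rfl⟩
        exact ⟨y.2, hy⟩
      · rintro ⟨hx1, hx2⟩
        exact ⟨⟨x, hx1⟩, hx2, rfl⟩
    rw [← h4]
    exact (LinearEquiv.finrank_eq (Submodule.equivMapOfInjective V.subtype
      V.injective_subtype (LinearMap.ker φ)))
  omega

theorem ind {K F : Type} [Field K] [Field F] (O : ValuationSubring K) (π : O →+* F) {σ : Type}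
    (n : ℕ) : ∀ (V : Submodule K (MvPolynomial σ K)) (W : Submodule F (MvPolynomial σ F)),
    FiniteDimensional K V → FiniteDimensional F W → Module.finrank K V = n →
    (∀ P : MvPolynomial σ O, MvPolynomial.map O.subtype P ∈ V → MvPolynomial.map π P ∈ W) →
    n ≤ Module.finrank F W := by
  classical
  induction n with
  | zero => intro V W _ _ _ _; exact Nat.zero_le _
  | succ n ih =>
    intro V W hVf hWf hn h
    have hV0 : V ≠ ⊥ := by
      intro hb
      rw [hb, finrank_bot] at hn
      omega
    obtain ⟨u, hu, hu0⟩ := Submodule.exists_mem_ne_zero_of_ne_bot hV0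
    obtain ⟨P, α, hP, hPα⟩ := pivot O V hu hu0
    have h1 : coeff α (MvPolynomial.map O.subtype P) = 1 := by
      rw [MvPolynomial.coeff_map, hPα, map_one]
    have h2 : coeff α (MvPolynomial.map π P) = 1 := by
      rw [MvPolynomial.coeff_map, hPα, map_one]
    have hV := split V α hP h1
    have hW := split W α (h P hP) h2
    have hVf' : FiniteDimensional K
        (V ⊓ LinearMap.ker (MvPolynomial.lcoeff K α) : Submodule K (MvPolynomial σ K)) :=
      Submodule.finiteDimensional_of_le inf_le_left
    have hWf' : FiniteDimensional F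
        (W ⊓ LinearMap.ker (MvPolynomial.lcoeff F α) : Submodule F (MvPolynomial σ F)) :=
      Submodule.finiteDimensional_of_le inf_le_left
    have h3 := ih (V ⊓ LinearMap.ker (MvPolynomial.lcoeff K α))
      (W ⊓ LinearMap.ker (MvPolynomial.lcoeff F α)) hVf' hWf' (by omega) (by
        rintro Q ⟨hQ1, hQ2⟩
        refine ⟨h Q hQ1, ?_⟩
        have h4 : coeff α (MvPolynomial.map O.subtype Q) = 0 := hQ2
        rw [MvPolynomial.coeff_map] at h4
        have h5 : coeff α Q = 0 := Subtype.ext h4
        show coeff α (MvPolynomial.map π Q) = 0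
        rw [MvPolynomial.coeff_map, h5, map_zero])
    omega

theorem hom_fin {K : Type} [Field K] (v m : ℕ) :
    FiniteDimensional K (homogeneousSubmodule (Fin v) K m) := by
  classical
  have hfin : {d : Fin v →₀ ℕ | d.degree = m}.Finite := by
    have : {d : Fin v →₀ ℕ | d.degree = m} ⊆
        (Finset.finsuppAntidiag (Finset.univ : Finset (Fin v)) m : Set (Fin v →₀ ℕ)) := by
      intro d hd
      simp only [Finset.mem_coe, Finset.mem_finsuppAntidiag]
      refine ⟨?_, Finset.subset_univ _⟩
      have h1 : d.degree = m := hd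
      rw [← h1, Finsupp.degree_eq_sum]
    exact (Finset.finite_toSet _).subset this
  have := hfin.to_subtype
  let φ : homogeneousSubmodule (Fin v) K m →ₗ[K] ({d : Fin v →₀ ℕ | d.degree = m} → K) :=
    LinearMap.pi fun d => (MvPolynomial.lcoeff K d.1).comp (Submodule.subtype _)
  apply FiniteDimensional.of_injective φ
  rw [← LinearMap.ker_eq_bot, LinearMap.ker_eq_bot']
  intro p hp
  apply Subtype.ext
  ext d
  by_cases hd : d.degree = m
  · exact congrFun hp ⟨d, hd⟩
  · have h1 : (p : MvPolynomial (Fin v) K).IsHomogeneous m := p.2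
    rw [ZeroMemClass.coe_zero, coeff_zero]
    exact h1.coeff_eq_zero hd

theorem red_dim_pr {K F : Type} [Field K] [Field F] (O : ValuationSubring K) (π : O →+* F)
    (hπ : Function.Surjective π) {v m : ℕ} (V : Submodule K (MvPolynomial (Fin v) K))
    (hV : V ≤ homogeneousSubmodule (Fin v) K m) (W : Submodule F (MvPolynomial (Fin v) F))
    (hW : W ≤ homogeneousSubmodule (Fin v) F m)
    (h : ∀ P : MvPolynomial (Fin v) O, MvPolynomial.map O.subtype P ∈ V →
      MvPolynomial.map π P ∈ W) :
    Module.finrank K V ≤ Module.finrank F W := by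
  have := hom_fin (K := K) v m
  have := hom_fin (K := F) v m
  exact ind O π _ V W (Submodule.finiteDimensional_of_le hV) (Submodule.finiteDimensional_of_le hW)
    rfl h


end Pool.Agent.OPT.RI

namespace Pool.Agent.OPT

alias red_dim := RI.red_dim_pr

end Pool.Agent.OPT
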