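import Pool.Agent.Lib_helper80.OPF.Defs
import Pool.Agent.Lib_helper77.KSZ.Main
import Pool.Agent.Lib_helper80.OPF.RI

/-!
# OPN, block M8a: filtration of a divisor and of the reduced arc
-/

namespace Pool.Agent.OPT.M8a

open MvPolynomial Pool.Agent.KSS Pool.Agent.KSX Pool.Agent.OPT
open scoped ENNReal

/-- extension of scalars preserves the dimension of a space of forms -/
theorem m8a_ext {K : Type} [Field K] [Algebra ℂ K] {N M : ℕ}
    (W : Submodule ℂ (MvPolynomial (Fin N) ℂ)) (hW : W ≤ homogeneousSubmodule (Fin N) ℂ M) :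
    Module.finrank K (Submodule.span K ((fun P => MvPolynomial.map (algebraMap ℂ K) P) ''
      (W : Set (MvPolynomial (Fin N) ℂ)))) = Module.finrank ℂ W := by
  classical
  have hfin0 := fb_fin N M
  have hfinW : Module.Finite ℂ W := Submodule.finiteDimensional_of_le hW
  have hfin : Set.Finite {β : Fin N →₀ ℕ | β.degree = M} := by
    apply Set.Finite.subset (Finset.finite_toSet (Finset.Iic
      (Finsupp.equivFunOnFinite.symm (fun _ : Fin N => M))))
    intro β hβ
    rw [Finset.mem_coe, Finset.mem_Iic]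
    intro i
    have h1 : β.degree = M := hβ
    have h2 : β i ≤ β.degree := Finsupp.le_degree i β
    rw [h1] at h2
    simpa using h2
  have hfin2 : Finite {β : Fin N →₀ ℕ // β.degree = M} := hfin
  let b := Module.finBasis ℂ W
  let v : Fin (Module.finrank ℂ W) → {β : Fin N →₀ ℕ // β.degree = M} → ℂ :=
    fun i β => coeff β.1 (b i : MvPolynomial (Fin N) ℂ)
  let cC : W →ₗ[ℂ] ({β : Fin N →₀ ℕ // β.degree = M} → ℂ) :=
    { toFun := fun s β => coeff β.1 (s : MvPolynomial (Fin N) ℂ)
      map_add' := by intro a b; funext β; simp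
      map_smul' := by intro c a; funext β; simp }
  have hcC : LinearMap.ker cC = ⊥ := by
    rw [LinearMap.ker_eq_bot]
    intro s t hst
    apply Subtype.ext
    ext β
    by_cases hβ : β.degree = M
    · exact congrFun hst ⟨β, hβ⟩
    · have hs : (s : MvPolynomial (Fin N) ℂ).IsHomogeneous M := hW s.2
      have ht : (t : MvPolynomial (Fin N) ℂ).IsHomogeneous M := hW t.2
      rw [hs.coeff_eq_zero hβ, ht.coeff_eq_zero hβ]
  have hv : LinearIndependent ℂ v := b.linearIndependent.map' cC hcC
  have hvK : LinearIndependent K (fun i => algebraMap ℂ K ∘ v i) :=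
    linearIndependent_algebraMap_comp_iff.2 hv
  let cK : MvPolynomial (Fin N) K →ₗ[K] ({β : Fin N →₀ ℕ // β.degree = M} → K) :=
    { toFun := fun s β => coeff β.1 s
      map_add' := by intro a b; funext β; simp
      map_smul' := by intro c a; funext β; simp }
  set w : Fin (Module.finrank ℂ W) → MvPolynomial (Fin N) K :=
    fun i => MvPolynomial.map (algebraMap ℂ K) (b i : MvPolynomial (Fin N) ℂ) with hw
  have hwK : LinearIndependent K w := by
    apply LinearIndependent.of_comp cK
    have : (cK ∘ w) = (fun i => algebraMap ℂ K ∘ v i) := by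
      funext i β
      show coeff β.1 (MvPolynomial.map (algebraMap ℂ K) (b i : MvPolynomial (Fin N) ℂ)) = _
      rw [coeff_map]
      rfl
    rw [this]
    exact hvK
  have hspan : Submodule.span K ((fun P => MvPolynomial.map (algebraMap ℂ K) P) ''
      (W : Set (MvPolynomial (Fin N) ℂ))) = Submodule.span K (Set.range w) := by
    apply le_antisymm
    · rw [Submodule.span_le]
      rintro _ ⟨P, hP, rfl⟩
      have h1 := b.sum_repr ⟨P, hP⟩
      have h2 : P = ∑ i, b.repr ⟨P, hP⟩ i • (b i : MvPolynomial (Fin N) ℂ) := by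
        have h3 := congrArg (W.subtype) h1
        rw [map_sum] at h3
        simp only [map_smul, Submodule.subtype_apply] at h3
        exact h3.symm
      show MvPolynomial.map (algebraMap ℂ K) P ∈ Submodule.span K (Set.range w)
      rw [h2, map_sum]
      refine Submodule.sum_mem _ fun i _ => ?_
      rw [MvPolynomial.smul_eq_C_mul, map_mul, map_C, ← MvPolynomial.smul_eq_C_mul]
      exact Submodule.smul_mem _ _ (Submodule.subset_span ⟨i, rfl⟩)
    · rw [Submodule.span_le]
      rintro _ ⟨i, rfl⟩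
      exact Submodule.subset_span ⟨_, (b i).2, rfl⟩
  rw [hspan, finrank_span_eq_card hwK, Fintype.card_fin]

/-- truncation of an arc does not change low coefficients -/
theorem m8a_trunc {F κ' : Type} [Field F] [Field κ'] [Algebra F κ'] {N L l : ℕ} (hl : l ≤ L)
    (y : Fin N → PowerSeries κ') (Q : MvPolynomial (Fin N) F)
    (h : (PowerSeries.X : PowerSeries κ') ^ l ∣ aeval y Q) :
    (PowerSeries.X : PowerSeries κ') ^ l ∣ ev (trunc L y) Q := by
  set J : Ideal (PowerSeries κ') := Ideal.span {(PowerSeries.X : PowerSeries κ') ^ l} with hJ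
  have h1 : (Ideal.Quotient.mkₐ F J).comp (aeval y) =
      (Ideal.Quotient.mkₐ F J).comp (aeval fun a => arc (trunc L y a)) := by
    apply MvPolynomial.algHom_ext
    intro a
    rw [AlgHom.comp_apply, AlgHom.comp_apply, aeval_X, aeval_X]
    refine (Ideal.Quotient.mk_eq_mk_iff_sub_mem _ _).2 ?_
    rw [hJ, Ideal.mem_span_singleton, PowerSeries.X_pow_dvd_iff]
    intro μ hμ
    rw [map_sub]
    unfold arc trunc
    rw [PowerSeries.coeff_mk, dif_pos (by omega), sub_self]
  have h2 := congrArg (fun φ => φ Q) h1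
  simp only [AlgHom.comp_apply] at h2
  have h3 : (aeval y Q - ev (trunc L y) Q) ∈ J := (Ideal.Quotient.mk_eq_mk_iff_sub_mem _ _).1 h2
  rw [hJ, Ideal.mem_span_singleton] at h3
  exact (dvd_sub_right h).1 h3

theorem fl_le_sig_pr {n k : ℕ} (d : Fin k → ℕ)
    (f : Fin k → MvPolynomial (Fin (n + k + 1)) ℂ) (hf : Good d f) (E : DivisorOver f n)
    {K κ F κ' : Type} [Field K] [Algebra ℂ K] [Field κ] [Algebra K κ] [Field F] [Field κ']
    [Algebra F κ'] (x : Fin (n + k + 1) → PowerSeries κ)
    (hx : ∀ (m l : ℕ) (P : MvPolynomial (Fin (n + k + 1)) ℂ), P.IsHomogeneous m →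
        Ideal.Quotient.mk _ P ∈ E.Fl m l →
        (PowerSeries.X : PowerSeries κ) ^ l ∣ aeval x (MvPolynomial.map (algebraMap ℂ K) P))
    (O : ValuationSubring K) (π : O →+* F) (hπ : Function.Surjective π)
    (y : Fin (n + k + 1) → PowerSeries κ')
    (hred : ∀ (P : MvPolynomial (Fin (n + k + 1)) O) (l : ℕ),
        (PowerSeries.X : PowerSeries κ) ^ l ∣ aeval x (MvPolynomial.map O.subtype P) →
        (PowerSeries.X : PowerSeries κ') ^ l ∣ aeval y (MvPolynomial.map π P)) (M L : ℕ) :
    ∑ l ∈ Finset.Icc 1 L, (Module.finrank ℂ (E.Fl M l) : ℝ) ≤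
      sigB F d Finset.univ (trunc L y) M := by
  classical
  unfold sigB
  apply Finset.sum_le_sum
  intro l hl
  rw [Finset.mem_Icc] at hl
  have hfin0 := fb_fin (n + k + 1) M
  let q := (Ideal.Quotient.mkₐ ℂ (Ideal.span (Set.range f))).toLinearMap
  let W : Submodule ℂ (MvPolynomial (Fin (n + k + 1)) ℂ) :=
    homogeneousSubmodule (Fin (n + k + 1)) ℂ M ⊓
    (((IsLocalRing.maximalIdeal E.O ^ l).restrictScalars ℂ).comap E.loc.toLinearMap).comap q
  have hWle : W ≤ homogeneousSubmodule (Fin (n + k + 1)) ℂ M := inf_le_left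
  have : Module.Finite ℂ W := Submodule.finiteDimensional_of_le hWle
  have hmap : W.map q = E.Fl M l := by
    ext a
    constructor
    · rintro ⟨s, ⟨hs1, hs2⟩, rfl⟩
      exact ⟨⟨s, hs1, rfl⟩, hs2⟩
    · rintro ⟨⟨s, hs1, rfl⟩, hs2⟩
      exact ⟨s, ⟨hs1, hs2⟩, rfl⟩
  have hker : (LinearMap.ker q ⊓ W : Submodule ℂ (MvPolynomial (Fin (n + k + 1)) ℂ)) =
      IM (Set.range f) M := by
    unfold IM
    rw [← fb_ker f]
    ext s
    constructor
    · rintro ⟨h1, h2, h3⟩
      exact ⟨h1, h2⟩
    · rintro ⟨h1, h2⟩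
      refine ⟨h1, h2, ?_⟩
      have h3 : q s = 0 := h1
      show E.loc (q s) ∈ IsLocalRing.maximalIdeal E.O ^ l
      rw [h3, map_zero]
      exact Ideal.zero_mem _
  have hr := fb_rank W q
  rw [hmap, hker] at hr
  set V : Submodule K (MvPolynomial (Fin (n + k + 1)) K) :=
    Submodule.span K ((fun P => MvPolynomial.map (algebraMap ℂ K) P) ''
      (W : Set (MvPolynomial (Fin (n + k + 1)) ℂ))) with hV
  have hdimV : Module.finrank K V = Module.finrank ℂ W := m8a_ext W hWle
  have hVhom : V ≤ homogeneousSubmodule (Fin (n + k + 1)) K M := by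
    rw [hV, Submodule.span_le]
    rintro _ ⟨P, hP, rfl⟩
    exact IsHomogeneous.map (hWle hP) _
  have hVx : ∀ P ∈ V, (PowerSeries.X : PowerSeries κ) ^ l ∣ aeval x P := by
    intro P hP
    refine Submodule.span_induction ?_ ?_ ?_ ?_ hP
    · rintro _ ⟨P, hP, rfl⟩
      refine hx M l P (hWle hP) ?_
      rw [← hmap]
      exact ⟨P, hP, rfl⟩
    · rw [map_zero]; exact dvd_zero _
    · intro a b _ _ ha hb
      rw [map_add]
      exact dvd_add ha hb
    · intro c a _ ha
      rw [map_smul, Algebra.smul_def]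
      exact Dvd.dvd.mul_left ha _
  have hle : Module.finrank K V ≤ Module.finrank F (Fil F (trunc L y) M l) := by
    refine red_dim O π hπ V hVhom (Fil F (trunc L y) M l) (fun P hP => hP.1) ?_
    intro P hP
    refine ⟨?_, m8a_trunc hl.2 y _ (hred P l (hVx _ hP))⟩
    have h1 : (MvPolynomial.map O.subtype P).IsHomogeneous M := hVhom hP
    have h2 : P.IsHomogeneous M := by
      intro β hβ
      apply h1
      rw [coeff_map]
      intro h3
      exact hβ (Subtype.ext h3)
    exact h2.map _
  rw [hdimV, ← hr] at hle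
  have h3 : (Module.finrank ℂ (IM (Set.range f) M) : ℝ) =
      (NN d (n + k + 1) ∅ M : ℝ) - (NN d (n + k + 1) Finset.univ M : ℝ) := by
    exact_mod_cast hf.hilb M
  have h4 : (Module.finrank ℂ (E.Fl M l) : ℝ) + (Module.finrank ℂ (IM (Set.range f) M) : ℝ) ≤
      (Module.finrank F (Fil F (trunc L y) M l) : ℝ) := by exact_mod_cast hle
  rw [h3] at h4
  linarith


end Pool.Agent.OPT.M8a

namespace Pool.Agent.OPT

alias fl_le_sig := M8a.fl_le_sig_pr

end Pool.Agent.OPT
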