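import Pool.Agent.Lib_helper80.OPF.Defs
import Pool.Agent.Lib_helper77.KSZ.Main
import Pool.Agent.Lib_helper80.OPF.CS
import Pool.Agent.Lib_helper80.OPF.EGB
import Pool.Agent.Lib_helper80.OPF.M6
import Pool.Agent.Lib_helper80.OPF.M7
import Pool.Agent.Lib_helper80.OPF.M8a

/-! # OPN, block M8: the characteristic `p` source -/

namespace Pool.Agent.OPT.M8

open MvPolynomial Pool.Agent.KSS Pool.Agent.KSX
open scoped ENNReal

theorem m8_aeval {k v : ℕ} (d : Fin k → ℕ) {R S : Type} [CommRing R] [CommRing S] (φ : R →+* S)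
    (f : Fin k → MvPolynomial (Fin v) R) (P : MvPolynomial (CI d v) ℤ) :
    aeval (cv d (fun i => MvPolynomial.map φ (f i))) P = φ (aeval (cv d f) P) := by
  have h := MvPolynomial.comp_aeval_apply (cv d f) φ.toIntAlgHom P
  have h2 : (fun c => φ.toIntAlgHom (cv d f c)) = cv d (fun i => MvPolynomial.map φ (f i)) := by
    funext c
    simp [cv, coeff_map]
  rw [h2] at h
  exact h.symm

theorem m8_trunc {F κ : Type} [Field F] [Field κ] [Algebra F κ] {v : ℕ} (L : ℕ)
    (y : Fin v → PowerSeries κ) (P : MvPolynomial (Fin v) F) :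
    (PowerSeries.X : PowerSeries κ) ^ L ∣ ev (trunc L y) P - aeval y P := by
  induction P using MvPolynomial.induction_on with
  | C a =>
    unfold ev
    rw [← MvPolynomial.algebraMap_eq, AlgHom.commutes, AlgHom.commutes, sub_self]
    exact dvd_zero _
  | add p q hp hq =>
    unfold ev at *
    rw [map_add, map_add, add_sub_add_comm]
    exact dvd_add hp hq
  | mul_X p i hp =>
    unfold ev at *
    rw [map_mul, map_mul, aeval_X, aeval_X]
    have h1 : (PowerSeries.X : PowerSeries κ) ^ L ∣ arc (trunc L y i) - y i := by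
      rw [PowerSeries.X_pow_dvd_iff]
      intro m hm
      rw [map_sub, sub_eq_zero, arc, PowerSeries.coeff_mk, dif_pos hm]
      rfl
    have h2 : aeval (fun i => arc (trunc L y i)) p * arc (trunc L y i) - aeval y p * y i =
        (aeval (fun i => arc (trunc L y i)) p - aeval y p) * arc (trunc L y i) +
          aeval y p * (arc (trunc L y i) - y i) := by ring
    rw [h2]
    exact dvd_add (Dvd.dvd.mul_right hp _) (Dvd.dvd.mul_left h1 _)

theorem m8_const {F κ : Type} [Field F] [Field κ] [Algebra F κ] {v : ℕ} {L : ℕ} (hL : 1 ≤ L)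
    (y : Fin v → PowerSeries κ) (P : MvPolynomial (Fin v) F) :
    PowerSeries.constantCoeff (ev (trunc L y) P) = PowerSeries.constantCoeff (aeval y P) := by
  have h1 : (PowerSeries.X : PowerSeries κ) ∣ ev (trunc L y) P - aeval y P :=
    dvd_trans (dvd_pow_self _ (by omega)) (m8_trunc L y P)
  rw [PowerSeries.X_dvd_iff, map_sub, sub_eq_zero] at h1
  exact h1

theorem m8_c0 {κ : Type} [Field κ] {v : ℕ} {L : ℕ} (hL : 1 ≤ L) (y : Fin v → PowerSeries κ)
    (b : Fin v) (hb : PowerSeries.constantCoeff (y b) ≠ 0) : c0J (trunc L y) = 0 := by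
  have h1 : ordL L (arc (trunc L y b)) = 0 := by
    have h2 : PowerSeries.constantCoeff (arc (trunc L y b)) ≠ 0 := by
      rw [← PowerSeries.coeff_zero_eq_constantCoeff_apply, arc, PowerSeries.coeff_mk,
        dif_pos (by omega)]
      simpa [trunc] using hb
    have h3 : (arc (trunc L y b)).order = 0 := by
      apply PowerSeries.order_zero_of_unit
      rw [PowerSeries.isUnit_iff_constantCoeff]
      exact isUnit_iff_ne_zero.mpr h2
    rw [ordL, h3]
    simp
  refine Nat.le_zero.mp ?_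
  rw [← h1]
  exact ciInf_le (OrderBot.bddBelow _) b

theorem m8_fin {F : Type} [Field F] (v m : ℕ) :
    Module.Finite F (homogeneousSubmodule (Fin v) F m) :=
  Module.Finite.iff_fg.2 (homogeneousSubmodule_fg (Fin v) F m)

theorem m8_NN {k v : ℕ} (d : Fin k → ℕ) {F : Type} [Field F]
    (g : Fin k → MvPolynomial (Fin v) F) (hg : Good d g) (m : ℕ) :
    0 ≤ NN d v Finset.univ m := by
  have h1 := hg.hilb m
  have h2 := finrank_hom_pr F d v m
  have := m8_fin (F := F) v m
  have h3 : Module.finrank F (IM (Set.range g) m) ≤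
      Module.finrank F (homogeneousSubmodule (Fin v) F m) := Submodule.finrank_mono inf_le_right
  have h4 : (Module.finrank F (IM (Set.range g) m) : ℤ) ≤
      (Module.finrank F (homogeneousSubmodule (Fin v) F m) : ℤ) := by exact_mod_cast h3
  linarith

theorem m8_sig {k v : ℕ} (d : Fin k → ℕ) {F κ : Type} [Field F] [Field κ] [Algebra F κ]
    (g : Fin k → MvPolynomial (Fin v) F) (hg : Good d g) {L : ℕ} (y : Fin v → Fin L → κ)
    (hy : ∀ i, (PowerSeries.X : PowerSeries κ) ^ L ∣ ev y (g i)) (m : ℕ) :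
    0 ≤ sigB F d Finset.univ y m := by
  unfold sigB
  refine Finset.sum_nonneg fun l hl => ?_
  have hl2 : l ≤ L := (Finset.mem_Icc.mp hl).2
  have h1 := hg.hilb m
  have h0 := m8_fin (F := F) v m
  have hle : Fil F y m l ≤ homogeneousSubmodule (Fin v) F m := fun P hP => hP.1
  have h5 : Module.Finite F (Fil F y m l) := Submodule.finiteDimensional_of_le hle
  have h3 : Module.finrank F (IM (Set.range g) m) ≤ Module.finrank F (Fil F y m l) := by
    refine Submodule.finrank_mono fun P hP => ⟨hP.2, ?_⟩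
    have h6 : Ideal.span (Set.range g) ≤ Ideal.comap (aeval (fun i => arc (y i)) :
        MvPolynomial (Fin v) F →ₐ[F] PowerSeries κ).toRingHom
        (Ideal.span {(PowerSeries.X : PowerSeries κ) ^ l}) := by
      rw [Ideal.span_le]
      rintro _ ⟨i, rfl⟩
      exact Ideal.mem_span_singleton.mpr (dvd_trans (pow_dvd_pow _ hl2) (hy i))
    exact Ideal.mem_span_singleton.mp (h6 hP.1)
  have h4 : (Module.finrank F (IM (Set.range g) m) : ℤ) ≤ (Module.finrank F (Fil F y m l) : ℤ) := by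
    exact_mod_cast h3
  rw [h1] at h4
  have h7 : ((NN d v ∅ m - NN d v Finset.univ m : ℤ) : ℝ) ≤
      ((Module.finrank F (Fil F y m l) : ℤ) : ℝ) := by exact_mod_cast h4
  push_cast at h7
  linarith

theorem src_main_pr {n k : ℕ} (d : Fin k → ℕ) (hd : ∀ i, 1 ≤ d i) (hF : ∑ i, d i ≤ n + k)
    (Hg : MvPolynomial (CI d (n + k + 1)) ℤ)
    (hHg : ∀ (F : Type) [Field F] (f : Fin k → MvPolynomial (Fin (n + k + 1)) F),
        (∀ i, (f i).IsHomogeneous (d i)) → aeval (cv d f) Hg ≠ 0 → Good d f)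
    (H : MvPolynomial (CI d (n + k + 1)) ℤ)
    (f : Fin k → MvPolynomial (Fin (n + k + 1)) ℂ) (hf : ∀ i, (f i).IsHomogeneous (d i))
    (hfg : aeval (cv d f) Hg ≠ 0) (hfH : aeval (cv d f) H ≠ 0)
    (E : DivisorOver f n) (ε : ℝ) (hε : 0 < ε)
    (hE : (E.A : ℝ≥0∞) < ENNReal.ofReal (1 + ε) * E.Svol (n + k + 1 - ∑ i, d i)) (I : ℕ) :
    ∃ (p : ℕ) (_ : Fact p.Prime) (F : Type) (_ : Field F) (_ : IsAlgClosed F) (_ : CharP F p)
      (κ : Type) (_ : Field κ) (_ : Algebra F κ)
      (g : Fin k → MvPolynomial (Fin (n + k + 1)) F) (A L : ℕ)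
      (y : Fin (n + k + 1) → Fin L → κ) (z : Fin k → Fin (n + k + 1)),
      I ≤ p ∧ Good d g ∧ aeval (cv d g) H ≠ 0 ∧ Function.Injective z ∧
      (∀ i, (PowerSeries.X : PowerSeries κ) ^ L ∣ ev y (g i)) ∧
      PowerSeries.constantCoeff (ev y (jac g z)) ≠ 0 ∧ c0J y = 0 ∧ 1 ≤ A ∧ I * A ≤ L ∧
      (n + 1) * L ≤ tauJ F y + A ∧
      ∀ m : ℕ, m ≤ I → (A : ℝ) * (((∏ i, d i : ℕ) : ℝ) * (m : ℝ) ^ (n + 1) /
          ((1 + ε) * n.factorial * ((n + k + 1 - ∑ i, d i : ℕ) : ℝ)) -
          (n + 2) * (NN d (n + k + 1) Finset.univ (m + jdeg d) : ℝ)) ≤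
        sigB F d Finset.univ y (m + jdeg d) := by
  classical
  have hgood : Good d f := hHg ℂ f hf hfg
  -- the log discrepancy is finite
  have hAtop : E.A ≠ ⊤ := by
    intro h
    rw [h] at hE
    simp at hE
  obtain ⟨ℓ, hℓ⟩ : ∃ ℓ : ℕ, E.A = 1 + ℓ := by
    obtain ⟨a, ha⟩ := ENat.ne_top_iff_exists.mp hAtop
    have h1 : 1 ≤ E.A := by
      unfold DivisorOver.A
      exact le_self_add
    rw [← ha] at h1
    have h2 : 1 ≤ a := by exact_mod_cast h1
    refine ⟨a - 1, ?_⟩
    rw [← ha]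
    have h3 : a = 1 + (a - 1) := by omega
    exact_mod_cast h3
  set r : ℕ := n + k + 1 - ∑ i, d i with hr
  have hr1 : 1 ≤ r := by omega
  have hrR : (1 : ℝ) ≤ r := by exact_mod_cast hr1
  have hD1 : 1 ≤ ∏ i, d i := Finset.one_le_prod' fun i _ => hd i
  have hDR : (1 : ℝ) ≤ ((∏ i, d i : ℕ) : ℝ) := by exact_mod_cast hD1
  set A : ℕ := 1 + ℓ with hA
  have hA1 : 1 ≤ A := by omega
  have hAR : (1 : ℝ) ≤ A := by exact_mod_cast hA1
  have hEA : (E.A : ℝ≥0∞) = ENNReal.ofReal (A : ℝ) := by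
    rw [hℓ, ENNReal.ofReal_natCast, hA]
    push_cast
    rfl
  have hS : ENNReal.ofReal ((A : ℝ) / (1 + ε)) < E.Svol r := by
    rw [ENNReal.ofReal_div_of_pos (by linarith), ← hEA]
    apply ENNReal.div_lt_of_lt_mul
    rw [mul_comm]
    exact hE
  obtain ⟨S0, hS00, hS1, hS2⟩ := ENNReal.lt_iff_exists_real_btwn.mp hS
  have hx0 : 0 < (A : ℝ) / (1 + ε) := by positivity
  have hS3 : (A : ℝ) / (1 + ε) < S0 := (ENNReal.ofReal_lt_ofReal_iff_of_nonneg hx0.le).mp hS1
  have hS0 : 0 < S0 := hx0.trans hS3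
  set D : ℝ := ((∏ i, d i : ℕ) : ℝ) with hD
  set c : ℝ := A * D / ((1 + ε) * n.factorial * (r : ℝ)) with hc
  have hfac : (0 : ℝ) < n.factorial := by exact_mod_cast n.factorial_pos
  have hcS : c * (n.factorial * (r : ℝ)) < S0 * D := by
    have h1 : c * (n.factorial * (r : ℝ)) = (A : ℝ) / (1 + ε) * D := by
      rw [hc]
      field_simp
    rw [h1]
    exact mul_lt_mul_of_pos_right hS3 (by linarith)
  obtain ⟨M1, hM1⟩ := growth_good d hd hF f hgood E S0 hS0 hS2 c hcS
  obtain ⟨K, iK, iKa, iKc, iKal, κ, iκ, iκal, x, z, b, hz, hx0', hJ, hb, htau, hfil⟩ :=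
    arc_of_divisor d hd f hgood E ℓ hℓ
  have hvk : n + k + 1 - k = n + 1 := by omega
  set f' : Fin k → MvPolynomial (Fin (n + k + 1)) K :=
    fun i => MvPolynomial.map (algebraMap ℂ K) (f i) with hf'
  have hinj : Function.Injective (algebraMap ℂ K) := (algebraMap ℂ K).injective
  have hfH' : aeval (cv d f') H ≠ 0 := by
    rw [hf', m8_aeval]
    exact fun h => hfH (hinj (h.trans (map_zero _).symm))
  have hfg' : aeval (cv d f') Hg ≠ 0 := by
    rw [hf', m8_aeval]
    exact fun h => hfg (hinj (h.trans (map_zero _).symm))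
  set C : Finset K := insert 0 (insert (aeval (cv d f') H)⁻¹ (insert (aeval (cv d f') Hg)⁻¹
    (Finset.univ.biUnion fun i => (f' i).support.image fun β => coeff β (f' i)))) with hC
  have hCc : ∀ i β, coeff β (f' i) ∈ C := by
    intro i β
    by_cases h : coeff β (f' i) = 0
    · rw [h]
      exact Finset.mem_insert_self _ _
    · refine Finset.mem_insert_of_mem (Finset.mem_insert_of_mem (Finset.mem_insert_of_mem ?_))
      exact Finset.mem_biUnion.mpr ⟨i, Finset.mem_univ _,
        Finset.mem_image.mpr ⟨β, mem_support_iff.mpr h, rfl⟩⟩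
  obtain ⟨p, O, F, iF, iFa, iFp, π, κ', iκ', iκal', y, fO, hp, hN, hπ, hCO, hfO, hJy, hby, htau',
    hred⟩ := red_main f' z hz x hx0' hJ b hb A (fun L => by rw [hvk]; exact htau L) C hCc
      (max I M1 + 1)
  have hFp : Fact p.Prime := ⟨hp⟩
  set g : Fin k → MvPolynomial (Fin (n + k + 1)) F := fun i => MvPolynomial.map π (fO i) with hg
  have hOinj : Function.Injective O.subtype := Subtype.val_injective
  have hfOhom : ∀ i, (fO i).IsHomogeneous (d i) := by
    intro i
    apply IsHomogeneous.of_map hOinj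
    rw [hfO i]
    exact (hf i).map _
  have hghom : ∀ i, (g i).IsHomogeneous (d i) := fun i => (hfOhom i).map π
  have hunit : ∀ P : MvPolynomial (CI d (n + k + 1)) ℤ, aeval (cv d f') P ≠ 0 →
      (aeval (cv d f') P)⁻¹ ∈ O → aeval (cv d g) P ≠ 0 := by
    intro P h1 h2
    have h3 : aeval (cv d f') P = O.subtype (aeval (cv d fO) P) := by
      rw [← m8_aeval]
      congr 2
      funext i
      exact congrFun (congrArg _ (funext fun i => (hfO i).symm)) i
    rw [hg, m8_aeval]
    intro h4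
    have h5 : (aeval (cv d fO) P) * (⟨(aeval (cv d f') P)⁻¹, h2⟩ : O) = 1 := by
      apply hOinj
      rw [map_mul, ← h3, map_one]
      exact mul_inv_cancel₀ h1
    have h6 := congrArg π h5
    rw [map_mul, h4, zero_mul, map_one] at h6
    exact zero_ne_one h6
  have hgHg : aeval (cv d g) Hg ≠ 0 := hunit Hg hfg' (hCO _ (Finset.mem_insert_of_mem
    (Finset.mem_insert_of_mem (Finset.mem_insert_self _ _))))
  have hgH : aeval (cv d g) H ≠ 0 := hunit H hfH' (hCO _ (Finset.mem_insert_of_mem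
    (Finset.mem_insert_self _ _)))
  have hggood : Good d g := hHg F g hghom hgHg
  -- the level
  have hlev : ∀ m : ℕ, ∃ L0 : ℕ, ∀ L ≥ L0, 1 ≤ m → c * ((p * m : ℕ) : ℝ) ^ (n + 1) ≤
      ∑ l ∈ Finset.Icc 1 L, (Module.finrank ℂ (E.Fl (p * m) l) : ℝ) := by
    intro m
    by_cases hm : 1 ≤ m
    · have h1 : p * m ≥ M1 := by
        have h2 : M1 ≤ p := by omega
        exact h2.trans (Nat.le_mul_of_pos_right p hm)
      obtain ⟨L0, hL0⟩ := hM1 (p * m) h1
      exact ⟨L0, fun L hL _ => hL0 L hL⟩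
    · exact ⟨0, fun L _ h => absurd h hm⟩
  choose L0 hL0 using hlev
  set L : ℕ := (Finset.range (I + 1)).sup L0 + I * A + 1 with hL
  have hL1 : 1 ≤ L := by omega
  have hyg : ∀ i, (PowerSeries.X : PowerSeries κ') ^ L ∣ ev (trunc L y) (g i) := by
    intro i
    have h1 : (PowerSeries.X : PowerSeries κ') ^ L ∣ aeval y (g i) := by
      apply hred (fO i) L
      rw [hfO i, hx0' i]
      exact dvd_zero _
    have h2 := dvd_add (m8_trunc L y (g i)) h1
    rwa [sub_add_cancel] at h2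
  have hJg : PowerSeries.constantCoeff (ev (trunc L y) (jac g z)) ≠ 0 := by
    rw [m8_const hL1]
    exact hJy
  have htL : (n + 1) * L ≤ tauJ F (trunc L y) + A := by
    have := htau' L
    rwa [hvk] at this
  refine ⟨p, hFp, F, iF, iFa, iFp, κ', iκ', iκal', g, A, L, trunc L y, z, by omega, hggood, hgH, hz,
    hyg, hJg, m8_c0 hL1 y b hby, hA1, by omega, htL, fun m hm => ?_⟩
  have hNN : (0 : ℝ) ≤ (NN d (n + k + 1) Finset.univ (m + jdeg d) : ℝ) := by
    exact_mod_cast m8_NN d g hggood (m + jdeg d)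
  set NR : ℝ := (NN d (n + k + 1) Finset.univ (m + jdeg d) : ℝ) with hNR
  have hkey : (A : ℝ) * (D * (m : ℝ) ^ (n + 1) / ((1 + ε) * n.factorial * (r : ℝ)) -
      (n + 2) * NR) = c * (m : ℝ) ^ (n + 1) - (n + 2) * A * NR := by
    rw [hc]
    field_simp
  rw [hkey]
  rcases Nat.eq_zero_or_pos m with hm0 | hm0
  · have h1 : (0 : ℝ) ≤ sigB F d Finset.univ (trunc L y) (m + jdeg d) :=
      m8_sig d g hggood _ hyg _
    have h2 : c * (m : ℝ) ^ (n + 1) = 0 := by
      rw [hm0]
      simp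
    have h3 : 0 ≤ ((n : ℝ) + 2) * A * NR := by positivity
    linarith
  · have h1 : c * ((p * m : ℕ) : ℝ) ^ (n + 1) ≤
        ∑ l ∈ Finset.Icc 1 L, (Module.finrank ℂ (E.Fl (p * m) l) : ℝ) := by
      refine hL0 m L ?_ hm0
      have h2 : L0 m ≤ (Finset.range (I + 1)).sup L0 :=
        Finset.le_sup (f := L0) (Finset.mem_range.mpr (by omega))
      omega
    have h2 := fl_le_sig d f hgood E x hfil O π hπ y hred (p * m) L
    have h3 := cmp_sum p d hd g hggood (by omega) z hz (trunc L y) hyg hJg A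
      (by rw [hvk]; exact htL) m
    rw [hvk] at h3
    have hpR : (0 : ℝ) < (p : ℝ) ^ (n + 1) := by
      have : (0 : ℝ) < p := by exact_mod_cast hp.pos
      positivity
    have h4 : c * ((p * m : ℕ) : ℝ) ^ (n + 1) = (p : ℝ) ^ (n + 1) * (c * (m : ℝ) ^ (n + 1)) := by
      push_cast
      rw [mul_pow]
      ring
    rw [h4] at h1
    have h5 := h1.trans (h2.trans h3)
    have h6 := le_of_mul_le_mul_left h5 hpR
    push_cast at h6
    have h7 : (((n : ℝ) + 1) * A + 1) * NR ≤ ((n : ℝ) + 2) * A * NR := by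
      apply mul_le_mul_of_nonneg_right _ hNN
      nlinarith
    linarith

end Pool.Agent.OPT.M8

namespace Pool.Agent.OPT

alias src_main := M8.src_main_pr

end Pool.Agent.OPT
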