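import Pool.Agent.Lib_helper77.KSZ.Main
import Pool.Agent.Lib_helper80.OPF.GM
import Pool.Agent.Lib_helper80.OPF.EG1
import Pool.Agent.Lib_helper80.OPF.M8

/-!
# OPN: theorem T1 (jets in characteristic `p` from divisors with `A < (1+ε) S`)
-/

namespace Pool.Agent.OPT

open MvPolynomial Pool.Agent.KSS Pool.Agent.KSX Filter Topology
open scoped ENNReal

/-- the ideal is contained in the filtration of a jet on the complete intersection -/
theorem t1_IM_le {F κ : Type} [Field F] [Field κ] [Algebra F κ] {k v L : ℕ}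
    (f : Fin k → MvPolynomial (Fin v) F) (y : Fin v → Fin L → κ)
    (hy : ∀ i, (PowerSeries.X : PowerSeries κ) ^ L ∣ ev y (f i)) (m l : ℕ) (hl : l ≤ L) :
    IM (Set.range f) m ≤ Fil F y m l := by
  intro P hP
  obtain ⟨h1, h2⟩ := hP
  refine ⟨h2, ?_⟩
  have h3 : ∀ Q ∈ Ideal.span (Set.range f), (PowerSeries.X : PowerSeries κ) ^ L ∣ ev y Q := by
    intro Q hQ
    have h4 : Ideal.span (Set.range f) ≤ (Ideal.span {(PowerSeries.X : PowerSeries κ) ^ L}).comap
        (aeval (fun i => arc (y i)) : MvPolynomial (Fin v) F →ₐ[F] PowerSeries κ).toRingHom := by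
      rw [Ideal.span_le]
      rintro _ ⟨i, rfl⟩
      show _ ∈ Ideal.comap _ _
      rw [Ideal.mem_comap, Ideal.mem_span_singleton]
      exact hy i
    have h5 := h4 hQ
    rw [Ideal.mem_comap, Ideal.mem_span_singleton] at h5
    exact h5
  exact (pow_dvd_pow _ hl).trans (h3 P h1)

/-- `σ ≥ 0` -/
theorem t1_sig_nonneg {F κ : Type} [Field F] [Field κ] [Algebra F κ] {k v L : ℕ} (d : Fin k → ℕ)
    (f : Fin k → MvPolynomial (Fin v) F) (hf : Good d f) (y : Fin v → Fin L → κ)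
    (hy : ∀ i, (PowerSeries.X : PowerSeries κ) ^ L ∣ ev y (f i)) (m : ℕ) :
    0 ≤ sigB F d Finset.univ y m := by
  unfold sigB
  refine Finset.sum_nonneg fun l hl => ?_
  rw [Finset.mem_Icc] at hl
  have h1 : Module.finrank F (IM (Set.range f) m) ≤ Module.finrank F (Fil F y m l) := by
    have h2 : Fil F y m l ≤ homogeneousSubmodule (Fin v) F m := fun P hP => hP.1
    haveI : Module.Finite F (homogeneousSubmodule (Fin v) F m) := by
      infer_instance
    haveI : Module.Finite F (Fil F y m l) := Submodule.finiteDimensional_of_le h2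
    exact Submodule.finrank_mono (t1_IM_le f y hy m l hl.2)
  have h3 := hf.hilb m
  have h4 : ((Module.finrank F (IM (Set.range f) m) : ℤ) : ℝ) =
      ((NN d v ∅ m - NN d v Finset.univ m : ℤ) : ℝ) := by rw [h3]
  push_cast at h4
  have h5 : (Module.finrank F (IM (Set.range f) m) : ℝ) ≤ Module.finrank F (Fil F y m l) := by
    exact_mod_cast h1
  linarith

/-- the level function -/
noncomputable def gLev (n k : ℕ) (d : Fin k → ℕ) (m : ℕ) : ℝ :=
  if jdeg d ≤ m then max 0 (((∏ i, d i : ℕ) : ℝ) * ((m - jdeg d : ℕ) : ℝ) ^ (n + 1) /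
    (n.factorial * ((n + k + 1 - ∑ i, d i : ℕ) : ℝ)) -
      2 * ((n + 2) * (NN d (n + k + 1) Finset.univ m : ℝ))) else 0

theorem gLev_lim (n k : ℕ) (d : Fin k → ℕ) (hd : ∀ i, 1 ≤ d i) (hF : ∑ i, d i ≤ n + k) :
    Tendsto (fun m : ℕ => gLev n k d m / (m : ℝ) ^ (n + 1)) atTop
        (𝓝 ((∏ i, d i : ℕ) / (n.factorial * (n + k + 1 - ∑ i, d i : ℕ)))) := by
  set r : ℕ := n + k + 1 - ∑ i, d i with hr
  have hr1 : 1 ≤ r := by omega
  have hrR : (0 : ℝ) < r := by exact_mod_cast hr1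
  have hfac : (0 : ℝ) < n.factorial := by exact_mod_cast Nat.factorial_pos _
  have hD1 : 1 ≤ ∏ i, d i := Finset.one_le_prod' fun i _ => hd i
  have hDR : (0 : ℝ) < ((∏ i, d i : ℕ) : ℝ) := by exact_mod_cast hD1
  set D : ℝ := ((∏ i, d i : ℕ) : ℝ) with hD
  set c : ℕ := jdeg d with hc
  have h1 : Tendsto (fun m : ℕ => (((m : ℝ) - c) / m)) atTop (𝓝 1) := by
    have h4 : Tendsto (fun m : ℕ => 1 - (c : ℝ) / (m : ℝ)) atTop (𝓝 (1 - 0)) :=
      tendsto_const_nhds.sub (tendsto_const_div_atTop_nhds_zero_nat (c : ℝ))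
    rw [sub_zero] at h4
    refine h4.congr' ?_
    filter_upwards [eventually_gt_atTop 0] with m hm
    have : (m : ℝ) ≠ 0 := by exact_mod_cast hm.ne'
    field_simp
  have h2 : Tendsto (fun m : ℕ => (NN d (n + k + 1) Finset.univ m : ℝ) / (m : ℝ) ^ (n + 1))
      atTop (𝓝 0) := by
    have h3 := (vo_NN (n := n) d).div_const (n.factorial : ℝ)
    have h4 := h3.mul (tendsto_const_div_atTop_nhds_zero_nat (1 : ℝ))
    rw [mul_zero] at h4
    refine h4.congr' ?_
    filter_upwards [eventually_gt_atTop 0] with m hm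
    have : (m : ℝ) ≠ 0 := by exact_mod_cast hm.ne'
    rw [pow_succ]
    field_simp
  have h3 : Tendsto (fun m : ℕ => D / (n.factorial * r) * (((m : ℝ) - c) / m) ^ (n + 1) -
      2 * ((n + 2) * ((NN d (n + k + 1) Finset.univ m : ℝ) / (m : ℝ) ^ (n + 1)))) atTop
      (𝓝 (D / (n.factorial * r) * 1 ^ (n + 1) - 2 * ((n + 2) * 0))) :=
    ((h1.pow (n + 1)).const_mul _).sub ((h2.const_mul _).const_mul _)
  have h3' : D / (n.factorial * r) * 1 ^ (n + 1) - 2 * (((n : ℝ) + 2) * 0) =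
      D / (n.factorial * r) := by ring
  rw [h3'] at h3
  refine h3.congr' ?_
  filter_upwards [h3.eventually (lt_mem_nhds (show 0 < D / (n.factorial * r) by positivity)),
    eventually_gt_atTop 0, eventually_ge_atTop c] with m h4 h5 h6
  have hm : (0 : ℝ) < m := by exact_mod_cast h5
  have h7 : ((m - c : ℕ) : ℝ) = (m : ℝ) - c := by rw [Nat.cast_sub h6]
  have h8 : D / (n.factorial * r) * (((m : ℝ) - c) / m) ^ (n + 1) -
      2 * ((n + 2) * ((NN d (n + k + 1) Finset.univ m : ℝ) / (m : ℝ) ^ (n + 1))) =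
      (D * ((m : ℝ) - c) ^ (n + 1) / (n.factorial * r) -
      2 * ((n + 2) * (NN d (n + k + 1) Finset.univ m : ℝ))) / (m : ℝ) ^ (n + 1) := by
    rw [div_pow]
    field_simp
  rw [h8] at h4 ⊢
  have h9 : 0 < D * ((m : ℝ) - c) ^ (n + 1) / (n.factorial * r) -
      2 * ((n + 2) * (NN d (n + k + 1) Finset.univ m : ℝ)) := by
    rw [div_pos_iff] at h4
    rcases h4 with h4 | h4
    · exact h4.1
    · exact absurd h4.2 (not_lt.2 (by positivity))
  unfold gLev
  rw [if_pos h6, h7, max_eq_right h9.le]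

theorem gLev_nonneg (n k : ℕ) (d : Fin k → ℕ) (m : ℕ) : 0 ≤ gLev n k d m := by
  unfold gLev
  split_ifs
  · exact le_max_left _ _
  · exact le_rfl

/-- (T1) jets in characteristic `p` from divisors with `A < (1 + ε) S` -/
theorem t1_raw (n k : ℕ) (d : Fin k → ℕ) (hd : ∀ i, 1 ≤ d i) (hF : ∑ i, d i ≤ n + k) :
    ∃ g : ℕ → ℝ, (∀ m, 0 ≤ g m) ∧ Tendsto (fun m : ℕ => g m / (m : ℝ) ^ (n + 1)) atTop
        (𝓝 ((∏ i, d i : ℕ) / (n.factorial * (n + k + 1 - ∑ i, d i : ℕ)))) ∧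
      ∃ H0 : MvPolynomial (CI d (n + k + 1)) ℤ, H0 ≠ 0 ∧
        ∀ f : Fin k → MvPolynomial (Fin (n + k + 1)) ℂ, (∀ i, (f i).IsHomogeneous (d i)) →
          aeval (cv d f) H0 ≠ 0 → Good d f ∧ ∀ (E : DivisorOver f n) (ε : ℝ), 0 < ε →
            (E.A : ℝ≥0∞) < ENNReal.ofReal (1 + ε) * ExpVan d E →
              ∀ (H : MvPolynomial (CI d (n + k + 1)) ℤ), aeval (cv d f) H ≠ 0 → ∀ M T : ℕ,
                ∃ (p : ℕ) (_ : Fact p.Prime) (F : Type) (_ : Field F) (_ : IsAlgClosed F)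
                  (_ : CharP F p) (κ : Type) (_ : Field κ) (_ : Algebra F κ)
                  (g' : Fin k → MvPolynomial (Fin (n + k + 1)) F) (A L : ℕ)
                  (y : Fin (n + k + 1) → Fin L → κ),
                  T ≤ p ∧ Good d g' ∧ aeval (cv d g') H ≠ 0 ∧
                  (∀ i, (PowerSeries.X : PowerSeries κ) ^ L ∣ ev y (g' i)) ∧ c0J y = 0 ∧
                  1 ≤ A ∧ T * A ≤ L ∧ (n + 1) * L ≤ tauJ F y + A ∧
                  ∀ m ≤ M, (1 - ε) * (A * g m) ≤ sigB F d Finset.univ y m := by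
  obtain ⟨Hg, hHg0, hHg⟩ := good_open (v := n + k + 1) d hd (by omega)
  refine ⟨gLev n k d, gLev_nonneg n k d, gLev_lim n k d hd hF, Hg, hHg0, ?_⟩
  intro f hf hfg
  have hgood := hHg ℂ f hf hfg
  refine ⟨hgood, ?_⟩
  intro E ε hε hE H hfH M T
  rw [expVan_good d hd hF f hgood E] at hE
  obtain ⟨p, hp, F, iF, iA, iC, κ, iκ, iAlg, g', A, L, y, z, h1, h2, h3, _, h5, _, h7, h8, h9,
    h10, h11⟩ := src_main d hd hF Hg (fun F _ f => hHg F f) H f hf hfg hfH E ε hε hE (max M T)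
  refine ⟨p, hp, F, iF, iA, iC, κ, iκ, iAlg, g', A, L, y, (le_max_right M T).trans h1, h2, h3,
    h5, h7, h8, (Nat.mul_le_mul_right A (le_max_right M T)).trans h9, h10, ?_⟩
  intro m hm
  have hσ := t1_sig_nonneg d g' h2 y h5 m
  have hA0 : (0 : ℝ) ≤ A := by positivity
  unfold gLev
  by_cases hcm : jdeg d ≤ m
  swap
  · rw [if_neg hcm]
    simpa using hσ
  rw [if_pos hcm]
  have h12 := h11 (m - jdeg d) (by
    have := le_max_left M T
    omega)
  rw [Nat.sub_add_cancel hcm] at h12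
  have hN : (0 : ℝ) ≤ (NN d (n + k + 1) Finset.univ m : ℝ) := by
    exact_mod_cast nb_nonneg d hd (n + k + 1) Finset.univ (by omega) m
  set r : ℕ := n + k + 1 - ∑ i, d i with hr
  have hr1 : 1 ≤ r := by omega
  have hrR : (0 : ℝ) < r := by exact_mod_cast hr1
  have hfac : (0 : ℝ) < n.factorial := by exact_mod_cast Nat.factorial_pos _
  set X : ℝ := ((∏ i, d i : ℕ) : ℝ) * ((m - jdeg d : ℕ) : ℝ) ^ (n + 1) / (n.factorial * r)
    with hX
  set h : ℝ := (n + 2) * (NN d (n + k + 1) Finset.univ m : ℝ) with hh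
  have hh0 : 0 ≤ h := by rw [hh]; positivity
  have hX1 : ((∏ i, d i : ℕ) : ℝ) * ((m - jdeg d : ℕ) : ℝ) ^ (n + 1) /
      ((1 + ε) * n.factorial * r) = X / (1 + ε) := by
    rw [hX, div_div]
    congr 1
    ring
  rw [hX1] at h12
  rcases le_or_gt X (2 * h) with hle | hgt
  · rw [max_eq_left (by linarith)]
    simpa using hσ
  rw [max_eq_right (by linarith)]
  rcases le_or_gt 1 ε with h1ε | h1ε
  · have h13 : (1 - ε) * (A * (X - 2 * h)) ≤ 0 :=
      mul_nonpos_of_nonpos_of_nonneg (by linarith) (mul_nonneg hA0 (by linarith))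
    exact h13.trans hσ
  · refine le_trans ?_ h12
    have h13 : (1 - ε) * (X - 2 * h) ≤ X / (1 + ε) - h := by
      have h14 : X / (1 + ε) - h = (X - (1 + ε) * h) / (1 + ε) := by
        field_simp
      rw [h14, le_div_iff₀ (by linarith)]
      nlinarith [mul_nonneg (sq_nonneg ε) (show 0 ≤ X - 2 * h by linarith),
        mul_nonneg hh0 (show 0 ≤ 1 - ε by linarith)]
    calc (1 - ε) * (A * (X - 2 * h)) = A * ((1 - ε) * (X - 2 * h)) := by ring
      _ ≤ A * (X / (1 + ε) - h) := by gcongr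

end Pool.Agent.OPT
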